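import Pool.Agent.FM.A1Machine
import Pool.Agent.Helper94.UEC.Final

/-!
A system of affine instructions with an undecidable reachability problem.
-/

namespace Pool.Agent.FM.A1

open Turing StateTransition Function Denumerable
open Pool.Agent.Helper94.UEC (St exists_univ digits_primrec T_finite)

/-- states of the simulating stack machine -/
inductive SQ (K G Λ σ : Type) : Type
  | run : St K G Λ σ → σ → SQ K G Λ σ
  | clean : SQ K G Λ σ
  | done : SQ K G Λ σ

section

variable {K G Λ σ : Type} (M : Λ → St K G Λ σ) (k0 : K)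

/-- the operations of the simulating machine -/
def dl : SQ K G Λ σ → Op K G (SQ K G Λ σ)
  | .run (.push k f s) v => .push k (f v) (.run s v)
  | .run (.peek k f s) v => .read k false fun r => .run s (f v r)
  | .run (.pop k f s) v => .read k true fun r => .run s (f v r)
  | .run (.load a s) v => .read k0 false fun _ => .run s (a v)
  | .run (.branch p s₁ s₂) v => .read k0 false fun _ => .run (cond (p v) s₁ s₂) v
  | .run (.goto l) v => .read k0 false fun _ => .run (M (l v)) v
  | .run .halt _ => .read k0 false fun _ => .clean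
  | .clean => .read k0 true fun r => match r with
    | none => .done
    | some _ => .clean
  | .done => .stop

variable [DecidableEq K]

theorem sim_aux (s : St K G Λ σ) (v : σ) (S : K → List G) :
    Reaches₁ (mstep (dl M k0)) (.run s v, S) (match (TM2.stepAux s v S).l with
        | some l => .run (M l) (TM2.stepAux s v S).var
        | none => .clean, (TM2.stepAux s v S).stk) := by
  induction s generalizing v S with
  | push k f s ih =>
    exact Relation.TransGen.head (b := (SQ.run s v, update S k (f v :: S k))) rfl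
      (ih v (update S k (f v :: S k)))
  | peek k f s ih =>
    exact Relation.TransGen.head (b := (SQ.run s (f v (S k).head?), S)) rfl (ih (f v (S k).head?) S)
  | pop k f s ih =>
    exact Relation.TransGen.head (b := (SQ.run s (f v (S k).head?), update S k (S k).tail)) rfl
      (ih (f v (S k).head?) (update S k (S k).tail))
  | load a s ih =>
    exact Relation.TransGen.head (b := (SQ.run s (a v), S)) rfl (ih (a v) S)
  | branch p s₁ s₂ ih₁ ih₂ =>
    refine Relation.TransGen.head (b := (SQ.run (cond (p v) s₁ s₂) v, S)) rfl ?_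
    have he : TM2.stepAux (.branch p s₁ s₂) v S = cond (p v) (TM2.stepAux s₁ v S) (TM2.stepAux s₂ v S) := rfl
    rw [he]
    cases hp : p v with
    | true => exact ih₁ _ _
    | false => exact ih₂ _ _
  | goto l => exact Relation.TransGen.single rfl
  | halt => exact Relation.TransGen.single rfl

theorem clean_reaches (l : List G) (S : K → List G) :
    Reaches (mstep (dl M k0)) (.clean, update S k0 l) (.done, update S k0 []) := by
  induction l with
  | nil =>
    refine Relation.ReflTransGen.single ?_
    show mstep (dl M k0) (.clean, update S k0 []) = some (.done, update S k0 [])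
    simp [mstep, dl, stepOp]
  | cons g l ih =>
    refine Relation.ReflTransGen.head ?_ ih
    show mstep (dl M k0) (.clean, update S k0 (g :: l)) = some (.clean, update S k0 l)
    simp [mstep, dl, stepOp]

/-- the simulation relation -/
def Sim (a : TM2.Cfg (fun _ : K => G) Λ σ) (b : SQ K G Λ σ × (K → List G)) : Prop :=
  match a.l with
  | some l => b = (.run (M l) a.var, a.stk)
  | none => b = (.done, update a.stk k0 [])

theorem respects : Respects (TM2.step M) (mstep (dl M k0)) (Sim M k0) := by
  rintro ⟨l, v, S⟩ b hb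
  cases l with
  | none =>
    simp only [Sim] at hb
    subst hb
    rfl
  | some l =>
    simp only [Sim] at hb
    subst hb
    have h1 := sim_aux M k0 (M l) v S
    show ∃ b₂, Sim M k0 (TM2.stepAux (M l) v S) b₂ ∧ Reaches₁ (mstep (dl M k0)) (.run (M l) v, S) b₂
    rcases h : TM2.stepAux (M l) v S with ⟨l', v', S'⟩
    rw [h] at h1
    cases l' with
    | some l' => exact ⟨_, rfl, h1⟩
    | none =>
      refine ⟨(.done, update S' k0 []), rfl, ?_⟩
      have h2 := clean_reaches M k0 (S' k0) S'
      rw [update_eq_self] at h2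
      exact Relation.TransGen.trans_left h1 h2

/-- the closed set of states -/
def FS (T : St K G Λ σ → Prop) : SQ K G Λ σ → Prop
  | .run s _ => T s
  | .clean => True
  | .done => True

omit [DecidableEq K] in
theorem FS_finite [Finite σ] {T : St K G Λ σ → Prop} (hT : Finite {s // T s}) :
    Finite {q // FS T q} := by
  let f : {q // FS T q} → Option (Option ({s // T s} × σ)) := fun q =>
    match q with
    | ⟨.run s v, h⟩ => some (some (⟨s, h⟩, v))
    | ⟨.clean, _⟩ => some none
    | ⟨.done, _⟩ => none
  apply Finite.of_injective f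
  rintro ⟨q, hq⟩ ⟨q', hq'⟩ h
  cases q <;> cases q' <;> simp only [f, Option.some.injEq, Prod.mk.injEq,
    reduceCtorEq] at h
  · have h1 := congrArg Subtype.val h.1
    have h2 := h.2
    simp only [] at h1
    subst h1 h2
    rfl
  · rfl
  · rfl

theorem FS_closed {S : Finset Λ} (hS : ∀ l ∈ S, TM2.SupportsStmt S (M l))
    {c c' : SQ K G Λ σ × (K → List G)}
    (hq : FS (fun s => ∃ l ∈ S, s ∈ TM2.stmts₁ (M l)) c.1) (h : mstep (dl M k0) c = some c') :
    FS (fun s => ∃ l ∈ S, s ∈ TM2.stmts₁ (M l)) c'.1 := by
  classical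
  have hsub : ∀ {s s' : St K G Λ σ}, (∃ l ∈ S, s ∈ TM2.stmts₁ (M l)) → s' ∈ TM2.stmts₁ s →
      ∃ l ∈ S, s' ∈ TM2.stmts₁ (M l) := by
    rintro s s' ⟨l, hl, hs⟩ hs'
    exact ⟨l, hl, TM2.stmts₁_trans hs hs'⟩
  obtain ⟨q, X⟩ := c
  cases q with
  | run s u =>
    cases s with
    | push j f s =>
      have hT := hsub (s' := s) hq (by simp [TM2.stmts₁, TM2.stmts₁_self])
      simp only [mstep, dl, stepOp, Option.some.injEq] at h
      rw [← h]; exact hT
    | peek j f s =>
      have hT := hsub (s' := s) hq (by simp [TM2.stmts₁, TM2.stmts₁_self])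
      simp only [mstep, dl, stepOp, Option.some.injEq] at h
      rw [← h]; exact hT
    | pop j f s =>
      have hT := hsub (s' := s) hq (by simp [TM2.stmts₁, TM2.stmts₁_self])
      simp only [mstep, dl, stepOp, Option.some.injEq] at h
      rw [← h]; exact hT
    | load a s =>
      have hT := hsub (s' := s) hq (by simp [TM2.stmts₁, TM2.stmts₁_self])
      simp only [mstep, dl, stepOp, Option.some.injEq] at h
      rw [← h]; exact hT
    | branch p s₁ s₂ =>
      have hT₁ := hsub (s' := s₁) hq (by simp [TM2.stmts₁, TM2.stmts₁_self])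
      have hT₂ := hsub (s' := s₂) hq (by simp [TM2.stmts₁, TM2.stmts₁_self])
      simp only [mstep, dl, stepOp, Option.some.injEq] at h
      rw [← h]
      show ∃ l ∈ S, cond (p u) s₁ s₂ ∈ TM2.stmts₁ (M l)
      cases p u
      · exact hT₂
      · exact hT₁
    | goto l =>
      simp only [mstep, dl, stepOp, Option.some.injEq] at h
      rw [← h]
      obtain ⟨l', hl', hs⟩ := hq
      have h1 := TM2.stmts₁_supportsStmt_mono hs (hS l' hl')
      exact ⟨l u, h1 u, TM2.stmts₁_self⟩
    | halt =>
      simp only [mstep, dl, stepOp, Option.some.injEq] at h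
      rw [← h]; trivial
  | clean =>
    simp only [mstep, dl, stepOp, Option.some.injEq] at h
    rw [← h]
    cases (X k0).head? <;> trivial
  | done => simp [mstep, dl, stepOp] at h

end

theorem natCast_primrec : Primrec fun n : ℕ => (n : ℤ) := by
  rw [← Primrec.encode_iff]
  have : (fun n : ℕ => Encodable.encode (n : ℤ)) = fun n => 2 * n := by
    funext n
    rfl
  rw [this]
  exact Primrec.nat_mul.comp (Primrec.const 2) Primrec.id

/-- natural number codes -/
def ncode {G : Type} (dg : G → ℕ) : List G → ℕ
  | [] => 0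
  | g :: l => dg g + 5 * ncode dg l

theorem ncode_cast {G : Type} (dg : G → ℕ) (l : List G) : (ncode dg l : ℤ) = code dg l := by
  induction l with
  | nil => rfl
  | cons g l ih => simp [ncode, code, ih]

theorem ncode_foldr {G : Type} (dg : G → ℕ) (l : List G) :
    ncode dg l = (l.map dg).foldr (fun a b => a + 5 * b) 0 := by
  induction l with
  | nil => rfl
  | cons g l ih => simp [ncode, ih]

end Pool.Agent.FM.A1

namespace Pool.Agent.FM

open Turing StateTransition Function Denumerable PartrecToTM2
open Pool.Agent.Helper94.UEC (St exists_univ digits_primrec T_finite)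

theorem exists_machine : ∃ (d : ℕ) (L : List (Instr d)) (o : Fin d → ℤ) (v : ℕ → Fin d → ℤ),
    (∀ I ∈ L, ∀ j, 0 < I.P j ∧ 0 < I.Q j) ∧ Computable v ∧
    ¬ ComputablePred fun n => MEqv L (v n) o := by
  classical
  obtain ⟨c, hc⟩ := exists_univ
  let M : Λ' → St K' Γ' Λ' (Option Γ') := PartrecToTM2.tr
  let S : Finset Λ' := codeSupp c Cont'.halt
  have hS : ∀ l ∈ S, TM2.SupportsStmt S (M l) := (tr_supports c Cont'.halt).2
  have hS0 : trNormal c Cont'.halt ∈ S := (tr_supports c Cont'.halt).1
  let T : St K' Γ' Λ' (Option Γ') → Prop := fun s => ∃ l ∈ S, s ∈ TM2.stmts₁ (M l)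
  have hfin : Set.Finite {q : A1.SQ K' Γ' Λ' (Option Γ') | A1.FS T q} := A1.FS_finite (T_finite M S)
  let F : Finset (A1.SQ K' Γ' Λ' (Option Γ')) := hfin.toFinset
  have hF : ∀ q, q ∈ F ↔ A1.FS T q := fun q => by simp [F]
  let e : K' ≃ Fin 4 :=
    { toFun := fun k => match k with
        | K'.main => 0
        | K'.rev => 1
        | K'.aux => 2
        | K'.stack => 3
      invFun := ![K'.main, K'.rev, K'.aux, K'.stack]
      left_inv := by intro k; cases k <;> rfl
      right_inv := by decide }
  obtain ⟨N, ⟨ee⟩⟩ := Finite.exists_equiv_fin F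
  let num : A1.SQ K' Γ' Λ' (Option Γ') → ℕ := fun q => if h : q ∈ F then (ee ⟨q, h⟩ : ℕ) else 0
  have hnum : ∀ q ∈ F, num q < N := by
    intro q hq
    simp only [num, dif_pos hq]
    exact (ee ⟨q, hq⟩).2
  have hinj : Set.InjOn num F := by
    intro q hq q' hq' h
    have hq1 : q ∈ F := hq
    have hq1' : q' ∈ F := hq'
    simp only [num, dif_pos hq1, dif_pos hq1'] at h
    have := ee.injective (Fin.ext h)
    simpa using this
  let dg : Γ' → ℕ := fun g => match g with
    | Γ'.consₗ => 1
    | Γ'.cons => 2
    | Γ'.bit0 => 3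
    | Γ'.bit1 => 4
  have hdg : ∀ g, 0 < dg g ∧ dg g < 5 := by intro g; cases g <;> simp [dg]
  have hdgi : Injective dg := by intro g g' h; cases g <;> cases g' <;> simp_all [dg]
  let GS : List Γ' := [Γ'.consₗ, Γ'.cons, Γ'.bit0, Γ'.bit1]
  have hGS : ∀ g, g ∈ GS := by intro g; cases g <;> simp [GS]
  let q0 : A1.SQ K' Γ' Λ' (Option Γ') := .run (M (trNormal c Cont'.halt)) none
  have hq0 : q0 ∈ F := (hF q0).mpr ⟨_, hS0, TM2.stmts₁_self⟩
  have hqh : A1.SQ.done ∈ F := (hF _).mpr trivial
  have hclosed : ∀ c c' : A1.SQ K' Γ' Λ' (Option Γ') × (K' → List Γ'), c.1 ∈ F →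
      A1.mstep (A1.dl M K'.main) c = some c' → c'.1 ∈ F := fun c c' h1 h2 =>
    (hF _).mpr (A1.FS_closed M K'.main hS ((hF _).mp h1) h2)
  have hN : 0 < N := by
    have := hnum _ hqh
    omega
  let st : ℕ → K' → List Γ' := fun n => K'.elim (trList [n]) [] [] []
  have heval : ∀ n, eval (TM2.step M) ⟨some (trNormal c Cont'.halt), none, st n⟩ =
      PartrecToTM2.halt <$> c.eval [n] := fun n => PartrecToTM2.tr_eval c [n]
  have hsim : ∀ n, A1.Sim M K'.main ⟨some (trNormal c Cont'.halt), none, st n⟩ (q0, st n) := fun n => rfl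
  have hfinal : ∀ n, ∀ x, x ∈ eval (A1.mstep (A1.dl M K'.main)) (q0, st n) →
      x = (A1.SQ.done, fun _ => []) := by
    intro n x hx
    obtain ⟨b, hb1, hb2⟩ := tr_eval_rev (A1.respects M K'.main) (hsim n) hx
    rw [heval] at hb2
    have hb3 : b ∈ (c.eval [n]).map PartrecToTM2.halt := hb2
    obtain ⟨w, _, hw⟩ := (Part.mem_map_iff (f := PartrecToTM2.halt)).mp hb3
    subst hw
    have hb4 : x = (A1.SQ.done, update (K'.elim (trList w) [] [] []) K'.main []) := hb1
    rw [hb4]
    have : update (K'.elim (trList w) [] [] []) K'.main [] = fun _ => [] := by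
      funext k
      cases k <;> rfl
    rw [this]
  have hdom : ∀ n, (eval (A1.mstep (A1.dl M K'.main)) (q0, st n)).Dom ↔
      ((ofNat Nat.Partrec.Code n).eval 0).Dom := by
    intro n
    rw [tr_eval_dom (A1.respects M K'.main) (hsim n), heval, ← hc n]
    rfl
  have hmain : ∀ n, MEqv (A1.allI e (A1.dl M K'.main) F num N dg GS) (A1.enc e num dg (q0, st n))
      (A1.enc e num dg (A1.SQ.done, fun _ => [])) ↔ ((ofNat Nat.Partrec.Code n).eval 0).Dom := by
    intro n
    rw [← hdom n]
    exact A1.main_iff hnum hinj hdg hdgi hGS hclosed hq0 hqh rfl (st n) (hfinal n)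
  refine ⟨5, A1.allI e (A1.dl M K'.main) F num N dg GS, A1.enc e num dg (A1.SQ.done, fun _ => []),
    fun n => A1.enc e num dg (q0, st n), A1.pos_allI hN, ?_, ?_⟩
  · refine Primrec.to_comp ?_
    rw [Primrec.fin_curry]
    have hprim : Primrec fun n : ℕ => A1.ncode dg (trNat n ++ [Γ'.cons]) := by
      have h1 : Primrec fun n : ℕ => ((trNat n).map dg).foldr (fun a b => a + 5 * b) 2 := by
        have := Primrec.list_foldr (f := fun n : ℕ => (trNat n).map dg) (g := fun _ : ℕ => 2)
          (h := fun (_ : ℕ) (p : ℕ × ℕ) => p.1 + 5 * p.2) (digits_primrec dg) (Primrec.const 2) (by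
            refine Primrec.nat_add.comp (Primrec.fst.comp Primrec.snd) ?_
            exact Primrec.nat_mul.comp (Primrec.const 5) (Primrec.snd.comp Primrec.snd))
        exact this
      refine Primrec.of_eq h1 fun n => ?_
      rw [A1.ncode_foldr, List.map_append, List.foldr_append]
      rfl
    have h0 : ∀ i : Fin 5, Primrec fun n : ℕ => A1.enc e num dg (q0, st n) i := by
      intro i
      refine Fin.cases ?_ (fun i => ?_) i
      · exact Primrec.const (num q0 : ℤ)
      · by_cases hi : i = 0
        · subst hi
          refine Primrec.of_eq (A1.natCast_primrec.comp hprim) fun n => ?_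
          rw [A1.ncode_cast]
          rfl
        · refine Primrec.of_eq (Primrec.const 0) fun n => ?_
          have : e.symm i ≠ K'.main := by
            intro h
            apply hi
            rw [← e.apply_symm_apply i, h]
            rfl
          have h2 : st n (e.symm i) = [] := by
            simp only [st]
            cases h3 : e.symm i with
            | main => exact absurd h3 this
            | rev => rfl
            | aux => rfl
            | stack => rfl
          simp [A1.enc, h2, A1.code]
    have h1 := (Primrec.fin_curry₁ (f := fun (i : Fin 5) (n : ℕ) => A1.enc e num dg (q0, st n) i)).mpr h0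
    exact h1.swap
  · intro hcp
    have h2 : ComputablePred fun n : ℕ => ((ofNat Nat.Partrec.Code n).eval 0).Dom :=
      hcp.of_eq fun n => hmain n
    have h3 : ComputablePred fun c : Nat.Partrec.Code => (c.eval 0).Dom := by
      obtain ⟨hdec, hcomp'⟩ := h2
      have h4 := hcomp'.comp (Computable.encode (α := Nat.Partrec.Code))
      refine ⟨fun c => decidable_of_iff ((ofNat Nat.Partrec.Code (Encodable.encode c)).eval 0).Dom
        (by rw [ofNat_encode]), ?_⟩
      refine h4.of_eq fun c => ?_
      simp only [ofNat_encode]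
      congr
    exact ComputablePred.halting_problem 0 h3

end Pool.Agent.FM
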