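import Pool.Agent.FM.GDefs

/-!
Stack machines coded by affine instructions.
-/

namespace Pool.Agent.FM.A1

open Turing StateTransition Function

/-- operations of stack machines -/
inductive Op (K G Q : Type) : Type
  | stop : Op K G Q
  | push : K → G → Q → Op K G Q
  | read : K → Bool → (Option G → Q) → Op K G Q

/-- an instruction changing the state and one more coordinate -/
def mkI {n : ℕ} (N : ℕ) (x y : ℤ) (j : Fin n) (P Q : ℕ) (a c : ℤ) : Instr (n + 1) where
  P := Fin.cons N (update (fun _ => 1) j P)
  Q := Fin.cons N (update (fun _ => 1) j Q)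
  a := Fin.cons x (update (fun _ => 0) j a)
  c := Fin.cons y (update (fun _ => 0) j c)

theorem mkI_step {n N : ℕ} {x y : ℤ} {j : Fin n} {P Q : ℕ} {a c : ℤ} {v v' : Fin (n + 1) → ℤ} :
    (mkI N x y j P Q a c).Step v v' ↔ ∃ k l : ℤ, v 0 = x + N * k ∧ v' 0 = y + N * k ∧
      v j.succ = a + P * l ∧ v' j.succ = c + Q * l ∧ ∀ i, i ≠ j → v' i.succ = v i.succ := by
  constructor
  · rintro ⟨k, hk, hk'⟩
    refine ⟨k 0, k j.succ, ?_, ?_, ?_, ?_, ?_⟩
    · have := hk 0; simpa [mkI, -Fin.cons_update] using this
    · have := hk' 0; simpa [mkI, -Fin.cons_update] using this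
    · have := hk j.succ; simpa [mkI, -Fin.cons_update] using this
    · have := hk' j.succ; simpa [mkI, -Fin.cons_update] using this
    · intro i hi
      have h1 := hk i.succ
      have h2 := hk' i.succ
      simp [mkI, -Fin.cons_update, update_of_ne hi] at h1 h2
      rw [h1, h2]
  · rintro ⟨k, l, h1, h2, h3, h4, h5⟩
    refine ⟨Fin.cons k (fun i => if i = j then l else v i.succ), ?_, ?_⟩
    · intro i
      refine Fin.cases ?_ (fun i => ?_) i
      · simpa [mkI, -Fin.cons_update] using h1
      · by_cases hi : i = j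
        · subst hi; simpa [mkI, -Fin.cons_update] using h3
        · simp [mkI, -Fin.cons_update, hi]
    · intro i
      refine Fin.cases ?_ (fun i => ?_) i
      · simpa [mkI, -Fin.cons_update] using h2
      · by_cases hi : i = j
        · subst hi; simpa [mkI, -Fin.cons_update] using h4
        · simp [mkI, -Fin.cons_update, hi, h5 i hi]

section

variable {K G Q : Type} [DecidableEq K]

/-- one operation -/
def stepOp (S : K → List G) : Op K G Q → Option (Q × (K → List G))
  | .stop => none
  | .push k g q => some (q, update S k (g :: S k))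
  | .read k p f => some (f (S k).head?, if p then update S k (S k).tail else S)

/-- the step function -/
def mstep (δ : Q → Op K G Q) (c : Q × (K → List G)) : Option (Q × (K → List G)) :=
  stepOp c.2 (δ c.1)

/-- digits -/
def odg (dg : G → ℕ) : Option G → ℕ
  | none => 0
  | some g => dg g

/-- the code of a stack -/
def code (dg : G → ℕ) : List G → ℤ
  | [] => 0
  | g :: l => dg g + 5 * code dg l

theorem code_eq (dg : G → ℕ) (l : List G) : code dg l = odg dg l.head? + 5 * code dg l.tail := by
  cases l with
  | nil => simp [code, odg]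
  | cons g l => simp [code, odg]

variable {n : ℕ} (e : K ≃ Fin n) (δ : Q → Op K G Q) (F : Finset Q) (num : Q → ℕ) (N : ℕ)
  (dg : G → ℕ) (GS : List G)

/-- instructions of a state -/
def instrs (q : Q) : List (Instr (n + 1)) :=
  match δ q with
  | .stop => []
  | .push k g q' => [mkI N (num q) (num q') (e k) 1 5 0 (dg g)]
  | .read k p f => (none :: GS.map some).map fun r =>
      if p then mkI N (num q) (num (f r)) (e k) 5 1 (odg dg r) 0
      else mkI N (num q) (num (f r)) (e k) 5 5 (odg dg r) (odg dg r)

/-- all instructions -/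
noncomputable def allI : List (Instr (n + 1)) := F.toList.flatMap (instrs e δ num N dg GS)

/-- the vector of a configuration -/
def enc (c : Q × (K → List G)) : Fin (n + 1) → ℤ :=
  Fin.cons (num c.1 : ℤ) fun i => code dg (c.2 (e.symm i))

/-- the transitions -/
def R (v v' : Fin (n + 1) → ℤ) : Prop := ∃ I ∈ allI e δ F num N dg GS, I.Step v v'

variable {e δ F num N dg GS}

omit [DecidableEq K] in
theorem mem_allI {I : Instr (n + 1)} : I ∈ allI e δ F num N dg GS ↔ ∃ q ∈ F, I ∈ instrs e δ num N dg GS q := by
  simp [allI]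

theorem pos_allI (hN : 0 < N) : ∀ I ∈ allI e δ F num N dg GS, ∀ j, 0 < I.P j ∧ 0 < I.Q j := by
  have key : ∀ {x y : ℤ} {j : Fin n} {P Q : ℕ} {a c : ℤ}, 0 < P → 0 < Q →
      ∀ i, 0 < (mkI N x y j P Q a c).P i ∧ 0 < (mkI N x y j P Q a c).Q i := by
    intro x y j P Q a c hP hQ i
    refine Fin.cases ?_ (fun i => ?_) i
    · simp [mkI, -Fin.cons_update, hN]
    · by_cases hi : i = j
      · subst hi; simp [mkI, -Fin.cons_update, hP, hQ]
      · simp [mkI, -Fin.cons_update, update_of_ne hi]
  intro I hI
  obtain ⟨q, _, hI⟩ := mem_allI.mp hI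
  unfold instrs at hI
  split at hI
  · simp at hI
  · simp only [List.mem_singleton] at hI
    rw [hI]; exact key (by norm_num) (by norm_num)
  · rw [List.mem_map] at hI
    obtain ⟨r, _, hI⟩ := hI
    split at hI
    · rw [← hI]; exact key (by norm_num) (by norm_num)
    · rw [← hI]; exact key (by norm_num) (by norm_num)

/-- uniqueness of division with remainder -/
theorem divUnique {N : ℕ} {x x' : ℕ} {k k' : ℤ} (hx : x < N) (hx' : x' < N)
    (h : (x : ℤ) + N * k = x' + N * k') : x = x' ∧ k = k' := by
  have hN : (0 : ℤ) < N := by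
    have : 0 < N := by omega
    exact_mod_cast this
  have h1 : ((x : ℤ) + N * k) % N = x := by
    rw [Int.add_mul_emod_self_left]; exact Int.emod_eq_of_lt (by positivity) (by exact_mod_cast hx)
  have h2 : ((x' : ℤ) + N * k') % N = x' := by
    rw [Int.add_mul_emod_self_left]; exact Int.emod_eq_of_lt (by positivity) (by exact_mod_cast hx')
  have h3 : (x : ℤ) = x' := by rw [← h1, ← h2, h]
  refine ⟨by exact_mod_cast h3, ?_⟩
  rw [h3] at h
  have h4 : (N : ℤ) * k = N * k' := by linarith
  exact mul_left_cancel₀ hN.ne' h4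

variable (hnum : ∀ q ∈ F, num q < N) (hinj : Set.InjOn num F) (hdg : ∀ g, 0 < dg g ∧ dg g < 5)
  (hdgi : Injective dg)

include hdg hdgi in
theorem odg_inj : Injective (odg dg) := by
  intro a b h
  cases a with
  | none =>
    cases b with
    | none => rfl
    | some g => have := (hdg g).1; simp only [odg] at h; omega
  | some g =>
    cases b with
    | none => have := (hdg g).1; simp only [odg] at h; omega
    | some g' => simp only [odg] at h; rw [hdgi h]

include hdg in
theorem odg_lt (r : Option G) : odg dg r < 5 := by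
  cases r with
  | none => simp [odg]
  | some g => exact (hdg g).2

include hnum hinj hdg hdgi in
theorem R_det {v v' v'' : Fin (n + 1) → ℤ} (h : R e δ F num N dg GS v v')
    (h' : R e δ F num N dg GS v v'') : v' = v'' := by
  obtain ⟨I, hI, hs⟩ := h
  obtain ⟨I', hI', hs'⟩ := h'
  obtain ⟨q, hq, hI⟩ := mem_allI.mp hI
  obtain ⟨q', hq', hI'⟩ := mem_allI.mp hI'
  have key0 : ∀ {y : ℤ} {j : Fin n} {P Q : ℕ} {a c : ℤ} {y' : ℤ} {j' : Fin n} {P' Q' : ℕ} {a' c' : ℤ},
      (mkI N (num q) y j P Q a c).Step v v' → (mkI N (num q') y' j' P' Q' a' c').Step v v'' → q = q' := by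
    intro y j P Q a c y' j' P' Q' a' c' h1 h2
    rw [mkI_step] at h1 h2
    obtain ⟨k, l, h1, _⟩ := h1
    obtain ⟨k', l', h2, _⟩ := h2
    have h3 := divUnique (hnum q hq) (hnum q' hq') (h1.symm.trans h2)
    exact hinj hq hq' h3.1
  have hform : ∀ {q : Q} {I : Instr (n + 1)}, I ∈ instrs e δ num N dg GS q →
      ∃ y j P Q a c, I = mkI N (num q) y j P Q a c := by
    intro q I hI
    unfold instrs at hI
    split at hI
    · simp at hI
    · simp only [List.mem_singleton] at hI
      exact ⟨_, _, _, _, _, _, hI⟩
    · rw [List.mem_map] at hI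
      obtain ⟨r, _, hI⟩ := hI
      split at hI
      · exact ⟨_, _, _, _, _, _, hI.symm⟩
      · exact ⟨_, _, _, _, _, _, hI.symm⟩
  have hqq : q = q' := by
    obtain ⟨y, j, P, Q, a, c, rfl⟩ := hform hI
    obtain ⟨y', j', P', Q', a', c', rfl⟩ := hform hI'
    exact key0 hs hs'
  subst hqq
  have key1 : ∀ {y y' : ℤ} {j : Fin n} {P Q : ℕ} {a c : ℕ} {a' : ℕ} {c' : ℕ} , a < P → a' < P →
      (mkI N (num q) y j P Q a c).Step v v' → (mkI N (num q) y' j P Q a' c').Step v v'' →
      a = a' ∧ (y = y' → c = c' → v' = v'') := by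
    intro y y' j P Q a c a' c' ha ha' h1 h2
    rw [mkI_step] at h1 h2
    obtain ⟨k', l', h1', h2', h3', h4', h5'⟩ := h2
    obtain ⟨k, l, h1, h2, h3, h4, h5⟩ := h1
    have e1 := divUnique (hnum q hq) (hnum q hq') (h1.symm.trans h1')
    have e2 := divUnique ha ha' (h3.symm.trans h3')
    refine ⟨e2.1, fun hy hc => ?_⟩
    funext i
    refine Fin.cases ?_ (fun i => ?_) i
    · rw [h2, h2', hy, e1.2]
    · by_cases hi : i = j
      · subst hi; rw [h4, h4', hc, e2.2]
      · rw [h5 i hi, h5' i hi]
  unfold instrs at hI hI'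
  split at hI
  · simp at hI
  · next k g q' hδ =>
    rw [hδ] at hI'
    simp only [List.mem_singleton] at hI hI'
    subst hI; subst hI'
    have := key1 (a := 0) (a' := 0) (c := dg g) (c' := dg g) (P := 1) (Q := 5) (by norm_num) (by norm_num) hs hs'
    exact this.2 rfl rfl
  · next k p f hδ =>
    rw [hδ] at hI'
    simp only [List.mem_map] at hI hI'
    obtain ⟨r, _, hI⟩ := hI
    obtain ⟨r', _, hI'⟩ := hI'
    cases p with
    | true =>
      simp only [if_true] at hI hI'
      subst hI; subst hI'
      have := key1 (a := odg dg r) (a' := odg dg r') (c := 0) (c' := 0) (P := 5) (Q := 1)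
        (odg_lt hdg r) (odg_lt hdg r') hs hs'
      have hr := odg_inj hdg hdgi this.1
      subst hr
      exact this.2 rfl rfl
    | false =>
      simp only [Bool.false_eq_true, if_false] at hI hI'
      subst hI; subst hI'
      have := key1 (a := odg dg r) (a' := odg dg r') (c := odg dg r) (c' := odg dg r') (P := 5) (Q := 5)
        (odg_lt hdg r) (odg_lt hdg r') hs hs'
      have hr := odg_inj hdg hdgi this.1
      subst hr
      exact this.2 rfl rfl

variable (hGS : ∀ g, g ∈ GS)

include hGS in
theorem R_sim {c c' : Q × (K → List G)} (hc : c.1 ∈ F) (h : mstep δ c = some c') :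
    R e δ F num N dg GS (enc e num dg c) (enc e num dg c') := by
  obtain ⟨q, S⟩ := c
  unfold mstep at h
  simp only [] at h hc
  cases hδ : δ q with
  | stop => rw [hδ] at h; simp [stepOp] at h
  | push k g q' =>
    rw [hδ] at h
    simp only [stepOp, Option.some.injEq] at h
    subst h
    refine ⟨mkI N (num q) (num q') (e k) 1 5 0 (dg g), mem_allI.mpr ⟨q, hc, by simp [instrs, hδ]⟩, ?_⟩
    rw [mkI_step]
    refine ⟨0, code dg (S k), by simp [enc], by simp [enc], by simp [enc], by simp [enc, code], ?_⟩
    intro i hi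
    have : e.symm i ≠ k := by rintro rfl; simp at hi
    simp [enc, update_of_ne this]
  | read k p f =>
    rw [hδ] at h
    simp only [stepOp, Option.some.injEq] at h
    subst h
    have hmem : (S k).head? ∈ (none :: GS.map some) := by
      cases (S k).head? with
      | none => simp
      | some g => simp [hGS g]
    cases p with
    | true =>
      refine ⟨mkI N (num q) (num (f (S k).head?)) (e k) 5 1 (odg dg (S k).head?) 0,
        mem_allI.mpr ⟨q, hc, ?_⟩, ?_⟩
      · unfold instrs; rw [hδ]; simp only [if_true]; exact List.mem_map.mpr ⟨_, hmem, rfl⟩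
      · rw [mkI_step]
        refine ⟨0, code dg (S k).tail, by simp [enc], by simp [enc], by simp [enc, ← code_eq],
          by simp [enc], ?_⟩
        intro i hi
        have : e.symm i ≠ k := by rintro rfl; simp at hi
        simp [enc, update_of_ne this]
    | false =>
      refine ⟨mkI N (num q) (num (f (S k).head?)) (e k) 5 5 (odg dg (S k).head?) (odg dg (S k).head?),
        mem_allI.mpr ⟨q, hc, ?_⟩, ?_⟩
      · unfold instrs; rw [hδ]; simp only [Bool.false_eq_true, if_false]; exact List.mem_map.mpr ⟨_, hmem, rfl⟩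
      · rw [mkI_step]
        refine ⟨0, code dg (S k).tail, by simp [enc], by simp [enc], by simp [enc, ← code_eq],
          by simp [enc, ← code_eq], ?_⟩
        intro i hi
        simp [enc]

include hnum hinj in
theorem R_term {q : Q} (hq : q ∈ F) (hδ : δ q = .stop) {S : K → List G} {v' : Fin (n + 1) → ℤ} :
    ¬ R e δ F num N dg GS (enc e num dg (q, S)) v' := by
  rintro ⟨I, hI, hs⟩
  obtain ⟨q', hq', hI⟩ := mem_allI.mp hI
  have hform : ∃ y j P Q a c, I = mkI N (num q') y j P Q a c := by
    unfold instrs at hI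
    split at hI
    · simp at hI
    · simp only [List.mem_singleton] at hI
      exact ⟨_, _, _, _, _, _, hI⟩
    · rw [List.mem_map] at hI
      obtain ⟨r, _, hI⟩ := hI
      split at hI
      · exact ⟨_, _, _, _, _, _, hI.symm⟩
      · exact ⟨_, _, _, _, _, _, hI.symm⟩
  obtain ⟨y, j, P, Q', a, c, rfl⟩ := hform
  rw [mkI_step] at hs
  obtain ⟨k, l, h1, _⟩ := hs
  have h2 : ((num q : ℕ) : ℤ) + N * (0 : ℤ) = num q' + N * k := by
    rw [← h1]; simp [enc]
  have h3 := divUnique (hnum q hq) (hnum q' hq') h2
  have h4 := hinj hq hq' h3.1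
  subst h4
  unfold instrs at hI
  rw [hδ] at hI
  simp at hI

omit [DecidableEq K] in
/-- deterministic relations and terminal elements -/
theorem eqvGen_iff {α : Type} {r : α → α → Prop} (hd : ∀ a b c, r a b → r a c → b = c) {o : α}
    (ho : ∀ b, ¬ r o b) (a : α) : Relation.EqvGen r a o ↔ Relation.ReflTransGen r a o := by
  constructor
  · intro h
    have heq : Equivalence (Relation.Join (Relation.ReflTransGen r)) :=
      Relation.equivalence_join_reflTransGen fun a b c h1 h2 =>
        ⟨b, Relation.ReflGen.refl, by rw [hd a b c h1 h2]⟩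
    have h2 : Relation.Join (Relation.ReflTransGen r) a o := by
      clear ho
      induction h with
      | rel x y h => exact ⟨y, Relation.ReflTransGen.single h, Relation.ReflTransGen.refl⟩
      | refl x => exact heq.refl x
      | symm x y _ ih => exact heq.symm ih
      | trans x y z _ _ ih1 ih2 => exact heq.trans ih1 ih2
    obtain ⟨c, h3, h4⟩ := h2
    have h5 : c = o := by
      rcases Relation.ReflTransGen.cases_head h4 with h | ⟨b, hb, _⟩
      · exact h.symm
      · exact absurd hb (ho b)
    rw [← h5]; exact h3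
  · intro h
    clear ho
    induction h with
    | refl => exact Relation.EqvGen.refl _
    | tail _ h ih => exact Relation.EqvGen.trans _ _ _ ih (Relation.EqvGen.rel _ _ h)

include hnum hinj hdg hdgi hGS in
theorem main_iff (hF : ∀ c c' : Q × (K → List G), c.1 ∈ F → mstep δ c = some c' → c'.1 ∈ F)
    {q0 qh : Q} (hq0 : q0 ∈ F) (hqh : qh ∈ F) (hδ : δ qh = .stop) (S0 : K → List G)
    (hfin : ∀ c, c ∈ eval (mstep δ) (q0, S0) → c = (qh, fun _ => [])) :
    Relation.EqvGen (R e δ F num N dg GS) (enc e num dg (q0, S0)) (enc e num dg (qh, fun _ => [])) ↔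
      (eval (mstep δ) (q0, S0)).Dom := by
  rw [eqvGen_iff (r := R e δ F num N dg GS) (fun a b c => R_det hnum hinj hdg hdgi)
    (fun b => R_term hnum hinj hqh hδ)]
  constructor
  · intro h
    have key : ∀ v, Relation.ReflTransGen (R e δ F num N dg GS) v (enc e num dg (qh, fun _ => [])) →
        ∀ c : Q × (K → List G), c.1 ∈ F → v = enc e num dg c → (eval (mstep δ) c).Dom := by
      intro v hv
      induction hv using Relation.ReflTransGen.head_induction_on with
      | refl =>
        intro c hc hv
        have h1 := congrFun hv 0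
        simp only [enc, Fin.cons_zero] at h1
        have h2 : qh = c.1 := hinj hqh hc (by exact_mod_cast h1)
        have h3 : mstep δ c = none := by
          unfold mstep; rw [← h2, hδ]; rfl
        exact Part.dom_iff_mem.mpr ⟨c, mem_eval.mpr ⟨Relation.ReflTransGen.refl, h3⟩⟩
      | @head v v1 hvv1 _ ih =>
        intro c hc hv
        cases hst : mstep δ c with
        | none => exact Part.dom_iff_mem.mpr ⟨c, mem_eval.mpr ⟨Relation.ReflTransGen.refl, hst⟩⟩
        | some c' =>
          have h1 := R_sim (e := e) (F := F) (num := num) (N := N) (dg := dg) hGS hc hst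
          rw [← hv] at h1
          have h2 := R_det hnum hinj hdg hdgi hvv1 h1
          have h3 := ih c' (hF c c' hc hst) h2
          rw [reaches_eval (Relation.ReflTransGen.single (Option.mem_def.mpr hst))]
          exact h3
    exact key _ h _ hq0 rfl
  · intro h
    obtain ⟨c, hc⟩ := Part.dom_iff_mem.mp h
    have h1 := hfin c hc
    subst h1
    have h2 := (mem_eval.mp hc).1
    have key : ∀ c : Q × (K → List G), Reaches (mstep δ) (q0, S0) c → c.1 ∈ F ∧
        Relation.ReflTransGen (R e δ F num N dg GS) (enc e num dg (q0, S0)) (enc e num dg c) := by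
      intro c hc
      induction hc with
      | refl => exact ⟨hq0, Relation.ReflTransGen.refl⟩
      | tail _ hbc ih => exact ⟨hF _ _ ih.1 hbc, ih.2.tail (R_sim hGS ih.1 hbc)⟩
    exact (key _ h2).2

end

end Pool.Agent.FM.A1
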