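import Pool.Agent.FM.A2c

/-!
# BLOCK A2: a finitely presented group encoding affine instructions

The letters `r` are realised by the permutations of `Pool.Agent.FM.exists_conj`.
-/

namespace Pool.Agent.FM

/-! ### lower bound -/

section lower

/-- extension of permutations to the type with one more point -/
def oc (Ω : Type) : Equiv.Perm Ω →* Equiv.Perm (Option Ω) where
  toFun σ := σ.optionCongr
  map_one' := Equiv.optionCongr_refl
  map_mul' σ τ := (Equiv.optionCongr_trans τ σ)

theorem oc_commute (Ω : Type) [DecidableEq Ω] (σ : Equiv.Perm Ω) (ω : Ω) :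
    Commute (Equiv.swap none (some ω)) (oc Ω σ) ↔ σ ω = ω := by
  constructor
  · intro h
    have h1 := congrArg (fun (e : Equiv.Perm (Option Ω)) => e none) h.eq
    simp only [Equiv.Perm.mul_apply] at h1
    have h2 : oc Ω σ none = none := rfl
    rw [h2, Equiv.swap_apply_left] at h1
    exact (Option.some_injective _ h1).symm
  · intro h
    ext1 x
    simp only [Equiv.Perm.mul_apply]
    have h2 : oc Ω σ none = none := rfl
    have h3 : ∀ y, oc Ω σ (some y) = some (σ y) := fun _ => rfl
    rcases x with _ | x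
    · rw [h2, Equiv.swap_apply_left, h3, h]
    · by_cases hx : x = ω
      · subst hx
        rw [h3, h, Equiv.swap_apply_right, h2]
      · have h4 : σ x ≠ ω := by
          intro h5
          rw [← h] at h5
          exact hx (σ.injective h5)
        have h6 : Equiv.swap (none : Option Ω) (some ω) (some x) = some x :=
          Equiv.swap_apply_of_ne_of_ne (by simp) (by simpa using hx)
        rw [h6, h3]
        exact Equiv.swap_apply_of_ne_of_ne (by simp) (by simpa using h4)

variable {d : ℕ}

theorem tr_eq_xp (v : Fin d → ℤ) : Lamp.tr v = xp (fun j => Lamp.tr (Pi.single j 1)) v := by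
  have hz : ∀ (n : ℤ) (w : Fin d → ℤ), Lamp.tr w ^ n = Lamp.tr (n • w) := by
    intro n w
    let F : Multiplicative (Fin d → ℤ) →* Lamp d :=
      { toFun := fun w => Lamp.tr (Multiplicative.toAdd w)
        map_one' := rfl
        map_mul' := fun a b => Lamp.tr_add _ _ }
    exact (map_zpow F (Multiplicative.ofAdd w) n).symm
  have hl : ∀ (l : List (Fin d)), (l.map fun j => Lamp.tr (Pi.single j (1 : ℤ)) ^ v j).prod =
      Lamp.tr ((l.map fun j => (Pi.single j (v j) : Fin d → ℤ)).sum) := by
    intro l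
    induction l with
    | nil => rfl
    | cons j l ih =>
      rw [List.map_cons, List.prod_cons, ih, List.map_cons, List.sum_cons, Lamp.tr_add, hz]
      congr 2
      rw [← Pi.single_smul]
      simp
  rw [xp, hl]
  congr 1
  rw [← Fin.sum_univ_def]
  exact (Finset.univ_sum_single v).symm

theorem eqv_of_triv (L : List (Instr d)) (hL : ∀ I ∈ L, ∀ j, 0 < I.P j ∧ 0 < I.Q j)
    (o v : Fin d → ℤ) (h : Triv (rls L o) (ww L.length v)) : MEqv L v o := by
  classical
  let H : Set (Fin d → ℤ) := {v | MEqv L v o}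
  let U : Subgroup (Lamp d) := Lamp.sub H
  have hP : ∀ (i : Fin L.length) j, 0 < (L[i]).P j := fun i j => (hL _ (List.getElem_mem i.2) j).1
  have hQ : ∀ (i : Fin L.length) j, 0 < (L[i]).Q j := fun i j => (hL _ (List.getElem_mem i.2) j).2
  have hex : ∀ i : Fin L.length, ∃ ρ : Equiv.Perm (Lamp d → Set (Lamp d × ℕ)),
      ρ (omg U) = omg U ∧ ∀ b, rtr (Set (Lamp d × ℕ)) (Lamp.endo (L[i]).P (hP i) (L[i]).a b) * ρ =
        ρ * rtr (Set (Lamp d × ℕ)) (Lamp.endo (L[i]).Q (hQ i) (L[i]).c b) := by
    intro i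
    apply exists_conj U _ _ (Lamp.endo_inj _ _ _) (Lamp.endo_inj _ _ _)
    intro b
    rw [Lamp.endo_mem_sub, Lamp.endo_mem_sub]
    refine and_congr_right fun _ => forall_congr' fun k => ?_
    have : (Lamp.aff (L[i]).P (L[i]).a k ∉ H) ↔ (Lamp.aff (L[i]).Q (L[i]).c k ∉ H) := by
      apply not_congr
      have hst : MEqv L (Lamp.aff (L[i]).P (L[i]).a k) (Lamp.aff (L[i]).Q (L[i]).c k) :=
        Relation.EqvGen.rel _ _ ⟨L[i], List.getElem_mem i.2, k, fun _ => rfl, fun _ => rfl⟩
      exact ⟨fun h => (hst.symm _ _).trans _ _ _ h, fun h => hst.trans _ _ _ h⟩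
    rw [this]
  choose ρ hρ hρ' using hex
  let Ω := Lamp d → Set (Lamp d × ℕ)
  let A : Lamp d →* Equiv.Perm (Option Ω) := (oc Ω).comp (rtr (Set (Lamp d × ℕ)))
  let f : Fin (ng d L.length) → Equiv.Perm (Option Ω) :=
    Fin.append (Fin.append (fun j => A (Lamp.tr (Pi.single j 1)))
      ![A (Lamp.dl 0), Equiv.swap none (some (omg U))]) (fun i => oc Ω (ρ i))
  let φ : FreeGroup (Fin (ng d L.length)) →* Equiv.Perm (Option Ω) := FreeGroup.lift f
  have fx : ∀ j, φ (FreeGroup.of (gx L.length j)) = A (Lamp.tr (Pi.single j 1)) := by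
    intro j
    simp [φ, f, gx]
  have ft : φ (FreeGroup.of (gt d L.length)) = A (Lamp.dl 0) := by
    simp [φ, f, gt]
  have fk : φ (FreeGroup.of (gk d L.length)) = Equiv.swap none (some (omg U)) := by
    simp [φ, f, gk]
  have fr : ∀ i, φ (FreeGroup.of (gr d i)) = oc Ω (ρ i) := by
    intro i
    simp [φ, f, gr]
  have ew : ∀ w : Fin d → ℤ, φ (FreeGroup.mk (wt L.length w)) = A (Lamp.dl w) := by
    intro w
    rw [ev_wt]
    simp only [fx, ft]
    rw [← xp_map, ← tr_eq_xp, ← map_mul, ← map_inv, ← map_mul, Lamp.tr_dl, add_zero]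
  have hrel : ∀ l ∈ rls L o, φ (FreeGroup.mk l) = 1 := by
    rw [rls_iff]
    refine ⟨?_, ?_, ?_, ?_, ?_⟩
    · intro i j
      rw [fx, fx]
      apply Commute.map
      rw [commute_iff_eq, ← Lamp.tr_add, ← Lamp.tr_add, add_comm]
    · intro i
      rw [ew, ew, fr, mul_assoc, inv_mul_eq_iff_eq_mul]
      have h1 := hρ' i (Lamp.dl 0)
      rw [Lamp.endo_dl, Lamp.endo_dl] at h1
      change oc Ω _ * oc Ω _ = oc Ω _ * oc Ω _
      rw [← map_mul, ← map_mul, h1]
    · intro i j
      rw [fr, fx, mul_assoc, inv_mul_eq_iff_eq_mul]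
      have h1 := hρ' i (Lamp.tr (Pi.single j 1))
      rw [Lamp.endo_tr, Lamp.endo_tr] at h1
      have hz : ∀ (P : Fin d → ℕ), Lamp.tr (fun i => (P i : ℤ) * (Pi.single j 1 : Fin d → ℤ) i) =
          Lamp.tr (Pi.single j 1) ^ P j := by
        intro P
        let F : Multiplicative (Fin d → ℤ) →* Lamp d :=
          { toFun := fun w => Lamp.tr (Multiplicative.toAdd w)
            map_one' := rfl
            map_mul' := fun a b => Lamp.tr_add _ _ }
        rw [show Lamp.tr (Pi.single j (1 : ℤ)) = F (Multiplicative.ofAdd (Pi.single j 1)) from rfl,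
          ← map_pow]
        change _ = Lamp.tr (P j • (Pi.single j 1))
        congr 1
        funext i
        by_cases hi : i = j
        · subst hi; simp
        · simp [Pi.single_eq_of_ne hi]
      rw [hz, hz] at h1
      rw [← map_pow, ← map_pow]
      change oc Ω _ * oc Ω _ = oc Ω _ * oc Ω _
      rw [← map_mul, ← map_mul, h1]
    · rw [fk, ew]
      refine (oc_commute Ω _ _).2 ?_
      rw [rtr_omg_iff, Lamp.dl_mem_sub]
      exact Relation.EqvGen.refl _
    · intro i
      rw [fk, fr]
      exact (oc_commute Ω _ _).2 (hρ i)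
  have hall : ∀ r ∈ relSet (rls L o), FreeGroup.lift f r = 1 := by
    rintro r ⟨l, hl, rfl⟩
    exact hrel l hl
  have h1 : PresentedGroup.toGroup hall (PresentedGroup.mk _ (FreeGroup.mk (ww L.length v))) =
      φ (FreeGroup.mk (ww L.length v)) := rfl
  have h2 : φ (FreeGroup.mk (ww L.length v)) = 1 := by
    rw [← h1]
    have : PresentedGroup.mk (relSet (rls L o)) (FreeGroup.mk (ww L.length v)) = 1 := h
    rw [this, map_one]
  rw [ww, ev_wc, ev_true, fk, ew] at h2
  have h3 := (oc_commute Ω _ _).1 h2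
  rw [rtr_omg_iff, Lamp.dl_mem_sub] at h3
  exact h3

theorem triv_of_eqv (L : List (Instr d)) (o v : Fin d → ℤ) (h : MEqv L v o) :
    Triv (rls L o) (ww L.length v) := by
  have hrel : ∀ l ∈ rls L o, PresentedGroup.mk (relSet (rls L o)) (FreeGroup.mk l) = 1 := by
    intro l hl
    refine PresentedGroup.one_of_mem ?_
    exact ⟨l, hl, rfl⟩
  have h2 := (rls_iff L o (PresentedGroup.mk (relSet (rls L o)))).1 hrel
  obtain ⟨h1, h2, h3, h4, h5⟩ := h2
  unfold Triv
  rw [ww, ev_wc, ev_true, ev_wt]
  refine comm_of_eqv h1 ?_ h3 ?_ h5 h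
  · intro i
    have := h2 i
    rw [ev_wt, ev_wt] at this
    exact this
  · rw [ev_wt] at h4
    exact h4

end lower

/-! ### computability -/

section comp

theorem encode_ofNat (n : ℕ) : Encodable.encode (Int.ofNat n) = 2 * n := by
  rfl

theorem encode_negSucc (n : ℕ) : Encodable.encode (Int.negSucc n) = 2 * n + 1 := by
  rfl

theorem natAbs_eq (z : ℤ) : z.natAbs = (Encodable.encode z + 1) / 2 := by
  rcases z with n | n
  · rw [encode_ofNat]
    change n = _
    omega
  · rw [encode_negSucc]
    change n + 1 = _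
    omega

theorem nonneg_iff (z : ℤ) : 0 ≤ z ↔ Encodable.encode z % 2 = 0 := by
  rcases z with n | n
  · rw [encode_ofNat]
    simp
  · rw [encode_negSucc]
    have : ¬ (0 ≤ Int.negSucc n) := by omega
    simp only [this, false_iff]
    omega

theorem primrec_natAbs : Primrec (Int.natAbs) := by
  have h : Primrec fun z : ℤ => (Encodable.encode z + 1) / 2 :=
    Primrec.nat_div.comp (Primrec.succ.comp Primrec.encode) (Primrec.const 2)
  exact h.of_eq fun z => (natAbs_eq z).symm

theorem primrec_sign : Primrec fun z : ℤ => decide (0 ≤ z) := by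
  have h : Primrec fun z : ℤ => decide (Encodable.encode z % 2 = 0) :=
    (Primrec.eq.decide).comp (Primrec.nat_mod.comp Primrec.encode (Primrec.const 2))
      (Primrec.const 0)
  exact h.of_eq fun z => by simp only [nonneg_iff]

theorem primrec_replicate {α : Type} [Primcodable α] :
    Primrec₂ fun (n : ℕ) (a : α) => List.replicate n a := by
  have h : Primrec₂ fun (n : ℕ) (a : α) => (List.range n).map fun _ => a :=
    Primrec.list_map (Primrec.list_range.comp Primrec.fst) (Primrec.snd.comp Primrec.fst)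
  exact h.of_eq fun n a => by simp

theorem primrec_wx (d m : ℕ) : Primrec fun v : Fin d → ℤ => wx m v := by
  unfold wx
  refine Primrec.list_flatMap (Primrec.const _) ?_
  have hv : Primrec fun p : (Fin d → ℤ) × Fin d => p.1 p.2 := Primrec.fin_app
  refine primrec_replicate.comp (primrec_natAbs.comp hv) ?_
  refine Primrec.pair ?_ (primrec_sign.comp hv)
  exact (Primrec.dom_finite (gx m)).comp Primrec.snd

theorem primrec_invRev {k : ℕ} : Primrec fun w : List (Fin k × Bool) => FreeGroup.invRev w := by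
  unfold FreeGroup.invRev
  refine Primrec.list_reverse.comp (Primrec.list_map Primrec.id ?_)
  exact Primrec.pair (Primrec.fst.comp Primrec.snd) (Primrec.not.comp (Primrec.snd.comp Primrec.snd))

theorem primrec_ww (d m : ℕ) : Primrec fun v : Fin d → ℤ => ww m v := by
  have hwt : Primrec fun v : Fin d → ℤ => wt m v := by
    unfold wt
    exact Primrec.list_append.comp (primrec_wx d m) (Primrec.list_cons.comp (Primrec.const _)
      (primrec_invRev.comp (primrec_wx d m)))
  unfold ww wc
  exact Primrec.list_append.comp (Primrec.const _) (Primrec.list_append.comp hwt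
    (Primrec.list_append.comp (Primrec.const _) (primrec_invRev.comp hwt)))

end comp

theorem group_of_machine (d : ℕ) (L : List (Instr d)) (hL : ∀ I ∈ L, ∀ j, 0 < I.P j ∧ 0 < I.Q j)
    (o : Fin d → ℤ) :
    ∃ (k : ℕ) (R : List (List (Fin k × Bool))) (w : (Fin d → ℤ) → List (Fin k × Bool)),
      Computable w ∧ ∀ v, Triv R (w v) ↔ MEqv L v o :=
  ⟨ng d L.length, rls L o, ww L.length, (primrec_ww d L.length).to_comp,
    fun v => ⟨eqv_of_triv L hL o v, triv_of_eqv L o v⟩⟩

end Pool.Agent.FM
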