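import Mathlib

/-!
# A permutational replacement of HNN extensions

For a group `B` and a subgroup `U` there is a permutation representation of `B` with a
point `ω` whose stabiliser is `U`, such that any two injective endomorphisms `α`, `γ` of `B` with
`α⁻¹ U = γ⁻¹ U` are conjugate by a permutation fixing `ω`.
-/

open Cardinal

namespace Pool.Agent.FM

section perm

variable {B : Type} [Group B]

/-- the action of `B` on functions on `B` by right translation of the argument -/
def rtr (T : Type) : B →* Equiv.Perm (B → T) where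
  toFun g :=
    { toFun := fun F b => F (b * g)
      invFun := fun F b => F (b * g⁻¹)
      left_inv := fun F => by funext b; simp
      right_inv := fun F => by funext b; simp }
  map_one' := by ext F b; simp
  map_mul' g h := by ext F b; simp [mul_assoc]

@[simp] theorem rtr_apply (T : Type) (g : B) (F : B → T) (b : B) : rtr T g F b = F (b * g) := rfl

/-- the point with stabiliser `U` -/
def omg (U : Subgroup B) : B → Set (B × ℕ) := fun b => {x | b⁻¹ * x.1 ∈ U}

theorem omg_eq_iff (U : Subgroup B) (b b' : B) : omg U b = omg U b' ↔ b⁻¹ * b' ∈ U := by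
  constructor
  · intro h
    have : (b', 0) ∈ omg U b' := by simp [omg, U.one_mem]
    rw [← h] at this
    exact this
  · intro h
    ext x
    simp only [omg, Set.mem_ofPred_eq]
    have h' : b'⁻¹ * b ∈ U := by simpa using U.inv_mem h
    constructor
    · intro hx
      have := U.mul_mem h' hx
      simpa [mul_assoc] using this
    · intro hx
      have := U.mul_mem h hx
      simpa [mul_assoc] using this

theorem rtr_omg_iff (U : Subgroup B) (g : B) : rtr (Set (B × ℕ)) g (omg U) = omg U ↔ g ∈ U := by
  constructor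
  · intro h
    have := congrFun h 1
    rw [rtr_apply] at this
    have h2 := (omg_eq_iff U _ _).1 this
    have h3 := U.inv_mem h2
    simpa using h3
  · intro h
    funext b
    rw [rtr_apply, omg_eq_iff]
    simpa using U.inv_mem h

/-- decomposition of the group in translates of the image of an injective endomorphism -/
noncomputable def dec (α : B →* B) (hα : Function.Injective α) : (B ⧸ α.range) × B ≃ B :=
  Equiv.ofBijective (fun p => p.1.out * α p.2) (by
    constructor
    · rintro ⟨s, b⟩ ⟨s', b'⟩ h
      simp only at h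
      have hs : s = s' := by
        rw [← QuotientGroup.out_eq' s, ← QuotientGroup.out_eq' s', QuotientGroup.eq]
        refine ⟨b * b'⁻¹, ?_⟩
        rw [map_mul, map_inv]
        rw [eq_mul_inv_of_mul_eq h.symm] at *
        group
      subst hs
      have := mul_left_cancel h
      rw [hα this]
    · intro x
      have hx : ((x : B ⧸ α.range)).out⁻¹ * x ∈ α.range := by
        rw [← QuotientGroup.eq, QuotientGroup.out_eq']
      obtain ⟨b, hb⟩ := hx
      refine ⟨(x, b), ?_⟩
      simp [hb])

theorem dec_apply (α : B →* B) (hα : Function.Injective α) (s : B ⧸ α.range) (b : B) :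
    dec α hα (s, b) = s.out * α b := rfl

omit [Group B] in
theorem card_fun [Nonempty B] {S : Type} (hS : Nonempty S) (hS' : #S ≤ #B) :
    #(S → Set (B × ℕ)) = 2 ^ #(B × ℕ) := by
  rw [← Cardinal.power_def, Cardinal.mk_set, ← Cardinal.power_mul]
  congr 1
  refine Cardinal.mul_eq_left (Cardinal.aleph0_le_mk (B × ℕ)) (hS'.trans ?_) ?_
  · exact Cardinal.mk_le_of_injective (f := fun b : B => (b, 0)) (fun b b' h => by simpa using h)
  · exact Cardinal.mk_ne_zero S

theorem exists_conj (U : Subgroup B) (α γ : B →* B)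
    (hα : Function.Injective α) (hγ : Function.Injective γ) (hU : ∀ b, α b ∈ U ↔ γ b ∈ U) :
    ∃ ρ : Equiv.Perm (B → Set (B × ℕ)), ρ (omg U) = omg U ∧
      ∀ b, rtr (Set (B × ℕ)) (α b) * ρ = ρ * rtr (Set (B × ℕ)) (γ b) := by
  classical
  let p : B → (B ⧸ γ.range → Set (B × ℕ)) := fun b s => omg U (dec γ hγ (s, b))
  let q : B → (B ⧸ α.range → Set (B × ℕ)) := fun b s => omg U (dec α hα (s, b))
  have hp : ∀ b b', p b = p b' ↔ γ (b⁻¹ * b') ∈ U := by
    intro b b'
    constructor
    · intro h
      have := congrFun h (1 : B)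
      have h2 := (omg_eq_iff U _ _).1 this
      rw [dec_apply, dec_apply] at h2
      convert h2 using 1
      rw [map_mul, map_inv]
      group
    · intro h
      funext s
      refine (omg_eq_iff U _ _).2 ?_
      rw [dec_apply, dec_apply]
      convert h using 1
      rw [map_mul, map_inv]
      group
  have hq : ∀ b b', q b = q b' ↔ α (b⁻¹ * b') ∈ U := by
    intro b b'
    constructor
    · intro h
      have := congrFun h (1 : B)
      have h2 := (omg_eq_iff U _ _).1 this
      rw [dec_apply, dec_apply] at h2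
      convert h2 using 1
      rw [map_mul, map_inv]
      group
    · intro h
      funext s
      refine (omg_eq_iff U _ _).2 ?_
      rw [dec_apply, dec_apply]
      convert h using 1
      rw [map_mul, map_inv]
      group
  have hpq : ∀ b b', p b = p b' ↔ q b = q b' := fun b b' => by
    rw [hp, hq, hU]
  -- the partial bijection
  let f : Set.range p ↪ (B ⧸ α.range → Set (B × ℕ)) :=
    ⟨fun x => q (Classical.choose x.2), by
      rintro ⟨x, hx⟩ ⟨y, hy⟩ h
      have h' := (hpq _ _).2 h
      rw [Subtype.mk.injEq, ← Classical.choose_spec hx, ← Classical.choose_spec hy]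
      exact h'⟩
  have hcγ : #(B ⧸ γ.range → Set (B × ℕ)) = 2 ^ #(B × ℕ) :=
    card_fun ⟨((1 : B) : B ⧸ γ.range)⟩ (Cardinal.mk_quotient_le)
  have hcα : #(B ⧸ α.range → Set (B × ℕ)) = 2 ^ #(B × ℕ) :=
    card_fun ⟨((1 : B) : B ⧸ α.range)⟩ (Cardinal.mk_quotient_le)
  obtain ⟨β, hβ⟩ := Cardinal.extend_function_of_lt f
    (lt_of_le_of_lt Cardinal.mk_range_le (by
      rw [hcγ]
      refine lt_of_le_of_lt ?_ (Cardinal.cantor _)
      exact Cardinal.mk_le_of_injective (f := fun b : B => (b, 0))
        (fun b b' h => by simpa using h)))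
    (Cardinal.eq.1 (hcγ.trans hcα.symm))
  have hβ' : ∀ b, β (p b) = q b := by
    intro b
    have h1 := hβ ⟨p b, b, rfl⟩
    rw [h1]
    change q (Classical.choose (⟨b, rfl⟩ : ∃ y, p y = p b)) = q b
    rw [← hpq]
    exact Classical.choose_spec (⟨b, rfl⟩ : ∃ y, p y = p b)
  -- the decompositions of the functions
  let Ψ : ∀ (δ : B →* B) (hδ : Function.Injective δ),
      (B → Set (B × ℕ)) ≃ (B → (B ⧸ δ.range → Set (B × ℕ))) := fun δ hδ =>
    ((dec δ hδ).arrowCongr (Equiv.refl _)).symm.trans
      (((Equiv.prodComm _ _).arrowCongr (Equiv.refl _)).trans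
        (Equiv.curry _ _ _))
  have hΨ : ∀ (δ : B →* B) (hδ : Function.Injective δ) (F : B → Set (B × ℕ)) (b : B)
      (s : B ⧸ δ.range), Ψ δ hδ F b s = F (dec δ hδ (s, b)) := by
    intro δ hδ F b s
    rfl
  let ρ : Equiv.Perm (B → Set (B × ℕ)) := (Ψ γ hγ).trans
    (((Equiv.refl B).arrowCongr β).trans (Ψ α hα).symm)
  have hρ : ∀ F b, Ψ α hα (ρ F) b = β (Ψ γ hγ F b) := by
    intro F b
    simp [ρ]
  refine ⟨ρ, ?_, ?_⟩
  · apply (Ψ α hα).injective
    funext b
    rw [hρ]
    have h1 : Ψ γ hγ (omg U) b = p b := by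
      funext s
      rw [hΨ]
    have h2 : Ψ α hα (omg U) b = q b := by
      funext s
      rw [hΨ]
    rw [h1, h2, hβ']
  · intro g
    ext1 F
    apply (Ψ α hα).injective
    funext b
    have key : ∀ (δ : B →* B) (hδ : Function.Injective δ) (F : B → Set (B × ℕ)) (b : B),
        Ψ δ hδ (rtr (Set (B × ℕ)) (δ g) F) b = Ψ δ hδ F (b * g) := by
      intro δ hδ F b
      funext s
      rw [hΨ, hΨ, rtr_apply, dec_apply, dec_apply, map_mul, mul_assoc]
    rw [Equiv.Perm.mul_apply, Equiv.Perm.mul_apply, key, hρ, hρ, key]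

end perm

end Pool.Agent.FM
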