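import Mathlib

/-!
# The lamplighter group over `ℤ^d`
-/

namespace Pool.Agent.FM

/-- the (unrestricted) lamplighter group over `ℤ^d` -/
@[ext] structure Lamp (d : ℕ) where
  f : (Fin d → ℤ) → ZMod 2
  z : Fin d → ℤ

namespace Lamp

variable {d : ℕ}

instance : Mul (Lamp d) := ⟨fun p q => ⟨fun v => p.f v + q.f (v - p.z), p.z + q.z⟩⟩
instance : One (Lamp d) := ⟨⟨fun _ => 0, 0⟩⟩
instance : Inv (Lamp d) := ⟨fun p => ⟨fun v => -p.f (v + p.z), -p.z⟩⟩

@[simp] theorem mul_f (p q : Lamp d) (v) : (p * q).f v = p.f v + q.f (v - p.z) := rfl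
@[simp] theorem mul_z (p q : Lamp d) : (p * q).z = p.z + q.z := rfl
@[simp] theorem one_f (v) : (1 : Lamp d).f v = 0 := rfl
@[simp] theorem one_z : (1 : Lamp d).z = 0 := rfl
@[simp] theorem inv_f (p : Lamp d) (v) : (p⁻¹).f v = -p.f (v + p.z) := rfl
@[simp] theorem inv_z (p : Lamp d) : (p⁻¹).z = -p.z := rfl

instance : Group (Lamp d) := Group.ofLeftAxioms
  (by
    intro a b c
    ext v
    · simp [add_assoc, sub_sub]
    · simp [add_assoc])
  (by
    intro a
    ext v
    · simp
    · simp)
  (by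
    intro a
    ext v
    · rw [mul_f, inv_f, inv_z, sub_neg_eq_add, neg_add_cancel, one_f]
    · simp)

/-- translations -/
def tr (v : Fin d → ℤ) : Lamp d := ⟨fun _ => 0, v⟩
/-- the lamp at `v` -/
def dl (v : Fin d → ℤ) : Lamp d := ⟨fun w => if w = v then 1 else 0, 0⟩

theorem tr_add (v w : Fin d → ℤ) : tr (v + w) = tr v * tr w := by
  ext u
  · simp [tr]
  · simp [tr]

theorem tr_dl (v w : Fin d → ℤ) : tr v * dl w * (tr v)⁻¹ = dl (v + w) := by
  ext u
  · simp [tr, dl, sub_eq_iff_eq_add, add_comm]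
  · simp [tr, dl]

/-- the affine map -/
def aff (P : Fin d → ℕ) (a : Fin d → ℤ) (k : Fin d → ℤ) : Fin d → ℤ := fun j => a j + P j * k j

theorem aff_inj {P : Fin d → ℕ} (hP : ∀ j, 0 < P j) (a : Fin d → ℤ) :
    Function.Injective (aff P a) := by
  intro k k' h
  funext j
  have := congrFun h j
  simp only [aff, add_right_inj] at this
  have hp : (P j : ℤ) ≠ 0 := by exact_mod_cast (hP j).ne'
  exact mul_left_cancel₀ hp this

/-- the endomorphism induced by `k ↦ a + P k` -/
noncomputable def endo (P : Fin d → ℕ) (hP : ∀ j, 0 < P j) (a : Fin d → ℤ) :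
    Lamp d →* Lamp d where
  toFun p := ⟨Function.extend (aff P a) p.f (fun _ => 0), fun j => P j * p.z j⟩
  map_one' := by
    ext v
    · simp only [one_f]
      by_cases h : ∃ k, aff P a k = v
      · obtain ⟨k, rfl⟩ := h
        rw [(aff_inj hP a).extend_apply]
        rfl
      · rw [Function.extend_apply' _ _ _ h]
    · simp
  map_mul' := by
    intro p q
    ext v
    · simp only [mul_f]
      by_cases h : ∃ k, aff P a k = v
      · obtain ⟨k, rfl⟩ := h
        have h2 : aff P a k - (fun j => (P j : ℤ) * p.z j) = aff P a (k - p.z) := by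
          funext j
          simp only [aff, Pi.sub_apply]
          ring
        rw [(aff_inj hP a).extend_apply, (aff_inj hP a).extend_apply, h2,
          (aff_inj hP a).extend_apply, mul_f]
      · have h2 : ¬ ∃ k, aff P a k = v - (fun j => (P j : ℤ) * p.z j) := by
          rintro ⟨k, hk⟩
          refine h ⟨k + p.z, ?_⟩
          funext j
          have := congrFun hk j
          simp only [aff, Pi.sub_apply, Pi.add_apply] at this ⊢
          linarith
        rw [Function.extend_apply' _ _ _ h, Function.extend_apply' _ _ _ h,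
          Function.extend_apply' _ _ _ h2, add_zero]
    · simp [mul_add]

theorem endo_f (P : Fin d → ℕ) (hP : ∀ j, 0 < P j) (a : Fin d → ℤ) (p : Lamp d) (v) :
    (endo P hP a p).f v = Function.extend (aff P a) p.f (fun _ => 0) v := rfl

theorem endo_z (P : Fin d → ℕ) (hP : ∀ j, 0 < P j) (a : Fin d → ℤ) (p : Lamp d) (j) :
    (endo P hP a p).z j = P j * p.z j := rfl

theorem endo_inj (P : Fin d → ℕ) (hP : ∀ j, 0 < P j) (a : Fin d → ℤ) :
    Function.Injective (endo P hP a) := by
  intro p q h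
  have h1 : Function.extend (aff P a) p.f (fun _ => 0) =
      Function.extend (aff P a) q.f (fun _ => 0) := congrArg Lamp.f h
  have h2 : (fun j => (P j : ℤ) * p.z j) = fun j => (P j : ℤ) * q.z j := congrArg Lamp.z h
  ext k
  · have := congrFun h1 (aff P a k)
    rwa [(aff_inj hP a).extend_apply, (aff_inj hP a).extend_apply] at this
  · have := congrFun h2 k
    have hp : (P k : ℤ) ≠ 0 := by exact_mod_cast (hP k).ne'
    exact mul_left_cancel₀ hp this

theorem endo_dl (P : Fin d → ℕ) (hP : ∀ j, 0 < P j) (a : Fin d → ℤ) :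
    endo P hP a (dl 0) = dl a := by
  ext v
  · rw [endo_f]
    by_cases h : ∃ k, aff P a k = v
    · obtain ⟨k, rfl⟩ := h
      rw [(aff_inj hP a).extend_apply]
      have h0 : aff P a 0 = a := by funext j; simp [aff]
      simp only [dl]
      congr 1
      rw [eq_iff_iff]
      constructor
      · rintro rfl
        exact h0
      · intro h
        exact aff_inj hP a (h.trans h0.symm)
    · rw [Function.extend_apply' _ _ _ h]
      simp only [dl]
      rw [if_neg]
      rintro rfl
      exact h ⟨0, by funext j; simp [aff]⟩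
  · rw [endo_z]
    simp [dl]

theorem endo_tr (P : Fin d → ℕ) (hP : ∀ j, 0 < P j) (a v : Fin d → ℤ) :
    endo P hP a (tr v) = tr (fun j => P j * v j) := by
  ext w
  · rw [endo_f]
    by_cases h : ∃ k, aff P a k = w
    · obtain ⟨k, rfl⟩ := h
      rw [(aff_inj hP a).extend_apply]
      rfl
    · rw [Function.extend_apply' _ _ _ h]
      rfl
  · rfl

/-- the subgroup of the lamps in `H` -/
def sub (H : Set (Fin d → ℤ)) : Subgroup (Lamp d) where
  carrier := {p | p.z = 0 ∧ ∀ v, v ∉ H → p.f v = 0}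
  one_mem' := ⟨rfl, fun _ _ => rfl⟩
  mul_mem' := by
    rintro p q ⟨hp, hp'⟩ ⟨hq, hq'⟩
    refine ⟨by simp [hp, hq], fun v hv => ?_⟩
    simp [hp, hp' v hv, hq' v hv]
  inv_mem' := by
    rintro p ⟨hp, hp'⟩
    refine ⟨by simp [hp], fun v hv => ?_⟩
    rw [inv_f, hp, add_zero, hp' v hv, neg_zero]

theorem mem_sub (H : Set (Fin d → ℤ)) (p : Lamp d) :
    p ∈ sub H ↔ p.z = 0 ∧ ∀ v, v ∉ H → p.f v = 0 := Iff.rfl

theorem dl_mem_sub (H : Set (Fin d → ℤ)) (v : Fin d → ℤ) : dl v ∈ sub H ↔ v ∈ H := by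
  rw [mem_sub]
  constructor
  · rintro ⟨-, h⟩
    by_contra hv
    have := h v hv
    simp [dl] at this
  · intro hv
    refine ⟨rfl, fun w hw => ?_⟩
    simp only [dl]
    rw [if_neg]
    rintro rfl
    exact hw hv

theorem endo_mem_sub (H : Set (Fin d → ℤ)) (P : Fin d → ℕ) (hP : ∀ j, 0 < P j) (a : Fin d → ℤ)
    (p : Lamp d) : endo P hP a p ∈ sub H ↔ p.z = 0 ∧ ∀ k, aff P a k ∉ H → p.f k = 0 := by
  rw [mem_sub]
  change ((fun j => (P j : ℤ) * p.z j) = 0 ∧
    ∀ v, v ∉ H → Function.extend (aff P a) p.f (fun _ => 0) v = 0) ↔ _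
  refine and_congr ?_ ?_
  · constructor
    · intro h
      funext j
      have := congrFun h j
      have hp : (P j : ℤ) ≠ 0 := by exact_mod_cast (hP j).ne'
      simpa [hp, (hP j).ne'] using this
    · intro h
      funext j
      simp [h]
  · constructor
    · intro h k hk
      have := h _ hk
      rwa [(aff_inj hP a).extend_apply] at this
    · intro h v hv
      by_cases hk : ∃ k, aff P a k = v
      · obtain ⟨k, rfl⟩ := hk
        rw [(aff_inj hP a).extend_apply]
        exact h k hv
      · rw [Function.extend_apply' _ _ _ hk]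

end Lamp

end Pool.Agent.FM
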