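import Pool.Agent.FM.GDefs
import Pool.Agent.FM.A2a
import Pool.Agent.FM.A2b

/-!
# The group of a system of affine instructions: words, relators and their evaluation
-/

namespace Pool.Agent.FM

/-! ### products of powers -/

section xp

variable {d : ℕ} {G : Type} [Group G]

/-- the product of the powers `x j ^ v j` -/
def xp (x : Fin d → G) (v : Fin d → ℤ) : G := ((List.finRange d).map fun j => x j ^ v j).prod

theorem xp_add {x : Fin d → G} (hx : ∀ i j, Commute (x i) (x j)) (v w : Fin d → ℤ) :
    xp x (v + w) = xp x v * xp x w := by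
  unfold xp
  generalize List.finRange d = l
  induction l with
  | nil => simp
  | cons j l ih =>
    rw [List.map_cons, List.prod_cons, ih, List.map_cons, List.prod_cons, List.map_cons,
      List.prod_cons, Pi.add_apply, zpow_add]
    have h : Commute (x j ^ w j) ((l.map fun j => x j ^ v j).prod) := by
      apply Commute.list_prod_right
      intro y hy
      obtain ⟨i, -, rfl⟩ := List.mem_map.1 hy
      exact ((hx j i).zpow_zpow _ _)
    rw [mul_assoc, mul_assoc, ← mul_assoc (x j ^ w j), h.eq, mul_assoc]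

theorem xp_conj {x : Fin d → G} {P Q : Fin d → ℕ} {r : G}
    (h : ∀ j, r⁻¹ * x j ^ P j * r = x j ^ Q j) (k : Fin d → ℤ) :
    r⁻¹ * xp x (fun j => P j * k j) * r = xp x (fun j => Q j * k j) := by
  unfold xp
  generalize List.finRange d = l
  induction l with
  | nil => simp
  | cons j l ih =>
    simp only [List.map_cons, List.prod_cons]
    rw [← ih]
    have h1 : r⁻¹ * x j ^ ((P j : ℤ) * k j) * r = x j ^ ((Q j : ℤ) * k j) := by
      rw [zpow_mul, zpow_mul, zpow_natCast, zpow_natCast, ← h j]
      have := conj_zpow (a := r⁻¹) (b := x j ^ P j) (i := k j)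
      rw [inv_inv] at this
      exact this.symm
    rw [← h1]
    group

theorem xp_map {H : Type} [Group H] (φ : G →* H) (x : Fin d → G) (v : Fin d → ℤ) :
    φ (xp x v) = xp (fun j => φ (x j)) v := by
  unfold xp
  rw [map_list_prod, List.map_map]
  congr 1
  apply List.map_congr_left
  intro j _
  simp

/-- upper bound -/
theorem comm_of_eqv {L : List (Instr d)} {o : Fin d → ℤ} {x : Fin d → G} {t κ : G}
    {r : Fin L.length → G} (hx : ∀ i j, Commute (x i) (x j))
    (hr : ∀ i, (r i)⁻¹ * (xp x (L[i]).a * t * (xp x (L[i]).a)⁻¹) * r i =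
      xp x (L[i]).c * t * (xp x (L[i]).c)⁻¹)
    (hr' : ∀ i j, (r i)⁻¹ * x j ^ (L[i]).P j * r i = x j ^ (L[i]).Q j)
    (ho : Commute κ (xp x o * t * (xp x o)⁻¹)) (hκ : ∀ i, Commute κ (r i)) {v : Fin d → ℤ}
    (h : MEqv L v o) : Commute κ (xp x v * t * (xp x v)⁻¹) := by
  have key : ∀ v v' : Fin d → ℤ, MEqv L v v' →
      (Commute κ (xp x v * t * (xp x v)⁻¹) ↔ Commute κ (xp x v' * t * (xp x v')⁻¹)) := by
    intro v v' h
    induction h with
    | rel v v' h =>
      obtain ⟨I, hI, k, hv, hv'⟩ := h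
      obtain ⟨i, hi, rfl⟩ := List.mem_iff_getElem.1 hI
      have e1 : v = (fun j => ((L[i]).P j : ℤ) * k j) + (L[i]).a := by
        funext j
        rw [hv j, Pi.add_apply, add_comm]
      have e2 : v' = (fun j => ((L[i]).Q j : ℤ) * k j) + (L[i]).c := by
        funext j
        rw [hv' j, Pi.add_apply, add_comm]
      have h1 := xp_conj (hr' ⟨i, hi⟩) k
      have h2 := hr ⟨i, hi⟩
      have h3 : (r ⟨i, hi⟩)⁻¹ * (xp x v * t * (xp x v)⁻¹) * r ⟨i, hi⟩ =
          xp x v' * t * (xp x v')⁻¹ := by
        rw [e1, e2, xp_add hx, xp_add hx]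
        simp only [Fin.getElem_fin] at h1 h2
        rw [← h1]
        calc _ = ((r ⟨i, hi⟩)⁻¹ * xp x (fun j => ((L[i]).P j : ℤ) * k j) * r ⟨i, hi⟩) *
              ((r ⟨i, hi⟩)⁻¹ * (xp x (L[i]).a * t * (xp x (L[i]).a)⁻¹) * r ⟨i, hi⟩) *
              ((r ⟨i, hi⟩)⁻¹ * xp x (fun j => ((L[i]).P j : ℤ) * k j) * r ⟨i, hi⟩)⁻¹ := by group
          _ = _ := by rw [h2]; group
      rw [← h3]
      have hk := hκ ⟨i, hi⟩
      constructor
      · intro hc
        exact (hk.inv_right.mul_right hc).mul_right hk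
      · intro hc
        have h4 := (hk.mul_right hc).mul_right hk.inv_right
        have h5 : r ⟨i, hi⟩ * ((r ⟨i, hi⟩)⁻¹ * (xp x v * t * (xp x v)⁻¹) * r ⟨i, hi⟩) *
            (r ⟨i, hi⟩)⁻¹ = xp x v * t * (xp x v)⁻¹ := by group
        rwa [h5] at h4
    | refl => exact Iff.rfl
    | symm _ _ _ ih => exact ih.symm
    | trans _ _ _ _ _ ih1 ih2 => exact ih1.trans ih2
  exact (key v o h).2 ho

end xp

/-! ### words -/

section words

/-- number of generators -/
abbrev ng (d m : ℕ) : ℕ := d + 2 + m

variable {d m : ℕ}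

/-- letters -/
def gx (m : ℕ) (j : Fin d) : Fin (ng d m) := Fin.castAdd m (Fin.castAdd 2 j)
/-- the letter `t` -/
def gt (d m : ℕ) : Fin (ng d m) := Fin.castAdd m (Fin.natAdd d 0)
/-- the letter `κ` -/
def gk (d m : ℕ) : Fin (ng d m) := Fin.castAdd m (Fin.natAdd d 1)
/-- the letters `r` -/
def gr (d : ℕ) (i : Fin m) : Fin (ng d m) := Fin.natAdd (d + 2) i

/-- the word of `x ^ v` -/
def wx (m : ℕ) (v : Fin d → ℤ) : List (Fin (ng d m) × Bool) :=
  (List.finRange d).flatMap fun j => List.replicate (v j).natAbs (gx m j, decide (0 ≤ v j))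

/-- the word of `t(v)` -/
def wt (m : ℕ) (v : Fin d → ℤ) : List (Fin (ng d m) × Bool) :=
  wx m v ++ ((gt d m, true) :: FreeGroup.invRev (wx m v))

/-- commutator word -/
def wc {k : ℕ} (a b : List (Fin k × Bool)) : List (Fin k × Bool) :=
  a ++ (b ++ (FreeGroup.invRev a ++ FreeGroup.invRev b))

/-- the word of the commutator of `κ` and `t(v)` -/
def ww (m : ℕ) (v : Fin d → ℤ) : List (Fin (ng d m) × Bool) := wc [(gk d m, true)] (wt m v)

/-- the relators -/
def rls (L : List (Instr d)) (o : Fin d → ℤ) : List (List (Fin (ng d L.length) × Bool)) :=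
  ((List.finRange d).flatMap fun i => (List.finRange d).map fun j =>
    wc [(gx L.length i, true)] [(gx L.length j, true)]) ++
  (((List.finRange L.length).map fun i =>
    [(gr d i, false)] ++ (wt L.length (L[i]).a ++ ([(gr d i, true)] ++
      FreeGroup.invRev (wt L.length (L[i]).c)))) ++
  (((List.finRange L.length).flatMap fun i => (List.finRange d).map fun j =>
    [(gr d i, false)] ++ (List.replicate ((L[i]).P j) (gx L.length j, true) ++
      ([(gr d i, true)] ++ List.replicate ((L[i]).Q j) (gx L.length j, false)))) ++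
  ([wc [(gk d L.length, true)] (wt L.length o)] ++
    ((List.finRange L.length).map fun i => wc [(gk d L.length, true)] [(gr d i, true)]))))

variable {G : Type} [Group G]

theorem ev_append {k : ℕ} (φ : FreeGroup (Fin k) →* G) (a b : List (Fin k × Bool)) :
    φ (FreeGroup.mk (a ++ b)) = φ (FreeGroup.mk a) * φ (FreeGroup.mk b) := by
  rw [← FreeGroup.mul_mk, map_mul]

theorem ev_inv {k : ℕ} (φ : FreeGroup (Fin k) →* G) (a : List (Fin k × Bool)) :
    φ (FreeGroup.mk (FreeGroup.invRev a)) = (φ (FreeGroup.mk a))⁻¹ := by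
  rw [← FreeGroup.inv_mk, map_inv]

theorem ev_true {k : ℕ} (φ : FreeGroup (Fin k) →* G) (g : Fin k) :
    φ (FreeGroup.mk [(g, true)]) = φ (FreeGroup.of g) := rfl

theorem ev_false {k : ℕ} (φ : FreeGroup (Fin k) →* G) (g : Fin k) :
    φ (FreeGroup.mk [(g, false)]) = (φ (FreeGroup.of g))⁻¹ := by
  rw [← map_inv]; rfl

theorem ev_rep {k : ℕ} (φ : FreeGroup (Fin k) →* G) (g : Fin k × Bool) (n : ℕ) :
    φ (FreeGroup.mk (List.replicate n g)) = φ (FreeGroup.mk [g]) ^ n := by
  induction n with
  | zero => simp [← FreeGroup.one_eq_mk]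
  | succ n ih => rw [List.replicate_succ', ev_append, ih, pow_succ]

theorem ev_wc {k : ℕ} (φ : FreeGroup (Fin k) →* G) (a b : List (Fin k × Bool)) :
    φ (FreeGroup.mk (wc a b)) = 1 ↔ Commute (φ (FreeGroup.mk a)) (φ (FreeGroup.mk b)) := by
  rw [wc, ev_append, ev_append, ev_append, ev_inv, ev_inv, commute_iff_eq]
  constructor
  · intro h
    have : φ (FreeGroup.mk a) * φ (FreeGroup.mk b) *
        (φ (FreeGroup.mk b) * φ (FreeGroup.mk a))⁻¹ = 1 := by
      rw [← h]; group
    exact mul_inv_eq_one.1 this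
  · intro h
    rw [← mul_assoc, h]
    group

theorem ev_wx (φ : FreeGroup (Fin (ng d m)) →* G) (v : Fin d → ℤ) :
    φ (FreeGroup.mk (wx m v)) = xp (fun j => φ (FreeGroup.of (gx m j))) v := by
  unfold wx xp
  generalize List.finRange d = l
  induction l with
  | nil => simp [← FreeGroup.one_eq_mk]
  | cons j l ih =>
    rw [List.flatMap_cons, ev_append, ih, List.map_cons, List.prod_cons, ev_rep]
    congr 1
    by_cases h : 0 ≤ v j
    · rw [decide_eq_true h, ev_true]
      conv_rhs => rw [← Int.natAbs_of_nonneg h]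
      rw [zpow_natCast]
    · rw [decide_eq_false h, ev_false]
      have h' : v j = -((v j).natAbs : ℤ) := by omega
      conv_rhs => rw [h']
      rw [zpow_neg, zpow_natCast, inv_pow]

theorem ev_wt (φ : FreeGroup (Fin (ng d m)) →* G) (v : Fin d → ℤ) :
    φ (FreeGroup.mk (wt m v)) = xp (fun j => φ (FreeGroup.of (gx m j))) v *
      φ (FreeGroup.of (gt d m)) * (xp (fun j => φ (FreeGroup.of (gx m j))) v)⁻¹ := by
  rw [wt, ← List.singleton_append, ev_append, ev_append, ev_inv, ev_wx, ev_true, mul_assoc]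

/-- what it means to kill the relators -/
theorem rls_iff (L : List (Instr d)) (o : Fin d → ℤ) (φ : FreeGroup (Fin (ng d L.length)) →* G) :
    (∀ l ∈ rls L o, φ (FreeGroup.mk l) = 1) ↔
      (∀ i j, Commute (φ (FreeGroup.of (gx L.length i))) (φ (FreeGroup.of (gx L.length j)))) ∧
      (∀ i : Fin L.length, (φ (FreeGroup.of (gr d i)))⁻¹ *
        (φ (FreeGroup.mk (wt L.length (L[i]).a))) * φ (FreeGroup.of (gr d i)) =
          φ (FreeGroup.mk (wt L.length (L[i]).c))) ∧
      (∀ (i : Fin L.length) j, (φ (FreeGroup.of (gr d i)))⁻¹ *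
        (φ (FreeGroup.of (gx L.length j))) ^ (L[i]).P j * φ (FreeGroup.of (gr d i)) =
          (φ (FreeGroup.of (gx L.length j))) ^ (L[i]).Q j) ∧
      Commute (φ (FreeGroup.of (gk d L.length))) (φ (FreeGroup.mk (wt L.length o))) ∧
      (∀ i : Fin L.length, Commute (φ (FreeGroup.of (gk d L.length)))
        (φ (FreeGroup.of (gr d i)))) := by
  unfold rls
  simp only [List.forall_mem_append]
  refine and_congr ?_ (and_congr ?_ (and_congr ?_ (and_congr ?_ ?_)))
  · simp only [List.mem_flatMap, List.mem_finRange, true_and, List.mem_map, forall_exists_index]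
    constructor
    · intro h i j
      exact (ev_wc φ _ _).1 (h _ i j rfl)
    · rintro h _ i j rfl
      exact (ev_wc φ _ _).2 (h i j)
  · simp only [List.forall_mem_map, List.mem_finRange, true_imp_iff]
    refine forall_congr' fun i => ?_
    rw [ev_append, ev_append, ev_append, ev_inv, ev_true, ev_false, ← mul_assoc, ← mul_assoc,
      mul_inv_eq_one]
  · simp only [List.mem_flatMap, List.mem_finRange, true_and, List.mem_map, forall_exists_index]
    have e : ∀ (i : Fin L.length) (j : Fin d), φ (FreeGroup.mk ([(gr d i, false)] ++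
        (List.replicate ((L[i]).P j) (gx L.length j, true) ++
      ([(gr d i, true)] ++ List.replicate ((L[i]).Q j) (gx L.length j, false))))) = 1 ↔
        (φ (FreeGroup.of (gr d i)))⁻¹ *
        (φ (FreeGroup.of (gx L.length j))) ^ (L[i]).P j * φ (FreeGroup.of (gr d i)) =
          (φ (FreeGroup.of (gx L.length j))) ^ (L[i]).Q j := by
      intro i j
      rw [ev_append, ev_append, ev_append, ev_rep, ev_rep, ev_true, ev_false, ev_true, ev_false,
        ← mul_assoc, ← mul_assoc, inv_pow, mul_inv_eq_one]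
    constructor
    · intro h i j
      exact (e i j).1 (h _ i j rfl)
    · rintro h _ i j rfl
      exact (e i j).2 (h i j)
  · simp only [List.forall_mem_singleton]
    rw [ev_wc, ev_true]
  · simp only [List.forall_mem_map, List.mem_finRange, true_imp_iff]
    refine forall_congr' fun i => ?_
    rw [ev_wc, ev_true, ev_true]

end words

end Pool.Agent.FM
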