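import Pool.Agent.FM.A1
import Pool.Agent.FM.A2

/-!
A finitely presented group with an undecidable word problem.
-/

namespace Pool.Agent.FM

theorem undecidable_wp : ∃ (k : ℕ) (R : List (List (Fin k × Bool)))
    (w : ℕ → List (Fin k × Bool)), Computable w ∧ ¬ ComputablePred fun n => Triv R (w n) := by
  obtain ⟨d, L, o, v, hL, hv, hund⟩ := exists_machine
  obtain ⟨k, R, w, hw, h⟩ := group_of_machine d L hL o
  refine ⟨k, R, fun n => w (v n), hw.comp hv, fun hc => hund ?_⟩
  exact hc.of_eq fun n => h (v n)

end Pool.Agent.FM
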