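import Pool.Agent.FM.Defs

/-!
# Block B06: the punctured neighbourhood retracts onto the hypersurface

The rescaling map of the circle multiplies `tan (π x / 3)` by a positive constant.
-/

open Set Topology Real

namespace Pool.Agent.FM

namespace B06

/-! ### rescaling of the line -/

/-- the displacement of the rescaling, as a function of `sin θ cos θ` and `cos² θ` -/
noncomputable def dsp (c u v : ℝ) : ℝ := 3 / π * arctan ((c - 1) * u / (v + c * (1 - v)))

/-- the rescaling of the line which multiplies `tan (π x / 3)` by `c` -/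
noncomputable def sR (c x : ℝ) : ℝ :=
  x + dsp c (sin (π * x / 3) * cos (π * x / 3)) (cos (π * x / 3) ^ 2)

theorem sin_cos_period (x : ℝ) (m : ℤ) :
    sin (π * (x + 3 * m) / 3) * cos (π * (x + 3 * m) / 3) = sin (π * x / 3) * cos (π * x / 3) ∧
    cos (π * (x + 3 * m) / 3) ^ 2 = cos (π * x / 3) ^ 2 := by
  have e : π * (x + 3 * m) / 3 = π * x / 3 + m * π := by ring
  have h : ((-1 : ℝ) ^ m) * ((-1 : ℝ) ^ m) = 1 := by
    rw [← mul_zpow]; norm_num
  rw [e, sin_add_int_mul_pi, cos_add_int_mul_pi]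
  constructor
  · calc _ = (((-1 : ℝ) ^ m) * ((-1 : ℝ) ^ m)) * (sin (π * x / 3) * cos (π * x / 3)) := by ring
      _ = _ := by rw [h, one_mul]
  · calc _ = (((-1 : ℝ) ^ m) * ((-1 : ℝ) ^ m)) * cos (π * x / 3) ^ 2 := by ring
      _ = _ := by rw [h, one_mul]

theorem sR_add (c x : ℝ) (m : ℤ) : sR c (x + 3 * m) = sR c x + 3 * m := by
  unfold sR
  rw [(sin_cos_period x m).1, (sin_cos_period x m).2]
  ring

theorem sR_eq_arctan {c x : ℝ} (hc : 0 < c) (h1 : -(3 / 2) < x) (h2 : x < 3 / 2) :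
    sR c x = 3 / π * arctan (c * tan (π * x / 3)) := by
  have hπ := pi_pos
  set θ := π * x / 3 with hθ
  have hθ1 : -(π / 2) < θ := by rw [hθ]; nlinarith
  have hθ2 : θ < π / 2 := by rw [hθ]; nlinarith
  have hcos : 0 < cos θ := cos_pos_of_mem_Ioo ⟨hθ1, hθ2⟩
  have hx : x = 3 / π * arctan (tan θ) := by
    rw [arctan_tan hθ1 hθ2, hθ]
    field_simp
  have hlt : (c * tan θ) * (-tan θ) < 1 := by nlinarith [sq_nonneg (tan θ)]
  have h := arctan_add hlt
  rw [arctan_neg] at h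
  have hs := sin_sq_add_cos_sq θ
  have hfrac : (c * tan θ + -tan θ) / (1 - c * tan θ * -tan θ) =
      (c - 1) * (sin θ * cos θ) / (cos θ ^ 2 + c * (1 - cos θ ^ 2)) := by
    have h1 : 1 - cos θ ^ 2 = sin θ ^ 2 := by linarith
    rw [h1, tan_eq_sin_div_cos]
    have h3 : cos θ ^ 2 + c * sin θ ^ 2 ≠ 0 := by positivity
    have h4 : 1 - c * (sin θ / cos θ) * -(sin θ / cos θ) ≠ 0 := by
      have : 1 - c * (sin θ / cos θ) * -(sin θ / cos θ) = 1 + c * (sin θ / cos θ) ^ 2 := by ring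
      rw [this]; positivity
    rw [div_eq_div_iff h4 h3]
    field_simp
    ring
  rw [hfrac] at h
  unfold sR dsp
  rw [← hθ, ← h]
  conv_lhs => rw [hx]
  ring

theorem sR_half (c : ℝ) : sR c (3 / 2) = 3 / 2 := by
  unfold sR dsp
  have : π * (3 / 2) / 3 = π / 2 := by ring
  rw [this, cos_pi_div_two]
  simp

theorem sR_neg_half (c : ℝ) : sR c (-(3 / 2)) = -(3 / 2) := by
  unfold sR dsp
  have : π * (-(3 / 2)) / 3 = -(π / 2) := by ring
  rw [this, cos_neg, cos_pi_div_two]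
  simp

theorem exists_red (x : ℝ) : ∃ (k : ℤ) (y : ℝ), x = y + 3 * k ∧ -(3 / 2) ≤ y ∧ y < 3 / 2 := by
  have h := kapZ_bounds x
  exact ⟨kapZ x, x - 3 * kapZ x, by ring, by linarith, by linarith⟩

theorem sR_mem {c y : ℝ} (hc : 0 < c) (h1 : -(3 / 2) < y) (h2 : y < 3 / 2) :
    -(3 / 2) < sR c y ∧ sR c y < 3 / 2 := by
  have hπ := pi_pos
  rw [sR_eq_arctan hc h1 h2]
  have h3 := arctan_lt_pi_div_two (c * tan (π * y / 3))
  have h4 := neg_pi_div_two_lt_arctan (c * tan (π * y / 3))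
  constructor
  · have : 3 / π * (-(π / 2)) = -(3 / 2) := by field_simp
    rw [← this]
    exact mul_lt_mul_of_pos_left h4 (by positivity)
  · have : 3 / π * (π / 2) = 3 / 2 := by field_simp
    rw [← this]
    exact mul_lt_mul_of_pos_left h3 (by positivity)

theorem sR_comp {c c' : ℝ} (hc : 0 < c) (hc' : 0 < c') (x : ℝ) :
    sR c (sR c' x) = sR (c * c') x := by
  obtain ⟨k, y, rfl, h1, h2⟩ := exists_red x
  rw [sR_add, sR_add, sR_add]
  congr 1
  rcases h1.eq_or_lt with h1 | h1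
  · rw [← h1, sR_neg_half, sR_neg_half, sR_neg_half]
  · obtain ⟨h3, h4⟩ := sR_mem hc' h1 h2
    have hπ := pi_pos
    rw [sR_eq_arctan hc h3 h4, sR_eq_arctan (mul_pos hc hc') h1 h2, sR_eq_arctan hc' h1 h2]
    have e : π * (3 / π * arctan (c' * tan (π * y / 3))) / 3 = arctan (c' * tan (π * y / 3)) := by
      field_simp
    rw [e, tan_arctan, mul_assoc]

theorem sR_one (x : ℝ) : sR 1 x = x := by
  simp [sR, dsp]

theorem den_pos {c v : ℝ} (hc : 0 < c) (h0 : 0 ≤ v) (h1 : v ≤ 1) : 0 < v + c * (1 - v) := by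
  rcases h1.eq_or_lt with h | h
  · rw [h]; norm_num
  · have : 0 < c * (1 - v) := mul_pos hc (by linarith)
    linarith

theorem continuous_sR {c : ℝ} (hc : 0 < c) : Continuous (sR c) := by
  unfold sR dsp
  refine continuous_id.add (continuous_const.mul (continuous_arctan.comp ?_))
  refine Continuous.div (by fun_prop) (by fun_prop) ?_
  intro x
  exact (den_pos hc (sq_nonneg _) (cos_sq_le_one _)).ne'

theorem strictMono_sR {c : ℝ} (hc : 0 < c) : StrictMono (sR c) := by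
  have hinj : Function.Injective (sR c) := by
    intro x y h
    have h1 := congrArg (sR c⁻¹) h
    rwa [sR_comp (inv_pos.mpr hc) hc, sR_comp (inv_pos.mpr hc) hc, inv_mul_cancel₀ hc.ne', sR_one,
      sR_one] at h1
  rcases (continuous_sR hc).strictMono_of_inj hinj with h | h
  · exact h
  · exfalso
    have h1 : sR c (3 / 2) < sR c (-(3 / 2)) := h (by norm_num)
    rw [sR_half, sR_neg_half] at h1
    linarith

/-- the tangent scale -/
noncomputable def tau (x : ℝ) : ℝ := tan (π * x / 3)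

theorem tau_pos {d : ℝ} (h0 : 0 < d) (h1 : d < 3 / 2) : 0 < tau d := by
  have hπ := pi_pos
  apply tan_pos_of_pos_of_lt_pi_div_two
  · positivity
  · nlinarith

theorem sR_tau {d e : ℝ} (hd0 : 0 < d) (hd1 : d < 3 / 2) (he0 : 0 < e) (he1 : e < 3 / 2) :
    sR (tau e / tau d) d = e := by
  have hπ := pi_pos
  have h1 := tau_pos hd0 hd1
  have h2 := tau_pos he0 he1
  rw [sR_eq_arctan (div_pos h2 h1) (by linarith) hd1]
  have e1 : tau e / tau d * tan (π * d / 3) = tan (π * e / 3) := by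
    change tau e / tau d * tau d = tau e
    field_simp
  rw [e1, arctan_tan (by nlinarith) (by nlinarith)]
  field_simp

theorem sR_neg {c : ℝ} (x : ℝ) : sR c (-x) = - sR c x := by
  unfold sR dsp
  have : π * -x / 3 = -(π * x / 3) := by ring
  rw [this, sin_neg, cos_neg]
  have : (c - 1) * (-sin (π * x / 3) * cos (π * x / 3)) = -((c - 1) * (sin (π * x / 3) *
    cos (π * x / 3))) := by ring
  rw [this, neg_div, arctan_neg]
  ring

theorem sR_right {d e : ℝ} (hd0 : 0 < d) (hd1 : d < 3 / 2) (he0 : 0 < e) (he1 : e < 3 / 2)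
    (k : ℤ) : sR (tau e / tau d) (3 * k + d) = 3 * k + e := by
  rw [add_comm, sR_add, sR_tau hd0 hd1 he0 he1, add_comm]

theorem sR_left {d e : ℝ} (hd0 : 0 < d) (hd1 : d < 3 / 2) (he0 : 0 < e) (he1 : e < 3 / 2)
    (k : ℤ) : sR (tau e / tau d) (3 * k - d) = 3 * k - e := by
  rw [sub_eq_add_neg, add_comm, sR_add, sR_neg, sR_tau hd0 hd1 he0 he1]
  ring

theorem sR_right' {d e : ℝ} (hd0 : 0 < d) (hd1 : d < 3 / 2) (he0 : 0 < e) (he1 : e < 3 / 2)
    (k : ℤ) : sR (tau e / tau d) (3 * k + 3 - d) = 3 * k + 3 - e := by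
  have := sR_left hd0 hd1 he0 he1 (k + 1)
  push_cast at this
  have e1 : (3 : ℝ) * (k + 1) - d = 3 * k + 3 - d := by ring
  rw [e1] at this
  rw [this]
  ring

theorem loZ_sR {d e : ℝ} (hd0 : 0 < d) (hd1 : d < 3 / 2) (he0 : 0 < e) (he1 : e < 3 / 2)
    (x : ℝ) : loZ e (sR (tau e / tau d) x) = loZ d x := by
  have hm := strictMono_sR (div_pos (tau_pos he0 he1) (tau_pos hd0 hd1))
  rcases h : loZ d x with ⟨k, b⟩
  cases b
  · rw [loZ_false_iff hd0.le hd1] at h
    rw [loZ_false_iff he0.le he1, ← sR_left hd0 hd1 he0 he1 k, ← sR_right hd0 hd1 he0 he1 k]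
    exact ⟨hm.monotone h.1, hm.monotone h.2⟩
  · rw [loZ_true_iff hd0.le hd1] at h
    rw [loZ_true_iff he0.le he1, ← sR_right' hd0 hd1 he0 he1 k, ← sR_right hd0 hd1 he0 he1 k]
    exact ⟨hm h.1, hm h.2⟩

theorem hiZ_sR {d e : ℝ} (hd0 : 0 < d) (hd1 : d < 3 / 2) (he0 : 0 < e) (he1 : e < 3 / 2)
    (x : ℝ) : hiZ e (sR (tau e / tau d) x) = hiZ d x := by
  have hm := strictMono_sR (div_pos (tau_pos he0 he1) (tau_pos hd0 hd1))
  rcases h : hiZ d x with ⟨k, b⟩
  cases b
  · rw [hiZ_false_iff hd0 hd1.le] at h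
    rw [hiZ_false_iff he0 he1.le, ← sR_left hd0 hd1 he0 he1 k, ← sR_right hd0 hd1 he0 he1 k]
    exact ⟨hm h.1, hm h.2⟩
  · rw [hiZ_true_iff hd0 hd1.le] at h
    rw [hiZ_true_iff he0 he1.le, ← sR_right' hd0 hd1 he0 he1 k, ← sR_right hd0 hd1 he0 he1 k]
    exact ⟨hm.monotone h.1, hm.monotone h.2⟩

theorem kapZ_sR {c : ℝ} (hc : 0 < c) (x : ℝ) : kapZ (sR c x) = kapZ x := by
  have hm := strictMono_sR hc
  obtain ⟨h1, h2⟩ := kapZ_bounds x
  rw [kapZ_eq_iff]
  have e1 : sR c (3 * (kapZ x : ℝ) - 3 / 2) = 3 * (kapZ x : ℝ) - 3 / 2 := by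
    rw [sub_eq_add_neg, add_comm, sR_add, sR_neg_half]
  have e2 : sR c (3 * (kapZ x : ℝ) + 3 / 2) = 3 * (kapZ x : ℝ) + 3 / 2 := by
    rw [add_comm, sR_add, sR_half]
  rw [← e1, ← e2]
  exact ⟨hm.monotone h1, hm h2⟩

/-! ### rescaling of the circle and of the torus -/

section circle

variable {n : ℕ}

theorem periodic_sc (n : ℕ) : Function.Periodic (fun x : ℝ => sin (π * x / 3) * cos (π * x / 3))
    (3 * (n : ℝ)) := by
  intro x
  have := (sin_cos_period x n).1
  simpa using this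

theorem periodic_cc (n : ℕ) : Function.Periodic (fun x : ℝ => cos (π * x / 3) ^ 2)
    (3 * (n : ℝ)) := by
  intro x
  have := (sin_cos_period x n).2
  simpa using this

noncomputable def fsc : Circ n → ℝ := (periodic_sc n).lift
noncomputable def fcc : Circ n → ℝ := (periodic_cc n).lift

theorem continuous_lift' {f : ℝ → ℝ} {p : ℝ} (hp : Function.Periodic f p) (hf : Continuous f) :
    Continuous (hp.lift : AddCircle p → ℝ) :=
  continuous_quot_lift _ hf

theorem continuous_fsc : Continuous (fsc : Circ n → ℝ) :=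
  continuous_lift' _ (by fun_prop)

theorem continuous_fcc : Continuous (fcc : Circ n → ℝ) :=
  continuous_lift' _ (by fun_prop)

theorem fcc_mem (q : Circ n) : 0 ≤ fcc q ∧ fcc q ≤ 1 := by
  induction q using QuotientAddGroup.induction_on with
  | H x => exact ⟨sq_nonneg _, cos_sq_le_one _⟩

/-- the rescaling of the circle -/
noncomputable def rsc (c : ℝ) (q : Circ n) : Circ n := q + ((dsp c (fsc q) (fcc q) : ℝ) : Circ n)

theorem sc_coe (c x : ℝ) : rsc c (x : Circ n) = ((sR c x : ℝ) : Circ n) := by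
  unfold sR
  rw [AddCircle.coe_add]
  rfl

theorem sc_comp {c c' : ℝ} (hc : 0 < c) (hc' : 0 < c') (q : Circ n) :
    rsc c (rsc c' q) = rsc (c * c') q := by
  induction q using QuotientAddGroup.induction_on with
  | H x =>
    rw [sc_coe, sc_coe, sc_coe, sR_comp hc hc']

theorem sc_one (q : Circ n) : rsc 1 q = q := by
  induction q using QuotientAddGroup.induction_on with
  | H x =>
    rw [sc_coe, sR_one]

theorem lo_sc {d e : ℝ} (hd0 : 0 < d) (hd1 : d < 3 / 2) (he0 : 0 < e) (he1 : e < 3 / 2)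
    (q : Circ n) : lo e (rsc (tau e / tau d) q) = lo d q := by
  induction q using QuotientAddGroup.induction_on with
  | H x =>
    rw [sc_coe, lo_coe, lo_coe, loZ_sR hd0 hd1 he0 he1]

theorem hi_sc {d e : ℝ} (hd0 : 0 < d) (hd1 : d < 3 / 2) (he0 : 0 < e) (he1 : e < 3 / 2)
    (q : Circ n) : hi e (rsc (tau e / tau d) q) = hi d q := by
  induction q using QuotientAddGroup.induction_on with
  | H x =>
    rw [sc_coe, hi_coe, hi_coe, hiZ_sR hd0 hd1 he0 he1]

theorem kap_sc {c : ℝ} (hc : 0 < c) (q : Circ n) : kap (rsc c q) = kap q := by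
  induction q using QuotientAddGroup.induction_on with
  | H x =>
    rw [sc_coe, kap_coe, kap_coe, kapZ_sR hc]

theorem continuous_sc {Z : Type*} [TopologicalSpace Z] {c : Z → ℝ} (hc : Continuous c)
    (hpos : ∀ z, 0 < c z) {q : Z → Circ n} (hq : Continuous q) :
    Continuous fun z => rsc (c z) (q z) := by
  unfold rsc dsp
  refine hq.add ((AddCircle.continuous_mk' _).comp ?_)
  refine continuous_const.mul (continuous_arctan.comp ?_)
  have h1 : Continuous fun z => fsc (q z) := continuous_fsc.comp hq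
  have h2 : Continuous fun z => fcc (q z) := continuous_fcc.comp hq
  refine Continuous.div (by fun_prop) (by fun_prop) ?_
  intro z
  exact (den_pos (hpos z) (fcc_mem _).1 (fcc_mem _).2).ne'

end circle

/-! ### semicontinuity of the cells -/

section semi

variable {n : ℕ}

theorem loZ_near {c : ℝ} (h0 : 0 ≤ c) (h1 : c < 3 / 2) (x₀ : ℝ) :
    ∀ᶠ x in 𝓝 x₀, Face1 (cst n (loZ c x₀)) (cst n (loZ c x)) := by
  rcases h : loZ c x₀ with ⟨k, b⟩
  cases b
  · rw [loZ_false_iff h0 h1] at h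
    have e1 : ∀ᶠ x in 𝓝 x₀, x < 3 * (k : ℝ) + 3 - c := eventually_lt_nhds (by linarith)
    have e2 : ∀ᶠ x in 𝓝 x₀, 3 * (k : ℝ) - 3 + c < x := eventually_gt_nhds (by linarith)
    filter_upwards [e1, e2] with x h2 h3
    apply face1_cst
    by_cases h4 : x ≤ 3 * k + c
    · by_cases h5 : 3 * (k : ℝ) - c ≤ x
      · left
        rw [(loZ_false_iff h0 h1).mpr ⟨h5, h4⟩]
      · right
        rw [(loZ_true_iff (k := k - 1) h0 h1).mpr
          ⟨by push_cast; linarith, by push_cast; linarith⟩]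
        simp
    · right
      rw [(loZ_true_iff (k := k) h0 h1).mpr ⟨by linarith, by linarith⟩]
      simp
  · rw [loZ_true_iff h0 h1] at h
    filter_upwards [eventually_lt_nhds h.2, eventually_gt_nhds h.1] with x h2 h3
    rw [(loZ_true_iff (k := k) h0 h1).mpr ⟨h3, h2⟩]
    exact Face1.refl _

theorem hiZ_near {c : ℝ} (h0 : 0 < c) (h1 : c ≤ 3 / 2) (x₀ : ℝ) :
    ∀ᶠ x in 𝓝 x₀, Face1 (cst n (hiZ c x)) (cst n (hiZ c x₀)) := by
  rcases h : hiZ c x₀ with ⟨k, b⟩
  cases b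
  · rw [hiZ_false_iff h0 h1] at h
    filter_upwards [eventually_lt_nhds h.2, eventually_gt_nhds h.1] with x h2 h3
    rw [(hiZ_false_iff (k := k) h0 h1).mpr ⟨h3, h2⟩]
    exact Face1.refl _
  · rw [hiZ_true_iff h0 h1] at h
    have e1 : ∀ᶠ x in 𝓝 x₀, x < 3 * (k : ℝ) + 3 + c := eventually_lt_nhds (by linarith)
    have e2 : ∀ᶠ x in 𝓝 x₀, 3 * (k : ℝ) - c < x := eventually_gt_nhds (by linarith)
    filter_upwards [e1, e2] with x h2 h3
    apply face1_cst
    by_cases h4 : x < 3 * k + c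
    · right
      rw [(hiZ_false_iff (k := k) h0 h1).mpr ⟨h3, h4⟩]
      simp
    · by_cases h5 : x ≤ 3 * (k : ℝ) + 3 - c
      · left
        rw [(hiZ_true_iff (k := k) h0 h1).mpr ⟨by linarith, h5⟩]
      · right
        rw [(hiZ_false_iff (k := k + 1) h0 h1).mpr
          ⟨by push_cast; linarith, by push_cast; linarith⟩]
        simp

theorem nhds_coe (x₀ : ℝ) : 𝓝 (x₀ : Circ n) = Filter.map (fun x : ℝ => (x : Circ n)) (𝓝 x₀) :=
  (QuotientAddGroup.isOpenQuotientMap_mk.map_nhds_eq x₀).symm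

theorem lo_near {c : ℝ} (h0 : 0 ≤ c) (h1 : c < 3 / 2) (q₀ : Circ n) :
    ∀ᶠ q in 𝓝 q₀, Face1 (lo c q₀) (lo c q) := by
  induction q₀ using QuotientAddGroup.induction_on with
  | H x =>
    rw [show 𝓝 ((QuotientAddGroup.mk x : ℝ ⧸ _) : Circ n) = _ from nhds_coe x,
      Filter.eventually_map]
    exact loZ_near h0 h1 x

theorem hi_near {c : ℝ} (h0 : 0 < c) (h1 : c ≤ 3 / 2) (q₀ : Circ n) :
    ∀ᶠ q in 𝓝 q₀, Face1 (hi c q) (hi c q₀) := by
  induction q₀ using QuotientAddGroup.induction_on with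
  | H x =>
    rw [show 𝓝 ((QuotientAddGroup.mk x : ℝ ⧸ _) : Circ n) = _ from nhds_coe x,
      Filter.eventually_map]
    exact hiZ_near h0 h1 x

theorem Lo_near {c : ℝ} (h0 : 0 ≤ c) (h1 : c < 3 / 2) (q₀ : Tor n) :
    ∀ᶠ q in 𝓝 q₀, Face (Lo c q₀) (Lo c q) := by
  unfold Face
  rw [Filter.eventually_all]
  intro i
  exact (continuous_apply i).continuousAt.eventually (lo_near h0 h1 (q₀ i))

theorem Hi_near {c : ℝ} (h0 : 0 < c) (h1 : c ≤ 3 / 2) (q₀ : Tor n) :
    ∀ᶠ q in 𝓝 q₀, Face (Hi c q) (Hi c q₀) := by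
  unfold Face
  rw [Filter.eventually_all]
  intro i
  exact (continuous_apply i).continuousAt.eventually (hi_near h0 h1 (q₀ i))

theorem lo_eq_hi {c : ℝ} (h0 : 0 < c) (h1 : c ≤ 3 / 2) (q : Circ n) :
    ∀ᶠ d in 𝓝[<] c, lo d q = hi c q := by
  induction q using QuotientAddGroup.induction_on with
  | H x =>
    have e0 : ∀ᶠ d in 𝓝[<] c, 0 < d := (eventually_gt_nhds h0).filter_mono nhdsWithin_le_nhds
    have e1 : ∀ᶠ d in 𝓝[<] c, d < c := self_mem_nhdsWithin
    show ∀ᶠ d in 𝓝[<] c, cst n (loZ d x) = cst n (hiZ c x)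
    rcases h : hiZ c x with ⟨k, b⟩
    cases b
    · rw [hiZ_false_iff h0 h1] at h
      have e2 : ∀ᶠ d in 𝓝[<] c, x - 3 * k < d :=
        (eventually_gt_nhds (by linarith)).filter_mono nhdsWithin_le_nhds
      have e3 : ∀ᶠ d in 𝓝[<] c, 3 * k - x < d :=
        (eventually_gt_nhds (by linarith)).filter_mono nhdsWithin_le_nhds
      filter_upwards [e0, e1, e2, e3] with d h2 h3 h4 h5
      rw [(loZ_false_iff (k := k) h2.le (by linarith)).mpr ⟨by linarith, by linarith⟩]
    · rw [hiZ_true_iff h0 h1] at h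
      filter_upwards [e0, e1] with d h2 h3
      rw [(loZ_true_iff (k := k) h2.le (by linarith)).mpr ⟨by linarith, by linarith⟩]

theorem lo_eq_lo {c : ℝ} (h0 : 0 ≤ c) (h1 : c < 3 / 2) (q : Circ n) :
    ∀ᶠ d in 𝓝[>] c, lo d q = lo c q := by
  induction q using QuotientAddGroup.induction_on with
  | H x =>
    have e0 : ∀ᶠ d in 𝓝[>] c, d < 3 / 2 := (eventually_lt_nhds h1).filter_mono nhdsWithin_le_nhds
    have e1 : ∀ᶠ d in 𝓝[>] c, c < d := self_mem_nhdsWithin
    show ∀ᶠ d in 𝓝[>] c, cst n (loZ d x) = cst n (loZ c x)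
    rcases h : loZ c x with ⟨k, b⟩
    cases b
    · rw [loZ_false_iff h0 h1] at h
      filter_upwards [e0, e1] with d h2 h3
      rw [(loZ_false_iff (k := k) (by linarith) h2).mpr ⟨by linarith, by linarith⟩]
    · rw [loZ_true_iff h0 h1] at h
      have e2 : ∀ᶠ d in 𝓝[>] c, d < x - 3 * k :=
        (eventually_lt_nhds (by linarith)).filter_mono nhdsWithin_le_nhds
      have e3 : ∀ᶠ d in 𝓝[>] c, d < 3 * k + 3 - x :=
        (eventually_lt_nhds (by linarith)).filter_mono nhdsWithin_le_nhds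
      filter_upwards [e0, e1, e2, e3] with d h2 h3 h4 h5
      rw [(loZ_true_iff (k := k) (by linarith) h2).mpr ⟨by linarith, by linarith⟩]

/-- the critical radius -/
noncomputable def Dq (K : Set (Cell n)) (q : Tor n) : ℝ := sInf {d | 0 ≤ d ∧ d ≤ 1 ∧ Lo d q ∈ K}

variable {K : Set (Cell n)}

theorem Dq_lt_iff (hK : IsCx K) {q : Tor n} (hq : Lo 1 q ∈ K) {c : ℝ} (h0 : 0 < c)
    (h1 : c ≤ 1) : Dq K q < c ↔ Hi c q ∈ K := by
  have hne : {d | 0 ≤ d ∧ d ≤ 1 ∧ Lo d q ∈ K}.Nonempty := ⟨1, by norm_num, le_rfl, hq⟩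
  have hbdd : BddBelow {d | 0 ≤ d ∧ d ≤ 1 ∧ Lo d q ∈ K} := ⟨0, fun d hd => hd.1⟩
  constructor
  · intro h
    obtain ⟨d, ⟨hd0, hd1, hdK⟩, hdc⟩ := exists_lt_of_csInf_lt hne h
    exact hK _ hdK _ (face_Hi_Lo hd0 hdc (by linarith) q)
  · intro h
    have e1 : ∀ᶠ d in 𝓝[<] c, ∀ i, lo d (q i) = hi c (q i) := by
      rw [Filter.eventually_all]
      exact fun i => lo_eq_hi h0 (by linarith) (q i)
    have e2 : ∀ᶠ d in 𝓝[<] c, d < c := self_mem_nhdsWithin
    have e3 : ∀ᶠ d in 𝓝[<] c, 0 < d := (eventually_gt_nhds h0).filter_mono nhdsWithin_le_nhds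
    obtain ⟨d, hd1, hd2, hd3⟩ := (e1.and (e2.and e3)).exists
    have hL : Lo d q = Hi c q := funext hd1
    exact (csInf_le hbdd ⟨hd3.le, by linarith, by rw [hL]; exact h⟩).trans_lt hd2

theorem lt_Dq_iff (hK : IsCx K) {q : Tor n} (hq : Lo 1 q ∈ K) {c : ℝ} (h0 : 0 ≤ c)
    (h1 : c < 1) : c < Dq K q ↔ Lo c q ∉ K := by
  have hne : {d | 0 ≤ d ∧ d ≤ 1 ∧ Lo d q ∈ K}.Nonempty := ⟨1, by norm_num, le_rfl, hq⟩
  have hbdd : BddBelow {d | 0 ≤ d ∧ d ≤ 1 ∧ Lo d q ∈ K} := ⟨0, fun d hd => hd.1⟩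
  constructor
  · intro h h2
    exact absurd (csInf_le hbdd ⟨h0, h1.le, h2⟩) (not_le.mpr h)
  · intro h
    have e1 : ∀ᶠ d in 𝓝[>] c, ∀ i, lo d (q i) = lo c (q i) := by
      rw [Filter.eventually_all]
      exact fun i => lo_eq_lo h0 (by linarith) (q i)
    have e2 : ∀ᶠ d in 𝓝[>] c, c < d := self_mem_nhdsWithin
    have e3 : ∀ᶠ d in 𝓝[>] c, d < 3 / 2 :=
      (eventually_lt_nhds (by linarith)).filter_mono nhdsWithin_le_nhds
    obtain ⟨e, he1, he2, he3⟩ := (e1.and (e2.and e3)).exists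
    have hL : Lo e q = Lo c q := funext he1
    refine he2.trans_le (le_csInf hne ?_)
    rintro d ⟨hd0, hd1, hdK⟩
    by_contra hlt
    push Not at hlt
    apply h
    rw [← hL]
    exact hK _ hdK _ (face_Lo_Lo hd0 hlt.le he3 q)

end semi

end B06

open B06 in
theorem retract {n : ℕ} [NeZero n] (hn : 3 ≤ n) {A : ℕ} {K : Set (Cell n)} (hK : IsCx K)
    (hKO : KO n A ⊆ K) :
    ∃ (ι : C(X K, {q : Tor n | q ∈ Oset K A ∧ Lo 0 q ∉ K}))
      (r : C({q : Tor n | q ∈ Oset K A ∧ Lo 0 q ∉ K}, X K)),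
      (∀ q, r (ι q) = q) ∧ (∀ q : X K, Kap (ι q : Tor n) = Kap (q : Tor n)) ∧
      (∀ q, Kap (r q : Tor n) = Kap (q : Tor n)) := by
  have t1 : 0 < tau 1 := tau_pos (by norm_num) (by norm_num)
  have th : 0 < tau (1 / 2) := tau_pos (by norm_num) (by norm_num)
  set P : Set (Tor n) := {q : Tor n | q ∈ Oset K A ∧ Lo 0 q ∉ K} with hP
  have hP1 : ∀ q ∈ P, Lo 1 q ∈ K := fun q hq =>
    hK _ hq.1.1 _ (face_Lo_Hi (by norm_num) le_rfl (by norm_num) q)
  have hD0 : ∀ q ∈ P, 0 < Dq K q := fun q hq =>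
    (lt_Dq_iff hK (hP1 q hq) le_rfl one_pos).mpr hq.2
  have hD1 : ∀ q ∈ P, Dq K q < 1 := fun q hq =>
    (Dq_lt_iff hK (hP1 q hq) one_pos le_rfl).mpr hq.1.1
  -- scaling maps on the torus
  have LoS : ∀ (d e : ℝ), 0 < d → d < 3 / 2 → 0 < e → e < 3 / 2 → ∀ q : Tor n,
      Lo e (fun i => rsc (tau e / tau d) (q i)) = Lo d q := fun d e a1 a2 a3 a4 q =>
    funext fun i => lo_sc a1 a2 a3 a4 (q i)
  have HiS : ∀ (d e : ℝ), 0 < d → d < 3 / 2 → 0 < e → e < 3 / 2 → ∀ q : Tor n,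
      Hi e (fun i => rsc (tau e / tau d) (q i)) = Hi d q := fun d e a1 a2 a3 a4 q =>
    funext fun i => hi_sc a1 a2 a3 a4 (q i)
  have hι : ∀ q ∈ X K, (fun i => rsc (tau (1 / 2) / tau 1) (q i)) ∈ P := by
    intro q hq
    have h1 := LoS 1 (1 / 2) (by norm_num) (by norm_num) (by norm_num) (by norm_num) q
    have h2 := HiS 1 (1 / 2) (by norm_num) (by norm_num) (by norm_num) (by norm_num) q
    set q' : Tor n := fun i => rsc (tau (1 / 2) / tau 1) (q i) with hq'
    have h3 : Lo 0 q' ∉ K := by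
      intro h
      apply hq.2
      rw [← h2]
      exact hK _ h _ (face_Hi_Lo le_rfl (by norm_num) (by norm_num) q')
    refine ⟨⟨?_, fun h => h3 (hKO h)⟩, h3⟩
    have h4 : Lo (1 / 2) q' ∈ K := by rw [h1]; exact hq.1
    exact hK _ h4 _ (face_Hi_Lo (by norm_num) (by norm_num) (by norm_num) q')
  have hr : ∀ q ∈ P, (fun i => rsc (tau 1 / tau (Dq K q)) (q i)) ∈ X K := by
    intro q hq
    have h0 := hD0 q hq
    have h1 := hD1 q hq
    constructor
    · rw [LoS (Dq K q) 1 h0 (by linarith) (by norm_num) (by norm_num) q]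
      by_contra h
      exact lt_irrefl _ ((lt_Dq_iff hK (hP1 q hq) h0.le h1).mpr h)
    · rw [HiS (Dq K q) 1 h0 (by linarith) (by norm_num) (by norm_num) q]
      intro h
      exact lt_irrefl _ ((Dq_lt_iff hK (hP1 q hq) h0 h1.le).mpr h)
  -- continuity of the critical radius
  have hDc : Continuous fun q : P => Dq K (q : Tor n) := by
    rw [continuous_iff_continuousAt]
    intro q₀
    rw [ContinuousAt, tendsto_order]
    constructor
    · intro a ha
      rcases lt_or_ge a 0 with h | h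
      · exact Filter.Eventually.of_forall fun q => h.trans (hD0 q q.2)
      · have ha1 : a < 1 := ha.trans (hD1 q₀ q₀.2)
        have h1 := (lt_Dq_iff hK (hP1 q₀ q₀.2) h ha1).mp ha
        have h2 : ∀ᶠ q : P in 𝓝 q₀, Face (Lo a (q₀ : Tor n)) (Lo a (q : Tor n)) :=
          continuous_subtype_val.continuousAt.eventually (Lo_near h (by linarith) (q₀ : Tor n))
        filter_upwards [h2] with q hq
        rw [lt_Dq_iff hK (hP1 q q.2) h ha1]
        exact fun h3 => h1 (hK _ h3 _ hq)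
    · intro a ha
      rcases lt_or_ge 1 a with h | h
      · exact Filter.Eventually.of_forall fun q => (hD1 q q.2).trans h
      · have ha0 : 0 < a := (hD0 q₀ q₀.2).trans ha
        have h1 := (Dq_lt_iff hK (hP1 q₀ q₀.2) ha0 h).mp ha
        have h2 : ∀ᶠ q : P in 𝓝 q₀, Face (Hi a (q : Tor n)) (Hi a (q₀ : Tor n)) :=
          continuous_subtype_val.continuousAt.eventually (Hi_near ha0 (by linarith) (q₀ : Tor n))
        filter_upwards [h2] with q hq
        rw [Dq_lt_iff hK (hP1 q q.2) ha0 h]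
        exact hK _ h1 _ hq
  have htc : Continuous fun q : P => tau 1 / tau (Dq K (q : Tor n)) := by
    refine continuous_const.div ?_ fun q => (tau_pos (hD0 q q.2) (by linarith [hD1 q q.2])).ne'
    unfold tau
    simp only [tan_eq_sin_div_cos]
    refine Continuous.div (by fun_prop) (by fun_prop) ?_
    intro q
    have h0 := hD0 q q.2
    have h1 := hD1 q q.2
    have hπ := pi_pos
    exact (cos_pos_of_mem_Ioo ⟨by nlinarith, by nlinarith⟩).ne'
  have htp : ∀ q : P, 0 < tau 1 / tau (Dq K (q : Tor n)) := fun q =>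
    div_pos t1 (tau_pos (hD0 q q.2) (by linarith [hD1 q q.2]))
  let ι : C(X K, P) := ⟨fun q => ⟨fun i => rsc (tau (1 / 2) / tau 1) ((q : Tor n) i), hι q q.2⟩, by
    refine Continuous.subtype_mk (continuous_pi fun i => ?_) _
    exact continuous_sc continuous_const (fun _ => div_pos th t1)
      ((continuous_apply i).comp continuous_subtype_val)⟩
  let r : C(P, X K) := ⟨fun q => ⟨fun i => rsc (tau 1 / tau (Dq K (q : Tor n))) ((q : Tor n) i),
      hr q q.2⟩, by
    refine Continuous.subtype_mk (continuous_pi fun i => ?_) _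
    exact continuous_sc htc htp ((continuous_apply i).comp continuous_subtype_val)⟩
  refine ⟨ι, r, ?_, ?_, ?_⟩
  · intro q
    have hDq : Dq K (ι q : Tor n) = 1 / 2 := by
      have h1 := LoS 1 (1 / 2) (by norm_num) (by norm_num) (by norm_num) (by norm_num) (q : Tor n)
      have h2 := HiS 1 (1 / 2) (by norm_num) (by norm_num) (by norm_num) (by norm_num) (q : Tor n)
      have hq := (ι q).2
      apply le_antisymm
      · by_contra h
        push Not at h
        refine (lt_Dq_iff hK (hP1 _ hq) (by norm_num) (by norm_num)).mp h ?_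
        change Lo (1 / 2) (fun i => rsc (tau (1 / 2) / tau 1) ((q : Tor n) i)) ∈ K
        rw [h1]
        exact q.2.1
      · by_contra h
        push Not at h
        have h3 := (Dq_lt_iff hK (hP1 _ hq) (by norm_num) (by norm_num)).mp h
        change Hi (1 / 2) (fun i => rsc (tau (1 / 2) / tau 1) ((q : Tor n) i)) ∈ K at h3
        rw [h2] at h3
        exact q.2.2 h3
    apply Subtype.ext
    funext i
    change rsc (tau 1 / tau (Dq K (ι q : Tor n))) (rsc (tau (1 / 2) / tau 1) ((q : Tor n) i)) = _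
    rw [hDq, sc_comp (div_pos t1 th) (div_pos th t1)]
    have : tau 1 / tau (1 / 2) * (tau (1 / 2) / tau 1) = 1 := by
      have := t1.ne'
      have := th.ne'
      field_simp
    rw [this, sc_one]
  · intro q
    funext i
    exact kap_sc (div_pos th t1) _
  · intro q
    funext i
    exact kap_sc (htp q) _

end Pool.Agent.FM
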