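import Pool.Agent.FM.Defs
import Pool.Agent.FM.B06

/-!
# Block B01: elementary collapses do not change the hypersurface
-/

open Set Topology

namespace Pool.Agent.FM

namespace B01

/-! ### the box -/

section box

variable (E : Fin 5 → Bool) (j : Fin 5)

/-- the range of the coordinates -/
def II (i : Fin 5) : Set ℝ := if i = j then Icc 1 2 else Icc (-1) 1

/-- the coordinates measuring the distance to the face `F` -/
noncomputable def gg (i : Fin 5) (t : ℝ) : ℝ := if i = j then t / 2 else if E i then 0 else |t|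

/-- the coordinates measuring the distance to the face `A` -/
noncomputable def hh (i : Fin 5) (t : ℝ) : ℝ := if i = j then t⁻¹ else if E i then |t| else 0

/-- distance to `F` -/
noncomputable def MM (w : Fin 5 → ℝ) : ℝ :=
  Finset.univ.sup' ⟨0, Finset.mem_univ _⟩ fun i => gg E j i (w i)

/-- distance to `A` -/
noncomputable def NN (w : Fin 5 → ℝ) : ℝ :=
  Finset.univ.sup' ⟨0, Finset.mem_univ _⟩ fun i => hh E j i (w i)

/-- the flow -/
noncomputable def SS (t : ℝ) (w : Fin 5 → ℝ) (i : Fin 5) : ℝ :=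
  if i = j then w i * t else if E i then w i / t else w i * t

/-- the box -/
def HH : Set (Fin 5 → ℝ) := {w | ∀ i, w i ∈ II j i}

variable {E j}

theorem II_self : II j j = Icc 1 2 := by simp [II]
theorem II_ne {i : Fin 5} (h : i ≠ j) : II j i = Icc (-1) 1 := by simp [II, h]

theorem gg_mem {i : Fin 5} {t : ℝ} (ht : t ∈ II j i) : 0 ≤ gg E j i t ∧ gg E j i t ≤ 1 := by
  unfold II at ht
  unfold gg
  split_ifs at ht ⊢ with h1 h2
  · constructor <;> linarith [ht.1, ht.2]
  · norm_num
  · exact ⟨abs_nonneg _, abs_le.mpr ht⟩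

theorem hh_mem {i : Fin 5} {t : ℝ} (ht : t ∈ II j i) : 0 ≤ hh E j i t ∧ hh E j i t ≤ 1 := by
  unfold II at ht
  unfold hh
  split_ifs at ht ⊢ with h1 h2
  · exact ⟨inv_nonneg.mpr (by linarith [ht.1]), inv_le_one_of_one_le₀ ht.1⟩
  · exact ⟨abs_nonneg _, abs_le.mpr ht⟩
  · norm_num

theorem gg_le_MM (w : Fin 5 → ℝ) (i : Fin 5) : gg E j i (w i) ≤ MM E j w :=
  Finset.le_sup' (fun i => gg E j i (w i)) (Finset.mem_univ i)

theorem hh_le_NN (w : Fin 5 → ℝ) (i : Fin 5) : hh E j i (w i) ≤ NN E j w :=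
  Finset.le_sup' (fun i => hh E j i (w i)) (Finset.mem_univ i)

theorem MM_exists (w : Fin 5 → ℝ) : ∃ i, MM E j w = gg E j i (w i) := by
  obtain ⟨i, _, hi⟩ := Finset.exists_mem_eq_sup' (s := Finset.univ) ⟨(0 : Fin 5), Finset.mem_univ _⟩
    (fun i => gg E j i (w i))
  exact ⟨i, hi⟩

theorem NN_exists (w : Fin 5 → ℝ) : ∃ i, NN E j w = hh E j i (w i) := by
  obtain ⟨i, _, hi⟩ := Finset.exists_mem_eq_sup' (s := Finset.univ) ⟨(0 : Fin 5), Finset.mem_univ _⟩
    (fun i => hh E j i (w i))
  exact ⟨i, hi⟩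

theorem MM_mem {w : Fin 5 → ℝ} (hw : w ∈ HH j) : 1 / 2 ≤ MM E j w ∧ MM E j w ≤ 1 := by
  constructor
  · have h1 := gg_le_MM (E := E) (j := j) w j
    have h2 := hw j
    rw [II_self] at h2
    simp only [gg, if_true] at h1
    linarith [h2.1]
  · obtain ⟨i, hi⟩ := MM_exists (E := E) (j := j) w
    rw [hi]
    exact (gg_mem (hw i)).2

theorem NN_mem {w : Fin 5 → ℝ} (hw : w ∈ HH j) : 1 / 2 ≤ NN E j w ∧ NN E j w ≤ 1 := by
  constructor
  · have h1 := hh_le_NN (E := E) (j := j) w j
    have h2 := hw j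
    rw [II_self] at h2
    simp only [hh, if_true] at h1
    have h3 : (2 : ℝ)⁻¹ ≤ (w j)⁻¹ := inv_anti₀ (by linarith [h2.1]) h2.2
    linarith
  · obtain ⟨i, hi⟩ := NN_exists (E := E) (j := j) w
    rw [hi]
    exact (hh_mem (hw i)).2

theorem MM_eq_one {w : Fin 5 → ℝ} (hw : w ∈ HH j) : MM E j w = 1 ↔ ∃ i, gg E j i (w i) = 1 := by
  constructor
  · intro h
    obtain ⟨i, hi⟩ := MM_exists (E := E) (j := j) w
    exact ⟨i, by rw [← hi, h]⟩
  · rintro ⟨i, hi⟩
    exact le_antisymm (MM_mem hw).2 (by rw [← hi]; exact gg_le_MM w i)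

theorem NN_eq_one {w : Fin 5 → ℝ} (hw : w ∈ HH j) : NN E j w = 1 ↔ ∃ i, hh E j i (w i) = 1 := by
  constructor
  · intro h
    obtain ⟨i, hi⟩ := NN_exists (E := E) (j := j) w
    exact ⟨i, by rw [← hi, h]⟩
  · rintro ⟨i, hi⟩
    exact le_antisymm (NN_mem hw).2 (by rw [← hi]; exact hh_le_NN w i)

theorem gg_SS {t : ℝ} (ht : 0 < t) (w : Fin 5 → ℝ) (i : Fin 5) :
    gg E j i (SS E j t w i) = t * gg E j i (w i) := by
  unfold gg SS
  split_ifs with h1 h2
  · ring
  · ring
  · rw [abs_mul, abs_of_pos ht, mul_comm]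

theorem hh_SS {t : ℝ} (ht : 0 < t) (w : Fin 5 → ℝ) (i : Fin 5) :
    hh E j i (SS E j t w i) = t⁻¹ * hh E j i (w i) := by
  unfold hh SS
  split_ifs with h1 h2
  · rw [mul_inv, mul_comm]
  · rw [abs_div, abs_of_pos ht, div_eq_mul_inv, mul_comm]
  · ring

theorem MM_SS {t : ℝ} (ht : 0 < t) (w : Fin 5 → ℝ) : MM E j (SS E j t w) = t * MM E j w := by
  apply le_antisymm
  · obtain ⟨i, hi⟩ := MM_exists (E := E) (j := j) (SS E j t w)
    rw [hi, gg_SS ht]
    exact mul_le_mul_of_nonneg_left (gg_le_MM w i) ht.le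
  · obtain ⟨i, hi⟩ := MM_exists (E := E) (j := j) w
    rw [hi, ← gg_SS ht]
    exact gg_le_MM _ i

theorem NN_SS {t : ℝ} (ht : 0 < t) (w : Fin 5 → ℝ) : NN E j (SS E j t w) = t⁻¹ * NN E j w := by
  have ht' : 0 < t⁻¹ := inv_pos.mpr ht
  apply le_antisymm
  · obtain ⟨i, hi⟩ := NN_exists (E := E) (j := j) (SS E j t w)
    rw [hi, hh_SS ht]
    exact mul_le_mul_of_nonneg_left (hh_le_NN w i) ht'.le
  · obtain ⟨i, hi⟩ := NN_exists (E := E) (j := j) w
    rw [hi, ← hh_SS ht]
    exact hh_le_NN _ i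

theorem SS_SS {s t : ℝ} (w : Fin 5 → ℝ) : SS E j s (SS E j t w) = SS E j (s * t) w := by
  funext i
  unfold SS
  split_ifs with h1 h2
  · ring
  · rw [div_div, mul_comm]
  · ring

theorem SS_one (w : Fin 5 → ℝ) : SS E j 1 w = w := by
  funext i
  unfold SS
  split_ifs <;> simp

/-- the map from `A` to `F` -/
noncomputable def Ph (E : Fin 5 → Bool) (j : Fin 5) (w : Fin 5 → ℝ) : Fin 5 → ℝ :=
  SS E j (MM E j w)⁻¹ w

/-- the map from `F` to `A` -/
noncomputable def Ps (E : Fin 5 → Bool) (j : Fin 5) (w : Fin 5 → ℝ) : Fin 5 → ℝ :=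
  SS E j (NN E j w) w

theorem Ph_mem {w : Fin 5 → ℝ} (hw : w ∈ HH j) : Ph E j w ∈ HH j := by
  obtain ⟨h1, h2⟩ := MM_mem (E := E) hw
  have h0 : 0 < MM E j w := by linarith
  have hinv : 1 ≤ (MM E j w)⁻¹ := (one_le_inv₀ h0).mpr h2
  intro i
  have hi := hw i
  have hg := gg_le_MM (E := E) (j := j) w i
  unfold Ph SS
  unfold II at hi ⊢
  unfold gg at hg
  split_ifs at hi hg ⊢ with h3 h4
  · constructor
    · nlinarith [hi.1]
    · rw [← div_eq_mul_inv, div_le_iff₀ h0]; linarith
  · rw [div_inv_eq_mul, mem_Icc, ← abs_le, abs_mul, abs_of_pos h0]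
    have := abs_le.mpr hi
    nlinarith [abs_nonneg (w i)]
  · rw [mem_Icc, ← abs_le, abs_mul, abs_of_pos (inv_pos.mpr h0), ← div_eq_mul_inv,
      div_le_one h0]
    exact hg

theorem Ps_mem {w : Fin 5 → ℝ} (hw : w ∈ HH j) : Ps E j w ∈ HH j := by
  obtain ⟨h1, h2⟩ := NN_mem (E := E) hw
  have h0 : 0 < NN E j w := by linarith
  intro i
  have hi := hw i
  have hg := hh_le_NN (E := E) (j := j) w i
  unfold Ps SS
  unfold II at hi ⊢
  unfold hh at hg
  split_ifs at hi hg ⊢ with h3 h4
  · have hp : 0 < w i := by linarith [hi.1]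
    constructor
    · rw [inv_le_iff_one_le_mul₀ hp] at hg
      linarith
    · nlinarith [hi.2]
  · rw [mem_Icc, ← abs_le, abs_div, abs_of_pos h0, div_le_one h0]
    exact hg
  · rw [mem_Icc, ← abs_le, abs_mul, abs_of_pos h0]
    have := abs_le.mpr hi
    nlinarith [abs_nonneg (w i)]

theorem MM_Ph {w : Fin 5 → ℝ} (hw : w ∈ HH j) : MM E j (Ph E j w) = 1 := by
  have h0 : 0 < MM E j w := by linarith [(MM_mem (E := E) hw).1]
  unfold Ph
  rw [MM_SS (inv_pos.mpr h0), inv_mul_cancel₀ h0.ne']

theorem NN_Ps {w : Fin 5 → ℝ} (hw : w ∈ HH j) : NN E j (Ps E j w) = 1 := by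
  have h0 : 0 < NN E j w := by linarith [(NN_mem (E := E) hw).1]
  unfold Ps
  rw [NN_SS h0, inv_mul_cancel₀ h0.ne']

theorem NN_Ph {w : Fin 5 → ℝ} (hw : w ∈ HH j) (hA : NN E j w = 1) :
    NN E j (Ph E j w) = MM E j w := by
  have h0 : 0 < MM E j w := by linarith [(MM_mem (E := E) hw).1]
  unfold Ph
  rw [NN_SS (inv_pos.mpr h0), hA, inv_inv, mul_one]

theorem Ps_Ph {w : Fin 5 → ℝ} (hw : w ∈ HH j) (hA : NN E j w = 1) : Ps E j (Ph E j w) = w := by
  have h0 : 0 < MM E j w := by linarith [(MM_mem (E := E) hw).1]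
  have h1 := NN_Ph hw hA
  unfold Ps
  rw [h1]
  unfold Ph
  rw [SS_SS, mul_inv_cancel₀ h0.ne', SS_one]

theorem Ph_Ps {w : Fin 5 → ℝ} (hw : w ∈ HH j) (hF : MM E j w = 1) : Ph E j (Ps E j w) = w := by
  have h0 : 0 < NN E j w := by linarith [(NN_mem (E := E) hw).1]
  have h1 : MM E j (Ps E j w) = NN E j w := by
    unfold Ps
    rw [MM_SS h0, hF, mul_one]
  unfold Ph
  rw [h1]
  unfold Ps
  rw [SS_SS, inv_mul_cancel₀ h0.ne', SS_one]

theorem Ph_id {w : Fin 5 → ℝ} (hF : MM E j w = 1) : Ph E j w = w := by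
  unfold Ph
  rw [hF, inv_one, SS_one]

theorem continuous_gg (i : Fin 5) : Continuous (gg E j i) := by
  unfold gg
  split_ifs <;> fun_prop

theorem continuous_MM : Continuous (MM E j) := by
  unfold MM
  exact Continuous.finset_sup'_apply _ fun i _ => (continuous_gg i).comp (continuous_apply i)

theorem isCompact_HH : IsCompact (HH j) := by
  have : HH j = Set.pi univ (II j) := by
    ext w
    simp [HH]
  rw [this]
  apply isCompact_univ_pi
  intro i
  unfold II
  split_ifs <;> exact isCompact_Icc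

theorem isCompact_A : IsCompact {w | w ∈ HH j ∧ NN E j w = 1} := by
  apply isCompact_HH.of_isClosed_subset _ (fun w hw => hw.1)
  have : {w | w ∈ HH j ∧ NN E j w = 1} = HH j ∩ ⋃ i, {w : Fin 5 → ℝ | hh E j i (w i) = 1} := by
    ext w
    constructor
    · rintro ⟨h1, h2⟩
      exact ⟨h1, mem_iUnion.mpr ((NN_eq_one h1).mp h2)⟩
    · rintro ⟨h1, h2⟩
      obtain ⟨i, hi⟩ := mem_iUnion.mp h2
      exact ⟨h1, (NN_eq_one h1).mpr ⟨i, hi⟩⟩
  rw [this]
  apply isCompact_HH.isClosed.inter
  apply isClosed_iUnion_of_finite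
  intro i
  by_cases hi : i = j
  · have : {w : Fin 5 → ℝ | hh E j i (w i) = 1} = {w | w i = 1} := by
      ext w
      simp [hh, hi]
    rw [this]
    exact isClosed_eq (continuous_apply i) continuous_const
  · refine isClosed_eq ?_ continuous_const
    unfold hh
    simp only [if_neg hi]
    split_ifs <;> fun_prop

theorem continuousOn_Ph : ContinuousOn (Ph E j) (HH j) := by
  have h0 : ∀ w ∈ HH j, MM E j w ≠ 0 := fun w hw => by
    have := (MM_mem (E := E) hw).1
    intro h
    linarith
  rw [continuousOn_pi]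
  intro i
  unfold Ph SS
  have hM : ContinuousOn (MM E j) (HH j) := continuous_MM.continuousOn
  have hi : ContinuousOn (fun w : Fin 5 → ℝ => w i) (HH j) := (continuous_apply i).continuousOn
  split_ifs
  · exact hi.mul (hM.inv₀ h0)
  · simp only [div_inv_eq_mul]
    exact hi.mul hM
  · exact hi.mul (hM.inv₀ h0)

end box

/-! ### cells of the chart -/

section chart

variable {n : ℕ}

/-- facts about a coordinate `x` of the chart for the coordinates `a` of `c` and `a'` of `d` -/
def Good (a a' : C1 n) (x : Circ n) (α φ : Prop) : Prop :=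
  Face1 (lo 1 x) a ∧ Face1 a' (hi 1 x) ∧ (α → lo 1 x ≠ a ∧ lo 1 x ≠ a') ∧
    (¬ α → lo 1 x = a ∨ lo 1 x = a') ∧ (φ → hi 1 x ≠ a ∧ hi 1 x ≠ a') ∧
    (¬ φ → hi 1 x = a ∨ hi 1 x = a')

theorem ne_add_one (hn : 3 ≤ n) (a : ZMod n) : a ≠ a + 1 := by
  intro h
  have h1 : (1 : ZMod n) = 0 := by
    have : a + 1 = a + 0 := by rw [← h, add_zero]
    exact add_left_cancel this
  have h2 : ((1 : ℕ) : ZMod n) = 0 := by exact_mod_cast h1
  rw [ZMod.natCast_eq_zero_iff] at h2
  have := Nat.le_of_dvd one_pos h2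
  omega

theorem good_E {m : ℤ} {t : ℝ} (ht : t ∈ Icc (-1 : ℝ) 1) :
    Good (((m : ℤ) : ZMod n), true) ((m : ZMod n), true)
      (((3 * m + (t + 3) / 2 : ℝ)) : Circ n) (|t| = 1) False := by
  obtain ⟨h1, h2⟩ := ht
  have hhi : hi 1 (((3 * m + (t + 3) / 2 : ℝ)) : Circ n) = ((m : ZMod n), true) := by
    rw [hi_coe, (hiZ_true_iff (k := m) one_pos (by norm_num)).mpr
      ⟨by linarith, by linarith⟩]
    rfl
  refine ⟨?_, ?_, ?_, ?_, fun h => h.elim, fun _ => Or.inl hhi⟩
  · rw [lo_coe]
    rcases h1.eq_or_lt with h3 | h3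
    · rw [(loZ_false_iff (k := m) zero_le_one (by norm_num)).mpr ⟨by linarith, by linarith⟩]
      exact Or.inr ⟨rfl, rfl, Or.inl rfl⟩
    · rcases h2.eq_or_lt with h4 | h4
      · rw [(loZ_false_iff (k := m + 1) zero_le_one (by norm_num)).mpr
          ⟨by push_cast; linarith, by push_cast; linarith⟩]
        exact Or.inr ⟨rfl, rfl, Or.inr (by simp [cst])⟩
      · rw [(loZ_true_iff (k := m) zero_le_one (by norm_num)).mpr ⟨by linarith, by linarith⟩]
        exact Face1.refl _
  · rw [hhi]; exact Face1.refl _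
  · intro h
    have : (lo 1 (((3 * m + (t + 3) / 2 : ℝ)) : Circ n)).2 = false := by
      rw [lo_coe]
      rcases (abs_eq zero_le_one).mp h with h3 | h3
      · rw [(loZ_false_iff (k := m + 1) zero_le_one (by norm_num)).mpr
          ⟨by push_cast; linarith, by push_cast; linarith⟩]
        rfl
      · rw [(loZ_false_iff (k := m) zero_le_one (by norm_num)).mpr ⟨by linarith, by linarith⟩]
        rfl
    constructor <;> intro h4 <;> rw [h4] at this <;> simp at this
  · intro h
    left
    have h3 : -1 < t := lt_of_le_of_ne h1 fun h5 => h (by rw [← h5]; norm_num)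
    have h4 : t < 1 := lt_of_le_of_ne h2 fun h5 => h (by rw [h5]; norm_num)
    rw [lo_coe, (loZ_true_iff (k := m) zero_le_one (by norm_num)).mpr ⟨by linarith, by linarith⟩]
    rfl

theorem good_V {m : ℤ} {t : ℝ} (ht : t ∈ Icc (-1 : ℝ) 1) :
    Good (((m : ℤ) : ZMod n), false) ((m : ZMod n), false)
      (((3 * m + t : ℝ)) : Circ n) False (|t| = 1) := by
  obtain ⟨h1, h2⟩ := ht
  have hlo : lo 1 (((3 * m + t : ℝ)) : Circ n) = ((m : ZMod n), false) := by
    rw [lo_coe, (loZ_false_iff (k := m) zero_le_one (by norm_num)).mpr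
      ⟨by linarith, by linarith⟩]
    rfl
  refine ⟨?_, ?_, fun h => h.elim, fun _ => Or.inl hlo, ?_, ?_⟩
  · rw [hlo]; exact Face1.refl _
  · rw [hi_coe]
    rcases h1.eq_or_lt with h3 | h3
    · rw [(hiZ_true_iff (k := m - 1) one_pos (by norm_num)).mpr
        ⟨by push_cast; linarith, by push_cast; linarith⟩]
      exact Or.inr ⟨rfl, rfl, Or.inr (by simp [cst])⟩
    · rcases h2.eq_or_lt with h4 | h4
      · rw [(hiZ_true_iff (k := m) one_pos (by norm_num)).mpr ⟨by linarith, by linarith⟩]
        exact Or.inr ⟨rfl, rfl, Or.inl rfl⟩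
      · rw [(hiZ_false_iff (k := m) one_pos (by norm_num)).mpr ⟨by linarith, by linarith⟩]
        exact Face1.refl _
  · intro h
    have : (hi 1 (((3 * m + t : ℝ)) : Circ n)).2 = true := by
      rw [hi_coe]
      rcases (abs_eq zero_le_one).mp h with h3 | h3
      · rw [(hiZ_true_iff (k := m) one_pos (by norm_num)).mpr ⟨by linarith, by linarith⟩]
        rfl
      · rw [(hiZ_true_iff (k := m - 1) one_pos (by norm_num)).mpr
          ⟨by push_cast; linarith, by push_cast; linarith⟩]
        rfl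
    constructor <;> intro h4 <;> rw [h4] at this <;> simp at this
  · intro h
    left
    have h3 : -1 < t := lt_of_le_of_ne h1 fun h5 => h (by rw [← h5]; norm_num)
    have h4 : t < 1 := lt_of_le_of_ne h2 fun h5 => h (by rw [h5]; norm_num)
    rw [hi_coe, (hiZ_false_iff (k := m) one_pos (by norm_num)).mpr ⟨by linarith, by linarith⟩]
    rfl

theorem good_Jp (hn : 3 ≤ n) {m : ℤ} {t : ℝ} (ht : t ∈ Icc (1 : ℝ) 2) :
    Good (((m : ℤ) : ZMod n), true) ((m : ZMod n) + 1, false)
      (((3 * m + (3 * t - 2) : ℝ)) : Circ n) (t⁻¹ = 1) (t / 2 = 1) := by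
  obtain ⟨h1, h2⟩ := ht
  have hne := ne_add_one hn (m : ZMod n)
  have hne' := ne_add_one hn ((m : ZMod n) + 1)
  refine ⟨?_, ?_, ?_, ?_, ?_, ?_⟩
  · rw [lo_coe]
    rcases h1.eq_or_lt with h3 | h3
    · rw [(loZ_false_iff (k := m) zero_le_one (by norm_num)).mpr ⟨by linarith, by linarith⟩]
      exact Or.inr ⟨rfl, rfl, Or.inl rfl⟩
    · rcases lt_or_ge t (4 / 3) with h4 | h4
      · rw [(loZ_true_iff (k := m) zero_le_one (by norm_num)).mpr ⟨by linarith, by linarith⟩]
        exact Face1.refl _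
      · rw [(loZ_false_iff (k := m + 1) zero_le_one (by norm_num)).mpr
          ⟨by push_cast; linarith, by push_cast; linarith⟩]
        exact Or.inr ⟨rfl, rfl, Or.inr (by simp [cst])⟩
  · rw [hi_coe]
    rcases h2.eq_or_lt with h3 | h3
    · rw [(hiZ_true_iff (k := m + 1) one_pos (by norm_num)).mpr
        ⟨by push_cast; linarith, by push_cast; linarith⟩]
      exact Or.inr ⟨rfl, rfl, Or.inl (by simp [cst])⟩
    · rcases le_or_gt t (4 / 3) with h4 | h4
      · rw [(hiZ_true_iff (k := m) one_pos (by norm_num)).mpr ⟨by linarith, by linarith⟩]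
        exact Or.inr ⟨rfl, rfl, Or.inr (by simp [cst])⟩
      · rw [(hiZ_false_iff (k := m + 1) one_pos (by norm_num)).mpr
          ⟨by push_cast; linarith, by push_cast; linarith⟩]
        left; simp [cst]
  · intro h
    have h3 : t = 1 := by rw [← inv_inv t, h, inv_one]
    rw [lo_coe, (loZ_false_iff (k := m) zero_le_one (by norm_num)).mpr
      ⟨by linarith, by linarith⟩]
    constructor
    · intro h4
      have := congrArg Prod.snd h4
      simp [cst] at this
    · intro h4
      exact hne (congrArg Prod.fst h4)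
  · intro h
    have h3 : 1 < t := lt_of_le_of_ne h1 fun h5 => h (by rw [← h5]; norm_num)
    rcases lt_or_ge t (4 / 3) with h4 | h4
    · left
      rw [lo_coe, (loZ_true_iff (k := m) zero_le_one (by norm_num)).mpr
        ⟨by linarith, by linarith⟩]
      rfl
    · right
      rw [lo_coe, (loZ_false_iff (k := m + 1) zero_le_one (by norm_num)).mpr
        ⟨by push_cast; linarith, by push_cast; linarith⟩]
      simp [cst]
  · intro h
    have h3 : t = 2 := by linarith
    rw [hi_coe, (hiZ_true_iff (k := m + 1) one_pos (by norm_num)).mpr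
      ⟨by push_cast; linarith, by push_cast; linarith⟩]
    constructor
    · intro h4
      have := congrArg Prod.fst h4
      simp only [cst, Int.cast_add, Int.cast_one] at this
      exact hne this.symm
    · intro h4
      have := congrArg Prod.snd h4
      simp [cst] at this
  · intro h
    have h3 : t < 2 := lt_of_le_of_ne h2 fun h5 => h (by rw [h5]; norm_num)
    rcases le_or_gt t (4 / 3) with h4 | h4
    · left
      rw [hi_coe, (hiZ_true_iff (k := m) one_pos (by norm_num)).mpr
        ⟨by linarith, by linarith⟩]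
      rfl
    · right
      rw [hi_coe, (hiZ_false_iff (k := m + 1) one_pos (by norm_num)).mpr
        ⟨by push_cast; linarith, by push_cast; linarith⟩]
      simp [cst]

theorem good_Jm (hn : 3 ≤ n) {m : ℤ} {t : ℝ} (ht : t ∈ Icc (1 : ℝ) 2) :
    Good (((m : ℤ) : ZMod n), true) ((m : ZMod n), false)
      (((3 * m + (5 - 3 * t) : ℝ)) : Circ n) (t⁻¹ = 1) (t / 2 = 1) := by
  obtain ⟨h1, h2⟩ := ht
  have hne := ne_add_one hn (m : ZMod n)
  have hne' := ne_add_one hn ((m : ZMod n) - 1)
  rw [sub_add_cancel] at hne'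
  refine ⟨?_, ?_, ?_, ?_, ?_, ?_⟩
  · rw [lo_coe]
    rcases h1.eq_or_lt with h3 | h3
    · rw [(loZ_false_iff (k := m + 1) zero_le_one (by norm_num)).mpr
        ⟨by push_cast; linarith, by push_cast; linarith⟩]
      exact Or.inr ⟨rfl, rfl, Or.inr (by simp [cst])⟩
    · rcases lt_or_ge t (4 / 3) with h4 | h4
      · rw [(loZ_true_iff (k := m) zero_le_one (by norm_num)).mpr ⟨by linarith, by linarith⟩]
        exact Face1.refl _
      · rw [(loZ_false_iff (k := m) zero_le_one (by norm_num)).mpr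
          ⟨by linarith, by linarith⟩]
        exact Or.inr ⟨rfl, rfl, Or.inl rfl⟩
  · rw [hi_coe]
    rcases h2.eq_or_lt with h3 | h3
    · rw [(hiZ_true_iff (k := m - 1) one_pos (by norm_num)).mpr
        ⟨by push_cast; linarith, by push_cast; linarith⟩]
      exact Or.inr ⟨rfl, rfl, Or.inr (by simp [cst])⟩
    · rcases le_or_gt t (4 / 3) with h4 | h4
      · rw [(hiZ_true_iff (k := m) one_pos (by norm_num)).mpr ⟨by linarith, by linarith⟩]
        exact Or.inr ⟨rfl, rfl, Or.inl rfl⟩
      · rw [(hiZ_false_iff (k := m) one_pos (by norm_num)).mpr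
          ⟨by linarith, by linarith⟩]
        left; rfl
  · intro h
    have h3 : t = 1 := by rw [← inv_inv t, h, inv_one]
    rw [lo_coe, (loZ_false_iff (k := m + 1) zero_le_one (by norm_num)).mpr
      ⟨by push_cast; linarith, by push_cast; linarith⟩]
    constructor
    · intro h4
      have := congrArg Prod.snd h4
      simp [cst] at this
    · intro h4
      have := congrArg Prod.fst h4
      simp only [cst, Int.cast_add, Int.cast_one] at this
      exact hne this.symm
  · intro h
    have h3 : 1 < t := lt_of_le_of_ne h1 fun h5 => h (by rw [← h5]; norm_num)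
    rcases lt_or_ge t (4 / 3) with h4 | h4
    · left
      rw [lo_coe, (loZ_true_iff (k := m) zero_le_one (by norm_num)).mpr
        ⟨by linarith, by linarith⟩]
      rfl
    · right
      rw [lo_coe, (loZ_false_iff (k := m) zero_le_one (by norm_num)).mpr
        ⟨by linarith, by linarith⟩]
      rfl
  · intro h
    have h3 : t = 2 := by linarith
    rw [hi_coe, (hiZ_true_iff (k := m - 1) one_pos (by norm_num)).mpr
      ⟨by push_cast; linarith, by push_cast; linarith⟩]
    constructor
    · intro h4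
      have := congrArg Prod.fst h4
      simp only [cst, Int.cast_sub, Int.cast_one] at this
      exact hne' this
    · intro h4
      have := congrArg Prod.snd h4
      simp [cst] at this
  · intro h
    have h3 : t < 2 := lt_of_le_of_ne h2 fun h5 => h (by rw [h5]; norm_num)
    rcases le_or_gt t (4 / 3) with h4 | h4
    · left
      rw [hi_coe, (hiZ_true_iff (k := m) one_pos (by norm_num)).mpr
        ⟨by linarith, by linarith⟩]
      rfl
    · right
      rw [hi_coe, (hiZ_false_iff (k := m) one_pos (by norm_num)).mpr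
        ⟨by linarith, by linarith⟩]
      rfl

/-- a real representative with prescribed cell -/
theorem exists_lo_rep {x : Circ n} {m : ℤ} {b : Bool} (h : lo 1 x = ((m : ZMod n), b)) :
    ∃ y : ℝ, (y : Circ n) = x ∧ loZ 1 y = (m, b) := by
  induction x using QuotientAddGroup.induction_on with
  | H x =>
    change cst n (loZ 1 x) = _ at h
    rcases hx : loZ 1 x with ⟨k, b'⟩
    rw [hx] at h
    simp only [cst, Prod.mk.injEq] at h
    obtain ⟨h1, rfl⟩ := h
    rw [ZMod.intCast_eq_intCast_iff_dvd_sub] at h1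
    obtain ⟨l, hl⟩ := h1
    refine ⟨x + 3 * ((m - k : ℤ) : ℝ), ?_, ?_⟩
    · rw [hl]
      rw [AddCircle.coe_add]
      have : ((3 * (((n : ℤ) * l : ℤ) : ℝ) : ℝ) : Circ n) = 0 := by
        rw [AddCircle.coe_eq_zero_iff]
        exact ⟨l, by push_cast; simp; ring⟩
      rw [this, add_zero]
    · rw [loZ_add, hx]
      simp

theorem exists_hi_rep {x : Circ n} {m : ℤ} {b : Bool} (h : hi 1 x = ((m : ZMod n), b)) :
    ∃ y : ℝ, (y : Circ n) = x ∧ hiZ 1 y = (m, b) := by
  induction x using QuotientAddGroup.induction_on with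
  | H x =>
    change cst n (hiZ 1 x) = _ at h
    rcases hx : hiZ 1 x with ⟨k, b'⟩
    rw [hx] at h
    simp only [cst, Prod.mk.injEq] at h
    obtain ⟨h1, rfl⟩ := h
    rw [ZMod.intCast_eq_intCast_iff_dvd_sub] at h1
    obtain ⟨l, hl⟩ := h1
    refine ⟨x + 3 * ((m - k : ℤ) : ℝ), ?_, ?_⟩
    · rw [hl]
      rw [AddCircle.coe_add]
      have : ((3 * (((n : ℤ) * l : ℤ) : ℝ) : ℝ) : Circ n) = 0 := by
        rw [AddCircle.coe_eq_zero_iff]
        exact ⟨l, by push_cast; simp; ring⟩
      rw [this, add_zero]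
    · rw [hiZ_add, hx]
      simp

/-- real representatives are unique in an interval of length three -/
theorem coe_inj (hn : 3 ≤ n) {x y : ℝ} (h : (x : Circ n) = (y : Circ n)) (h1 : |x - y| ≤ 3) :
    x = y := by
  rw [← sub_eq_zero, ← AddCircle.coe_sub, AddCircle.coe_eq_zero_iff] at h
  obtain ⟨l, hl⟩ := h
  have hn' : (3 : ℝ) ≤ n := by exact_mod_cast hn
  have hl0 : l = 0 := by
    by_contra hne
    have h2 : (1 : ℝ) ≤ |(l : ℝ)| := by
      have : 1 ≤ |l| := Int.one_le_abs hne
      exact_mod_cast this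
    rw [← hl, zsmul_eq_mul, abs_mul, abs_of_pos (show (0 : ℝ) < 3 * n by positivity)] at h1
    nlinarith
  rw [hl0, zero_smul] at hl
  linarith

theorem Good.congr {a a' : C1 n} {x : Circ n} {α α' φ φ' : Prop} (h : Good a a' x α φ)
    (hα : α' ↔ α) (hφ : φ' ↔ φ) : Good a a' x α' φ' := by
  have h1 : α' = α := propext hα
  have h2 : φ' = φ := propext hφ
  rw [h1, h2]; exact h

/-- the coordinates of the chart -/
noncomputable def bt (sg : Bool) (E : Fin 5 → Bool) (j i : Fin 5) (t : ℝ) : ℝ :=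
  if i = j then (if sg then 3 * t - 2 else 5 - 3 * t) else if E i then (t + 3) / 2 else t

/-- the real coordinates of the chart -/
noncomputable def cr (sg : Bool) (E : Fin 5 → Bool) (j : Fin 5) (m : Fin 5 → ℤ) (w : Fin 5 → ℝ)
    (i : Fin 5) : ℝ := 3 * m i + bt sg E j i (w i)

/-- the chart -/
noncomputable def ch (n : ℕ) (sg : Bool) (E : Fin 5 → Bool) (j : Fin 5) (m : Fin 5 → ℤ)
    (w : Fin 5 → ℝ) : Tor n := pt n (cr sg E j m w)

theorem continuous_ch (sg : Bool) (E : Fin 5 → Bool) (j : Fin 5) (m : Fin 5 → ℤ) :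
    Continuous (ch n sg E j m) := by
  refine (continuous_pt n).comp (continuous_pi fun i => ?_)
  unfold cr bt
  split_ifs <;> fun_prop

theorem ch_inj (hn : 3 ≤ n) {sg : Bool} {E : Fin 5 → Bool} {j : Fin 5} {m : Fin 5 → ℤ}
    {w w' : Fin 5 → ℝ} (hw : w ∈ HH j) (hw' : w' ∈ HH j)
    (h : ch n sg E j m w = ch n sg E j m w') : w = w' := by
  funext i
  have h1 : ((cr sg E j m w i : ℝ) : Circ n) = ((cr sg E j m w' i : ℝ) : Circ n) := congrFun h i
  have h2 := hw i
  have h3 := hw' i
  have h4 : |cr sg E j m w i - cr sg E j m w' i| ≤ 3 := by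
    unfold cr bt
    unfold II at h2 h3
    rw [abs_le]
    split_ifs at h2 h3 ⊢ <;> constructor <;> linarith [h2.1, h2.2, h3.1, h3.2]
  have h5 := coe_inj hn h1 h4
  unfold cr bt at h5
  split_ifs at h5 <;> linarith

end chart

end B01

open B01 in
theorem collapse_step {n : ℕ} [NeZero n] (hn : 3 ≤ n) {K : Set (Cell n)} (hK : IsCx K)
    {c d : Cell n} (hc : c ∈ K) {j : Fin 5} (hcj : (c j).2 = true) (hdj : (d j).2 = false)
    (hdj' : (d j).1 = (c j).1 ∨ (d j).1 = (c j).1 + 1) (hother : ∀ i, i ≠ j → d i = c i)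
    (hfree : ∀ e ∈ K, Face d e → e = c ∨ e = d) : HEq' K (K \ {c, d}) := by
  classical
  choose m hm using fun i => ZMod.intCast_surjective (c i).1
  set E : Fin 5 → Bool := fun i => (c i).2 with hE
  obtain ⟨sg, hsg⟩ : ∃ sg : Bool, (d j).1 = if sg then (c j).1 + 1 else (c j).1 := by
    rcases hdj' with h | h
    · exact ⟨false, by simpa using h⟩
    · exact ⟨true, by simpa using h⟩
  have hdc : Face d c := by
    intro i
    by_cases hi : i = j
    · subst hi
      exact Or.inr ⟨hcj, hdj, hdj'⟩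
    · rw [hother i hi]; exact Face1.refl _
  have hd : d ∈ K := hK c hc d hdc
  set K' : Set (Cell n) := K \ {c, d} with hK'
  have hK'cx : IsCx K' := by
    rintro a ⟨ha, ha'⟩ b hb
    refine ⟨hK a ha b hb, fun hb' => ha' ?_⟩
    have hda : Face d a := by
      rcases hb' with rfl | hb'
      · exact hdc.trans hb
      · rw [mem_singleton_iff] at hb'
        rw [← hb']; exact hb
    rcases hfree a ha hda with h | h
    · left; exact h
    · right; exact h
  set CH : (Fin 5 → ℝ) → Tor n := ch n sg E j m with hCH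
  -- pointwise facts
  have good : ∀ w ∈ HH j, ∀ i, Good (c i) (d i) (CH w i) (hh E j i (w i) = 1)
      (gg E j i (w i) = 1) := by
    intro w hw i
    have hwi := hw i
    by_cases hi : i = j
    · subst hi
      rw [II_self] at hwi
      have hc' : c i = ((m i : ZMod n), true) := Prod.ext (hm i).symm hcj
      have hA : (hh E i i (w i) = 1) ↔ (w i)⁻¹ = 1 := by simp [hh]
      have hF : (gg E i i (w i) = 1) ↔ (w i) / 2 = 1 := by simp [gg]
      cases sg
      · have hd' : d i = ((m i : ZMod n), false) :=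
          Prod.ext (by rw [hsg, hm]; simp) hdj
        rw [hc', hd']
        have := (good_Jm hn (m := m i) hwi).congr hA hF
        have e : CH w i = ((3 * (m i : ℝ) + (5 - 3 * w i) : ℝ) : Circ n) := by
          simp [hCH, ch, pt, cr, bt]
        rw [e]; exact this
      · have hd' : d i = ((m i : ZMod n) + 1, false) :=
          Prod.ext (by rw [hsg, hm]; simp) hdj
        rw [hc', hd']
        have := (good_Jp hn (m := m i) hwi).congr hA hF
        have e : CH w i = ((3 * (m i : ℝ) + (3 * w i - 2) : ℝ) : Circ n) := by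
          simp [hCH, ch, pt, cr, bt]
        rw [e]; exact this
    · rw [II_ne hi] at hwi
      rw [hother i hi]
      rcases hEi : (c i).2 with _ | _
      · have hc' : c i = ((m i : ZMod n), false) := Prod.ext (hm i).symm hEi
        have hA : (hh E j i (w i) = 1) ↔ False := by simp [hh, hi, hE, hEi]
        have hF : (gg E j i (w i) = 1) ↔ |w i| = 1 := by simp [gg, hi, hE, hEi]
        rw [hc']
        have := (good_V (n := n) (m := m i) hwi).congr hA hF
        have e : CH w i = ((3 * (m i : ℝ) + w i : ℝ) : Circ n) := by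
          simp [hCH, ch, pt, cr, bt, hi, hE, hEi]
        rw [e]; exact this
      · have hc' : c i = ((m i : ZMod n), true) := Prod.ext (hm i).symm hEi
        have hA : (hh E j i (w i) = 1) ↔ |w i| = 1 := by simp [hh, hi, hE, hEi]
        have hF : (gg E j i (w i) = 1) ↔ False := by simp [gg, hi, hE, hEi]
        rw [hc']
        have := (good_E (n := n) (m := m i) hwi).congr hA hF
        have e : CH w i = ((3 * (m i : ℝ) + (w i + 3) / 2 : ℝ) : Circ n) := by
          simp [hCH, ch, pt, cr, bt, hi, hE, hEi]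
        rw [e]; exact this
  have cell_cd : ∀ a : Cell n, (∀ i, a i = c i ∨ a i = d i) → a = c ∨ a = d := by
    intro a ha
    rcases ha j with h | h
    · left
      funext i
      by_cases hi : i = j
      · rw [hi]; exact h
      · rcases ha i with h' | h'
        · exact h'
        · rw [h', hother i hi]
    · right
      funext i
      by_cases hi : i = j
      · rw [hi]; exact h
      · rcases ha i with h' | h'
        · rw [h', hother i hi]
        · exact h'
  have LoK : ∀ w ∈ HH j, Lo 1 (CH w) ∈ K := fun w hw =>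
    hK c hc _ fun i => (good w hw i).1
  have HiF : ∀ w ∈ HH j, Face d (Hi 1 (CH w)) := fun w hw i => (good w hw i).2.1
  have LoA : ∀ w ∈ HH j, NN E j w = 1 → ¬ (Lo 1 (CH w) = c ∨ Lo 1 (CH w) = d) := by
    intro w hw h
    obtain ⟨i, hi⟩ := (NN_eq_one hw).mp h
    obtain ⟨h1, h2⟩ := (good w hw i).2.2.1 hi
    rintro (h3 | h3)
    · exact h1 (congrFun h3 i)
    · exact h2 (congrFun h3 i)
  have LoA' : ∀ w ∈ HH j, NN E j w ≠ 1 → (Lo 1 (CH w) = c ∨ Lo 1 (CH w) = d) := by
    intro w hw h
    apply cell_cd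
    intro i
    exact (good w hw i).2.2.2.1 fun hi => h ((NN_eq_one hw).mpr ⟨i, hi⟩)
  have HiA : ∀ w ∈ HH j, MM E j w = 1 → ¬ (Hi 1 (CH w) = c ∨ Hi 1 (CH w) = d) := by
    intro w hw h
    obtain ⟨i, hi⟩ := (MM_eq_one hw).mp h
    obtain ⟨h1, h2⟩ := (good w hw i).2.2.2.2.1 hi
    rintro (h3 | h3)
    · exact h1 (congrFun h3 i)
    · exact h2 (congrFun h3 i)
  have HiA' : ∀ w ∈ HH j, MM E j w ≠ 1 → (Hi 1 (CH w) = c ∨ Hi 1 (CH w) = d) := by
    intro w hw h
    apply cell_cd
    intro i
    exact (good w hw i).2.2.2.2.2 fun hi => h ((MM_eq_one hw).mpr ⟨i, hi⟩)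
  have cdK : ∀ a : Cell n, (a = c ∨ a = d) → a ∈ K := by
    rintro a (rfl | rfl)
    · exact hc
    · exact hd
  have XF : ∀ w ∈ HH j, (CH w ∈ X K ↔ MM E j w = 1) := by
    intro w hw
    constructor
    · intro h
      by_contra h1
      exact h.2 (cdK _ (HiA' w hw h1))
    · intro h
      exact ⟨LoK w hw, fun h1 => HiA w hw h (hfree _ h1 (HiF w hw))⟩
  have XA : ∀ w ∈ HH j, (CH w ∈ X K' ↔ NN E j w = 1) := by
    intro w hw
    constructor
    · intro h
      by_contra h1
      exact h.1.2 (LoA' w hw h1)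
    · intro h
      refine ⟨⟨LoK w hw, fun h1 => LoA w hw h h1⟩, fun h1 => h1.2 ?_⟩
      exact hfree _ h1.1 (HiF w hw)
  -- the chart covers
  have cover1 : ∀ (x : Circ n) (i : Fin 5), (lo 1 x = c i ∨ lo 1 x = d i ∨ hi 1 x = c i ∨
      hi 1 x = d i) → ∃ t ∈ II j i, x = ((3 * m i + bt sg E j i t : ℝ) : Circ n) := by
    intro x i
    by_cases hi : i = j
    · subst hi
      have hc' : c i = ((m i : ZMod n), true) := Prod.ext (hm i).symm hcj
      rw [II_self]
      cases sg
      · have hd' : d i = ((m i : ZMod n), false) :=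
          Prod.ext (by rw [hsg, hm]; simp) hdj
        rw [hc', hd']
        have key : ∀ y : ℝ, 3 * (m i : ℝ) - 1 ≤ y → y ≤ 3 * (m i : ℝ) + 2 → ∃ t ∈ Icc (1 : ℝ) 2,
            (y : Circ n) = ((3 * m i + bt false E i i t : ℝ) : Circ n) := by
          intro y h1 h2
          refine ⟨(5 - (y - 3 * m i)) / 3, ⟨by linarith, by linarith⟩, ?_⟩
          congr 1
          simp only [bt, if_true]
          norm_num
          ring
        rintro (h | h | h | h)
        · obtain ⟨y, rfl, hy⟩ := exists_lo_rep h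
          rw [loZ_true_iff (by norm_num) (by norm_num)] at hy
          exact key y (by linarith) (by linarith)
        · obtain ⟨y, rfl, hy⟩ := exists_lo_rep h
          rw [loZ_false_iff (by norm_num) (by norm_num)] at hy
          exact key y (by linarith) (by linarith)
        · obtain ⟨y, rfl, hy⟩ := exists_hi_rep h
          rw [hiZ_true_iff (by norm_num) (by norm_num)] at hy
          exact key y (by linarith) (by linarith)
        · obtain ⟨y, rfl, hy⟩ := exists_hi_rep h
          rw [hiZ_false_iff (by norm_num) (by norm_num)] at hy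
          exact key y (by linarith) (by linarith)
      · have hd' : d i = (((m i + 1 : ℤ) : ZMod n), false) :=
          Prod.ext (by rw [hsg, ← hm]; simp) hdj
        rw [hc', hd']
        have key : ∀ y : ℝ, 3 * (m i : ℝ) + 1 ≤ y → y ≤ 3 * (m i : ℝ) + 4 → ∃ t ∈ Icc (1 : ℝ) 2,
            (y : Circ n) = ((3 * m i + bt true E i i t : ℝ) : Circ n) := by
          intro y h1 h2
          refine ⟨((y - 3 * m i) + 2) / 3, ⟨by linarith, by linarith⟩, ?_⟩
          congr 1
          simp only [bt, if_true]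
          ring
        rintro (h | h | h | h)
        · obtain ⟨y, rfl, hy⟩ := exists_lo_rep h
          rw [loZ_true_iff (by norm_num) (by norm_num)] at hy
          exact key y (by linarith) (by linarith)
        · obtain ⟨y, rfl, hy⟩ := exists_lo_rep h
          rw [loZ_false_iff (by norm_num) (by norm_num)] at hy
          push_cast at hy
          exact key y (by linarith) (by linarith)
        · obtain ⟨y, rfl, hy⟩ := exists_hi_rep h
          rw [hiZ_true_iff (by norm_num) (by norm_num)] at hy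
          exact key y (by linarith) (by linarith)
        · obtain ⟨y, rfl, hy⟩ := exists_hi_rep h
          rw [hiZ_false_iff (by norm_num) (by norm_num)] at hy
          push_cast at hy
          exact key y (by linarith) (by linarith)
    · rw [II_ne hi, hother i hi]
      rcases hEi : (c i).2 with _ | _
      · have hc' : c i = ((m i : ZMod n), false) := Prod.ext (hm i).symm hEi
        rw [hc']
        have key : ∀ y : ℝ, 3 * (m i : ℝ) - 1 ≤ y → y ≤ 3 * (m i : ℝ) + 1 →
            ∃ t ∈ Icc (-1 : ℝ) 1,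
            (y : Circ n) = ((3 * m i + bt sg E j i t : ℝ) : Circ n) := by
          intro y h1 h2
          refine ⟨y - 3 * m i, ⟨by linarith, by linarith⟩, ?_⟩
          congr 1
          simp [bt, hi, hE, hEi]
        rintro (h | h | h | h)
        · obtain ⟨y, rfl, hy⟩ := exists_lo_rep h
          rw [loZ_false_iff (by norm_num) (by norm_num)] at hy
          exact key y (by linarith) (by linarith)
        · obtain ⟨y, rfl, hy⟩ := exists_lo_rep h
          rw [loZ_false_iff (by norm_num) (by norm_num)] at hy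
          exact key y (by linarith) (by linarith)
        · obtain ⟨y, rfl, hy⟩ := exists_hi_rep h
          rw [hiZ_false_iff (by norm_num) (by norm_num)] at hy
          exact key y (by linarith) (by linarith)
        · obtain ⟨y, rfl, hy⟩ := exists_hi_rep h
          rw [hiZ_false_iff (by norm_num) (by norm_num)] at hy
          exact key y (by linarith) (by linarith)
      · have hc' : c i = ((m i : ZMod n), true) := Prod.ext (hm i).symm hEi
        rw [hc']
        have key : ∀ y : ℝ, 3 * (m i : ℝ) + 1 ≤ y → y ≤ 3 * (m i : ℝ) + 2 →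
            ∃ t ∈ Icc (-1 : ℝ) 1,
            (y : Circ n) = ((3 * m i + bt sg E j i t : ℝ) : Circ n) := by
          intro y h1 h2
          refine ⟨2 * (y - 3 * m i) - 3, ⟨by linarith, by linarith⟩, ?_⟩
          congr 1
          simp [bt, hi, hE, hEi]
        rintro (h | h | h | h)
        · obtain ⟨y, rfl, hy⟩ := exists_lo_rep h
          rw [loZ_true_iff (by norm_num) (by norm_num)] at hy
          exact key y (by linarith) (by linarith)
        · obtain ⟨y, rfl, hy⟩ := exists_lo_rep h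
          rw [loZ_true_iff (by norm_num) (by norm_num)] at hy
          exact key y (by linarith) (by linarith)
        · obtain ⟨y, rfl, hy⟩ := exists_hi_rep h
          rw [hiZ_true_iff (by norm_num) (by norm_num)] at hy
          exact key y (by linarith) (by linarith)
        · obtain ⟨y, rfl, hy⟩ := exists_hi_rep h
          rw [hiZ_true_iff (by norm_num) (by norm_num)] at hy
          exact key y (by linarith) (by linarith)
  have cover : ∀ q : Tor n, (Lo 1 q = c ∨ Lo 1 q = d ∨ Hi 1 q = c ∨ Hi 1 q = d) →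
      ∃ w ∈ HH j, q = CH w := by
    intro q hq
    have h1 : ∀ i, ∃ t ∈ II j i, q i = ((3 * m i + bt sg E j i t : ℝ) : Circ n) := by
      intro i
      apply cover1
      rcases hq with h | h | h | h
      · left; exact congrFun h i
      · right; left; exact congrFun h i
      · right; right; left; exact congrFun h i
      · right; right; right; exact congrFun h i
    choose w hw hw' using h1
    exact ⟨w, hw, funext hw'⟩
  -- the pieces
  have hXcl : ∀ L : Set (Cell n), IsCx L → IsClosed (X L) := by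
    intro L hL
    have h1 : IsClosed {q : Tor n | Lo 1 q ∈ L} := by
      rw [← isOpen_compl_iff, isOpen_iff_mem_nhds]
      intro q hq
      filter_upwards [B06.Lo_near zero_le_one (by norm_num) q] with q' h
      exact fun h' => hq (hL _ h' _ h)
    have h2 : IsClosed {q : Tor n | Hi 1 q ∉ L} := by
      rw [← isOpen_compl_iff, isOpen_iff_mem_nhds]
      intro q hq
      have hq' : Hi 1 q ∈ L := not_not.mp hq
      filter_upwards [B06.Hi_near one_pos (by norm_num) q] with q' h
      exact fun h' => h' (hL _ hq' _ h)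
    exact h1.inter h2
  have hRc : IsCompact (X K ∩ X K') := ((hXcl K hK).inter (hXcl K' hK'cx)).isCompact
  have : CompactSpace (X K ∩ X K' : Set (Tor n)) := isCompact_iff_compactSpace.mp hRc
  have : CompactSpace {w | w ∈ HH j ∧ NN E j w = 1} :=
    isCompact_iff_compactSpace.mp isCompact_A
  have hPhX : ∀ w : {w | w ∈ HH j ∧ NN E j w = 1}, CH (Ph E j w) ∈ X K := fun w =>
    (XF _ (Ph_mem w.2.1)).mpr (MM_Ph w.2.1)
  let p : (X K ∩ X K' : Set (Tor n)) ⊕ {w | w ∈ HH j ∧ NN E j w = 1} → X K :=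
    Sum.elim (fun r => ⟨r, r.2.1⟩) (fun w => ⟨CH (Ph E j w), hPhX w⟩)
  let p' : (X K ∩ X K' : Set (Tor n)) ⊕ {w | w ∈ HH j ∧ NN E j w = 1} → X K' :=
    Sum.elim (fun r => ⟨r, r.2.2⟩) (fun w => ⟨CH w, (XA w w.2.1).mpr w.2.2⟩)
  have hpc : Continuous p := by
    refine Continuous.sumElim ?_ ?_
    · exact continuous_subtype_val.subtype_mk _
    · refine Continuous.subtype_mk ((continuous_ch sg E j m).comp ?_) _
      exact continuousOn_Ph.comp_continuous continuous_subtype_val fun w => w.2.1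
  have hpc' : Continuous p' := by
    refine Continuous.sumElim ?_ ?_
    · exact continuous_subtype_val.subtype_mk _
    · exact Continuous.subtype_mk ((continuous_ch sg E j m).comp continuous_subtype_val) _
  have hps : Function.Surjective p := by
    rintro ⟨q, hq⟩
    by_cases hq' : q ∈ X K'
    · exact ⟨Sum.inl ⟨q, hq, hq'⟩, rfl⟩
    · have h1 : Lo 1 q = c ∨ Lo 1 q = d := by
        by_contra h
        exact hq' ⟨⟨hq.1, h⟩, fun h2 => hq.2 h2.1⟩
      obtain ⟨w, hw, hw'⟩ := cover q (by tauto)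
      have hM : MM E j w = 1 := (XF w hw).mp (hw' ▸ hq)
      refine ⟨Sum.inr ⟨Ps E j w, Ps_mem hw, NN_Ps hw⟩, ?_⟩
      apply Subtype.ext
      change CH (Ph E j (Ps E j w)) = q
      rw [Ph_Ps hw hM, hw']
  have hps' : Function.Surjective p' := by
    rintro ⟨q, hq⟩
    by_cases hq' : q ∈ X K
    · exact ⟨Sum.inl ⟨q, hq', hq⟩, rfl⟩
    · have h1 : Hi 1 q = c ∨ Hi 1 q = d := by
        by_contra h
        exact hq' ⟨hq.1.1, fun h2 => hq.2 ⟨h2, h⟩⟩
      obtain ⟨w, hw, hw'⟩ := cover q (by tauto)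
      have hN : NN E j w = 1 := (XA w hw).mp (hw' ▸ hq)
      exact ⟨Sum.inr ⟨w, hw, hN⟩, Subtype.ext hw'.symm⟩
  have hq : IsQuotientMap (⟨p, hpc⟩ : C(_, _)) := IsQuotientMap.of_surjective_continuous hps hpc
  have hq' : IsQuotientMap (⟨p', hpc'⟩ : C(_, _)) :=
    IsQuotientMap.of_surjective_continuous hps' hpc'
  have mixed : ∀ (r : Tor n) (hr : r ∈ X K) (hr' : r ∈ X K') (w : Fin 5 → ℝ) (hw : w ∈ HH j)
      (hN : NN E j w = 1), r = CH (Ph E j w) ↔ r = CH w := by
    intro r hr hr' w hw hN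
    constructor
    · intro h
      have h1 : NN E j (Ph E j w) = 1 := (XA _ (Ph_mem hw)).mp (h ▸ hr')
      have h2 : MM E j w = 1 := by rw [← NN_Ph hw hN]; exact h1
      rw [h, Ph_id h2]
    · intro h
      have h2 : MM E j w = 1 := (XF _ hw).mp (h ▸ hr)
      rw [h, Ph_id h2]
  have hker : Setoid.ker p = Setoid.ker p' := by
    ext a b
    rw [Setoid.ker_def, Setoid.ker_def]
    rcases a with ⟨r, hr, hr'⟩ | ⟨w, hw, hN⟩ <;> rcases b with ⟨s, hs, hs'⟩ | ⟨v, hv, hN'⟩
    · simp only [p, p', Sum.elim_inl, Subtype.mk.injEq]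
    · simp only [p, p', Sum.elim_inl, Sum.elim_inr, Subtype.mk.injEq]
      exact mixed r hr hr' v hv hN'
    · simp only [p, p', Sum.elim_inl, Sum.elim_inr, Subtype.mk.injEq]
      rw [eq_comm, mixed s hs hs' w hw hN, eq_comm]
    · simp only [p, p', Sum.elim_inr, Subtype.mk.injEq]
      constructor
      · intro h
        have h1 := ch_inj hn (Ph_mem hw) (Ph_mem hv) h
        rw [← Ps_Ph hw hN, h1, Ps_Ph hv hN']
      · intro h
        have h1 := ch_inj hn hw hv h
        rw [h1]
  have e1 : Quotient (Setoid.ker p) ≃ₜ X K := hq.homeomorph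
  have e2 : Quotient (Setoid.ker p') ≃ₜ X K' := hq'.homeomorph
  rw [hker] at e1
  exact ⟨e1.symm.trans e2⟩

end Pool.Agent.FM
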