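import Pool.Agent.FM.B01

/-!
# Block B02: collapsing along an acyclic matching
-/

namespace Pool.Agent.FM

theorem facet_face {n : ℕ} {a b : Cell n} (h : Facet a b) : Face a b := by
  obtain ⟨j, h1, h2, h3, h4⟩ := h
  intro i
  by_cases hi : i = j
  · subst hi
    exact Or.inr ⟨h1, h2, h3⟩
  · exact Or.inl (h4 i hi)

/-- a cell with only one coface of codimension one has no other cofaces -/
theorem coface_of_unique {n : ℕ} {L : Set (Cell n)} (hL : IsCx L) {a b : Cell n}
    (hu : ∀ e ∈ L, Facet a e → e = b) {e : Cell n} (he : e ∈ L) (hae : Face a e) :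
    e = b ∨ e = a := by
  classical
  by_cases hea : e = a
  · exact Or.inr hea
  left
  -- the partial cofaces
  have key : ∀ i, a i ≠ e i → Function.update a i (e i) = b := by
    intro i hi
    have h1 : a i = e i ∨ ((e i).2 = true ∧ (a i).2 = false ∧
      ((a i).1 = (e i).1 ∨ (a i).1 = (e i).1 + 1)) := hae i
    rcases h1 with h1 | ⟨h1, h2, h3⟩
    · exact absurd h1 hi
    refine hu _ (hL e he _ ?_) ?_
    · intro k
      by_cases hk : k = i
      · subst hk
        rw [Function.update_self]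
        exact Face1.refl _
      · rw [Function.update_of_ne hk]
        exact hae k
    · refine ⟨i, ?_, h2, ?_, ?_⟩
      · rw [Function.update_self]; exact h1
      · rw [Function.update_self]; exact h3
      · intro k hk
        rw [Function.update_of_ne hk]
  obtain ⟨i, hi⟩ : ∃ i, a i ≠ e i := by
    by_contra hcon
    push Not at hcon
    exact hea (funext fun i => (hcon i).symm)
  rw [← key i hi]
  funext k
  by_cases hk : k = i
  · subst hk
    rw [Function.update_self]
  · rw [Function.update_of_ne hk]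
    by_contra hne
    have h1 := key k (fun h => hne h.symm)
    have h2 := key i hi
    rw [← h2] at h1
    have h3 := congrFun h1 k
    rw [Function.update_self, Function.update_of_ne hk] at h3
    exact hne h3

theorem collapse_matching {n : ℕ} [NeZero n] (hn : 3 ≤ n) {K L : Set (Cell n)} (hK : IsCx K)
    (hL : IsCx L) (hKL : K ⊆ L) (μ : Cell n → Cell n) (r : Cell n → ℕ)
    (hμ : ∀ a ∈ L \ K, μ a ∈ L \ K ∧ μ (μ a) = a ∧ (Facet a (μ a) ∨ Facet (μ a) a))
    (hr : ∀ a ∈ L \ K, r (μ a) = r a)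
    (hacyc : ∀ a ∈ L \ K, Facet a (μ a) → ∀ e ∈ L, Facet a e → e ≠ μ a → r a < r e) :
    HEq' L K := by
  classical
  have : Finite (Cell n) := by
    have : Fintype (ZMod n) := ZMod.fintype n
    infer_instance
  suffices H : ∀ N : ℕ, ∀ L : Set (Cell n), (L \ K).ncard = N → IsCx L → K ⊆ L →
      (∀ a ∈ L \ K, μ a ∈ L \ K ∧ μ (μ a) = a ∧ (Facet a (μ a) ∨ Facet (μ a) a)) →
      (∀ a ∈ L \ K, r (μ a) = r a) →
      (∀ a ∈ L \ K, Facet a (μ a) → ∀ e ∈ L, Facet a e → e ≠ μ a → r a < r e) →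
      HEq' L K from H _ L rfl hL hKL hμ hr hacyc
  intro N
  induction N using Nat.strong_induction_on with
  | _ N ih =>
  intro L hN hL hKL hμ hr hacyc
  by_cases hne : (L \ K).Nonempty
  swap
  · have : L = K := by
      apply Set.Subset.antisymm _ hKL
      intro x hx
      by_contra hxK
      exact hne ⟨x, hx, hxK⟩
    rw [this]
    exact HEq'.refl K
  -- a cell of maximal rank
  obtain ⟨b, hb, hmax⟩ : ∃ b ∈ L \ K, ∀ x ∈ L \ K, r x ≤ r b := by
    obtain ⟨b, hb, h⟩ := Set.exists_max_image (L \ K) r (Set.toFinite _) hne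
    exact ⟨b, hb, h⟩
  obtain ⟨a, ha, hfa, hmaxa⟩ : ∃ a ∈ L \ K, Facet a (μ a) ∧ ∀ x ∈ L \ K, r x ≤ r a := by
    obtain ⟨h1, h2, h3⟩ := hμ b hb
    rcases h3 with h3 | h3
    · exact ⟨b, hb, h3, hmax⟩
    · refine ⟨μ b, h1, ?_, ?_⟩
      · rw [h2]; exact h3
      · rw [hr b hb]; exact hmax
  obtain ⟨hμa, hμμ, -⟩ := hμ a ha
  -- the only facet-cofaces of a
  have hu : ∀ e ∈ L, Facet a e → e = μ a := by
    intro e he hae
    by_contra hne'
    have h1 := hacyc a ha hfa e he hae hne'
    have h2 : e ∈ L \ K := ⟨he, fun heK => ha.2 (hK e heK a (facet_face hae))⟩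
    exact absurd (hmaxa e h2) (by omega)
  have hfree : ∀ e ∈ L, Face a e → e = μ a ∨ e = a := fun e he hae =>
    coface_of_unique hL hu he hae
  obtain ⟨j, h1, h2, h3, h4⟩ := id hfa
  have hstep := collapse_step hn hL hμa.1 h1 h2 h3 h4 hfree
  refine hstep.trans ?_
  have hne2 : a ≠ μ a := by
    intro h
    rw [← h] at h1
    rw [h2] at h1
    exact absurd h1 (by simp)
  refine ih _ ?_ (L \ {μ a, a}) rfl ?_ ?_ ?_ ?_ ?_
  · rw [← hN]
    apply Set.ncard_lt_ncard _ (Set.toFinite _)
    refine ⟨?_, ?_⟩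
    · intro x hx
      exact ⟨hx.1.1, hx.2⟩
    · intro hcon
      have := hcon ha
      exact this.1.2 (by simp)
  · intro x hx y hy
    refine ⟨hL x hx.1 y hy, ?_⟩
    intro hy2
    apply hx.2
    simp only [Set.mem_insert_iff, Set.mem_singleton_iff] at hy2 ⊢
    rcases hy2 with rfl | rfl
    · exact hfree x hx.1 ((facet_face hfa).trans hy)
    · exact hfree x hx.1 hy
  · intro x hx
    refine ⟨hKL hx, ?_⟩
    simp only [Set.mem_insert_iff, Set.mem_singleton_iff, not_or]
    exact ⟨fun h => hμa.2 (h ▸ hx), fun h => ha.2 (h ▸ hx)⟩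
  · intro x hx
    have hx' : x ∈ L \ K := ⟨hx.1.1, hx.2⟩
    obtain ⟨g1, g2, g3⟩ := hμ x hx'
    refine ⟨⟨⟨g1.1, ?_⟩, g1.2⟩, g2, g3⟩
    simp only [Set.mem_insert_iff, Set.mem_singleton_iff, not_or]
    have hx2 := hx.1.2
    simp only [Set.mem_insert_iff, Set.mem_singleton_iff, not_or] at hx2
    constructor
    · intro h
      apply hx2.2
      rw [← g2, h, hμμ]
    · intro h
      apply hx2.1
      rw [← g2, h]
  · intro x hx
    exact hr x ⟨hx.1.1, hx.2⟩
  · intro x hx hfx e he hxe hex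
    exact hacyc x ⟨hx.1.1, hx.2⟩ hfx e he.1 hxe hex

end Pool.Agent.FM
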