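import Pool.Agent.FM.Defs

/-!
# Block B03: `X K` is locally homeomorphic to `ℝ⁴`
-/

set_option autoImplicit false

open Set Topology Metric

namespace Pool.Agent.FM

/-- a monotone family of subsets gives a min-max function -/
private theorem exists_g (P : Finset (Fin 5) → Prop) (hmono : ∀ S T, S ⊆ T → P T → P S)
    (h0 : P ∅) (h1 : ¬ P Finset.univ) :
    ∃ g : (Fin 5 → ℝ) → ℝ,
      (∀ z a, g z ≤ a ↔ P (Finset.univ.filter fun i => a < z i)) ∧
      (∀ z a, g z < a ↔ P (Finset.univ.filter fun i => a ≤ z i)) := by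
  classical
  have hne : ∀ T : Finset (Fin 5), P T → (Tᶜ).Nonempty := by
    intro T hT
    rw [Finset.nonempty_iff_ne_empty]
    intro h
    rw [Finset.compl_eq_empty_iff] at h
    rw [h] at hT
    exact h1 hT
  set D : Finset (Finset (Fin 5)) := Finset.univ.filter P with hD
  have hDne : D.Nonempty := ⟨∅, by simp [hD, h0]⟩
  set m : (Fin 5 → ℝ) → Finset (Fin 5) → ℝ := fun z T =>
    if h : (Tᶜ).Nonempty then (Tᶜ).sup' h z else 0 with hm
  have hmem : ∀ T, T ∈ D ↔ P T := fun T => by simp [hD]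
  have hle : ∀ z T a, P T → (m z T ≤ a ↔ ∀ i, i ∉ T → z i ≤ a) := by
    intro z T a hT
    simp only [hm, dif_pos (hne T hT), Finset.sup'_le_iff, Finset.mem_compl]
  have hlt : ∀ z T a, P T → (m z T < a ↔ ∀ i, i ∉ T → z i < a) := by
    intro z T a hT
    simp only [hm, dif_pos (hne T hT), Finset.sup'_lt_iff, Finset.mem_compl]
  refine ⟨fun z => D.inf' hDne (m z), ?_, ?_⟩
  · intro z a
    rw [Finset.inf'_le_iff]
    constructor
    · rintro ⟨T, hT, h⟩
      rw [hmem] at hT
      rw [hle z T a hT] at h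
      refine hmono _ T ?_ hT
      intro i hi
      rw [Finset.mem_filter] at hi
      by_contra hiT
      exact absurd (h i hiT) (not_le.2 hi.2)
    · intro hP
      refine ⟨_, (hmem _).2 hP, ?_⟩
      rw [hle z _ a hP]
      intro i hi
      rw [Finset.mem_filter] at hi
      push Not at hi
      exact hi (Finset.mem_univ i)
  · intro z a
    rw [Finset.inf'_lt_iff]
    constructor
    · rintro ⟨T, hT, h⟩
      rw [hmem] at hT
      rw [hlt z T a hT] at h
      refine hmono _ T ?_ hT
      intro i hi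
      rw [Finset.mem_filter] at hi
      by_contra hiT
      exact absurd (h i hiT) (not_lt.2 hi.2)
    · intro hP
      refine ⟨_, (hmem _).2 hP, ?_⟩
      rw [hlt z _ a hP]
      intro i hi
      rw [Finset.mem_filter] at hi
      push Not at hi
      exact hi (Finset.mem_univ i)

/-- the one-dimensional local structure -/
private theorem local1 (y : ℝ) : ∃ ε σ : ℝ, 0 < ε ∧ (σ = 1 ∨ σ = -1) ∧ ∀ z : ℝ, |z| < ε →
    loZ 1 (y + σ * z) = (if 0 < z then hiZ 1 y else loZ 1 y) ∧
    hiZ 1 (y + σ * z) = (if 0 ≤ z then hiZ 1 y else loZ 1 y) := by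
  have hf1 : (⌊y / 3⌋ : ℝ) ≤ y / 3 := Int.floor_le _
  have hf2 : y / 3 < ⌊y / 3⌋ + 1 := Int.lt_floor_add_one _
  set k : ℤ := ⌊y / 3⌋ with hk
  have h0 : 3 * (k : ℝ) ≤ y := by linarith
  have h3 : y < 3 * (k : ℝ) + 3 := by linarith
  have e0 : (0 : ℝ) ≤ 1 := by norm_num
  have e0' : (0 : ℝ) < 1 := by norm_num
  have e1 : (1 : ℝ) < 3 / 2 := by norm_num
  rcases lt_trichotomy y (3 * k + 1) with h | h | h
  · refine ⟨3 * k + 1 - y, 1, by linarith, Or.inl rfl, fun z hz => ?_⟩
    rw [abs_lt] at hz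
    have a1 : loZ 1 y = (k, false) := (loZ_false_iff e0 e1).2 ⟨by linarith, by linarith⟩
    have a2 : hiZ 1 y = (k, false) := (hiZ_false_iff e0' e1.le).2 ⟨by linarith, by linarith⟩
    rw [a1, a2, ite_self, ite_self, loZ_false_iff e0 e1, hiZ_false_iff e0' e1.le]
    refine ⟨⟨?_, ?_⟩, ?_, ?_⟩ <;> linarith
  · refine ⟨1, 1, by norm_num, Or.inl rfl, fun z hz => ?_⟩
    rw [abs_lt] at hz
    have a1 : loZ 1 y = (k, false) := (loZ_false_iff e0 e1).2 ⟨by linarith, by linarith⟩
    have a2 : hiZ 1 y = (k, true) := (hiZ_true_iff e0' e1.le).2 ⟨by linarith, by linarith⟩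
    rw [a1, a2]
    constructor
    · split_ifs with hz0
      · rw [loZ_true_iff e0 e1]; constructor <;> linarith
      · rw [loZ_false_iff e0 e1]; constructor <;> linarith
    · split_ifs with hz0
      · rw [hiZ_true_iff e0' e1.le]; constructor <;> linarith
      · rw [hiZ_false_iff e0' e1.le]; constructor <;> linarith
  · rcases lt_trichotomy y (3 * k + 2) with h' | h' | h'
    · refine ⟨min (y - (3 * k + 1)) (3 * k + 2 - y), 1, lt_min (by linarith) (by linarith),
        Or.inl rfl, fun z hz => ?_⟩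
      rw [abs_lt] at hz
      have m1 := min_le_left (y - (3 * k + 1)) (3 * k + 2 - y)
      have m2 := min_le_right (y - (3 * k + 1)) (3 * k + 2 - y)
      have a1 : loZ 1 y = (k, true) := (loZ_true_iff e0 e1).2 ⟨by linarith, by linarith⟩
      have a2 : hiZ 1 y = (k, true) := (hiZ_true_iff e0' e1.le).2 ⟨by linarith, by linarith⟩
      rw [a1, a2, ite_self, ite_self, loZ_true_iff e0 e1, hiZ_true_iff e0' e1.le]
      refine ⟨⟨?_, ?_⟩, ?_, ?_⟩ <;> linarith
    · refine ⟨1, -1, by norm_num, Or.inr rfl, fun z hz => ?_⟩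
      rw [abs_lt] at hz
      have a1 : loZ 1 y = (k + 1, false) := by
        rw [loZ_false_iff e0 e1]; push_cast; constructor <;> linarith
      have a2 : hiZ 1 y = (k, true) := (hiZ_true_iff e0' e1.le).2 ⟨by linarith, by linarith⟩
      rw [a1, a2]
      constructor
      · split_ifs with hz0
        · rw [loZ_true_iff e0 e1]; constructor <;> linarith
        · rw [loZ_false_iff e0 e1]; push_cast; constructor <;> linarith
      · split_ifs with hz0
        · rw [hiZ_true_iff e0' e1.le]; constructor <;> linarith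
        · rw [hiZ_false_iff e0' e1.le]; push_cast; constructor <;> linarith
    · refine ⟨y - (3 * k + 2), 1, by linarith, Or.inl rfl, fun z hz => ?_⟩
      rw [abs_lt] at hz
      have a1 : loZ 1 y = (k + 1, false) := by
        rw [loZ_false_iff e0 e1]; push_cast; constructor <;> linarith
      have a2 : hiZ 1 y = (k + 1, false) := by
        rw [hiZ_false_iff e0' e1.le]; push_cast; constructor <;> linarith
      rw [a1, a2, ite_self, ite_self, loZ_false_iff e0 e1, hiZ_false_iff e0' e1.le]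
      push_cast
      refine ⟨⟨?_, ?_⟩, ?_, ?_⟩ <;> linarith

private theorem isOpenMap_pt (n : ℕ) : IsOpenMap (pt n) := by
  have h : pt n = Pi.map (fun (_ : Fin 5) (x : ℝ) => (x : Circ n)) := rfl
  rw [h]
  apply IsOpenMap.piMap
  · intro i
    exact QuotientAddGroup.isOpenMap_coe
  · simp

theorem locally_euclidean {n : ℕ} [NeZero n] (hn : 3 ≤ n) {K : Set (Cell n)} (hK : IsCx K)
    (x : X K) : ∃ U : Set (X K), IsOpen U ∧ x ∈ U ∧ Nonempty (U ≃ₜ EuclideanSpace ℝ (Fin 4)) := by
  classical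
  obtain ⟨y0, hy0⟩ := exists_pt (x : Tor n)
  choose ε' σ hε' hσ hloc using fun i => local1 (y0 i)
  -- a common radius
  obtain ⟨ε, hε, hεle, hε1⟩ : ∃ ε : ℝ, 0 < ε ∧ (∀ i, ε ≤ ε' i) ∧ ε ≤ 1 := by
    refine ⟨min 1 (Finset.univ.inf' Finset.univ_nonempty ε'), ?_, ?_, min_le_left _ _⟩
    · rw [lt_min_iff, Finset.lt_inf'_iff]
      exact ⟨one_pos, fun i _ => hε' i⟩
    · intro i
      exact (min_le_right _ _).trans (Finset.inf'_le _ (Finset.mem_univ i))
  have hσ2 : ∀ i, σ i * σ i = 1 := by
    intro i; rcases hσ i with h | h <;> rw [h] <;> norm_num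
  -- the cells near x
  set cT : Finset (Fin 5) → Cell n := fun T i =>
    cst n (if i ∈ T then hiZ 1 (y0 i) else loZ 1 (y0 i)) with hcT
  have hface1 : ∀ i, Face1 (cst n (loZ 1 (y0 i))) (cst n (hiZ 1 (y0 i))) := by
    intro i
    exact face1_lo_hi (n := n) (d := 1) (e := 1) one_pos le_rfl (by norm_num) ((y0 i : ℝ) : Circ n)
  have hmono : ∀ S T : Finset (Fin 5), S ⊆ T → cT T ∈ K → cT S ∈ K := by
    intro S T hST hT
    refine hK _ hT _ fun i => ?_
    simp only [hcT]
    by_cases h1 : i ∈ S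
    · rw [if_pos h1, if_pos (hST h1)]; exact Face1.refl _
    · rw [if_neg h1]
      by_cases h2 : i ∈ T
      · rw [if_pos h2]; exact hface1 i
      · rw [if_neg h2]; exact Face1.refl _
  have hP0 : cT ∅ ∈ K := by
    have h1 : cT ∅ = Lo 1 (x : Tor n) := by
      rw [← hy0]; funext i; simp [hcT]
    rw [h1]; exact x.2.1
  have hP1 : ¬ cT Finset.univ ∈ K := by
    have h1 : cT Finset.univ = Hi 1 (x : Tor n) := by
      rw [← hy0]; funext i; simp [hcT]
    rw [h1]; exact x.2.2
  obtain ⟨g, hg1, hg2⟩ := exists_g (fun T => cT T ∈ K) hmono hP0 hP1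
  -- properties of g
  have hlip : LipschitzWith 1 g := by
    apply LipschitzWith.of_le_add
    intro z z'
    rw [hg1]
    refine hmono _ _ ?_ ((hg1 z' (g z')).1 le_rfl)
    intro i hi
    rw [Finset.mem_filter] at hi ⊢
    have h1 := dist_le_pi_dist z z' i
    rw [Real.dist_eq] at h1
    have h2 := (abs_le.1 h1).2
    exact ⟨Finset.mem_univ i, by linarith [hi.2]⟩
  have hgc : Continuous g := hlip.continuous
  have htr : ∀ (z : Fin 5 → ℝ) (c : ℝ), g (fun i => z i + c) = g z + c := by
    intro z c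
    apply le_antisymm
    · rw [hg1]
      refine hmono _ _ ?_ ((hg1 z (g z)).1 le_rfl)
      intro i hi
      rw [Finset.mem_filter] at hi ⊢
      exact ⟨Finset.mem_univ i, by linarith [hi.2]⟩
    · rw [← le_sub_iff_add_le, hg1]
      refine hmono _ _ ?_ ((hg1 (fun i => z i + c) (g (fun i => z i + c))).1 le_rfl)
      intro i hi
      rw [Finset.mem_filter] at hi ⊢
      exact ⟨Finset.mem_univ i, by linarith [hi.2]⟩
  have hg0 : g 0 = 0 := by
    apply le_antisymm
    · rw [hg1]
      simpa using hP0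
    · rw [← not_lt, hg2]
      simpa using hP1
  -- the parametrisation of a neighbourhood
  set f0 : (Fin 5 → ℝ) → Tor n := fun z => pt n (fun i => y0 i + σ i * z i) with hf0
  have hX : ∀ z : Fin 5 → ℝ, (∀ i, |z i| < ε) → (f0 z ∈ X K ↔ g z = 0) := by
    intro z hz
    have hLo : Lo 1 (f0 z) = cT (Finset.univ.filter fun i => 0 < z i) := by
      funext i
      have h1 := (hloc i (z i) (lt_of_lt_of_le (hz i) (hεle i))).1
      simp only [hf0, Lo_pt, hcT, Finset.mem_filter, Finset.mem_univ, true_and, h1]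
    have hHi : Hi 1 (f0 z) = cT (Finset.univ.filter fun i => 0 ≤ z i) := by
      funext i
      have h1 := (hloc i (z i) (lt_of_lt_of_le (hz i) (hεle i))).2
      simp only [hf0, Hi_pt, hcT, Finset.mem_filter, Finset.mem_univ, true_and, h1]
    have h1 : f0 z ∈ X K ↔ (Lo 1 (f0 z) ∈ K ∧ Hi 1 (f0 z) ∉ K) := Iff.rfl
    rw [h1, hLo, hHi, ← hg1 z 0, ← hg2 z 0, not_lt]
    exact ⟨fun h => le_antisymm h.1 h.2, fun h => ⟨h.le, h.ge⟩⟩
  have hcont0 : Continuous f0 := by
    apply (continuous_pt n).comp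
    fun_prop
  have hn0 : (3 : ℝ) ≤ n := by exact_mod_cast hn
  have hinj : ∀ z z' : Fin 5 → ℝ, (∀ i, |z i| < ε) → (∀ i, |z' i| < ε) → f0 z = f0 z' →
      z = z' := by
    intro z z' hz hz' h
    funext i
    have h1 : ((y0 i + σ i * z i : ℝ) : Circ n) = ((y0 i + σ i * z' i : ℝ) : Circ n) := congrFun h i
    have h2 := abs_lt.1 (hz i)
    have h3 := abs_lt.1 (hz' i)
    have h4 : y0 i + σ i * z i = y0 i + σ i * z' i := by
      refine (AddCircle.coe_eq_coe_iff_of_mem_Ico (a := y0 i - 1) ?_ ?_).1 h1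
      · rcases hσ i with hs | hs <;> rw [hs] <;> constructor <;> linarith
      · rcases hσ i with hs | hs <;> rw [hs] <;> constructor <;> linarith
    rcases hσ i with hs | hs <;> rw [hs] at h4 <;> linarith
  have hopen : IsOpenMap f0 := by
    let e : (Fin 5 → ℝ) ≃ₜ (Fin 5 → ℝ) :=
      { toFun := fun z i => y0 i + σ i * z i
        invFun := fun z i => σ i * (z i - y0 i)
        left_inv := by
          intro z; funext i
          have := hσ2 i
          simp only [add_sub_cancel_left, ← mul_assoc, this, one_mul]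
        right_inv := by
          intro z; funext i
          have := hσ2 i
          simp only [← mul_assoc, this, one_mul, add_sub_cancel]
        continuous_toFun := by fun_prop
        continuous_invFun := by fun_prop }
    exact (isOpenMap_pt n).comp e.isOpenMap
  -- the hypersurface `g = 0` as a graph
  set c0 : EuclideanSpace ℝ (Fin 4) → (Fin 5 → ℝ) := fun w =>
    Fin.cons (α := fun _ => ℝ) 0 (fun j => w j) with hc0
  set Ψ : EuclideanSpace ℝ (Fin 4) → (Fin 5 → ℝ) := fun w i => c0 w i + -(g (c0 w)) with hΨ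
  set Φ : (Fin 5 → ℝ) → EuclideanSpace ℝ (Fin 4) := fun z =>
    WithLp.toLp 2 (fun j : Fin 4 => z j.succ - z 0) with hΦ
  have hc0c : Continuous c0 := by
    refine continuous_pi fun i => ?_
    refine Fin.cases ?_ (fun j => ?_) i
    · simp only [hc0, Fin.cons_zero]; exact continuous_const
    · simp only [hc0, Fin.cons_succ]; fun_prop
  have hΨc : Continuous Ψ := by
    refine continuous_pi fun i => ?_
    exact ((continuous_apply i).comp hc0c).add (hgc.comp hc0c).neg
  have hΦc : Continuous Φ := by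
    apply (PiLp.continuous_toLp 2 _).comp
    fun_prop
  have hΨg : ∀ w, g (Ψ w) = 0 := by
    intro w
    rw [hΨ, htr]
    ring
  have hΦΨ : ∀ w, Φ (Ψ w) = w := by
    intro w
    ext j
    simp [hΦ, hΨ, hc0]
  have hΨΦ : ∀ z, g z = 0 → Ψ (Φ z) = z := by
    intro z hz
    have h1 : c0 (Φ z) = fun i => z i + -(z 0) := by
      funext i
      refine Fin.cases ?_ (fun j => ?_) i
      · simp [hc0]
      · simp [hc0, hΦ, sub_eq_add_neg]
    funext i
    simp only [hΨ]
    rw [h1, htr, hz]
    ring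
  obtain ⟨δ, hδ, hδε⟩ : ∃ δ : ℝ, 0 < δ ∧ ∀ w ∈ ball (0 : EuclideanSpace ℝ (Fin 4)) δ,
      ∀ i, |Ψ w i| < ε := by
    have h1 : Ψ 0 = 0 := by
      have h2 : c0 0 = 0 := by
        funext i
        refine Fin.cases ?_ (fun j => ?_) i <;> simp [hc0]
      funext i
      simp only [hΨ]
      rw [h2, hg0]
      simp
    have h2 := Metric.continuousAt_iff.1 (hΨc.continuousAt (x := 0)) ε hε
    obtain ⟨δ, hδ, h3⟩ := h2
    refine ⟨δ, hδ, fun w hw i => ?_⟩
    have h4 := h3 (mem_ball.1 hw)
    rw [h1] at h4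
    have h5 := lt_of_le_of_lt (dist_le_pi_dist (Ψ w) 0 i) h4
    rw [Real.dist_eq] at h5
    simpa using h5
  set u := OpenPartialHomeomorph.univBall (0 : EuclideanSpace ℝ (Fin 4)) δ with hu
  have hut : ∀ w, u w ∈ ball (0 : EuclideanSpace ℝ (Fin 4)) δ := by
    intro w
    rw [← OpenPartialHomeomorph.univBall_target (0 : EuclideanSpace ℝ (Fin 4)) hδ]
    apply u.map_source
    rw [hu, OpenPartialHomeomorph.univBall_source]
    trivial
  have hus : u.source = univ := OpenPartialHomeomorph.univBall_source _ _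
  have huc : Continuous u := OpenPartialHomeomorph.continuous_univBall _ _
  have hui : Function.Injective u := by
    intro a b hab
    exact u.injOn (by rw [hus]; trivial) (by rw [hus]; trivial) hab
  set f : EuclideanSpace ℝ (Fin 4) → X K := fun w =>
    ⟨f0 (Ψ (u w)), (hX _ (hδε _ (hut w))).2 (hΨg _)⟩ with hf
  have hfc : Continuous f := Continuous.subtype_mk (hcont0.comp (hΨc.comp huc)) _
  have hfi : Function.Injective f := by
    intro a b hab
    have h1 : f0 (Ψ (u a)) = f0 (Ψ (u b)) := congrArg Subtype.val hab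
    have h2 := hinj _ _ (hδε _ (hut a)) (hδε _ (hut b)) h1
    have h3 : Φ (Ψ (u a)) = Φ (Ψ (u b)) := by rw [h2]
    rw [hΦΨ, hΦΨ] at h3
    exact hui h3
  have hfo : IsOpenMap f := by
    intro O hO
    have hO' : IsOpen (u '' O) := u.isOpen_image_of_subset_source hO (by rw [hus]; exact subset_univ _)
    set W : Set (Fin 5 → ℝ) := {z | (∀ i, |z i| < ε) ∧ Φ z ∈ u '' O} with hW
    have hWo : IsOpen W := by
      have hWeq : W = (⋂ i, {z : Fin 5 → ℝ | |z i| < ε}) ∩ Φ ⁻¹' (u '' O) := by
        ext z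
        constructor
        · rintro ⟨h1, h2⟩
          exact ⟨mem_iInter.2 fun i => h1 i, h2⟩
        · rintro ⟨h1, h2⟩
          exact ⟨fun i => (mem_iInter.1 h1 i : |z i| < ε), h2⟩
      rw [hWeq]
      apply IsOpen.inter
      · apply isOpen_iInter_of_finite
        intro i
        exact isOpen_lt (by fun_prop) continuous_const
      · exact hO'.preimage hΦc
    have h1 : f '' O = Subtype.val ⁻¹' (f0 '' W) := by
      ext q
      constructor
      · rintro ⟨o, ho, rfl⟩
        refine ⟨Ψ (u o), ⟨hδε _ (hut o), ?_⟩, rfl⟩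
        rw [hΦΨ]
        exact ⟨o, ho, rfl⟩
      · rintro ⟨z, ⟨hz1, o, ho, hz2⟩, hz3⟩
        refine ⟨o, ho, ?_⟩
        apply Subtype.ext
        have h2 : g z = 0 := by
          rw [← hX z hz1, hz3]
          exact q.2
        show f0 (Ψ (u o)) = q
        rw [hz2, hΨΦ z h2, hz3]
    rw [h1]
    exact (hopen W hWo).preimage continuous_subtype_val
  have hemb : IsOpenEmbedding f := IsOpenEmbedding.of_continuous_injective_isOpenMap hfc hfi hfo
  refine ⟨range f, hemb.isOpen_range, ⟨0, ?_⟩, ⟨hemb.isEmbedding.toHomeomorph.symm⟩⟩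
  apply Subtype.ext
  show f0 (Ψ (u 0)) = x
  have h0 : u 0 = 0 := OpenPartialHomeomorph.univBall_apply_zero _ _
  have h1 : Ψ 0 = 0 := by
    have h2 : c0 0 = 0 := by
      funext i
      refine Fin.cases ?_ (fun j => ?_) i <;> simp [hc0]
    funext i
    simp only [hΨ]
    rw [h2, hg0]
    simp
  rw [h0, h1, ← hy0]
  simp [hf0]

end Pool.Agent.FM
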