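import Pool.Agent.FM.Defs

/-!
# Block B04: duplicating an edge in each direction does not change the hypersurface
-/

open Set Topology

namespace Pool.Agent.FM

/-- a homeomorphism of the line which commutes with the translations induces a homeomorphism of
circles -/
noncomputable def circHomeo {p q : ℝ} (e : ℝ ≃ₜ ℝ) (he : ∀ x, e (x + p) = e x + q) :
    AddCircle p ≃ₜ AddCircle q :=
  have he' : ∀ y, e.symm (y + q) = e.symm y + p := fun y => by
    apply e.injective
    rw [he, e.apply_symm_apply, e.apply_symm_apply]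
  have h1 : Function.Periodic (fun x : ℝ => ((e x : ℝ) : AddCircle q)) p := fun x => by
    show ((e (x + p) : ℝ) : AddCircle q) = ((e x : ℝ) : AddCircle q)
    rw [he]
    exact AddCircle.coe_add_period q (e x)
  have h2 : Function.Periodic (fun x : ℝ => ((e.symm x : ℝ) : AddCircle p)) q := fun x => by
    show ((e.symm (x + q) : ℝ) : AddCircle p) = ((e.symm x : ℝ) : AddCircle p)
    rw [he']
    exact AddCircle.coe_add_period p (e.symm x)
  { toFun := h1.lift
    invFun := h2.lift
    left_inv := fun x => by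
      induction x using QuotientAddGroup.induction_on with
      | H x =>
        show ((e.symm (e x) : ℝ) : AddCircle p) = ((x : ℝ) : AddCircle p)
        rw [e.symm_apply_apply]
    right_inv := fun x => by
      induction x using QuotientAddGroup.induction_on with
      | H x =>
        show ((e (e.symm x) : ℝ) : AddCircle q) = ((x : ℝ) : AddCircle q)
        rw [e.apply_symm_apply]
    continuous_toFun := by
      refine (QuotientAddGroup.isQuotientMap_mk (N := AddSubgroup.zmultiples p)).continuous_iff.mpr ?_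
      exact (AddCircle.continuous_mk' q).comp e.continuous
    continuous_invFun := by
      refine (QuotientAddGroup.isQuotientMap_mk (N := AddSubgroup.zmultiples q)).continuous_iff.mpr ?_
      exact (AddCircle.continuous_mk' p).comp e.symm.continuous }

theorem circHomeo_coe {p q : ℝ} (e : ℝ ≃ₜ ℝ) (he : ∀ x, e (x + p) = e x + q) (x : ℝ) :
    circHomeo e he (x : AddCircle p) = ((e x : ℝ) : AddCircle q) := rfl

/-- the piecewise linear map duplicating the edge `k` -/
noncomputable def psi0 (k : ℕ) (x : ℝ) : ℝ :=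
  if x ≤ 3 * k + 1 then x else if x ≤ 3 * k + 2 then 3 * k + 1 + 4 * (x - 3 * k - 1) else x + 3

/-- its inverse -/
noncomputable def phi0 (k : ℕ) (y : ℝ) : ℝ :=
  if y ≤ 3 * k + 1 then y else if y ≤ 3 * k + 5 then 3 * k + 1 + (y - 3 * k - 1) / 4 else y - 3

theorem psi0_strictMono (k : ℕ) : StrictMono (psi0 k) := by
  intro x y hxy
  unfold psi0
  split_ifs <;> linarith

theorem psi0_phi0 (k : ℕ) (y : ℝ) : psi0 k (phi0 k y) = y := by
  unfold psi0 phi0
  split_ifs <;> linarith

/-- the equivariant extension -/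
noncomputable def psi (n k : ℕ) (x : ℝ) : ℝ :=
  psi0 k (x - 3 * n * ⌊x / (3 * n)⌋) + 3 * (n + 1) * ⌊x / (3 * n)⌋

theorem floor_div_eq {p x r : ℝ} (hp : 0 < p) {m : ℤ} (hx : x = r + p * m) (h0 : 0 ≤ r)
    (h1 : r < p) : ⌊x / p⌋ = m := by
  rw [Int.floor_eq_iff, hx]
  constructor
  · rw [le_div_iff₀ hp]; nlinarith
  · rw [div_lt_iff₀ hp]; nlinarith

theorem floor_rep {p : ℝ} (hp : 0 < p) (x : ℝ) :
    0 ≤ x - p * ⌊x / p⌋ ∧ x - p * ⌊x / p⌋ < p := by
  have h1 : (⌊x / p⌋ : ℝ) ≤ x / p := Int.floor_le _
  have h2 : x / p < ⌊x / p⌋ + 1 := Int.lt_floor_add_one _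
  rw [le_div_iff₀ hp] at h1
  rw [div_lt_iff₀ hp] at h2
  constructor <;> nlinarith

theorem psi_eq {n : ℕ} [NeZero n] (k : ℕ) {r : ℝ} (m : ℤ) (h0 : 0 ≤ r) (h1 : r < 3 * n) :
    psi n k (r + 3 * n * m) = psi0 k r + 3 * (n + 1) * m := by
  have hn : (0 : ℝ) < 3 * n := Fact.out
  unfold psi
  rw [floor_div_eq hn rfl h0 h1]
  congr 2
  ring

theorem psi_add {n : ℕ} [NeZero n] (k : ℕ) (x : ℝ) :
    psi n k (x + 3 * n) = psi n k x + 3 * (n + 1) := by
  have hn : (0 : ℝ) < 3 * n := Fact.out
  obtain ⟨h0, h1⟩ := floor_rep hn x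
  have e1 : x = (x - 3 * n * ⌊x / (3 * n)⌋) + 3 * n * ((⌊x / (3 * n)⌋ : ℤ) : ℝ) := by ring
  have e2 : x + 3 * n =
      (x - 3 * n * ⌊x / (3 * n)⌋) + 3 * n * ((⌊x / (3 * n)⌋ + 1 : ℤ) : ℝ) := by
    push_cast; ring
  rw [e2, psi_eq k _ h0 h1]
  conv_rhs => rw [e1, psi_eq k _ h0 h1]
  push_cast
  ring

theorem psi_strictMono {n : ℕ} [NeZero n] {k : ℕ} (hk : k < n) : StrictMono (psi n k) := by
  intro x y hxy
  have hn : (0 : ℝ) < 3 * n := Fact.out
  have hkn : (k : ℝ) + 1 ≤ n := by exact_mod_cast hk
  obtain ⟨h0, h1⟩ := floor_rep hn x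
  obtain ⟨g0, g1⟩ := floor_rep hn y
  have hle : ⌊x / (3 * (n : ℝ))⌋ ≤ ⌊y / (3 * (n : ℝ))⌋ :=
    Int.floor_mono (by gcongr)
  unfold psi
  set r := x - 3 * (n : ℝ) * ⌊x / (3 * (n : ℝ))⌋ with hr
  set s := y - 3 * (n : ℝ) * ⌊y / (3 * (n : ℝ))⌋ with hs
  rcases hle.eq_or_lt with heq | hlt
  · rw [← heq] at hs ⊢
    have : r < s := by rw [hr, hs]; linarith
    have := psi0_strictMono k this
    linarith
  · have h2 : psi0 k r < 3 * n + 3 := by
      have h3 := psi0_strictMono k h1
      have h4 : psi0 k (3 * n) = 3 * n + 3 := by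
        unfold psi0
        rw [if_neg (by linarith), if_neg (by linarith)]
      linarith
    have h5 : 0 ≤ psi0 k s := by
      have h6 := (psi0_strictMono k).monotone g0
      have h7 : psi0 k 0 = 0 := by
        unfold psi0
        rw [if_pos (by positivity)]
      linarith
    have h8 : ((⌊x / (3 * (n : ℝ))⌋ : ℤ) : ℝ) + 1 ≤ ((⌊y / (3 * (n : ℝ))⌋ : ℤ) : ℝ) := by
      exact_mod_cast hlt
    nlinarith

/-- the inverse -/
noncomputable def phi (n k : ℕ) (y : ℝ) : ℝ :=
  phi0 k (y - 3 * (n + 1) * ⌊y / (3 * (n + 1))⌋) + 3 * n * ⌊y / (3 * (n + 1))⌋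

theorem psi_phi {n : ℕ} [NeZero n] {k : ℕ} (hk : k < n) (y : ℝ) : psi n k (phi n k y) = y := by
  have hn : (0 : ℝ) < 3 * n := Fact.out
  have hkn : (k : ℝ) + 1 ≤ n := by exact_mod_cast hk
  have hn1 : (0 : ℝ) < 3 * ((n : ℝ) + 1) := by positivity
  obtain ⟨h0, h1⟩ := floor_rep hn1 y
  unfold phi
  set s := y - 3 * ((n : ℝ) + 1) * ⌊y / (3 * ((n : ℝ) + 1))⌋ with hs
  have h2 : 0 ≤ phi0 k s := by
    unfold phi0
    split_ifs <;> linarith
  have h3 : phi0 k s < 3 * n := by
    unfold phi0
    split_ifs <;> linarith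
  rw [psi_eq k _ h2 h3, psi0_phi0, hs]
  ring

/-- the homeomorphism of the line -/
noncomputable def psiH (n k : ℕ) [NeZero n] (hk : k < n) : ℝ ≃ₜ ℝ :=
  ((psi_strictMono hk).orderIsoOfRightInverse (psi n k) (phi n k) (psi_phi hk)).toHomeomorph

theorem psiH_apply {n k : ℕ} [NeZero n] (hk : k < n) (x : ℝ) : psiH n k hk x = psi n k x := rfl

/-- the homeomorphism of circles -/
noncomputable def psiC (n k : ℕ) [NeZero n] (hk : k < n) : Circ n ≃ₜ Circ (n + 1) :=
  circHomeo (p := 3 * (n : ℝ)) (q := 3 * ((n + 1 : ℕ) : ℝ)) (psiH n k hk) (fun x => by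
    rw [psiH_apply, psiH_apply, psi_add]
    push_cast
    rfl)

theorem psiC_coe {n k : ℕ} [NeZero n] (hk : k < n) (x : ℝ) :
    psiC n k hk (x : Circ n) = ((psi n k x : ℝ) : Circ (n + 1)) := rfl

theorem exists_rep {n : ℕ} [NeZero n] (q : Circ n) : ∃ x : ℝ, 0 ≤ x ∧ x < 3 * n ∧
    ((x : ℝ) : Circ n) = q := by
  have hn : (0 : ℝ) < 3 * n := Fact.out
  induction q using QuotientAddGroup.induction_on with
  | H x =>
    obtain ⟨h0, h1⟩ := floor_rep hn x
    refine ⟨_, h0, h1, ?_⟩
    show ((x - 3 * n * ⌊x / (3 * n)⌋ : ℝ) : Circ n) = ((x : ℝ) : Circ n)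
    rw [← sub_eq_zero, ← AddCircle.coe_sub, AddCircle.coe_eq_zero_iff]
    exact ⟨-⌊x / (3 * n)⌋, by rw [neg_smul, zsmul_eq_mul]; ring⟩

section sigma

variable {n k : ℕ} [NeZero n]

omit [NeZero n] in
theorem sig_cst_le (hk : k < n) {j : ℕ} (hj : j ≤ k) (b : Bool) :
    sig k (cst (n + 1) ((j : ℤ), b)) = cst n ((j : ℤ), b) := by
  have h1 : (((j : ℤ) : ZMod (n + 1))).val = j := by
    rw [Int.cast_natCast]
    exact ZMod.val_natCast_of_lt (by omega)
  unfold sig cst
  simp only [h1]
  rw [if_pos hj]
  simp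

omit [NeZero n] in
theorem sig_cst_mid (hk : k < n) (b : Bool) :
    sig k (cst (n + 1) (((k + 1 : ℕ) : ℤ), b)) = cst n ((k : ℤ), true) := by
  have h1 : ((((k + 1 : ℕ) : ℤ) : ZMod (n + 1))).val = k + 1 := by
    rw [Int.cast_natCast]
    exact ZMod.val_natCast_of_lt (by omega)
  unfold sig cst
  simp only [h1]
  rw [if_neg (by omega)]
  simp

omit [NeZero n] in
theorem sig_cst_gt {j : ℕ} (hj : k < j) (hjn : j < n) (b : Bool) :
    sig k (cst (n + 1) (((j + 1 : ℕ) : ℤ), b)) = cst n ((j : ℤ), b) := by
  have h1 : ((((j + 1 : ℕ) : ℤ) : ZMod (n + 1))).val = j + 1 := by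
    rw [Int.cast_natCast]
    exact ZMod.val_natCast_of_lt (by omega)
  unfold sig cst
  simp only [h1]
  rw [if_neg (by omega), if_neg (by omega)]
  simp

omit [NeZero n] in
theorem sig_cst_top (b : Bool) :
    sig k (cst (n + 1) (((n + 1 : ℕ) : ℤ), b)) = cst n ((n : ℤ), b) := by
  have h1 : ((((n + 1 : ℕ) : ℤ) : ZMod (n + 1))).val = 0 := by
    rw [Int.cast_natCast, ZMod.natCast_self]
    exact ZMod.val_zero
  unfold sig cst
  simp only [h1]
  rw [if_pos (by omega)]
  simp

/-- the relation with the closed cells -/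
theorem sig_lo (hk : k < n) (q : Circ n) : sig k (lo 1 (psiC n k hk q)) = lo 1 q := by
  have hkn : (k : ℝ) + 1 ≤ n := by exact_mod_cast hk
  obtain ⟨x, h0, h1, rfl⟩ := exists_rep q
  have hpsi : psi n k x = psi0 k x := by
    have := psi_eq (n := n) k 0 h0 h1
    simpa using this
  rw [psiC_coe, hpsi, lo_coe, lo_coe]
  by_cases hA : x ≤ 3 * k + 1
  · have e : psi0 k x = x := by unfold psi0; rw [if_pos hA]
    rw [e]
    rcases h : loZ 1 x with ⟨m, b⟩
    cases b
    · rw [loZ_false_iff (by norm_num) (by norm_num)] at h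
      have hm0 : (0 : ℤ) ≤ m := by
        by_contra hcon
        have : (m : ℝ) ≤ -1 := by exact_mod_cast (show m ≤ -1 by omega)
        linarith [h.2]
      have hmk : m ≤ k := by
        by_contra hcon
        have : (k : ℝ) + 1 ≤ m := by exact_mod_cast (show (k : ℤ) + 1 ≤ m by omega)
        linarith [h.1]
      lift m to ℕ using hm0
      exact sig_cst_le hk (by exact_mod_cast hmk) false
    · rw [loZ_true_iff (by norm_num) (by norm_num)] at h
      have hm0 : (0 : ℤ) ≤ m := by
        by_contra hcon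
        have : (m : ℝ) ≤ -1 := by exact_mod_cast (show m ≤ -1 by omega)
        linarith [h.2]
      have hmk : m ≤ k := by
        by_contra hcon
        have : (k : ℝ) + 1 ≤ m := by exact_mod_cast (show (k : ℤ) + 1 ≤ m by omega)
        linarith [h.1]
      lift m to ℕ using hm0
      exact sig_cst_le hk (by exact_mod_cast hmk) true
  · by_cases hB : x < 3 * k + 2
    · have e : psi0 k x = 3 * k + 1 + 4 * (x - 3 * k - 1) := by
        unfold psi0; rw [if_neg hA, if_pos hB.le]
      push Not at hA
      have h2 : loZ 1 x = ((k : ℤ), true) := by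
        rw [loZ_true_iff (by norm_num) (by norm_num)]
        push_cast
        constructor <;> linarith
      rw [h2, e]
      by_cases h3 : 3 * (k : ℝ) + 1 + 4 * (x - 3 * k - 1) < 3 * k + 2
      · rw [(loZ_true_iff (k := (k : ℤ)) (by norm_num) (by norm_num)).mpr
          ⟨by push_cast; linarith, by push_cast; linarith⟩]
        exact sig_cst_le hk le_rfl true
      · push Not at h3
        by_cases h4 : 3 * (k : ℝ) + 1 + 4 * (x - 3 * k - 1) ≤ 3 * k + 4
        · rw [(loZ_false_iff (k := ((k + 1 : ℕ) : ℤ)) (by norm_num) (by norm_num)).mpr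
            ⟨by push_cast; linarith, by push_cast; linarith⟩]
          exact sig_cst_mid hk false
        · push Not at h4
          rw [(loZ_true_iff (k := ((k + 1 : ℕ) : ℤ)) (by norm_num) (by norm_num)).mpr
            ⟨by push_cast; linarith, by push_cast; linarith⟩]
          exact sig_cst_mid hk true
    · push Not at hA hB
      have e : psi0 k x = x + 3 * (1 : ℤ) := by
        unfold psi0
        rw [if_neg (by linarith)]
        split_ifs <;> push_cast <;> linarith
      rw [e, loZ_add]
      rcases h : loZ 1 x with ⟨m, b⟩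
      cases b
      · rw [loZ_false_iff (by norm_num) (by norm_num)] at h
        have hm0 : (k : ℤ) < m := by
          by_contra hcon
          have : (m : ℝ) ≤ k := by exact_mod_cast (show m ≤ (k : ℤ) by omega)
          linarith [h.2]
        have hmn : m ≤ n := by
          by_contra hcon
          have : (n : ℝ) + 1 ≤ m := by exact_mod_cast (show (n : ℤ) + 1 ≤ m by omega)
          linarith [h.1]
        lift m to ℕ using (by omega)
        rcases (Nat.lt_or_ge m n) with h5 | h5
        · exact sig_cst_gt (by exact_mod_cast hm0) h5 false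
        · have h6 : m = n := by omega
          subst h6
          exact sig_cst_top false
      · rw [loZ_true_iff (by norm_num) (by norm_num)] at h
        have hm0 : (k : ℤ) < m := by
          by_contra hcon
          have : (m : ℝ) ≤ k := by exact_mod_cast (show m ≤ (k : ℤ) by omega)
          linarith [h.2]
        have hmn : m < n := by
          by_contra hcon
          have : (n : ℝ) ≤ m := by exact_mod_cast (show (n : ℤ) ≤ m by omega)
          linarith [h.1]
        lift m to ℕ using (by omega)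
        exact sig_cst_gt (by exact_mod_cast hm0) (by exact_mod_cast hmn) true

/-- the relation with the open cells -/
theorem sig_hi (hk : k < n) (q : Circ n) : sig k (hi 1 (psiC n k hk q)) = hi 1 q := by
  have hkn : (k : ℝ) + 1 ≤ n := by exact_mod_cast hk
  obtain ⟨x, h0, h1, rfl⟩ := exists_rep q
  have hpsi : psi n k x = psi0 k x := by
    have := psi_eq (n := n) k 0 h0 h1
    simpa using this
  rw [psiC_coe, hpsi, hi_coe, hi_coe]
  by_cases hA : x < 3 * k + 1
  · have e : psi0 k x = x := by unfold psi0; rw [if_pos hA.le]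
    rw [e]
    rcases h : hiZ 1 x with ⟨m, b⟩
    cases b
    · rw [hiZ_false_iff (by norm_num) (by norm_num)] at h
      have hm0 : (0 : ℤ) ≤ m := by
        by_contra hcon
        have : (m : ℝ) ≤ -1 := by exact_mod_cast (show m ≤ -1 by omega)
        linarith [h.2]
      have hmk : m ≤ k := by
        by_contra hcon
        have : (k : ℝ) + 1 ≤ m := by exact_mod_cast (show (k : ℤ) + 1 ≤ m by omega)
        linarith [h.1]
      lift m to ℕ using hm0
      exact sig_cst_le hk (by exact_mod_cast hmk) false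
    · rw [hiZ_true_iff (by norm_num) (by norm_num)] at h
      have hm0 : (0 : ℤ) ≤ m := by
        by_contra hcon
        have : (m : ℝ) ≤ -1 := by exact_mod_cast (show m ≤ -1 by omega)
        linarith [h.2]
      have hmk : m ≤ k := by
        by_contra hcon
        have : (k : ℝ) + 1 ≤ m := by exact_mod_cast (show (k : ℤ) + 1 ≤ m by omega)
        linarith [h.1]
      lift m to ℕ using hm0
      exact sig_cst_le hk (by exact_mod_cast hmk) true
  · by_cases hB : x ≤ 3 * k + 2
    · push Not at hA
      have e : psi0 k x = 3 * k + 1 + 4 * (x - 3 * k - 1) := by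
        unfold psi0
        split_ifs
        · linarith
        · rfl
      have h2 : hiZ 1 x = ((k : ℤ), true) := by
        rw [hiZ_true_iff (by norm_num) (by norm_num)]
        push_cast
        constructor <;> linarith
      rw [h2, e]
      by_cases h3 : 3 * (k : ℝ) + 1 + 4 * (x - 3 * k - 1) ≤ 3 * k + 2
      · rw [(hiZ_true_iff (k := (k : ℤ)) (by norm_num) (by norm_num)).mpr
          ⟨by push_cast; linarith, by push_cast; linarith⟩]
        exact sig_cst_le hk le_rfl true
      · push Not at h3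
        by_cases h4 : 3 * (k : ℝ) + 1 + 4 * (x - 3 * k - 1) < 3 * k + 4
        · rw [(hiZ_false_iff (k := ((k + 1 : ℕ) : ℤ)) (by norm_num) (by norm_num)).mpr
            ⟨by push_cast; linarith, by push_cast; linarith⟩]
          exact sig_cst_mid hk false
        · push Not at h4
          rw [(hiZ_true_iff (k := ((k + 1 : ℕ) : ℤ)) (by norm_num) (by norm_num)).mpr
            ⟨by push_cast; linarith, by push_cast; linarith⟩]
          exact sig_cst_mid hk true
    · push Not at hA hB
      have e : psi0 k x = x + 3 * (1 : ℤ) := by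
        unfold psi0
        rw [if_neg (by linarith), if_neg (by linarith)]
        push_cast
        ring
      rw [e, hiZ_add]
      rcases h : hiZ 1 x with ⟨m, b⟩
      cases b
      · rw [hiZ_false_iff (by norm_num) (by norm_num)] at h
        have hm0 : (k : ℤ) < m := by
          by_contra hcon
          have : (m : ℝ) ≤ k := by exact_mod_cast (show m ≤ (k : ℤ) by omega)
          linarith [h.2]
        have hmn : m ≤ n := by
          by_contra hcon
          have : (n : ℝ) + 1 ≤ m := by exact_mod_cast (show (n : ℤ) + 1 ≤ m by omega)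
          linarith [h.1]
        lift m to ℕ using (by omega)
        rcases (Nat.lt_or_ge m n) with h5 | h5
        · exact sig_cst_gt (by exact_mod_cast hm0) h5 false
        · have h6 : m = n := by omega
          subst h6
          exact sig_cst_top false
      · rw [hiZ_true_iff (by norm_num) (by norm_num)] at h
        have hm0 : (k : ℤ) < m := by
          by_contra hcon
          have : (m : ℝ) ≤ k := by exact_mod_cast (show m ≤ (k : ℤ) by omega)
          linarith [h.2]
        have hmn : m < n := by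
          by_contra hcon
          have : (n : ℝ) ≤ m := by exact_mod_cast (show (n : ℤ) ≤ m by omega)
          linarith [h.1]
        lift m to ℕ using (by omega)
        exact sig_cst_gt (by exact_mod_cast hm0) (by exact_mod_cast hmn) true

end sigma

theorem stretch {n : ℕ} [NeZero n] (k : Fin 5 → ℕ) (hk : ∀ i, k i < n) (K : Set (Cell n)) :
    HEq' K (stretchCx k K) := by
  let e : Tor n ≃ₜ Tor (n + 1) := Homeomorph.piCongrRight fun i => psiC n (k i) (hk i)
  have he : ∀ (q : Tor n) (i : Fin 5), e q i = psiC n (k i) (hk i) (q i) := fun q i => rfl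
  have h : ∀ q, q ∈ X K ↔ e q ∈ X (stretchCx k K) := by
    intro q
    have h1 : (fun i => sig (k i) (Lo 1 (e q) i)) = Lo 1 q := by
      funext i
      exact sig_lo (hk i) (q i)
    have h2 : (fun i => sig (k i) (Hi 1 (e q) i)) = Hi 1 q := by
      funext i
      exact sig_hi (hk i) (q i)
    show (Lo 1 q ∈ K ∧ Hi 1 q ∉ K) ↔
      ((fun i => sig (k i) (Lo 1 (e q) i)) ∈ K ∧ ¬ (fun i => sig (k i) (Hi 1 (e q) i)) ∈ K)
    rw [h1, h2]
  exact ⟨e.subtype h⟩

end Pool.Agent.FM
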