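import Pool.Agent.FM.Defs

/-!
BLOCK B05: `X K` is homeomorphic to the realisation of the explicit list of Kuhn simplices.
-/

open Set Topology

namespace Pool.Agent.FM

namespace B5

/-! ### codes of lattice points -/

/-- code of a lattice point -/
def code (N : ℕ) (u : Fin 5 → ℤ) : ℕ := ∑ i : Fin 5, (u i % (N : ℤ)).toNat * N ^ (i : ℕ)

theorem dig_aux {N A B R d : ℕ} (hA : A < B) (hd : d < N) : (A + B * (d + N * R)) / B % N = d := by
  have hB : 0 < B := by omega
  rw [Nat.add_mul_div_left _ _ hB, Nat.div_eq_of_lt hA, zero_add, Nat.add_mul_mod_self_left,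
    Nat.mod_eq_of_lt hd]

theorem lt_aux {N A B d : ℕ} (hA : A < B) (hd : d < N) : A + B * d < B * N := by
  calc A + B * d < B + B * d := by omega
    _ = B * (d + 1) := by ring
    _ ≤ B * N := Nat.mul_le_mul_left _ hd

theorem digit_sum {N : ℕ} (d : Fin 5 → ℕ) (hd : ∀ i, d i < N) (j : Fin 5) :
    (∑ i : Fin 5, d i * N ^ (i : ℕ)) / N ^ (j : ℕ) % N = d j := by
  have hN : 0 < N := by have := hd 0; omega
  have h0 := hd 0
  have h1 := hd 1
  have h2 := hd 2
  have h3 := hd 3
  have h4 := hd 4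
  have a1 : d 0 < N := h0
  have a2 : d 0 + N * d 1 < N * N := lt_aux a1 h1
  have a3 : d 0 + N * d 1 + N * N * d 2 < N * N * N := lt_aux a2 h2
  have a4 : d 0 + N * d 1 + N * N * d 2 + N * N * N * d 3 < N * N * N * N := lt_aux a3 h3
  rw [Fin.sum_univ_five]
  have e0 : d 0 * N ^ ((0 : Fin 5) : ℕ) + d 1 * N ^ ((1 : Fin 5) : ℕ) + d 2 * N ^ ((2 : Fin 5) : ℕ)
      + d 3 * N ^ ((3 : Fin 5) : ℕ) + d 4 * N ^ ((4 : Fin 5) : ℕ) =
      d 0 + N * d 1 + N * N * d 2 + N * N * N * d 3 + N * N * N * N * d 4 := by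
    simp only [Fin.val_zero, Fin.val_one, Fin.val_two, show ((3 : Fin 5) : ℕ) = 3 from rfl,
      show ((4 : Fin 5) : ℕ) = 4 from rfl]
    ring
  rw [e0]
  fin_cases j
  · show (d 0 + N * d 1 + N * N * d 2 + N * N * N * d 3 + N * N * N * N * d 4) / N ^ 0 % N = d 0
    refine Eq.trans ?_ (dig_aux (A := 0) (B := 1)
      (R := d 1 + N * d 2 + N * N * d 3 + N * N * N * d 4) (by norm_num) h0)
    congr 2
    ring
  · show (d 0 + N * d 1 + N * N * d 2 + N * N * N * d 3 + N * N * N * N * d 4) / N ^ 1 % N = d 1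
    refine Eq.trans ?_ (dig_aux (A := d 0) (B := N) (R := d 2 + N * d 3 + N * N * d 4) a1 h1)
    congr 2 <;> ring
  · show (d 0 + N * d 1 + N * N * d 2 + N * N * N * d 3 + N * N * N * N * d 4) / N ^ 2 % N = d 2
    refine Eq.trans ?_ (dig_aux (A := d 0 + N * d 1) (B := N * N) (R := d 3 + N * d 4) a2 h2)
    congr 2 <;> ring
  · show (d 0 + N * d 1 + N * N * d 2 + N * N * N * d 3 + N * N * N * N * d 4) / N ^ 3 % N = d 3
    refine Eq.trans ?_ (dig_aux (A := d 0 + N * d 1 + N * N * d 2) (B := N * N * N)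
      (R := d 4) a3 h3)
    congr 2 <;> ring
  · show (d 0 + N * d 1 + N * N * d 2 + N * N * N * d 3 + N * N * N * N * d 4) / N ^ 4 % N = d 4
    refine Eq.trans ?_ (dig_aux (A := d 0 + N * d 1 + N * N * d 2 + N * N * N * d 3)
      (B := N * N * N * N) (R := 0) a4 h4)
    congr 2
    ring

theorem toNat_mod_lt {N : ℕ} (hN : 0 < N) (a : ℤ) : (a % (N : ℤ)).toNat < N := by
  have h1 : 0 ≤ a % (N : ℤ) := Int.emod_nonneg _ (by omega)
  have h2 : a % (N : ℤ) < N := Int.emod_lt_of_pos _ (by omega)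
  omega

theorem digit_code {N : ℕ} (hN : 0 < N) (u : Fin 5 → ℤ) (j : Fin 5) :
    code N u / N ^ (j : ℕ) % N = (u j % (N : ℤ)).toNat :=
  digit_sum (fun i => (u i % (N : ℤ)).toNat) (fun i => toNat_mod_lt hN (u i)) j

theorem digit_code' {N : ℕ} (hN : 0 < N) (u : Fin 5 → ℤ) (j : Fin 5) :
    ((code N u / N ^ (j : ℕ) % N : ℕ) : ℤ) = u j % (N : ℤ) := by
  rw [digit_code hN, Int.toNat_of_nonneg (Int.emod_nonneg _ (by omega))]

theorem code_congr {N : ℕ} {u v : Fin 5 → ℤ} (h : ∀ i, u i % (N : ℤ) = v i % (N : ℤ)) :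
    code N u = code N v := by
  unfold code
  exact Finset.sum_congr rfl fun i _ => by rw [h i]

theorem mod_eq_of_code_eq {N : ℕ} (hN : 0 < N) {u v : Fin 5 → ℤ} (h : code N u = code N v)
    (i : Fin 5) : u i % (N : ℤ) = v i % (N : ℤ) := by
  rw [← digit_code' hN u i, ← digit_code' hN v i, h]

theorem code_lt {N : ℕ} (hN : 0 < N) (u : Fin 5 → ℤ) : code N u < N ^ 5 := by
  have h := fun i => toNat_mod_lt hN (u i)
  have a1 := h 0
  have a2 := lt_aux a1 (h 1)
  have a3 := lt_aux a2 (h 2)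
  have a4 := lt_aux a3 (h 3)
  have a5 := lt_aux a4 (h 4)
  unfold code
  rw [Fin.sum_univ_five]
  simp only [Fin.val_zero, Fin.val_one, Fin.val_two, show ((3 : Fin 5) : ℕ) = 3 from rfl,
      show ((4 : Fin 5) : ℕ) = 4 from rfl]
  nlinarith [a5]

/-- the digits of a number -/
def dig (N c : ℕ) : Fin 5 → ℤ := fun i => ((c / N ^ (i : ℕ) % N : ℕ) : ℤ)

theorem code_dig {N c : ℕ} (hc : c < N ^ 5) : code N (dig N c) = c := by
  have h0 : ∀ i : Fin 5, (dig N c i % (N : ℤ)).toNat = c / N ^ (i : ℕ) % N := by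
    intro i
    unfold dig
    rw [← Int.natCast_mod, Int.toNat_natCast, Nat.mod_mod]
  unfold code
  simp only [h0]
  rw [Fin.sum_univ_five]
  simp only [Fin.val_zero, Fin.val_one, Fin.val_two, show ((3 : Fin 5) : ℕ) = 3 from rfl,
      show ((4 : Fin 5) : ℕ) = 4 from rfl]
  have e1 : c / N ^ 1 = c / N := by rw [pow_one]
  have e2 : c / N ^ 2 = c / N / N := by rw [Nat.div_div_eq_div_mul, pow_two]
  have e3 : c / N ^ 3 = c / N / N / N := by
    rw [Nat.div_div_eq_div_mul, Nat.div_div_eq_div_mul]; congr 1; ring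
  have e4 : c / N ^ 4 = c / N / N / N / N := by
    rw [Nat.div_div_eq_div_mul, Nat.div_div_eq_div_mul, Nat.div_div_eq_div_mul]; congr 1; ring
  have e5 : c / N / N / N / N / N = 0 := by
    rw [Nat.div_div_eq_div_mul, Nat.div_div_eq_div_mul, Nat.div_div_eq_div_mul,
      Nat.div_div_eq_div_mul]
    apply Nat.div_eq_of_lt
    calc c < N ^ 5 := hc
      _ = _ := by ring
  rw [pow_zero, Nat.div_one, e1, e2, e3, e4]
  have f1 := Nat.div_add_mod c N
  have f2 := Nat.div_add_mod (c / N) N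
  have f3 := Nat.div_add_mod (c / N / N) N
  have f4 := Nat.div_add_mod (c / N / N / N) N
  have f5 := Nat.div_add_mod (c / N / N / N / N) N
  rw [e5] at f5
  generalize c / N / N / N / N = q4 at *
  generalize c / N / N / N = q3 at *
  generalize c / N / N = q2 at *
  generalize c / N = q1 at *
  have g5 : q4 % N = q4 := by omega
  calc c % N * 1 + q1 % N * N ^ 1 + q2 % N * N ^ 2 + q3 % N * N ^ 3 + q4 % N * N ^ 4
      = N * (N * (N * (N * (q4 % N) + q3 % N) + q2 % N) + q1 % N) + c % N := by ring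
    _ = c := by rw [g5, f4, f3, f2, f1]

theorem code_update {N : ℕ} (u : Fin 5 → ℤ) (j : Fin 5) (a : ℤ) :
    code N (Function.update u j a) + (u j % (N : ℤ)).toNat * N ^ (j : ℕ) =
      code N u + (a % (N : ℤ)).toNat * N ^ (j : ℕ) := by
  unfold code
  rw [← Finset.add_sum_erase Finset.univ _ (Finset.mem_univ j),
    ← Finset.add_sum_erase Finset.univ (fun i => (u i % (N : ℤ)).toNat * N ^ (i : ℕ))
      (Finset.mem_univ j)]
  have h : ∑ x ∈ Finset.univ.erase j, (Function.update u j a x % (N : ℤ)).toNat * N ^ (x : ℕ) =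
      ∑ x ∈ Finset.univ.erase j, (u x % (N : ℤ)).toNat * N ^ (x : ℕ) := by
    refine Finset.sum_congr rfl fun x hx => ?_
    rw [Function.update_of_ne (Finset.ne_of_mem_erase hx)]
  rw [h, Function.update_self]
  ring

theorem nx_code {N : ℕ} (hN : 0 < N) (u : Fin 5 → ℤ) (j : Fin 5) :
    nx N j (code N u) = code N (Function.update u j (u j + 1)) := by
  have h := code_update (N := N) u j (u j + 1)
  have hr1 : 0 ≤ u j % (N : ℤ) := Int.emod_nonneg _ (by omega)
  have hr2 : u j % (N : ℤ) < N := Int.emod_lt_of_pos _ (by omega)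
  have hr3 : (u j + 1) % (N : ℤ) = (u j % (N : ℤ) + 1) % (N : ℤ) := by
    rw [Int.emod_add_emod]
  unfold nx
  rw [digit_code hN]
  split_ifs with h1
  · have h2 : (u j + 1) % (N : ℤ) = 0 := by
      rw [hr3, show u j % (N : ℤ) + 1 = N by omega, Int.emod_self]
    rw [h1, h2] at h
    simp only [Int.toNat_zero, zero_mul, add_zero] at h
    omega
  · have h2 : (u j + 1) % (N : ℤ) = u j % (N : ℤ) + 1 := by
      rw [hr3]
      apply Int.emod_eq_of_lt <;> omega
    have h3 : ((u j + 1) % (N : ℤ)).toNat = (u j % (N : ℤ)).toNat + 1 := by omega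
    rw [h3, add_mul, one_mul] at h
    omega

theorem pd_code {N : ℕ} (hN : 0 < N) (u : Fin 5 → ℤ) (j : Fin 5) :
    pd N j (code N u) = code N (Function.update u j (u j - 1)) := by
  have h := code_update (N := N) u j (u j - 1)
  have hr1 : 0 ≤ u j % (N : ℤ) := Int.emod_nonneg _ (by omega)
  have hr2 : u j % (N : ℤ) < N := Int.emod_lt_of_pos _ (by omega)
  have hr3 : (u j - 1) % (N : ℤ) = (u j % (N : ℤ) - 1) % (N : ℤ) := by
    rw [Int.emod_sub_emod]
  unfold pd
  rw [digit_code hN]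
  split_ifs with h1
  · have h2 : (u j - 1) % (N : ℤ) = N - 1 := by
      rw [hr3, show u j % (N : ℤ) - 1 = (N - 1 : ℤ) - N by omega, Int.sub_emod_right]
      apply Int.emod_eq_of_lt <;> omega
    have h3 : ((u j - 1) % (N : ℤ)).toNat = N - 1 := by omega
    rw [h1, h3] at h
    simp only [zero_mul, add_zero] at h
    exact h.symm
  · have h2 : (u j - 1) % (N : ℤ) = u j % (N : ℤ) - 1 := by
      rw [hr3]
      apply Int.emod_eq_of_lt <;> omega
    have h3 : (u j % (N : ℤ)).toNat = ((u j - 1) % (N : ℤ)).toNat + 1 := by omega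
    rw [h3, add_mul, one_mul] at h
    omega

/-- the cell of the unit interval with lower end `m` -/
def cell1 (n : ℕ) (m : ℤ) : C1 n :=
  if m % 3 = 0 then (((m / 3 : ℤ) : ZMod n), false)
  else if m % 3 = 1 then (((m / 3 : ℤ) : ZMod n), true) else (((m / 3 + 1 : ℤ) : ZMod n), false)

theorem cubeCell_code {n : ℕ} (hn : 0 < n) (u : Fin 5 → ℤ) :
    cubeCell n (code (3 * n) u) = fun i => cell1 n (u i) := by
  funext i
  unfold cubeCell cell1
  simp only
  rw [digit_code (by omega)]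
  have hr1 : 0 ≤ u i % ((3 * n : ℕ) : ℤ) := Int.emod_nonneg _ (by omega)
  obtain ⟨q, hq⟩ : ∃ q : ℕ, (q : ℤ) = u i % ((3 * n : ℕ) : ℤ) :=
    ⟨_, Int.toNat_of_nonneg hr1⟩
  have hk := Int.mul_ediv_add_emod (u i) ((3 * n : ℕ) : ℤ)
  rw [← hq] at hk ⊢
  rw [Int.toNat_natCast]
  generalize u i / ((3 * n : ℕ) : ℤ) = k at hk
  have hk' : u i = 3 * (n * k) + q := by rw [← hk]; push_cast; ring
  have h3 : u i / 3 = n * k + (q / 3 : ℕ) := by rw [hk']; omega
  have h4 : u i % 3 = (q % 3 : ℕ) := by rw [hk']; omega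
  have h5 : ((u i / 3 : ℤ) : ZMod n) = ((q / 3 : ℕ) : ZMod n) := by
    rw [h3, Int.cast_add, Int.cast_mul, Int.cast_natCast, ZMod.natCast_self, zero_mul, zero_add,
      Int.cast_natCast]
  have h6 : ((u i / 3 + 1 : ℤ) : ZMod n) = ((q / 3 + 1 : ℕ) : ZMod n) := by
    rw [h3, Int.cast_add, Int.cast_add, Int.cast_mul, Int.cast_natCast, ZMod.natCast_self,
      zero_mul, zero_add, Int.cast_natCast, Nat.cast_add, Int.cast_one, Nat.cast_one]
  rw [h5, h6, h4]
  by_cases c0 : q % 3 = 0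
  · simp [c0]
  · by_cases c1 : q % 3 = 1
    · simp [c1]
    · have e0 : ¬ ((q % 3 : ℕ) : ℤ) = 0 := by omega
      have e1 : ¬ ((q % 3 : ℕ) : ℤ) = 1 := by omega
      rw [if_neg c0, if_neg c1, if_neg e0, if_neg e1]

/-! ### chains -/

/-- the vertices of the Kuhn simplex with lower corner `u` and order of directions `σ` -/
def wt (σ : Equiv.Perm (Fin 5)) (u : Fin 5 → ℤ) (j : ℕ) : Fin 5 → ℤ :=
  fun i => u i + if (σ.symm i : ℕ) < j then 1 else 0

theorem wt_zero (σ : Equiv.Perm (Fin 5)) (u : Fin 5 → ℤ) : wt σ u 0 = u := by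
  funext i
  simp [wt]

theorem wt_succ (σ : Equiv.Perm (Fin 5)) (u : Fin 5 → ℤ) (j : Fin 5) :
    Function.update (wt σ u j) (σ j) (wt σ u j (σ j) + 1) = wt σ u ((j : ℕ) + 1) := by
  funext i
  by_cases h : i = σ j
  · subst h
    rw [Function.update_self]
    simp [wt]
  · rw [Function.update_of_ne h]
    unfold wt
    have h1 : σ.symm i ≠ j := by
      intro h1
      apply h
      rw [← h1]
      simp
    have h2 : (σ.symm i : ℕ) ≠ (j : ℕ) := fun h3 => h1 (Fin.ext h3)
    by_cases h3 : (σ.symm i : ℕ) < j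
    · rw [if_pos h3, if_pos (by omega)]
    · rw [if_neg h3, if_neg (by omega)]

theorem nx_wt {N : ℕ} (hN : 0 < N) (σ : Equiv.Perm (Fin 5)) (u : Fin 5 → ℤ) (j : Fin 5) :
    nx N (σ j) (code N (wt σ u j)) = code N (wt σ u ((j : ℕ) + 1)) := by
  rw [nx_code hN, wt_succ]

theorem chain_wt {N : ℕ} (hN : 0 < N) (σ : Equiv.Perm (Fin 5)) (u : Fin 5 → ℤ) :
    chain N (code N u) [(σ 0 : ℕ), σ 1, σ 2, σ 3] =
      [code N (wt σ u 0), code N (wt σ u 1), code N (wt σ u 2), code N (wt σ u 3),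
        code N (wt σ u 4)] := by
  have h0 := nx_wt hN σ u 0
  have h1 := nx_wt hN σ u 1
  have h2 := nx_wt hN σ u 2
  have h3 := nx_wt hN σ u 3
  simp only [Fin.val_zero, Fin.val_one, Fin.val_two, show ((3 : Fin 5) : ℕ) = 3 from rfl,
    Nat.reduceAdd, zero_add] at h0 h1 h2 h3
  rw [wt_zero] at h0
  simp only [chain]
  rw [h0, h1, h2, h3, wt_zero]

/-- the vertices of a Kuhn simplex are different -/
theorem wt_inj {N : ℕ} (hN : 1 < N) (σ : Equiv.Perm (Fin 5)) (u : Fin 5 → ℤ) {j k : ℕ}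
    (hk : k ≤ 5) (hjk : j < k) : code N (wt σ u j) ≠ code N (wt σ u k) := by
  intro h
  have h1 := mod_eq_of_code_eq (by omega) h (σ ⟨j, by omega⟩)
  simp only [wt, Equiv.symm_apply_apply, lt_irrefl, if_false, hjk, if_true, add_zero] at h1
  have h2 : ((N : ℤ)) ∣ 1 := by
    have := Int.emod_emod_of_dvd
    have h3 := Int.emod_eq_emod_iff_emod_sub_eq_zero.mp h1.symm
    rw [add_sub_cancel_left] at h3
    exact Int.dvd_of_emod_eq_zero h3
  have h4 := Int.le_of_dvd one_pos h2
  omega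

theorem wt_inj' {N : ℕ} (hN : 1 < N) (σ : Equiv.Perm (Fin 5)) (u : Fin 5 → ℤ) {j k : ℕ}
    (hj : j ≤ 5) (hk : k ≤ 5) (h : code N (wt σ u j) = code N (wt σ u k)) : j = k := by
  rcases lt_trichotomy j k with h1 | h1 | h1
  · exact absurd h (wt_inj hN σ u hk h1)
  · exact h1
  · exact absurd h.symm (wt_inj hN σ u hj h1)

/-! ### functions on the circle -/

section circ

variable {n : ℕ} [NeZero n]

theorem norm_small {x : ℝ} (hx : |x| ≤ 3 * (n : ℝ) / 2) : ‖(x : Circ n)‖ = |x| := by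
  have hn : (0 : ℝ) < 3 * n := by have := NeZero.pos n; positivity
  rw [AddCircle.norm_coe_eq_abs_iff _ hn.ne', abs_of_pos hn]
  exact hx

theorem norm_mid {x : ℝ} (h0 : 0 ≤ x) (h1 : x ≤ 3 * (n : ℝ)) :
    ‖(x : Circ n)‖ = min x (3 * n - x) := by
  by_cases h : x ≤ 3 * (n : ℝ) / 2
  · rw [norm_small (by rwa [abs_of_nonneg h0]), abs_of_nonneg h0, min_eq_left (by linarith)]
  · push Not at h
    have e : (x : Circ n) = ((x - 3 * n : ℝ) : Circ n) := by
      rw [AddCircle.coe_sub, AddCircle.coe_period, sub_zero]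
    rw [e, norm_small (by rw [abs_of_nonpos (by linarith)]; linarith),
      abs_of_nonpos (by linarith), min_eq_right (by linarith)]
    ring

/-- positive part -/
noncomputable def posC (z : Circ n) : ℝ := (‖z‖ + ‖z + ((1 : ℝ) : Circ n)‖ - 1) / 2
/-- negative part -/
noncomputable def negC (z : Circ n) : ℝ := (‖z‖ + ‖z - ((1 : ℝ) : Circ n)‖ - 1) / 2

theorem posC_coe (hn : 3 ≤ n) {x : ℝ} (h0 : -1 ≤ x) (h1 : x ≤ 1) :
    posC (x : Circ n) = max x 0 := by
  have hn' : (3 : ℝ) ≤ n := by exact_mod_cast hn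
  unfold posC
  rw [← AddCircle.coe_add, norm_small (abs_le.mpr ⟨by linarith, by linarith⟩),
    norm_small (abs_le.mpr ⟨by linarith, by linarith⟩), abs_of_nonneg (by linarith : 0 ≤ x + 1)]
  rcases le_total x 0 with h | h
  · rw [abs_of_nonpos h, max_eq_right h]; ring
  · rw [abs_of_nonneg h, max_eq_left h]; ring

theorem negC_coe (hn : 3 ≤ n) {x : ℝ} (h0 : -1 ≤ x) (h1 : x ≤ 1) :
    negC (x : Circ n) = max (-x) 0 := by
  have hn' : (3 : ℝ) ≤ n := by exact_mod_cast hn
  unfold negC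
  rw [← AddCircle.coe_sub, norm_small (abs_le.mpr ⟨by linarith, by linarith⟩),
    norm_small (abs_le.mpr ⟨by linarith, by linarith⟩), abs_of_nonpos (by linarith : x - 1 ≤ 0)]
  rcases le_total x 0 with h | h
  · rw [abs_of_nonpos h, max_eq_left (by linarith)]; ring
  · rw [abs_of_nonneg h, max_eq_right (by linarith)]; ring

theorem pos_neg_far (hn : 3 ≤ n) {x : ℝ} (h0 : 1 ≤ x) (h1 : x ≤ 3 * (n : ℝ) - 1) :
    1 ≤ posC (x : Circ n) + negC (x : Circ n) := by
  have hn' : (3 : ℝ) ≤ n := by exact_mod_cast hn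
  unfold posC negC
  rw [← AddCircle.coe_add, ← AddCircle.coe_sub, norm_mid (by linarith) (by linarith),
    norm_mid (by linarith) (by linarith), norm_mid (by linarith) (by linarith)]
  rcases min_choice x (3 * (n : ℝ) - x) with e1 | e1 <;>
  rcases min_choice (x + 1) (3 * (n : ℝ) - (x + 1)) with e2 | e2 <;>
  rcases min_choice (x - 1) (3 * (n : ℝ) - (x - 1)) with e3 | e3 <;>
  rw [e1, e2, e3] <;> linarith

omit [NeZero n] in
theorem continuous_posC : Continuous (posC (n := n)) := by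
  unfold posC
  fun_prop

omit [NeZero n] in
theorem continuous_negC : Continuous (negC (n := n)) := by
  unfold negC
  fun_prop

/-- the Kuhn hat function -/
noncomputable def hat (z : Tor n) : ℝ :=
  max 0 (1 - Finset.univ.sup' ⟨0, Finset.mem_univ 0⟩ (fun i => posC (z i)) -
    Finset.univ.sup' ⟨0, Finset.mem_univ 0⟩ (fun i => negC (z i)))

omit [NeZero n] in
theorem continuous_hat : Continuous (hat (n := n)) := by
  unfold hat
  refine continuous_const.max ((continuous_const.sub ?_).sub ?_)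
  · exact Continuous.finset_sup'_apply _ fun i _ => continuous_posC.comp (continuous_apply i)
  · exact Continuous.finset_sup'_apply _ fun i _ => continuous_negC.comp (continuous_apply i)

omit [NeZero n] in
theorem hat_nonneg (z : Tor n) : 0 ≤ hat z := le_max_left _ _

omit [NeZero n] in
theorem lt_one_of_hat {z : Tor n} (h : hat z ≠ 0) (i k : Fin 5) :
    posC (z i) + negC (z k) < 1 := by
  have h1 : 0 < hat z := lt_of_le_of_ne (hat_nonneg z) (Ne.symm h)
  unfold hat at h1
  rw [lt_max_iff] at h1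
  rcases h1 with h1 | h1
  · exact absurd h1 (lt_irrefl _)
  · have h2 := Finset.le_sup' (fun i => posC (z i)) (Finset.mem_univ i)
    have h3 := Finset.le_sup' (fun i => negC (z i)) (Finset.mem_univ k)
    linarith

omit [NeZero n] in
theorem hat_eq {z : Tor n} {a b : ℝ} (ha : ∀ i, posC (z i) ≤ a) (ha' : ∃ i, posC (z i) = a)
    (hb : ∀ i, negC (z i) ≤ b) (hb' : ∃ i, negC (z i) = b) (hab : a + b ≤ 1) :
    hat z = 1 - a - b := by
  have h1 : Finset.univ.sup' ⟨0, Finset.mem_univ 0⟩ (fun i => posC (z i)) = a := by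
    apply le_antisymm
    · exact Finset.sup'_le _ _ fun i _ => ha i
    · obtain ⟨i, hi⟩ := ha'
      rw [← hi]
      exact Finset.le_sup' (fun i => posC (z i)) (Finset.mem_univ i)
  have h2 : Finset.univ.sup' ⟨0, Finset.mem_univ 0⟩ (fun i => negC (z i)) = b := by
    apply le_antisymm
    · exact Finset.sup'_le _ _ fun i _ => hb i
    · obtain ⟨i, hi⟩ := hb'
      rw [← hi]
      exact Finset.le_sup' (fun i => negC (z i)) (Finset.mem_univ i)
  unfold hat
  rw [h1, h2]
  exact max_eq_right (by linarith)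

/-- the barycentric coordinates -/
noncomputable def B (q : Tor n) (c : ℕ) : ℝ :=
  if c < (3 * n) ^ 5 then hat (pt n (fun i => (dig (3 * n) c i : ℝ)) - q) else 0

omit [NeZero n] in
theorem continuous_B : Continuous (B (n := n)) := by
  refine continuous_pi fun c => ?_
  unfold B
  split_ifs
  · have h : Continuous fun q : Tor n => pt n (fun i => (dig (3 * n) c i : ℝ)) - q :=
      continuous_pi fun i => continuous_const.sub (continuous_apply i)
    exact continuous_hat.comp h
  · exact continuous_const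

omit [NeZero n] in
theorem B_nonneg (q : Tor n) (c : ℕ) : 0 ≤ B q c := by
  unfold B
  split_ifs
  · exact hat_nonneg _
  · exact le_rfl

omit [NeZero n] in
theorem coe_congr {a b : ℤ} (h : a % ((3 * n : ℕ) : ℤ) = b % ((3 * n : ℕ) : ℤ)) :
    ((a : ℝ) : Circ n) = ((b : ℝ) : Circ n) := by
  obtain ⟨k, hk⟩ := Int.dvd_of_emod_eq_zero (Int.emod_eq_emod_iff_emod_sub_eq_zero.mp h)
  have e : (a : ℝ) = b + (k : ℤ) • (3 * (n : ℝ)) := by
    have : a = b + ((3 * n : ℕ) : ℤ) * k := by linarith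
    rw [this]
    push_cast
    rw [zsmul_eq_mul]
    ring
  rw [e, AddCircle.coe_add, AddCircle.coe_zsmul, AddCircle.coe_period, smul_zero, add_zero]

theorem B_code (q : Tor n) (u : Fin 5 → ℤ) :
    B q (code (3 * n) u) = hat (pt n (fun i => (u i : ℝ)) - q) := by
  have hN : 0 < 3 * n := by have := NeZero.pos n; omega
  unfold B
  rw [if_pos (code_lt hN u)]
  congr 2
  funext i
  show (((dig (3 * n) (code (3 * n) u) i : ℤ) : ℝ) : Circ n) = ((u i : ℝ) : Circ n)
  apply coe_congr
  unfold dig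
  rw [digit_code' hN, Int.emod_emod_of_dvd _ (dvd_refl _)]

end circ


/-! ### Kuhn data -/

section kuhn

variable {n : ℕ} [NeZero n]

/-- the decreasing sequence of the coordinates -/
noncomputable def Gf (σ : Equiv.Perm (Fin 5)) (g : Fin 5 → ℝ) : ℕ → ℝ
  | 0 => 1
  | k + 1 => if h : k < 5 then g (σ ⟨k, h⟩) else 0

theorem Gf_symm (σ : Equiv.Perm (Fin 5)) (g : Fin 5 → ℝ) (i : Fin 5) :
    Gf σ g ((σ.symm i : ℕ) + 1) = g i := by
  simp [Gf]

theorem Gf_six (σ : Equiv.Perm (Fin 5)) (g : Fin 5 → ℝ) : Gf σ g 6 = 0 := by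
  simp [Gf]

theorem g_nonneg {σ : Equiv.Perm (Fin 5)} {g : Fin 5 → ℝ} (hG : Antitone (Gf σ g)) (i : Fin 5) :
    0 ≤ g i := by
  rw [← Gf_symm σ g i, ← Gf_six σ g]
  exact hG (by have := (σ.symm i).2; omega)

theorem g_le_one {σ : Equiv.Perm (Fin 5)} {g : Fin 5 → ℝ} (hG : Antitone (Gf σ g)) (i : Fin 5) :
    g i ≤ 1 := by
  rw [← Gf_symm σ g i]
  exact hG (Nat.zero_le _)

/-- the point with lower corner `u` and coordinates `g` -/
noncomputable def kp (n : ℕ) (u : Fin 5 → ℤ) (g : Fin 5 → ℝ) : Tor n :=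
  pt n fun i => (u i : ℝ) + g i

omit [NeZero n] in
theorem sub_kp (w u : Fin 5 → ℤ) (g : Fin 5 → ℝ) (i : Fin 5) :
    (pt n (fun i => (w i : ℝ)) - kp n u g) i = (((w i - u i : ℤ) : ℝ) - g i : ℝ) := by
  show ((w i : ℝ) : Circ n) - (((u i : ℝ) + g i : ℝ) : Circ n) = _
  rw [← AddCircle.coe_sub]
  congr 1
  push_cast
  ring

theorem B_wt (hn : 3 ≤ n) {σ : Equiv.Perm (Fin 5)} {g : Fin 5 → ℝ} (hG : Antitone (Gf σ g))
    (u : Fin 5 → ℤ) {j : ℕ} (hj : j ≤ 5) :
    B (kp n u g) (code (3 * n) (wt σ u j)) = Gf σ g j - Gf σ g (j + 1) := by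
  rw [B_code]
  have hpos : ∀ i, posC ((pt n (fun i => ((wt σ u j) i : ℝ)) - kp n u g) i) =
      if (σ.symm i : ℕ) < j then 1 - g i else 0 := by
    intro i
    have h0 := g_nonneg hG i
    have h1 := g_le_one hG i
    rw [sub_kp]
    unfold wt
    split_ifs with h
    · rw [show u i + 1 - u i = 1 by ring, Int.cast_one,
        posC_coe hn (by linarith) (by linarith), max_eq_left (by linarith)]
    · rw [show u i + 0 - u i = 0 by ring, Int.cast_zero,
        posC_coe hn (by linarith) (by linarith), max_eq_right (by linarith)]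
  have hneg : ∀ i, negC ((pt n (fun i => ((wt σ u j) i : ℝ)) - kp n u g) i) =
      if (σ.symm i : ℕ) < j then 0 else g i := by
    intro i
    have h0 := g_nonneg hG i
    have h1 := g_le_one hG i
    rw [sub_kp]
    unfold wt
    split_ifs with h
    · rw [show u i + 1 - u i = 1 by ring, Int.cast_one,
        negC_coe hn (by linarith) (by linarith), max_eq_right (by linarith)]
    · rw [show u i + 0 - u i = 0 by ring, Int.cast_zero,
        negC_coe hn (by linarith) (by linarith), max_eq_left (by linarith)]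
      ring
  have hj0 : Gf σ g j ≤ 1 := hG (Nat.zero_le j)
  have hj1 : 0 ≤ Gf σ g (j + 1) := by
    rw [← Gf_six σ g]
    exact hG (by omega)
  have hj2 : Gf σ g (j + 1) ≤ Gf σ g j := hG (by omega)
  rw [hat_eq (a := 1 - Gf σ g j) (b := Gf σ g (j + 1))]
  · ring
  · intro i
    rw [hpos]
    split_ifs with h
    · rw [← Gf_symm σ g i]
      have := hG (show (σ.symm i : ℕ) + 1 ≤ j by omega)
      linarith
    · linarith
  · rcases Nat.eq_zero_or_pos j with h | h
    · refine ⟨0, ?_⟩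
      rw [hpos, h]
      simp [Gf]
    · refine ⟨σ ⟨j - 1, by omega⟩, ?_⟩
      rw [hpos, ← Gf_symm σ g (σ ⟨j - 1, by omega⟩)]
      simp only [Equiv.symm_apply_apply]
      rw [if_pos (by omega), show j - 1 + 1 = j by omega]
  · intro i
    rw [hneg]
    split_ifs with h
    · exact hj1
    · rw [← Gf_symm σ g i]
      exact hG (by omega)
  · rcases Nat.lt_or_ge j 5 with h | h
    · refine ⟨σ ⟨j, h⟩, ?_⟩
      rw [hneg, ← Gf_symm σ g (σ ⟨j, h⟩)]
      simp
    · refine ⟨0, ?_⟩
      have h5 : j = 5 := by omega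
      rw [hneg, h5, Gf_six, if_pos (by have := (σ.symm 0).2; omega)]
  · linarith

theorem B_off (hn : 3 ≤ n) {σ : Equiv.Perm (Fin 5)} {g : Fin 5 → ℝ} (hG : Antitone (Gf σ g))
    (u : Fin 5 → ℤ) {c : ℕ} (hc : B (kp n u g) c ≠ 0) :
    ∃ j ≤ 5, c = code (3 * n) (wt σ u j) := by
  have hN : 0 < 3 * n := by omega
  have hn' : (3 : ℝ) ≤ n := by exact_mod_cast hn
  have hc5 : c < (3 * n) ^ 5 := by
    by_contra h
    apply hc
    unfold B
    rw [if_neg h]
  -- residues
  let s : Fin 5 → ℤ := fun i => (dig (3 * n) c i - u i) % ((3 * n : ℕ) : ℤ)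
  have hs0 : ∀ i, 0 ≤ s i := fun i => Int.emod_nonneg _ (by omega)
  have hs1 : ∀ i, s i < (3 * n : ℕ) := fun i => Int.emod_lt_of_pos _ (by omega)
  have hcw : c = code (3 * n) (fun i => u i + s i) := by
    nth_rewrite 1 [← code_dig hc5]
    apply code_congr
    intro i
    show dig (3 * n) c i % _ = (u i + (dig (3 * n) c i - u i) % _) % _
    rw [Int.add_emod_emod]
    congr 1
    ring
  rw [hcw, B_code] at hc
  have hz : ∀ i, (pt n (fun i => ((u i + s i : ℤ) : ℝ)) - kp n u g) i = ((s i : ℝ) - g i : ℝ) := by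
    intro i
    rw [sub_kp]
    congr 2
    push_cast
    ring
  have hlt := lt_one_of_hat hc
  have hs : ∀ i, s i = 0 ∨ s i = 1 := by
    intro i
    by_contra h
    push Not at h
    have h2 : 2 ≤ s i := by have := hs0 i; omega
    have h3 : s i ≤ 3 * n - 1 := by have := hs1 i; omega
    have h2' : (2 : ℝ) ≤ s i := by exact_mod_cast h2
    have h3' : (s i : ℝ) ≤ 3 * n - 1 := by exact_mod_cast h3
    have := hlt i i
    rw [hz] at this
    have h4 := g_nonneg hG i
    have h5 := g_le_one hG i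
    have := pos_neg_far hn (x := (s i : ℝ) - g i) (by linarith) (by linarith)
    linarith
  have hlt' : ∀ i k, s i = 1 → s k = 0 → (σ.symm i : ℕ) < σ.symm k := by
    intro i k hi hk
    have h1 := hlt i k
    rw [hz, hz, hi, hk, Int.cast_one, Int.cast_zero] at h1
    have h4 := g_nonneg hG i
    have h5 := g_le_one hG i
    have h6 := g_nonneg hG k
    have h7 := g_le_one hG k
    rw [posC_coe hn (by linarith) (by linarith), negC_coe hn (by linarith) (by linarith),
      max_eq_left (by linarith), max_eq_left (by linarith)] at h1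
    by_contra h
    push Not at h
    have h8 := hG (show (σ.symm k : ℕ) + 1 ≤ (σ.symm i : ℕ) + 1 by omega)
    rw [Gf_symm, Gf_symm] at h8
    linarith
  -- the first index not in the set
  have hex : ∃ j : ℕ, ∀ h : j < 5, s (σ ⟨j, h⟩) = 0 := ⟨5, fun h => absurd h (lt_irrefl _)⟩
  classical
  let j := Nat.find hex
  have hj : j ≤ 5 := Nat.find_min' hex fun h => absurd h (lt_irrefl _)
  have hj1 : ∀ h : j < 5, s (σ ⟨j, h⟩) = 0 := Nat.find_spec hex
  have hj2 : ∀ k (h : k < 5), k < j → s (σ ⟨k, h⟩) = 1 := by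
    intro k h hk
    have := Nat.find_min hex hk
    push Not at this
    obtain ⟨_, h2⟩ := this
    rcases hs (σ ⟨k, h⟩) with h3 | h3
    · exact absurd h3 h2
    · exact h3
  refine ⟨j, hj, ?_⟩
  rw [hcw]
  congr 1
  funext i
  unfold wt
  congr 1
  split_ifs with h
  · have := hj2 (σ.symm i) (σ.symm i).2 h
    simpa using this
  · rcases hs i with h1 | h1
    · exact h1
    · exfalso
      have h5 : j < 5 := by have := (σ.symm i).2; omega
      have h6 := hlt' i (σ ⟨j, h5⟩) h1 (hj1 h5)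
      rw [Equiv.symm_apply_apply] at h6
      exact h h6

end kuhn


/-! ### sorting -/

theorem sort_gen (g h : Fin 5 → ℝ) (h0 : ∀ i, 0 ≤ g i) (h1 : ∀ i, g i ≤ 1)
    (hgh : ∀ a b, h a ≤ h b → g b ≤ g a) :
    ∃ σ : Equiv.Perm (Fin 5), Antitone (Gf σ g) ∧ Monotone (h ∘ σ) := by
  refine ⟨Tuple.sort h, ?_, Tuple.monotone_sort h⟩
  have hm := Tuple.monotone_sort h
  apply antitone_nat_of_succ_le
  intro k
  rcases k with _ | k
  · simp only [Gf]
    split_ifs
    · exact h1 _
    · exact zero_le_one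
  · simp only [Gf]
    by_cases h5 : k + 1 < 5
    · rw [dif_pos h5, dif_pos (show k < 5 by omega)]
      apply hgh
      exact hm (show (⟨k, by omega⟩ : Fin 5) ≤ ⟨k + 1, h5⟩ from by
        show k ≤ k + 1
        omega)
    · rw [dif_neg h5]
      split_ifs
      · exact h0 _
      · exact le_rfl

theorem sort_any (g : Fin 5 → ℝ) (h0 : ∀ i, 0 ≤ g i) (h1 : ∀ i, g i ≤ 1) :
    ∃ σ : Equiv.Perm (Fin 5), Antitone (Gf σ g) := by
  obtain ⟨σ, h, _⟩ := sort_gen g (fun i => - g i) h0 h1 (fun a b h => by linarith)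
  exact ⟨σ, h⟩

theorem sort_last (g : Fin 5 → ℝ) (h0 : ∀ i, 0 ≤ g i) (h1 : ∀ i, g i ≤ 1) (i : Fin 5)
    (hi : g i = 0) : ∃ σ : Equiv.Perm (Fin 5), Antitone (Gf σ g) ∧ σ 4 = i := by
  obtain ⟨σ, h, hm⟩ := sort_gen g (fun k => if k = i then 1 else - g k) h0 h1 (by
    intro a b hab
    by_cases hb : b = i
    · rw [hb, hi]; exact h0 a
    · by_cases ha : a = i
      · simp only [ha, hb, if_true, if_false] at hab
        have := h0 b
        linarith
      · simp only [ha, hb, if_false] at hab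
        linarith)
  refine ⟨σ, h, ?_⟩
  by_contra h4
  have h5 : σ.symm i ≤ 4 := Fin.le_last _
  have h6 := hm h5
  simp only [Function.comp_apply, Equiv.apply_symm_apply, if_true, h4, if_false] at h6
  have := h0 (σ 4)
  linarith

/-! ### injectivity -/

section inj

variable {n : ℕ} [NeZero n]

theorem sum_B (hn : 3 ≤ n) {σ : Equiv.Perm (Fin 5)} {g : Fin 5 → ℝ} (hG : Antitone (Gf σ g))
    (u : Fin 5 → ℤ) (F : ℕ → ℝ) :
    ∑ c ∈ Finset.range ((3 * n) ^ 5), F c * B (kp n u g) c =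
      ∑ j ∈ Finset.range 6, F (code (3 * n) (wt σ u j)) * (Gf σ g j - Gf σ g (j + 1)) := by
  have h1 : ∑ j ∈ Finset.range 6, F (code (3 * n) (wt σ u j)) * (Gf σ g j - Gf σ g (j + 1)) =
      ∑ c ∈ (Finset.range 6).image (fun j => code (3 * n) (wt σ u j)),
        F c * B (kp n u g) c := by
    rw [Finset.sum_image]
    · refine Finset.sum_congr rfl fun j hj => ?_
      rw [Finset.mem_range] at hj
      rw [B_wt hn hG u (by omega)]
    · intro j hj k hk hjk
      rw [Finset.mem_coe, Finset.mem_range] at hj hk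
      exact wt_inj' (by omega) σ u (by omega) (by omega) hjk
  rw [h1]
  symm
  apply Finset.sum_subset
  · intro c hc
    rw [Finset.mem_image] at hc
    obtain ⟨j, _, rfl⟩ := hc
    rw [Finset.mem_range]
    exact code_lt (by omega) _
  · intro c _ hc
    have : B (kp n u g) c = 0 := by
      by_contra h
      obtain ⟨j, hj, hj'⟩ := B_off hn hG u h
      apply hc
      rw [Finset.mem_image]
      exact ⟨j, Finset.mem_range.mpr (by omega), hj'.symm⟩
    rw [this, mul_zero]

/-- the marginals of the barycentric coordinates -/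
noncomputable def Mg (q : Tor n) (i : Fin 5) (m : ℤ) : ℝ :=
  ∑ c ∈ Finset.range ((3 * n) ^ 5),
    (if dig (3 * n) c i = m % ((3 * n : ℕ) : ℤ) then 1 else 0) * B q c

theorem Mg_kp (hn : 3 ≤ n) {σ : Equiv.Perm (Fin 5)} {g : Fin 5 → ℝ} (hG : Antitone (Gf σ g))
    (u : Fin 5 → ℤ) (i : Fin 5) (m : ℤ) :
    Mg (kp n u g) i m =
      (if u i % ((3 * n : ℕ) : ℤ) = m % ((3 * n : ℕ) : ℤ) then 1 else 0) * (1 - g i) +
      (if (u i + 1) % ((3 * n : ℕ) : ℤ) = m % ((3 * n : ℕ) : ℤ) then 1 else 0) * g i := by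
  unfold Mg
  rw [sum_B hn hG u (fun c => if dig (3 * n) c i = m % ((3 * n : ℕ) : ℤ) then 1 else 0)]
  have hd : ∀ j, dig (3 * n) (code (3 * n) (wt σ u j)) i =
      (u i + if (σ.symm i : ℕ) < j then 1 else 0) % ((3 * n : ℕ) : ℤ) := by
    intro j
    unfold dig
    rw [digit_code' (by omega)]
    rfl
  simp only [hd]
  have h6 := Gf_six σ g
  have h0 : Gf σ g 0 = 1 := rfl
  have hi := Gf_symm σ g i
  have hAB : ∀ j, (if (u i + if (σ.symm i : ℕ) < j then 1 else 0) % ((3 * n : ℕ) : ℤ) =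
      m % ((3 * n : ℕ) : ℤ) then (1 : ℝ) else 0) =
      if (σ.symm i : ℕ) < j then
        (if (u i + 1) % ((3 * n : ℕ) : ℤ) = m % ((3 * n : ℕ) : ℤ) then (1 : ℝ) else 0)
      else (if u i % ((3 * n : ℕ) : ℤ) = m % ((3 * n : ℕ) : ℤ) then (1 : ℝ) else 0) := by
    intro j
    by_cases h : (σ.symm i : ℕ) < j
    · rw [if_pos h, if_pos h]
    · rw [if_neg h, if_neg h, add_zero]
  simp only [hAB]
  generalize (if u i % ((3 * n : ℕ) : ℤ) = m % ((3 * n : ℕ) : ℤ) then (1 : ℝ) else 0) = A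
  generalize (if (u i + 1) % ((3 * n : ℕ) : ℤ) = m % ((3 * n : ℕ) : ℤ) then (1 : ℝ) else 0) = C
  have hp5 : (σ.symm i : ℕ) < 5 := (σ.symm i).2
  generalize (σ.symm i : ℕ) = p at hi hp5 ⊢
  simp only [Finset.sum_range_succ, Finset.sum_range_zero]
  interval_cases p <;> norm_num at hi ⊢ <;>
    linear_combination A * h0 + (C - A) * hi - C * h6

end inj

/-! ### geometry of unit cubes -/

section geo

variable {n : ℕ} 

theorem cell1_zero (n : ℕ) (k : ℤ) : cell1 n (3 * k) = cst n (k, false) := by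
  unfold cell1 cst
  rw [if_pos (by omega), show 3 * k / 3 = k by omega]

theorem cell1_one (n : ℕ) (k : ℤ) : cell1 n (3 * k + 1) = cst n (k, true) := by
  unfold cell1 cst
  rw [if_neg (by omega), if_pos (by omega), show (3 * k + 1) / 3 = k by omega]

theorem cell1_two (n : ℕ) (k : ℤ) : cell1 n (3 * k + 2) = cst n (k + 1, false) := by
  unfold cell1 cst
  rw [if_neg (by omega), if_neg (by omega), show (3 * k + 2) / 3 = k by omega]

theorem mod3 (m : ℤ) : ∃ k, m = 3 * k ∨ m = 3 * k + 1 ∨ m = 3 * k + 2 :=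
  ⟨m / 3, by omega⟩

theorem face_unit (n : ℕ) {y : ℝ} {m : ℤ} (h0 : (m : ℝ) ≤ y) (h1 : y ≤ m + 1) :
    Face1 (lo 1 (y : Circ n)) (cell1 n m) ∧ Face1 (cell1 n m) (hi 1 (y : Circ n)) := by
  rw [lo_coe, hi_coe]
  obtain ⟨k, rfl | rfl | rfl⟩ := mod3 m
  · push_cast at h0 h1
    rw [cell1_zero, (loZ_false_iff (x := y) (k := k) zero_le_one (by norm_num)).mpr
      ⟨by linarith, by linarith⟩]
    refine ⟨Or.inl rfl, ?_⟩
    rcases lt_or_eq_of_le h1 with h2 | h2
    · rw [(hiZ_false_iff (x := y) (k := k) one_pos (by norm_num)).mpr ⟨by linarith, by linarith⟩]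
      exact Or.inl rfl
    · rw [(hiZ_true_iff (x := y) (k := k) one_pos (by norm_num)).mpr ⟨by linarith, by linarith⟩]
      exact Or.inr ⟨rfl, rfl, Or.inl rfl⟩
  · push_cast at h0 h1
    rw [cell1_one, (hiZ_true_iff (x := y) (k := k) one_pos (by norm_num)).mpr
      ⟨by linarith, by linarith⟩]
    refine ⟨?_, Or.inl rfl⟩
    rcases lt_or_eq_of_le h0 with h2 | h2
    · rcases lt_or_eq_of_le h1 with h3 | h3
      · rw [(loZ_true_iff (x := y) (k := k) zero_le_one (by norm_num)).mpr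
          ⟨by linarith, by linarith⟩]
        exact Or.inl rfl
      · rw [(loZ_false_iff (x := y) (k := k + 1) zero_le_one (by norm_num)).mpr
          ⟨by push_cast; linarith, by push_cast; linarith⟩]
        exact Or.inr ⟨rfl, rfl, Or.inr (by simp [cst])⟩
    · rw [(loZ_false_iff (x := y) (k := k) zero_le_one (by norm_num)).mpr
          ⟨by linarith, by linarith⟩]
      exact Or.inr ⟨rfl, rfl, Or.inl rfl⟩
  · push_cast at h0 h1
    rw [cell1_two, (loZ_false_iff (x := y) (k := k + 1) zero_le_one (by norm_num)).mpr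
      ⟨by push_cast; linarith, by push_cast; linarith⟩]
    refine ⟨Or.inl rfl, ?_⟩
    rcases lt_or_eq_of_le h0 with h2 | h2
    · rw [(hiZ_false_iff (x := y) (k := k + 1) one_pos (by norm_num)).mpr
        ⟨by push_cast; linarith, by push_cast; linarith⟩]
      exact Or.inl rfl
    · rw [(hiZ_true_iff (x := y) (k := k) one_pos (by norm_num)).mpr ⟨by linarith, by linarith⟩]
      exact Or.inr ⟨rfl, rfl, Or.inr (by simp [cst])⟩

theorem exists_unit (n : ℕ) (y : ℝ) : ∃ a b : ℤ, (a : ℝ) ≤ y ∧ y ≤ a + 1 ∧ (b : ℝ) ≤ y ∧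
    y ≤ b + 1 ∧ cell1 n a = lo 1 (y : Circ n) ∧ cell1 n b = hi 1 (y : Circ n) ∧
    (a = b ∨ (b = a + 1 ∧ y = b) ∨ (a = b + 1 ∧ y = a)) := by
  rw [lo_coe, hi_coe]
  have h0 : ((⌊y⌋ : ℤ) : ℝ) ≤ y := Int.floor_le y
  have h1 : y < ⌊y⌋ + 1 := Int.lt_floor_add_one y
  generalize ⌊y⌋ = m at h0 h1
  obtain ⟨k, rfl | rfl | rfl⟩ := mod3 m
  · refine ⟨3 * k, 3 * k, h0, h1.le, h0, h1.le, ?_, ?_, Or.inl rfl⟩ <;> push_cast at h0 h1
    · rw [cell1_zero, (loZ_false_iff (x := y) (k := k) zero_le_one (by norm_num)).mpr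
        ⟨by linarith, by linarith⟩]
    · rw [cell1_zero, (hiZ_false_iff (x := y) (k := k) one_pos (by norm_num)).mpr
        ⟨by linarith, by linarith⟩]
  · rcases lt_or_eq_of_le h0 with h2 | h2
    · refine ⟨3 * k + 1, 3 * k + 1, h0, h1.le, h0, h1.le, ?_, ?_, Or.inl rfl⟩ <;>
        push_cast at h0 h1 h2
      · rw [cell1_one, (loZ_true_iff (x := y) (k := k) zero_le_one (by norm_num)).mpr
          ⟨by linarith, by linarith⟩]
      · rw [cell1_one, (hiZ_true_iff (x := y) (k := k) one_pos (by norm_num)).mpr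
          ⟨by linarith, by linarith⟩]
    · refine ⟨3 * k, 3 * k + 1, ?_, ?_, h0, h1.le, ?_, ?_, Or.inr (Or.inl ⟨rfl, h2.symm⟩)⟩ <;>
        push_cast at h0 h1 h2 ⊢
      · linarith
      · linarith
      · rw [cell1_zero, (loZ_false_iff (x := y) (k := k) zero_le_one (by norm_num)).mpr
          ⟨by linarith, by linarith⟩]
      · rw [cell1_one, (hiZ_true_iff (x := y) (k := k) one_pos (by norm_num)).mpr
          ⟨by linarith, by linarith⟩]
  · rcases lt_or_eq_of_le h0 with h2 | h2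
    · refine ⟨3 * k + 2, 3 * k + 2, h0, h1.le, h0, h1.le, ?_, ?_, Or.inl rfl⟩ <;>
        push_cast at h0 h1 h2
      · rw [cell1_two, (loZ_false_iff (x := y) (k := k + 1) zero_le_one (by norm_num)).mpr
          ⟨by push_cast; linarith, by push_cast; linarith⟩]
      · rw [cell1_two, (hiZ_false_iff (x := y) (k := k + 1) one_pos (by norm_num)).mpr
          ⟨by push_cast; linarith, by push_cast; linarith⟩]
    · refine ⟨3 * k + 2, 3 * k + 1, h0, h1.le, ?_, ?_, ?_, ?_,
        Or.inr (Or.inr ⟨by ring, h2.symm⟩)⟩ <;> push_cast at h0 h1 h2 ⊢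
      · linarith
      · linarith
      · rw [cell1_two, (loZ_false_iff (x := y) (k := k + 1) zero_le_one (by norm_num)).mpr
          ⟨by push_cast; linarith, by push_cast; linarith⟩]
      · rw [cell1_one, (hiZ_true_iff (x := y) (k := k) one_pos (by norm_num)).mpr
          ⟨by linarith, by linarith⟩]

/-- the cell of a unit cube -/
def cel (n : ℕ) (u : Fin 5 → ℤ) : Cell n := fun i => cell1 n (u i)

theorem mem_X_of_cubes {K : Set (Cell n)} (hK : IsCx K) {y : Fin 5 → ℝ} {a b : Fin 5 → ℤ}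
    (ha : ∀ i, (a i : ℝ) ≤ y i ∧ y i ≤ a i + 1) (hb : ∀ i, (b i : ℝ) ≤ y i ∧ y i ≤ b i + 1)
    (haK : cel n a ∈ K) (hbK : cel n b ∉ K) : pt n y ∈ X K := by
  constructor
  · exact hK _ haK _ fun i => (face_unit n (ha i).1 (ha i).2).1
  · intro h
    exact hbK (hK _ h _ fun i => (face_unit n (hb i).1 (hb i).2).2)

theorem exists_facet {K : Set (Cell n)} {y : Fin 5 → ℝ} (hy : pt n y ∈ X K) :
    ∃ (i : Fin 5) (v : Fin 5 → ℤ), y i = v i ∧ (∀ k, (v k : ℝ) ≤ y k ∧ y k ≤ v k + 1) ∧
      (cel n v ∈ K ↔ cel n (Function.update v i (v i - 1)) ∉ K) := by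
  choose a b h1 h2 h3 h4 h5 h6 h7 using fun i => exists_unit n (y i)
  have hcK : cel n a ∈ K := by
    have : cel n a = Lo 1 (pt n y) := funext fun i => h5 i
    rw [this]; exact hy.1
  have hbK : cel n b ∉ K := by
    have : cel n b = Hi 1 (pt n y) := funext fun i => h6 i
    rw [this]; exact hy.2
  let c : ℕ → Fin 5 → ℤ := fun j k => if (k : ℕ) < j then b k else a k
  have hex : ∃ j : ℕ, cel n (c j) ∉ K := ⟨5, by
    have : c 5 = b := by
      funext k
      exact if_pos k.2
    rw [this]; exact hbK⟩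
  classical
  obtain ⟨j, hj⟩ : ∃ j, Nat.find hex = j := ⟨_, rfl⟩
  have hj1 : cel n (c j) ∉ K := hj ▸ Nat.find_spec hex
  have hj5 : j ≤ 5 := by
    rw [← hj]
    apply Nat.find_min' hex
    have : c 5 = b := by
      funext k
      exact if_pos k.2
    rw [this]; exact hbK
  have hj0 : j ≠ 0 := by
    rintro rfl
    apply hj1
    have : c 0 = a := by
      funext k
      exact if_neg (by omega)
    rw [this]; exact hcK
  obtain ⟨m, rfl⟩ : ∃ m, j = m + 1 := ⟨j - 1, by omega⟩
  have hm : cel n (c m) ∈ K := by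
    have := Nat.find_min hex (m := m) (by omega)
    push Not at this
    exact this
  let i : Fin 5 := ⟨m, by omega⟩
  have hup : c (m + 1) = Function.update (c m) i (b i) := by
    funext k
    by_cases hk : k = i
    · subst hk
      rw [Function.update_self]
      exact if_pos (by show m < m + 1; omega)
    · rw [Function.update_of_ne hk]
      have : (k : ℕ) ≠ m := fun h => hk (Fin.ext h)
      show (if (k : ℕ) < m + 1 then b k else a k) = if (k : ℕ) < m then b k else a k
      by_cases h : (k : ℕ) < m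
      · rw [if_pos h, if_pos (by omega)]
      · rw [if_neg h, if_neg (by omega)]
  have hci : c m i = a i := if_neg (by show ¬ m < m; omega)
  have hci' : c (m + 1) i = b i := if_pos (by show m < m + 1; omega)
  have hbd : ∀ j k, (c j k : ℝ) ≤ y k ∧ y k ≤ c j k + 1 := by
    intro j k
    by_cases h : (k : ℕ) < j
    · have e : c j k = b k := if_pos h
      rw [e]
      exact ⟨h3 k, h4 k⟩
    · have e : c j k = a k := if_neg h
      rw [e]
      exact ⟨h1 k, h2 k⟩
  rcases h7 i with h | ⟨h, h'⟩ | ⟨h, h'⟩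
  · exfalso
    apply hj1
    rw [hup, ← h, ← hci, Function.update_eq_self]
    exact hm
  · refine ⟨i, c (m + 1), by rw [hci']; exact h', hbd _, ?_⟩
    have e : Function.update (c (m + 1)) i (c (m + 1) i - 1) = c m := by
      rw [hci', hup, Function.update_idem, h, add_sub_cancel_right, ← hci,
        Function.update_eq_self]
    rw [e]
    exact ⟨fun h => absurd h hj1, fun h => absurd hm h⟩
  · refine ⟨i, c m, by rw [hci]; exact h', hbd _, ?_⟩
    have e : Function.update (c m) i (c m i - 1) = c (m + 1) := by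
      rw [hci, hup, h, add_sub_cancel_right]
    rw [e]
    exact ⟨fun _ => hj1, fun _ => hm⟩

end geo


/-! ### assembly -/

section assembly

variable {n : ℕ} [NeZero n]

omit [NeZero n] in
theorem exists_kp (q : Tor n) : ∃ (u : Fin 5 → ℤ) (g : Fin 5 → ℝ), (∀ i, 0 ≤ g i) ∧
    (∀ i, g i < 1) ∧ q = kp n u g := by
  obtain ⟨y, rfl⟩ := exists_pt q
  refine ⟨fun i => ⌊y i⌋, fun i => Int.fract (y i), fun i => Int.fract_nonneg _,
    fun i => Int.fract_lt_one _, ?_⟩
  unfold kp
  congr 1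
  funext i
  exact (Int.floor_add_fract (y i)).symm

omit [NeZero n] in
theorem not_congr_two (hn : 3 ≤ n) (a b : ℤ)
    (h : a % ((3 * n : ℕ) : ℤ) = (b + 1) % ((3 * n : ℕ) : ℤ)) :
    ¬ (a % ((3 * n : ℕ) : ℤ) = b % ((3 * n : ℕ) : ℤ)) ∧
    ¬ ((a + 1) % ((3 * n : ℕ) : ℤ) = b % ((3 * n : ℕ) : ℤ)) := by
  obtain ⟨k, hk⟩ := Int.dvd_of_emod_eq_zero (Int.emod_eq_emod_iff_emod_sub_eq_zero.mp h)
  constructor
  · intro h'
    obtain ⟨l, hl⟩ := Int.dvd_of_emod_eq_zero (Int.emod_eq_emod_iff_emod_sub_eq_zero.mp h')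
    have e : ((3 * n : ℕ) : ℤ) * (l - k) = 1 := by
      rw [mul_sub, ← hk, ← hl]; ring
    have := Int.le_of_dvd one_pos (Dvd.intro _ e)
    omega
  · intro h'
    obtain ⟨l, hl⟩ := Int.dvd_of_emod_eq_zero (Int.emod_eq_emod_iff_emod_sub_eq_zero.mp h')
    have e : ((3 * n : ℕ) : ℤ) * (l - k) = 2 := by
      rw [mul_sub, ← hk, ← hl]; ring
    have := Int.le_of_dvd two_pos (Dvd.intro _ e)
    omega

omit [NeZero n] in
theorem not_congr_one (hn : 3 ≤ n) (a : ℤ) :
    ¬ ((a + 1) % ((3 * n : ℕ) : ℤ) = a % ((3 * n : ℕ) : ℤ)) := by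
  intro h'
  obtain ⟨l, hl⟩ := Int.dvd_of_emod_eq_zero (Int.emod_eq_emod_iff_emod_sub_eq_zero.mp h')
  have e : ((3 * n : ℕ) : ℤ) * l = 1 := by
    rw [← hl]; ring
  have := Int.le_of_dvd one_pos (Dvd.intro _ e)
  omega

theorem B_injective (hn : 3 ≤ n) : Function.Injective (B (n := n)) := by
  intro q q' hqq
  obtain ⟨u, g, h0, h1, rfl⟩ := exists_kp q
  obtain ⟨v, k, h0', h1', rfl⟩ := exists_kp q'
  obtain ⟨σ, hσ⟩ := sort_any g h0 fun i => (h1 i).le
  obtain ⟨τ, hτ⟩ := sort_any k h0' fun i => (h1' i).le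
  funext i
  have hM : ∀ m, Mg (kp n u g) i m = Mg (kp n v k) i m := by
    intro m
    unfold Mg
    rw [hqq]
  have e1 := hM (u i)
  rw [Mg_kp hn hσ, Mg_kp hn hτ, if_pos rfl, if_neg (not_congr_one hn (u i))] at e1
  have e2 := hM (v i)
  rw [Mg_kp hn hσ, Mg_kp hn hτ, if_pos rfl, if_neg (not_congr_one hn (v i))] at e2
  have g0 := h0 i
  have g1 := h1 i
  have k0 := h0' i
  have k1 := h1' i
  by_cases c : v i % ((3 * n : ℕ) : ℤ) = u i % ((3 * n : ℕ) : ℤ)
  · rw [if_pos c] at e1
    have hne : ¬ ((v i + 1) % ((3 * n : ℕ) : ℤ) = u i % ((3 * n : ℕ) : ℤ)) := by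
      rw [← c]
      exact not_congr_one hn (v i)
    rw [if_neg hne] at e1
    have hgk : g i = k i := by linarith
    show (((u i : ℝ) + g i : ℝ) : Circ n) = (((v i : ℝ) + k i : ℝ) : Circ n)
    rw [AddCircle.coe_add, AddCircle.coe_add, hgk, coe_congr c]
  · exfalso
    rw [if_neg c] at e1
    split_ifs at e1 with c'
    · obtain ⟨d1, d2⟩ := not_congr_two hn (u i) (v i) c'.symm
      rw [if_neg d1, if_neg d2] at e2
      linarith
    · linarith

/-! #### the two inclusions -/

omit [NeZero n] in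
theorem chain_wt' (hn : 3 ≤ n) (σ : Equiv.Perm (Fin 5)) (u : Fin 5 → ℤ) :
    chain (3 * n) (code (3 * n) u) [(σ 0 : ℕ), σ 1, σ 2, σ 3] =
      (List.range 5).map fun j => code (3 * n) (wt σ u j) := by
  rw [chain_wt (by omega)]
  rfl

omit [NeZero n] in
theorem sum_chain (hn : 3 ≤ n) (σ : Equiv.Perm (Fin 5)) (u : Fin 5 → ℤ) (x : ℕ → ℝ) :
    ∑ c ∈ ((List.range 5).map fun j => code (3 * n) (wt σ u j)).toFinset, x c =
      ∑ j ∈ Finset.range 5, x (code (3 * n) (wt σ u j)) := by
  have e : ((List.range 5).map fun j => code (3 * n) (wt σ u j)).toFinset =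
      (Finset.range 5).image fun j => code (3 * n) (wt σ u j) := by
    ext c
    simp
  rw [e, Finset.sum_image]
  intro j hj k hk hjk
  rw [Finset.mem_coe, Finset.mem_range] at hj hk
  exact wt_inj' (by omega) σ u (by omega) (by omega) hjk

theorem perm_of_sigma (σ : Equiv.Perm (Fin 5)) :
    [(σ 0 : ℕ), (σ 1 : ℕ), (σ 2 : ℕ), (σ 3 : ℕ)] ∈ perms4 (σ 4 : ℕ) := by
  unfold perms4
  rw [List.mem_permutations]
  have hne : ∀ a b : Fin 5, a ≠ b → (σ a : ℕ) ≠ (σ b : ℕ) := fun a b hab h =>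
    hab (σ.injective (Fin.ext h))
  rw [List.perm_ext_iff_of_nodup]
  · intro a
    rw [List.Nodup.mem_erase_iff List.nodup_range, List.mem_range]
    constructor
    · intro h
      simp only [List.mem_cons, List.not_mem_nil, or_false] at h
      rcases h with rfl | rfl | rfl | rfl
      · exact ⟨hne 0 4 (by decide), (σ 0).2⟩
      · exact ⟨hne 1 4 (by decide), (σ 1).2⟩
      · exact ⟨hne 2 4 (by decide), (σ 2).2⟩
      · exact ⟨hne 3 4 (by decide), (σ 3).2⟩
    · rintro ⟨h1, h2⟩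
      obtain ⟨b, hb⟩ := σ.surjective ⟨a, h2⟩
      have hb' : (σ b : ℕ) = a := by rw [hb]
      simp only [List.mem_cons, List.not_mem_nil, or_false]
      fin_cases b
      · exact Or.inl hb'.symm
      · exact Or.inr (Or.inl hb'.symm)
      · exact Or.inr (Or.inr (Or.inl hb'.symm))
      · exact Or.inr (Or.inr (Or.inr hb'.symm))
      · exact absurd hb'.symm h1
  · simp only [List.nodup_cons, List.mem_cons, List.not_mem_nil, or_false, not_or, not_false_iff,
      List.nodup_nil, and_true]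
    exact ⟨⟨hne 0 1 (by decide), hne 0 2 (by decide), hne 0 3 (by decide)⟩,
      ⟨hne 1 2 (by decide), hne 1 3 (by decide)⟩, hne 2 3 (by decide)⟩
  · exact List.Nodup.erase _ List.nodup_range

theorem sigma_of_perm {i : ℕ} (hi : i < 5) {l : List ℕ} (hl : l ∈ perms4 i) :
    ∃ σ : Equiv.Perm (Fin 5), l = [(σ 0 : ℕ), (σ 1 : ℕ), (σ 2 : ℕ), (σ 3 : ℕ)] ∧
      (σ 4 : ℕ) = i := by
  unfold perms4 at hl
  rw [List.mem_permutations] at hl
  have hlen : l.length = 4 := by
    rw [hl.length_eq, List.length_erase_of_mem (List.mem_range.mpr hi), List.length_range]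
  have hnd : l.Nodup := hl.nodup_iff.mpr (List.Nodup.erase _ List.nodup_range)
  have hmem : ∀ a ∈ l, a ≠ i ∧ a < 5 := by
    intro a ha
    have := hl.mem_iff.mp ha
    rw [List.Nodup.mem_erase_iff List.nodup_range, List.mem_range] at this
    exact this
  match l, hlen, hnd, hmem with
  | [a, b, c, d], _, hnd, hmem =>
    simp only [List.nodup_cons, List.mem_cons, List.not_mem_nil, or_false, not_or, not_false_iff,
      List.nodup_nil, and_true] at hnd
    have ha := hmem a (by simp)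
    have hb := hmem b (by simp)
    have hc := hmem c (by simp)
    have hd := hmem d (by simp)
    let f : Fin 5 → Fin 5 := ![⟨a, ha.2⟩, ⟨b, hb.2⟩, ⟨c, hc.2⟩, ⟨d, hd.2⟩, ⟨i, hi⟩]
    have hf : Function.Injective f := by
      intro x y hxy
      fin_cases x <;> fin_cases y <;> first | rfl | (exfalso; simp [f] at hxy; omega)
    refine ⟨Equiv.ofBijective f (Finite.injective_iff_bijective.mp hf), ?_, ?_⟩
    · rfl
    · rfl

end assembly

end B5

theorem realization {n : ℕ} [NeZero n] (hn : 3 ≤ n) {K : Set (Cell n)} (hK : IsCx K)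
    (P : ℕ → Bool) (hP : ∀ e < (3 * n) ^ 5, (P e = true ↔ cubeCell n e ∈ K)) :
    Nonempty (Real (Tri (3 * n) P) ≃ₜ X K) := by
  have hN : 0 < 3 * n := by omega
  have hPc : ∀ u : Fin 5 → ℤ, (P (B5.code (3 * n) u) = true ↔ B5.cel n u ∈ K) := by
    intro u
    rw [hP _ (B5.code_lt hN u), B5.cubeCell_code (by omega)]
    rfl
  have himg : B5.B '' X K = Real (Tri (3 * n) P) := by
    ext x
    constructor
    · rintro ⟨q, hq, rfl⟩
      obtain ⟨y, rfl⟩ := exists_pt q
      obtain ⟨i, v, h1, h2, h3⟩ := B5.exists_facet hq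
      obtain ⟨g, hg⟩ : ∃ g : Fin 5 → ℝ, g = fun k => y k - v k := ⟨_, rfl⟩
      have hg0 : ∀ k, 0 ≤ g k := fun k => by rw [hg]; exact sub_nonneg.mpr (h2 k).1
      have hg1 : ∀ k, g k ≤ 1 := fun k => by rw [hg]; have := (h2 k).2; simp only; linarith
      have hgi : g i = 0 := by rw [hg]; simp only; rw [h1, sub_self]
      obtain ⟨σ, hσ, hσ4⟩ := B5.sort_last g hg0 hg1 i hgi
      have hq' : pt n y = B5.kp n v g := by
        unfold B5.kp
        congr 1
        funext k
        rw [hg]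
        ring
      rw [hq']
      have h5 : B5.Gf σ g 5 = 0 := by
        show B5.Gf σ g (4 + 1) = 0
        rw [← hgi, ← hσ4, ← B5.Gf_symm σ g (σ 4), Equiv.symm_apply_apply]
        rfl
      refine ⟨(List.range 5).map fun j => B5.code (3 * n) (B5.wt σ v j), ?_, ?_, ?_, ?_⟩
      · unfold Tri
        rw [List.mem_flatMap]
        refine ⟨B5.code (3 * n) v, List.mem_range.mpr (B5.code_lt hN v), ?_⟩
        rw [List.mem_flatMap]
        refine ⟨(i : ℕ), List.mem_range.mpr i.2, ?_⟩
        rw [if_neg, List.mem_map]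
        · exact ⟨_, hσ4 ▸ B5.perm_of_sigma σ, B5.chain_wt' hn σ v⟩
        · rw [B5.pd_code hN]
          intro h
          have a1 := hPc v
          have a2 := hPc (Function.update v i (v i - 1))
          rw [← h, a1] at a2
          tauto
      · exact fun c => B5.B_nonneg _ c
      · intro c hc
        by_contra h
        obtain ⟨j, hj, hj'⟩ := B5.B_off hn hσ v h
        rcases Nat.lt_or_ge j 5 with h6 | h6
        · apply hc
          rw [List.mem_map]
          exact ⟨j, List.mem_range.mpr h6, hj'.symm⟩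
        · apply h
          have h7 : j = 5 := by omega
          rw [hj', B5.B_wt hn hσ v hj, h7, h5, B5.Gf_six, sub_zero]
      · rw [B5.sum_chain hn]
        have : ∀ j ∈ Finset.range 5, B5.B (B5.kp n v g) (B5.code (3 * n) (B5.wt σ v j)) =
            B5.Gf σ g j - B5.Gf σ g (j + 1) := by
          intro j hj
          rw [Finset.mem_range] at hj
          exact B5.B_wt hn hσ v (by omega)
        rw [Finset.sum_congr rfl this, Finset.sum_range_sub', h5, sub_zero]
        rfl
    · rintro ⟨s, hs, hx0, hxs, hx1⟩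
      unfold Tri at hs
      rw [List.mem_flatMap] at hs
      obtain ⟨e, he, hs⟩ := hs
      rw [List.mem_flatMap] at hs
      obtain ⟨i, hi, hs⟩ := hs
      rw [List.mem_range] at he hi
      by_cases hc : P e = P (pd (3 * n) i e)
      · rw [if_pos hc] at hs
        exact absurd hs (List.not_mem_nil)
      rw [if_neg hc, List.mem_map] at hs
      obtain ⟨l, hl, rfl⟩ := hs
      obtain ⟨σ, rfl, hσi⟩ := B5.sigma_of_perm hi hl
      obtain ⟨u, hu⟩ : ∃ u, u = B5.dig (3 * n) e := ⟨_, rfl⟩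
      have hue : e = B5.code (3 * n) u := by rw [hu, B5.code_dig he]
      rw [hue, B5.chain_wt' hn] at hxs hx1
      rw [B5.sum_chain hn] at hx1
      obtain ⟨g, hg⟩ : ∃ g : Fin 5 → ℝ, g = fun k =>
        ∑ j ∈ Finset.Ico ((σ.symm k : ℕ) + 1) 5, x (B5.code (3 * n) (B5.wt σ u j)) := ⟨_, rfl⟩
      have hG : ∀ j, B5.Gf σ g j =
          ∑ j ∈ Finset.Ico j 5, x (B5.code (3 * n) (B5.wt σ u j)) := by
        intro j
        rcases j with _ | j
        · rw [← Finset.range_eq_Ico, hx1]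
          rfl
        · by_cases h : j < 5
          · simp only [B5.Gf, dif_pos h, hg, Equiv.symm_apply_apply]
          · simp only [B5.Gf, dif_neg h]
            rw [Finset.Ico_eq_empty (by omega), Finset.sum_empty]
      have hanti : Antitone (B5.Gf σ g) := by
        intro a b hab
        rw [hG, hG]
        apply Finset.sum_le_sum_of_subset_of_nonneg
        · exact Finset.Ico_subset_Ico_left hab
        · intro j _ _
          exact hx0 _
      have hBx : B5.B (B5.kp n u g) = x := by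
        funext c
        by_cases h : ∃ j ≤ 5, c = B5.code (3 * n) (B5.wt σ u j)
        · obtain ⟨j, hj, rfl⟩ := h
          rw [B5.B_wt hn hanti u hj, hG, hG]
          rcases Nat.lt_or_ge j 5 with h6 | h6
          · rw [Finset.sum_eq_sum_Ico_succ_bot h6]
            ring
          · have h7 : j = 5 := by omega
            rw [h7, Finset.Ico_eq_empty (by omega), Finset.Ico_eq_empty (by omega), hxs]
            · simp
            · intro h8
              rw [List.mem_map] at h8
              obtain ⟨j', hj', h9⟩ := h8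
              rw [List.mem_range] at hj'
              have := B5.wt_inj' (by omega) σ u (by omega) (by omega) h9
              omega
        · have h1 : B5.B (B5.kp n u g) c = 0 := by
            by_contra h2
            exact h (B5.B_off hn hanti u h2)
          rw [h1, hxs]
          intro h8
          rw [List.mem_map] at h8
          obtain ⟨j', hj', h9⟩ := h8
          rw [List.mem_range] at hj'
          exact h ⟨j', by omega, h9.symm⟩
      refine ⟨B5.kp n u g, ?_, hBx⟩
      have hgi : g (σ 4) = 0 := by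
        rw [hg]
        simp only [Equiv.symm_apply_apply]
        exact Finset.sum_eq_zero fun j hj => by
          rw [Finset.mem_Ico] at hj
          exact absurd hj.1 (by show ¬ 4 + 1 ≤ j; omega)
      have h0 := B5.g_nonneg hanti
      have h1 := B5.g_le_one hanti
      have hb1 : ∀ k, ((u k : ℤ) : ℝ) ≤ (u k : ℝ) + g k ∧ (u k : ℝ) + g k ≤ (u k : ℝ) + 1 :=
        fun k => ⟨by linarith [h0 k], by linarith [h1 k]⟩
      have hb2 : ∀ k, ((Function.update u (σ 4) (u (σ 4) - 1) k : ℤ) : ℝ) ≤ (u k : ℝ) + g k ∧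
          (u k : ℝ) + g k ≤ ((Function.update u (σ 4) (u (σ 4) - 1) k : ℤ) : ℝ) + 1 := by
        intro k
        by_cases hk : k = σ 4
        · rw [hk, Function.update_self, hgi]
          push_cast
          constructor <;> linarith
        · rw [Function.update_of_ne hk]
          exact hb1 k
      have hpd : pd (3 * n) i e =
          B5.code (3 * n) (Function.update u (σ 4) (u (σ 4) - 1)) := by
        rw [hue, ← hσi, B5.pd_code hN]
      rw [hpd, hue] at hc
      have a1 := hPc u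
      have a2 := hPc (Function.update u (σ 4) (u (σ 4) - 1))
      by_cases hu1 : B5.cel n u ∈ K
      · refine B5.mem_X_of_cubes hK hb1 hb2 hu1 fun h => hc ?_
        rw [a1.mpr hu1, a2.mpr h]
      · refine B5.mem_X_of_cubes hK hb2 hb1 ?_ hu1
        by_contra h
        apply hc
        have b1 : P (B5.code (3 * n) u) = false := by
          rw [← Bool.not_eq_true]
          exact fun h' => hu1 (a1.mp h')
        have b2 : P (B5.code (3 * n) (Function.update u (σ 4) (u (σ 4) - 1))) = false := by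
          rw [← Bool.not_eq_true]
          exact fun h' => h (a2.mp h')
        rw [b1, b2]
  have hemb : IsClosedEmbedding (B5.B (n := n)) :=
    B5.continuous_B.isClosedEmbedding (B5.B_injective hn)
  exact ⟨((hemb.isEmbedding.homeomorphImage (X K)).trans (Homeomorph.setCongr himg)).symm⟩


end Pool.Agent.FM
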