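import Pool.Agent.FM.Defs

/-!
General position: paths and homotopies in the five-dimensional torus can be pushed off a subset of
the codimension three skeleton `Z3`.
-/

open Set Topology Module

namespace Pool.Agent.FM

/-- the points with at least three coordinates at vertices -/
def Z3 (n : ℕ) : Set (Tor n) :=
  {q | ∃ i j k : Fin 5, i ≠ j ∧ j ≠ k ∧ i ≠ k ∧ (∃ a : ℤ, q i = ((3 * a : ℝ) : Circ n)) ∧
    (∃ a : ℤ, q j = ((3 * a : ℝ) : Circ n)) ∧ (∃ a : ℤ, q k = ((3 * a : ℝ) : Circ n))}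

namespace GP

theorem coe_eq_three_mul {n : ℕ} [NeZero n] {x : ℝ} {a : ℤ}
    (h : (x : Circ n) = ((3 * a : ℝ) : Circ n)) : ∃ b : ℤ, x = 3 * b := by
  have h1 : ((x - 3 * a : ℝ) : Circ n) = 0 := by
    rw [AddCircle.coe_sub, h, sub_self]
  obtain ⟨m, hm⟩ := (AddCircle.coe_eq_zero_iff _).1 h1
  refine ⟨a + m * n, ?_⟩
  push_cast
  rw [zsmul_eq_mul] at hm
  linarith

variable {E : Type*} [NormedAddCommGroup E] [NormedSpace ℝ E]

/-- the parametrisation of the bad translations -/
noncomputable def Phi (g : E → Fin 5 → ℝ) (T : Finset (Fin 5)) (a : Fin 5 → ℤ)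
    (q : E × ({x : Fin 5 // x ∉ T} → ℝ)) (x : Fin 5) : ℝ :=
  if h : x ∈ T then 3 * (a x : ℝ) - g q.1 x else q.2 ⟨x, h⟩

theorem contDiff_Phi {g : E → Fin 5 → ℝ} (hg : ContDiff ℝ 1 g) (T : Finset (Fin 5))
    (a : Fin 5 → ℤ) : ContDiff ℝ 1 (Phi g T a) := by
  rw [contDiff_pi]
  intro x
  unfold Phi
  by_cases h : x ∈ T
  · simp only [h, dif_pos]
    have : ContDiff ℝ 1 fun p => g p x := (contDiff_pi.1 hg) x
    exact contDiff_const.sub (this.comp contDiff_fst)
  · simp only [h, dif_neg, not_false_iff]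
    exact (contDiff_apply ℝ ℝ (⟨x, h⟩ : {x : Fin 5 // x ∉ T})).comp contDiff_snd

theorem dimH_Phi [FiniteDimensional ℝ E] (hE : finrank ℝ E ≤ 2) {g : E → Fin 5 → ℝ}
    (hg : ContDiff ℝ 1 g) (T : Finset (Fin 5)) (hT : T.card = 3) (a : Fin 5 → ℤ) :
    dimH (range (Phi g T a)) ≤ 4 := by
  refine (contDiff_Phi hg T a).dimH_range_le.trans ?_
  have h1 : finrank ℝ (E × ({x : Fin 5 // x ∉ T} → ℝ)) ≤ 4 := by
    rw [Module.finrank_prod, Module.finrank_pi]
    have : Fintype.card {x : Fin 5 // x ∉ T} = 2 := by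
      rw [Fintype.card_subtype_compl]
      simp [hT]
    omega
  exact_mod_cast h1

theorem exists_translation [FiniteDimensional ℝ E] (n : ℕ) [NeZero n] (hE : finrank ℝ E ≤ 2)
    {g : E → Fin 5 → ℝ} (hg : ContDiff ℝ 1 g) {δ : ℝ} (hδ : 0 < δ) :
    ∃ e : Fin 5 → ℝ, ‖e‖ < δ ∧ ∀ p, pt n (g p + e) ∉ Z3 n := by
  let B : Set (Fin 5 → ℝ) := ⋃ (T : {T : Finset (Fin 5) // T.card = 3}) (a : Fin 5 → ℤ),
    range (Phi g T.1 a)
  have hB : dimH B ≤ 4 := by
    simp only [B]
    rw [dimH_iUnion]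
    refine iSup_le fun T => ?_
    rw [dimH_iUnion]
    exact iSup_le fun a => dimH_Phi hE hg T.1 T.2 a
  have hd : Dense Bᶜ := by
    apply dense_compl_of_dimH_lt_finrank
    refine lt_of_le_of_lt hB ?_
    simp
    norm_num
  obtain ⟨e, heb, heB⟩ := hd.exists_mem_open Metric.isOpen_ball ⟨0, Metric.mem_ball_self hδ⟩
  refine ⟨e, by simpa using heB, ?_⟩
  rintro p ⟨i, j, k, hij, hjk, hik, ⟨a, ha⟩, ⟨b, hb⟩, ⟨c, hc⟩⟩
  apply heb
  obtain ⟨a', ha'⟩ := coe_eq_three_mul ha
  obtain ⟨b', hb'⟩ := coe_eq_three_mul hb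
  obtain ⟨c', hc'⟩ := coe_eq_three_mul hc
  simp only [B, mem_iUnion]
  refine ⟨⟨{i, j, k}, ?_⟩, fun x => if x = i then a' else if x = j then b' else c', ?_⟩
  · rw [Finset.card_insert_of_notMem, Finset.card_insert_of_notMem, Finset.card_singleton]
    · simpa using hjk
    · simp [hij, hik]
  · refine ⟨(p, fun x => e x.1), ?_⟩
    funext x
    unfold Phi
    simp only [Pi.add_apply] at ha' hb' hc'
    by_cases h : x ∈ ({i, j, k} : Finset (Fin 5))
    · rw [dif_pos h]
      simp only [Finset.mem_insert, Finset.mem_singleton] at h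
      rcases h with h | h | h
      · subst h
        simp only [if_pos]
        linarith
      · subst h
        beta_reduce
        rw [if_neg (Ne.symm hij), if_pos rfl]
        linarith
      · subst h
        beta_reduce
        rw [if_neg (Ne.symm hik), if_neg (Ne.symm hjk)]
        linarith
    · rw [dif_neg h]

theorem exists_approx [FiniteDimensional ℝ E] (n : ℕ) [NeZero n] (hE : finrank ℝ E ≤ 2)
    {F : E → Fin 5 → ℝ} (hF : Continuous F) {K : Set E} (hK : IsCompact K) {δ : ℝ}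
    (hδ : 0 < δ) : ∃ g : E → Fin 5 → ℝ, Continuous g ∧ (∀ p ∈ K, dist (g p) (F p) < δ) ∧
      ∀ p, pt n (g p) ∉ Z3 n := by
  obtain ⟨g0, hg0, hg1⟩ : ∃ g : E → Fin 5 → ℝ, ContDiff ℝ 1 g ∧
      ∀ p ∈ K, dist (g p) (F p) < δ / 2 := by
    have hd := ContinuousMap.dense_setOfPred_contDiff (E := E) (F := Fin 5 → ℝ)
      (⟨F, hF⟩ : C(E, Fin 5 → ℝ))
    rw [mem_closure_iff_nhds_basis
      (nhds_basis_uniformity Metric.uniformity_basis_dist.compactConvergenceUniformity)] at hd
    simp only [Prod.forall, mem_ofPred_eq, and_imp] at hd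
    obtain ⟨g, hg, hg'⟩ := hd K (δ / 2) hK (by positivity)
    refine ⟨g, hg.of_le (by simp), fun p hp => ?_⟩
    have := hg' p hp
    simpa [dist_comm] using this
  obtain ⟨e, he, he'⟩ := exists_translation n hE hg0 (half_pos hδ)
  refine ⟨fun p => g0 p + e, hg0.continuous.add continuous_const, fun p hp => ?_, he'⟩
  calc dist (g0 p + e) (F p) ≤ dist (g0 p + e) (g0 p) + dist (g0 p) (F p) := dist_triangle _ _ _
    _ < δ / 2 + δ / 2 := by
        refine add_lt_add ?_ (hg1 p hp)
        rw [dist_eq_norm]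
        simpa using he
    _ = δ := by ring

theorem exists_lift (n : ℕ) [NeZero n] {f : E → Tor n} (hf : Continuous f) :
    ∃ F : E → Fin 5 → ℝ, Continuous F ∧ ∀ p, pt n (F p) = f p := by
  have h1 : ∀ i : Fin 5, ∃ F : E → ℝ, Continuous F ∧ ∀ p, ((F p : ℝ) : Circ n) = f p i := by
    intro i
    have cov := AddCircle.isCoveringMap_coe (3 * (n : ℝ))
    have hfi : Continuous fun p => f p i := (continuous_apply i).comp hf
    obtain ⟨e0, he0⟩ := QuotientAddGroup.mk_surjective (f 0 i)
    obtain ⟨F, ⟨-, hF⟩, -⟩ := cov.existsUnique_continuousMap_lifts (A := E) ⟨fun p => f p i, hfi⟩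
      0 e0 he0
    exact ⟨F, F.continuous, fun p => congrFun hF p⟩
  choose F hF hF' using h1
  exact ⟨fun p i => F i p, continuous_pi hF, fun p => funext fun i => hF' i p⟩

theorem push [FiniteDimensional ℝ E] {n : ℕ} [NeZero n] (hE : finrank ℝ E ≤ 2)
    {O Z : Set (Tor n)} (hO : IsOpen O) (hOZ : IsOpen (O \ Z)) (hZ : Z ⊆ Z3 n)
    {F : E → Fin 5 → ℝ} (hF : Continuous F) {K D : Set E} (hK : IsCompact K) (hD : IsClosed D)
    (hDK : D ⊆ K) (hDn : D.Nonempty) (hFO : ∀ p ∈ K, pt n (F p) ∈ O)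
    (hFZ : ∀ p ∈ D, pt n (F p) ∈ O \ Z) :
    ∃ G : E → Fin 5 → ℝ, Continuous G ∧ (∀ p ∈ D, G p = F p) ∧ (∀ p ∈ K, pt n (G p) ∈ O \ Z) ∧
      ∀ p ∈ K, ∀ s : ℝ, 0 ≤ s → s ≤ 1 → pt n (F p + s • (G p - F p)) ∈ O := by
  have hDc : IsCompact D := hK.of_isClosed_subset hD hDK
  have hC : IsCompact (F '' K) := hK.image hF
  have hB : IsCompact (F '' D) := hDc.image hF
  have hBn : (F '' D).Nonempty := hDn.image F
  obtain ⟨δ1, hδ1, h1⟩ := hC.exists_thickening_subset_open (hO.preimage (continuous_pt n))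
    (by rintro _ ⟨p, hp, rfl⟩; exact hFO p hp)
  obtain ⟨δ2, hδ2, h2⟩ := hB.exists_thickening_subset_open (hOZ.preimage (continuous_pt n))
    (by rintro _ ⟨p, hp, rfl⟩; exact hFZ p hp)
  set δ := min δ1 δ2 with hδdef
  have hδ : 0 < δ := lt_min hδ1 hδ2
  obtain ⟨g, hg, hg1, hg2⟩ := exists_approx n hE hF hK (half_pos hδ)
  let φ : E → ℝ := fun p => min 1 (Metric.infDist (F p) (F '' D) * (2 / δ))
  have hφ : Continuous φ := continuous_const.min
    (((Metric.continuous_infDist_pt _).comp hF).mul continuous_const)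
  have hφ0 : ∀ p, 0 ≤ φ p := fun p => le_min zero_le_one
    (mul_nonneg Metric.infDist_nonneg (by positivity))
  have hφ1 : ∀ p, φ p ≤ 1 := fun p => min_le_left _ _
  have hstep : ∀ p ∈ K, ∀ s : ℝ, 0 ≤ s → s ≤ 1 → dist (F p + s • (g p - F p)) (F p) < δ / 2 := by
    intro p hp s h0 h1
    rw [dist_eq_norm, add_sub_cancel_left, norm_smul, Real.norm_eq_abs, abs_of_nonneg h0]
    have := hg1 p hp
    rw [dist_eq_norm] at this
    calc s * ‖g p - F p‖ ≤ 1 * ‖g p - F p‖ := mul_le_mul_of_nonneg_right h1 (norm_nonneg _)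
      _ < δ / 2 := by rw [one_mul]; exact this
  refine ⟨fun p => F p + φ p • (g p - F p), hF.add (hφ.smul (hg.sub hF)), ?_, ?_, ?_⟩
  · intro p hp
    have : φ p = 0 := by
      simp only [φ]
      rw [Metric.infDist_zero_of_mem (mem_image_of_mem F hp)]
      simp
    simp [this]
  · intro p hp
    by_cases h : φ p = 1
    · simp only [h, one_smul, add_sub_cancel]
      refine ⟨?_, fun hz => hg2 p (hZ hz)⟩
      apply h1
      refine Metric.mem_thickening_iff.2 ⟨F p, mem_image_of_mem F hp, ?_⟩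
      exact (hg1 p hp).trans_le ((half_le_self hδ.le).trans (min_le_left _ _))
    · have h3 : Metric.infDist (F p) (F '' D) < δ / 2 := by
        by_contra h4
        push Not at h4
        apply h
        simp only [φ]
        apply min_eq_left
        have : 1 = δ / 2 * (2 / δ) := by field_simp
        rw [this]
        exact mul_le_mul_of_nonneg_right h4 (by positivity)
      obtain ⟨b, hb, hb'⟩ := (Metric.infDist_lt_iff hBn).1 h3
      apply h2
      refine Metric.mem_thickening_iff.2 ⟨b, hb, ?_⟩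
      calc dist (F p + φ p • (g p - F p)) b ≤ dist (F p + φ p • (g p - F p)) (F p) +
            dist (F p) b := dist_triangle _ _ _
        _ < δ / 2 + δ / 2 := add_lt_add (hstep p hp _ (hφ0 p) (hφ1 p)) hb'
        _ = δ := by ring
        _ ≤ δ2 := min_le_right _ _
  · intro p hp s h0 h1'
    apply h1
    refine Metric.mem_thickening_iff.2 ⟨F p, mem_image_of_mem F hp, ?_⟩
    rw [add_sub_cancel_left, smul_smul]
    refine (hstep p hp _ (mul_nonneg h0 (hφ0 p)) (mul_le_one₀ h1' (hφ0 p) (hφ1 p))).trans_le ?_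
    exact (half_le_self hδ.le).trans (min_le_left _ _)

end GP

open GP unitInterval

theorem general_position {n : ℕ} [NeZero n] {O Z : Set (Tor n)} (hO : IsOpen O)
    (hOZ : IsOpen (O \ Z)) (hZ : Z ⊆ Z3 n) :
    (∀ (x y : Tor n) (hx : x ∈ O \ Z) (hy : y ∈ O \ Z)
      (γ : Path (⟨x, hx.1⟩ : O) (⟨y, hy.1⟩ : O)),
      ∃ γ' : Path (⟨x, hx⟩ : (O \ Z : Set (Tor n))) (⟨y, hy⟩ : (O \ Z : Set (Tor n))),
        (γ'.map (continuous_inclusion (sdiff_subset : O \ Z ⊆ O))).Homotopic γ) ∧
    (∀ (x y : (O \ Z : Set (Tor n))) (γ γ' : Path x y),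
      (γ.map (continuous_inclusion (sdiff_subset : O \ Z ⊆ O))).Homotopic
        (γ'.map (continuous_inclusion (sdiff_subset : O \ Z ⊆ O))) → γ.Homotopic γ') ∧
    (O.Nonempty → (O \ Z).Nonempty) := by
  refine ⟨?_, ?_, ?_⟩
  · intro x y hx hy γ
    obtain ⟨F, hF, hF'⟩ := exists_lift (E := ℝ) n (f := fun t => (γ.extend t : O).1)
      (continuous_subtype_val.comp γ.continuous_extend)
    have hd0 : F 0 ∈ pt n ⁻¹' (O \ Z) := by
      show pt n (F 0) ∈ O \ Z
      rw [hF']; simpa using hx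
    have hd1 : F 1 ∈ pt n ⁻¹' (O \ Z) := by
      show pt n (F 1) ∈ O \ Z
      rw [hF']; simpa using hy
    obtain ⟨G, hG, hG1, hG2, hG3⟩ := push (E := ℝ) (by simp) hO hOZ hZ hF (K := Icc 0 1)
      (D := {0, 1}) isCompact_Icc (Set.toFinite _).isClosed
      (by rintro t (rfl | rfl) <;> simp) ⟨0, by simp⟩
      (fun p _ => by rw [hF']; exact (γ.extend p).2)
      (by rintro p (rfl | rfl); exacts [hd0, hd1])
    let γ' : Path (⟨x, hx⟩ : (O \ Z : Set (Tor n))) (⟨y, hy⟩ : (O \ Z : Set (Tor n))) :=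
      { toFun := fun t => ⟨pt n (G t), hG2 t t.2⟩
        continuous_toFun := Continuous.subtype_mk
          ((continuous_pt n).comp (hG.comp continuous_subtype_val)) _
        source' := by
          apply Subtype.ext
          show pt n (G ((0 : I) : ℝ)) = x
          rw [hG1 _ (by simp), hF']
          simp
        target' := by
          apply Subtype.ext
          show pt n (G ((1 : I) : ℝ)) = y
          rw [hG1 _ (by simp), hF']
          simp }
    refine ⟨γ', ?_⟩
    apply Path.Homotopic.symm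
    refine ⟨{
      toFun := fun p => ⟨pt n (F p.2 + (p.1 : ℝ) • (G p.2 - F p.2)),
        hG3 p.2 p.2.2 p.1 p.1.2.1 p.1.2.2⟩
      continuous_toFun := ?_
      map_zero_left := ?_
      map_one_left := ?_
      prop' := ?_ }⟩
    · refine Continuous.subtype_mk ((continuous_pt n).comp ?_) _
      have e1 : Continuous fun p : I × I => F p.2 :=
        hF.comp (continuous_subtype_val.comp continuous_snd)
      have e2 : Continuous fun p : I × I => G p.2 :=
        hG.comp (continuous_subtype_val.comp continuous_snd)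
      exact e1.add ((continuous_subtype_val.comp continuous_fst).smul (e2.sub e1))
    · intro t
      apply Subtype.ext
      show pt n (F t + ((0 : I) : ℝ) • (G t - F t)) = (γ t).1
      simp only [Icc.coe_zero, zero_smul, add_zero, hF']
      simp
    · intro t
      apply Subtype.ext
      show pt n (F t + ((1 : I) : ℝ) • (G t - F t)) = pt n (G t)
      simp
    · intro s t ht
      apply Subtype.ext
      show pt n (F t + (s : ℝ) • (G t - F t)) = (γ t).1
      have : G t = F t := hG1 _ (by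
        rcases ht with rfl | ht
        · simp
        · rw [mem_singleton_iff] at ht
          subst ht
          simp)
      rw [this]
      simp only [sub_self, smul_zero, add_zero, hF']
      simp
  · rintro x y γ γ' ⟨H⟩
    have hc : Continuous fun p : ℝ × ℝ => (H (projIcc 0 1 zero_le_one p.1,
        projIcc 0 1 zero_le_one p.2) : O).1 := by
      refine continuous_subtype_val.comp (H.continuous.comp ?_)
      exact (continuous_projIcc.comp continuous_fst).prodMk (continuous_projIcc.comp continuous_snd)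
    obtain ⟨F, hF, hF'⟩ := exists_lift (E := ℝ × ℝ) n hc
    have hFI : ∀ s t : I, pt n (F (s, t)) = (H (s, t) : O).1 := by
      intro s t
      rw [hF']
      simp
    have h0 : ∀ t : I, (H (0, t) : O).1 = (γ t).1 := fun t => by
      rw [H.apply_zero]; rfl
    have h1 : ∀ t : I, (H (1, t) : O).1 = (γ' t).1 := fun t => by
      rw [H.apply_one]; rfl
    have h2 : ∀ s : I, (H (s, 0) : O).1 = x.1 := fun s => by
      rw [H.source]
    have h3 : ∀ s : I, (H (s, 1) : O).1 = y.1 := fun s => by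
      rw [H.target]
    obtain ⟨G, hG, hG1, hG2, hG3⟩ := push (E := ℝ × ℝ) (by simp) hO hOZ hZ hF
      (K := Icc 0 1 ×ˢ Icc 0 1)
      (D := (Icc 0 1 ×ˢ Icc 0 1) ∩ {p : ℝ × ℝ | p.1 = 0 ∨ p.1 = 1 ∨ p.2 = 0 ∨ p.2 = 1})
      (isCompact_Icc.prod isCompact_Icc)
      (by
        refine (isClosed_Icc.prod isClosed_Icc).inter ?_
        refine (isClosed_eq continuous_fst continuous_const).union ?_
        refine (isClosed_eq continuous_fst continuous_const).union ?_
        exact (isClosed_eq continuous_snd continuous_const).union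
          (isClosed_eq continuous_snd continuous_const))
      inter_subset_left ⟨(0, 0), by simp⟩
      (fun p _ => by rw [hF']; exact (H _).2)
      (by
        rintro ⟨s, t⟩ ⟨⟨hs, ht⟩, h⟩
        have := hFI ⟨s, hs⟩ ⟨t, ht⟩
        simp only at this
        rw [this]
        simp only [mem_ofPred_eq] at h
        rcases h with rfl | rfl | rfl | rfl
        · have := h0 ⟨t, ht⟩
          exact this ▸ (γ ⟨t, ht⟩).2
        · have := h1 ⟨t, ht⟩
          exact this ▸ (γ' ⟨t, ht⟩).2
        · have := h2 ⟨s, hs⟩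
          exact this ▸ x.2
        · have := h3 ⟨s, hs⟩
          exact this ▸ y.2)
    refine ⟨{
      toFun := fun p => ⟨pt n (G (p.1, p.2)), hG2 _ ⟨p.1.2, p.2.2⟩⟩
      continuous_toFun := ?_
      map_zero_left := ?_
      map_one_left := ?_
      prop' := ?_ }⟩
    · refine Continuous.subtype_mk ((continuous_pt n).comp (hG.comp ?_)) _
      exact (continuous_subtype_val.comp continuous_fst).prodMk
        (continuous_subtype_val.comp continuous_snd)
    · intro t
      apply Subtype.ext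
      show pt n (G (((0 : I) : ℝ), t)) = (γ t).1
      rw [hG1 _ ⟨⟨(0 : I).2, t.2⟩, by simp⟩, hFI, h0]
    · intro t
      apply Subtype.ext
      show pt n (G (((1 : I) : ℝ), t)) = (γ' t).1
      rw [hG1 _ ⟨⟨(1 : I).2, t.2⟩, by simp⟩, hFI, h1]
    · intro s t ht
      apply Subtype.ext
      show pt n (G ((s : ℝ), t)) = (γ t).1
      rcases ht with rfl | ht
      · rw [hG1 _ ⟨⟨s.2, (0 : I).2⟩, by simp⟩, hFI, h2]
        simp
      · rw [mem_singleton_iff] at ht
        subst ht
        rw [hG1 _ ⟨⟨s.2, (1 : I).2⟩, by simp⟩, hFI, h3]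
        simp
  · rintro ⟨x, hx⟩
    obtain ⟨y, rfl⟩ := exists_pt x
    obtain ⟨δ, hδ, h⟩ := Metric.isOpen_iff.1 (hO.preimage (continuous_pt n)) y hx
    obtain ⟨e, he, he'⟩ := exists_translation (E := ℝ) n (by simp)
      (g := fun _ => y) contDiff_const hδ
    refine ⟨pt n (y + e), h ?_, fun hz => he' 0 (hZ hz)⟩
    rw [Metric.mem_ball, dist_eq_norm]
    simpa using he

end Pool.Agent.FM
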