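import Pool.Agent.FM.Defs

/-!
# Transport along paths for a local cocycle
-/

open Set Topology

namespace Pool.Agent.FM

namespace B08

variable {Y : Type} [PseudoMetricSpace Y] {G : Type} [Group G] {m : Y → Y → G} {ε : ℝ}

theorem m_self (hε : 0 < ε)
    (hm : ∀ x y z, dist x y < ε → dist y z < ε → dist x z < ε → m x y * m y z = m x z) (x : Y) :
    m x x = 1 := by
  have h := hm x x x (by simpa using hε) (by simpa using hε) (by simpa using hε)
  simpa using h

theorem m_symm (hε : 0 < ε)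
    (hm : ∀ x y z, dist x y < ε → dist y z < ε → dist x z < ε → m x y * m y z = m x z)
    {x y : Y} (h : dist x y < ε) : m x y * m y x = 1 := by
  rw [hm x y x h (by rwa [dist_comm]) (by simpa using hε), m_self hε hm]

theorem exists_real_pot
    (hm : ∀ x y z, dist x y < ε → dist y z < ε → dist x z < ε → m x y * m y z = m x z)
    (g : ℝ → Y) (N : ℕ) (hN : 0 < N)
    (hg : ∀ s t : ℝ, |s - t| < 2 / N → dist (g s) (g t) < ε) :
    ∃ φ : ℝ → G, ∀ s t : ℝ, 0 ≤ s → s ≤ t → t - s < 1 / N → φ t = φ s * m (g s) (g t) := by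
  have hN' : (0 : ℝ) < N := by exact_mod_cast hN
  let P : ℕ → G := fun k => Nat.rec 1 (fun j a => a * m (g ((j : ℝ) / N)) (g (((j + 1 : ℕ) : ℝ) / N))) k
  have hP : ∀ j : ℕ, P (j + 1) = P j * m (g ((j : ℝ) / N)) (g (((j + 1 : ℕ) : ℝ) / N)) := fun j => rfl
  have h12 : (1 : ℝ) / N < 2 / N := by
    apply div_lt_div_of_pos_right _ hN'; norm_num
  refine ⟨fun s => P ⌊s * N⌋₊ * m (g ((⌊s * N⌋₊ : ℝ) / N)) (g s), ?_⟩
  intro s t hs hst hlt
  have ht : 0 ≤ t := hs.trans hst
  have a1 : (⌊s * N⌋₊ : ℝ) ≤ s * N := Nat.floor_le (by positivity)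
  have a2 : s * N < ⌊s * N⌋₊ + 1 := Nat.lt_floor_add_one _
  have b1 : (⌊t * N⌋₊ : ℝ) ≤ t * N := Nat.floor_le (by positivity)
  have b2 : t * N < ⌊t * N⌋₊ + 1 := Nat.lt_floor_add_one _
  have hlt' : t * N - s * N < 1 := by
    have := mul_lt_mul_of_pos_right hlt hN'
    rw [div_mul_cancel₀ _ hN'.ne'] at this
    linarith
  have hab : ⌊s * N⌋₊ ≤ ⌊t * N⌋₊ := Nat.floor_mono (by nlinarith)
  have hba : ⌊t * N⌋₊ < ⌊s * N⌋₊ + 2 := by
    have : (⌊t * N⌋₊ : ℝ) < (⌊s * N⌋₊ + 2 : ℕ) := by push_cast; linarith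
    exact_mod_cast this
  set a := ⌊s * N⌋₊ with ha
  have c1 : (a : ℝ) / N ≤ s := by rw [div_le_iff₀ hN']; exact a1
  have c2 : s < ((a + 1 : ℕ) : ℝ) / N := by rw [lt_div_iff₀ hN']; push_cast; exact a2
  have c3 : ((a + 1 : ℕ) : ℝ) / N = (a : ℝ) / N + 1 / N := by push_cast; ring
  have c4 : (2 : ℝ) / N = 1 / N + 1 / N := by ring
  have c5 : (0 : ℝ) < 1 / N := by positivity
  rcases (show ⌊t * N⌋₊ = a ∨ ⌊t * N⌋₊ = a + 1 by omega) with hb | hb
  · -- same floor
    simp only [hb]
    rw [mul_assoc, hm]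
    · exact hg _ _ (by rw [abs_lt]; constructor <;> linarith)
    · exact hg _ _ (by rw [abs_lt]; constructor <;> linarith)
    · exact hg _ _ (by rw [abs_lt]; constructor <;> linarith)
  · have d1 : ((a + 1 : ℕ) : ℝ) / N ≤ t := by rw [div_le_iff₀ hN', ← hb]; exact b1
    simp only [hb, hP]
    rw [mul_assoc, mul_assoc, hm, hm]
    · exact hg _ _ (by rw [abs_lt]; constructor <;> linarith)
    · exact hg _ _ (by rw [abs_lt]; constructor <;> linarith)
    · exact hg _ _ (by rw [abs_lt]; constructor <;> linarith)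
    · exact hg _ _ (by rw [abs_lt]; constructor <;> linarith)
    · exact hg _ _ (by rw [abs_lt]; constructor <;> linarith)
    · exact hg _ _ (by rw [abs_lt]; constructor <;> linarith)

theorem exists_pot (hε : 0 < ε)
    (hm : ∀ x y z, dist x y < ε → dist y z < ε → dist x z < ε → m x y * m y z = m x z)
    (γ : unitInterval → Y) (hγ : Continuous γ) : ∃ φ, Pot m γ φ := by
  have huc : UniformContinuous γ := CompactSpace.uniformContinuous_of_continuous hγ
  obtain ⟨δ, hδ, hd⟩ := Metric.uniformContinuous_iff.mp huc ε hε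
  obtain ⟨N, hN⟩ := exists_nat_gt (2 / δ)
  have hN0 : (0 : ℝ) < N := lt_trans (by positivity) hN
  have hN1 : 0 < N := by exact_mod_cast hN0
  have hN2 : (2 : ℝ) / N < δ := by
    rw [div_lt_iff₀ hN0]
    rw [div_lt_iff₀ hδ] at hN
    linarith
  let g : ℝ → Y := Set.IccExtend (zero_le_one' ℝ) γ
  have hg : ∀ s t : ℝ, |s - t| < 2 / N → dist (g s) (g t) < ε := by
    intro s t hst
    apply hd
    have := (abs_projIcc_sub_projIcc (zero_le_one' ℝ) (c := s) (d := t))
    calc dist (projIcc 0 1 (zero_le_one' ℝ) s) (projIcc 0 1 (zero_le_one' ℝ) t)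
        = |((projIcc 0 1 (zero_le_one' ℝ) s : ℝ)) - projIcc 0 1 (zero_le_one' ℝ) t| := rfl
      _ ≤ |s - t| := this
      _ < 2 / N := hst
      _ < δ := hN2
  obtain ⟨φ, hφ⟩ := exists_real_pot hm g N hN1 hg
  have hgγ : ∀ t : unitInterval, g t = γ t := fun t => Set.IccExtend_val _ _ _
  refine ⟨fun t => φ t, 1 / N, by positivity, ?_⟩
  intro s t hst
  have hst' : |(s : ℝ) - t| < 1 / N := hst
  rw [abs_lt] at hst'
  rcases le_total (s : ℝ) t with h | h
  · have := hφ s t s.2.1 h (by linarith)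
    simpa only [hgγ] using this
  · have := hφ t s t.2.1 h (by linarith)
    simp only [hgγ] at this
    show φ t = φ s * m (γ s) (γ t)
    rw [this, mul_assoc, m_symm hε hm, mul_one]
    have h12 : (1 : ℝ) / N < 2 / N := by
      apply div_lt_div_of_pos_right _ hN0; norm_num
    apply hd
    rw [dist_comm]
    exact hst.trans (h12.trans hN2)

omit [PseudoMetricSpace Y] in
theorem pot_unique {γ : unitInterval → Y} {φ ψ : unitInterval → G} (h1 : Pot m γ φ)
    (h2 : Pot m γ ψ) : (φ 0)⁻¹ * φ 1 = (ψ 0)⁻¹ * ψ 1 := by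
  obtain ⟨δ, hδ, hφ⟩ := h1
  obtain ⟨η, hη, hψ⟩ := h2
  have hlc : IsLocallyConstant fun t => φ t * (ψ t)⁻¹ := by
    rw [IsLocallyConstant.iff_eventually_eq]
    intro s
    filter_upwards [Metric.ball_mem_nhds s (lt_min hδ hη)] with t ht
    rw [Metric.mem_ball, dist_comm] at ht
    rw [hφ s t (lt_of_lt_of_le ht (min_le_left _ _)), hψ s t (lt_of_lt_of_le ht (min_le_right _ _))]
    group
  have h01 : φ 0 * (ψ 0)⁻¹ = φ 1 * (ψ 1)⁻¹ := hlc.apply_eq_of_preconnectedSpace 0 1
  have : φ 1 = φ 0 * (ψ 0)⁻¹ * ψ 1 := by rw [h01]; group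
  rw [this]; group

end B08

open B08 in
theorem exists_theta {Y : Type} [PseudoMetricSpace Y] {G : Type} [Group G] (m : Y → Y → G) (ε : ℝ)
    (hε : 0 < ε)
    (hm : ∀ x y z, dist x y < ε → dist y z < ε → dist x z < ε → m x y * m y z = m x z) :
    ∃ Θ : ∀ {x y : Y}, Path x y → G,
      (∀ {x y : Y} (γ : Path x y), ∃ φ, Pot m γ φ) ∧
      (∀ {x y : Y} (γ : Path x y) φ, Pot m γ φ → Θ γ = (φ 0)⁻¹ * φ 1) ∧
      (∀ {x y : Y} (γ γ' : Path x y), γ.Homotopic γ' → Θ γ = Θ γ') ∧
      (∀ {x y z : Y} (γ : Path x y) (γ' : Path y z), Θ (γ.trans γ') = Θ γ * Θ γ') ∧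
      (∀ {x y : Y} (γ : Path x y), Θ γ.symm = (Θ γ)⁻¹) ∧
      (∀ {x y : Y} (γ : Path x y), (∀ s t, dist (γ s) (γ t) < ε) → Θ γ = m x y) := by
  classical
  have hex : ∀ {x y : Y} (γ : Path x y), ∃ φ, Pot m γ φ := fun {x y} γ =>
    exists_pot hε hm γ γ.continuous
  let Θ : ∀ {x y : Y}, Path x y → G := fun {x y} γ =>
    ((Classical.choose (hex γ)) 0)⁻¹ * (Classical.choose (hex γ)) 1
  have hΘ : ∀ {x y : Y} (γ : Path x y) φ, Pot m γ φ → Θ γ = (φ 0)⁻¹ * φ 1 := fun {x y} γ φ h =>
    pot_unique (Classical.choose_spec (hex γ)) h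
  refine ⟨@Θ, @hex, @hΘ, ?_, ?_, ?_, ?_⟩
  · rintro x y γ γ' ⟨F⟩
    have huc : UniformContinuous F := CompactSpace.uniformContinuous_of_continuous F.continuous
    obtain ⟨η, hη, hF⟩ := Metric.uniformContinuous_iff.mp huc (ε / 2) (by positivity)
    have hlc : IsLocallyConstant fun s : unitInterval => Θ (F.eval s) := by
      rw [IsLocallyConstant.iff_eventually_eq]
      intro s
      filter_upwards [Metric.ball_mem_nhds s hη] with s' hs'
      rw [Metric.mem_ball, dist_comm] at hs'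
      have hclose : ∀ t, dist (F.eval s t) (F.eval s' t) < ε / 2 := by
        intro t
        apply hF
        rw [Prod.dist_eq]
        exact max_lt hs' (by simpa using hη)
      obtain ⟨φ, hφ⟩ := hex (F.eval s)
      rw [hΘ _ _ hφ]
      obtain ⟨δ, hδ, hφ'⟩ := hφ
      have hc : ∀ s₀ : unitInterval, ∀ t t' : unitInterval, dist t t' < η →
          dist (F.eval s₀ t) (F.eval s₀ t') < ε / 2 := by
        intro s₀ t t' h
        apply hF
        rw [Prod.dist_eq]
        exact max_lt (by simpa using hη) h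
      have hψ : Pot m (F.eval s') (fun t => φ t * m (F.eval s t) (F.eval s' t)) := by
        refine ⟨min δ η, lt_min hδ hη, ?_⟩
        intro t t' h
        have hd1 : dist t t' < δ := lt_of_lt_of_le h (min_le_left _ _)
        have hd2 : dist t t' < η := lt_of_lt_of_le h (min_le_right _ _)
        have e1 := hc s t t' hd2
        have e2 := hc s' t t' hd2
        have e3 := hclose t
        have e4 := hclose t'
        have e5 : dist (F.eval s t) (F.eval s' t') < ε := by
          have := dist_triangle (F.eval s t) (F.eval s' t) (F.eval s' t')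
          linarith
        show φ t' * m (F.eval s t') (F.eval s' t') =
          φ t * m (F.eval s t) (F.eval s' t) * m (F.eval s' t) (F.eval s' t')
        rw [hφ' t t' hd1, mul_assoc, mul_assoc,
          hm _ _ _ (by linarith) (by linarith) e5, hm _ _ _ (by linarith) (by linarith) e5]
      rw [hΘ _ _ hψ]
      simp [m_self hε hm]
    have h01 : Θ (F.eval 0) = Θ (F.eval 1) := hlc.apply_eq_of_preconnectedSpace 0 1
    rw [F.eval_zero, F.eval_one] at h01
    exact h01
  · intro x y z γ γ'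
    obtain ⟨φ, hφ⟩ := hex (γ.trans γ')
    let h1 : unitInterval → unitInterval := fun t =>
      ⟨(t : ℝ) / 2, by constructor <;> linarith [t.2.1, t.2.2]⟩
    let h2 : unitInterval → unitInterval := fun t =>
      ⟨((t : ℝ) + 1) / 2, by constructor <;> linarith [t.2.1, t.2.2]⟩
    have g1 : ∀ t, (γ.trans γ') (h1 t) = γ t := by
      intro t
      rw [Path.trans_apply, dif_pos (by show (t : ℝ) / 2 ≤ 1 / 2; linarith [t.2.2])]
      congr 1
      apply Subtype.ext
      show 2 * ((t : ℝ) / 2) = t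
      ring
    have g2 : ∀ t, (γ.trans γ') (h2 t) = γ' t := by
      intro t
      rw [Path.trans_apply]
      split_ifs with h
      · have ht : (t : ℝ) = 0 := by
          have : ((t : ℝ) + 1) / 2 ≤ 1 / 2 := h
          linarith [t.2.1]
        have ht' : t = 0 := Subtype.ext ht
        subst ht'
        have : (⟨2 * ((h2 0 : unitInterval) : ℝ), (unitInterval.mul_pos_mem_iff zero_lt_two).2
          ⟨(h2 0).2.1, h⟩⟩ : unitInterval) = 1 := by
          apply Subtype.ext
          show 2 * ((((0 : unitInterval) : ℝ) + 1) / 2) = 1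
          simp
        rw [this, Path.source, Path.target]
      · congr 1
        apply Subtype.ext
        show 2 * (((t : ℝ) + 1) / 2) - 1 = t
        ring
    obtain ⟨δ, hδ, hp⟩ := hφ
    have p1 : Pot m γ (fun t => φ (h1 t)) := by
      refine ⟨δ, hδ, ?_⟩
      intro s t hst
      have := hp (h1 s) (h1 t) (by
        have hst' : |(s : ℝ) - t| < δ := hst
        show |(s : ℝ) / 2 - (t : ℝ) / 2| < δ
        rw [abs_lt] at hst' ⊢
        constructor <;> linarith)
      rw [g1, g1] at this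
      exact this
    have p2 : Pot m γ' (fun t => φ (h2 t)) := by
      refine ⟨δ, hδ, ?_⟩
      intro s t hst
      have := hp (h2 s) (h2 t) (by
        have hst' : |(s : ℝ) - t| < δ := hst
        show |((s : ℝ) + 1) / 2 - ((t : ℝ) + 1) / 2| < δ
        rw [abs_lt] at hst' ⊢
        constructor <;> linarith)
      rw [g2, g2] at this
      exact this
    rw [hΘ _ _ ⟨δ, hδ, hp⟩, hΘ _ _ p1, hΘ _ _ p2]
    have q1 : h1 0 = 0 := Subtype.ext (by show ((0 : unitInterval) : ℝ) / 2 = 0; simp)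
    have q2 : h1 1 = h2 0 := Subtype.ext (by
      show ((1 : unitInterval) : ℝ) / 2 = (((0 : unitInterval) : ℝ) + 1) / 2; simp)
    have q3 : h2 1 = 1 := Subtype.ext (by
      show (((1 : unitInterval) : ℝ) + 1) / 2 = 1; norm_num)
    show _ = (φ (h1 0))⁻¹ * φ (h1 1) * ((φ (h2 0))⁻¹ * φ (h2 1))
    rw [q1, q2, q3]
    group
  · intro x y γ
    obtain ⟨φ, δ, hδ, hp⟩ := hex γ
    have p1 : Pot m γ.symm (fun t => φ (unitInterval.symm t)) := by
      refine ⟨δ, hδ, ?_⟩
      intro s t hst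
      have := hp (unitInterval.symm s) (unitInterval.symm t) (by
        have hst' : |(s : ℝ) - t| < δ := hst
        show |(1 - (s : ℝ)) - (1 - (t : ℝ))| < δ
        rw [abs_lt] at hst' ⊢
        constructor <;> linarith)
      exact this
    rw [hΘ _ _ p1, hΘ γ φ ⟨δ, hδ, hp⟩]
    simp
  · intro x y γ hγ
    have p : Pot m γ (fun t => m x (γ t)) := by
      refine ⟨1, one_pos, ?_⟩
      intro s t _
      have h0 : ∀ t, dist x (γ t) < ε := fun t => by
        have := hγ 0 t
        rwa [γ.source] at this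
      exact (hm _ _ _ (h0 s) (hγ s t) (h0 t)).symm
    rw [hΘ _ _ p]
    simp [m_self hε hm]

end Pool.Agent.FM
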