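import Pool.Agent.FM.Defs

/-!
# The local cocycle on the closed neighbourhood defined by a flat connection
-/

open Set Topology

namespace Pool.Agent.FM

namespace B09

variable {n : ℕ} {G : Type} [Group G]

/-- coordinates of vertices of a cell -/
def Cv (b : ZMod n) (a : C1 n) : Prop := b = a.1 ∨ (a.2 = true ∧ b = a.1 + 1)

theorem cv_of_face1 {b : ZMod n} {a : C1 n} (h : Face1 (b, false) a) : Cv b a := by
  rcases h with h | ⟨h1, _, h2⟩
  · left; rw [← h]
  · rcases h2 with h2 | h2
    · exact Or.inl h2
    · exact Or.inr ⟨h1, h2⟩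

theorem face1_of_cv {b : ZMod n} {a : C1 n} (h : Cv b a) : Face1 (b, false) a := by
  rcases h with h | ⟨h1, h2⟩
  · rcases a with ⟨a, t⟩
    cases t
    · left; simp_all
    · right; exact ⟨rfl, rfl, Or.inl h⟩
  · right; exact ⟨h1, rfl, Or.inr h2⟩

theorem one_ne_zero' (hn : 3 ≤ n) : (1 : ZMod n) ≠ 0 := by
  have : Fact (1 < n) := ⟨by omega⟩
  exact one_ne_zero

theorem two_ne_zero' (hn : 3 ≤ n) : (1 + 1 : ZMod n) ≠ 0 := by
  intro h
  have h2 : ((2 : ℕ) : ZMod n) = 0 := by
    push_cast
    rw [← one_add_one_eq_two]; exact h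
  rw [ZMod.natCast_eq_zero_iff] at h2
  exact absurd (Nat.le_of_dvd (by norm_num) h2) (by omega)

theorem stp_self (c : Vx n → Fin 5 → G) (v : Vx n) (i : Fin 5) : stp c v i (v i) = 1 := by
  simp [stp]

theorem stp_up (hn : 3 ≤ n) (c : Vx n → Fin 5 → G) (v : Vx n) (i : Fin 5) {b : ZMod n}
    (hb : b = v i + 1) : stp c v i b = c v i := by
  have h : b ≠ v i := by
    rw [hb]; intro h
    exact one_ne_zero' hn (by simpa using h)
  rw [stp, if_neg h, if_pos hb]

theorem stp_down (hn : 3 ≤ n) (c : Vx n → Fin 5 → G) (v : Vx n) (i : Fin 5) {b : ZMod n}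
    (hb : v i = b + 1) : stp c v i b = (c (Function.update v i b) i)⁻¹ := by
  have h : b ≠ v i := by
    rw [hb]; intro h
    exact one_ne_zero' hn (by simpa using h)
  have h2 : b ≠ v i + 1 := by
    rw [hb]; intro h
    apply two_ne_zero' hn
    have : b + (1 + 1) = b := by rw [← add_assoc]; exact h.symm
    simpa using this
  rw [stp, if_neg h, if_neg h2]

/-- two steps in the same direction -/
theorem stp_comp (hn : 3 ≤ n) (c : Vx n → Fin 5 → G) {a : C1 n} {v : Vx n} {i : Fin 5}
    {p q : ZMod n} (hv : Cv (v i) a) (hp : Cv p a) (hq : Cv q a) :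
    stp c v i p * stp c (Function.update v i p) i q = stp c v i q := by
  by_cases h1 : p = v i
  · subst h1
    rw [stp_self, Function.update_eq_self, one_mul]
  by_cases h2 : q = p
  · subst h2
    have : stp c (Function.update v i q) i q = 1 := by simp [stp]
    rw [this, mul_one]
  -- now `q = v i`
  have h3 : q = v i := by
    rcases hv with hv | ⟨_, hv⟩ <;> rcases hp with hp | ⟨_, hp⟩ <;> rcases hq with hq | ⟨_, hq⟩ <;>
      simp_all
  subst h3
  rw [stp_self]
  rcases hv with hv | ⟨_, hv⟩
  · rcases hp with hp | ⟨_, hp⟩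
    · exact absurd (hp.trans hv.symm) h1
    · rw [stp_up hn c v i (by rw [hp, hv]), stp_down hn c _ i (by simp [hp, hv])]
      simp
  · rcases hp with hp | ⟨_, hp⟩
    · rw [stp_down hn c v i (by rw [hp, hv]), stp_up hn c _ i (by simp [hp, hv])]
      simp
    · exact absurd (hp.trans hv.symm) h1

/-- two steps in different directions commute -/
theorem stp_comm (hn : 3 ≤ n) {L : Set (Cell n)}
    (hL : IsCx L) {c : Vx n → Fin 5 → G} (hc : Flat L c) {a : Cell n} (ha : a ∈ L) {v : Vx n}
    (hv : ∀ i, Cv (v i) (a i)) {i j : Fin 5} (hij : i ≠ j) {p q : ZMod n} (hp : Cv p (a i))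
    (hq : Cv q (a j)) :
    stp c v i p * stp c (Function.update v i p) j q
      = stp c v j q * stp c (Function.update v j q) i p := by
  classical
  -- reduce to the corner
  have key : ∀ w : Vx n, (∀ k, Cv (w k) (a k)) → w i = (a i).1 → w j = (a j).1 →
      (a i).2 = true → (a j).2 = true →
      c w i * c (Function.update w i (w i + 1)) j = c w j * c (Function.update w j (w j + 1)) i := by
    intro w hw h1 h2 h3 h4
    refine hc w i j hij (hL a ha _ ?_)
    intro k
    by_cases hk : k = i ∨ k = j
    · left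
      rcases hk with rfl | rfl
      · simp [sc, h1, ← h3]
      · simp [sc, h2, ← h4]
    · have : sc w i j k = (w k, false) := by simp [sc, hk]
      rw [this]
      exact face1_of_cv (hw k)
  have hji : j ≠ i := fun h => hij h.symm
  by_cases h1 : p = v i
  · subst h1
    rw [stp_self, Function.update_eq_self, one_mul]
    have : stp c (Function.update v j q) i (v i) = 1 := by
      simp [stp, Function.update_of_ne hij]
    rw [this, mul_one]
  by_cases h2 : q = v j
  · subst h2
    rw [stp_self, Function.update_eq_self, one_mul]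
    have : stp c (Function.update v i p) j (v j) = 1 := by
      simp [stp, Function.update_of_ne hji]
    rw [this, mul_one]
  have hi : (a i).2 = true := by
    rcases hv i with h | h
    · rcases hp with h' | h'
      · exact absurd (h'.trans h.symm) h1
      · exact h'.1
    · exact h.1
  have hj : (a j).2 = true := by
    rcases hv j with h | h
    · rcases hq with h' | h'
      · exact absurd (h'.trans h.symm) h2
      · exact h'.1
    · exact h.1
  -- the corner
  set w : Vx n := Function.update (Function.update v i (a i).1) j (a j).1 with hw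
  have wi : w i = (a i).1 := by
    rw [hw, Function.update_of_ne hij, Function.update_self]
  have wj : w j = (a j).1 := by
    rw [hw, Function.update_self]
  have hwc : ∀ k, Cv (w k) (a k) := by
    intro k
    by_cases hk : k = j
    · subst hk; rw [wj]; exact Or.inl rfl
    by_cases hk' : k = i
    · subst hk'; rw [wi]; exact Or.inl rfl
    · rw [hw, Function.update_of_ne hk, Function.update_of_ne hk']; exact hv k
  have hkey := key w hwc wi wj hi hj
  rw [wi, wj] at hkey
  have e1 : Function.update w i ((a i).1 + 1)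
      = Function.update (Function.update v i ((a i).1 + 1)) j (a j).1 := by
    rw [hw]
    rw [Function.update_comm hji, Function.update_idem, Function.update_comm hij]
  have e2 : Function.update w j ((a j).1 + 1)
      = Function.update (Function.update v i (a i).1) j ((a j).1 + 1) := by
    rw [hw]
    rw [Function.update_idem]
  rw [e1, e2, hw] at hkey
  have vi : v i = (a i).1 → Function.update v i (a i).1 = v := by
    intro h; rw [← h, Function.update_eq_self]
  have vj : v j = (a j).1 → Function.update v j (a j).1 = v := by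
    intro h; rw [← h, Function.update_eq_self]
  have vi' : v i = (a i).1 + 1 → Function.update v i ((a i).1 + 1) = v := by
    intro h; rw [← h, Function.update_eq_self]
  have vj' : v j = (a j).1 + 1 → Function.update v j ((a j).1 + 1) = v := by
    intro h; rw [← h, Function.update_eq_self]
  rcases hv i with h | ⟨_, h⟩
  · have hp' : p = (a i).1 + 1 := by
      rcases hp with h' | h'
      · exact absurd (h'.trans h.symm) h1
      · exact h'.2
    rcases hv j with h' | ⟨_, h'⟩
    · have hq' : q = (a j).1 + 1 := by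
        rcases hq with h3 | h3
        · exact absurd (h3.trans h'.symm) h2
        · exact h3.2
      rw [stp_up hn c v i (by rw [hp', h]), stp_up hn c v j (by rw [hq', h']),
        stp_up hn c _ j (by rw [Function.update_of_ne hji, hq', h']),
        stp_up hn c _ i (by rw [Function.update_of_ne hij, hp', h])]
      rw [vi h, vj h', Function.update_comm hij, vj h'] at hkey
      rw [hp', hq']
      exact hkey
    · have hq' : q = (a j).1 := by
        rcases hq with h3 | h3
        · exact h3
        · exact absurd (h3.2.trans h'.symm) h2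
      rw [stp_up hn c v i (by rw [hp', h]), stp_down hn c v j (by rw [hq', h']),
        stp_down hn c _ j (by rw [Function.update_of_ne hji, hq', h']),
        stp_up hn c _ i (by rw [Function.update_of_ne hij, hp', h])]
      rw [vi h, vj' h'] at hkey
      rw [hp', hq']
      rw [mul_inv_eq_iff_eq_mul, mul_assoc, eq_inv_mul_iff_mul_eq]
      exact hkey.symm
  · have hp' : p = (a i).1 := by
      rcases hp with h' | h'
      · exact h'
      · exact absurd (h'.2.trans h.symm) h1
    rcases hv j with h' | ⟨_, h'⟩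
    · have hq' : q = (a j).1 + 1 := by
        rcases hq with h3 | h3
        · exact absurd (h3.trans h'.symm) h2
        · exact h3.2
      rw [stp_down hn c v i (by rw [hp', h]), stp_up hn c v j (by rw [hq', h']),
        stp_up hn c _ j (by rw [Function.update_of_ne hji, hq', h']),
        stp_down hn c _ i (by rw [Function.update_of_ne hij, hp', h])]
      rw [vi' h, vj h', Function.update_comm hij, vj h'] at hkey
      rw [hp', hq']
      rw [Function.update_comm hij] at hkey
      rw [eq_mul_inv_iff_mul_eq, mul_assoc, inv_mul_eq_iff_eq_mul]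
      exact hkey.symm
    · have hq' : q = (a j).1 := by
        rcases hq with h3 | h3
        · exact h3
        · exact absurd (h3.2.trans h'.symm) h2
      rw [stp_down hn c v i (by rw [hp', h]), stp_down hn c v j (by rw [hq', h']),
        stp_down hn c _ j (by rw [Function.update_of_ne hji, hq', h']),
        stp_down hn c _ i (by rw [Function.update_of_ne hij, hp', h])]
      rw [vi' h, Function.update_comm hij (a i).1 ((a j).1 + 1) v, vj' h'] at hkey
      rw [hp', hq', ← mul_inv_rev, ← mul_inv_rev, inv_inj]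
      rw [Function.update_comm hji (a j).1 (a i).1 v]
      exact hkey.symm

/-- transport along a list of directions -/
def tr (c : Vx n → Fin 5 → G) : Vx n → Vx n → List (Fin 5) → G
  | _, _, [] => 1
  | v, w, i :: l => stp c v i (w i) * tr c (Function.update v i (w i)) w l

/-- the end point of the transport -/
def en : Vx n → Vx n → List (Fin 5) → Vx n
  | v, _, [] => v
  | v, w, i :: l => en (Function.update v i (w i)) w l

theorem en_apply_of_not_mem (w : Vx n) (l : List (Fin 5)) : ∀ (v : Vx n) {k : Fin 5}, k ∉ l →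
    en v w l k = v k := by
  induction l with
  | nil => intro v k _; rfl
  | cons i l ih =>
    intro v k hk
    simp only [List.mem_cons, not_or] at hk
    rw [en, ih _ hk.2, Function.update_of_ne hk.1]

theorem en_apply_of_mem (w : Vx n) (l : List (Fin 5)) : ∀ (v : Vx n) {k : Fin 5}, k ∈ l →
    en v w l k = w k := by
  induction l with
  | nil => intro v k hk; simp at hk
  | cons i l ih =>
    intro v k hk
    rw [en]
    by_cases h : k ∈ l
    · exact ih _ h
    · rw [en_apply_of_not_mem _ _ _ h]
      simp only [List.mem_cons] at hk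
      rcases hk with hk | hk
      · subst hk; simp
      · exact absurd hk h

theorem en_update (w : Vx n) (l : List (Fin 5)) : ∀ (v : Vx n) {k : Fin 5} (p : ZMod n), k ∉ l →
    en (Function.update v k p) w l = Function.update (en v w l) k p := by
  induction l with
  | nil => intro v k p _; rfl
  | cons i l ih =>
    intro v k p hk
    simp only [List.mem_cons, not_or] at hk
    rw [en, en, Function.update_comm hk.1, ih _ _ hk.2]

theorem cv_update {a : Cell n} {v : Vx n} (hv : ∀ i, Cv (v i) (a i)) {i : Fin 5} {p : ZMod n}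
    (hp : Cv p (a i)) : ∀ k, Cv (Function.update v i p k) (a k) := by
  intro k
  by_cases hk : k = i
  · subst hk; rw [Function.update_self]; exact hp
  · rw [Function.update_of_ne hk]; exact hv k

/-- the transport commutes with a step in a new direction -/
theorem tr_comm (hn : 3 ≤ n) {L : Set (Cell n)}
    (hL : IsCx L) {c : Vx n → Fin 5 → G} (hc : Flat L c) {a : Cell n} (ha : a ∈ L) {w : Vx n}
    (hw : ∀ i, Cv (w i) (a i)) (l : List (Fin 5)) : ∀ (v : Vx n), (∀ i, Cv (v i) (a i)) →
    ∀ {k : Fin 5} {p : ZMod n}, Cv p (a k) → k ∉ l →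
    tr c v w l * stp c (en v w l) k p = stp c v k p * tr c (Function.update v k p) w l := by
  induction l with
  | nil => intro v hv k p hp _; simp [tr, en]
  | cons i l ih =>
    intro v hv k p hp hk
    simp only [List.mem_cons, not_or] at hk
    rw [tr, tr, en, mul_assoc, ih _ (cv_update hv (hw i)) hp hk.2, ← mul_assoc,
      stp_comm hn hL hc ha hv (Ne.symm hk.1) (hw i) hp, mul_assoc]
    rw [Function.update_comm hk.1]

theorem tr_comp (hn : 3 ≤ n) {L : Set (Cell n)}
    (hL : IsCx L) {c : Vx n → Fin 5 → G} (hc : Flat L c) {a : Cell n} (ha : a ∈ L) {v w : Vx n}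
    (hv : ∀ i, Cv (v i) (a i)) (hw : ∀ i, Cv (w i) (a i)) (l : List (Fin 5)) (hl : l.Nodup) :
    ∀ (u : Vx n), (∀ i, Cv (u i) (a i)) →
    tr c u v l * tr c (en u v l) w l = tr c u w l := by
  induction l with
  | nil => intro u hu; simp [tr]
  | cons i l ih =>
    intro u hu
    rw [List.nodup_cons] at hl
    have h1 : tr c u v (i :: l) * tr c (en u v (i :: l)) w (i :: l)
        = stp c u i (v i) * (tr c (Function.update u i (v i)) v l *
          stp c (en (Function.update u i (v i)) v l) i (w i)) *
          tr c (Function.update (en (Function.update u i (v i)) v l) i (w i)) w l := by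
      rw [tr, en, tr]
      simp only [mul_assoc]
    rw [h1, tr_comm hn hL hc ha hv l _ (cv_update hu (hv i)) (hw i) hl.1, Function.update_idem,
      ← en_update _ _ _ _ hl.1, Function.update_idem, ← mul_assoc,
      stp_comp hn c (hu i) (hv i) (hw i), mul_assoc, ih hl.2 _ (cv_update hu (hw i)), tr]

theorem ell_eq_tr (c : Vx n → Fin 5 → G) (v w : Vx n) : ell c v w = tr c v w [0, 1, 2, 3, 4] := by
  simp only [ell, tr, mul_one, mul_assoc]

theorem en_all (v w : Vx n) : en v w [0, 1, 2, 3, 4] = w := by
  funext k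
  apply en_apply_of_mem
  fin_cases k <;> simp

end B09

open B09

theorem ell_cell {n : ℕ} [NeZero n] (hn : 3 ≤ n) {G : Type} [Group G] {L : Set (Cell n)}
    (hL : IsCx L) {c : Vx n → Fin 5 → G} (hc : Flat L c) {a : Cell n} (ha : a ∈ L) {u v w : Vx n}
    (hu : Face (vc u) a) (hv : Face (vc v) a) (hw : Face (vc w) a) :
    ell c u v * ell c v w = ell c u w := by
  have h := tr_comp hn hL hc ha (fun i => cv_of_face1 (hv i)) (fun i => cv_of_face1 (hw i))
    [0, 1, 2, 3, 4] (by decide) u (fun i => cv_of_face1 (hu i))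
  rw [en_all] at h
  rw [ell_eq_tr, ell_eq_tr, ell_eq_tr]
  exact h

theorem B09.dbl_face1 {n : ℕ} [NeZero n] {A : ℕ} (hA : A + 1 ≤ n) {a b : C1 n}
    (h : Face1 b a) (ha : dbl a ≤ 2 * A) : dbl b ≤ 2 * A := by
  rcases h with rfl | ⟨h1, h2, h3⟩
  · exact ha
  · unfold dbl at ha ⊢
    rw [h1] at ha
    rw [h2]
    simp only [Bool.toNat_true, Bool.toNat_false, add_zero] at ha ⊢
    have hlt := ZMod.val_lt a.1
    rcases h3 with h3 | h3
    · rw [h3]; omega
    · rw [h3]
      have h4 : (a.1 + 1).val ≤ a.1.val + 1 := by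
        calc (a.1 + 1).val ≤ a.1.val + (1 : ZMod n).val := ZMod.val_add_le _ _
          _ ≤ a.1.val + 1 := by
            have : (1 : ZMod n).val ≤ 1 := by
              rw [ZMod.val_one_eq_one_mod]; exact Nat.mod_le _ _
            omega
      omega

theorem isCx_PC {n : ℕ} [NeZero n] {A : ℕ} (hA : A + 3 ≤ n) (hn : 5 ≤ n) : IsCx (PC n A) := by
  rintro a ⟨h1, h2⟩ b hb
  exact ⟨B09.dbl_face1 (by omega) (hb 3) h1, B09.dbl_face1 (A := 3) (by omega) (hb 4) h2⟩

/-- a vertex whose nearest interval is close to `x` is a vertex of the cell of `x` -/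
theorem B09.kap_aux {n : ℕ} {x y : ℝ} (h : |x - y| < 1 / 2) :
    Face1 ((((kapZ y : ℤ) : ZMod n)), false) (cst n (loZ 1 x)) := by
  have hx := kapZ_bounds y
  rw [abs_lt] at h
  set k := kapZ y
  have : ((((k : ℤ) : ZMod n)), false) = cst n (k, false) := rfl
  rw [this]
  apply face1_cst
  by_cases h1 : x < 3 * (k : ℝ) - 1
  · rw [(loZ_true_iff (d := 1) (x := x) (k := k - 1) (by norm_num) (by norm_num)).mpr
      ⟨by push_cast; linarith, by push_cast; linarith⟩]
    right
    refine ⟨rfl, rfl, Or.inr ?_⟩
    simp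
  by_cases h2 : x ≤ 3 * (k : ℝ) + 1
  · rw [(loZ_false_iff (d := 1) (x := x) (k := k) (by norm_num) (by norm_num)).mpr
      ⟨by linarith, h2⟩]
    left; rfl
  · rw [(loZ_true_iff (d := 1) (x := x) (k := k) (by norm_num) (by norm_num)).mpr
      ⟨by linarith, by linarith⟩]
    right
    exact ⟨rfl, rfl, Or.inl rfl⟩

theorem B09.kap_aux' {n : ℕ} [NeZero n] {x y : Circ n} (h : dist x y < 1 / 2) :
    Face1 (kap y, false) (lo 1 x) := by
  induction x using QuotientAddGroup.induction_on with
  | H x =>
  induction y using QuotientAddGroup.induction_on with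
  | H y =>
    have h' : ‖((x - y : ℝ) : Circ n)‖ < 1 / 2 := by
      rw [dist_eq_norm] at h
      exact h
    rw [AddCircle.norm_eq] at h'
    set m := round ((3 * (n : ℝ))⁻¹ * (x - y)) with hm
    have e1 : ((x - m * (3 * (n : ℝ)) : ℝ) : Circ n) = ((x : ℝ) : Circ n) := by
      have : ((m * (3 * (n : ℝ)) : ℝ) : Circ n) = 0 := by
        rw [AddCircle.coe_eq_zero_iff]
        exact ⟨m, by simp⟩
      rw [AddCircle.coe_sub, this, sub_zero]
    have key := B09.kap_aux (n := n) (x := x - m * (3 * (n : ℝ))) (y := y)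
      (by rw [show x - m * (3 * (n : ℝ)) - y = x - y - m * (3 * (n : ℝ)) by ring]; exact h')
    show Face1 (((kapZ y : ℤ) : ZMod n), false) (lo 1 ((x : ℝ) : Circ n))
    rw [← e1]
    exact key

theorem kap_vertex {n : ℕ} [NeZero n] (q : Tor n) : Face (vc (Kap q)) (Lo 1 q) := by
  intro i
  exact B09.kap_aux' (by simp)

theorem kap_close {n : ℕ} [NeZero n] (hn : 3 ≤ n) (q1 q2 q3 : Tor n) (h12 : dist q1 q2 < 1 / 2)
    (h13 : dist q1 q3 < 1 / 2) (h23 : dist q2 q3 < 1 / 2) :
    Face (vc (Kap q1)) (Lo 1 q1) ∧ Face (vc (Kap q2)) (Lo 1 q1) ∧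
    Face (vc (Kap q3)) (Lo 1 q1) := by
  refine ⟨kap_vertex q1, fun i => ?_, fun i => ?_⟩
  · exact B09.kap_aux' (lt_of_le_of_lt (dist_le_pi_dist q1 q2 i) h12)
  · exact B09.kap_aux' (lt_of_le_of_lt (dist_le_pi_dist q1 q3 i) h13)

theorem cocycle_Np {n : ℕ} [NeZero n] (hn : 5 ≤ n) {A : ℕ} (hA : A + 3 ≤ n) {G : Type} [Group G]
    {K : Set (Cell n)} (hK : IsCx K) {c : Vx n → Fin 5 → G} (hc : Flat (K ∩ PC n A) c)
    (x y z : Np K A) (hxy : dist x y < 1 / 2) (hyz : dist y z < 1 / 2) (hxz : dist x z < 1 / 2) :
    ell c (Kap x.1) (Kap y.1) * ell c (Kap y.1) (Kap z.1) = ell c (Kap x.1) (Kap z.1) := by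
  have hPC := isCx_PC hA hn
  have hL : IsCx (K ∩ PC n A) := fun a ha b hb => ⟨hK a ha.1 b hb, hPC a ha.2 b hb⟩
  obtain ⟨h1, h2, h3⟩ := kap_close (by omega) x.1 y.1 z.1 hxy hxz hyz
  have ha : Lo 1 x.1 ∈ K ∩ PC n A :=
    ⟨x.2.1, hPC _ x.2.2 _ (face_Lo_Lo (le_refl 0) (by norm_num) (by norm_num) _)⟩
  exact ell_cell (by omega) hL hc ha h1 h2 h3

end Pool.Agent.FM
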