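import Mathlib

/-!
# Cubical hypersurfaces in the five-dimensional torus: definitions

`C1 n` is the set of cells of the circle with `n` vertices: `(k, false)` is the vertex `k` and
`(k, true)` the open edge from `k` to `k + 1`.  A cell of the five-dimensional torus is a function
`Fin 5 → C1 n`.  The torus `Tor n` has side `3 * n`, the vertex `k` sits at the coordinate `3 * k`.
For a complex `K`, `X K` is the boundary of the cubical neighbourhood of radius one of `K`.
-/

open Set Topology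

namespace Pool.Agent.FM

/-- cells of the circle with `n` vertices -/
abbrev C1 (n : ℕ) : Type := ZMod n × Bool

/-- cells of the five-dimensional torus -/
abbrev Cell (n : ℕ) : Type := Fin 5 → C1 n

/-- vertices of the five-dimensional torus -/
abbrev Vx (n : ℕ) : Type := Fin 5 → ZMod n

/-- `b` is a face of `a` (possibly equal to `a`) -/
def Face1 {n : ℕ} (b a : C1 n) : Prop :=
  b = a ∨ (a.2 = true ∧ b.2 = false ∧ (b.1 = a.1 ∨ b.1 = a.1 + 1))

/-- `b` is a face of `a` (possibly equal to `a`) -/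
def Face {n : ℕ} (b a : Cell n) : Prop := ∀ i, Face1 (b i) (a i)

/-- subcomplexes: sets of cells closed under passing to faces -/
def IsCx {n : ℕ} (K : Set (Cell n)) : Prop := ∀ a ∈ K, ∀ b, Face b a → b ∈ K

/-- the number of edge directions of a cell -/
def dimC {n : ℕ} (a : Cell n) : ℕ := (Finset.univ.filter fun i => (a i).2 = true).card

/-- the circle of length `3 * n` -/
abbrev Circ (n : ℕ) : Type := AddCircle (3 * (n : ℝ))

/-- the torus -/
abbrev Tor (n : ℕ) : Type := Fin 5 → Circ n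

instance {n : ℕ} [NeZero n] : Fact ((0 : ℝ) < 3 * (n : ℝ)) :=
  ⟨by have := NeZero.pos n; positivity⟩

/-- reduction of the cells of the line to the cells of the circle -/
def cst (n : ℕ) (a : ℤ × Bool) : C1 n := ((a.1 : ZMod n), a.2)

/-- the cell of the line containing `x`, when the vertices are thickened to closed intervals of
radius `d` -/
noncomputable def loZ (d x : ℝ) : ℤ × Bool :=
  if x - 3 * ⌊x / 3⌋ ≤ d then (⌊x / 3⌋, false)
  else if x - 3 * ⌊x / 3⌋ < 3 - d then (⌊x / 3⌋, true) else (⌊x / 3⌋ + 1, false)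

/-- the cell of the line containing `x`, when the vertices are thickened to open intervals of
radius `d` -/
noncomputable def hiZ (d x : ℝ) : ℤ × Bool :=
  if x - 3 * ⌊x / 3⌋ < d then (⌊x / 3⌋, false)
  else if x - 3 * ⌊x / 3⌋ ≤ 3 - d then (⌊x / 3⌋, true) else (⌊x / 3⌋ + 1, false)

/-- the nearest vertex -/
noncomputable def kapZ (x : ℝ) : ℤ := ⌊x / 3 + 1 / 2⌋

theorem floor_add_three_mul (x : ℝ) (m : ℤ) : ⌊(x + 3 * m) / 3⌋ = ⌊x / 3⌋ + m := by
  rw [show (x + 3 * m) / 3 = x / 3 + m by ring, Int.floor_add_intCast]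

theorem loZ_add (d x : ℝ) (m : ℤ) : loZ d (x + 3 * m) = ((loZ d x).1 + m, (loZ d x).2) := by
  unfold loZ
  rw [floor_add_three_mul]
  have e : x + 3 * (m : ℝ) - 3 * ((⌊x / 3⌋ + m : ℤ) : ℝ) = x - 3 * (⌊x / 3⌋ : ℝ) := by
    push_cast; ring
  rw [e]
  split_ifs <;> simp [add_right_comm]

theorem hiZ_add (d x : ℝ) (m : ℤ) : hiZ d (x + 3 * m) = ((hiZ d x).1 + m, (hiZ d x).2) := by
  unfold hiZ
  rw [floor_add_three_mul]
  have e : x + 3 * (m : ℝ) - 3 * ((⌊x / 3⌋ + m : ℤ) : ℝ) = x - 3 * (⌊x / 3⌋ : ℝ) := by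
    push_cast; ring
  rw [e]
  split_ifs <;> simp [add_right_comm]

theorem kapZ_add (x : ℝ) (m : ℤ) : kapZ (x + 3 * m) = kapZ x + m := by
  unfold kapZ
  rw [show (x + 3 * m) / 3 + 1 / 2 = (x / 3 + 1 / 2) + m by ring, Int.floor_add_intCast]

theorem loZ_periodic (n : ℕ) (d : ℝ) :
    Function.Periodic (fun x => cst n (loZ d x)) (3 * (n : ℝ)) := by
  intro x
  have := loZ_add d x (n : ℤ)
  simp only [Int.cast_natCast] at this
  simp only [this, cst]
  simp

theorem hiZ_periodic (n : ℕ) (d : ℝ) :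
    Function.Periodic (fun x => cst n (hiZ d x)) (3 * (n : ℝ)) := by
  intro x
  have := hiZ_add d x (n : ℤ)
  simp only [Int.cast_natCast] at this
  simp only [this, cst]
  simp

theorem kapZ_periodic (n : ℕ) :
    Function.Periodic (fun x => ((kapZ x : ℤ) : ZMod n)) (3 * (n : ℝ)) := by
  intro x
  have := kapZ_add x (n : ℤ)
  simp only [Int.cast_natCast] at this
  simp only [this]
  simp

/-- `loZ` on the circle -/
noncomputable def lo {n : ℕ} (d : ℝ) : Circ n → C1 n := (loZ_periodic n d).lift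

/-- `hiZ` on the circle -/
noncomputable def hi {n : ℕ} (d : ℝ) : Circ n → C1 n := (hiZ_periodic n d).lift

/-- nearest vertex on the circle -/
noncomputable def kap {n : ℕ} : Circ n → ZMod n := (kapZ_periodic n).lift

@[simp] theorem lo_coe {n : ℕ} (d x : ℝ) : lo d (x : Circ n) = cst n (loZ d x) := rfl
@[simp] theorem hi_coe {n : ℕ} (d x : ℝ) : hi d (x : Circ n) = cst n (hiZ d x) := rfl
@[simp] theorem kap_coe {n : ℕ} (x : ℝ) : kap (x : Circ n) = ((kapZ x : ℤ) : ZMod n) := rfl

/-- the closed neighbourhood cell of a point of the torus -/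
noncomputable def Lo {n : ℕ} (d : ℝ) (q : Tor n) : Cell n := fun i => lo d (q i)
/-- the open neighbourhood cell of a point of the torus -/
noncomputable def Hi {n : ℕ} (d : ℝ) (q : Tor n) : Cell n := fun i => hi d (q i)
/-- the nearest vertex of a point of the torus -/
noncomputable def Kap {n : ℕ} (q : Tor n) : Vx n := fun i => kap (q i)

/-- the point of the torus with given real coordinates -/
def pt (n : ℕ) (y : Fin 5 → ℝ) : Tor n := fun i => ((y i : ℝ) : Circ n)

@[simp] theorem Lo_pt {n : ℕ} (d : ℝ) (y : Fin 5 → ℝ) (i : Fin 5) :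
    Lo d (pt n y) i = cst n (loZ d (y i)) := rfl
@[simp] theorem Hi_pt {n : ℕ} (d : ℝ) (y : Fin 5 → ℝ) (i : Fin 5) :
    Hi d (pt n y) i = cst n (hiZ d (y i)) := rfl
@[simp] theorem Kap_pt {n : ℕ} (y : Fin 5 → ℝ) (i : Fin 5) :
    Kap (pt n y) i = ((kapZ (y i) : ℤ) : ZMod n) := rfl

theorem exists_pt {n : ℕ} (q : Tor n) : ∃ y : Fin 5 → ℝ, pt n y = q := by
  refine ⟨fun i => Quotient.out (q i), ?_⟩
  funext i
  exact Quotient.out_eq (q i)

theorem continuous_pt (n : ℕ) : Continuous (pt n) :=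
  continuous_pi fun i => (AddCircle.continuous_mk' _).comp (continuous_apply i)

/-- the hypersurface of a complex: boundary of the cubical neighbourhood of radius one -/
def X {n : ℕ} (K : Set (Cell n)) : Set (Tor n) := {q | Lo 1 q ∈ K ∧ Hi 1 q ∉ K}

/-! ### characterisation of the cells -/

section char

variable {d x : ℝ} {k : ℤ}

theorem loZ_false_iff (h0 : 0 ≤ d) (h1 : d < 3 / 2) :
    loZ d x = (k, false) ↔ 3 * (k : ℝ) - d ≤ x ∧ x ≤ 3 * k + d := by
  have hf1 : (⌊x / 3⌋ : ℝ) ≤ x / 3 := Int.floor_le _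
  have hf2 : x / 3 < ⌊x / 3⌋ + 1 := Int.lt_floor_add_one _
  unfold loZ
  constructor
  · intro h
    split_ifs at h with h2 h3
    · simp only [Prod.mk.injEq, and_true] at h
      subst h
      constructor <;> linarith
    · simp at h
    · simp only [Prod.mk.injEq, and_true] at h
      subst h
      push_cast
      constructor <;> linarith
  · rintro ⟨h2, h3⟩
    by_cases hc : 3 * (k : ℝ) ≤ x
    · have hk : ⌊x / 3⌋ = k := by
        rw [Int.floor_eq_iff]
        constructor <;> linarith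
      rw [hk, if_pos (by linarith)]
    · push Not at hc
      have hk : ⌊x / 3⌋ = k - 1 := by
        rw [Int.floor_eq_iff]
        push_cast
        constructor <;> linarith
      rw [hk]
      push_cast
      rw [if_neg (by linarith), if_neg (by linarith)]
      simp

theorem loZ_true_iff (h0 : 0 ≤ d) (_h1 : d < 3 / 2) :
    loZ d x = (k, true) ↔ 3 * (k : ℝ) + d < x ∧ x < 3 * k + 3 - d := by
  have hf1 : (⌊x / 3⌋ : ℝ) ≤ x / 3 := Int.floor_le _
  have hf2 : x / 3 < ⌊x / 3⌋ + 1 := Int.lt_floor_add_one _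
  unfold loZ
  constructor
  · intro h
    split_ifs at h with h2 h3
    · simp at h
    · simp only [Prod.mk.injEq, and_true] at h
      subst h
      push Not at h2
      constructor <;> linarith
    · simp at h
  · rintro ⟨h2, h3⟩
    have hk : ⌊x / 3⌋ = k := by
      rw [Int.floor_eq_iff]
      constructor <;> linarith
    rw [hk, if_neg (by linarith), if_pos (by linarith)]

theorem hiZ_false_iff (h0 : 0 < d) (h1 : d ≤ 3 / 2) :
    hiZ d x = (k, false) ↔ 3 * (k : ℝ) - d < x ∧ x < 3 * k + d := by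
  have hf1 : (⌊x / 3⌋ : ℝ) ≤ x / 3 := Int.floor_le _
  have hf2 : x / 3 < ⌊x / 3⌋ + 1 := Int.lt_floor_add_one _
  unfold hiZ
  constructor
  · intro h
    split_ifs at h with h2 h3
    · simp only [Prod.mk.injEq, and_true] at h
      subst h
      constructor <;> linarith
    · simp at h
    · simp only [Prod.mk.injEq, and_true] at h
      subst h
      push_cast
      push Not at h3
      constructor <;> linarith
  · rintro ⟨h2, h3⟩
    by_cases hc : 3 * (k : ℝ) ≤ x
    · have hk : ⌊x / 3⌋ = k := by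
        rw [Int.floor_eq_iff]
        constructor <;> linarith
      rw [hk, if_pos (by linarith)]
    · push Not at hc
      have hk : ⌊x / 3⌋ = k - 1 := by
        rw [Int.floor_eq_iff]
        push_cast
        constructor <;> linarith
      rw [hk]
      push_cast
      rw [if_neg (by linarith), if_neg (by linarith)]
      simp

theorem hiZ_true_iff (h0 : 0 < d) (_h1 : d ≤ 3 / 2) :
    hiZ d x = (k, true) ↔ 3 * (k : ℝ) + d ≤ x ∧ x ≤ 3 * k + 3 - d := by
  have hf1 : (⌊x / 3⌋ : ℝ) ≤ x / 3 := Int.floor_le _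
  have hf2 : x / 3 < ⌊x / 3⌋ + 1 := Int.lt_floor_add_one _
  unfold hiZ
  constructor
  · intro h
    split_ifs at h with h2 h3
    · simp at h
    · simp only [Prod.mk.injEq, and_true] at h
      subst h
      push Not at h2
      constructor <;> linarith
    · simp at h
  · rintro ⟨h2, h3⟩
    have hk : ⌊x / 3⌋ = k := by
      rw [Int.floor_eq_iff]
      constructor <;> linarith
    rw [hk, if_neg (by linarith), if_pos (by linarith)]

theorem kapZ_bounds (x : ℝ) : 3 * (kapZ x : ℝ) - 3 / 2 ≤ x ∧ x < 3 * (kapZ x : ℝ) + 3 / 2 := by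
  have h1 : ((⌊x / 3 + 1 / 2⌋ : ℤ) : ℝ) ≤ x / 3 + 1 / 2 := Int.floor_le _
  have h2 : x / 3 + 1 / 2 < ⌊x / 3 + 1 / 2⌋ + 1 := Int.lt_floor_add_one _
  unfold kapZ
  constructor <;> linarith

theorem kapZ_eq_iff : kapZ x = k ↔ 3 * (k : ℝ) - 3 / 2 ≤ x ∧ x < 3 * (k : ℝ) + 3 / 2 := by
  unfold kapZ
  rw [Int.floor_eq_iff]
  constructor
  · rintro ⟨h1, h2⟩; constructor <;> linarith
  · rintro ⟨h1, h2⟩; constructor <;> linarith

/-- bounds satisfied by every point, in terms of its cell `loZ` -/
theorem loZ_spec (h0 : 0 ≤ d) (h1 : d < 3 / 2) :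
    ((loZ d x).2 = false ∧ 3 * ((loZ d x).1 : ℝ) - d ≤ x ∧ x ≤ 3 * ((loZ d x).1 : ℝ) + d) ∨
    ((loZ d x).2 = true ∧ 3 * ((loZ d x).1 : ℝ) + d < x ∧ x < 3 * ((loZ d x).1 : ℝ) + 3 - d) := by
  rcases h : loZ d x with ⟨k, b⟩
  cases b
  · left; exact ⟨rfl, (loZ_false_iff h0 h1).mp h⟩
  · right; exact ⟨rfl, (loZ_true_iff h0 h1).mp h⟩

theorem hiZ_spec (h0 : 0 < d) (h1 : d ≤ 3 / 2) :
    ((hiZ d x).2 = false ∧ 3 * ((hiZ d x).1 : ℝ) - d < x ∧ x < 3 * ((hiZ d x).1 : ℝ) + d) ∨
    ((hiZ d x).2 = true ∧ 3 * ((hiZ d x).1 : ℝ) + d ≤ x ∧ x ≤ 3 * ((hiZ d x).1 : ℝ) + 3 - d) := by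
  rcases h : hiZ d x with ⟨k, b⟩
  cases b
  · left; exact ⟨rfl, (hiZ_false_iff h0 h1).mp h⟩
  · right; exact ⟨rfl, (hiZ_true_iff h0 h1).mp h⟩

end char

theorem Face1.refl {n : ℕ} (a : C1 n) : Face1 a a := Or.inl rfl
theorem Face.refl {n : ℕ} (a : Cell n) : Face a a := fun i => Face1.refl (a i)

theorem Face1.trans {n : ℕ} {a b c : C1 n} (h1 : Face1 a b) (h2 : Face1 b c) : Face1 a c := by
  rcases h1 with rfl | ⟨h1, h3, h4⟩
  · exact h2
  · rcases h2 with rfl | ⟨h5, h6, h7⟩
    · exact Or.inr ⟨h1, h3, h4⟩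
    · rw [h6] at h1; exact absurd h1 (by simp)

theorem Face.trans {n : ℕ} {a b c : Cell n} (h1 : Face a b) (h2 : Face b c) : Face a c :=
  fun i => (h1 i).trans (h2 i)

theorem Face1.antisymm {n : ℕ} {a b : C1 n} (h1 : Face1 a b) (h2 : Face1 b a) : a = b := by
  rcases h1 with h1 | ⟨h1, h3, _⟩
  · exact h1
  · rcases h2 with h2 | ⟨h5, _, _⟩
    · exact h2.symm
    · rw [h3] at h5; exact absurd h5 (by simp)

theorem Face.antisymm {n : ℕ} {a b : Cell n} (h1 : Face a b) (h2 : Face b a) : a = b :=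
  funext fun i => (h1 i).antisymm (h2 i)

/-- reduction preserves faces -/
theorem face1_cst {n : ℕ} {a b : ℤ × Bool}
    (h : b = a ∨ (a.2 = true ∧ b.2 = false ∧ (b.1 = a.1 ∨ b.1 = a.1 + 1))) :
    Face1 (cst n b) (cst n a) := by
  rcases h with rfl | ⟨h1, h2, h3⟩
  · exact Or.inl rfl
  · refine Or.inr ⟨h1, h2, ?_⟩
    rcases h3 with h3 | h3
    · left; simp [cst, h3]
    · right; simp [cst, h3]

/-- the closed neighbourhood cell with larger radius is a face of the one with smaller radius -/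
theorem face1_lo_lo {n : ℕ} {d e : ℝ} (h0 : 0 ≤ d) (hde : d ≤ e) (h1 : e < 3 / 2) (x : Circ n) :
    Face1 (lo e x) (lo d x) := by
  induction x using QuotientAddGroup.induction_on with
  | H x =>
    show Face1 (cst n (loZ e x)) (cst n (loZ d x))
    apply face1_cst
    rcases h : loZ d x with ⟨k, b⟩
    cases b
    · left
      rw [loZ_false_iff h0 (by linarith)] at h
      rw [loZ_false_iff (by linarith) h1]
      constructor <;> linarith
    · rw [loZ_true_iff h0 (by linarith)] at h
      by_cases h2 : x ≤ 3 * k + e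
      · right
        rw [(loZ_false_iff (x := x) (k := k) (by linarith) h1).mpr ⟨by linarith, h2⟩]
        simp
      · by_cases h3 : 3 * (k : ℝ) + 3 - e ≤ x
        · right
          rw [(loZ_false_iff (x := x) (k := k + 1) (by linarith) h1).mpr
            ⟨by push_cast; linarith, by push_cast; linarith⟩]
          simp
        · left
          rw [loZ_true_iff (by linarith) h1]
          constructor <;> linarith

/-- `lo e` is a face of `hi d` for `d ≤ e` -/
theorem face1_lo_hi {n : ℕ} {d e : ℝ} (h0 : 0 < d) (hde : d ≤ e) (h1 : e < 3 / 2) (x : Circ n) :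
    Face1 (lo e x) (hi d x) := by
  induction x using QuotientAddGroup.induction_on with
  | H x =>
    show Face1 (cst n (loZ e x)) (cst n (hiZ d x))
    apply face1_cst
    rcases h : hiZ d x with ⟨k, b⟩
    cases b
    · left
      rw [hiZ_false_iff h0 (by linarith)] at h
      rw [loZ_false_iff (by linarith) h1]
      constructor <;> linarith
    · rw [hiZ_true_iff h0 (by linarith)] at h
      by_cases h2 : x ≤ 3 * k + e
      · right
        rw [(loZ_false_iff (x := x) (k := k) (by linarith) h1).mpr ⟨by linarith, h2⟩]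
        simp
      · by_cases h3 : 3 * (k : ℝ) + 3 - e ≤ x
        · right
          rw [(loZ_false_iff (x := x) (k := k + 1) (by linarith) h1).mpr
            ⟨by push_cast; linarith, by push_cast; linarith⟩]
          simp
        · left
          rw [loZ_true_iff (by linarith) h1]
          constructor <;> linarith

/-- `hi e` is a face of `lo d` for `d < e` -/
theorem face1_hi_lo {n : ℕ} {d e : ℝ} (h0 : 0 ≤ d) (hde : d < e) (h1 : e ≤ 3 / 2) (x : Circ n) :
    Face1 (hi e x) (lo d x) := by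
  induction x using QuotientAddGroup.induction_on with
  | H x =>
    show Face1 (cst n (hiZ e x)) (cst n (loZ d x))
    apply face1_cst
    rcases h : loZ d x with ⟨k, b⟩
    cases b
    · left
      rw [loZ_false_iff h0 (by linarith)] at h
      rw [hiZ_false_iff (by linarith) h1]
      constructor <;> linarith
    · rw [loZ_true_iff h0 (by linarith)] at h
      by_cases h2 : x < 3 * k + e
      · right
        rw [(hiZ_false_iff (x := x) (k := k) (by linarith) h1).mpr ⟨by linarith, h2⟩]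
        simp
      · by_cases h3 : 3 * (k : ℝ) + 3 - e < x
        · right
          rw [(hiZ_false_iff (x := x) (k := k + 1) (by linarith) h1).mpr
            ⟨by push_cast; linarith, by push_cast; linarith⟩]
          simp
        · left
          rw [hiZ_true_iff (by linarith) h1]
          constructor <;> linarith

theorem face_Lo_Hi {n : ℕ} {d e : ℝ} (h0 : 0 < d) (hde : d ≤ e) (h1 : e < 3 / 2) (q : Tor n) :
    Face (Lo e q) (Hi d q) := fun i => face1_lo_hi h0 hde h1 (q i)

theorem face_Lo_Lo {n : ℕ} {d e : ℝ} (h0 : 0 ≤ d) (hde : d ≤ e) (h1 : e < 3 / 2) (q : Tor n) :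
    Face (Lo e q) (Lo d q) := fun i => face1_lo_lo h0 hde h1 (q i)

theorem face_Hi_Lo {n : ℕ} {d e : ℝ} (h0 : 0 ≤ d) (hde : d < e) (h1 : e ≤ 3 / 2) (q : Tor n) :
    Face (Hi e q) (Lo d q) := fun i => face1_hi_lo h0 hde h1 (q i)

end Pool.Agent.FM
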