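import Pool.Agent.FM.Defs2
import Pool.Agent.FM.B06
import Pool.Agent.FM.B07

/-!
BLOCK C01: paths and homotopies in `X K` and in the open neighbourhood `Oset K A`.
-/

open Set Topology

namespace Pool.Agent.FM

namespace C01

theorem dbl_face {n : ℕ} [NeZero n] (A : ℕ) {a b : C1 n} (h : Face1 b a)
    (ha : ¬ (0 < dbl a ∧ dbl a < 2 * A)) : ¬ (0 < dbl b ∧ dbl b < 2 * A) := by
  rcases h with rfl | ⟨h1, h2, h3⟩
  · exact ha
  · obtain ⟨x, s⟩ := a
    obtain ⟨y, t⟩ := b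
    simp only at h1 h2 h3
    subst h1 h2
    unfold dbl at ha ⊢
    simp only [Bool.toNat_true, Bool.toNat_false, add_zero] at ha ⊢
    rcases h3 with rfl | rfl
    · omega
    · have h4 : (x + 1).val = x.val + 1 ∨ (x + 1).val = 0 := by
        have h5 := ZMod.val_lt x
        have h6 := ZMod.val_add x 1
        by_cases hn : n = 1
        · subst hn
          right
          have := ZMod.val_lt (x + 1)
          omega
        · have h1 : (1 : ZMod n).val = 1 := by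
            have : Fact (1 < n) := ⟨by have := NeZero.pos n; omega⟩
            exact ZMod.val_one n
          rw [h1] at h6
          rcases Nat.lt_or_ge (x.val + 1) n with h7 | h7
          · left; rw [h6, Nat.mod_eq_of_lt h7]
          · right
            rw [h6, show x.val + 1 = n by omega, Nat.mod_self]
      omega

theorem isCx_KO {n : ℕ} [NeZero n] (A : ℕ) : IsCx (KO n A) := by
  intro a ha b hb h
  apply ha
  obtain ⟨h1, h2, h3, h4⟩ := h
  by_cases c1 : 0 < dbl (a 3) ∧ dbl (a 3) < 2 * A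
  · by_cases c2 : 0 < dbl (a 4) ∧ dbl (a 4) < 2 * 3
    · exact ⟨c1.1, c1.2, c2.1, c2.2⟩
    · exact absurd ⟨h3, h4⟩ (dbl_face 3 (hb 4) c2)
  · exact absurd ⟨h1, h2⟩ (dbl_face A (hb 3) c1)

theorem isOpen_of_near {n : ℕ} {S : Set (Tor n)} (h : ∀ q ∈ S, ∀ᶠ p in 𝓝 q, p ∈ S) :
    IsOpen S := isOpen_iff_mem_nhds.mpr h

theorem vert_coe {n : ℕ} {z : Circ n} (h : (lo 0 z).2 = false) :
    ∃ a : ℤ, z = ((3 * a : ℝ) : Circ n) := by
  induction z using QuotientAddGroup.induction_on with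
  | H x =>
    have h' : (loZ 0 x).2 = false := h
    rcases e : loZ 0 x with ⟨k, b⟩
    rw [e] at h'
    simp only at h'
    subst h'
    rw [loZ_false_iff le_rfl (by norm_num)] at e
    refine ⟨k, ?_⟩
    have : x = 3 * (k : ℝ) := by linarith [e.1, e.2]
    rw [this]

theorem three_vert {n : ℕ} {a : Cell n} (h : dimC a ≤ 2) :
    ∃ i j k : Fin 5, i ≠ j ∧ j ≠ k ∧ i ≠ k ∧ (a i).2 = false ∧ (a j).2 = false ∧
      (a k).2 = false := by
  have h1 : 3 ≤ (Finset.univ.filter fun i => ¬ (a i).2 = true).card := by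
    have := Finset.card_filter_add_card_filter_not (s := (Finset.univ : Finset (Fin 5)))
      (fun i => (a i).2 = true)
    rw [Finset.card_univ, Fintype.card_fin] at this
    unfold dimC at h
    omega
  obtain ⟨i, hi, j, hj, k, hk, hij, hik, hjk⟩ := Finset.two_lt_card.mp h1
  simp only [Finset.mem_filter, Finset.mem_univ, true_and, Bool.not_eq_true] at hi hj hk
  exact ⟨i, j, k, hij, hjk, hik, hi, hj, hk⟩

end C01

theorem isOpen_Oset {n : ℕ} [NeZero n] {A : ℕ} (hn : 5 ≤ n) (hA : A + 3 ≤ n) {K : Set (Cell n)}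
    (hK : IsCx K) (hKO : KO n A ⊆ K) : IsOpen (Oset K A) := by
  apply C01.isOpen_of_near
  intro q hq
  filter_upwards [B06.Hi_near (c := 1) one_pos (by norm_num) q,
    B06.Lo_near (c := 0) le_rfl (by norm_num) q] with p h1 h2
  exact ⟨hK _ hq.1 _ h1, fun h => hq.2 (C01.isCx_KO A _ h _ h2)⟩

theorem pi1_X {n : ℕ} [NeZero n] {A : ℕ} (hn : 5 ≤ n) (hA : A + 3 ≤ n) {K : Set (Cell n)}
    (hK : IsCx K) (hKO : KO n A ⊆ K) (hthin : ∀ a ∈ K, a ∉ KO n A → dimC a ≤ 2) :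
    ∃ ι : C(X K, Oset K A), (∀ q : X K, Kap (ι q : Tor n) = Kap (q : Tor n)) ∧
      (∀ (x y : X K) (γ : Path (ι x) (ι y)), ∃ (γ' : Path x y) (γ1 : Path (ι x) (ι y)),
        γ1.Homotopic γ ∧ ∀ t, Kap (γ' t : Tor n) = Kap (γ1 t : Tor n)) ∧
      (∀ (x y : X K) (γ γ' : Path x y),
        (γ.map ι.continuous).Homotopic (γ'.map ι.continuous) → γ.Homotopic γ') ∧
      ((Oset K A).Nonempty → (X K).Nonempty) := by
  have hO := isOpen_Oset hn hA hK hKO
  obtain ⟨Z, hZdef⟩ : ∃ Z : Set (Tor n), Z = {q | q ∈ Oset K A ∧ Lo 0 q ∈ K} := ⟨_, rfl⟩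
  have hP : {q : Tor n | q ∈ Oset K A ∧ Lo 0 q ∉ K} = Oset K A \ Z := by
    rw [hZdef]
    ext q
    simp only [mem_ofPred_eq, mem_sdiff]
    tauto
  have hOZ : IsOpen (Oset K A \ Z) := by
    rw [← hP]
    apply C01.isOpen_of_near
    intro q hq
    filter_upwards [hO.mem_nhds hq.1, B06.Lo_near (c := 0) le_rfl (by norm_num) q] with p h1 h2
    exact ⟨h1, fun h => hq.2 (hK _ h _ h2)⟩
  have hZ3 : Z ⊆ Z3 n := by
    rw [hZdef]
    intro q hq
    obtain ⟨i, j, k, hij, hjk, hik, hi, hj, hk⟩ := C01.three_vert (hthin _ hq.2 hq.1.2)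
    exact ⟨i, j, k, hij, hjk, hik, C01.vert_coe hi, C01.vert_coe hj, C01.vert_coe hk⟩
  obtain ⟨gp1, gp2, gp3⟩ := general_position hO hOZ hZ3
  have hret := retract (n := n) (by omega) hK hKO
  rw [hP] at hret
  obtain ⟨j, r, hrj, hKj, hKr⟩ := hret
  let inc : C((Oset K A \ Z : Set (Tor n)), Oset K A) :=
    ⟨Set.inclusion (sdiff_subset : Oset K A \ Z ⊆ Oset K A),
      continuous_inclusion (sdiff_subset : Oset K A \ Z ⊆ Oset K A)⟩
  refine ⟨inc.comp j, fun q => hKj q, ?_, ?_, ?_⟩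
  · intro x y γ
    obtain ⟨γ', hγ'⟩ := gp1 (j x : Tor n) (j y : Tor n) (j x).2 (j y).2 γ
    refine ⟨(γ'.map r.continuous).cast (hrj x).symm (hrj y).symm, γ'.map inc.continuous, hγ', ?_⟩
    intro t
    exact hKr (γ' t)
  · intro x y γ γ' h
    have h1 : (γ.map j.continuous).Homotopic (γ'.map j.continuous) := gp2 _ _ _ _ h
    have h2 := h1.map r
    obtain ⟨F⟩ := h2
    refine ⟨ContinuousMap.HomotopyRel.cast F ?_ ?_⟩
    · ext1 t
      exact hrj (γ t)
    · ext1 t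
      exact hrj (γ' t)
  · intro h
    obtain ⟨q, hq⟩ := gp3 h
    exact ⟨r ⟨q, hq⟩, (r ⟨q, hq⟩).2⟩

end Pool.Agent.FM
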