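import Pool.Agent.FM.Defs2

open Set

namespace Pool.Agent.FM

/-- the point `x` of the circle is at distance less than two from the vertex `k` -/
def near {n : ℕ} (k : ZMod n) (x : Circ n) : Prop := Face1 (k, false) (lo 1 x)

theorem near_iff {n : ℕ} (κ : ZMod n) (y : ℝ) :
    near κ (y : Circ n) ↔ ∃ k : ℤ, (k : ZMod n) = κ ∧ |y - 3 * k| < 2 := by
  unfold near
  rw [lo_coe]
  constructor
  · rintro (h | ⟨h1, -, h3⟩)
    · have h2 : (loZ 1 y).2 = false := by
        have := congrArg Prod.snd h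
        simpa [cst] using this.symm
      have h3 : (((loZ 1 y).1 : ℤ) : ZMod n) = κ := by
        have := congrArg Prod.fst h
        simpa [cst] using this.symm
      refine ⟨(loZ 1 y).1, h3, ?_⟩
      rcases loZ_spec (d := 1) (x := y) (by norm_num) (by norm_num) with h | h
      · rw [abs_lt]; constructor <;> linarith [h.2.1, h.2.2]
      · rw [h2] at h; exact absurd h.1 (by simp)
    · have h2 : (loZ 1 y).2 = true := h1
      rcases loZ_spec (d := 1) (x := y) (by norm_num) (by norm_num) with h | h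
      · rw [h2] at h; exact absurd h.1 (by simp)
      · rcases h3 with h3 | h3
        · refine ⟨(loZ 1 y).1, by simpa [cst] using h3.symm, ?_⟩
          rw [abs_lt]; constructor <;> linarith [h.2.1, h.2.2]
        · refine ⟨(loZ 1 y).1 + 1, by simpa [cst] using h3.symm, ?_⟩
          rw [abs_lt]; push_cast; constructor <;> linarith [h.2.1, h.2.2]
  · rintro ⟨k, rfl, hk⟩
    rw [abs_lt] at hk
    rcases loZ_spec (d := 1) (x := y) (by norm_num) (by norm_num) with h | h
    · left
      have e : (loZ 1 y).1 = k := by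
        have h1 : ((loZ 1 y).1 : ℝ) < k + 1 := by linarith [h.2.1, h.2.2]
        have h2 : (k : ℝ) < (loZ 1 y).1 + 1 := by linarith [h.2.1, h.2.2]
        have h1' : (loZ 1 y).1 < k + 1 := by exact_mod_cast h1
        have h2' : k < (loZ 1 y).1 + 1 := by exact_mod_cast h2
        omega
      ext
      · simp [cst, e]
      · simp [cst, h.1]
    · right
      refine ⟨h.1, rfl, ?_⟩
      have h1 : ((loZ 1 y).1 : ℝ) < k + 1 := by linarith [h.2.1, h.2.2]
      have h2 : (k : ℝ) < (loZ 1 y).1 + 2 := by linarith [h.2.1, h.2.2]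
      have h1' : (loZ 1 y).1 < k + 1 := by exact_mod_cast h1
      have h2' : k < (loZ 1 y).1 + 2 := by exact_mod_cast h2
      have : k = (loZ 1 y).1 ∨ k = (loZ 1 y).1 + 1 := by omega
      rcases this with h3 | h3
      · left; simp [cst, ← h3]
      · right; simp [cst, h3]

theorem mem_star_iff {n : ℕ} {K : Set (Cell n)} {A : ℕ} {v : Vx n} (q : Oset K A) :
    q ∈ star K A v ↔ ∀ i, near (v i) (q.1 i) := Iff.rfl

theorem isOpen_near {n : ℕ} (κ : ZMod n) : IsOpen {x : Circ n | near κ x} := by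
  have h : IsOpen ((fun y : ℝ => (y : Circ n)) ⁻¹' {x : Circ n | near κ x}) := by
    have e : ((fun y : ℝ => (y : Circ n)) ⁻¹' {x : Circ n | near κ x}) =
        ⋃ k : ℤ, ⋃ _ : (k : ZMod n) = κ, {y : ℝ | |y - 3 * k| < 2} := by
      ext y
      simp only [mem_preimage, mem_setOf_eq, near_iff, mem_iUnion, exists_prop]
    rw [e]
    exact isOpen_iUnion fun k => isOpen_iUnion fun _ =>
      isOpen_lt (by fun_prop) continuous_const
  exact h

theorem isOpen_star {n : ℕ} [NeZero n] {A : ℕ} (hn : 5 ≤ n) (hA : A + 3 ≤ n) {K : Set (Cell n)}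
    (hK : IsCx K) (hKO : KO n A ⊆ K) (v : Vx n) : IsOpen (star K A v) := by
  have : star K A v = ⋂ i, (fun q : Oset K A => q.1 i) ⁻¹' {x | near (v i) x} := by
    ext q
    simp [mem_star_iff]
  rw [this]
  exact isOpen_iInter_of_finite fun i =>
    (isOpen_near (v i)).preimage ((continuous_apply i).comp continuous_subtype_val)

theorem near_kap {n : ℕ} (x : Circ n) : near (kap x) x := by
  induction x using QuotientAddGroup.induction_on with
  | H y =>
    show near (kap (y : Circ n)) (y : Circ n)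
    rw [kap_coe, near_iff]
    refine ⟨kapZ y, rfl, ?_⟩
    have := kapZ_bounds y
    rw [abs_lt]
    constructor <;> linarith [this.1, this.2]

/-- faces of cells over the closed rectangle are over the closed rectangle -/
theorem face_PC {n : ℕ} [NeZero n] {A : ℕ} (hn : 5 ≤ n) (hA : A + 3 ≤ n) {a b : Cell n}
    (ha : a ∈ PC n A) (h : Face b a) : b ∈ PC n A := by
  have key : ∀ B : ℕ, B + 2 ≤ n → ∀ a b : C1 n, dbl a ≤ 2 * B → Face1 b a → dbl b ≤ 2 * B := by
    intro B hB a b hab hf
    rcases hf with rfl | ⟨h1, h2, h3⟩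
    · exact hab
    · unfold dbl at hab ⊢
      rw [h1] at hab
      rw [h2]
      simp only [Bool.toNat_true, Bool.toNat_false, add_zero] at hab ⊢
      rcases h3 with h3 | h3
      · rw [h3]; omega
      · rw [h3]
        have hn1 : Fact (1 < n) := ⟨by omega⟩
        have : (a.1 + 1).val = a.1.val + 1 := by
          rw [ZMod.val_add_of_lt]
          · rw [ZMod.val_one]
          · rw [ZMod.val_one]; omega
        rw [this]; omega
  exact ⟨key A (by omega) _ _ ha.1 (h 3), by
    have := key 3 (by omega) _ _ (by simpa using ha.2) (h 4)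
    simpa using this⟩

theorem mem_PC_of {n : ℕ} {A : ℕ} {a : Cell n} (h : a ∉ KO n A) : a ∈ PC n A := by
  unfold KO at h
  simp only [mem_setOf_eq, not_not] at h
  exact ⟨h.2.1.le, h.2.2.2.le⟩

theorem Lo1_mem {n : ℕ} [NeZero n] {A : ℕ} (hn : 5 ≤ n) (hA : A + 3 ≤ n) {K : Set (Cell n)}
    (hK : IsCx K) (q : Oset K A) : Lo 1 q.1 ∈ K ∩ PC n A := by
  refine ⟨hK _ q.2.1 _ (face_Lo_Hi (by norm_num) le_rfl (by norm_num) _), ?_⟩
  exact face_PC hn hA (mem_PC_of q.2.2) (face_Lo_Lo le_rfl (by norm_num) (by norm_num) _)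

theorem mem_star_kap {n : ℕ} [NeZero n] {A : ℕ} (hn : 5 ≤ n) (hA : A + 3 ≤ n) {K : Set (Cell n)}
    (hK : IsCx K) (hKO : KO n A ⊆ K) (q : Oset K A) :
    q ∈ star K A (Kap q.1) ∧ vc (Kap q.1) ∈ K ∩ PC n A := by
  have h : q ∈ star K A (Kap q.1) := fun i => near_kap _
  refine ⟨h, ?_⟩
  have h1 := Lo1_mem hn hA hK q
  exact ⟨hK _ h1.1 _ h, face_PC hn hA h1.2 h⟩

/-- a vertex whose star contains a point is a vertex of a cell of `K ∩ PC` -/
theorem star_cell {n : ℕ} [NeZero n] {A : ℕ} (hn : 5 ≤ n) (hA : A + 3 ≤ n) {K : Set (Cell n)}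
    (hK : IsCx K) (hKO : KO n A ⊆ K) (q : Oset K A) :
    ∃ a ∈ K ∩ PC n A, ∀ v, q ∈ star K A v → Face (vc v) a :=
  ⟨Lo 1 q.1, Lo1_mem hn hA hK q, fun _ h => h⟩

theorem coe_add_int_mul {n : ℕ} (y : ℝ) (j : ℤ) : ((y + 3 * (n * j) : ℝ) : Circ n) = (y : Circ n) := by
  have : (y + 3 * (n * j) : ℝ) = y + j • (3 * (n : ℝ)) := by
    rw [zsmul_eq_mul]; ring
  rw [this, AddCircle.coe_add, AddCircle.coe_zsmul, AddCircle.coe_period, smul_zero, add_zero]

theorem mem_star_close {n : ℕ} [NeZero n] {A : ℕ} (hn : 5 ≤ n) {K : Set (Cell n)}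
    (q q' : Oset K A) (h : dist q q' < 1 / 2) : q' ∈ star K A (Kap q.1) := by
  intro i
  have h1 : dist (q.1 i) (q'.1 i) < 1 / 2 := lt_of_le_of_lt (dist_le_pi_dist q.1 q'.1 i) h
  show near (kap (q.1 i)) (q'.1 i)
  generalize q.1 i = x at h1
  generalize q'.1 i = x' at h1
  induction x using QuotientAddGroup.induction_on with
  | H y =>
    induction x' using QuotientAddGroup.induction_on with
    | H y' =>
      change dist (y : Circ n) (y' : Circ n) < 1 / 2 at h1
      show near (kap (y : Circ n)) (y' : Circ n)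
      rw [dist_eq_norm, ← AddCircle.coe_sub, AddCircle.norm_eq] at h1
      set j : ℤ := round ((3 * (n : ℝ))⁻¹ * (y - y')) with hj
      have e : ((y' + 3 * (n * (j : ℤ)) : ℝ) : Circ n) = (y' : Circ n) := coe_add_int_mul y' j
      rw [← e, kap_coe, near_iff]
      refine ⟨kapZ y, rfl, ?_⟩
      have h2 := kapZ_bounds y
      have h3 : |y - (y' + 3 * (n * j))| < 1 / 2 := by
        convert h1 using 2; ring
      rw [abs_lt] at h3 ⊢
      constructor <;> linarith [h2.1, h2.2, h3.1, h3.2]


/-! ### charts -/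

theorem near_local {n : ℕ} [NeZero n] (κ l : ZMod n) (y : ℝ) (hy : |y - 3 * (κ.val : ℝ)| < 2) :
    near l (y : Circ n) ↔ l = κ ∨ (l = κ + 1 ∧ 3 * (κ.val : ℝ) + 1 < y) ∨
      (l = κ - 1 ∧ y < 3 * (κ.val : ℝ) - 1) := by
  rw [near_iff]
  have hκ : ((κ.val : ℤ) : ZMod n) = κ := by simp
  rw [abs_lt] at hy
  constructor
  · rintro ⟨k, rfl, hk⟩
    rw [abs_lt] at hk
    have h1 : (k : ℝ) < (κ.val : ℝ) + 2 := by linarith
    have h2 : (κ.val : ℝ) < k + 2 := by linarith
    have h1' : k < (κ.val : ℤ) + 2 := by exact_mod_cast h1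
    have h2' : (κ.val : ℤ) < k + 2 := by exact_mod_cast h2
    have h3 : k = κ.val ∨ k = (κ.val : ℤ) + 1 ∨ k = (κ.val : ℤ) - 1 := by omega
    rcases h3 with h3 | h3 | h3
    · left; rw [h3, hκ]
    · right; left
      refine ⟨by rw [h3]; push_cast; simp, ?_⟩
      rw [h3] at hk; push_cast at hk; linarith
    · right; right
      refine ⟨by rw [h3]; push_cast; simp, ?_⟩
      rw [h3] at hk; push_cast at hk; linarith
  · rintro (rfl | ⟨rfl, h⟩ | ⟨rfl, h⟩)
    · refine ⟨l.val, by simp, ?_⟩
      rw [abs_lt]; push_cast; exact hy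
    · refine ⟨κ.val + 1, by push_cast; simp, ?_⟩
      rw [abs_lt]; push_cast; constructor <;> linarith
    · refine ⟨κ.val - 1, by push_cast; simp, ?_⟩
      rw [abs_lt]; push_cast; constructor <;> linarith

theorem hi_face {n : ℕ} (k : ℤ) (y z : ℝ) (hy : |y - 3 * k| < 2) (hz : |z - 3 * k| < 2)
    (h : |z - 3 * k| < 1 ∨ (1 ≤ z - 3 * k ∧ 1 ≤ y - 3 * k) ∨ (z - 3 * k ≤ -1 ∧ y - 3 * k ≤ -1)) :
    Face1 (hi 1 (z : Circ n)) (hi 1 (y : Circ n)) := by
  rw [hi_coe, hi_coe]
  apply face1_cst
  rw [abs_lt] at hy hz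
  rcases h with h | ⟨h, h'⟩ | ⟨h, h'⟩
  · rw [abs_lt] at h
    rw [(hiZ_false_iff (x := z) (k := k) (by norm_num) (by norm_num)).mpr
      ⟨by linarith, by linarith⟩]
    by_cases h1 : y < 3 * k + 1
    · by_cases h2 : 3 * (k : ℝ) - 1 < y
      · left
        rw [(hiZ_false_iff (x := y) (k := k) (by norm_num) (by norm_num)).mpr
          ⟨by linarith, by linarith⟩]
      · right
        rw [(hiZ_true_iff (x := y) (k := k - 1) (by norm_num) (by norm_num)).mpr
          ⟨by push_cast; linarith, by push_cast; linarith⟩]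
        simp
    · right
      rw [(hiZ_true_iff (x := y) (k := k) (by norm_num) (by norm_num)).mpr
          ⟨by linarith, by linarith⟩]
      simp
  · left
    rw [(hiZ_true_iff (x := y) (k := k) (by norm_num) (by norm_num)).mpr
          ⟨by linarith, by linarith⟩,
      (hiZ_true_iff (x := z) (k := k) (by norm_num) (by norm_num)).mpr
          ⟨by linarith, by linarith⟩]
  · left
    rw [(hiZ_true_iff (x := y) (k := k - 1) (by norm_num) (by norm_num)).mpr
          ⟨by push_cast; linarith, by push_cast; linarith⟩,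
      (hiZ_true_iff (x := z) (k := k - 1) (by norm_num) (by norm_num)).mpr
          ⟨by push_cast; linarith, by push_cast; linarith⟩]

theorem rect_iff {n : ℕ} [NeZero n] {B : ℕ} (hB : B + 2 ≤ n) (κ : ZMod n) (hκ : κ.val ≤ B)
    (y : ℝ) (hy : |y - 3 * (κ.val : ℝ)| < 2) :
    (0 < dbl (lo 0 (y : Circ n)) ∧ dbl (lo 0 (y : Circ n)) < 2 * B) ↔ 0 < y ∧ y < 3 * B := by
  rw [abs_lt] at hy
  have hκ' : (κ.val : ℝ) ≤ B := by exact_mod_cast hκ
  have hκ0 : (0 : ℝ) ≤ κ.val := by positivity
  rw [lo_coe]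
  have hspec := loZ_spec (d := 0) (x := y) le_rfl (by norm_num)
  set m := (loZ 0 y).1 with hm
  have hm1 : (-2 : ℤ) < m := by
    have : (-2 : ℝ) < m := by rcases hspec with h | h <;> linarith [h.2.1, h.2.2]
    exact_mod_cast this
  have hm2 : m < (B : ℤ) + 1 := by
    have : (m : ℝ) < B + 1 := by rcases hspec with h | h <;> linarith [h.2.1, h.2.2]
    exact_mod_cast this
  have hval : m = -1 ∨ (0 ≤ m ∧ ((m : ZMod n).val : ℤ) = m) := by
    rcases lt_or_ge m 0 with h | h
    · left; omega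
    · right
      refine ⟨h, ?_⟩
      lift m to ℕ using h with m' hm'
      rw [Int.cast_natCast, ZMod.val_natCast, Nat.mod_eq_of_lt (by omega)]
  have hdbl : dbl (cst n (loZ 0 y)) = 2 * (m : ZMod n).val + (loZ 0 y).2.toNat := rfl
  rw [hdbl]
  rcases hval with h1 | ⟨h0, h1⟩
  · have e : (m : ZMod n).val = n - 1 := by
      rw [h1]; push_cast
      rw [ZMod.neg_val]
      have hn1 : Fact (1 < n) := ⟨by omega⟩
      rw [if_neg (by exact one_ne_zero), ZMod.val_one]
    rw [e]
    have hy0 : y < 0 := by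
      rcases hspec with h | h
      · rw [h1] at h; push_cast at h; linarith [h.2.1, h.2.2]
      · rw [h1] at h; push_cast at h; linarith [h.2.1, h.2.2]
    constructor
    · rintro ⟨h2, h3⟩; omega
    · rintro ⟨h2, h3⟩; linarith
  · set p := (m : ZMod n).val with hp
    have hpm : (p : ℝ) = m := by exact_mod_cast h1
    rcases hspec with h | h
    · rw [h.1]
      simp only [Bool.toNat_false, add_zero]
      have hy3 : y = 3 * p := by rw [hpm]; linarith [h.2.1, h.2.2]
      rw [hy3]
      constructor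
      · rintro ⟨h2, h3⟩
        have h2' : (0 : ℝ) < p := by exact_mod_cast (by omega : 0 < p)
        have h3' : (p : ℝ) < B := by exact_mod_cast (by omega : p < B)
        constructor <;> linarith
      · rintro ⟨h2, h3⟩
        have h2' : (0 : ℝ) < p := by linarith
        have h3' : (p : ℝ) < B := by linarith
        have h2'' : 0 < p := by exact_mod_cast h2'
        have h3'' : p < B := by exact_mod_cast h3'
        omega
    · rw [h.1]
      simp only [Bool.toNat_true]
      obtain ⟨-, h2, h3⟩ := h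
      rw [← hpm] at h2 h3
      constructor
      · rintro ⟨h4, h5⟩
        have h5' : p + 1 ≤ B := by omega
        have h5'' : (p : ℝ) + 1 ≤ B := by exact_mod_cast h5'
        have : (0 : ℝ) ≤ p := by positivity
        constructor <;> linarith
      · rintro ⟨h4, h5⟩
        have h5' : (p : ℝ) < B := by linarith
        have h5'' : p < B := by exact_mod_cast h5'
        omega

theorem cv_lt {a x y M : ℝ} (h0 : 0 ≤ a) (h1 : a ≤ 1) (hx : x < M) (hy : y < M) :
    a * x + (1 - a) * y < M :=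
  convex_Iio M hx hy h0 (by linarith) (by ring)

theorem lt_cv {a x y M : ℝ} (h0 : 0 ≤ a) (h1 : a ≤ 1) (hx : M < x) (hy : M < y) :
    M < a * x + (1 - a) * y :=
  convex_Ioi M hx hy h0 (by linarith) (by ring)

/-- the inward shift of the centres at the boundary of the rectangle -/
noncomputable def off (A : ℕ) (i : Fin 5) (k : ℕ) : ℝ :=
  if (i = 3 ∨ i = 4) ∧ k = 0 then 1 / 2
  else if (i = 3 ∧ k = A) ∨ (i = 4 ∧ k = 3) then -1 / 2 else 0

theorem off_abs (A : ℕ) (i : Fin 5) (k : ℕ) : |off A i k| ≤ 1 / 2 := by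
  unfold off
  split_ifs <;> norm_num [abs_le]

theorem off_three {A k : ℕ} (hA : 1 ≤ A) (hk : k ≤ A) :
    0 < 3 * (k : ℝ) + off A 3 k ∧ 3 * (k : ℝ) + off A 3 k < 3 * A := by
  have hA' : (1 : ℝ) ≤ A := by exact_mod_cast hA
  unfold off
  by_cases h0 : k = 0
  · subst h0
    simp
    linarith
  · have h1 : (1 : ℝ) ≤ k := by exact_mod_cast Nat.one_le_iff_ne_zero.mpr h0
    rw [if_neg (by simp [h0])]
    by_cases h2 : k = A
    · subst h2
      rw [if_pos (by simp)]
      constructor <;> linarith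
    · rw [if_neg (by simp [h2])]
      have h3 : (k : ℝ) + 1 ≤ A := by exact_mod_cast (by omega : k + 1 ≤ A)
      constructor <;> linarith

theorem off_four {A k : ℕ} (hk : k ≤ 3) :
    0 < 3 * (k : ℝ) + off A 4 k ∧ 3 * (k : ℝ) + off A 4 k < 9 := by
  unfold off
  by_cases h0 : k = 0
  · subst h0
    simp
    norm_num
  · have h1 : (1 : ℝ) ≤ k := by exact_mod_cast Nat.one_le_iff_ne_zero.mpr h0
    rw [if_neg (by simp [h0])]
    by_cases h2 : k = 3
    · subst h2
      simp
      norm_num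
    · rw [if_neg (by simp [h2])]
      have h3 : (k : ℝ) + 1 ≤ 3 := by exact_mod_cast (by omega : k + 1 ≤ 3)
      constructor <;> linarith

/-- a chart around `v` of the intersection of the stars of `v` and `w` -/
def CS {n : ℕ} (K : Set (Cell n)) (A : ℕ) (v w : Vx n) : Set (Fin 5 → ℝ) :=
  {y | (∀ i, |y i - 3 * ((v i).val : ℝ)| < 2) ∧ (∀ i, near (w i) (y i : Circ n)) ∧
    Hi 1 (pt n y) ∈ K ∧ Lo 0 (pt n y) ∉ KO n A}

theorem notKO_iff {n : ℕ} [NeZero n] {A : ℕ} (hn : 5 ≤ n) (hA : A + 3 ≤ n) (v : Vx n)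
    (hv : vc v ∈ PC n A) (y : Fin 5 → ℝ) (hy : ∀ i, |y i - 3 * ((v i).val : ℝ)| < 2) :
    Lo 0 (pt n y) ∉ KO n A ↔ (0 < y 3 ∧ y 3 < 3 * A) ∧ (0 < y 4 ∧ y 4 < 9) := by
  have h3 : (v 3).val ≤ A := by
    have := hv.1
    simp only [vc, dbl, Bool.toNat_false] at this
    omega
  have h4 : (v 4).val ≤ 3 := by
    have := hv.2
    simp only [vc, dbl, Bool.toNat_false] at this
    omega
  unfold KO
  simp only [mem_setOf_eq, not_not]
  have e3 := rect_iff (B := A) (by omega) (v 3) h3 (y 3) (hy 3)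
  have e4 := rect_iff (B := 3) (by omega) (v 4) h4 (y 4) (hy 4)
  norm_num at e4
  constructor
  · rintro ⟨a, b, c, d⟩
    exact ⟨e3.mp ⟨a, b⟩, e4.mp ⟨c, d⟩⟩
  · rintro ⟨h, h'⟩
    have h1 := e3.mpr h
    have h2 := e4.mpr h'
    exact ⟨h1.1, h1.2, h2.1, h2.2⟩

/-- the centre -/
noncomputable def ctr {n : ℕ} (A : ℕ) (v w : Vx n) (y0 : Fin 5 → ℝ) (i : Fin 5) : ℝ :=
  if v i = w i then 3 * ((v i).val : ℝ) + off A i (v i).val else y0 i

theorem starConvex_CS {n : ℕ} [NeZero n] {A : ℕ} (hn : 5 ≤ n) (hA1 : 1 ≤ A) (hA : A + 3 ≤ n)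
    {K : Set (Cell n)} (hK : IsCx K) (v w : Vx n) (hv : vc v ∈ PC n A) (y0 : Fin 5 → ℝ)
    (hy0 : y0 ∈ CS K A v w) : StarConvex ℝ (ctr A v w y0) (CS K A v w) := by
  have hv3 : (v 3).val ≤ A := by
    have := hv.1
    simp only [vc, dbl, Bool.toNat_false] at this
    omega
  have hv4 : (v 4).val ≤ 3 := by
    have := hv.2
    simp only [vc, dbl, Bool.toNat_false] at this
    omega
  have hoff : ∀ i, |off A i (v i).val| ≤ 1 / 2 := fun i => off_abs _ _ _
  have hc2 : ∀ i, |ctr A v w y0 i - 3 * ((v i).val : ℝ)| < 2 := by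
    intro i
    unfold ctr
    split_ifs
    · rw [add_sub_cancel_left]
      linarith [hoff i]
    · exact hy0.1 i
  have hr0 := (notKO_iff hn hA v hv y0 hy0.1).mp hy0.2.2.2
  intro y hy a b ha hb hab
  have hb' : b = 1 - a := by linarith
  have ha1 : a ≤ 1 := by linarith
  subst hb'
  set c := ctr A v w y0 with hc
  have hz : ∀ i, (a • c + (1 - a) • y) i = a * c i + (1 - a) * y i := fun i => rfl
  have hz2 : ∀ i, |(a • c + (1 - a) • y) i - 3 * ((v i).val : ℝ)| < 2 := by
    intro i
    rw [hz i]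
    have h1 := hc2 i
    have h2 := hy.1 i
    rw [abs_lt] at h1 h2 ⊢
    constructor
    · have := lt_cv (M := 3 * ((v i).val : ℝ) - 2) ha ha1 (by linarith [h1.1] : _ < c i)
        (by linarith [h2.1] : _ < y i)
      linarith
    · have := cv_lt (M := 3 * ((v i).val : ℝ) + 2) ha ha1 (by linarith [h1.2] : c i < _)
        (by linarith [h2.2] : y i < _)
      linarith
  refine ⟨hz2, ?_, ?_, ?_⟩
  · intro i
    rw [near_local (v i) (w i) _ (hz2 i)]
    have hyn := (near_local (v i) (w i) _ (hy.1 i)).mp (hy.2.1 i)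
    by_cases hvw : v i = w i
    · left; exact hvw.symm
    · have hci : c i = y0 i := by rw [hc]; unfold ctr; rw [if_neg hvw]
      have h0n := (near_local (v i) (w i) _ (hy0.1 i)).mp (hy0.2.1 i)
      have hne : v i + 1 ≠ v i - 1 := by
        intro h
        have h2 : (2 : ZMod n) = 0 := by
          have : v i + 1 - (v i - 1) = 0 := by rw [h]; ring
          have h3 : v i + 1 - (v i - 1) = 2 := by ring
          rw [← h3, this]
        have h3 : ((2 : ℕ) : ZMod n) = 0 := by exact_mod_cast h2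
        rw [ZMod.natCast_eq_zero_iff] at h3
        have := Nat.le_of_dvd (by norm_num) h3
        omega
      right
      rw [hz i, hci]
      rcases hyn with h | ⟨h, h'⟩ | ⟨h, h'⟩
      · exact absurd h.symm hvw
      · rcases h0n with g | ⟨g, g'⟩ | ⟨g, g'⟩
        · exact absurd g.symm hvw
        · left; exact ⟨h, lt_cv ha ha1 g' h'⟩
        · exact absurd (h.symm.trans g) hne
      · rcases h0n with g | ⟨g, g'⟩ | ⟨g, g'⟩
        · exact absurd g.symm hvw
        · exact absurd (g.symm.trans h) hne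
        · right; exact ⟨h, cv_lt ha ha1 g' h'⟩
  · refine hK _ hy.2.2.1 _ ?_
    intro i
    show Face1 (hi 1 (((a • c + (1 - a) • y) i : ℝ) : Circ n)) (hi 1 ((y i : ℝ) : Circ n))
    have e : (((v i).val : ℤ) : ℝ) = ((v i).val : ℝ) := by push_cast; rfl
    apply hi_face ((v i).val : ℤ)
    · rw [e]; exact hy.1 i
    · rw [e]; exact hz2 i
    · rw [e, hz i]
      have hyi := hy.1 i
      by_cases hvw : v i = w i
      · have hci : |c i - 3 * ((v i).val : ℝ)| ≤ 1 / 2 := by
          rw [hc]; unfold ctr; rw [if_pos hvw, add_sub_cancel_left]; exact hoff i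
        rw [abs_le] at hci
        rw [abs_lt] at hyi
        by_cases h1 : y i - 3 * ((v i).val : ℝ) < 1
        · by_cases h2 : -1 < y i - 3 * ((v i).val : ℝ)
          · left; rw [abs_lt]; constructor <;> nlinarith
          · by_cases h3 : a * c i + (1 - a) * y i - 3 * ((v i).val : ℝ) ≤ -1
            · right; right; exact ⟨h3, by linarith⟩
            · left; rw [abs_lt]; constructor <;> nlinarith
        · by_cases h3 : 1 ≤ a * c i + (1 - a) * y i - 3 * ((v i).val : ℝ)
          · right; left; exact ⟨h3, by linarith⟩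
          · left; rw [abs_lt]; constructor <;> nlinarith
      · have hci : c i = y0 i := by rw [hc]; unfold ctr; rw [if_neg hvw]
        have h0n := (near_local (v i) (w i) _ (hy0.1 i)).mp (hy0.2.1 i)
        have hyn := (near_local (v i) (w i) _ (hy.1 i)).mp (hy.2.1 i)
        have hne : v i + 1 ≠ v i - 1 := by
          intro h
          have h2 : (2 : ZMod n) = 0 := by
            have : v i + 1 - (v i - 1) = 0 := by rw [h]; ring
            have h3 : v i + 1 - (v i - 1) = 2 := by ring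
            rw [← h3, this]
          have h3 : ((2 : ℕ) : ZMod n) = 0 := by exact_mod_cast h2
          rw [ZMod.natCast_eq_zero_iff] at h3
          have := Nat.le_of_dvd (by norm_num) h3
          omega
        right
        rw [hci]
        rcases hyn with h | ⟨h, h'⟩ | ⟨h, h'⟩
        · exact absurd h.symm hvw
        · rcases h0n with g | ⟨g, g'⟩ | ⟨g, g'⟩
          · exact absurd g.symm hvw
          · left; exact ⟨by linarith [lt_cv ha ha1 g' h'], by linarith⟩
          · exact absurd (h.symm.trans g) hne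
        · rcases h0n with g | ⟨g, g'⟩ | ⟨g, g'⟩
          · exact absurd g.symm hvw
          · exact absurd (g.symm.trans h) hne
          · right; exact ⟨by linarith [cv_lt ha ha1 g' h'], by linarith⟩
  · rw [notKO_iff hn hA v hv _ hz2, hz 3, hz 4]
    have hry := (notKO_iff hn hA v hv y hy.1).mp hy.2.2.2
    have hc3 : 0 < c 3 ∧ c 3 < 3 * A := by
      rw [hc]; unfold ctr
      split_ifs
      · exact off_three hA1 hv3
      · exact hr0.1
    have hc4 : 0 < c 4 ∧ c 4 < 9 := by
      rw [hc]; unfold ctr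
      split_ifs
      · exact off_four hv4
      · exact hr0.2
    obtain ⟨⟨p1, p2⟩, p3, p4⟩ := hry
    obtain ⟨q1, q2⟩ := hc3
    obtain ⟨r1, r2⟩ := hc4
    exact ⟨⟨lt_cv ha ha1 q1 p1, cv_lt ha ha1 q2 p2⟩, lt_cv ha ha1 r1 p3, cv_lt ha ha1 r2 p4⟩


theorem exists_lift {n : ℕ} [NeZero n] (κ : ZMod n) (x : Circ n) (h : near κ x) :
    ∃ y : ℝ, (y : Circ n) = x ∧ |y - 3 * (κ.val : ℝ)| < 2 := by
  induction x using QuotientAddGroup.induction_on with
  | H y =>
    change near κ (y : Circ n) at h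
    rw [near_iff] at h
    obtain ⟨k, rfl, hk⟩ := h
    obtain ⟨j, hj⟩ : ∃ j : ℤ, k + n * j = ((k : ZMod n).val : ℤ) := by
      have h1 : ((k : ZMod n).val : ℤ) = k % n := by
        rw [← ZMod.val_intCast k]
      refine ⟨-(k / n), ?_⟩
      rw [h1]
      have := Int.emod_add_mul_ediv k n
      linarith
    refine ⟨y + 3 * (n * j), coe_add_int_mul y j, ?_⟩
    have hj' : (k : ℝ) + n * j = ((k : ZMod n).val : ℝ) := by exact_mod_cast hj
    rw [← hj']
    convert hk using 2
    ring

theorem isOpenMap_pt (n : ℕ) : IsOpenMap (pt n) := by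
  have : pt n = Pi.map (fun (_ : Fin 5) (x : ℝ) => (x : Circ n)) := rfl
  rw [this]
  exact IsOpenMap.piMap (fun _ => QuotientAddGroup.isOpenMap_coe)
    (Filter.Eventually.of_forall fun _ => QuotientAddGroup.mk_surjective)

theorem emb_box {n : ℕ} [NeZero n] (hn : 5 ≤ n) (v : Vx n) :
    Topology.IsEmbedding (fun y : {y : Fin 5 → ℝ | ∀ i, |y i - 3 * ((v i).val : ℝ)| < 2} =>
      pt n y.1) := by
  have hopen : IsOpen {y : Fin 5 → ℝ | ∀ i, |y i - 3 * ((v i).val : ℝ)| < 2} := by
    rw [ofPred_forall]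
    exact isOpen_iInter_of_finite fun i => isOpen_lt (by fun_prop) continuous_const
  have : Topology.IsOpenEmbedding (fun y : {y : Fin 5 → ℝ | ∀ i, |y i - 3 * ((v i).val : ℝ)| < 2} =>
      pt n y.1) := by
    apply Topology.IsOpenEmbedding.of_continuous_injective_isOpenMap
    · exact (continuous_pt n).comp continuous_subtype_val
    · rintro ⟨y, hy⟩ ⟨y', hy'⟩ h
      ext i
      have h1 : ((y i : ℝ) : Circ n) = ((y' i : ℝ) : Circ n) := congrFun h i
      have h2 := hy i
      have h3 := hy' i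
      rw [abs_lt] at h2 h3
      have hn' : (5 : ℝ) ≤ n := by exact_mod_cast hn
      refine (AddCircle.coe_eq_coe_iff_of_mem_Ico (a := 3 * ((v i).val : ℝ) - 2) ?_ ?_).mp h1
      · constructor <;> linarith [h2.1, h2.2]
      · constructor <;> linarith [h3.1, h3.2]
    · exact (isOpenMap_pt n).comp hopen.isOpenMap_subtype_val
  exact this.isEmbedding

theorem near_self {n : ℕ} [NeZero n] (κ : ZMod n) (y : ℝ) (hy : |y - 3 * (κ.val : ℝ)| < 2) :
    near κ (y : Circ n) := (near_local κ κ y hy).mpr (Or.inl rfl)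

/-- centre of a cell, shifted inwards at the boundary of the rectangle -/
noncomputable def cc {n : ℕ} (A : ℕ) (a : Cell n) (i : Fin 5) : ℝ :=
  if (a i).2 = true then 3 * ((a i).1.val : ℝ) + 3 / 2
  else 3 * ((a i).1.val : ℝ) + off A i (a i).1.val

theorem cc_mem {n : ℕ} [NeZero n] {A : ℕ} (hn : 5 ≤ n) (hA1 : 1 ≤ A) (hA : A + 3 ≤ n)
    {K : Set (Cell n)} {a : Cell n} (ha : a ∈ K ∩ PC n A) :
    pt n (cc A a) ∈ Oset K A := by
  constructor
  · have : Hi 1 (pt n (cc A a)) = a := by
      funext i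
      show hi 1 ((cc A a i : ℝ) : Circ n) = a i
      rw [hi_coe]
      unfold cc
      rcases h : a i with ⟨k, b⟩
      cases b
      · rw [if_neg (by simp)]
        have ho := off_abs A i k.val
        rw [abs_le] at ho
        rw [(hiZ_false_iff (k := (k.val : ℤ)) (by norm_num) (by norm_num)).mpr
          ⟨by push_cast; linarith, by push_cast; linarith⟩]
        simp [cst]
      · rw [if_pos rfl]
        rw [(hiZ_true_iff (k := (k.val : ℤ)) (by norm_num) (by norm_num)).mpr
          ⟨by push_cast; linarith, by push_cast; linarith⟩]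
        simp [cst]
    rw [this]
    exact ha.1
  · have hv : vc (fun i => (a i).1) ∈ PC n A := by
      refine face_PC hn hA ha.2 fun i => ?_
      rcases h : a i with ⟨k, b⟩
      cases b
      · left; simp [vc, h]
      · right; simp [vc, h]
    rw [notKO_iff hn hA _ hv]
    · obtain ⟨-, h3, h4⟩ := ha
      unfold dbl at h3 h4
      unfold cc
      constructor
      · rcases h : a 3 with ⟨k, b⟩
        rw [h] at h3
        cases b
        · rw [if_neg (by simp)]
          simp only [Bool.toNat_false, add_zero] at h3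
          exact off_three hA1 (show k.val ≤ A by omega)
        · rw [if_pos rfl]
          simp only [Bool.toNat_true] at h3
          have : (k.val : ℝ) + 1 ≤ A := by exact_mod_cast (by omega : k.val + 1 ≤ A)
          have h0 : (0 : ℝ) ≤ k.val := by positivity
          constructor <;> simp only <;> linarith
      · rcases h : a 4 with ⟨k, b⟩
        rw [h] at h4
        cases b
        · rw [if_neg (by simp)]
          simp only [Bool.toNat_false, add_zero] at h4
          exact off_four (show k.val ≤ 3 by omega)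
        · rw [if_pos rfl]
          simp only [Bool.toNat_true] at h4
          have : (k.val : ℝ) + 1 ≤ 3 := by exact_mod_cast (by omega : k.val + 1 ≤ 3)
          have h0 : (0 : ℝ) ≤ k.val := by positivity
          constructor <;> simp only <;> linarith
    · intro i
      unfold cc
      have ho := off_abs A i (a i).1.val
      rw [abs_le] at ho
      rw [abs_lt]
      split_ifs
      · constructor <;> linarith
      · constructor <;> linarith

/-- the stars of the vertices of a cell have a common point -/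
theorem cc_near {n : ℕ} [NeZero n] {A : ℕ} (a : Cell n) (v : Vx n) (h : Face (vc v) a)
    (i : Fin 5) : near (v i) ((cc A a i : ℝ) : Circ n) := by
  rw [near_iff]
  have hi := h i
  have ho := off_abs A i (a i).1.val
  rw [abs_le] at ho
  unfold cc
  rcases hi with hi | ⟨h1, -, h3⟩
  · rw [← hi]
    rw [← hi] at ho
    simp only [vc] at ho ⊢
    refine ⟨(v i).val, by simp, ?_⟩
    rw [if_neg (by simp), abs_lt]
    push_cast
    constructor <;> linarith
  · rw [if_pos h1]
    rcases h3 with h3 | h3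
    · refine ⟨(a i).1.val, ?_, ?_⟩
      · simp only [vc] at h3
        simp [h3]
      · rw [abs_lt]; push_cast; constructor <;> linarith
    · refine ⟨(a i).1.val + 1, ?_, ?_⟩
      · simp only [vc] at h3
        simp [h3]
      · rw [abs_lt]; push_cast; constructor <;> linarith

theorem star_common {n : ℕ} [NeZero n] {A : ℕ} (hn : 5 ≤ n) (hA1 : 1 ≤ A) (hA : A + 3 ≤ n)
    {K : Set (Cell n)} (hK : IsCx K) (hKO : KO n A ⊆ K) {a : Cell n} (ha : a ∈ K ∩ PC n A) :
    ∃ q : Oset K A, ∀ v, Face (vc v) a → q ∈ star K A v :=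
  ⟨⟨pt n (cc A a), cc_mem hn hA1 hA ha⟩, fun v hv i => cc_near a v hv i⟩

theorem star_center {n : ℕ} [NeZero n] {A : ℕ} (hn : 5 ≤ n) (hA1 : 1 ≤ A) (hA : A + 3 ≤ n)
    {K : Set (Cell n)} (hK : IsCx K) (hKO : KO n A ⊆ K) (v : Vx n) (hv : vc v ∈ K ∩ PC n A) :
    ∃ b ∈ star K A v, Kap (b : Tor n) = v := by
  refine ⟨⟨pt n (cc A (vc v)), cc_mem hn hA1 hA hv⟩, fun i => cc_near _ v (Face.refl _) i, ?_⟩
  funext i
  show kap ((cc A (vc v) i : ℝ) : Circ n) = v i
  rw [kap_coe]
  have : kapZ (cc A (vc v) i) = ((v i).val : ℤ) := by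
    rw [kapZ_eq_iff]
    have ho := off_abs A i (v i).val
    rw [abs_le] at ho
    unfold cc
    simp only [vc]
    rw [if_neg (by simp)]
    push_cast
    constructor <;> linarith
  rw [this]
  simp

theorem mem_CS_of {n : ℕ} [NeZero n] {A : ℕ} {K : Set (Cell n)} {v w : Vx n} {q : Oset K A}
    (hv : q ∈ star K A v) (hw : q ∈ star K A w) : ∃ y ∈ CS K A v w, pt n y = q.1 := by
  choose y hy1 hy2 using fun i => exists_lift (v i) (q.1 i) (hv i)
  have e : pt n y = q.1 := funext hy1
  refine ⟨y, ⟨hy2, fun i => ?_, ?_, ?_⟩, e⟩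
  · rw [hy1 i]; exact hw i
  · rw [e]; exact q.2.1
  · rw [e]; exact q.2.2

theorem star_simply_connected {n : ℕ} [NeZero n] {A : ℕ} (hn : 5 ≤ n) (hA1 : 1 ≤ A)
    (hA : A + 3 ≤ n) {K : Set (Cell n)} (hK : IsCx K) (hKO : KO n A ⊆ K) (v : Vx n)
    (hv : vc v ∈ K ∩ PC n A) : SimplyConnectedSpace (star K A v) := by
  obtain ⟨b, hb, -⟩ := star_center hn hA1 hA hK hKO v hv
  obtain ⟨y0, hy0, -⟩ := mem_CS_of hb hb
  have hstar := starConvex_CS hn hA1 hA hK v v hv.2 y0 hy0
  have : ContractibleSpace (CS K A v v) := hstar.contractibleSpace ⟨y0, hy0⟩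
  let f : CS K A v v → star K A v := fun y =>
    ⟨⟨pt n y.1, y.2.2.2.1, y.2.2.2.2⟩, fun i => near_self _ _ (y.2.1 i)⟩
  have hfc : Continuous f :=
    Continuous.subtype_mk (Continuous.subtype_mk ((continuous_pt n).comp continuous_subtype_val) _) _
  have hsub : CS K A v v ⊆ {y : Fin 5 → ℝ | ∀ i, |y i - 3 * ((v i).val : ℝ)| < 2} :=
    fun y hy => hy.1
  have hemb : Topology.IsEmbedding ((fun q : star K A v => (q.1.1 : Tor n)) ∘ f) :=
    (emb_box hn v).comp (Topology.IsEmbedding.inclusion hsub)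
  have hf : Topology.IsEmbedding f :=
    Topology.IsEmbedding.of_comp hfc (continuous_subtype_val.comp continuous_subtype_val) hemb
  have hsurj : Function.Surjective f := by
    rintro ⟨q, hq⟩
    obtain ⟨y, hy, e⟩ := mem_CS_of hq hq
    exact ⟨⟨y, hy⟩, Subtype.ext (Subtype.ext e)⟩
  have hh := (hf.toHomeomorphOfSurjective hsurj)
  have : ContractibleSpace (star K A v) := hh.symm.contractibleSpace
  infer_instance

theorem star_inter {n : ℕ} [NeZero n] {A : ℕ} (hn : 5 ≤ n) (hA1 : 1 ≤ A) (hA : A + 3 ≤ n)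
    {K : Set (Cell n)} (hK : IsCx K) (hKO : KO n A ⊆ K) (v w : Vx n)
    (h : (star K A v ∩ star K A w).Nonempty) : IsPathConnected (star K A v ∩ star K A w) := by
  obtain ⟨q, hqv, hqw⟩ := h
  obtain ⟨y0, hy0, -⟩ := mem_CS_of hqv hqw
  have hv : vc v ∈ PC n A := face_PC hn hA (Lo1_mem hn hA hK q).2 hqv
  have hstar := starConvex_CS hn hA1 hA hK v w hv y0 hy0
  have hW : IsPathConnected (pt n '' CS K A v w) :=
    (hstar.isPathConnected (hstar.mem ⟨y0, hy0⟩)).image (continuous_pt n)
  have hWU : pt n '' CS K A v w ⊆ Oset K A := by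
    rintro _ ⟨y, hy, rfl⟩
    exact ⟨hy.2.2.1, hy.2.2.2⟩
  have e : star K A v ∩ star K A w = ((↑) : Oset K A → Tor n) ⁻¹' (pt n '' CS K A v w) := by
    ext q
    constructor
    · rintro ⟨h1, h2⟩
      obtain ⟨y, hy, e⟩ := mem_CS_of h1 h2
      exact ⟨y, hy, e⟩
    · rintro ⟨y, hy, e⟩
      constructor
      · intro i
        show near (v i) (q.1 i)
        rw [← e]
        exact near_self _ _ (hy.1 i)
      · intro i
        show near (w i) (q.1 i)
        rw [← e]
        exact hy.2.1 i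
  rw [e]
  exact hW.preimage_coe hWU

end Pool.Agent.FM
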