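import Pool.Agent.FM.Defs2

/-!
Abstract nerve lemma for fundamental groups.
-/

open Set

namespace Pool.Agent.FM

namespace C03

/-- homotopy classes of paths -/
abbrev HQ {O : Type} [TopologicalSpace O] (x y : O) : Type := Path.Homotopic.Quotient x y

/-- class of a path -/
abbrev mk {O : Type} [TopologicalSpace O] {x y : O} (γ : Path x y) : HQ x y :=
  Path.Homotopic.Quotient.mk γ

/-- the loops at `o` up to homotopy -/
@[ext] structure LoopG {O : Type} [TopologicalSpace O] (o : O) : Type where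
  /-- the class -/
  val : HQ o o

noncomputable instance {O : Type} [TopologicalSpace O] (o : O) : Group (LoopG o) where
  mul a b := ⟨a.val.trans b.val⟩
  one := ⟨Path.Homotopic.Quotient.refl o⟩
  inv a := ⟨a.val.symm⟩
  mul_assoc a b c := LoopG.ext (Path.Homotopic.Quotient.trans_assoc _ _ _)
  one_mul a := LoopG.ext (Path.Homotopic.Quotient.refl_trans _)
  mul_one a := LoopG.ext (Path.Homotopic.Quotient.trans_refl _)
  inv_mul_cancel a := LoopG.ext (Path.Homotopic.Quotient.symm_trans _)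

theorem mul_val {O : Type} [TopologicalSpace O] {o : O} (a b : LoopG o) :
    (a * b).val = a.val.trans b.val := rfl

theorem inv_val {O : Type} [TopologicalSpace O] {o : O} (a : LoopG o) :
    (a⁻¹).val = a.val.symm := rfl

/-- two functions with the same local increments -/
theorem local_global {H : Type} [Group H] (m : unitInterval → unitInterval → H) (f g : unitInterval → H)
    (δ : ℝ) (hδ : 0 < δ) (hf : ∀ s t, dist s t < δ → f t = f s * m s t)
    (hg : ∀ s t, dist s t < δ → g t = g s * m s t) : g 1 * (f 1)⁻¹ = g 0 * (f 0)⁻¹ := by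
  have hloc : IsLocallyConstant (fun t => g t * (f t)⁻¹) := by
    rw [IsLocallyConstant.iff_eventually_eq]
    intro s
    filter_upwards [Metric.ball_mem_nhds s hδ] with t ht
    rw [hf s t (by rw [dist_comm]; exact ht), hg s t (by rw [dist_comm]; exact ht)]
    group
  exact hloc.apply_eq_of_preconnectedSpace _ _

section

variable {O : Type} [TopologicalSpace O]

theorem symm_mul {a b c : O} (X : HQ a b) (Y : HQ b c) : (X.trans Y).symm = Y.symm.trans X.symm := by
  have h1 : (X.trans Y).trans (Y.symm.trans X.symm) = Path.Homotopic.Quotient.refl a := by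
    rw [Path.Homotopic.Quotient.trans_assoc, ← Path.Homotopic.Quotient.trans_assoc Y]
    simp
  calc (X.trans Y).symm = (X.trans Y).symm.trans ((X.trans Y).trans (Y.symm.trans X.symm)) := by
        rw [h1]; simp
    _ = _ := by rw [← Path.Homotopic.Quotient.trans_assoc]; simp

theorem symm_cancel {a b c : O} (X : HQ a b) (Y : HQ a c) : X.trans (X.symm.trans Y) = Y := by
  rw [← Path.Homotopic.Quotient.trans_assoc]; simp

theorem symm_cancel' {a b c : O} (X : HQ b a) (Y : HQ a c) : X.symm.trans (X.trans Y) = Y := by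
  rw [← Path.Homotopic.Quotient.trans_assoc]; simp

theorem symm_symm' {a b : O} (X : HQ a b) : X.symm.symm = X := by
  have h1 : X.symm.trans X.symm.symm = X.symm.trans X := by simp
  calc X.symm.symm = X.trans (X.symm.trans X.symm.symm) := (symm_cancel _ _).symm
    _ = X.trans (X.symm.trans X) := by rw [h1]
    _ = X := symm_cancel _ _

/-- the class of a path in a subspace -/
noncomputable def inSub {W : Set O} {x y : W} (γ : Path x y) : HQ (x : O) (y : O) :=
  mk (γ.map continuous_subtype_val)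

theorem inSub_eq {W : Set O} (hW : SimplyConnectedSpace W) {x y : W} (γ γ' : Path x y) :
    inSub γ = inSub γ' := by
  unfold inSub
  rw [Path.Homotopic.Quotient.eq]
  exact (SimplyConnectedSpace.paths_homotopic γ γ').map ⟨_, continuous_subtype_val⟩

/-- a path with values in a subspace -/
def toSub {W : Set O} {x y : O} (γ : Path x y) (h : ∀ t, γ t ∈ W) (hx : x ∈ W) (hy : y ∈ W) :
    Path (⟨x, hx⟩ : W) ⟨y, hy⟩ where
  toFun t := ⟨γ t, h t⟩
  continuous_toFun := by fun_prop
  source' := by simp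
  target' := by simp

theorem inSub_toSub {W : Set O} {x y : O} (γ : Path x y) (h : ∀ t, γ t ∈ W) (hx : x ∈ W) (hy : y ∈ W) :
    inSub (toSub γ h hx hy) = mk γ := rfl

theorem inSub_trans {W : Set O} {x y z : W} (γ : Path x y) (γ' : Path y z) :
    inSub (γ.trans γ') = (inSub γ).trans (inSub γ') := by
  unfold inSub
  rw [← Path.Homotopic.Quotient.mk_trans, Path.map_trans]

theorem cast_lem {o : O} (P : ∀ x : O, HQ o x) {x y x' y' : O} (hx : x' = x) (hy : y' = y)
    (c : HQ x y) : ((P x').trans (c.cast hx hy)).trans (P y').symm =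
      ((P x).trans c).trans (P y).symm := by
  subst hx hy
  simp

end

end C03

open C03 in
theorem nerve_unique {O V G : Type} [PseudoMetricSpace O] [Group G] (W : V → Set O)
    (hWo : ∀ v, IsOpen (W v)) (hsc : ∀ v, SimplyConnectedSpace (W v))
    (hpc : ∀ v w, (W v ∩ W w).Nonempty → IsPathConnected (W v ∩ W w))
    (κ : O → V) (ε : ℝ) (hε : 0 < ε) (hκ : ∀ x y, dist x y < ε → y ∈ W (κ x))
    (hO : PathConnectedSpace O) (ℓ : V → V → G)
    (hℓ : ∀ u v w, (W u ∩ W v ∩ W w).Nonempty → ℓ u v * ℓ v w = ℓ u w)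
    (hrig : ∀ (H : Type) [Group H] (ℓ' : V → V → H),
      (∀ u v w, (W u ∩ W v ∩ W w).Nonempty → ℓ' u v * ℓ' v w = ℓ' u w) →
      ∃ (Ψ : G →* H) (h : V → H), ∀ u v, (W u ∩ W v).Nonempty →
        ℓ' u v = h u * Ψ (ℓ u v) * (h v)⁻¹)
    {x y : O} (γ γ' : Path x y) (φ φ' : unitInterval → G)
    (hφ : Pot (fun a b => ℓ (κ a) (κ b)) γ φ) (hφ' : Pot (fun a b => ℓ (κ a) (κ b)) γ' φ')
    (heq : (φ 0)⁻¹ * φ 1 = (φ' 0)⁻¹ * φ' 1) : γ.Homotopic γ' := by
  classical
  have hne : ∀ v, Nonempty (W v) := fun v => by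
    have := hsc v
    exact (inferInstance : PathConnectedSpace (W v)).nonempty
  obtain ⟨b, -⟩ : ∃ b : ∀ v, W v, True := ⟨fun v => (hne v).some, trivial⟩
  obtain ⟨o, -⟩ : ∃ o : O, True := ⟨x, trivial⟩
  -- paths to the centres
  obtain ⟨p, -⟩ : ∃ p : ∀ v, HQ o (b v : O), True :=
    ⟨fun v => mk (PathConnectedSpace.somePath o (b v : O)), trivial⟩
  obtain ⟨q, hq⟩ : ∃ q : ∀ (v : V) (z : O) (_ : z ∈ W v), HQ (b v : O) z,
      ∀ (v : V) (z z' : O) (hz : z ∈ W v) (hz' : z' ∈ W v) (δ : Path z z') (_ : ∀ t, δ t ∈ W v),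
      (q v z hz).trans (mk δ) = q v z' hz' := by
    refine ⟨fun v z hz => haveI := hsc v; inSub (PathConnectedSpace.somePath (b v) (⟨z, hz⟩ : W v)), ?_⟩
    intro v z z' hz hz' δ hδ
    rw [← inSub_toSub δ hδ hz hz', ← inSub_trans]
    exact inSub_eq (hsc v) _ _
  -- the comparison classes
  have hE : ∀ (u v : V) (z z' : O) (hzu : z ∈ W u) (hzv : z ∈ W v) (hzu' : z' ∈ W u) (hzv' : z' ∈ W v),
      (q u z hzu).trans (q v z hzv).symm = (q u z' hzu').trans (q v z' hzv').symm := by
    intro u v z z' hzu hzv hzu' hzv'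
    obtain ⟨δ, hδ⟩ := ((hpc u v ⟨z, hzu, hzv⟩).joinedIn z ⟨hzu, hzv⟩ z' ⟨hzu', hzv'⟩)
    rw [← hq u z z' hzu hzu' δ fun t => (hδ t).1, ← hq v z z' hzv hzv' δ fun t => (hδ t).2]
    rw [symm_mul, Path.Homotopic.Quotient.trans_assoc, symm_cancel]
  obtain ⟨ℓ', hℓ'eq⟩ : ∃ ℓ' : V → V → LoopG o, ∀ (u v : V) (z : O) (hzu : z ∈ W u) (hzv : z ∈ W v),
      (ℓ' u v).val = (p u).trans (((q u z hzu).trans (q v z hzv).symm).trans (p v).symm) := by
    refine ⟨fun u v => if h : (W u ∩ W v).Nonempty then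
      ⟨(p u).trans (((q u h.some (Set.mem_of_mem_inter_left h.some_mem)).trans
        (q v h.some (Set.mem_of_mem_inter_right h.some_mem)).symm).trans (p v).symm)⟩
      else 1, ?_⟩
    intro u v z hzu hzv
    have h : (W u ∩ W v).Nonempty := ⟨z, hzu, hzv⟩
    simp only [dif_pos h]
    rw [hE u v _ z (Set.mem_of_mem_inter_left h.some_mem) (Set.mem_of_mem_inter_right h.some_mem) hzu hzv]
  have hℓ'c : ∀ u v w, (W u ∩ W v ∩ W w).Nonempty → ℓ' u v * ℓ' v w = ℓ' u w := by
    rintro u v w ⟨z, ⟨hu, hv⟩, hw⟩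
    apply LoopG.ext
    rw [mul_val, hℓ'eq u v z hu hv, hℓ'eq v w z hv hw, hℓ'eq u w z hu hw]
    simp only [Path.Homotopic.Quotient.trans_assoc, symm_cancel']
  obtain ⟨Ψ, h, hh⟩ := hrig (LoopG o) ℓ' hℓ'c
  have hκ0 : ∀ z, z ∈ W (κ z) := fun z => hκ z z (by rw [dist_self]; exact hε)
  obtain ⟨P, hP⟩ : ∃ P : ∀ z : O, HQ o z, ∀ z, P z =
      (h (κ z)).val.symm.trans ((p (κ z)).trans (q (κ z) z (hκ0 z))) := ⟨_, fun _ => rfl⟩
  have hlocal : ∀ (z z' : O) (δ : Path z z') (hδ : ∀ t, δ t ∈ W (κ z)),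
      ((P z).trans (mk δ)).trans (P z').symm = (Ψ (ℓ (κ z) (κ z'))).val := by
    intro z z' δ hδ
    have hz' : z' ∈ W (κ z) := by have := hδ 1; simpa using this
    have h1 := hh (κ z) (κ z') ⟨z', hz', hκ0 z'⟩
    have h2 : Ψ (ℓ (κ z) (κ z')) = (h (κ z))⁻¹ * ℓ' (κ z) (κ z') * h (κ z') := by
      rw [h1]; group
    rw [h2, mul_val, mul_val, inv_val, hℓ'eq (κ z) (κ z') z' hz' (hκ0 z'),
      ← hq (κ z) z z' (hκ0 z) hz' δ hδ, hP z, hP z']
    simp only [Path.Homotopic.Quotient.trans_assoc, symm_mul, symm_symm']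
  -- global comparison
  have hglobal : ∀ (γ : Path x y) (φ : unitInterval → G), Pot (fun a b => ℓ (κ a) (κ b)) γ φ →
      ((P x).trans (mk γ)).trans (P y).symm = (Ψ ((φ 0)⁻¹ * φ 1)).val := by
    rintro γ φ ⟨δ1, hδ1, hφ⟩
    have huc : ∃ δ2 > 0, ∀ s t : unitInterval, dist s t < δ2 → dist (γ s) (γ t) < ε := by
      have h1 : UniformContinuous γ := CompactSpace.uniformContinuous_of_continuous γ.continuous
      obtain ⟨δ2, h2, h3⟩ := Metric.uniformContinuous_iff.mp h1 ε hε
      exact ⟨δ2, h2, fun s t hst => h3 hst⟩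
    obtain ⟨δ2, hδ2, hγ⟩ := huc
    let g : unitInterval → LoopG o := fun t =>
      ⟨((P (γ 0)).trans (mk (γ.subpath 0 t))).trans (P (γ t)).symm⟩
    let f : unitInterval → LoopG o := fun t => Ψ (φ t)
    have hsub : ∀ s t : unitInterval, dist s t < δ2 → ∀ r, (γ.subpath s t) r ∈ W (κ (γ s)) := by
      intro s t hst r
      apply hκ
      have hr : (γ.subpath s t) r ∈ Set.range (γ.subpath s t) := ⟨r, rfl⟩
      rw [Path.range_subpath] at hr
      obtain ⟨r', hr', hrr⟩ := hr
      rw [← hrr]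
      apply hγ
      refine lt_of_le_of_lt ?_ hst
      rw [Subtype.dist_eq, Subtype.dist_eq, Real.dist_eq, Real.dist_eq]
      have hr'' : (r' : ℝ) ∈ Set.uIcc (s : ℝ) (t : ℝ) := by
        rcases le_total s t with hle | hle
        · rw [Set.uIcc_of_le hle] at hr'
          rw [Set.uIcc_of_le (show (s : ℝ) ≤ t from hle)]
          exact ⟨hr'.1, hr'.2⟩
        · rw [Set.uIcc_of_ge hle] at hr'
          rw [Set.uIcc_of_ge (show (t : ℝ) ≤ s from hle)]
          exact ⟨hr'.1, hr'.2⟩
      rw [abs_sub_comm (s : ℝ) r', abs_sub_comm (s : ℝ) t]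
      exact Set.abs_sub_left_of_mem_uIcc hr''
    have hcat : ∀ s t : unitInterval, mk (γ.subpath 0 t) = (mk (γ.subpath 0 s)).trans (mk (γ.subpath s t)) := by
      intro s t
      rw [← Path.Homotopic.Quotient.mk_trans, Path.Homotopic.Quotient.eq]
      exact ⟨(Path.Homotopy.subpathTransSubpath γ 0 s t).symm⟩
    have hlg := local_global (fun s t => Ψ (ℓ (κ (γ s)) (κ (γ t)))) f g (min δ1 δ2) (lt_min hδ1 hδ2) (by
        intro s t hst
        simp only [f]
        rw [hφ s t (lt_of_lt_of_le hst (min_le_left _ _)), map_mul]) (by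
        intro s t hst
        apply LoopG.ext
        rw [mul_val, ← hlocal (γ s) (γ t) (γ.subpath s t) (hsub s t (lt_of_lt_of_le hst (min_le_right _ _)))]
        simp only [g]
        rw [hcat s t]
        simp only [Path.Homotopic.Quotient.trans_assoc, symm_cancel'])
    have hg0 : g 0 = 1 := by
      apply LoopG.ext
      show ((P (γ 0)).trans (mk (γ.subpath 0 0))).trans (P (γ 0)).symm = Path.Homotopic.Quotient.refl o
      rw [Path.subpath_self]
      unfold mk
      rw [Path.Homotopic.Quotient.mk_refl]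
      simp
    have hg1 : (g 1).val = ((P x).trans (mk γ)).trans (P y).symm := by
      show ((P (γ 0)).trans (mk (γ.subpath 0 1))).trans (P (γ 1)).symm = _
      rw [Path.subpath_zero_one]
      unfold mk
      rw [Path.Homotopic.Quotient.mk_cast, cast_lem]
    rw [hg0, one_mul] at hlg
    have h3 : g 1 = Ψ ((φ 0)⁻¹ * φ 1) := by
      rw [map_mul, map_inv]
      show g 1 = (f 0)⁻¹ * f 1
      rw [← hlg]; group
    rw [← hg1, h3]
  have h1 := hglobal γ φ hφ
  have h2 := hglobal γ' φ' hφ'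
  rw [← heq, ← h1] at h2
  have h3 : mk γ' = mk γ := by
    have h4 := congrArg (fun Z => (P x).symm.trans (Z.trans (P y))) h2
    simpa [Path.Homotopic.Quotient.trans_assoc, symm_cancel'] using h4
  rw [← Path.Homotopic.Quotient.eq]
  exact h3.symm

end Pool.Agent.FM
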