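import Pool.Agent.FM.Defs2
import Pool.Agent.FM.B08
import Pool.Agent.FM.B09
import Pool.Agent.FM.C02
import Pool.Agent.FM.C03

/-!
# Block C04: the fundamental groupoid of the open neighbourhood
-/

open Set

namespace Pool.Agent.FM

namespace C04

open B09

section comb

variable {n : ℕ} [NeZero n] {G : Type} [Group G]

omit [NeZero n] in
theorem ell_self (c : Vx n → Fin 5 → G) (v : Vx n) : ell c v v = 1 := by
  simp [ell, stp, Function.update_eq_self]

omit [NeZero n] in
theorem ell_up (hn : 3 ≤ n) (c : Vx n → Fin 5 → G) (v : Vx n) (i : Fin 5) :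
    ell c v (up v i) = c v i := by
  have h1 := one_ne_zero' hn
  fin_cases i <;>
    simp [ell, up, stp, h1, Function.update_eq_self]

omit [NeZero n] in
theorem face_vc_iff {u : Vx n} {a : Cell n} : Face (vc u) a ↔ ∀ k, Cv (u k) (a k) :=
  ⟨fun h k => cv_of_face1 (h k), fun h k => face1_of_cv (h k)⟩

omit [NeZero n] in
theorem up_self (u : Vx n) (i : Fin 5) : up u i i = u i + 1 := by simp [up]
omit [NeZero n] in
theorem up_ne (u : Vx n) {i k : Fin 5} (h : k ≠ i) : up u i k = u k := by simp [up, h]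

omit [NeZero n] in
theorem ec_face (hn : 3 ≤ n) {a : Cell n} {u : Vx n} {i : Fin 5} (hu : Face (vc u) a)
    (hu' : Face (vc (up u i)) a) : Face (ec u i) a := by
  rw [face_vc_iff] at hu hu'
  have h1 := one_ne_zero' hn
  have h2 := two_ne_zero' hn
  intro k
  by_cases hk : k = i
  · subst hk
    have h3 := hu k
    have h4 := hu' k
    rw [up_self] at h4
    left
    show (u k, decide (k = k)) = a k
    rcases h3 with h3 | ⟨h3, h3'⟩
    · rcases h4 with h4 | ⟨h4, h4'⟩
      · rw [← h3] at h4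
        exact absurd (by simpa using h4) h1
      · exact Prod.ext h3 (by simp [h4])
    · exfalso
      rcases h4 with h4 | ⟨h4, h4'⟩
      · rw [h3', add_assoc] at h4
        exact h2 (by simpa using h4)
      · rw [h3'] at h4'
        exact h1 (by simpa using h4')
  · have h3 := face1_of_cv (hu k)
    show Face1 (u k, decide (k = i)) (a k)
    simpa [hk] using h3

omit [NeZero n] in
theorem cell_ind (hn : 3 ≤ n) {a : Cell n} {P : Vx n → Vx n → Prop}
    (hrefl : ∀ u, Face (vc u) a → P u u)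
    (htrans : ∀ u v w, Face (vc u) a → Face (vc v) a → Face (vc w) a → P u v → P v w → P u w)
    (hsymm : ∀ u v, Face (vc u) a → Face (vc v) a → P u v → P v u)
    (hup : ∀ u i, Face (vc u) a → Face (vc (up u i)) a → Face (ec u i) a → P u (up u i))
    {u v : Vx n} (hu : Face (vc u) a) (hv : Face (vc v) a) : P u v := by
  have hu0 := face_vc_iff.mp hu
  have hv0 := face_vc_iff.mp hv
  have hmix : ∀ s : ℕ, Face (vc fun k : Fin 5 => if k.val < s then v k else u k) a := by
    intro s
    rw [face_vc_iff]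
    intro k
    show Cv (if k.val < s then v k else u k) (a k)
    split_ifs
    · exact hv0 k
    · exact hu0 k
  have key : ∀ s : ℕ, s ≤ 5 → P u (fun k : Fin 5 => if k.val < s then v k else u k) := by
    intro s
    induction s with
    | zero => intro _; simpa using hrefl u hu
    | succ s ih =>
      intro hs
      have ih := ih (by omega)
      apply htrans u _ _ hu (hmix s) (hmix (s + 1)) ih
      set w : Vx n := fun k : Fin 5 => if k.val < s then v k else u k with hw
      set w' : Vx n := fun k : Fin 5 => if k.val < s + 1 then v k else u k with hw'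
      let i : Fin 5 := ⟨s, by omega⟩
      have hwi : w i = u i := by simp [hw, i]
      have hwi' : w' i = v i := by simp [hw', i]
      have hwk : ∀ k, k ≠ i → w' k = w k := by
        intro k hk
        have : k.val ≠ s := fun h => hk (Fin.ext h)
        simp only [hw, hw']
        by_cases h : k.val < s
        · rw [if_pos h, if_pos (by omega)]
        · rw [if_neg h, if_neg (by omega)]
      have h1 := hu0 i
      have h2 := hv0 i
      by_cases heq : v i = u i
      · have : w' = w := by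
          funext k
          by_cases hk : k = i
          · rw [hk, hwi, hwi', heq]
          · exact hwk k hk
        rw [this]
        exact hrefl w (hmix s)
      · rcases h1 with h1 | ⟨h1, h1'⟩
        · rcases h2 with h2 | ⟨h2, h2'⟩
          · exact absurd (h2.trans h1.symm) heq
          · have : w' = up w i := by
              funext k
              by_cases hk : k = i
              · rw [hk, up_self, hwi, hwi', h2', h1]
              · rw [up_ne _ hk, hwk k hk]
            have hf := hmix (s + 1)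
            rw [← hw', this] at hf
            rw [this]
            exact hup w i (hmix s) hf (ec_face hn (hmix s) hf)
        · rcases h2 with h2 | ⟨h2, h2'⟩
          · have : w = up w' i := by
              funext k
              by_cases hk : k = i
              · rw [hk, up_self, hwi, hwi', h2, h1']
              · rw [up_ne _ hk, hwk k hk]
            apply hsymm _ _ (hmix (s + 1)) (hmix s)
            have hf := hmix s
            rw [← hw, this] at hf
            rw [← hw', ← hw, this]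
            exact hup w' i (hmix (s + 1)) hf (ec_face hn (hmix (s + 1)) hf)
          · exact absurd (h2'.trans h1'.symm) heq
  have h5 := key 5 le_rfl
  have : (fun k : Fin 5 => if k.val < 5 then v k else u k) = v := by
    funext k
    simp [k.2]
  rwa [this] at h5

omit [NeZero n] in
theorem vc_face_ec (v : Vx n) (i : Fin 5) : Face (vc v) (ec v i) ∧ Face (vc (up v i)) (ec v i) := by
  rw [face_vc_iff, face_vc_iff]
  constructor
  · intro k; left; rfl
  · intro k
    by_cases hk : k = i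
    · subst hk
      right
      exact ⟨by simp [ec], by rw [up_self]; rfl⟩
    · left; rw [up_ne _ hk]; rfl

omit [NeZero n] in
theorem vc_face_sc (v : Vx n) {i j : Fin 5} (hij : i ≠ j) : Face (vc v) (sc v i j) ∧
    Face (vc (up v i)) (sc v i j) ∧ Face (vc (up v j)) (sc v i j) ∧
    Face (vc (up (up v i) j)) (sc v i j) := by
  rw [face_vc_iff, face_vc_iff, face_vc_iff, face_vc_iff]
  refine ⟨?_, ?_, ?_, ?_⟩
  · intro k; left; rfl
  · intro k
    by_cases hk : k = i
    · subst hk
      right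
      exact ⟨by simp [sc], by rw [up_self]; rfl⟩
    · left; rw [up_ne _ hk]; rfl
  · intro k
    by_cases hk : k = j
    · subst hk
      right
      exact ⟨by simp [sc], by rw [up_self]; rfl⟩
    · left; rw [up_ne _ hk]; rfl
  · intro k
    by_cases hk : k = j
    · subst hk
      right
      exact ⟨by simp [sc], by rw [up_self, up_ne _ hij.symm]; rfl⟩
    · rw [up_ne _ hk]
      by_cases hk' : k = i
      · subst hk'
        right
        exact ⟨by simp [sc], by rw [up_self]; rfl⟩
      · left; rw [up_ne _ hk']; rfl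

omit [NeZero n] in
theorem up_comm (v : Vx n) {i j : Fin 5} (hij : i ≠ j) : up (up v i) j = up (up v j) i := by
  funext k
  by_cases hk : k = j
  · subst hk
    rw [up_self, up_ne _ hij.symm, up_ne _ hij.symm, up_self]
  · rw [up_ne _ hk]
    by_cases hk' : k = i
    · subst hk'
      rw [up_self, up_self, up_ne _ hk]
    · rw [up_ne _ hk', up_ne _ hk', up_ne _ hk]

end comb

end C04

open C04 in
theorem groupoid_O {n : ℕ} [NeZero n] {A : ℕ} (hn : 5 ≤ n) (hA1 : 1 ≤ A) (hA : A + 3 ≤ n)
    {K : Set (Cell n)} (hK : IsCx K) (hKO : KO n A ⊆ K) {G : Type} [Group G]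
    {c : Vx n → Fin 5 → G} (hc : Flat (K ∩ PC n A) c) (v0 : Vx n) (hv0 : vc v0 ∈ K ∩ PC n A)
    (hconn : ∀ v, vc v ∈ K ∩ PC n A → ∃ g, EP (K ∩ PC n A) c v0 v g)
    (hgen : ∀ g, EP (K ∩ PC n A) c v0 v0 g)
    (hrig : ∀ (H : Type) [Group H] (c' : Vx n → Fin 5 → H), Flat (K ∩ PC n A) c' →
      ∃ (Ψ : G →* H) (h : Vx n → H), ∀ v i, ec v i ∈ K ∩ PC n A →
        c' v i = h v * Ψ (c v i) * (h (up v i))⁻¹) :
    PathConnectedSpace (Oset K A) ∧
    (∀ (x y : Oset K A) (γ γ' : Path x y) (φ φ' : unitInterval → G),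
      Pot (fun a b : Oset K A => mOf c a b) γ φ → Pot (fun a b : Oset K A => mOf c a b) γ' φ' →
      (φ 0)⁻¹ * φ 1 = (φ' 0)⁻¹ * φ' 1 → γ.Homotopic γ') ∧
    (∀ (x : Oset K A) (g : G), ∃ (γ : Path x x) (φ : unitInterval → G),
      Pot (fun a b : Oset K A => mOf c a b) γ φ ∧ (φ 0)⁻¹ * φ 1 = g) := by
  classical
  have hPC := isCx_PC hA hn
  have hL : IsCx (K ∩ PC n A) := fun a ha b hb => ⟨hK a ha.1 b hb, hPC a ha.2 b hb⟩
  have hn3 : 3 ≤ n := by omega
  have cell3 : ∀ (q : Oset K A) (u v w : Vx n), q ∈ star K A u → q ∈ star K A v →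
      q ∈ star K A w → ell c u v * ell c v w = ell c u w := by
    intro q u v w hu hv hw
    obtain ⟨a, ha, hav⟩ := star_cell hn hA hK hKO q
    exact ell_cell hn3 hL hc ha (hav u hu) (hav v hv) (hav w hw)
  have hkap : ∀ q : Oset K A, q ∈ star K A (Kap q.1) := fun q => (mem_star_kap hn hA hK hKO q).1
  have hkapL : ∀ q : Oset K A, vc (Kap q.1) ∈ K ∩ PC n A := fun q =>
    (mem_star_kap hn hA hK hKO q).2
  have hclose : ∀ q q' : Oset K A, dist q q' < 1 / 2 → q' ∈ star K A (Kap q.1) := fun q q' h =>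
    mem_star_close hn q q' h
  have hm : ∀ x y z : Oset K A, dist x y < 1 / 2 → dist y z < 1 / 2 → dist x z < 1 / 2 →
      mOf c x.1 y.1 * mOf c y.1 z.1 = mOf c x.1 z.1 := by
    intro x y z hxy hyz _
    exact cell3 y _ _ _ (hclose x y hxy) (hkap y) (hclose z y (by rwa [dist_comm]))
  obtain ⟨Θ, hΘex, hΘφ, hΘh, hΘt, hΘs, -⟩ :=
    exists_theta (fun a b : Oset K A => mOf c a b) (1 / 2) (by norm_num) hm
  -- centres
  obtain ⟨b0, -, -⟩ := star_center hn hA1 hA hK hKO v0 hv0
  have hcent : ∀ v, ∃ b : Oset K A, vc v ∈ K ∩ PC n A → b ∈ star K A v ∧ Kap (b : Tor n) = v := by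
    intro v
    by_cases hv : vc v ∈ K ∩ PC n A
    · obtain ⟨b, hb, hb'⟩ := star_center hn hA1 hA hK hKO v hv
      exact ⟨b, fun _ => ⟨hb, hb'⟩⟩
    · exact ⟨b0, fun h => absurd h hv⟩
  choose b hb using hcent
  have starpath : ∀ v, vc v ∈ K ∩ PC n A → ∀ q ∈ star K A v,
      ∃ γ : Path (b v) q, Θ γ = ell c v (Kap q.1) := by
    intro v hv q hq
    have hsc := star_simply_connected hn hA1 hA hK hKO v hv
    have hpc : PathConnectedSpace (star K A v) := inferInstance
    let γ0 : Path (⟨b v, (hb v hv).1⟩ : star K A v) ⟨q, hq⟩ := PathConnectedSpace.somePath _ _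
    let γ : Path (b v) q := γ0.map continuous_subtype_val
    refine ⟨γ, ?_⟩
    have hγ : ∀ t, γ t ∈ star K A v := fun t => (γ0 t).2
    have hpot : Pot (fun a b : Oset K A => mOf c a b) γ (fun t => ell c v (Kap (γ t).1)) := by
      have huc : UniformContinuous γ :=
        CompactSpace.uniformContinuous_of_continuous γ.continuous
      obtain ⟨δ, hδ, hd⟩ := Metric.uniformContinuous_iff.mp huc (1 / 2) (by norm_num)
      refine ⟨δ, hδ, fun s t hst => ?_⟩
      exact (cell3 (γ t) v (Kap (γ s).1) (Kap (γ t).1) (hγ t) (hclose _ _ (hd hst))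
        (hkap _)).symm
    rw [hΘφ γ _ hpot]
    simp only [γ.source, γ.target, (hb v hv).2, ell_self, inv_one, one_mul]
  have edgepath : ∀ w i, ec w i ∈ K ∩ PC n A → vc w ∈ K ∩ PC n A ∧ vc (up w i) ∈ K ∩ PC n A ∧
      ∃ γ : Path (b w) (b (up w i)), Θ γ = c w i := by
    intro w i hec
    obtain ⟨f1, f2⟩ := vc_face_ec w i
    have hw := hL _ hec _ f1
    have hw' := hL _ hec _ f2
    refine ⟨hw, hw', ?_⟩
    obtain ⟨q, hq⟩ := star_common hn hA1 hA hK hKO hec
    obtain ⟨γ1, h1⟩ := starpath w hw q (hq w f1)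
    obtain ⟨γ2, h2⟩ := starpath (up w i) hw' q (hq _ f2)
    refine ⟨γ1.trans γ2.symm, ?_⟩
    rw [hΘt, hΘs, h1, h2, ← cell3 q w (up w i) (Kap q.1) (hq w f1) (hq _ f2) (hkap q),
      mul_inv_cancel_right, ell_up hn3]
  have edge : ∀ w g, EP (K ∩ PC n A) c v0 w g →
      vc w ∈ K ∩ PC n A ∧ ∃ γ : Path (b v0) (b w), Θ γ = g := by
    intro w g h
    induction h with
    | refl =>
      refine ⟨hv0, Path.refl _, ?_⟩
      rw [hΘφ (Path.refl _) (fun _ => 1) ⟨1, one_pos, fun s t _ => by
        simp [mOf, ell_self]⟩]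
      simp
    | up i _ hec ih =>
      obtain ⟨_, γ, hγ⟩ := ih
      obtain ⟨h1, h2, δ, hδ⟩ := edgepath _ i hec
      exact ⟨h2, γ.trans δ, by rw [hΘt, hγ, hδ]⟩
    | down i _ hec ih =>
      obtain ⟨_, γ, hγ⟩ := ih
      obtain ⟨h1, h2, δ, hδ⟩ := edgepath _ i hec
      exact ⟨h1, γ.trans δ.symm, by rw [hΘt, hΘs, hγ, hδ]⟩
  have topath : ∀ q : Oset K A, ∃ γ : Path (b v0) q, True := by
    intro q
    obtain ⟨g, hg⟩ := hconn _ (hkapL q)
    obtain ⟨h1, γ, -⟩ := edge _ _ hg
    obtain ⟨δ, -⟩ := starpath _ (hkapL q) q (hkap q)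
    exact ⟨γ.trans δ, trivial⟩
  have hPCS : PathConnectedSpace (Oset K A) := by
    refine ⟨⟨b v0⟩, fun x y => ?_⟩
    obtain ⟨γ, -⟩ := topath x
    obtain ⟨δ, -⟩ := topath y
    exact ⟨γ.symm.trans δ⟩
  refine ⟨hPCS, ?_, ?_⟩
  · intro x y γ γ' φ φ' hφ hφ' heq
    refine nerve_unique (O := Oset K A) (V := {v : Vx n // vc v ∈ K ∩ PC n A}) (G := G)
      (fun v => star K A v.1) (fun v => isOpen_star hn hA hK hKO v.1)
      (fun v => star_simply_connected hn hA1 hA hK hKO v.1 v.2)
      (fun v w h => star_inter hn hA1 hA hK hKO v.1 w.1 h)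
      (fun q => ⟨Kap q.1, hkapL q⟩) (1 / 2) (by norm_num) (fun x y h => hclose x y h) hPCS
      (fun u v => ell c u.1 v.1)
      (fun u v w h => by
        obtain ⟨q, ⟨hu, hv⟩, hw⟩ := h
        exact cell3 q _ _ _ hu hv hw) ?_ γ γ' φ φ' hφ hφ' heq
    intro H _ ℓ' hℓ'
    set ℓ'' : Vx n → Vx n → H := fun u v =>
      if h : vc u ∈ K ∩ PC n A ∧ vc v ∈ K ∩ PC n A then ℓ' ⟨u, h.1⟩ ⟨v, h.2⟩ else 1 with hℓ''
    have hcell : ∀ a ∈ K ∩ PC n A, ∀ u v w, Face (vc u) a → Face (vc v) a → Face (vc w) a →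
        ℓ'' u v * ℓ'' v w = ℓ'' u w := by
      intro a ha u v w hu hv hw
      have hu' := hL a ha _ hu
      have hv' := hL a ha _ hv
      have hw' := hL a ha _ hw
      simp only [hℓ'', dif_pos (And.intro hu' hv'), dif_pos (And.intro hv' hw'),
        dif_pos (And.intro hu' hw')]
      apply hℓ'
      obtain ⟨q, hq⟩ := star_common hn hA1 hA hK hKO ha
      exact ⟨q, ⟨hq u hu, hq v hv⟩, hq w hw⟩
    have hself : ∀ a ∈ K ∩ PC n A, ∀ u, Face (vc u) a → ℓ'' u u = 1 := by
      intro a ha u hu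
      have := hcell a ha u u u hu hu hu
      simpa using this
    have hflat : Flat (K ∩ PC n A) (fun v i => ℓ'' v (up v i)) := by
      intro v i j hij hsc
      obtain ⟨f1, f2, f3, f4⟩ := vc_face_sc v hij
      show ℓ'' v (up v i) * ℓ'' (up v i) (up (up v i) j) =
        ℓ'' v (up v j) * ℓ'' (up v j) (up (up v j) i)
      rw [hcell _ hsc _ _ _ f1 f2 f4, up_comm v hij]
      rw [up_comm v hij] at f4
      rw [hcell _ hsc _ _ _ f1 f3 f4]
    obtain ⟨Ψ, h, hΨ⟩ := hrig H _ hflat
    refine ⟨Ψ, fun v => h v.1, fun u v huv => ?_⟩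
    obtain ⟨q, hqu, hqv⟩ := huv
    obtain ⟨a, ha, hav⟩ := star_cell hn hA hK hKO q
    have key : ℓ'' u.1 v.1 = h u.1 * Ψ (ell c u.1 v.1) * (h v.1)⁻¹ := by
      refine cell_ind hn3 (P := fun u v => ℓ'' u v = h u * Ψ (ell c u v) * (h v)⁻¹) ?_ ?_ ?_ ?_
        (hav u.1 hqu) (hav v.1 hqv)
      · intro u hu
        simp [hself a ha u hu, ell_self]
      · intro u v w hu hv hw h1 h2
        rw [← hcell a ha u v w hu hv hw, h1, h2, ← ell_cell hn3 hL hc ha hu hv hw, map_mul]
        group
      · intro u v hu hv h1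
        have h2 := hcell a ha u v u hu hv hu
        rw [hself a ha u hu] at h2
        have h3 := ell_cell hn3 hL hc ha hu hv hu
        rw [ell_self] at h3
        have h4 : ℓ'' v u = (ℓ'' u v)⁻¹ := eq_inv_of_mul_eq_one_right h2
        have h5 : ell c v u = (ell c u v)⁻¹ := eq_inv_of_mul_eq_one_right h3
        rw [h4, h1, h5, map_inv]
        group
      · intro u i hu hu' he
        rw [ell_up hn3]
        exact hΨ u i (hL a ha _ he)
    have h1 : ℓ'' u.1 v.1 = ℓ' u v := by
      simp only [hℓ'', dif_pos (And.intro u.2 v.2)]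
    rw [← h1]
    exact key
  · intro x g
    obtain ⟨δ, -⟩ := topath x
    obtain ⟨-, γ0, h0⟩ := edge _ _ (hgen (Θ δ * g * (Θ δ)⁻¹))
    refine ⟨δ.symm.trans (γ0.trans δ), ?_⟩
    obtain ⟨φ, hφ⟩ := hΘex (δ.symm.trans (γ0.trans δ))
    refine ⟨φ, hφ, ?_⟩
    rw [← hΘφ _ _ hφ, hΘt, hΘt, hΘs, h0]
    group

end Pool.Agent.FM
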