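import Pool.Agent.FM.Defs2

/-!
BLOCK C05: the complexes of configurations are complexes, thin for z = true.
-/

open Set

namespace Pool.Agent.FM

namespace C05

/-- faces in doubled coordinates -/
def FN (n q p : ℕ) : Prop :=
  q = p ∨ (p % 2 = 1 ∧ (q + 1 = p ∨ q = p + 1 ∨ (p + 1 = 2 * n ∧ q = 0)))

theorem fn_of_face {n : ℕ} [NeZero n] {b a : C1 n} (h : Face1 b a) : FN n (dbl b) (dbl a) := by
  rcases h with rfl | ⟨h1, h2, h3⟩
  · exact Or.inl rfl
  · right
    unfold dbl
    rw [h1, h2]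
    refine ⟨by simp, ?_⟩
    rcases h3 with h3 | h3
    · left; rw [h3]; simp
    · rw [h3]
      have hlt : a.1.val < n := ZMod.val_lt _
      by_cases hc : a.1.val + 1 < n
      · right; left
        have : (a.1 + 1).val = a.1.val + 1 := by
          rw [ZMod.val_add, ZMod.val_one_eq_one_mod, Nat.add_mod_mod, Nat.mod_eq_of_lt hc]
        rw [this]; simp; omega
      · right; right
        have hn : a.1.val + 1 = n := by omega
        have : (a.1 + 1).val = 0 := by
          rw [ZMod.val_add, ZMod.val_one_eq_one_mod, Nat.add_mod_mod, hn, Nat.mod_self]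
        rw [this]; simp; omega

theorem dimC_eq {n : ℕ} (a : Cell n) :
    dimC a = dbl (a 0) % 2 + dbl (a 1) % 2 + dbl (a 2) % 2 + dbl (a 3) % 2 + dbl (a 4) % 2 := by
  have h : ∀ x : C1 n, dbl x % 2 = if x.2 = true then 1 else 0 := by
    intro x
    unfold dbl
    rcases x with ⟨k, b⟩
    cases b <;> simp
  unfold dimC
  rw [Finset.card_filter, Fin.sum_univ_five]
  simp only [h]

theorem adj_cases {m : ℕ} {p q : ℕ × ℕ} (h : GAdj m p q) :
    (p.1 = q.1 ∧ (p.2 = q.2 ∨ p.2 + 1 = q.2 ∨ q.2 + 1 = p.2)) ∨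
      (p.2 = q.2 ∧ (p.1 + 1 = q.1 ∨ q.1 + 1 = p.1)) := by
  rcases h with rfl | h | h
  · simp
  · rcases h with h | ⟨i, _, h⟩ | ⟨i, _, rfl, rfl⟩
    · omega
    · omega
    · simp
  · rcases h with h | ⟨i, _, h⟩ | ⟨i, _, rfl, rfl⟩
    · omega
    · omega
    · simp

theorem gv_le {m : ℕ} {p : ℕ × ℕ} (h : IsGV m p) : p.1 ≤ 2 * m + 1 ∧ 1 ≤ p.2 ∧ p.2 ≤ 2 := by
  rcases h with h | ⟨i, _, h⟩ <;> omega

theorem gam_face {n m : ℕ} {J : Finset ℕ} {u v u' v' : ℕ} (h : Gam m J u v)
    (hu : FN n u' u) (hv : FN n v' v) (h2 : 2 * m + 5 ≤ n) : Gam m J u' v' := by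
  unfold FN at hu hv
  rcases h with h | ⟨i, hi, him, h⟩
  · left; unfold onL at h ⊢; omega
  · right; refine ⟨i, hi, him, ?_⟩; unfold onLoop at h ⊢; omega

theorem gam_par {m : ℕ} {J : Finset ℕ} {u v : ℕ} (h : Gam m J u v) : u % 2 + v % 2 ≤ 1 := by
  rcases h with h | ⟨i, hi, him, h⟩
  · unfold onL at h; omega
  · unfold onLoop at h; omega

theorem onW_face {n m : ℕ} {w : ℕ → ℕ × ℕ} (hw : ∀ t, IsGV m (w t))
    (ha : ∀ t, GAdj m (w t) (w (t + 1))) {t u v t' u' v' : ℕ} (h : onW w t u v)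
    (h0 : 2 ≤ t) (hn : t + 1 < 2 * n)
    (ht : FN n t' t) (hu : FN n u' u) (hv : FN n v' v) (h2 : 2 * m + 5 ≤ n) :
    onW w t' u' v' := by
  unfold FN at ht hu hv
  by_cases hc : t % 2 = 1
  · obtain ⟨j, rfl⟩ : ∃ j, t = 2 * j + 1 := ⟨t / 2, by omega⟩
    have e1 : (2 * j + 1) / 2 = j := by omega
    unfold onW at h
    rw [if_pos hc, e1] at h
    have hu' : u' = u := by omega
    have hv' : v' = v := by omega
    subst hu' hv'
    rcases ht with rfl | ⟨_, ht | ht | ht⟩
    · unfold onW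
      rw [if_pos hc, e1]; exact h
    · have e2 : t' = 2 * j := by omega
      subst e2
      have e3 : 2 * j / 2 = j := by omega
      unfold onW
      rw [if_neg (by omega), e3]
      omega
    · have e2 : t' = 2 * (j + 1) := by omega
      subst e2
      have e3 : 2 * (j + 1) / 2 = j + 1 := by omega
      have e4 : j + 1 - 1 = j := by omega
      unfold onW
      rw [if_neg (by omega), e3, e4]
      omega
    · omega
  · have ht' : t' = t := by omega
    subst ht'
    obtain ⟨j, hj⟩ : ∃ j, t' / 2 - 1 = j ∧ t' / 2 = j + 1 := ⟨t' / 2 - 1, by omega⟩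
    unfold onW at h ⊢
    rw [if_neg hc, hj.1, hj.2] at h ⊢
    have := adj_cases (ha j)
    have g1 := gv_le (hw j)
    have g2 := gv_le (hw (j + 1))
    omega

theorem onW_par {m : ℕ} {w : ℕ → ℕ × ℕ}
    (ha : ∀ t, GAdj m (w t) (w (t + 1))) {t u v : ℕ} (h : onW w t u v) (h0 : 2 ≤ t) :
    (t % 2 = 1 ∧ u % 2 = 0 ∧ v % 2 = 0) ∨ (t % 2 = 0 ∧ u % 2 + v % 2 ≤ 1) := by
  by_cases hc : t % 2 = 1
  · unfold onW at h
    rw [if_pos hc] at h
    omega
  · obtain ⟨j, hj⟩ : ∃ j, t / 2 - 1 = j ∧ t / 2 = j + 1 := ⟨t / 2 - 1, by omega⟩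
    unfold onW at h
    rw [if_neg hc, hj.1, hj.2] at h
    have := adj_cases (ha j)
    omega

theorem inK_face {c : Cfg} (hc : c.Ok) {n : ℕ} (h1 : c.T + 3 ≤ n)
    (h2 : 2 * c.m + 5 ≤ n) {z : Bool} {t x y u v t' x' y' u' v' : ℕ} (h : InK z c t x y u v)
    (ht : FN n t' t) (hx : FN n x' x) (hy : FN n y' y) (hu : FN n u' u) (hv : FN n v' v) :
    InK z c t' x' y' u' v' := by
  unfold InK at h ⊢
  rcases h with ⟨e1, e2, h⟩ | ⟨e1, e2, h⟩ | ⟨e1, e2, h⟩ | ⟨e1, e2, h⟩ | ⟨e1, e2, e3, h⟩ |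
    ⟨e1, e2, e3, e4, h⟩ | ⟨e1, e2, e3, e4, e5, e6, e7, e8, h⟩ | ⟨e1, e2, e3, e4, e5, h⟩ |
    ⟨e1, e2, e3, e4, e5, e6, e7, h⟩
  · left
    refine ⟨by unfold FN at hx; omega, by unfold FN at hy; omega, ?_⟩
    rcases h with ⟨h3, h⟩ | h
    · left
      exact ⟨by unfold FN at ht; omega, gam_face h hu hv h2⟩
    · right
      exact gam_face h hu hv h2
  · right; left
    exact ⟨by unfold FN at ht; omega, by unfold FN at hy; omega, gam_face h hu hv h2⟩
  · right; right; left
    exact ⟨by unfold FN at ht; omega, by unfold FN at hx; omega, gam_face h hu hv h2⟩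
  · right; right; right; left
    unfold FN at ht hx hy hu hv
    omega
  · right; right; right; right; left
    refine ⟨by unfold FN at ht; omega, by unfold FN at hy; omega, by unfold FN at hx; omega, ?_⟩
    unfold FN at hu hv
    have hm := hc.hm
    rcases h with h | h
    · left; unfold onL at h ⊢; omega
    · right; unfold onLoop at h ⊢; omega
  · right; right; right; right; right; left
    refine ⟨by unfold FN at ht; omega, by unfold FN at ht; omega, by unfold FN at hx; omega,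
      by unfold FN at hy; omega, ?_⟩
    rcases h with h | h
    · left
      exact onW_face hc.gv hc.ga h (by omega) (by omega) ht hu hv h2
    · right
      unfold FN at hu hv; omega
  · right; right; right; right; right; right; left
    unfold FN at ht hx hy hu hv
    refine ⟨by omega, by omega, by omega, by omega, by omega, by omega, by omega, by omega, ?_⟩
    intro hz
    have := h hz
    omega
  · right; right; right; right; right; right; right; left
    refine ⟨by unfold FN at ht; omega, by unfold FN at ht; omega, by unfold FN at hy; omega,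
      by unfold FN at hx; omega, by unfold FN at hx; omega, ?_⟩
    exact onW_face hc.fv hc.fa h (by omega) (by omega) ht hu hv h2
  · right; right; right; right; right; right; right; right
    unfold FN at ht hx hy hu hv
    refine ⟨by omega, by omega, by omega, by omega, by omega, by omega, by omega, ?_⟩
    intro hz
    have := h hz
    omega

theorem inK_par {c : Cfg} (hc : c.Ok) {t x y u v : ℕ} (h : InK true c t x y u v) :
    t % 2 + x % 2 + y % 2 + u % 2 + v % 2 ≤ 2 := by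
  unfold InK at h
  rcases h with ⟨e1, e2, h⟩ | ⟨e1, e2, h⟩ | ⟨e1, e2, h⟩ | ⟨e1, e2, h⟩ | ⟨e1, e2, e3, h⟩ |
    ⟨e1, e2, e3, e4, h⟩ | ⟨e1, e2, e3, e4, e5, e6, e7, e8, h⟩ | ⟨e1, e2, e3, e4, e5, h⟩ |
    ⟨e1, e2, e3, e4, e5, e6, e7, h⟩
  · rcases h with ⟨h3, h⟩ | h
    · have := gam_par h; omega
    · have := gam_par h; omega
  · have := gam_par h; omega
  · have := gam_par h; omega
  · omega
  · rcases h with h | h
    · unfold onL at h; omega
    · unfold onLoop at h; omega
  · rcases h with h | h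
    · have := onW_par hc.ga h (by omega); omega
    · omega
  · have := h rfl; omega
  · have := onW_par hc.fa h (by omega); omega
  · have := h rfl; omega

end C05

open C05

theorem isCx_KO {n : ℕ} [NeZero n] {A : ℕ} (hn : 5 ≤ n) (hA : A + 3 ≤ n) : IsCx (KO n A) := by
  intro a ha b hb
  have h3 := fn_of_face (hb 3)
  have h4 := fn_of_face (hb 4)
  simp only [KO, mem_ofPred_eq] at ha ⊢
  unfold FN at h3 h4
  omega

theorem Cfg.isCx_K {c : Cfg} (hc : c.Ok) {n : ℕ} [NeZero n] (h1 : c.T + 3 ≤ n)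
    (h2 : 2 * c.m + 5 ≤ n) (z : Bool) : IsCx (c.K z n) := by
  intro a ha b hb
  rcases ha with ha | ha
  · left
    exact isCx_KO (by omega) (by omega) a ha b hb
  · right
    exact inK_face hc h1 h2 ha (fn_of_face (hb 0)) (fn_of_face (hb 1)) (fn_of_face (hb 2))
      (fn_of_face (hb 3)) (fn_of_face (hb 4))

theorem Cfg.KO_subset (c : Cfg) (z : Bool) (n : ℕ) : KO n (2 * c.m + 2) ⊆ c.K z n :=
  subset_union_left

theorem Cfg.thin {c : Cfg} (hc : c.Ok) {n : ℕ} [NeZero n] (h1 : c.T + 3 ≤ n)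
    (h2 : 2 * c.m + 5 ≤ n) : ∀ a ∈ c.K true n, a ∉ KO n (2 * c.m + 2) → dimC a ≤ 2 := by
  intro a ha hn
  rcases ha with ha | ha
  · exact absurd ha hn
  · rw [dimC_eq]
    exact inK_par hc ha

end Pool.Agent.FM
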