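import Pool.Agent.FM.Defs2

/-!
# Block C06: the labels of a representation are flat
-/

open Set

namespace Pool.Agent.FM

namespace C06

/-- successor on the circle with `n` vertices, in natural coordinates -/
def nxt (n a : ℕ) : ℕ := if a + 1 = n then 0 else a + 1

theorem val_add_one {n : ℕ} [NeZero n] (hn : 2 ≤ n) (a : ZMod n) :
    (a + 1).val = nxt n a.val := by
  have h1 : (1 : ZMod n).val = 1 := by
    have : Fact (1 < n) := ⟨by omega⟩
    exact ZMod.val_one n
  have h2 := ZMod.val_lt a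
  rw [ZMod.val_add, h1]
  unfold nxt
  split_ifs with h
  · rw [h, Nat.mod_self]
  · exact Nat.mod_eq_of_lt (by omega)

theorem gv_facts {m : ℕ} {p : ℕ × ℕ} (h : IsGV m p) :
    p.1 ≤ 2 * m + 1 ∧ (p.2 = 1 ∨ p.2 = 2) ∧ (p.2 = 2 → 2 ≤ p.1) := by
  rcases h with ⟨h1, h2⟩ | ⟨i, hi, h1, h2⟩
  · refine ⟨h1, Or.inl h2, fun h => by omega⟩
  · refine ⟨by omega, Or.inr h2, fun _ => by omega⟩

section

variable {c : Cfg} {G : Type} [Group G]

theorem stepLab_self (γ : ℕ → G) (p : ℕ × ℕ) : stepLab γ p p = 1 := by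
  unfold stepLab
  split_ifs with h1 h2 h3
  · omega
  · omega
  · rfl
  · rfl

theorem stepLab_ne (γ : ℕ → G) {p q : ℕ × ℕ} (h : p.1 ≠ q.1) : stepLab γ p q = 1 := by
  unfold stepLab
  rw [if_neg (fun h' => h h'.1)]

theorem pre_succ (γ : ℕ → G) (w : ℕ → ℕ × ℕ) (t : ℕ) :
    pre γ w (t + 1) = pre γ w t * stepLab γ (w t) (w (t + 1)) := rfl

theorem pre_const (γ : ℕ → G) (w : ℕ → ℕ × ℕ) (b : ℕ × ℕ) (s : ℕ) (h : ∀ t, t ≤ s → w t = b) :
    ∀ t, t ≤ s → pre γ w t = 1 := by
  intro t
  induction t with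
  | zero => intro _; rfl
  | succ t ih =>
    intro ht
    rw [pre_succ, ih (by omega), h t (by omega), h (t + 1) ht, stepLab_self, one_mul]

/-- the label of a fin -/
def finLab (γ : ℕ → G) (w : ℕ → ℕ × ℕ) (t u v : ℕ) : G :=
  if (u, v) = w t then (pre γ w t)⁻¹
  else if (u, v) = w (t - 1) then (pre γ w (t - 1))⁻¹ else 1

theorem finLab_time (γ : ℕ → G) (w : ℕ → ℕ × ℕ) (t u v : ℕ) (h : (u, v) = w t) :
    finLab γ w (t + 1) u v = finLab γ w t u v := by
  unfold finLab
  rw [if_pos h]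
  split_ifs with h1 h2
  · rw [pre_succ, ← h, ← h1, stepLab_self, mul_one]
  · rfl
  · exact absurd h h2

/-- a horizontal step -/
theorem finLab_hor (γ : ℕ → G) (w : ℕ → ℕ × ℕ) (t u u' v : ℕ) (ht : 1 ≤ t) (hu : u ≠ u')
    (h : (u, v) = w t ∧ (u', v) = w (t - 1)) :
    finLab γ w t u v = finLab γ w t u' v := by
  obtain ⟨h1, h2⟩ := h
  have e : t - 1 + 1 = t := by omega
  have h3 : pre γ w t = pre γ w (t - 1) := by
    conv_lhs => rw [← e, pre_succ]
    rw [e, stepLab_ne, mul_one]
    rw [← h1, ← h2]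
    exact fun h => hu h.symm
  unfold finLab
  rw [if_pos h1, if_neg, if_pos h2, h3]
  rw [← h1]
  intro h
  exact hu (congrArg Prod.fst h).symm

theorem finLab_ver {m : ℕ} (γ : ℕ → G) (w : ℕ → ℕ × ℕ) (t u : ℕ) (ht : 1 ≤ t)
    (hu : u ≤ 2 * m + 1)
    (h : ((u, 1) = w t ∧ (u, 2) = w (t - 1)) ∨ ((u, 2) = w t ∧ (u, 1) = w (t - 1))) :
    finLab γ w t u 1 = loopLab m γ u * finLab γ w t u 2 := by
  have e : t - 1 + 1 = t := by omega
  have h3 : pre γ w t = pre γ w (t - 1) * stepLab γ (w (t - 1)) (w t) := by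
    conv_lhs => rw [← e, pre_succ]
    rw [e]
  rcases h with ⟨h1, h2⟩ | ⟨h1, h2⟩
  · have hs : stepLab γ (w (t - 1)) (w t) = (loopLab m γ u)⁻¹ := by
      rw [← h1, ← h2]
      unfold stepLab loopLab
      by_cases hp : u % 2 = 1 ∧ 3 ≤ u
      · simp [hp.1, hp.2, hu]
      · rw [if_neg (fun h => hp h.2), if_neg (fun h => hp ⟨h.1, h.2.1⟩)]
        simp
    unfold finLab
    rw [if_pos h1, if_neg (by rw [← h1]; simp), if_pos h2, h3, hs]
    group
  · have hs : stepLab γ (w (t - 1)) (w t) = loopLab m γ u := by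
      rw [← h1, ← h2]
      unfold stepLab loopLab
      by_cases hp : u % 2 = 1 ∧ 3 ≤ u
      · simp [hp.1, hp.2, hu]
      · rw [if_neg (fun h => hp h.2), if_neg (fun h => hp ⟨h.1, h.2.1⟩)]
    unfold finLab
    rw [if_neg (by rw [← h1]; simp), if_pos h2, if_pos h1, h3, hs]
    group

/-- the boundary of the rectangle -/
def Bd (m u v : ℕ) : Prop := u = 0 ∨ u = 2 * m + 2 ∨ v = 0 ∨ v = 3

theorem pre_f_low (hc : c.Ok) (γ : ℕ → G) (t : ℕ) (ht : t ≤ 3) : pre γ c.f t = 1 :=
  pre_const γ c.f (0, 1) 3 hc.f0 t ht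

theorem pre_g_low (hc : c.Ok) (γ : ℕ → G) (t : ℕ) (ht : t ≤ 4) : pre γ c.g t = 1 :=
  pre_const γ c.g (1, 1) 4 hc.g0 t ht

theorem finf_bd (hc : c.Ok) (R : Rep c G) {t u v : ℕ} (hb : Bd c.m u v) (h3 : 3 ≤ t)
    (hT : t ≤ c.T) : finLab R.γ c.f t u v = 1 := by
  have key : ∀ s, s ≤ c.T → (u, v) = c.f s → pre R.γ c.f s = 1 := by
    intro s hs h
    obtain ⟨g1, g2, g3⟩ := gv_facts (hc.fv s)
    have e1 : (c.f s).1 = u := by rw [← h]
    have e2 : (c.f s).2 = v := by rw [← h]
    rw [e1] at g1 g3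
    rw [e2] at g2 g3
    have hu : u = 0 := by
      rcases hb with h | h | h | h
      · exact h
      · omega
      · omega
      · omega
    by_cases hs3 : s ≤ 3
    · exact pre_f_low hc R.γ s hs3
    · by_cases hsT : s < c.T
      · have := hc.fp s (by omega) hsT
        omega
      · have : s = c.T := by omega
        rw [this]; exact R.hf
  unfold finLab
  split_ifs with h1 h2
  · rw [key t hT h1, inv_one]
  · rw [key (t - 1) (by omega) h2, inv_one]
  · rfl

theorem fing_bd (hc : c.Ok) (R : Rep c G) {t u v : ℕ} (hb : Bd c.m u v) :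
    finLab R.γ c.g t u v = 1 := by
  have key : ∀ s, (u, v) ≠ c.g s := by
    intro s h
    obtain ⟨g1, g2, g3⟩ := gv_facts (hc.gv s)
    have g4 := hc.gp s
    have e1 : (c.g s).1 = u := by rw [← h]
    have e2 : (c.g s).2 = v := by rw [← h]
    rw [e1] at g1 g3 g4
    rw [e2] at g2 g3
    rcases hb with h | h | h | h <;> omega
  unfold finLab
  rw [if_neg (key t), if_neg (key (t - 1))]

theorem fing_base (hc : c.Ok) (R : Rep c G) {t : ℕ} (h4 : 4 ≤ t) (hT : t < c.T) :
    finLab R.γ c.g t 1 1 = 1 := by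
  have key : ∀ s, s < c.T → (1, 1) = c.g s → pre R.γ c.g s = 1 := by
    intro s hs h
    by_cases hs4 : s ≤ 4
    · exact pre_g_low hc R.γ s hs4
    · exact R.hg s (by omega) hs h.symm
  unfold finLab
  split_ifs with h1 h2
  · rw [key t hT h1, inv_one]
  · rw [key (t - 1) (by omega) h2, inv_one]
  · rfl

/-! ### the labels -/

theorem lab0 (R : Rep c G) (n t x y u v : ℕ) :
    labN R n t x y u v 0 = if t + 1 = n then R.x0 else 1 := rfl

theorem lab1 (R : Rep c G) (n t x y u v : ℕ) :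
    labN R n t x y u v 1 = if x + 1 = n then R.x1
      else if x = 1 ∧ y = 0 ∧ 3 ≤ t ∧ t ≤ c.T then finLab R.γ c.f t u v else 1 := rfl

theorem lab2 (R : Rep c G) (n t x y u v : ℕ) :
    labN R n t x y u v 2 = if y + 1 = n then R.z
      else if y = 0 ∧ x = 1 ∧ 4 ≤ t ∧ t < c.T then finLab R.γ c.g t u v else 1 := rfl

theorem lab3 (R : Rep c G) (n t x y u v : ℕ) : labN R n t x y u v 3 = 1 := rfl

theorem lab4 (R : Rep c G) (n t x y u v : ℕ) :
    labN R n t x y u v 4 = if v = 1 then
    (if u = 2 * c.m + 2 then R.γ (c.m - 1)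
     else if x = 1 ∧ y = 0 then loopLab c.m R.γ u
     else if t = 2 ∧ y = 0 then loopLab c.m R.γ u
     else if t = 1 ∧ x = 1 then loopLab c.m R.γ u
     else if t = 0 ∧ x = 0 ∧ y = 0 then (if u = 2 * c.m + 1 then R.γ (c.m - 1) else 1)
     else 1)
  else 1 := rfl

theorem loopLab_low (m : ℕ) (γ : ℕ → G) {u : ℕ} (hu : u ≤ 2) : loopLab m γ u = 1 := by
  unfold loopLab
  rw [if_neg]
  omega

theorem lab1_bd (hc : c.Ok) (R : Rep c G) {n t x y u v : ℕ} (hb : Bd c.m u v) :
    labN R n t x y u v 1 = if x + 1 = n then R.x1 else 1 := by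
  rw [lab1]
  congr 1
  split_ifs with h
  · exact finf_bd hc R hb h.2.2.1 h.2.2.2
  · rfl

theorem lab2_bd (hc : c.Ok) (R : Rep c G) {n t x y u v : ℕ} (hb : Bd c.m u v) :
    labN R n t x y u v 2 = if y + 1 = n then R.z else 1 := by
  rw [lab2]
  congr 1
  split_ifs with h
  · exact fing_bd hc R hb
  · rfl

theorem lab4_low (hc : c.Ok) (R : Rep c G) {n t x y u v : ℕ} (hu : u ≤ 2) :
    labN R n t x y u v 4 = 1 := by
  have hm := hc.hm
  rw [lab4, loopLab_low c.m R.γ hu, if_neg (show ¬ u = 2 * c.m + 2 by omega),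
    if_neg (show ¬ u = 2 * c.m + 1 by omega)]
  simp

theorem lab4_top (R : Rep c G) {n t x y v : ℕ} :
    labN R n t x y (2 * c.m + 2) v 4 = if v = 1 then R.γ (c.m - 1) else 1 := by
  rw [lab4, if_pos rfl]

/-! ### steps of walks -/

theorem onW_odd {w : ℕ → ℕ × ℕ} {t u v : ℕ} (h : onW w (2 * t + 1) (2 * u) (2 * v)) :
    (u, v) = w t := by
  unfold onW at h
  rw [if_pos (by omega)] at h
  have e : (2 * t + 1) / 2 = t := by omega
  rw [e] at h
  ext <;> simp <;> omega

theorem onW_odd' {w : ℕ → ℕ × ℕ} {t u v : ℕ} (h : onW w (2 * t + 1) u v) : v % 2 = 0 := by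
  unfold onW at h
  rw [if_pos (by omega)] at h
  omega

theorem gadj_cases {m : ℕ} {p q : ℕ × ℕ} (h : GAdj m p q) :
    p = q ∨ (p.2 = q.2 ∧ (p.1 + 1 = q.1 ∨ q.1 + 1 = p.1)) ∨
      (p.1 = q.1 ∧ p.1 ≤ 2 * m + 1 ∧ ((p.2 = 1 ∧ q.2 = 2) ∨ (p.2 = 2 ∧ q.2 = 1))) := by
  have key : ∀ p q : ℕ × ℕ, GE m p q →
      (p.2 = q.2 ∧ p.1 + 1 = q.1) ∨ (p.1 = q.1 ∧ p.1 ≤ 2 * m + 1 ∧ p.2 = 1 ∧ q.2 = 2) := by
    intro p q h
    rcases h with ⟨h1, h2, h3, _⟩ | ⟨i, hi, h1, h2, h3, h4⟩ | ⟨i, hi, rfl, rfl⟩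
    · left; omega
    · right; omega
    · left; simp
  rcases h with h | h | h
  · exact Or.inl h
  · rcases key p q h with h | h
    · right; left; omega
    · right; right; omega
  · rcases key q p h with h | h
    · right; left; omega
    · right; right; omega

theorem onW_hor {m : ℕ} {w : ℕ → ℕ × ℕ} (hw : ∀ t, GAdj m (w t) (w (t + 1))) {t u v : ℕ}
    (ht : 1 ≤ t) (h : onW w (2 * t) (2 * u + 1) (2 * v)) :
    ((u, v) = w t ∧ (u + 1, v) = w (t - 1)) ∨ ((u + 1, v) = w t ∧ (u, v) = w (t - 1)) := by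
  unfold onW at h
  rw [if_neg (by omega)] at h
  have e : 2 * t / 2 = t := by omega
  rw [e] at h
  have h0 := hw (t - 1)
  rw [show t - 1 + 1 = t by omega] at h0
  have h1 := gadj_cases h0
  rcases h1 with h1 | h1 | h1
  · rw [h1] at h; omega
  · by_cases hh : (w (t - 1)).1 + 1 = (w t).1
    · right
      constructor
      · ext <;> simp <;> omega
      · ext <;> simp <;> omega
    · left
      constructor
      · ext <;> simp <;> omega
      · ext <;> simp <;> omega
  · omega

theorem onW_ver {m : ℕ} {w : ℕ → ℕ × ℕ} (hw : ∀ t, GAdj m (w t) (w (t + 1))) {t u v : ℕ}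
    (ht : 1 ≤ t) (h : onW w (2 * t) (2 * u) (2 * v + 1)) :
    v = 1 ∧ u ≤ 2 * m + 1 ∧
    (((u, 1) = w t ∧ (u, 2) = w (t - 1)) ∨ ((u, 2) = w t ∧ (u, 1) = w (t - 1))) := by
  unfold onW at h
  rw [if_neg (by omega)] at h
  have e : 2 * t / 2 = t := by omega
  rw [e] at h
  have h0 := hw (t - 1)
  rw [show t - 1 + 1 = t by omega] at h0
  have h1 := gadj_cases h0
  rcases h1 with h1 | h1 | h1
  · rw [h1] at h; omega
  · omega
  · refine ⟨by omega, by omega, ?_⟩
    rcases h1.2.2 with h2 | h2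
    · right
      constructor
      · ext <;> simp <;> omega
      · ext <;> simp <;> omega
    · left
      constructor
      · ext <;> simp <;> omega
      · ext <;> simp <;> omega

theorem onW_sq {m : ℕ} {w : ℕ → ℕ × ℕ} (hw : ∀ t, GAdj m (w t) (w (t + 1))) {t u v : ℕ}
    (ht : 1 ≤ t) (h : onW w (2 * t) (2 * u + 1) (2 * v + 1)) : False := by
  unfold onW at h
  rw [if_neg (by omega)] at h
  have e : 2 * t / 2 = t := by omega
  rw [e] at h
  have h0 := hw (t - 1)
  rw [show t - 1 + 1 = t by omega] at h0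
  have h1 := gadj_cases h0
  rcases h1 with h1 | h1 | h1
  · rw [h1] at h; omega
  · omega
  · omega

/-! ### the squares -/

/-- the square with given doubled coordinates is in the complex and over the rectangle -/
def Sq (c : Cfg) (d0 d1 d2 d3 d4 : ℕ) : Prop :=
  (¬ (0 < d3 ∧ d3 < 2 * (2 * c.m + 2) ∧ 0 < d4 ∧ d4 < 6) ∨ InK true c d0 d1 d2 d3 d4) ∧
    (d3 ≤ 2 * (2 * c.m + 2) ∧ d4 ≤ 6)

theorem sq01 (hc : c.Ok) (R : Rep c G) {n t x y u v : ℕ} (h1 : c.T + 3 ≤ n)
    (h : Sq c (2 * t + 1) (2 * x + 1) (2 * y) (2 * u) (2 * v)) :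
    labN R n t x y u v 0 * labN R n (nxt n t) x y u v 1
      = labN R n t x y u v 1 * labN R n t (nxt n x) y u v 0 := by
  obtain ⟨hK, hP⟩ := h
  rw [lab0, lab0]
  rcases hK with hK | hK
  · have hb : Bd c.m u v := by unfold Bd; omega
    rw [lab1_bd hc R hb, lab1_bd hc R hb]
    split_ifs
    · exact R.h01
    · simp
    · simp
    · simp
  · unfold InK at hK
    have hx : x = 1 ∧ y = 0 ∧ 3 ≤ t ∧ t + 1 ≤ c.T ∧ (u, v) = c.f t := by
      rcases hK with hK | hK | hK | hK | hK | hK | hK | hK | hK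
      · omega
      · omega
      · omega
      · omega
      · omega
      · omega
      · omega
      · exact ⟨by omega, by omega, by omega, by omega, onW_odd hK.2.2.2.2.2⟩
      · omega
    obtain ⟨rfl, rfl, h3, hT, hf⟩ := hx
    have e : nxt n t = t + 1 := by unfold nxt; rw [if_neg (by omega)]
    rw [e, lab1, lab1, if_neg (show ¬ 1 + 1 = n by omega), if_neg (show ¬ t + 1 = n by omega),
      if_pos ⟨rfl, rfl, by omega, by omega⟩, if_neg (show ¬ 1 + 1 = n by omega),
      if_pos ⟨rfl, rfl, by omega, by omega⟩, finLab_time R.γ c.f t u v hf]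
    simp

theorem sq02 (hc : c.Ok) (R : Rep c G) {n t x y u v : ℕ} (h1 : c.T + 3 ≤ n)
    (h : Sq c (2 * t + 1) (2 * x) (2 * y + 1) (2 * u) (2 * v)) :
    labN R n t x y u v 0 * labN R n (nxt n t) x y u v 2
      = labN R n t x y u v 2 * labN R n t x (nxt n y) u v 0 := by
  obtain ⟨hK, hP⟩ := h
  rw [lab0, lab0]
  rcases hK with hK | hK
  · have hb : Bd c.m u v := by unfold Bd; omega
    rw [lab2_bd hc R hb, lab2_bd hc R hb]
    split_ifs
    · exact R.h0z
    · simp
    · simp
    · simp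
  · unfold InK at hK
    have hx : y = 0 ∧ x = 1 ∧ 4 ≤ t ∧ t + 1 < c.T ∧
        ((u, v) = c.g t ∨ (u = 1 ∧ v = 1)) := by
      rcases hK with hK | hK | hK | hK | hK | hK | hK | hK | hK
      · omega
      · omega
      · omega
      · omega
      · omega
      · refine ⟨by omega, by omega, by omega, by omega, ?_⟩
        rcases hK.2.2.2.2 with h | h
        · exact Or.inl (onW_odd h)
        · right; omega
      · omega
      · omega
      · omega
    obtain ⟨rfl, rfl, h3, hT, hf⟩ := hx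
    have e : nxt n t = t + 1 := by unfold nxt; rw [if_neg (by omega)]
    rw [e, lab2, lab2, if_neg (show ¬ 0 + 1 = n by omega), if_neg (show ¬ t + 1 = n by omega),
      if_pos ⟨rfl, rfl, by omega, by omega⟩, if_neg (show ¬ 0 + 1 = n by omega),
      if_pos ⟨rfl, rfl, by omega, by omega⟩]
    rcases hf with hf | ⟨rfl, rfl⟩
    · rw [finLab_time R.γ c.g t u v hf]
      simp
    · rw [fing_base hc R (by omega) (by omega), fing_base hc R (by omega) (by omega)]

theorem onLoop_odd {i u : ℕ} (h : onLoop i (2 * u + 1) 3) : False := by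
  unfold onLoop at h
  omega

theorem gam_odd {m : ℕ} {J : Finset ℕ} {u : ℕ} (h : Gam m J (2 * u + 1) 3) : False := by
  rcases h with h | ⟨i, _, _, h⟩
  · unfold onL at h; omega
  · exact onLoop_odd h

theorem sq04 (hc : c.Ok) (R : Rep c G) {n t x y u v : ℕ} (h1 : c.T + 3 ≤ n)
    (h : Sq c (2 * t + 1) (2 * x) (2 * y) (2 * u) (2 * v + 1)) :
    labN R n t x y u v 0 * labN R n (nxt n t) x y u v 4
      = labN R n t x y u v 4 * labN R n t x y u (nxt n v) 0 := by
  obtain ⟨hK, hP⟩ := h
  have hm := hc.hm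
  rw [lab0, lab0]
  by_cases hu : u = 2 * c.m + 2
  · subst hu
    rw [lab4_top, lab4_top]
    split_ifs
    · exact R.h0c
    · simp
    · simp
    · simp
  by_cases hu2 : u ≤ 2
  · rw [lab4_low hc R hu2, lab4_low hc R hu2]
    simp
  by_cases hv : v = 1
  · subst hv
    rcases hK with hK | hK
    · omega
    · unfold InK at hK
      have hx : x = 1 ∧ y = 0 ∧ (2 * t + 1 ≤ 2 * c.T ∨ Gam c.m c.J1 (2 * u) 3) := by
        rcases hK with hK | hK | hK | hK | hK | hK | hK | hK | hK
        · refine ⟨by omega, by omega, ?_⟩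
          rcases hK.2.2 with h | h
          · exact Or.inl h.1
          · exact Or.inr h
        · omega
        · omega
        · omega
        · omega
        · rcases hK.2.2.2.2 with h | h
          · have := onW_odd' h; omega
          · omega
        · have := hK.2.2.2.2.2.2.2.2 rfl; omega
        · have := onW_odd' hK.2.2.2.2.2; omega
        · have := hK.2.2.2.2.2.2.2 rfl; omega
      obtain ⟨rfl, rfl, h3⟩ := hx
      have l4 : ∀ s, labN R n s 1 0 u 1 4 = loopLab c.m R.γ u := by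
        intro s; rw [lab4]; simp [hu]
      rw [l4, l4]
      rcases h3 with h3 | h3
      · rw [if_neg (by omega)]; simp
      · split_ifs
        · rcases h3 with h3 | ⟨i, hi, him, h3⟩
          · unfold onL at h3; omega
          · unfold onLoop at h3
            unfold loopLab
            split_ifs with h4
            · rw [show (u - 3) / 2 = i by omega]
              exact R.hJ1 i hi him
            · simp
        · simp
  · rw [lab4, lab4, if_neg hv, if_neg hv]; simp

theorem sq12 (hc : c.Ok) (R : Rep c G) {n t x y u v : ℕ}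
    (h : Sq c (2 * t) (2 * x + 1) (2 * y + 1) (2 * u) (2 * v)) :
    labN R n t x y u v 1 * labN R n t (nxt n x) y u v 2
      = labN R n t x y u v 2 * labN R n t x (nxt n y) u v 1 := by
  obtain ⟨hK, hP⟩ := h
  rcases hK with hK | hK
  · have hb : Bd c.m u v := by unfold Bd; omega
    rw [lab1_bd hc R hb, lab1_bd hc R hb, lab2_bd hc R hb, lab2_bd hc R hb]
    split_ifs
    · exact R.h1z
    · simp
    · simp
    · simp
  · exfalso
    unfold InK at hK
    rcases hK with hK | hK | hK | hK | hK | hK | hK | hK | hK <;> omega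

theorem sq13 (hc : c.Ok) (R : Rep c G) {n t x y u v : ℕ} (h2 : 2 * c.m + 5 ≤ n)
    (h : Sq c (2 * t) (2 * x + 1) (2 * y) (2 * u + 1) (2 * v)) :
    labN R n t x y u v 1 = labN R n t x y (nxt n u) v 1 := by
  obtain ⟨hK, hP⟩ := h
  have e : nxt n u = u + 1 := by unfold nxt; rw [if_neg (by omega)]
  rw [e]
  rcases hK with hK | hK
  · have hb : Bd c.m u v := by unfold Bd; omega
    have hb' : Bd c.m (u + 1) v := by unfold Bd at *; omega
    rw [lab1_bd hc R hb, lab1_bd hc R hb']
  · unfold InK at hK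
    have hx : t < 3 ∨ (x = 1 ∧ y = 0 ∧ 3 ≤ t ∧ t ≤ c.T ∧
        onW c.f (2 * t) (2 * u + 1) (2 * v)) := by
      rcases hK with hK | hK | hK | hK | hK | hK | hK | hK | hK
      · omega
      · left; omega
      · omega
      · omega
      · left; omega
      · omega
      · omega
      · exact Or.inr ⟨by omega, by omega, by omega, by omega, hK.2.2.2.2.2⟩
      · omega
    rcases hx with hx | hx
    · rw [lab1, lab1, if_neg (show ¬ (x = 1 ∧ y = 0 ∧ 3 ≤ t ∧ t ≤ c.T) by omega),
        if_neg (show ¬ (x = 1 ∧ y = 0 ∧ 3 ≤ t ∧ t ≤ c.T) by omega)]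
    obtain ⟨rfl, rfl, h3, hT, hf⟩ := hx
    rw [lab1, lab1, if_pos (show _ ∧ _ from ⟨rfl, rfl, h3, hT⟩)]
    congr 1
    rw [if_pos (show _ ∧ _ from ⟨rfl, rfl, h3, hT⟩)]
    rcases onW_hor hc.fa (by omega) hf with h | h
    · exact finLab_hor _ _ _ _ _ _ (by omega) (by omega) h
    · exact (finLab_hor _ _ _ _ _ _ (by omega) (by omega) h).symm

theorem sq23 (hc : c.Ok) (R : Rep c G) {n t x y u v : ℕ} (h2 : 2 * c.m + 5 ≤ n)
    (h : Sq c (2 * t) (2 * x) (2 * y + 1) (2 * u + 1) (2 * v)) :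
    labN R n t x y u v 2 = labN R n t x y (nxt n u) v 2 := by
  obtain ⟨hK, hP⟩ := h
  have e : nxt n u = u + 1 := by unfold nxt; rw [if_neg (by omega)]
  rw [e]
  rcases hK with hK | hK
  · have hb : Bd c.m u v := by unfold Bd; omega
    have hb' : Bd c.m (u + 1) v := by unfold Bd at *; omega
    rw [lab2_bd hc R hb, lab2_bd hc R hb']
  · unfold InK at hK
    have hx : t < 4 ∨ (y = 0 ∧ x = 1 ∧ 4 ≤ t ∧ t < c.T ∧
        onW c.g (2 * t) (2 * u + 1) (2 * v)) := by
      rcases hK with hK | hK | hK | hK | hK | hK | hK | hK | hK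
      · omega
      · omega
      · left; omega
      · omega
      · omega
      · refine Or.inr ⟨by omega, by omega, by omega, by omega, ?_⟩
        rcases hK.2.2.2.2 with h | h
        · exact h
        · omega
      · omega
      · omega
      · omega
    rcases hx with hx | hx
    · rw [lab2, lab2, if_neg (show ¬ (y = 0 ∧ x = 1 ∧ 4 ≤ t ∧ t < c.T) by omega),
        if_neg (show ¬ (y = 0 ∧ x = 1 ∧ 4 ≤ t ∧ t < c.T) by omega)]
    obtain ⟨rfl, rfl, h3, hT, hf⟩ := hx
    rw [lab2, lab2, if_pos (show _ ∧ _ from ⟨rfl, rfl, h3, hT⟩)]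
    congr 1
    rw [if_pos (show _ ∧ _ from ⟨rfl, rfl, h3, hT⟩)]
    rcases onW_hor hc.ga (by omega) hf with h | h
    · exact finLab_hor _ _ _ _ _ _ (by omega) (by omega) h
    · exact (finLab_hor _ _ _ _ _ _ (by omega) (by omega) h).symm

theorem sq14 (hc : c.Ok) (R : Rep c G) {n t x y u v : ℕ} (h1 : c.T + 3 ≤ n)
    (h : Sq c (2 * t) (2 * x + 1) (2 * y) (2 * u) (2 * v + 1)) :
    labN R n t x y u v 1 * labN R n t (nxt n x) y u v 4
      = labN R n t x y u v 4 * labN R n t x y u (nxt n v) 1 := by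
  obtain ⟨hK, hP⟩ := h
  have hm := hc.hm
  have hT7 := hc.hT
  have e : nxt n v = v + 1 := by unfold nxt; rw [if_neg (by omega)]
  rw [e]
  rcases hK with hK | hK
  · have hu : u = 0 ∨ u = 2 * c.m + 2 := by omega
    have hb : Bd c.m u v := by unfold Bd; omega
    have hb' : Bd c.m u (v + 1) := by unfold Bd; omega
    rw [lab1_bd hc R hb, lab1_bd hc R hb']
    rcases hu with rfl | rfl
    · rw [lab4_low hc R (by omega), lab4_low hc R (by omega)]
      simp
    · rw [lab4_top, lab4_top]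
      split_ifs
      · exact R.h1c
      · simp
      · simp
      · simp
  · unfold InK at hK
    have hx : (t = 2 ∧ y = 0 ∧ Gam c.m c.J2 (2 * u) (2 * v + 1)) ∨
        (t = 0 ∧ y = 0 ∧ x = 0 ∧ onLoop (c.m - 1) (2 * u) (2 * v + 1)) ∨
        (x = 1 ∧ y = 0 ∧ 3 ≤ t ∧ t ≤ c.T ∧ onW c.f (2 * t) (2 * u) (2 * v + 1)) := by
      rcases hK with hK | hK | hK | hK | hK | hK | hK | hK | hK
      · omega
      · exact Or.inl ⟨by omega, by omega, hK.2.2⟩
      · omega
      · omega
      · refine Or.inr (Or.inl ⟨by omega, by omega, by omega, ?_⟩)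
        rcases hK.2.2.2 with h | h
        · unfold onL at h; omega
        · exact h
      · omega
      · omega
      · exact Or.inr (Or.inr ⟨by omega, by omega, by omega, by omega, hK.2.2.2.2.2⟩)
      · omega
    rcases hx with hx | hx | hx
    · obtain ⟨rfl, rfl, hg⟩ := hx
      rcases hg with hg | ⟨i, hi, him, hg⟩
      · unfold onL at hg; omega
      unfold onLoop at hg
      have hv : v = 1 := by omega
      have hu : ¬ u = 2 * c.m + 2 := by omega
      subst hv
      have l1 : ∀ w, labN R n 2 x 0 u w 1 = if x + 1 = n then R.x1 else 1 := by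
        intro w
        rw [lab1, if_neg (show ¬ (x = 1 ∧ 0 = 0 ∧ 3 ≤ 2 ∧ 2 ≤ c.T) by omega)]
      have l4 : ∀ s, labN R n 2 s 0 u 1 4 = loopLab c.m R.γ u := by
        intro s
        rw [lab4]; simp [hu]
      rw [l1, l1, l4, l4]
      split_ifs
      · unfold loopLab
        split_ifs with h4
        · rw [show (u - 3) / 2 = i by omega]
          exact R.hJ2 i hi him
        · simp
      · simp
    · obtain ⟨rfl, rfl, rfl, hg⟩ := hx
      unfold onLoop at hg
      have hv : v = 1 := by omega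
      have hu : ¬ u = 2 * c.m + 2 := by omega
      subst hv
      have l1 : ∀ w, labN R n 0 0 0 u w 1 = 1 := by
        intro w
        rw [lab1, if_neg (show ¬ 0 + 1 = n by omega)]; simp
      have e' : nxt n 0 = 1 := by unfold nxt; rw [if_neg (by omega)]
      rw [e', l1, l1, lab4, lab4]
      simp only [hu, if_true, if_false, and_self, one_mul, mul_one,
        show ¬ ((0 : ℕ) = 1) by omega, show ¬ ((0 : ℕ) = 2) by omega, false_and]
      unfold loopLab
      by_cases h4 : u = 2 * c.m + 1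
      · rw [if_pos (by omega), if_pos h4, show (u - 3) / 2 = c.m - 1 by omega]
      · rw [if_neg (by omega), if_neg h4]
    obtain ⟨rfl, rfl, h3, hT, hf⟩ := hx
    obtain ⟨rfl, hu, hf⟩ := onW_ver hc.fa (by omega) hf
    have e' : nxt n 1 = 2 := by unfold nxt; rw [if_neg (by omega)]
    have l1 : ∀ w, labN R n t 1 0 u w 1 = finLab R.γ c.f t u w := by
      intro w
      rw [lab1, if_neg (show ¬ 1 + 1 = n by omega), if_pos ⟨rfl, rfl, h3, hT⟩]
    have l4 : labN R n t 1 0 u 1 4 = loopLab c.m R.γ u := by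
      rw [lab4]; simp [show ¬ u = 2 * c.m + 2 by omega]
    have l4' : labN R n t 2 0 u 1 4 = 1 := by
      rw [lab4]; simp [show ¬ u = 2 * c.m + 2 by omega, show ¬ t = 2 by omega]
    rw [e', l1, l1, l4, l4', mul_one]
    exact finLab_ver _ _ _ _ (by omega) hu hf

theorem sq24 (hc : c.Ok) (R : Rep c G) {n t x y u v : ℕ} (h1 : c.T + 3 ≤ n)
    (h : Sq c (2 * t) (2 * x) (2 * y + 1) (2 * u) (2 * v + 1)) :
    labN R n t x y u v 2 * labN R n t x (nxt n y) u v 4
      = labN R n t x y u v 4 * labN R n t x y u (nxt n v) 2 := by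
  obtain ⟨hK, hP⟩ := h
  have hm := hc.hm
  have hT7 := hc.hT
  have e : nxt n v = v + 1 := by unfold nxt; rw [if_neg (by omega)]
  rw [e]
  rcases hK with hK | hK
  · have hu : u = 0 ∨ u = 2 * c.m + 2 := by omega
    have hb : Bd c.m u v := by unfold Bd; omega
    have hb' : Bd c.m u (v + 1) := by unfold Bd; omega
    rw [lab2_bd hc R hb, lab2_bd hc R hb']
    rcases hu with rfl | rfl
    · rw [lab4_low hc R (by omega), lab4_low hc R (by omega)]
      simp
    · rw [lab4_top, lab4_top]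
      split_ifs
      · exact R.hz (c.m - 1) (by omega)
      · simp
      · simp
      · simp
  · unfold InK at hK
    have hx : (t = 1 ∧ x = 1 ∧ Gam c.m (Finset.range c.m) (2 * u) (2 * v + 1)) ∨
        (y = 0 ∧ x = 1 ∧ 4 ≤ t ∧ t < c.T ∧ onW c.g (2 * t) (2 * u) (2 * v + 1)) := by
      rcases hK with hK | hK | hK | hK | hK | hK | hK | hK | hK
      · omega
      · omega
      · exact Or.inl ⟨by omega, by omega, hK.2.2⟩
      · omega
      · omega
      · refine Or.inr ⟨by omega, by omega, by omega, by omega, ?_⟩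
        rcases hK.2.2.2.2 with h | h
        · exact h
        · omega
      · omega
      · omega
      · omega
    rcases hx with hx | hx
    · obtain ⟨rfl, rfl, hg⟩ := hx
      rcases hg with hg | ⟨i, hi, him, hg⟩
      · unfold onL at hg; omega
      unfold onLoop at hg
      have hv : v = 1 := by omega
      have hu : ¬ u = 2 * c.m + 2 := by omega
      subst hv
      have l2 : ∀ w, labN R n 1 1 y u w 2 = if y + 1 = n then R.z else 1 := by
        intro w
        rw [lab2, if_neg (show ¬ (y = 0 ∧ 1 = 1 ∧ 4 ≤ 1 ∧ 1 < c.T) by omega)]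
      have l4 : ∀ s, labN R n 1 1 s u 1 4 = loopLab c.m R.γ u := by
        intro s
        rw [lab4]; simp [hu]
      rw [l2, l2, l4, l4]
      split_ifs
      · unfold loopLab
        split_ifs with h4
        · rw [show (u - 3) / 2 = i by omega]
          exact R.hz i him
        · simp
      · simp
    obtain ⟨rfl, rfl, h3, hT, hf⟩ := hx
    obtain ⟨rfl, hu, hf⟩ := onW_ver hc.ga (by omega) hf
    have e' : nxt n 0 = 1 := by unfold nxt; rw [if_neg (by omega)]
    have l2 : ∀ w, labN R n t 1 0 u w 2 = finLab R.γ c.g t u w := by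
      intro w
      rw [lab2, if_neg (show ¬ 0 + 1 = n by omega), if_pos ⟨rfl, rfl, h3, hT⟩]
    have l4 : labN R n t 1 0 u 1 4 = loopLab c.m R.γ u := by
      rw [lab4]; simp [show ¬ u = 2 * c.m + 2 by omega]
    have l4' : labN R n t 1 1 u 1 4 = 1 := by
      rw [lab4]; simp [show ¬ u = 2 * c.m + 2 by omega, show ¬ t = 1 by omega]
    rw [e', l2, l2, l4, l4', mul_one]
    exact finLab_ver _ _ _ _ (by omega) hu hf

theorem sq34 (hc : c.Ok) (R : Rep c G) {n t x y u v : ℕ} (h2 : 2 * c.m + 5 ≤ n)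
    (h : Sq c (2 * t) (2 * x) (2 * y) (2 * u + 1) (2 * v + 1)) :
    labN R n t x y (nxt n u) v 4 = labN R n t x y u v 4 := by
  obtain ⟨hK, hP⟩ := h
  have hm := hc.hm
  have e : nxt n u = u + 1 := by unfold nxt; rw [if_neg (by omega)]
  rw [e]
  by_cases hv : v = 1
  · subst hv
    rcases hK with hK | hK
    · omega
    · rw [lab4, lab4, if_pos rfl, if_pos rfl]
      unfold InK at hK
      rcases hK with hK | hK | hK | hK | hK | hK | hK | hK | hK
      · exfalso
        rcases hK.2.2 with h | h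
        · exact gam_odd h.2
        · exact gam_odd h
      · exact (gam_odd hK.2.2).elim
      · exact (gam_odd hK.2.2).elim
      · obtain ⟨ht, hx, hy, h3, _, h4⟩ := hK
        have ht' : t = 0 := by omega
        have hx' : x = 0 := by omega
        have hy' : y = 0 := by omega
        subst ht' hx' hy'
        rw [if_neg (show ¬ u = 2 * c.m + 2 by omega)]
        simp only [show ¬ ((0 : ℕ) = 1) by omega, show ¬ ((0 : ℕ) = 2) by omega, false_and,
          if_false, and_self, if_true]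
        by_cases hu : u = 2 * c.m + 1
        · rw [if_pos (by omega), if_pos hu]
        · rw [if_neg (by omega), if_neg (by omega), if_neg hu]
      · exfalso
        rcases hK.2.2.2 with h | h
        · unfold onL at h; omega
        · exact onLoop_odd h
      · exfalso
        rcases hK.2.2.2.2 with h | h
        · exact onW_sq hc.ga (by omega) h
        · omega
      · have ht' : 4 ≤ t := by omega
        have hx' : x = 1 := by omega
        have hy' : y = 1 := by omega
        subst hx' hy'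
        rw [if_neg (show ¬ u + 1 = 2 * c.m + 2 by omega),
          if_neg (show ¬ u = 2 * c.m + 2 by omega)]
        simp [show ¬ t = 1 by omega]
      · exact (onW_sq hc.fa (by omega) hK.2.2.2.2.2).elim
      · have ht' : 3 ≤ t := by omega
        have hx' : x = 2 := by omega
        have hy' : y = 0 := by omega
        subst hx' hy'
        rw [if_neg (show ¬ u + 1 = 2 * c.m + 2 by omega),
          if_neg (show ¬ u = 2 * c.m + 2 by omega)]
        simp [show ¬ t = 2 by omega]
  · rw [lab4, lab4, if_neg hv, if_neg hv]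

theorem sq_of {n : ℕ} {v : Vx n} {i j : Fin 5}
    (h : sc v i j ∈ c.K true n ∩ PC n (2 * c.m + 2)) :
    Sq c (dbl (sc v i j 0)) (dbl (sc v i j 1)) (dbl (sc v i j 2)) (dbl (sc v i j 3))
      (dbl (sc v i j 4)) := ⟨h.1, h.2⟩

theorem flat_lt (hc : c.Ok) (R : Rep c G) {n : ℕ} [NeZero n]
    (h1 : c.T + 3 ≤ n) (h2 : 2 * c.m + 5 ≤ n) (v : Vx n) (i j : Fin 5) (hij : i < j)
    (h : sc v i j ∈ c.K true n ∩ PC n (2 * c.m + 2)) :
    R.lab n v i * R.lab n (up v i) j = R.lab n v j * R.lab n (up v j) i := by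
  have hn : 2 ≤ n := by omega
  have hs := sq_of h
  have e := val_add_one hn
  fin_cases i <;> fin_cases j <;> first | exact absurd hij (by decide) | skip
  · have hs' : Sq c (2 * (v 0).val + 1) (2 * (v 1).val + 1) (2 * (v 2).val) (2 * (v 3).val)
      (2 * (v 4).val) := by simpa [sc, dbl] using hs
    have := sq01 hc R h1 hs'
    simpa [Rep.lab, up, e] using this
  · have hs' : Sq c (2 * (v 0).val + 1) (2 * (v 1).val) (2 * (v 2).val + 1) (2 * (v 3).val)
      (2 * (v 4).val) := by simpa [sc, dbl] using hs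
    have := sq02 hc R h1 hs'
    simpa [Rep.lab, up, e] using this
  · simp [Rep.lab, up, lab3, lab0]
  · have hs' : Sq c (2 * (v 0).val + 1) (2 * (v 1).val) (2 * (v 2).val) (2 * (v 3).val)
      (2 * (v 4).val + 1) := by simpa [sc, dbl] using hs
    have := sq04 hc R h1 hs'
    simpa [Rep.lab, up, e] using this
  · have hs' : Sq c (2 * (v 0).val) (2 * (v 1).val + 1) (2 * (v 2).val + 1) (2 * (v 3).val)
      (2 * (v 4).val) := by simpa [sc, dbl] using hs
    have := sq12 (n := n) hc R hs'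
    simpa [Rep.lab, up, e] using this
  · have hs' : Sq c (2 * (v 0).val) (2 * (v 1).val + 1) (2 * (v 2).val) (2 * (v 3).val + 1)
      (2 * (v 4).val) := by simpa [sc, dbl] using hs
    have := sq13 hc R h2 hs'
    simpa [Rep.lab, up, e, lab3] using this
  · have hs' : Sq c (2 * (v 0).val) (2 * (v 1).val + 1) (2 * (v 2).val) (2 * (v 3).val)
      (2 * (v 4).val + 1) := by simpa [sc, dbl] using hs
    have := sq14 hc R h1 hs'
    simpa [Rep.lab, up, e] using this
  · have hs' : Sq c (2 * (v 0).val) (2 * (v 1).val) (2 * (v 2).val + 1) (2 * (v 3).val + 1)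
      (2 * (v 4).val) := by simpa [sc, dbl] using hs
    have := sq23 hc R h2 hs'
    simpa [Rep.lab, up, e, lab3] using this
  · have hs' : Sq c (2 * (v 0).val) (2 * (v 1).val) (2 * (v 2).val + 1) (2 * (v 3).val)
      (2 * (v 4).val + 1) := by simpa [sc, dbl] using hs
    have := sq24 hc R h1 hs'
    simpa [Rep.lab, up, e] using this
  · have hs' : Sq c (2 * (v 0).val) (2 * (v 1).val) (2 * (v 2).val) (2 * (v 3).val + 1)
      (2 * (v 4).val + 1) := by simpa [sc, dbl] using hs
    have := sq34 hc R h2 hs'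
    simpa [Rep.lab, up, e, lab3] using this

end

end C06

theorem Rep.flat {c : Cfg} (hc : c.Ok) {G : Type} [Group G] (R : Rep c G) {n : ℕ} [NeZero n]
    (h1 : c.T + 3 ≤ n) (h2 : 2 * c.m + 5 ≤ n) :
    Flat (c.K true n ∩ PC n (2 * c.m + 2)) (R.lab n) := by
  intro v i j hij h
  rcases lt_or_gt_of_ne hij with hlt | hgt
  · exact C06.flat_lt hc R h1 h2 v i j hlt h
  · have e : sc v i j = sc v j i := by
      funext k
      simp only [sc, Prod.mk.injEq, decide_eq_decide, true_and]
      exact or_comm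
    rw [e] at h
    exact (C06.flat_lt hc R h1 h2 v j i hgt h).symm

end Pool.Agent.FM
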