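import Pool.Agent.FM.C07g

/-!
# Block C07: rigidity

Every flat connection on the part of the thinned complex over the rectangle is gauge equivalent to
the labels of a representation.
-/

open Set

namespace Pool.Agent.FM

theorem rigid {c : Cfg} (hc : c.Ok) {n : ℕ} [NeZero n] (h1 : c.T + 3 ≤ n) (h2 : 2 * c.m + 5 ≤ n)
    {H : Type} [Group H] (c' : Vx n → Fin 5 → H)
    (hflat : Flat (c.K true n ∩ PC n (2 * c.m + 2)) c') :
    ∃ (R : Rep c H) (h : Vx n → H), ∀ v i, ec v i ∈ c.K true n ∩ PC n (2 * c.m + 2) →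
      c' v i = h v * R.lab n v i * (h (up v i))⁻¹ := by
  obtain ⟨N, h, hN⟩ := exists_gauge h1 h2 c' hflat
  obtain ⟨R, hR⟩ := N.exists_rep hc h1 h2
  refine ⟨R, h, fun v i hv => ?_⟩
  rw [← hR v i hv, hN]
  group

end Pool.Agent.FM
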