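import Pool.Agent.FM.Defs2

/-!
# Block C07, part a: natural coordinates
-/

open Set

namespace Pool.Agent.FM

/-- the cells of the complex of a configuration over the closed rectangle, in doubled coordinates -/
def InL (c : Cfg) (t x y u v : ℕ) : Prop :=
  (u ≤ 2 * (2 * c.m + 2) ∧ v ≤ 6) ∧
    (¬ (0 < u ∧ u < 2 * (2 * c.m + 2) ∧ 0 < v ∧ v < 6) ∨ InK true c t x y u v)

/-- the vertex with given natural coordinates -/
def vv (n t x y u v : ℕ) : Vx n := ![(t : ZMod n), (x : ZMod n), (y : ZMod n), (u : ZMod n), (v : ZMod n)]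

/-- the cell with given natural coordinates -/
def cl (n t x y u v : ℕ) (b : Fin 5 → Bool) : Cell n :=
  ![((t : ZMod n), b 0), ((x : ZMod n), b 1), ((y : ZMod n), b 2), ((u : ZMod n), b 3),
    ((v : ZMod n), b 4)]

theorem dbl_cast {n : ℕ} {t : ℕ} (ht : t < n) (b : Bool) :
    dbl (((t : ZMod n), b) : C1 n) = 2 * t + b.toNat := by
  simp [dbl, ZMod.val_cast_of_lt ht]

theorem cl_mem {c : Cfg} {n t x y u v : ℕ} (ht : t < n) (hx : x < n) (hy : y < n) (hu : u < n)
    (hv : v < n) (b : Fin 5 → Bool) :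
    cl n t x y u v b ∈ c.K true n ∩ PC n (2 * c.m + 2) ↔
      InL c (2 * t + (b 0).toNat) (2 * x + (b 1).toNat) (2 * y + (b 2).toNat)
        (2 * u + (b 3).toNat) (2 * v + (b 4).toNat) := by
  have e0 : dbl (cl n t x y u v b 0) = 2 * t + (b 0).toNat := dbl_cast ht _
  have e1 : dbl (cl n t x y u v b 1) = 2 * x + (b 1).toNat := dbl_cast hx _
  have e2 : dbl (cl n t x y u v b 2) = 2 * y + (b 2).toNat := dbl_cast hy _
  have e3 : dbl (cl n t x y u v b 3) = 2 * u + (b 3).toNat := dbl_cast hu _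
  have e4 : dbl (cl n t x y u v b 4) = 2 * v + (b 4).toNat := dbl_cast hv _
  unfold InL Cfg.K KO PC
  simp only [Set.mem_inter_iff, Set.mem_union, Set.mem_setOf_eq, e0, e1, e2, e3, e4]
  tauto

theorem ec_vv {n t x y u v : ℕ} (i : Fin 5) :
    ec (vv n t x y u v) i = cl n t x y u v (fun k => decide (k = i)) := by
  funext k
  fin_cases k <;> rfl

theorem sc_vv {n t x y u v : ℕ} (i j : Fin 5) :
    sc (vv n t x y u v) i j = cl n t x y u v (fun k => decide (k = i ∨ k = j)) := by
  funext k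
  fin_cases k <;> rfl

theorem up0 {n t x y u v : ℕ} : up (vv n t x y u v) 0 = vv n (t + 1) x y u v := by
  funext k
  fin_cases k <;> simp [up, vv]
theorem up1 {n t x y u v : ℕ} : up (vv n t x y u v) 1 = vv n t (x + 1) y u v := by
  funext k
  fin_cases k <;> simp [up, vv]
theorem up2 {n t x y u v : ℕ} : up (vv n t x y u v) 2 = vv n t x (y + 1) u v := by
  funext k
  fin_cases k <;> simp [up, vv]
theorem up3 {n t x y u v : ℕ} : up (vv n t x y u v) 3 = vv n t x y (u + 1) v := by
  funext k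
  fin_cases k <;> simp [up, vv]
theorem up4 {n t x y u v : ℕ} : up (vv n t x y u v) 4 = vv n t x y u (v + 1) := by
  funext k
  fin_cases k <;> simp [up, vv]

theorem vv_wrap0 {n x y u v : ℕ} : vv n n x y u v = vv n 0 x y u v := by simp [vv]
theorem vv_wrap1 {n t y u v : ℕ} : vv n t n y u v = vv n t 0 y u v := by simp [vv]
theorem vv_wrap2 {n t x u v : ℕ} : vv n t x n u v = vv n t x 0 u v := by simp [vv]

theorem vv_val {n : ℕ} [NeZero n] (w : Vx n) :
    vv n (w 0).val (w 1).val (w 2).val (w 3).val (w 4).val = w := by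
  funext k
  fin_cases k <;> simp [vv]

end Pool.Agent.FM
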