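import Pool.Agent.FM.C07a

/-!
# Block C07, part b: the spanning tree and the gauge
-/

open Set

namespace Pool.Agent.FM

/-- existence of potentials along a rank-decreasing parent function -/
theorem exists_potential {α H : Type} [Group H] (rank : α → ℕ) (p : α → α) (k : α → H) :
    ∃ h : α → H, ∀ a, rank (p a) < rank a → h a = k a * h (p a) := by
  classical
  let F : (a : α) → ((b : α) → rank b < rank a → H) → H := fun a f =>
    if h : rank (p a) < rank a then k a * f (p a) h else 1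
  let wf : WellFounded fun b a : α => rank b < rank a := InvImage.wf rank Nat.lt_wfRel.wf
  refine ⟨wf.fix F, fun a ha => ?_⟩
  rw [wf.fix_eq]
  simp only [F, ha, dif_pos]

/-- the rank of a vertex in the spanning tree -/
def rk (m : ℕ) (a : ℕ × ℕ × ℕ × ℕ × ℕ) : ℕ :=
  a.1 + a.2.1 + a.2.2.1 + 4 * a.2.2.2.1 +
    (if a.2.2.2.2 = 1 then 0 else if a.2.2.2.2 = 3 then 2 else 1) +
    (if a.2.2.2.1 = 2 * m + 2 ∧ (a.2.2.2.2 = 1 ∨ a.2.2.2.2 = 2) then 10 else 0)

/-- times and levels of the main cap -/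
def Cap1 (c : Cfg) (t x y : ℕ) : Prop := x = 2 ∧ y = 0 ∧ 3 ≤ t ∧ t ≤ c.T
/-- times and levels of the relator cap -/
def Cap2 (c : Cfg) (t x y : ℕ) : Prop := x = 1 ∧ y = 1 ∧ 4 ≤ t ∧ t < c.T

open Classical in
/-- parent and transition factor -/
noncomputable def kk {n : ℕ} {H : Type} [Group H] (C : Vx n → Fin 5 → H) (c : Cfg) :
    ℕ × ℕ × ℕ × ℕ × ℕ → (ℕ × ℕ × ℕ × ℕ × ℕ) × H
  | (t, x, y, u, v) =>
    if u = 0 ∨ u = 2 * c.m + 2 ∨ v = 0 ∨ v = 3 then
      if u = 0 then
        if v = 0 then ((t, x, y, 0, 1), C (vv n t x y 0 0) 4)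
        else if v = 1 then
          (if 0 < y then ((t, x, y - 1, 0, 1), (C (vv n t x (y - 1) 0 1) 2)⁻¹)
          else if 0 < x then ((t, x - 1, y, 0, 1), (C (vv n t (x - 1) y 0 1) 1)⁻¹)
          else ((t - 1, x, y, 0, 1), (C (vv n (t - 1) x y 0 1) 0)⁻¹))
        else ((t, x, y, 0, v - 1), (C (vv n t x y 0 (v - 1)) 4)⁻¹)
      else if v = 0 ∨ v = 3 then ((t, x, y, u - 1, v), (C (vv n t x y (u - 1) v) 3)⁻¹)
      else if v = 1 then ((t, x, y, u, 0), (C (vv n t x y u 0) 4)⁻¹)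
      else ((t, x, y, u, 3), C (vv n t x y u 2) 4)
    else if Cap1 c t x y then ((t, x, y, u - 1, v), (C (vv n t x y (u - 1) v) 3)⁻¹)
    else if Cap2 c t x y then
      (if 2 ≤ u then ((t, x, y, u - 1, v), (C (vv n t x y (u - 1) v) 3)⁻¹)
      else if v = 2 then ((t, x, y, u, 1), (C (vv n t x y u 1) 4)⁻¹)
      else ((t, x, 0, u, v), (C (vv n t x 0 u v) 2)⁻¹))
    else if v = 1 then ((t, x, y, u - 1, v), (C (vv n t x y (u - 1) v) 3)⁻¹)
    else if u % 2 = 1 ∧ 3 ≤ u then ((t, x, y, u - 1, v), (C (vv n t x y (u - 1) v) 3)⁻¹)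
    else ((t, x, y, u, v - 1), (C (vv n t x y u (v - 1)) 4)⁻¹)

/-- a flat connection in tree gauge -/
structure NC (c : Cfg) (n : ℕ) (H : Type) [Group H] where
  e : Vx n → Fin 5 → H
  flat : Flat (c.K true n ∩ PC n (2 * c.m + 2)) e
  tt : ∀ t, t + 1 < n → e (vv n t 0 0 0 1) 0 = 1
  tx : ∀ t x, t < n → x + 1 < n → e (vv n t x 0 0 1) 1 = 1
  ty : ∀ t x y, t < n → x < n → y + 1 < n → e (vv n t x y 0 1) 2 = 1
  bl : ∀ t x y v, t < n → x < n → y < n → v ≤ 2 → e (vv n t x y 0 v) 4 = 1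
  b3 : ∀ t x y u v, t < n → x < n → y < n → u ≤ 2 * c.m + 1 → (v = 0 ∨ v = 3) →
    e (vv n t x y u v) 3 = 1
  br : ∀ t x y v, t < n → x < n → y < n → (v = 0 ∨ v = 2) →
    e (vv n t x y (2 * c.m + 2) v) 4 = 1
  mc : ∀ t u v, 3 ≤ t → t ≤ c.T → u ≤ 2 * c.m → (v = 1 ∨ v = 2) → e (vv n t 2 0 u v) 3 = 1
  rc2 : ∀ t, 4 ≤ t → t < c.T → e (vv n t 1 0 1 1) 2 = 1
  rc4 : ∀ t, 4 ≤ t → t < c.T → e (vv n t 1 1 1 1) 4 = 1
  rc3 : ∀ t u v, 4 ≤ t → t < c.T → 1 ≤ u → u ≤ 2 * c.m → (v = 1 ∨ v = 2) →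
    e (vv n t 1 1 u v) 3 = 1
  i31 : ∀ t x y u, t < n → x < n → y < n → ¬ Cap1 c t x y → ¬ Cap2 c t x y → u ≤ 2 * c.m →
    e (vv n t x y u 1) 3 = 1
  i41 : ∀ t x y u, t < n → x < n → y < n → ¬ Cap1 c t x y → ¬ Cap2 c t x y →
    (u % 2 = 0 ∨ u = 1) → 1 ≤ u → u ≤ 2 * c.m + 1 → e (vv n t x y u 1) 4 = 1
  i32 : ∀ t x y u, t < n → x < n → y < n → ¬ Cap1 c t x y → ¬ Cap2 c t x y →
    u % 2 = 0 → 2 ≤ u → u ≤ 2 * c.m → e (vv n t x y u 2) 3 = 1

/-- gauge transformation -/
def gauge {n : ℕ} {H : Type} [Group H] (C : Vx n → Fin 5 → H) (h : Vx n → H) :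
    Vx n → Fin 5 → H := fun v i => (h v)⁻¹ * C v i * h (up v i)

theorem up_comm {n : ℕ} (v : Vx n) {i j : Fin 5} (hij : i ≠ j) : up (up v i) j = up (up v j) i := by
  funext k
  unfold up
  by_cases h1 : k = i <;> by_cases h2 : k = j <;>
    simp_all [Function.update_of_ne]

theorem gauge_flat {n : ℕ} {H : Type} [Group H] {L : Set (Cell n)} {C : Vx n → Fin 5 → H}
    (hC : Flat L C) (h : Vx n → H) : Flat L (gauge C h) := by
  intro v i j hij hs
  have := hC v i j hij hs
  unfold gauge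
  calc (h v)⁻¹ * C v i * h (up v i) * ((h (up v i))⁻¹ * C (up v i) j * h (up (up v i) j))
      = (h v)⁻¹ * (C v i * C (up v i) j) * h (up (up v i) j) := by group
    _ = (h v)⁻¹ * (C v j * C (up v j) i) * h (up (up v j) i) := by rw [this, up_comm v hij]
    _ = _ := by group

theorem exists_gauge {c : Cfg} {n : ℕ} [NeZero n] (h1 : c.T + 3 ≤ n)
    (h2 : 2 * c.m + 5 ≤ n) {H : Type} [Group H] (C : Vx n → Fin 5 → H)
    (hflat : Flat (c.K true n ∩ PC n (2 * c.m + 2)) C) :
    ∃ (N : NC c n H) (h : Vx n → H), ∀ v i, N.e v i = (h v)⁻¹ * C v i * h (up v i) := by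
  classical
  obtain ⟨h, hh⟩ := exists_potential (rk c.m) (fun a => (kk C c a).1) (fun a => (kk C c a).2)
  let g : Vx n → H := fun w => h ((w 0).val, (w 1).val, (w 2).val, (w 3).val, (w 4).val)
  have hg : ∀ t x y u v, t < n → x < n → y < n → u < n → v < n →
      g (vv n t x y u v) = h (t, x, y, u, v) := by
    intro t x y u v ht hx hy hu hv
    simp [g, vv, ZMod.val_cast_of_lt ht, ZMod.val_cast_of_lt hx, ZMod.val_cast_of_lt hy,
      ZMod.val_cast_of_lt hu, ZMod.val_cast_of_lt hv]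
  have up' : ∀ (P Q : Vx n) (i : Fin 5), up P i = Q → g Q = (C P i)⁻¹ * g P →
      gauge C g P i = 1 := by
    intro P Q i hPQ hQ
    unfold gauge
    rw [hPQ, hQ]
    group
  have dn' : ∀ (P Q : Vx n) (i : Fin 5), up P i = Q → g P = C P i * g Q →
      gauge C g P i = 1 := by
    intro P Q i hPQ hQ
    unfold gauge
    rw [hPQ, hQ]
    group
  refine ⟨⟨gauge C g, gauge_flat hflat g, ?_, ?_, ?_, ?_, ?_, ?_, ?_, ?_, ?_, ?_, ?_, ?_, ?_⟩, g,
    fun v i => rfl⟩
  · -- tt
    intro t ht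
    apply up' _ _ _ up0
    rw [hg _ _ _ _ _ (by omega) (by omega) (by omega) (by omega) (by omega),
      hg _ _ _ _ _ (by omega) (by omega) (by omega) (by omega) (by omega)]
    have := hh (t + 1, 0, 0, 0, 1) (by simp [kk, rk])
    rw [this]
    simp [kk]
  · intro t x ht hx
    apply up' _ _ _ up1
    rw [hg _ _ _ _ _ (by omega) (by omega) (by omega) (by omega) (by omega),
      hg _ _ _ _ _ (by omega) (by omega) (by omega) (by omega) (by omega)]
    have := hh (t, x + 1, 0, 0, 1) (by simp [kk, rk])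
    rw [this]
    simp [kk]
  · intro t x y ht hx hy
    apply up' _ _ _ up2
    rw [hg _ _ _ _ _ (by omega) (by omega) (by omega) (by omega) (by omega),
      hg _ _ _ _ _ (by omega) (by omega) (by omega) (by omega) (by omega)]
    have := hh (t, x, y + 1, 0, 1) (by simp [kk, rk])
    rw [this]
    simp [kk]
  · intro t x y v ht hx hy hv
    rcases Nat.eq_zero_or_pos v with rfl | hv0
    · apply dn' _ _ _ up4
      rw [hg _ _ _ _ _ (by omega) (by omega) (by omega) (by omega) (by omega),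
        hg _ _ _ _ _ (by omega) (by omega) (by omega) (by omega) (by omega)]
      have := hh (t, x, y, 0, 0) (by simp [kk, rk])
      rw [this]
      simp [kk]
    · apply up' _ _ _ up4
      rw [hg _ _ _ _ _ (by omega) (by omega) (by omega) (by omega) (by omega),
        hg _ _ _ _ _ (by omega) (by omega) (by omega) (by omega) (by omega)]
      have hv1 : v ≠ 0 := by omega
      have := hh (t, x, y, 0, v + 1) (by
        have : v = 1 ∨ v = 2 := by omega
        rcases this with rfl | rfl <;> simp [kk, rk])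
      rw [this]
      simp [kk, hv1]
  · intro t x y u v ht hx hy hu hv
    apply up' _ _ _ up3
    rw [hg _ _ _ _ _ (by omega) (by omega) (by omega) (by omega) (by omega),
      hg _ _ _ _ _ (by omega) (by omega) (by omega) (by omega) (by omega)]
    have := hh (t, x, y, u + 1, v) (by
      rcases hv with rfl | rfl <;> simp [kk, rk])
    rw [this]
    rcases hv with rfl | rfl <;> simp [kk]
  · intro t x y v ht hx hy hv
    rcases hv with rfl | rfl
    · apply up' _ _ _ up4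
      rw [hg _ _ _ _ _ (by omega) (by omega) (by omega) (by omega) (by omega),
        hg _ _ _ _ _ (by omega) (by omega) (by omega) (by omega) (by omega)]
      have := hh (t, x, y, 2 * c.m + 2, 0 + 1) (by simp [kk, rk])
      rw [this]
      simp [kk]
    · apply dn' _ _ _ up4
      rw [hg _ _ _ _ _ (by omega) (by omega) (by omega) (by omega) (by omega),
        hg _ _ _ _ _ (by omega) (by omega) (by omega) (by omega) (by omega)]
      have := hh (t, x, y, 2 * c.m + 2, 2) (by simp [kk, rk])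
      rw [this]
      simp [kk]
  · -- mc
    intro t u v ht hT hu hv
    apply up' _ _ _ up3
    rw [hg _ _ _ _ _ (by omega) (by omega) (by omega) (by omega) (by omega),
      hg _ _ _ _ _ (by omega) (by omega) (by omega) (by omega) (by omega)]
    have hc : Cap1 c t 2 0 := ⟨rfl, rfl, ht, hT⟩
    have hb : ¬ (u + 1 = 0 ∨ u + 1 = 2 * c.m + 2 ∨ v = 0 ∨ v = 3) := by omega
    have := hh (t, 2, 0, u + 1, v) (by
      simp only [kk, hb, hc, if_true, if_false, rk]
      split_ifs <;> omega)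
    rw [this]
    simp only [kk, hb, hc, if_true, if_false, Nat.add_sub_cancel]
  · intro t ht hT
    apply up' _ _ _ up2
    rw [hg _ _ _ _ _ (by omega) (by omega) (by omega) (by omega) (by omega),
      hg _ _ _ _ _ (by omega) (by omega) (by omega) (by omega) (by omega)]
    have hc : Cap2 c t 1 1 := ⟨rfl, rfl, ht, hT⟩
    have hc1 : ¬ Cap1 c t 1 1 := fun h => by have := h.1; omega
    have hb : ¬ (1 = 0 ∨ 1 = 2 * c.m + 2 ∨ 1 = 0 ∨ 1 = 3) := by omega
    have := hh (t, 1, 1, 1, 1) (by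
      simp only [kk, hb, hc, hc1, if_true, if_false, rk]
      simp)
    rw [show (0 : ℕ) + 1 = 1 from rfl, this]
    simp only [kk, hb, hc, hc1, if_true, if_false]
    simp
  · intro t ht hT
    apply up' _ _ _ up4
    rw [hg _ _ _ _ _ (by omega) (by omega) (by omega) (by omega) (by omega),
      hg _ _ _ _ _ (by omega) (by omega) (by omega) (by omega) (by omega)]
    have hc : Cap2 c t 1 1 := ⟨rfl, rfl, ht, hT⟩
    have hc1 : ¬ Cap1 c t 1 1 := fun h => by have := h.1; omega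
    have hb : ¬ (1 = 0 ∨ 1 = 2 * c.m + 2 ∨ 2 = 0 ∨ 2 = 3) := by omega
    have := hh (t, 1, 1, 1, 2) (by
      simp only [kk, hb, hc, hc1, if_true, if_false, rk]
      simp)
    rw [show (1 : ℕ) + 1 = 2 from rfl, this]
    simp only [kk, hb, hc, hc1, if_true, if_false]
    simp
  · intro t u v ht hT hu1 hu hv
    apply up' _ _ _ up3
    rw [hg _ _ _ _ _ (by omega) (by omega) (by omega) (by omega) (by omega),
      hg _ _ _ _ _ (by omega) (by omega) (by omega) (by omega) (by omega)]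
    have hc : Cap2 c t 1 1 := ⟨rfl, rfl, ht, hT⟩
    have hc1 : ¬ Cap1 c t 1 1 := fun h => by have := h.1; omega
    have hb : ¬ (u + 1 = 0 ∨ u + 1 = 2 * c.m + 2 ∨ v = 0 ∨ v = 3) := by omega
    have hu2 : 2 ≤ u + 1 := by omega
    have := hh (t, 1, 1, u + 1, v) (by
      simp only [kk, hb, hc, hc1, hu2, if_true, if_false, rk]
      split_ifs <;> omega)
    rw [this]
    simp only [kk, hb, hc, hc1, hu2, if_true, if_false, Nat.add_sub_cancel]
  · -- i31
    intro t x y u ht hx hy hc1 hc2 hu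
    apply up' _ _ _ up3
    rw [hg _ _ _ _ _ (by omega) (by omega) (by omega) (by omega) (by omega),
      hg _ _ _ _ _ (by omega) (by omega) (by omega) (by omega) (by omega)]
    have hb : ¬ (u + 1 = 0 ∨ u + 1 = 2 * c.m + 2 ∨ 1 = 0 ∨ 1 = 3) := by omega
    have := hh (t, x, y, u + 1, 1) (by
      simp only [kk, hb, hc2, hc1, if_true, if_false, rk]
      split_ifs <;> omega)
    rw [this]
    simp only [kk, hb, hc2, hc1, if_true, if_false, Nat.add_sub_cancel]
  · intro t x y u ht hx hy hc1 hc2 hu hu1 hu2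
    apply up' _ _ _ up4
    rw [hg _ _ _ _ _ (by omega) (by omega) (by omega) (by omega) (by omega),
      hg _ _ _ _ _ (by omega) (by omega) (by omega) (by omega) (by omega)]
    have hb : ¬ (u = 0 ∨ u = 2 * c.m + 2 ∨ 2 = 0 ∨ 2 = 3) := by omega
    have hu3 : ¬ (u % 2 = 1 ∧ 3 ≤ u) := by omega
    have h21 : ¬ ((2 : ℕ) = 1) := by omega
    have := hh (t, x, y, u, 2) (by
      simp only [kk, hb, hc2, hc1, hu3, h21, if_false, rk]
      simp)
    rw [show (1 : ℕ) + 1 = 2 from rfl, this]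
    simp only [kk, hb, hc2, hc1, hu3, h21, if_false]
  · intro t x y u ht hx hy hc1 hc2 hu hu1 hu2
    apply up' _ _ _ up3
    rw [hg _ _ _ _ _ (by omega) (by omega) (by omega) (by omega) (by omega),
      hg _ _ _ _ _ (by omega) (by omega) (by omega) (by omega) (by omega)]
    have hb : ¬ (u + 1 = 0 ∨ u + 1 = 2 * c.m + 2 ∨ 2 = 0 ∨ 2 = 3) := by omega
    have hu3 : (u + 1) % 2 = 1 ∧ 3 ≤ u + 1 := by omega
    have h21 : ¬ ((2 : ℕ) = 1) := by omega
    have := hh (t, x, y, u + 1, 2) (by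
      simp only [kk, hb, hc2, hc1, hu3, h21, and_self, if_true, if_false, rk]
      split_ifs <;> omega)
    rw [this]
    simp only [kk, hb, hc2, hc1, hu3, h21, and_self, if_true, if_false, Nat.add_sub_cancel]

end Pool.Agent.FM
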