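import Pool.Agent.FM.C07b

/-!
# Block C07, part c: the torus part and the boundary of the rectangle
-/

open Set

namespace Pool.Agent.FM

namespace NC

variable {c : Cfg} {n : ℕ} {H : Type} [Group H] (N : NC c n H)

theorem sq {i j : Fin 5} (hij : i ≠ j) {t x y u v : ℕ} (ht : t < n) (hx : x < n) (hy : y < n)
    (hu : u < n) (hv : v < n)
    (h : InL c (2 * t + (decide (0 = i ∨ 0 = j)).toNat) (2 * x + (decide (1 = i ∨ 1 = j)).toNat)
      (2 * y + (decide (2 = i ∨ 2 = j)).toNat) (2 * u + (decide (3 = i ∨ 3 = j)).toNat)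
      (2 * v + (decide (4 = i ∨ 4 = j)).toNat)) :
    N.e (vv n t x y u v) i * N.e (up (vv n t x y u v) i) j =
      N.e (vv n t x y u v) j * N.e (up (vv n t x y u v) j) i := by
  refine N.flat _ i j hij ?_
  rw [sc_vv, cl_mem ht hx hy hu hv]
  exact h

theorem bdry_of {t x y u v : ℕ} (hu : u ≤ 4 * c.m + 4) (hv : v ≤ 6)
    (h : u = 0 ∨ u = 4 * c.m + 4 ∨ v = 0 ∨ v = 6) : InL c t x y u v :=
  ⟨⟨by omega, hv⟩, Or.inl (by omega)⟩

theorem of_inK {t x y u v : ℕ} (hu : u ≤ 4 * c.m + 4) (hv : v ≤ 6)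
    (h : InK true c t x y u v) : InL c t x y u v :=
  ⟨⟨by omega, hv⟩, Or.inr h⟩

theorem vv_mod {t x y u v : ℕ} : vv n t x y u v = vv n (t % n) (x % n) (y % n) u v := by
  simp [vv]

theorem bl' [NeZero n] (t x y : ℕ) {v : ℕ} (hv : v ≤ 2) : N.e (vv n t x y 0 v) 4 = 1 := by
  rw [vv_mod]
  have hn := NeZero.pos n
  exact N.bl _ _ _ _ (Nat.mod_lt _ hn) (Nat.mod_lt _ hn) (Nat.mod_lt _ hn) hv

theorem b3' [NeZero n] (t x y : ℕ) {u v : ℕ} (hu : u ≤ 2 * c.m + 1) (hv : v = 0 ∨ v = 3) :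
    N.e (vv n t x y u v) 3 = 1 := by
  rw [vv_mod]
  have hn := NeZero.pos n
  exact N.b3 _ _ _ _ _ (Nat.mod_lt _ hn) (Nat.mod_lt _ hn) (Nat.mod_lt _ hn) hu hv

theorem br' [NeZero n] (t x y : ℕ) {v : ℕ} (hv : v = 0 ∨ v = 2) :
    N.e (vv n t x y (2 * c.m + 2) v) 4 = 1 := by
  rw [vv_mod]
  have hn := NeZero.pos n
  exact N.br _ _ _ _ (Nat.mod_lt _ hn) (Nat.mod_lt _ hn) (Nat.mod_lt _ hn) hv

theorem up_vv {i : Fin 5} (hi3 : i ≠ 3) (hi4 : i ≠ 4) (t x y : ℕ) :
    ∃ t' x' y', ∀ u v, up (vv n t x y u v) i = vv n t' x' y' u v := by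
  fin_cases i
  · exact ⟨t + 1, x, y, fun u v => up0⟩
  · exact ⟨t, x + 1, y, fun u v => up1⟩
  · exact ⟨t, x, y + 1, fun u v => up2⟩
  · exact absurd rfl hi3
  · exact absurd rfl hi4

/-- squares with a planar edge of the boundary -/
theorem bsq [NeZero n] (h2 : 2 * c.m + 5 ≤ n) {i j : Fin 5} (hi3 : i ≠ 3) (hi4 : i ≠ 4)
    (hj : j = 3 ∨ j = 4) (t x y : ℕ) {u v : ℕ} (hu : u ≤ 2 * c.m + 2) (hv : v ≤ 3)
    (hb : (j = 3 ∧ u ≤ 2 * c.m + 1 ∧ (v = 0 ∨ v = 3)) ∨
      (j = 4 ∧ v ≤ 2 ∧ (u = 0 ∨ u = 2 * c.m + 2))) :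
    N.e (vv n t x y u v) i * N.e (up (vv n t x y u v) i) j =
      N.e (vv n t x y u v) j * N.e (up (vv n t x y u v) j) i := by
  have hn := NeZero.pos n
  rw [vv_mod]
  have hij : i ≠ j := by
    rintro rfl
    rcases hj with h | h
    · exact hi3 h
    · exact hi4 h
  apply N.sq hij (Nat.mod_lt _ hn) (Nat.mod_lt _ hn) (Nat.mod_lt _ hn) (by omega) (by omega)
  have h3 : (decide ((3 : Fin 5) = i ∨ 3 = j)).toNat = if j = 3 then 1 else 0 := by
    have : ¬ (3 : Fin 5) = i := fun h => hi3 h.symm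
    by_cases hj3 : j = 3
    · simp [hj3]
    · have : ¬ (3 : Fin 5) = j := fun h => hj3 h.symm
      simp [*]
  have h4 : (decide ((4 : Fin 5) = i ∨ 4 = j)).toNat = if j = 4 then 1 else 0 := by
    have : ¬ (4 : Fin 5) = i := fun h => hi4 h.symm
    by_cases hj4 : j = 4
    · simp [hj4]
    · have : ¬ (4 : Fin 5) = j := fun h => hj4 h.symm
      simp [*]
  rw [h3, h4]
  rcases hb with ⟨rfl, hu', hv'⟩ | ⟨rfl, hv', hu'⟩
  · simp only [if_true, show ¬ ((3 : Fin 5) = 4) by decide, if_false]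
    apply bdry_of <;> omega
  · simp only [if_true, show ¬ ((4 : Fin 5) = 3) by decide, if_false]
    apply bdry_of <;> omega

theorem bstep3 [NeZero n] (h2 : 2 * c.m + 5 ≤ n) {i : Fin 5} (hi3 : i ≠ 3) (hi4 : i ≠ 4)
    (t x y : ℕ) {u v : ℕ} (hu : u ≤ 2 * c.m + 1) (hv : v = 0 ∨ v = 3) :
    N.e (vv n t x y (u + 1) v) i = N.e (vv n t x y u v) i := by
  have h := N.bsq h2 hi3 hi4 (Or.inl rfl) t x y (u := u) (v := v) (by omega) (by omega)
    (Or.inl ⟨rfl, hu, hv⟩)
  obtain ⟨t', x', y', hup⟩ := up_vv (n := n) hi3 hi4 t x y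
  rw [hup, N.b3' _ _ _ hu hv, N.b3' _ _ _ hu hv, up3, mul_one, one_mul] at h
  exact h.symm

theorem bstep4l [NeZero n] (h2 : 2 * c.m + 5 ≤ n) {i : Fin 5} (hi3 : i ≠ 3) (hi4 : i ≠ 4)
    (t x y : ℕ) {v : ℕ} (hv : v ≤ 2) :
    N.e (vv n t x y 0 (v + 1)) i = N.e (vv n t x y 0 v) i := by
  have h := N.bsq h2 hi3 hi4 (Or.inr rfl) t x y (u := 0) (v := v) (by omega) (by omega)
    (Or.inr ⟨rfl, hv, Or.inl rfl⟩)
  obtain ⟨t', x', y', hup⟩ := up_vv (n := n) hi3 hi4 t x y
  rw [hup, N.bl' _ _ _ hv, N.bl' _ _ _ hv, up4, mul_one, one_mul] at h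
  exact h.symm

theorem bstep4r [NeZero n] (h2 : 2 * c.m + 5 ≤ n) {i : Fin 5} (hi3 : i ≠ 3) (hi4 : i ≠ 4)
    (t x y : ℕ) {v : ℕ} (hv : v = 0 ∨ v = 2) :
    N.e (vv n t x y (2 * c.m + 2) (v + 1)) i = N.e (vv n t x y (2 * c.m + 2) v) i := by
  have h := N.bsq h2 hi3 hi4 (Or.inr rfl) t x y (u := 2 * c.m + 2) (v := v) (by omega) (by omega)
    (Or.inr ⟨rfl, by omega, Or.inr rfl⟩)
  obtain ⟨t', x', y', hup⟩ := up_vv (n := n) hi3 hi4 t x y
  rw [hup, N.br' _ _ _ hv, N.br' _ _ _ hv, up4, mul_one, one_mul] at h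
  exact h.symm

/-- the boundary edges in the directions `0, 1, 2` do not depend on the planar point -/
theorem bound [NeZero n] (h2 : 2 * c.m + 5 ≤ n) {i : Fin 5} (hi3 : i ≠ 3) (hi4 : i ≠ 4)
    (t x y : ℕ) {u v : ℕ} (hu : u ≤ 2 * c.m + 2) (hv : v ≤ 3)
    (hb : u = 0 ∨ u = 2 * c.m + 2 ∨ v = 0 ∨ v = 3) :
    N.e (vv n t x y u v) i = N.e (vv n t x y 0 1) i := by
  have l1 : N.e (vv n t x y 0 1) i = N.e (vv n t x y 0 0) i :=
    N.bstep4l h2 hi3 hi4 t x y (v := 0) (by omega)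
  have l2 : N.e (vv n t x y 0 2) i = N.e (vv n t x y 0 1) i :=
    N.bstep4l h2 hi3 hi4 t x y (v := 1) (by omega)
  have l3 : N.e (vv n t x y 0 3) i = N.e (vv n t x y 0 2) i :=
    N.bstep4l h2 hi3 hi4 t x y (v := 2) (by omega)
  have row : ∀ v, (v = 0 ∨ v = 3) → ∀ u, u ≤ 2 * c.m + 2 →
      N.e (vv n t x y u v) i = N.e (vv n t x y 0 v) i := by
    intro v hv u
    induction u with
    | zero => intro _; rfl
    | succ u ih =>
      intro hu
      rw [N.bstep3 h2 hi3 hi4 t x y (by omega) hv, ih (by omega)]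
  have r1 : N.e (vv n t x y (2 * c.m + 2) 1) i = N.e (vv n t x y (2 * c.m + 2) 0) i :=
    N.bstep4r h2 hi3 hi4 t x y (Or.inl rfl)
  have r2 : N.e (vv n t x y (2 * c.m + 2) 3) i = N.e (vv n t x y (2 * c.m + 2) 2) i :=
    N.bstep4r h2 hi3 hi4 t x y (Or.inr rfl)
  have row0 : ∀ u, u ≤ 2 * c.m + 2 → N.e (vv n t x y u 0) i = N.e (vv n t x y 0 1) i :=
    fun u hu => (row 0 (Or.inl rfl) u hu).trans l1.symm
  have row3 : ∀ u, u ≤ 2 * c.m + 2 → N.e (vv n t x y u 3) i = N.e (vv n t x y 0 1) i :=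
    fun u hu => ((row 3 (Or.inr rfl) u hu).trans l3).trans l2
  have hv' : v = 0 ∨ v = 1 ∨ v = 2 ∨ v = 3 := by omega
  rcases hv' with rfl | rfl | rfl | rfl
  · exact row0 u hu
  · rcases hb with rfl | rfl | h | h
    · rfl
    · rw [r1]; exact row0 _ le_rfl
    · omega
    · omega
  · rcases hb with rfl | rfl | h | h
    · exact l2
    · rw [← r2]; exact row3 _ le_rfl
    · omega
    · omega
  · exact row3 u hu

/-! ### the torus over the base point `(0, 1)` -/

theorem s12 [NeZero n] (h2 : 2 * c.m + 5 ≤ n) (t : ℕ) {x y : ℕ} (hx : x < n) (hy : y < n) :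
    N.e (vv n t x y 0 1) 1 * N.e (vv n t (x + 1) y 0 1) 2 =
      N.e (vv n t x y 0 1) 2 * N.e (vv n t x (y + 1) 0 1) 1 := by
  have hn := NeZero.pos n
  have h := N.sq (i := 1) (j := 2) (by decide) (t := t % n) (Nat.mod_lt _ hn) hx hy (u := 0)
    (v := 1) (by omega) (by omega) (bdry_of (by simp) (by simp) (by simp))
  rw [up1, up2] at h
  have e : ∀ a b, vv n (t % n) a b 0 1 = vv n t a b 0 1 := fun a b => by simp [vv]
  rwa [e, e, e] at h

theorem s02 [NeZero n] (h2 : 2 * c.m + 5 ≤ n) (x : ℕ) {t y : ℕ} (ht : t < n) (hy : y < n) :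
    N.e (vv n t x y 0 1) 0 * N.e (vv n (t + 1) x y 0 1) 2 =
      N.e (vv n t x y 0 1) 2 * N.e (vv n t x (y + 1) 0 1) 0 := by
  have hn := NeZero.pos n
  have h := N.sq (i := 0) (j := 2) (by decide) (x := x % n) ht (Nat.mod_lt _ hn) hy (u := 0)
    (v := 1) (by omega) (by omega) (bdry_of (by simp) (by simp) (by simp))
  rw [up0, up2] at h
  have e : ∀ a b, vv n a (x % n) b 0 1 = vv n a x b 0 1 := fun a b => by simp [vv]
  rwa [e, e, e] at h

theorem s01 [NeZero n] (h2 : 2 * c.m + 5 ≤ n) (y : ℕ) {t x : ℕ} (ht : t < n) (hx : x < n) :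
    N.e (vv n t x y 0 1) 0 * N.e (vv n (t + 1) x y 0 1) 1 =
      N.e (vv n t x y 0 1) 1 * N.e (vv n t (x + 1) y 0 1) 0 := by
  have hn := NeZero.pos n
  have h := N.sq (i := 0) (j := 1) (by decide) (y := y % n) ht hx (Nat.mod_lt _ hn) (u := 0)
    (v := 1) (by omega) (by omega) (bdry_of (by simp) (by simp) (by simp))
  rw [up0, up1] at h
  have e : ∀ a b, vv n a b (y % n) 0 1 = vv n a b y 0 1 := fun a b => by simp [vv]
  rwa [e, e, e] at h

/-- the generators of the torus -/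
def X0 : H := N.e (vv n (n - 1) 0 0 0 1) 0
/-- the generators of the torus -/
def X1 : H := N.e (vv n 0 (n - 1) 0 0 1) 1
/-- the generators of the torus -/
def Z : H := N.e (vv n 0 0 (n - 1) 0 1) 2

theorem e1_y [NeZero n] (h2 : 2 * c.m + 5 ≤ n) {t x : ℕ} (ht : t < n) (hx : x < n) :
    ∀ y, y < n → N.e (vv n t x y 0 1) 1 = N.e (vv n t x 0 0 1) 1 := by
  intro y
  induction y with
  | zero => intro _; rfl
  | succ y ih =>
    intro hy
    have h := N.s12 h2 t hx (y := y) (by omega)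
    have hx1 : N.e (vv n t (x + 1) y 0 1) 2 = 1 := by
      rcases Nat.lt_or_ge (x + 1) n with hlt | hge
      · exact N.ty _ _ _ ht hlt hy
      · have : x + 1 = n := by omega
        rw [this, vv_wrap1]
        exact N.ty _ _ _ ht (by omega) hy
    rw [hx1, N.ty _ _ _ ht hx hy, mul_one, one_mul] at h
    rw [← h, ih (by omega)]

theorem e0_y [NeZero n] (h2 : 2 * c.m + 5 ≤ n) {t x : ℕ} (ht : t < n) (hx : x < n) :
    ∀ y, y < n → N.e (vv n t x y 0 1) 0 = N.e (vv n t x 0 0 1) 0 := by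
  intro y
  induction y with
  | zero => intro _; rfl
  | succ y ih =>
    intro hy
    have h := N.s02 h2 x ht (y := y) (by omega)
    have ht1 : N.e (vv n (t + 1) x y 0 1) 2 = 1 := by
      rcases Nat.lt_or_ge (t + 1) n with hlt | hge
      · exact N.ty _ _ _ hlt hx hy
      · have : t + 1 = n := by omega
        rw [this, vv_wrap0]
        exact N.ty _ _ _ (by omega) hx hy
    rw [ht1, N.ty _ _ _ ht hx hy, mul_one, one_mul] at h
    rw [← h, ih (by omega)]

theorem e0_x [NeZero n] (h2 : 2 * c.m + 5 ≤ n) {t : ℕ} (ht : t < n) :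
    ∀ x, x < n → N.e (vv n t x 0 0 1) 0 = N.e (vv n t 0 0 0 1) 0 := by
  intro x
  induction x with
  | zero => intro _; rfl
  | succ x ih =>
    intro hx
    have h := N.s01 h2 0 ht (x := x) (by omega)
    have ht1 : N.e (vv n (t + 1) x 0 0 1) 1 = 1 := by
      rcases Nat.lt_or_ge (t + 1) n with hlt | hge
      · exact N.tx _ _ hlt hx
      · have : t + 1 = n := by omega
        rw [this, vv_wrap0]
        exact N.tx _ _ (by omega) hx
    rw [ht1, N.tx _ _ ht hx, mul_one, one_mul] at h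
    rw [← h, ih (by omega)]

theorem a0 [NeZero n] (h2 : 2 * c.m + 5 ≤ n) {t x y : ℕ} (ht : t < n) (hx : x < n) (hy : y < n) :
    N.e (vv n t x y 0 1) 0 = if t + 1 = n then N.X0 else 1 := by
  rw [N.e0_y h2 ht hx y hy, N.e0_x h2 ht x hx]
  split_ifs with h
  · have : t = n - 1 := by omega
    subst this
    rfl
  · exact N.tt t (by omega)

theorem a1 [NeZero n] (h2 : 2 * c.m + 5 ≤ n) {t x y : ℕ} (ht : t < n) (hx : x < n) (hy : y < n) :
    N.e (vv n t x y 0 1) 1 = if x + 1 = n then N.X1 else 1 := by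
  rw [N.e1_y h2 ht hx y hy]
  split_ifs with h
  · have hx' : x = n - 1 := by omega
    subst hx'
    have key : ∀ t, t < n → N.e (vv n t (n - 1) 0 0 1) 1 = N.e (vv n 0 (n - 1) 0 0 1) 1 := by
      intro t
      induction t with
      | zero => intro _; rfl
      | succ t ih =>
        intro ht
        have hs := N.s01 h2 0 (t := t) (x := n - 1) (by omega) (by omega)
        rw [show n - 1 + 1 = n by omega, vv_wrap1, N.a0 h2 (by omega) (by omega) (by omega),
          N.a0 h2 (by omega) (by omega) (by omega), if_neg (by omega), one_mul, mul_one] at hs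
        rw [hs, ih (by omega)]
    exact key t ht
  · exact N.tx t x ht (by omega)

theorem comm01 [NeZero n] (h2 : 2 * c.m + 5 ≤ n) : Commute N.X0 N.X1 := by
  have hs := N.s01 h2 0 (t := n - 1) (x := n - 1) (by omega) (by omega)
  rw [show n - 1 + 1 = n by omega, vv_wrap1, vv_wrap0, N.a0 h2 (by omega) (by omega) (by omega),
    N.a0 h2 (by omega) (by omega) (by omega), N.a1 h2 (by omega) (by omega) (by omega),
    N.a1 h2 (by omega) (by omega) (by omega), if_pos (by omega), if_pos (by omega)] at hs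
  exact hs

theorem e2_x [NeZero n] (h2 : 2 * c.m + 5 ≤ n) {t : ℕ} (ht : t < n) :
    ∀ x, x < n → N.e (vv n t x (n - 1) 0 1) 2 = N.e (vv n t 0 (n - 1) 0 1) 2 := by
  intro x
  induction x with
  | zero => intro _; rfl
  | succ x ih =>
    intro hx
    have hs := N.s12 h2 t (x := x) (y := n - 1) (by omega) (by omega)
    rw [show n - 1 + 1 = n by omega, vv_wrap2, N.a1 h2 ht (by omega) (by omega),
      N.a1 h2 ht (by omega) (by omega), if_neg (by omega), one_mul, mul_one] at hs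
    rw [hs, ih (by omega)]

theorem e2_t [NeZero n] (h2 : 2 * c.m + 5 ≤ n) :
    ∀ t, t < n → N.e (vv n t 0 (n - 1) 0 1) 2 = N.e (vv n 0 0 (n - 1) 0 1) 2 := by
  intro t
  induction t with
  | zero => intro _; rfl
  | succ t ih =>
    intro ht
    have hs := N.s02 h2 0 (t := t) (y := n - 1) (by omega) (by omega)
    rw [show n - 1 + 1 = n by omega, vv_wrap2, N.a0 h2 (by omega) (by omega) (by omega),
      N.a0 h2 (by omega) (by omega) (by omega), if_neg (by omega), one_mul, mul_one] at hs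
    rw [hs, ih (by omega)]

theorem a2 [NeZero n] (h2 : 2 * c.m + 5 ≤ n) {t x y : ℕ} (ht : t < n) (hx : x < n) (hy : y < n) :
    N.e (vv n t x y 0 1) 2 = if y + 1 = n then N.Z else 1 := by
  split_ifs with h
  · have hy' : y = n - 1 := by omega
    subst hy'
    rw [N.e2_x h2 ht x hx, N.e2_t h2 t ht]
    rfl
  · exact N.ty t x y ht hx (by omega)

theorem comm0z [NeZero n] (h2 : 2 * c.m + 5 ≤ n) : Commute N.X0 N.Z := by
  have hs := N.s02 h2 0 (t := n - 1) (y := n - 1) (by omega) (by omega)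
  rw [show n - 1 + 1 = n by omega, vv_wrap2, vv_wrap0, N.a0 h2 (by omega) (by omega) (by omega),
    N.a0 h2 (by omega) (by omega) (by omega), N.a2 h2 (by omega) (by omega) (by omega),
    N.a2 h2 (by omega) (by omega) (by omega), if_pos (by omega), if_pos (by omega)] at hs
  exact hs

theorem comm1z [NeZero n] (h2 : 2 * c.m + 5 ≤ n) : Commute N.X1 N.Z := by
  have hs := N.s12 h2 0 (x := n - 1) (y := n - 1) (by omega) (by omega)
  rw [show n - 1 + 1 = n by omega, vv_wrap2, vv_wrap1, N.a1 h2 (by omega) (by omega) (by omega),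
    N.a1 h2 (by omega) (by omega) (by omega), N.a2 h2 (by omega) (by omega) (by omega),
    N.a2 h2 (by omega) (by omega) (by omega), if_pos (by omega), if_pos (by omega)] at hs
  exact hs

/-! ### the non-tree edge of the boundary -/

/-- the edge from `(2m+2, 1)` to `(2m+2, 2)` -/
def Gb : H := N.e (vv n 0 0 0 (2 * c.m + 2) 1) 4

theorem gsq [NeZero n] (h2 : 2 * c.m + 5 ≤ n) {i : Fin 5} (hi3 : i ≠ 3) (hi4 : i ≠ 4)
    (t x y : ℕ) :
    N.e (vv n t x y 0 1) i * N.e (up (vv n t x y (2 * c.m + 2) 1) i) 4 =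
      N.e (vv n t x y (2 * c.m + 2) 1) 4 * N.e (vv n t x y 0 1) i := by
  have h := N.bsq h2 hi3 hi4 (Or.inr rfl) t x y (u := 2 * c.m + 2) (v := 1) (by omega) (by omega)
    (Or.inr ⟨rfl, by omega, Or.inr rfl⟩)
  rw [up4, N.bound h2 hi3 hi4 t x y (u := 2 * c.m + 2) (v := 1) le_rfl (by omega) (by omega),
    N.bound h2 hi3 hi4 t x y (u := 2 * c.m + 2) (v := 1 + 1) le_rfl (by omega) (by omega)] at h
  exact h

theorem gconst [NeZero n] (h2 : 2 * c.m + 5 ≤ n) {t x y : ℕ} (ht : t < n) (hx : x < n)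
    (hy : y < n) : N.e (vv n t x y (2 * c.m + 2) 1) 4 = N.Gb := by
  have k1 : ∀ t, t < n → N.e (vv n t 0 0 (2 * c.m + 2) 1) 4 = N.Gb := by
    intro t
    induction t with
    | zero => intro _; rfl
    | succ t ih =>
      intro ht
      have hs := N.gsq h2 (i := 0) (by decide) (by decide) t 0 0
      rw [up0, N.a0 h2 (by omega) (by omega) (by omega), if_neg (by omega), one_mul, mul_one] at hs
      rw [hs, ih (by omega)]
  have k2 : ∀ x, x < n → N.e (vv n t x 0 (2 * c.m + 2) 1) 4 = N.Gb := by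
    intro x
    induction x with
    | zero => intro _; exact k1 t ht
    | succ x ih =>
      intro hx
      have hs := N.gsq h2 (i := 1) (by decide) (by decide) t x 0
      rw [up1, N.a1 h2 (by omega) (by omega) (by omega), if_neg (by omega), one_mul, mul_one] at hs
      rw [hs, ih (by omega)]
  have k3 : ∀ y, y < n → N.e (vv n t x y (2 * c.m + 2) 1) 4 = N.Gb := by
    intro y
    induction y with
    | zero => intro _; exact k2 x hx
    | succ y ih =>
      intro hy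
      have hs := N.gsq h2 (i := 2) (by decide) (by decide) t x y
      rw [up2, N.a2 h2 (by omega) (by omega) (by omega), if_neg (by omega), one_mul, mul_one] at hs
      rw [hs, ih (by omega)]
  exact k3 y hy

theorem comm0g [NeZero n] (h2 : 2 * c.m + 5 ≤ n) : Commute N.X0 N.Gb := by
  have hs := N.gsq h2 (i := 0) (by decide) (by decide) (n - 1) 0 0
  rw [up0, show n - 1 + 1 = n by omega, vv_wrap0, N.a0 h2 (by omega) (by omega) (by omega),
    if_pos (by omega), N.gconst h2 (by omega) (by omega) (by omega),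
    N.gconst h2 (by omega) (by omega) (by omega)] at hs
  exact hs

theorem comm1g [NeZero n] (h2 : 2 * c.m + 5 ≤ n) : Commute N.X1 N.Gb := by
  have hs := N.gsq h2 (i := 1) (by decide) (by decide) 0 (n - 1) 0
  rw [up1, show n - 1 + 1 = n by omega, vv_wrap1, N.a1 h2 (by omega) (by omega) (by omega),
    if_pos (by omega), N.gconst h2 (by omega) (by omega) (by omega),
    N.gconst h2 (by omega) (by omega) (by omega)] at hs
  exact hs

theorem commzg [NeZero n] (h2 : 2 * c.m + 5 ≤ n) : Commute N.Z N.Gb := by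
  have hs := N.gsq h2 (i := 2) (by decide) (by decide) 0 0 (n - 1)
  rw [up2, show n - 1 + 1 = n by omega, vv_wrap2, N.a2 h2 (by omega) (by omega) (by omega),
    if_pos (by omega), N.gconst h2 (by omega) (by omega) (by omega),
    N.gconst h2 (by omega) (by omega) (by omega)] at hs
  exact hs

end NC

end Pool.Agent.FM
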