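import Pool.Agent.FM.C07c

/-!
# Block C07, part d: levels and the planar region
-/

open Set

namespace Pool.Agent.FM

namespace NC

variable {c : Cfg} {n : ℕ} {H : Type} [Group H] (N : NC c n H)

/-- the loop labels -/
def gam (k : ℕ) : H := N.e (vv n 1 1 0 (2 * k + 3) 1) 4

theorem Gam_bound {m : ℕ} {J : Finset ℕ} {U V : ℕ} (h : Gam m J U V) :
    U ≤ 4 * m + 2 ∧ V ≤ 4 := by
  rcases h with h | ⟨i, _, him, h⟩
  · unfold onL at h
    omega
  · unfold onLoop at h
    omega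

theorem bus_mem {m : ℕ} {J : Finset ℕ} {U : ℕ} (h : U ≤ 4 * m + 2) : Gam m J U 2 :=
  Or.inl ⟨h, rfl⟩

theorem loop_mem {m : ℕ} {J : Finset ℕ} {k U V : ℕ} (hk : k ∈ J) (hkm : k < m)
    (h : 4 * k + 4 ≤ U ∧ U ≤ 4 * k + 6 ∧ 2 ≤ V ∧ V ≤ 4 ∧ ¬ (U = 4 * k + 5 ∧ V = 3)) :
    Gam m J U V :=
  Or.inr ⟨k, hk, hkm, h⟩

/-- squares over a planar edge of the graph -/
theorem lsq [NeZero n] (h2 : 2 * c.m + 5 ≤ n) {i j : Fin 5} (hi3 : i ≠ 3) (hi4 : i ≠ 4)
    (hj : j = 3 ∨ j = 4) {t x y u v : ℕ} (ht : t < n) (hx : x < n) (hy : y < n) {J : Finset ℕ}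
    (hmem : ∀ U V, Gam c.m J U V → InK true c (2 * t + (decide (0 = i)).toNat)
      (2 * x + (decide (1 = i)).toNat) (2 * y + (decide (2 = i)).toNat) U V)
    (h : Gam c.m J (2 * u + (decide (3 = j)).toNat) (2 * v + (decide (4 = j)).toNat)) :
    N.e (vv n t x y u v) i * N.e (up (vv n t x y u v) i) j =
      N.e (vv n t x y u v) j * N.e (up (vv n t x y u v) j) i := by
  have hb := Gam_bound h
  have hm := hmem _ _ h
  have hij : i ≠ j := by
    rintro rfl
    rcases hj with h | h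
    · exact hi3 h
    · exact hi4 h
  have hi3' : ¬ (3 : Fin 5) = i := fun h => hi3 h.symm
  have hi4' : ¬ (4 : Fin 5) = i := fun h => hi4 h.symm
  apply N.sq hij ht hx hy (by omega) (by omega)
  have e0 : decide ((0 : Fin 5) = i ∨ 0 = j) = decide (0 = i) := by
    rcases hj with rfl | rfl <;> simp
  have e1 : decide ((1 : Fin 5) = i ∨ 1 = j) = decide (1 = i) := by
    rcases hj with rfl | rfl <;> simp
  have e2 : decide ((2 : Fin 5) = i ∨ 2 = j) = decide (2 = i) := by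
    rcases hj with rfl | rfl <;> simp
  have e3 : decide ((3 : Fin 5) = i ∨ 3 = j) = decide (3 = j) := by simp [hi3']
  have e4 : decide ((4 : Fin 5) = i ∨ 4 = j) = decide (4 = j) := by simp [hi4']
  rw [e0, e1, e2, e3, e4]
  exact of_inK (by omega) (by omega) hm

theorem graph3 [NeZero n] (hc : c.Ok) (h1 : c.T + 3 ≤ n) (h2 : 2 * c.m + 5 ≤ n)
    {t x y u v : ℕ} (ht : t < n) (hx : x < n) (hy : y < n) (hc1 : ¬ Cap1 c t x y)
    (hc2 : ¬ Cap2 c t x y) {J : Finset ℕ} (h : Gam c.m J (2 * u + 1) (2 * v)) :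
    N.e (vv n t x y u v) 3 = 1 := by
  rcases h with h | ⟨i, _, him, h⟩
  · unfold onL at h
    have hv : v = 1 := by omega
    subst hv
    exact N.i31 t x y u ht hx hy hc1 hc2 (by omega)
  · unfold onLoop at h
    have hu : u = 2 * i + 2 := by omega
    have hv : v = 1 ∨ v = 2 := by omega
    subst hu
    rcases hv with rfl | rfl
    · exact N.i31 t x y _ ht hx hy hc1 hc2 (by omega)
    · exact N.i32 t x y _ ht hx hy hc1 hc2 (by omega) (by omega) (by omega)

theorem left4 [NeZero n] (hc : c.Ok) (h1 : c.T + 3 ≤ n) (h2 : 2 * c.m + 5 ≤ n)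
    {t x y k : ℕ} (ht : t < n) (hx : x < n) (hy : y < n) (hc1 : ¬ Cap1 c t x y)
    (hc2 : ¬ Cap2 c t x y) (hk : k < c.m) :
    N.e (vv n t x y (2 * k + 2) 1) 4 = 1 :=
  N.i41 t x y _ ht hx hy hc1 hc2 (Or.inl (by omega)) (by omega) (by omega)

/-- propagation along the graph at a level -/
theorem level [NeZero n] (h2 : 2 * c.m + 5 ≤ n) {i : Fin 5} (hi3 : i ≠ 3) (hi4 : i ≠ 4)
    {t x y t' x' y' : ℕ} (ht : t < n) (hx : x < n) (hy : y < n) (ht' : t' < n) (hx' : x' < n)
    (hy' : y' < n) (hup : ∀ u v, up (vv n t x y u v) i = vv n t' x' y' u v)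
    (hc1 : ¬ Cap1 c t x y) (hc2 : ¬ Cap2 c t x y) (hc1' : ¬ Cap1 c t' x' y')
    (hc2' : ¬ Cap2 c t' x' y') {J : Finset ℕ}
    (hmem : ∀ U V, Gam c.m J U V → InK true c (2 * t + (decide (0 = i)).toNat)
      (2 * x + (decide (1 = i)).toNat) (2 * y + (decide (2 = i)).toNat) U V) :
    (∀ u, u ≤ 2 * c.m + 1 → N.e (vv n t x y u 1) i = N.e (vv n t x y 0 1) i) ∧
    ∀ k ∈ J, k < c.m → N.e (vv n t x y (2 * k + 2) 2) i = N.e (vv n t x y 0 1) i ∧
      N.e (vv n t x y (2 * k + 3) 2) i = N.e (vv n t x y 0 1) i ∧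
      N.e (vv n t x y 0 1) i * N.e (vv n t' x' y' (2 * k + 3) 1) 4 =
        N.e (vv n t x y (2 * k + 3) 1) 4 * N.e (vv n t x y 0 1) i := by
  have bus : ∀ u, u ≤ 2 * c.m + 1 → N.e (vv n t x y u 1) i = N.e (vv n t x y 0 1) i := by
    intro u
    induction u with
    | zero => intro _; rfl
    | succ u ih =>
      intro hu
      have h := N.lsq h2 hi3 hi4 (j := 3) (Or.inl rfl) ht hx hy (u := u) (v := 1) hmem
        (bus_mem (by simp; omega))
      rw [hup, up3, N.i31 t' x' y' u ht' hx' hy' hc1' hc2' (by omega),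
        N.i31 t x y u ht hx hy hc1 hc2 (by omega), mul_one, one_mul] at h
      rw [← h, ih (by omega)]
  refine ⟨bus, fun k hk hkm => ?_⟩
  have l1 : N.e (vv n t x y (2 * k + 2) 2) i = N.e (vv n t x y 0 1) i := by
    have h := N.lsq h2 hi3 hi4 (j := 4) (Or.inr rfl) ht hx hy (u := 2 * k + 2) (v := 1) hmem
      (loop_mem hk hkm (by simp; omega))
    rw [hup, up4, N.i41 t' x' y' _ ht' hx' hy' hc1' hc2' (Or.inl (by omega)) (by omega) (by omega),
      N.i41 t x y _ ht hx hy hc1 hc2 (Or.inl (by omega)) (by omega) (by omega), mul_one,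
      one_mul] at h
    rw [show (2 : ℕ) = 1 + 1 from rfl, ← bus (2 * k + 2) (by omega)]
    exact h.symm
  have l2 : N.e (vv n t x y (2 * k + 3) 2) i = N.e (vv n t x y 0 1) i := by
    have h := N.lsq h2 hi3 hi4 (j := 3) (Or.inl rfl) ht hx hy (u := 2 * k + 2) (v := 2) hmem
      (loop_mem hk hkm (by simp; omega))
    rw [hup, up3, N.i32 t' x' y' _ ht' hx' hy' hc1' hc2' (by omega) (by omega) (by omega),
      N.i32 t x y _ ht hx hy hc1 hc2 (by omega) (by omega) (by omega), mul_one,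
      one_mul] at h
    rw [← l1]
    exact h.symm
  refine ⟨l1, l2, ?_⟩
  have h := N.lsq h2 hi3 hi4 (j := 4) (Or.inr rfl) ht hx hy (u := 2 * k + 3) (v := 1) hmem
    (loop_mem hk hkm (by simp; omega))
  rw [hup, up4, bus (2 * k + 3) (by omega), l2] at h
  exact h

theorem level_vertex [NeZero n] (h2 : 2 * c.m + 5 ≤ n) {i : Fin 5} (hi3 : i ≠ 3) (hi4 : i ≠ 4)
    {t x y t' x' y' : ℕ} (ht : t < n) (hx : x < n) (hy : y < n) (ht' : t' < n) (hx' : x' < n)
    (hy' : y' < n) (hup : ∀ u v, up (vv n t x y u v) i = vv n t' x' y' u v)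
    (hc1 : ¬ Cap1 c t x y) (hc2 : ¬ Cap2 c t x y) (hc1' : ¬ Cap1 c t' x' y')
    (hc2' : ¬ Cap2 c t' x' y') {J : Finset ℕ}
    (hmem : ∀ U V, Gam c.m J U V → InK true c (2 * t + (decide (0 = i)).toNat)
      (2 * x + (decide (1 = i)).toNat) (2 * y + (decide (2 = i)).toNat) U V)
    {u v : ℕ} (h : Gam c.m J (2 * u) (2 * v)) :
    N.e (vv n t x y u v) i = N.e (vv n t x y 0 1) i := by
  obtain ⟨l1, l2⟩ := N.level h2 hi3 hi4 ht hx hy ht' hx' hy' hup hc1 hc2 hc1' hc2' hmem
  rcases h with h | ⟨k, hk, hkm, h⟩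
  · unfold onL at h
    have hv : v = 1 := by omega
    subst hv
    exact l1 u (by omega)
  · unfold onLoop at h
    have hu : u = 2 * k + 2 ∨ u = 2 * k + 3 := by omega
    have hv : v = 1 ∨ v = 2 := by omega
    rcases hv with rfl | rfl
    · exact l1 u (by omega)
    · rcases hu with rfl | rfl
      · exact (l2 k hk hkm).1
      · exact (l2 k hk hkm).2.1

theorem mod_up0 {t x y : ℕ} (u v : ℕ) : up (vv n t x y u v) 0 = vv n ((t + 1) % n) x y u v := by
  rw [up0]
  simp [vv]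
theorem mod_up1 {t x y : ℕ} (u v : ℕ) : up (vv n t x y u v) 1 = vv n t ((x + 1) % n) y u v := by
  rw [up1]
  simp [vv]
theorem mod_up2 {t x y : ℕ} (u v : ℕ) : up (vv n t x y u v) 2 = vv n t x ((y + 1) % n) u v := by
  rw [up2]
  simp [vv]

/-! ### level 1 -/

theorem mem1 {t : ℕ} {J : Finset ℕ} (h : (t < c.T ∧ J = Finset.range c.m) ∨ J = c.J1) :
    ∀ U V, Gam c.m J U V → InK true c (2 * t + (decide ((0 : Fin 5) = 0)).toNat)
      (2 * 1 + (decide ((1 : Fin 5) = 0)).toNat) (2 * 0 + (decide ((2 : Fin 5) = 0)).toNat) U V := by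
  intro U V hG
  refine Or.inl ⟨by simp, by simp, ?_⟩
  rcases h with ⟨ht, rfl⟩ | rfl
  · exact Or.inl ⟨by simp; omega, hG⟩
  · exact Or.inr hG

theorem lev1 [NeZero n] (hc : c.Ok) (h1 : c.T + 3 ≤ n) (h2 : 2 * c.m + 5 ≤ n) {t u v : ℕ}
    (ht : t < n) (h : (t < c.T ∧ Gam c.m (Finset.range c.m) (2 * u) (2 * v)) ∨
      Gam c.m c.J1 (2 * u) (2 * v)) :
    N.e (vv n t 1 0 u v) 0 = if t + 1 = n then N.X0 else 1 := by
  have hn := NeZero.pos n
  rw [← N.a0 h2 (t := t) (x := 1) (y := 0) ht (by omega) (by omega)]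
  rcases h with ⟨hT, h⟩ | h
  · exact N.level_vertex h2 (i := 0) (by decide) (by decide) ht (by omega) (by omega)
      (Nat.mod_lt _ hn) (by omega) (by omega) (fun u v => mod_up0 u v)
      (fun h => by have := h.1; omega) (fun h => by have := h.2.1; omega)
      (fun h => by have := h.1; omega) (fun h => by have := h.2.1; omega)
      (mem1 (Or.inl ⟨hT, rfl⟩)) h
  · exact N.level_vertex h2 (i := 0) (by decide) (by decide) ht (by omega) (by omega)
      (Nat.mod_lt _ hn) (by omega) (by omega) (fun u v => mod_up0 u v)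
      (fun h => by have := h.1; omega) (fun h => by have := h.2.1; omega)
      (fun h => by have := h.1; omega) (fun h => by have := h.2.1; omega)
      (mem1 (Or.inr rfl)) h

theorem lev1r [NeZero n] (hc : c.Ok) (h1 : c.T + 3 ≤ n) (h2 : 2 * c.m + 5 ≤ n) {t k : ℕ}
    (ht : t < n) (hk : k < c.m) (h : t < c.T ∨ k ∈ c.J1) :
    N.e (vv n t 1 0 0 1) 0 * N.e (vv n ((t + 1) % n) 1 0 (2 * k + 3) 1) 4 =
      N.e (vv n t 1 0 (2 * k + 3) 1) 4 * N.e (vv n t 1 0 0 1) 0 := by
  have hn := NeZero.pos n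
  rcases h with hT | hJ
  · exact ((N.level h2 (i := 0) (by decide) (by decide) ht (by omega) (by omega)
      (Nat.mod_lt _ hn) (by omega) (by omega) (fun u v => mod_up0 u v)
      (fun h => by have := h.1; omega) (fun h => by have := h.2.1; omega)
      (fun h => by have := h.1; omega) (fun h => by have := h.2.1; omega)
      (mem1 (Or.inl ⟨hT, rfl⟩))).2 k (Finset.mem_range.2 hk) hk).2.2
  · exact ((N.level h2 (i := 0) (by decide) (by decide) ht (by omega) (by omega)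
      (Nat.mod_lt _ hn) (by omega) (by omega) (fun u v => mod_up0 u v)
      (fun h => by have := h.1; omega) (fun h => by have := h.2.1; omega)
      (fun h => by have := h.1; omega) (fun h => by have := h.2.1; omega)
      (mem1 (Or.inr rfl))).2 k hJ hk).2.2

theorem right1 [NeZero n] (hc : c.Ok) (h1 : c.T + 3 ≤ n) (h2 : 2 * c.m + 5 ≤ n)
    {t k : ℕ} (hk : k < c.m) (h : t ≤ c.T ∨ (t < n ∧ k ∈ c.J1)) :
    N.e (vv n t 1 0 (2 * k + 3) 1) 4 = N.gam k := by
  have hT := hc.hT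
  have key : ∀ t, (t ≤ c.T ∨ (t < n ∧ k ∈ c.J1)) →
      N.e (vv n t 1 0 (2 * k + 3) 1) 4 = N.e (vv n 0 1 0 (2 * k + 3) 1) 4 := by
    intro t
    induction t with
    | zero => intro _; rfl
    | succ t ih =>
      intro h
      have htn : t + 1 < n := by omega
      have hs := N.lev1r hc h1 h2 (t := t) (by omega) hk (by
        rcases h with h | h
        · exact Or.inl (by omega)
        · exact Or.inr h.2)
      rw [Nat.mod_eq_of_lt htn, N.a0 h2 (by omega) (by omega) (by omega), if_neg (by omega),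
        one_mul, mul_one] at hs
      rw [hs]
      apply ih
      rcases h with h | h
      · exact Or.inl (by omega)
      · exact Or.inr ⟨by omega, h.2⟩
  rw [key t h]
  exact (key 1 (Or.inl (by omega))).symm

theorem commJ1 [NeZero n] (hc : c.Ok) (h1 : c.T + 3 ≤ n) (h2 : 2 * c.m + 5 ≤ n)
    {k : ℕ} (hk : k < c.m) (h : k ∈ c.J1) : Commute N.X0 (N.gam k) := by
  have hs := N.lev1r hc h1 h2 (t := n - 1) (by omega) hk (Or.inr h)
  rw [show n - 1 + 1 = n by omega, Nat.mod_self, N.a0 h2 (by omega) (by omega) (by omega),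
    if_pos (by omega), N.right1 hc h1 h2 hk (Or.inl (by omega)),
    N.right1 hc h1 h2 hk (Or.inr ⟨by omega, h⟩)] at hs
  exact hs

/-! ### level 2 -/

theorem mem2 {x : ℕ} :
    ∀ U V, Gam c.m c.J2 U V → InK true c (2 * 2 + (decide ((0 : Fin 5) = 1)).toNat)
      (2 * x + (decide ((1 : Fin 5) = 1)).toNat) (2 * 0 + (decide ((2 : Fin 5) = 1)).toNat) U V := by
  intro U V hG
  exact Or.inr (Or.inl ⟨by simp, by simp, hG⟩)

theorem lev2 [NeZero n] (hc : c.Ok) (h1 : c.T + 3 ≤ n) (h2 : 2 * c.m + 5 ≤ n) {x u v : ℕ}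
    (hx : x < n) (h : Gam c.m c.J2 (2 * u) (2 * v)) :
    N.e (vv n 2 x 0 u v) 1 = if x + 1 = n then N.X1 else 1 := by
  have hn := NeZero.pos n
  rw [← N.a1 h2 (t := 2) (x := x) (y := 0) (by omega) hx (by omega)]
  exact N.level_vertex h2 (i := 1) (by decide) (by decide) (by omega) hx (by omega)
      (by omega) (Nat.mod_lt _ hn) (by omega) (fun u v => mod_up1 u v)
      (fun h => by have := h.2.2.1; omega) (fun h => by have := h.2.1; omega)
      (fun h => by have := h.2.2.1; omega) (fun h => by have := h.2.1; omega)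
      mem2 h

theorem lev2r [NeZero n] (hc : c.Ok) (h1 : c.T + 3 ≤ n) (h2 : 2 * c.m + 5 ≤ n) {x k : ℕ}
    (hx : x < n) (hk : k < c.m) (h : k ∈ c.J2) :
    N.e (vv n 2 x 0 0 1) 1 * N.e (vv n 2 ((x + 1) % n) 0 (2 * k + 3) 1) 4 =
      N.e (vv n 2 x 0 (2 * k + 3) 1) 4 * N.e (vv n 2 x 0 0 1) 1 := by
  have hn := NeZero.pos n
  exact ((N.level h2 (i := 1) (by decide) (by decide) (by omega) hx (by omega)
      (by omega) (Nat.mod_lt _ hn) (by omega) (fun u v => mod_up1 u v)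
      (fun h => by have := h.2.2.1; omega) (fun h => by have := h.2.1; omega)
      (fun h => by have := h.2.2.1; omega) (fun h => by have := h.2.1; omega)
      mem2).2 k h hk).2.2

theorem right2 [NeZero n] (hc : c.Ok) (h1 : c.T + 3 ≤ n) (h2 : 2 * c.m + 5 ≤ n)
    {x k : ℕ} (hk : k < c.m) (hx : x < n) (h : k ∈ c.J2) :
    N.e (vv n 2 x 0 (2 * k + 3) 1) 4 = N.gam k := by
  have hT := hc.hT
  have key : ∀ x, x < n →
      N.e (vv n 2 x 0 (2 * k + 3) 1) 4 = N.e (vv n 2 0 0 (2 * k + 3) 1) 4 := by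
    intro x
    induction x with
    | zero => intro _; rfl
    | succ x ih =>
      intro hx
      have hs := N.lev2r hc h1 h2 (x := x) (by omega) hk h
      rw [Nat.mod_eq_of_lt hx, N.a1 h2 (by omega) (by omega) (by omega), if_neg (by omega),
        one_mul, mul_one] at hs
      rw [hs]
      exact ih (by omega)
  rw [key x hx, ← key 1 (by omega)]
  exact N.right1 hc h1 h2 hk (Or.inl (by omega))

theorem commJ2 [NeZero n] (hc : c.Ok) (h1 : c.T + 3 ≤ n) (h2 : 2 * c.m + 5 ≤ n)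
    {k : ℕ} (hk : k < c.m) (h : k ∈ c.J2) : Commute N.X1 (N.gam k) := by
  have hs := N.lev2r hc h1 h2 (x := n - 1) (by omega) hk h
  rw [show n - 1 + 1 = n by omega, Nat.mod_self, N.a1 h2 (by omega) (by omega) (by omega),
    if_pos (by omega), N.right2 hc h1 h2 hk (by omega) h,
    N.right2 hc h1 h2 hk (by omega) h] at hs
  exact hs

/-! ### level 3 -/

theorem mem3 {y : ℕ} :
    ∀ U V, Gam c.m (Finset.range c.m) U V → InK true c (2 * 1 + (decide ((0 : Fin 5) = 2)).toNat)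
      (2 * 1 + (decide ((1 : Fin 5) = 2)).toNat) (2 * y + (decide ((2 : Fin 5) = 2)).toNat) U V := by
  intro U V hG
  exact Or.inr (Or.inr (Or.inl ⟨by simp, by simp, hG⟩))

theorem lev3 [NeZero n] (hc : c.Ok) (h1 : c.T + 3 ≤ n) (h2 : 2 * c.m + 5 ≤ n) {y u v : ℕ}
    (hy : y < n) (h : Gam c.m (Finset.range c.m) (2 * u) (2 * v)) :
    N.e (vv n 1 1 y u v) 2 = if y + 1 = n then N.Z else 1 := by
  have hn := NeZero.pos n
  rw [← N.a2 h2 (t := 1) (x := 1) (y := y) (by omega) (by omega) hy]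
  exact N.level_vertex h2 (i := 2) (by decide) (by decide) (by omega) (by omega) hy
      (by omega) (by omega) (Nat.mod_lt _ hn) (fun u v => mod_up2 u v)
      (fun h => by have := h.1; omega) (fun h => by have := h.2.2.1; omega)
      (fun h => by have := h.1; omega) (fun h => by have := h.2.2.1; omega)
      mem3 h

theorem lev3r [NeZero n] (hc : c.Ok) (h1 : c.T + 3 ≤ n) (h2 : 2 * c.m + 5 ≤ n) {y k : ℕ}
    (hy : y < n) (hk : k < c.m) :
    N.e (vv n 1 1 y 0 1) 2 * N.e (vv n 1 1 ((y + 1) % n) (2 * k + 3) 1) 4 =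
      N.e (vv n 1 1 y (2 * k + 3) 1) 4 * N.e (vv n 1 1 y 0 1) 2 := by
  have hn := NeZero.pos n
  exact ((N.level h2 (i := 2) (by decide) (by decide) (by omega) (by omega) hy
      (by omega) (by omega) (Nat.mod_lt _ hn) (fun u v => mod_up2 u v)
      (fun h => by have := h.1; omega) (fun h => by have := h.2.2.1; omega)
      (fun h => by have := h.1; omega) (fun h => by have := h.2.2.1; omega)
      mem3).2 k (Finset.mem_range.2 hk) hk).2.2

theorem right3 [NeZero n] (hc : c.Ok) (h1 : c.T + 3 ≤ n) (h2 : 2 * c.m + 5 ≤ n)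
    {y k : ℕ} (hk : k < c.m) (hy : y < n) :
    N.e (vv n 1 1 y (2 * k + 3) 1) 4 = N.gam k := by
  induction y with
  | zero => rfl
  | succ y ih =>
    have hs := N.lev3r hc h1 h2 (y := y) (by omega) hk
    rw [Nat.mod_eq_of_lt hy, N.a2 h2 (by omega) (by omega) (by omega), if_neg (by omega),
      one_mul, mul_one] at hs
    rw [hs]
    exact ih (by omega)

theorem commZ [NeZero n] (hc : c.Ok) (h1 : c.T + 3 ≤ n) (h2 : 2 * c.m + 5 ≤ n)
    {k : ℕ} (hk : k < c.m) : Commute N.Z (N.gam k) := by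
  have hs := N.lev3r hc h1 h2 (y := n - 1) (by omega) hk
  rw [show n - 1 + 1 = n by omega, Nat.mod_self, N.a2 h2 (by omega) (by omega) (by omega),
    if_pos (by omega), N.right3 hc h1 h2 hk (by omega),
    N.right3 hc h1 h2 hk (by omega)] at hs
  exact hs

/-! ### level 5 -/

theorem mem5 (hm : 1 ≤ c.m) :
    ∀ U V, Gam c.m {c.m - 1} U V → InK true c (2 * 0 + (decide ((0 : Fin 5) = 1)).toNat)
      (2 * 0 + (decide ((1 : Fin 5) = 1)).toNat) (2 * 0 + (decide ((2 : Fin 5) = 1)).toNat) U V := by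
  intro U V hG
  refine Or.inr (Or.inr (Or.inr (Or.inr (Or.inl ⟨by simp, by simp, by simp, ?_⟩))))
  rcases hG with h | ⟨i, hi, _, h⟩
  · exact Or.inl h
  · rw [Finset.mem_singleton] at hi
    subst hi
    exact Or.inr h

theorem lev5 [NeZero n] (hc : c.Ok) (h1 : c.T + 3 ≤ n) (h2 : 2 * c.m + 5 ≤ n) {u v : ℕ}
    (h : onL c.m (2 * u) (2 * v) ∨ onLoop (c.m - 1) (2 * u) (2 * v)) :
    N.e (vv n 0 0 0 u v) 1 = 1 := by
  have hm := hc.hm
  have hn := NeZero.pos n
  have e : N.e (vv n 0 0 0 0 1) 1 = 1 := by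
    rw [N.a1 h2 (by omega) (by omega) (by omega), if_neg (by omega)]
  rw [← e]
  have hG : Gam c.m {c.m - 1} (2 * u) (2 * v) := by
    rcases h with h | h
    · exact Or.inl h
    · exact Or.inr ⟨c.m - 1, by simp, by omega, h⟩
  exact N.level_vertex h2 (i := 1) (by decide) (by decide) (by omega) (by omega) (by omega)
      (by omega) (by omega) (by omega) (fun u v => up1)
      (fun h => by have := h.1; omega) (fun h => by have := h.1; omega)
      (fun h => by have := h.1; omega) (fun h => by have := h.2.1; omega)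
      (mem5 hm) hG

theorem right5 [NeZero n] (hc : c.Ok) (h1 : c.T + 3 ≤ n) (h2 : 2 * c.m + 5 ≤ n)
    {x : ℕ} (hx : x ≤ 1) :
    N.e (vv n 0 x 0 (2 * c.m + 1) 1) 4 = N.gam (c.m - 1) := by
  have hm := hc.hm
  have hn := NeZero.pos n
  have hT := hc.hT
  have hr := N.right1 hc h1 h2 (t := 0) (k := c.m - 1) (by omega) (Or.inl (by omega))
  rw [show 2 * (c.m - 1) + 3 = 2 * c.m + 1 by omega] at hr
  have hx' : x = 0 ∨ x = 1 := by omega
  rcases hx' with rfl | rfl
  · have h := ((N.level h2 (i := 1) (t := 0) (x := 0) (y := 0) (by decide) (by decide) (by omega)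
      (by omega) (by omega)
      (by omega) (by omega) (by omega) (fun u v => up1)
      (fun h => by have := h.1; omega) (fun h => by have := h.1; omega)
      (fun h => by have := h.1; omega) (fun h => by have := h.2.1; omega)
      (mem5 hm)).2 (c.m - 1) (by simp) (by omega)).2.2
    rw [N.a1 h2 (by omega) (by omega) (by omega), if_neg (by omega), one_mul, mul_one,
      show 2 * (c.m - 1) + 3 = 2 * c.m + 1 by omega] at h
    rw [← h]
    exact hr
  · exact hr

/-! ### the planar region -/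

theorem psq [NeZero n] (h2 : 2 * c.m + 5 ≤ n) {u v : ℕ} (hu : u ≤ 2 * c.m + 1) (hv : v ≤ 2)
    (h : ¬ (u = 2 * c.m ∧ v = 1)) :
    N.e (vv n 0 0 0 u v) 3 * N.e (vv n 0 0 0 (u + 1) v) 4 =
      N.e (vv n 0 0 0 u v) 4 * N.e (vv n 0 0 0 u (v + 1)) 3 := by
  have hn := NeZero.pos n
  have hs := N.sq (i := 3) (j := 4) (by decide) (t := 0) (x := 0) (y := 0) (u := u) (v := v)
    (by omega) (by omega) (by omega) (by omega) (by omega)
    (of_inK (by simp; omega) (by simp; omega)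
      (Or.inr (Or.inr (Or.inr (Or.inl ⟨by simp, by simp, by simp, by simp; omega, by simp; omega,
        by simp; omega⟩)))))
  rw [up3, up4] at hs
  exact hs

theorem planar_all [NeZero n] (hc : c.Ok) (h1 : c.T + 3 ≤ n) (h2 : 2 * c.m + 5 ≤ n) :
    (∀ u v, u ≤ 2 * c.m + 1 → v ≤ 3 → N.e (vv n 0 0 0 u v) 3 = 1) ∧
    (∀ u, u ≤ 2 * c.m + 2 → N.e (vv n 0 0 0 u 0) 4 = 1) ∧
    (∀ u, u ≤ 2 * c.m → N.e (vv n 0 0 0 u 1) 4 = 1) ∧
    (∀ u, u ≤ 2 * c.m + 2 → N.e (vv n 0 0 0 u 2) 4 = 1) ∧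
    N.Gb = N.e (vv n 0 0 0 (2 * c.m + 1) 1) 4 := by
  have hm := hc.hm
  have hn : 0 < n := NeZero.pos n
  have nc1 : ¬ Cap1 c 0 0 0 := fun h => by have := h.1; omega
  have nc2 : ¬ Cap2 c 0 0 0 := fun h => by have := h.1; omega
  have h30 : ∀ u, u ≤ 2 * c.m + 1 → N.e (vv n 0 0 0 u 0) 3 = 1 := fun u hu =>
    N.b3' 0 0 0 hu (Or.inl rfl)
  have h33 : ∀ u, u ≤ 2 * c.m + 1 → N.e (vv n 0 0 0 u 3) 3 = 1 := fun u hu =>
    N.b3' 0 0 0 hu (Or.inr rfl)
  have h31 : ∀ u, u ≤ 2 * c.m → N.e (vv n 0 0 0 u 1) 3 = 1 := fun u hu =>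
    N.i31 0 0 0 u hn hn hn nc1 nc2 hu
  have h40 : ∀ u, u ≤ 2 * c.m + 1 → N.e (vv n 0 0 0 u 0) 4 = 1 := by
    intro u
    induction u with
    | zero => intro _; exact N.bl' 0 0 0 (by omega)
    | succ u ih =>
      intro hu
      have hs := N.psq h2 (u := u) (v := 0) (by omega) (by omega) (by omega)
      rw [h30 u (by omega), ih (by omega), one_mul, one_mul] at hs
      rw [hs]
      exact h31 u (by omega)
  have h40' : ∀ u, u ≤ 2 * c.m + 2 → N.e (vv n 0 0 0 u 0) 4 = 1 := by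
    intro u hu
    rcases Nat.lt_or_ge u (2 * c.m + 2) with h | h
    · exact h40 u (by omega)
    · have : u = 2 * c.m + 2 := by omega
      subst this
      exact N.br' 0 0 0 (Or.inl rfl)
  have h31' : ∀ u, u ≤ 2 * c.m + 1 → N.e (vv n 0 0 0 u 1) 3 = 1 := by
    intro u hu
    rcases Nat.lt_or_ge u (2 * c.m + 1) with h | h
    · exact h31 u (by omega)
    · have : u = 2 * c.m + 1 := by omega
      subst this
      have hs := N.psq h2 (u := 2 * c.m + 1) (v := 0) (by omega) (by omega) (by omega)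
      rw [h30 _ (by omega), h40' _ (by omega), h40' _ (by omega), one_mul, one_mul] at hs
      exact hs.symm
  have h41 : ∀ u, u ≤ 2 * c.m → N.e (vv n 0 0 0 u 1) 4 = 1 := by
    intro u hu
    rcases Nat.eq_zero_or_pos u with rfl | hu0
    · exact N.bl' 0 0 0 (by omega)
    by_cases hpar : u % 2 = 0 ∨ u = 1
    · exact N.i41 0 0 0 u hn hn hn nc1 nc2 hpar hu0 (by omega)
    · obtain ⟨w, rfl⟩ : ∃ w, u = w + 1 := ⟨u - 1, by omega⟩
      have hs := N.psq h2 (u := w) (v := 1) (by omega) (by omega) (by omega)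
      rw [h31 w (by omega), N.i41 0 0 0 w hn hn hn nc1 nc2 (Or.inl (by omega)) (by omega)
        (by omega), one_mul, one_mul, N.i32 0 0 0 w hn hn hn nc1 nc2 (by omega) (by omega)
        (by omega)] at hs
      exact hs
  have h32 : ∀ u, u ≤ 2 * c.m → N.e (vv n 0 0 0 u 2) 3 = 1 := by
    intro u hu
    rcases Nat.lt_or_ge u (2 * c.m) with h | h
    · have hs := N.psq h2 (u := u) (v := 1) (by omega) (by omega) (by omega)
      rw [h31 u (by omega), h41 u (by omega), h41 (u + 1) (by omega), one_mul, one_mul] at hs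
      exact hs.symm
    · have : u = 2 * c.m := by omega
      subst this
      exact N.i32 0 0 0 _ hn hn hn nc1 nc2 (by omega) (by omega) (by omega)
  have h42 : ∀ u, u ≤ 2 * c.m + 1 → N.e (vv n 0 0 0 u 2) 4 = 1 := by
    intro u
    induction u with
    | zero => intro _; exact N.bl' 0 0 0 (by omega)
    | succ u ih =>
      intro hu
      have hs := N.psq h2 (u := u) (v := 2) (by omega) (by omega) (by omega)
      rw [h32 u (by omega), ih (by omega), one_mul, one_mul] at hs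
      rw [hs]
      exact h33 u (by omega)
  have h42' : ∀ u, u ≤ 2 * c.m + 2 → N.e (vv n 0 0 0 u 2) 4 = 1 := by
    intro u hu
    rcases Nat.lt_or_ge u (2 * c.m + 2) with h | h
    · exact h42 u (by omega)
    · have : u = 2 * c.m + 2 := by omega
      subst this
      exact N.br' 0 0 0 (Or.inr rfl)
  have h32' : ∀ u, u ≤ 2 * c.m + 1 → N.e (vv n 0 0 0 u 2) 3 = 1 := by
    intro u hu
    rcases Nat.lt_or_ge u (2 * c.m + 1) with h | h
    · exact h32 u (by omega)
    · have : u = 2 * c.m + 1 := by omega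
      subst this
      have hs := N.psq h2 (u := 2 * c.m + 1) (v := 2) (by omega) (by omega) (by omega)
      rw [h42' _ (by omega), h42' _ (by omega), mul_one, one_mul] at hs
      rw [hs]
      exact h33 _ (by omega)
  refine ⟨?_, h40', h41, h42', ?_⟩
  · intro u v hu hv
    have hv' : v = 0 ∨ v = 1 ∨ v = 2 ∨ v = 3 := by omega
    rcases hv' with rfl | rfl | rfl | rfl
    · exact h30 u hu
    · exact h31' u hu
    · exact h32' u hu
    · exact h33 u hu
  · have hs := N.psq h2 (u := 2 * c.m + 1) (v := 1) (by omega) (by omega) (by omega)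
    rw [h31' _ (by omega), h32' _ (by omega), mul_one, one_mul] at hs
    exact hs

theorem gam_last [NeZero n] (hc : c.Ok) (h1 : c.T + 3 ≤ n) (h2 : 2 * c.m + 5 ≤ n) :
    N.Gb = N.gam (c.m - 1) := by
  rw [(N.planar_all hc h1 h2).2.2.2.2]
  exact N.right5 hc h1 h2 (x := 0) (by omega)

theorem planar3 [NeZero n] (hc : c.Ok) (h1 : c.T + 3 ≤ n) (h2 : 2 * c.m + 5 ≤ n)
    {u v : ℕ} (hu : u ≤ 2 * c.m + 1) (hv : v ≤ 3) :
    N.e (vv n 0 0 0 u v) 3 = 1 :=
  (N.planar_all hc h1 h2).1 u v hu hv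

theorem planar4 [NeZero n] (hc : c.Ok) (h1 : c.T + 3 ≤ n) (h2 : 2 * c.m + 5 ≤ n)
    {u v : ℕ} (hu : u ≤ 2 * c.m + 2) (hv : v ≤ 2) :
    N.e (vv n 0 0 0 u v) 4 =
      if v = 1 ∧ (u = 2 * c.m + 1 ∨ u = 2 * c.m + 2) then N.gam (c.m - 1) else 1 := by
  obtain ⟨_, k0, k1, k2, _⟩ := N.planar_all hc h1 h2
  split_ifs with h
  · obtain ⟨rfl, rfl | rfl⟩ := h
    · exact N.right5 hc h1 h2 (x := 0) (by omega)
    · exact N.gam_last hc h1 h2
  · have hv' : v = 0 ∨ v = 1 ∨ v = 2 := by omega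
    rcases hv' with rfl | rfl | rfl
    · exact k0 u hu
    · exact k1 u (by omega)
    · exact k2 u hu

end NC

end Pool.Agent.FM
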