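import Pool.Agent.FM.C07d

/-!
# Block C07, part e: the caps
-/

open Set

namespace Pool.Agent.FM

namespace NC

variable {c : Cfg} {n : ℕ} {H : Type} [Group H] (N : NC c n H)

/-- cells of the main cap -/
theorem memC1 {t y u v : ℕ} (ht : 6 ≤ t) (hT : t ≤ 2 * c.T) (hy : y = 0) (hu : u ≤ 4 * c.m + 2)
    (hv : 2 ≤ v) (hv' : v ≤ 4) (h : ¬ (t % 2 = 1 ∧ v = 3 ∧ 0 < u)) : InL c t 4 y u v :=
  of_inK (by omega) (by omega)
    (Or.inr (Or.inr (Or.inr (Or.inr (Or.inr (Or.inr (Or.inr (Or.inr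
      ⟨ht, hT, hy, rfl, hu, hv, hv', fun _ => h⟩))))))))

/-- cells of the relator cap -/
theorem memC2 {t u v : ℕ} (ht : 8 ≤ t) (hT : t + 2 ≤ 2 * c.T) (hu : 2 ≤ u) (hu' : u ≤ 4 * c.m + 2)
    (hv : 2 ≤ v) (hv' : v ≤ 4) (h : ¬ (t % 2 = 1 ∧ v = 3 ∧ 2 < u)) : InL c t 2 2 u v :=
  of_inK (by omega) (by omega)
    (Or.inr (Or.inr (Or.inr (Or.inr (Or.inr (Or.inr (Or.inl
      ⟨ht, hT, rfl, rfl, hu, hu', hv, hv', fun _ => h⟩)))))))

/-- cells of the base fin -/
theorem memB {t y : ℕ} (ht : 8 ≤ t) (hT : t + 2 ≤ 2 * c.T) (hy : y ≤ 2) : InL c t 2 y 2 2 :=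
  of_inK (by omega) (by omega)
    (Or.inr (Or.inr (Or.inr (Or.inr (Or.inr (Or.inl
      ⟨ht, hT, rfl, hy, Or.inr ⟨rfl, rfl⟩⟩))))))

theorem cap1_v [NeZero n] (_hc : c.Ok) (h1 : c.T + 3 ≤ n) (h2 : 2 * c.m + 5 ≤ n) {t u : ℕ}
    (ht : 3 ≤ t) (hT : t ≤ c.T) (hu : u ≤ 2 * c.m + 1) : N.e (vv n t 2 0 u 1) 4 = 1 := by
  induction u with
  | zero => exact N.bl' t 2 0 (by omega)
  | succ u ih =>
    have hs := N.sq (i := 3) (j := 4) (by decide) (t := t) (x := 2) (y := 0) (u := u) (v := 1)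
      (by omega) (by omega) (by omega) (by omega) (by omega)
      (memC1 (by simp; omega) (by simp; omega) (by simp) (by simp; omega) (by simp) (by simp)
        (by simp))
    rw [up3, up4, N.mc t u 1 ht hT (by omega) (Or.inl rfl),
      N.mc t u (1 + 1) ht hT (by omega) (Or.inr rfl), ih (by omega), one_mul, one_mul] at hs
    exact hs

theorem cap1_t [NeZero n] (_hc : c.Ok) (h1 : c.T + 3 ≤ n) (h2 : 2 * c.m + 5 ≤ n) {t u v : ℕ}
    (ht : 3 ≤ t) (hT : t < c.T) (hu : u ≤ 2 * c.m + 1) (hv : v = 1 ∨ v = 2) :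
    N.e (vv n t 2 0 u v) 0 = 1 := by
  induction u with
  | zero =>
    rw [N.bound h2 (by decide) (by decide) t 2 0 (by omega) (by omega) (Or.inl rfl),
      N.a0 h2 (by omega) (by omega) (by omega), if_neg (by omega)]
  | succ u ih =>
    have hs := N.sq (i := 0) (j := 3) (by decide) (t := t) (x := 2) (y := 0) (u := u) (v := v)
      (by omega) (by omega) (by omega) (by omega) (by omega)
      (memC1 (by simp; omega) (by simp; omega) (by simp) (by simp; omega) (by simp; omega)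
        (by simp; omega) (by simp; omega))
    rw [up0, up3, N.mc t u v ht (by omega) (by omega) hv,
      N.mc (t + 1) u v (by omega) (by omega) (by omega) hv, ih (by omega), one_mul, one_mul] at hs
    exact hs.symm

theorem cap2_v [NeZero n] (_hc : c.Ok) (h1 : c.T + 3 ≤ n) (h2 : 2 * c.m + 5 ≤ n) {t u : ℕ}
    (ht : 4 ≤ t) (hT : t < c.T) (hu1 : 1 ≤ u) (hu : u ≤ 2 * c.m + 1) :
    N.e (vv n t 1 1 u 1) 4 = 1 := by
  induction u, hu1 using Nat.le_induction with
  | base => exact N.rc4 t ht hT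
  | succ u hu1 ih =>
    have hs := N.sq (i := 3) (j := 4) (by decide) (t := t) (x := 1) (y := 1) (u := u) (v := 1)
      (by omega) (by omega) (by omega) (by omega) (by omega)
      (memC2 (by simp; omega) (by simp; omega) (by simp; omega) (by simp; omega) (by simp)
        (by simp) (by simp))
    rw [up3, up4, N.rc3 t u 1 ht hT hu1 (by omega) (Or.inl rfl),
      N.rc3 t u (1 + 1) ht hT hu1 (by omega) (Or.inr rfl), ih (by omega), one_mul, one_mul] at hs
    exact hs

theorem cap2_t [NeZero n] (hc : c.Ok) (h1 : c.T + 3 ≤ n) (h2 : 2 * c.m + 5 ≤ n) {t u v : ℕ}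
    (ht : 4 ≤ t) (hT : t + 1 < c.T) (hu1 : 1 ≤ u) (hu : u ≤ 2 * c.m + 1) (hv : v = 1 ∨ v = 2) :
    N.e (vv n t 1 1 u v) 0 = 1 := by
  have hm := hc.hm
  have b1 : N.e (vv n t 1 1 1 1) 0 = 1 := by
    have hs := N.sq (i := 0) (j := 2) (by decide) (t := t) (x := 1) (y := 0) (u := 1) (v := 1)
      (by omega) (by omega) (by omega) (by omega) (by omega)
      (memB (by simp; omega) (by simp; omega) (by simp))
    rw [up0, up2, N.rc2 t ht (by omega), N.rc2 (t + 1) (by omega) (by omega), mul_one, one_mul,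
      N.lev1 hc h1 h2 (t := t) (u := 1) (v := 1) (by omega)
        (Or.inl ⟨by omega, Or.inl ⟨by omega, rfl⟩⟩), if_neg (by omega)] at hs
    exact hs.symm
  have b2 : N.e (vv n t 1 1 1 2) 0 = 1 := by
    have hs := N.sq (i := 0) (j := 4) (by decide) (t := t) (x := 1) (y := 1) (u := 1) (v := 1)
      (by omega) (by omega) (by omega) (by omega) (by omega)
      (memC2 (by simp; omega) (by simp; omega) (by simp) (by simp) (by simp)
        (by simp) (by simp))
    rw [up0, up4, N.rc4 t ht (by omega), N.rc4 (t + 1) (by omega) (by omega), b1, mul_one,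
      one_mul] at hs
    exact hs.symm
  induction u, hu1 using Nat.le_induction with
  | base =>
    rcases hv with rfl | rfl
    · exact b1
    · exact b2
  | succ u hu1 ih =>
    have hs := N.sq (i := 0) (j := 3) (by decide) (t := t) (x := 1) (y := 1) (u := u) (v := v)
      (by omega) (by omega) (by omega) (by omega) (by omega)
      (memC2 (by simp; omega) (by simp; omega) (by simp; omega) (by simp; omega) (by simp; omega)
        (by simp; omega) (by simp; omega))
    rw [up0, up3, N.rc3 t u v ht (by omega) hu1 (by omega) hv,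
      N.rc3 (t + 1) u v (by omega) (by omega) hu1 (by omega) hv, ih (by omega), one_mul,
      one_mul] at hs
    exact hs.symm

end NC

end Pool.Agent.FM
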