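import Pool.Agent.FM.C07e

/-!
# Block C07, part f: the fins
-/

open Set

namespace Pool.Agent.FM

namespace NC

variable {c : Cfg} {n : ℕ} {H : Type} [Group H] (N : NC c n H)

/-- vertices of the graph in doubled coordinates -/
theorem gam_of_isGV {p : ℕ × ℕ} (hp : IsGV c.m p) : Gam c.m (Finset.range c.m) (2 * p.1) (2 * p.2) := by
  rcases hp with ⟨h1, h2⟩ | ⟨i, hi, h1, h2⟩
  · left
    unfold onL
    omega
  · right
    refine ⟨i, Finset.mem_range.mpr hi, hi, ?_⟩
    unfold onLoop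
    omega

theorem isGV_bd {m : ℕ} {p : ℕ × ℕ} (hp : IsGV m p) : p.1 ≤ 2 * m + 1 ∧ (p.2 = 1 ∨ p.2 = 2) := by
  rcases hp with ⟨h1, h2⟩ | ⟨i, hi, h1, h2⟩
  · exact ⟨h1, Or.inl h2⟩
  · exact ⟨by omega, Or.inr h2⟩

theorem stepLab_symm {γ : ℕ → H} (p q : ℕ × ℕ) : stepLab γ p q = (stepLab γ q p)⁻¹ := by
  unfold stepLab
  by_cases h : p.1 = q.1
  · rw [h]
    by_cases h2 : q.1 % 2 = 1 ∧ 3 ≤ q.1
    · by_cases h3 : p.2 = 1 ∧ q.2 = 2
      · have h4 : ¬ (q.2 = 1 ∧ p.2 = 2) := by omega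
        have h5 : q.2 = 2 ∧ p.2 = 1 := ⟨h3.2, h3.1⟩
        simp [h2.1, h2.2, h3.1, h3.2]
      · by_cases h4 : p.2 = 2 ∧ q.2 = 1
        · simp [h2.1, h2.2, h4.1, h4.2]
        · have h5 : ¬ (q.2 = 1 ∧ p.2 = 2) := by omega
          have h6 : ¬ (q.2 = 2 ∧ p.2 = 1) := by omega
          simp [h2.1, h2.2, h3, h4, h5, h6]
    · simp [h2]
  · have h' : ¬ q.1 = p.1 := fun h2 => h h2.symm
    simp [h, h']

theorem stepLab_self {γ : ℕ → H} (p : ℕ × ℕ) : stepLab γ p p = 1 := by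
  unfold stepLab
  split_ifs <;> first | rfl | omega

/-- a step of a walk over an edge of the graph, direction `x`, level `(x, y) = (1, 0)` -/
theorem stepF [NeZero n] (hc : c.Ok) (h1 : c.T + 3 ≤ n) (h2 : 2 * c.m + 5 ≤ n) {t : ℕ}
    (ht : 3 ≤ t) (hT : t ≤ c.T) {p q : ℕ × ℕ} (hpq : GE c.m p q)
    (hw : (c.f (t - 1) = p ∧ c.f t = q) ∨ (c.f (t - 1) = q ∧ c.f t = p)) :
    N.e (vv n t 1 0 q.1 q.2) 1 = (stepLab N.gam p q)⁻¹ * N.e (vv n t 1 0 p.1 p.2) 1 := by
  have hC1 : ¬ Cap1 c t 1 0 := fun h => by have := h.1; omega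
  have hC2 : ¬ Cap2 c t 1 0 := fun h => by have := h.2.1; omega
  have hm := hc.hm
  have htt : (2 * t) % 2 = 0 := by omega
  have htt2 : (2 * t) / 2 = t := by omega
  obtain ⟨p1, p2⟩ := p
  obtain ⟨q1, q2⟩ := q
  rcases hpq with ⟨e1, e2, e3, e4⟩ | ⟨i, hi, e1, e2, e3, e4⟩ | ⟨i, hi, e1, e2⟩
  · simp only at e1 e2 e3 e4
    subst e1 e2 e3
    have hon : onW c.f (2 * t) (2 * p1 + 1) (2 * 1) := by
      unfold onW
      rw [if_neg (by omega), htt2]
      rcases hw with ⟨ha, hb⟩ | ⟨ha, hb⟩ <;> rw [ha, hb] <;> simp only [] <;> omega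
    have hs := N.sq (i := 1) (j := 3) (by decide) (t := t) (x := 1) (y := 0) (u := p1) (v := 1)
      (by omega) (by omega) (by omega) (by omega) (by omega) (of_inK (by simp; omega) (by simp) (by
        refine Or.inr (Or.inr (Or.inr (Or.inr (Or.inr (Or.inr (Or.inr (Or.inl ?_)))))))
        exact ⟨by simp; omega, by simp; omega, by simp, by simp, by simp, hon⟩))
    rw [up1, up3, N.mc t p1 1 ht hT (by omega) (Or.inl rfl),
      N.graph3 hc h1 h2 (J := ∅) (by omega) (by omega) (by omega) hC1 hC2 (Or.inl (by unfold onL; omega)),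
      one_mul, mul_one] at hs
    have hl : stepLab N.gam (p1, 1) (p1 + 1, 1) = 1 := by simp [stepLab]
    rw [hl, ← hs]; simp
  · simp only at e1 e2 e3 e4
    subst e2 e3 e4
    have hon : onW c.f (2 * t) (2 * q1) (2 * 1 + 1) := by
      unfold onW
      rw [if_neg (by omega), htt2]
      rcases hw with ⟨ha, hb⟩ | ⟨ha, hb⟩ <;> rw [ha, hb] <;> simp only [] <;> omega
    have hs := N.sq (i := 1) (j := 4) (by decide) (t := t) (x := 1) (y := 0) (u := q1) (v := 1)
      (by omega) (by omega) (by omega) (by omega) (by omega) (of_inK (by simp; omega) (by simp) (by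
        refine Or.inr (Or.inr (Or.inr (Or.inr (Or.inr (Or.inr (Or.inr (Or.inl ?_)))))))
        exact ⟨by simp; omega, by simp; omega, by simp, by simp, by simp, hon⟩))
    rw [up1, up4, N.cap1_v hc h1 h2 ht hT (by omega), mul_one] at hs
    rcases e1 with rfl | rfl
    · rw [N.left4 hc h1 h2 (by omega) (by omega) (by omega) hC1 hC2 hi, one_mul] at hs
      have hl : stepLab N.gam (2 * i + 2, 1) (2 * i + 2, 2) = 1 := by
        unfold stepLab; rw [if_neg (by simp only []; omega)]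
      rw [hl, hs]; simp
    · rw [N.right1 hc h1 h2 hi (Or.inl hT)] at hs
      have hl : stepLab N.gam (2 * i + 3, 1) (2 * i + 3, 2) = N.gam i := by
        unfold stepLab
        rw [if_pos (by simp only [true_and]; omega), if_pos (by simp)]
        congr 1
        show (2 * i + 3 - 3) / 2 = i
        omega
      rw [hl, hs]; simp
  · simp only [Prod.mk.injEq] at e1 e2
    obtain ⟨rfl, rfl⟩ := e1
    obtain ⟨rfl, rfl⟩ := e2
    have hon : onW c.f (2 * t) (2 * (2 * i + 2) + 1) (2 * 2) := by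
      unfold onW
      rw [if_neg (by omega), htt2]
      rcases hw with ⟨ha, hb⟩ | ⟨ha, hb⟩ <;> rw [ha, hb] <;> simp only [] <;> omega
    have hs := N.sq (i := 1) (j := 3) (by decide) (t := t) (x := 1) (y := 0) (u := 2 * i + 2) (v := 2)
      (by omega) (by omega) (by omega) (by omega) (by omega) (of_inK (by simp; omega) (by simp) (by
        refine Or.inr (Or.inr (Or.inr (Or.inr (Or.inr (Or.inr (Or.inr (Or.inl ?_)))))))
        exact ⟨by simp; omega, by simp; omega, by simp, by simp, by simp, hon⟩))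
    rw [up1, up3, N.mc t (2 * i + 2) 2 ht hT (by omega) (Or.inr rfl),
      N.graph3 hc h1 h2 (J := {i}) (by omega) (by omega) (by omega) hC1 hC2
        (Or.inr ⟨i, Finset.mem_singleton_self i, hi, by unfold onLoop; omega⟩),
      one_mul, mul_one] at hs
    have hl : stepLab N.gam (2 * i + 2, 2) (2 * i + 3, 2) = 1 := by simp [stepLab]
    show N.e (vv n t 1 0 (2 * i + 3) 2) 1 = _
    rw [hl, ← hs]; simp

/-- a step of a walk over an edge of the graph, direction `y`, level `(x, y) = (1, 0)` -/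
theorem stepG [NeZero n] (hc : c.Ok) (h1 : c.T + 3 ≤ n) (h2 : 2 * c.m + 5 ≤ n) {t : ℕ}
    (ht : 4 ≤ t) (hT : t < c.T) {p q : ℕ × ℕ} (hpq : GE c.m p q) (hp1 : 1 ≤ p.1)
    (hw : (c.g (t - 1) = p ∧ c.g t = q) ∨ (c.g (t - 1) = q ∧ c.g t = p)) :
    N.e (vv n t 1 0 q.1 q.2) 2 = (stepLab N.gam p q)⁻¹ * N.e (vv n t 1 0 p.1 p.2) 2 := by
  have hC1 : ¬ Cap1 c t 1 0 := fun h => by have := h.1; omega
  have hC2 : ¬ Cap2 c t 1 0 := fun h => by have := h.2.1; omega
  have hm := hc.hm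
  have htt : (2 * t) % 2 = 0 := by omega
  have htt2 : (2 * t) / 2 = t := by omega
  obtain ⟨p1, p2⟩ := p
  obtain ⟨q1, q2⟩ := q
  simp only at hp1
  rcases hpq with ⟨e1, e2, e3, e4⟩ | ⟨i, hi, e1, e2, e3, e4⟩ | ⟨i, hi, e1, e2⟩
  · simp only at e1 e2 e3 e4
    subst e1 e2 e3
    have hon : onW c.g (2 * t) (2 * p1 + 1) (2 * 1) := by
      unfold onW
      rw [if_neg (by omega), htt2]
      rcases hw with ⟨ha, hb⟩ | ⟨ha, hb⟩ <;> rw [ha, hb] <;> simp only [] <;> omega
    have hs := N.sq (i := 2) (j := 3) (by decide) (t := t) (x := 1) (y := 0) (u := p1) (v := 1)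
      (by omega) (by omega) (by omega) (by omega) (by omega) (of_inK (by simp; omega) (by simp) (by
        refine Or.inr (Or.inr (Or.inr (Or.inr (Or.inr (Or.inl ?_)))))
        exact ⟨by simp; omega, by simp; omega, by simp, by simp, Or.inl hon⟩))
    rw [up2, up3, N.rc3 t p1 1 ht hT hp1 (by omega) (Or.inl rfl),
      N.graph3 hc h1 h2 (J := ∅) (by omega) (by omega) (by omega) hC1 hC2 (Or.inl (by unfold onL; omega)),
      one_mul, mul_one] at hs
    have hl : stepLab N.gam (p1, 1) (p1 + 1, 1) = 1 := by simp [stepLab]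
    rw [hl, ← hs]; simp
  · simp only at e1 e2 e3 e4
    subst e2 e3 e4
    have hon : onW c.g (2 * t) (2 * q1) (2 * 1 + 1) := by
      unfold onW
      rw [if_neg (by omega), htt2]
      rcases hw with ⟨ha, hb⟩ | ⟨ha, hb⟩ <;> rw [ha, hb] <;> simp only [] <;> omega
    have hs := N.sq (i := 2) (j := 4) (by decide) (t := t) (x := 1) (y := 0) (u := q1) (v := 1)
      (by omega) (by omega) (by omega) (by omega) (by omega) (of_inK (by simp; omega) (by simp) (by
        refine Or.inr (Or.inr (Or.inr (Or.inr (Or.inr (Or.inl ?_)))))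
        exact ⟨by simp; omega, by simp; omega, by simp, by simp, Or.inl hon⟩))
    rw [up2, up4, N.cap2_v hc h1 h2 ht hT (by omega) (by omega), mul_one] at hs
    rcases e1 with rfl | rfl
    · rw [N.left4 hc h1 h2 (by omega) (by omega) (by omega) hC1 hC2 hi, one_mul] at hs
      have hl : stepLab N.gam (2 * i + 2, 1) (2 * i + 2, 2) = 1 := by
        unfold stepLab; rw [if_neg (by simp only []; omega)]
      rw [hl, hs]; simp
    · rw [N.right1 hc h1 h2 hi (Or.inl hT.le)] at hs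
      have hl : stepLab N.gam (2 * i + 3, 1) (2 * i + 3, 2) = N.gam i := by
        unfold stepLab
        rw [if_pos (by simp only [true_and]; omega), if_pos (by simp)]
        congr 1
        show (2 * i + 3 - 3) / 2 = i
        omega
      rw [hl, hs]; simp
  · simp only [Prod.mk.injEq] at e1 e2
    obtain ⟨rfl, rfl⟩ := e1
    obtain ⟨rfl, rfl⟩ := e2
    have hon : onW c.g (2 * t) (2 * (2 * i + 2) + 1) (2 * 2) := by
      unfold onW
      rw [if_neg (by omega), htt2]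
      rcases hw with ⟨ha, hb⟩ | ⟨ha, hb⟩ <;> rw [ha, hb] <;> simp only [] <;> omega
    have hs := N.sq (i := 2) (j := 3) (by decide) (t := t) (x := 1) (y := 0) (u := 2 * i + 2) (v := 2)
      (by omega) (by omega) (by omega) (by omega) (by omega) (of_inK (by simp; omega) (by simp) (by
        refine Or.inr (Or.inr (Or.inr (Or.inr (Or.inr (Or.inl ?_)))))
        exact ⟨by simp; omega, by simp; omega, by simp, by simp, Or.inl hon⟩))
    rw [up2, up3, N.rc3 t (2 * i + 2) 2 ht hT (by omega) (by omega) (Or.inr rfl),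
      N.graph3 hc h1 h2 (J := {i}) (by omega) (by omega) (by omega) hC1 hC2
        (Or.inr ⟨i, Finset.mem_singleton_self i, hi, by unfold onLoop; omega⟩),
      one_mul, mul_one] at hs
    have hl : stepLab N.gam (2 * i + 2, 2) (2 * i + 3, 2) = 1 := by simp [stepLab]
    show N.e (vv n t 1 0 (2 * i + 3) 2) 2 = _
    rw [hl, ← hs]; simp

/-- a step of the main walk -/
theorem stepF' [NeZero n] (hc : c.Ok) (h1 : c.T + 3 ≤ n) (h2 : 2 * c.m + 5 ≤ n) {t : ℕ}
    (ht : 3 ≤ t) (hT : t ≤ c.T) :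
    N.e (vv n t 1 0 (c.f t).1 (c.f t).2) 1 =
      (stepLab N.gam (c.f (t - 1)) (c.f t))⁻¹ * N.e (vv n t 1 0 (c.f (t - 1)).1 (c.f (t - 1)).2) 1 := by
  have ha := hc.fa (t - 1)
  rw [show t - 1 + 1 = t by omega] at ha
  rcases ha with h | h | h
  · rw [← h, stepLab_self]; simp
  · exact N.stepF hc h1 h2 ht hT h (Or.inl ⟨rfl, rfl⟩)
  · have := N.stepF hc h1 h2 ht hT h (Or.inr ⟨rfl, rfl⟩)
    rw [this, stepLab_symm (c.f (t - 1)) (c.f t)]
    group

/-- a step of the relator walk -/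
theorem stepG' [NeZero n] (hc : c.Ok) (h1 : c.T + 3 ≤ n) (h2 : 2 * c.m + 5 ≤ n) {t : ℕ}
    (ht : 4 ≤ t) (hT : t < c.T) :
    N.e (vv n t 1 0 (c.g t).1 (c.g t).2) 2 =
      (stepLab N.gam (c.g (t - 1)) (c.g t))⁻¹ * N.e (vv n t 1 0 (c.g (t - 1)).1 (c.g (t - 1)).2) 2 := by
  have ha := hc.ga (t - 1)
  rw [show t - 1 + 1 = t by omega] at ha
  rcases ha with h | h | h
  · rw [← h, stepLab_self]; simp
  · exact N.stepG hc h1 h2 ht hT h (hc.gp _) (Or.inl ⟨rfl, rfl⟩)
  · have := N.stepG hc h1 h2 ht hT h (hc.gp _) (Or.inr ⟨rfl, rfl⟩)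
    rw [this, stepLab_symm (c.g (t - 1)) (c.g t)]
    group

/-- the fins of the main walk are constant along the time edges -/
theorem timeF [NeZero n] (hc : c.Ok) (h1 : c.T + 3 ≤ n) (h2 : 2 * c.m + 5 ≤ n) {t : ℕ}
    (ht : 3 ≤ t) (hT : t < c.T) :
    N.e (vv n (t + 1) 1 0 (c.f t).1 (c.f t).2) 1 = N.e (vv n t 1 0 (c.f t).1 (c.f t).2) 1 := by
  have hv := hc.fv t
  have hb := isGV_bd hv
  have hon : onW c.f (2 * t + 1) (2 * (c.f t).1) (2 * (c.f t).2) := by
    unfold onW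
    rw [if_pos (by omega), show (2 * t + 1) / 2 = t by omega]
    exact ⟨rfl, rfl⟩
  have hs := N.sq (i := 0) (j := 1) (by decide) (t := t) (x := 1) (y := 0) (u := (c.f t).1)
    (v := (c.f t).2) (by omega) (by omega) (by omega) (by omega) (by omega)
    (of_inK (by simp; omega) (by simp; omega) (by
        refine Or.inr (Or.inr (Or.inr (Or.inr (Or.inr (Or.inr (Or.inr (Or.inl ?_)))))))
        exact ⟨by simp; omega, by simp; omega, by simp, by simp, by simp, hon⟩))
  rw [up0, up1, N.lev1 hc h1 h2 (by omega) (Or.inl ⟨hT, gam_of_isGV hv⟩), if_neg (by omega),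
    N.cap1_t hc h1 h2 ht hT hb.1 hb.2, one_mul, mul_one] at hs
  exact hs

/-- the fins of the relator walk are constant along the time edges -/
theorem timeG [NeZero n] (hc : c.Ok) (h1 : c.T + 3 ≤ n) (h2 : 2 * c.m + 5 ≤ n) {t : ℕ}
    (ht : 4 ≤ t) (hT : t + 1 < c.T) :
    N.e (vv n (t + 1) 1 0 (c.g t).1 (c.g t).2) 2 = N.e (vv n t 1 0 (c.g t).1 (c.g t).2) 2 := by
  have hv := hc.gv t
  have hb := isGV_bd hv
  have hon : onW c.g (2 * t + 1) (2 * (c.g t).1) (2 * (c.g t).2) := by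
    unfold onW
    rw [if_pos (by omega), show (2 * t + 1) / 2 = t by omega]
    exact ⟨rfl, rfl⟩
  have hs := N.sq (i := 0) (j := 2) (by decide) (t := t) (x := 1) (y := 0) (u := (c.g t).1)
    (v := (c.g t).2) (by omega) (by omega) (by omega) (by omega) (by omega)
    (of_inK (by simp; omega) (by simp; omega) (by
        refine Or.inr (Or.inr (Or.inr (Or.inr (Or.inr (Or.inl ?_)))))
        exact ⟨by simp; omega, by simp; omega, by simp, by simp, Or.inl hon⟩))
  rw [up0, up2, N.lev1 hc h1 h2 (by omega) (Or.inl ⟨by omega, gam_of_isGV hv⟩), if_neg (by omega),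
    N.cap2_t hc h1 h2 ht hT (hc.gp t) hb.1 hb.2, one_mul, mul_one] at hs
  exact hs

theorem pre_const {γ : ℕ → H} {w : ℕ → ℕ × ℕ} {b : ℕ × ℕ} :
    ∀ t, (∀ s ≤ t, w s = b) → pre γ w t = 1 := by
  intro t
  induction t with
  | zero => intro _; rfl
  | succ t ih =>
    intro h
    show pre γ w t * stepLab γ (w t) (w (t + 1)) = 1
    rw [ih fun s hs => h s (by omega), h t (by omega), h (t + 1) le_rfl, stepLab_self, one_mul]

/-- edges of the walk graph at the level (x,y) = (1,0) -/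
theorem fin_f [NeZero n] (hc : c.Ok) (h1 : c.T + 3 ≤ n) (h2 : 2 * c.m + 5 ≤ n) {t : ℕ}
    (ht : 3 ≤ t) (hT : t ≤ c.T) :
    N.e (vv n t 1 0 (c.f t).1 (c.f t).2) 1 = (pre N.gam c.f t)⁻¹ ∧
    N.e (vv n t 1 0 (c.f (t - 1)).1 (c.f (t - 1)).2) 1 = (pre N.gam c.f (t - 1))⁻¹ := by
  induction t, ht using Nat.le_induction with
  | base =>
    have hn := NeZero.pos n
    have e1 : N.e (vv n 3 1 0 0 1) 1 = 1 := by
      rw [N.a1 h2 (by omega) (by omega) (by omega), if_neg (by omega)]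
    rw [hc.f0 3 le_rfl, hc.f0 (3 - 1) (by omega)]
    rw [pre_const 3 fun s hs => hc.f0 s hs, pre_const (3 - 1) fun s hs => hc.f0 s (by omega)]
    simp only [inv_one]
    exact ⟨e1, e1⟩
  | succ t ht ih =>
    have ih' := (ih (by omega)).1
    have e1 := N.timeF hc h1 h2 ht (by omega)
    have e2 := N.stepF' hc h1 h2 (t := t + 1) (by omega) hT
    rw [Nat.add_sub_cancel] at e2 ⊢
    rw [e1, ih'] at e2
    refine ⟨?_, by rw [e1, ih']⟩
    rw [e2]
    show _ = (pre N.gam c.f t * stepLab N.gam (c.f t) (c.f (t + 1)))⁻¹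
    group

theorem fin_g [NeZero n] (hc : c.Ok) (h1 : c.T + 3 ≤ n) (h2 : 2 * c.m + 5 ≤ n) {t : ℕ}
    (ht : 4 ≤ t) (hT : t < c.T) :
    N.e (vv n t 1 0 (c.g t).1 (c.g t).2) 2 = (pre N.gam c.g t)⁻¹ ∧
    N.e (vv n t 1 0 (c.g (t - 1)).1 (c.g (t - 1)).2) 2 = (pre N.gam c.g (t - 1))⁻¹ := by
  induction t, ht using Nat.le_induction with
  | base =>
    have e1 : N.e (vv n 4 1 0 1 1) 2 = 1 := N.rc2 4 le_rfl hT
    rw [hc.g0 4 le_rfl, hc.g0 (4 - 1) (by omega)]
    rw [pre_const 4 fun s hs => hc.g0 s hs, pre_const (4 - 1) fun s hs => hc.g0 s (by omega)]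
    simp only [inv_one]
    exact ⟨e1, e1⟩
  | succ t ht ih =>
    have ih' := (ih (by omega)).1
    have e1 := N.timeG hc h1 h2 ht hT
    have e2 := N.stepG' hc h1 h2 (t := t + 1) (by omega) hT
    rw [Nat.add_sub_cancel] at e2 ⊢
    rw [e1, ih'] at e2
    refine ⟨?_, by rw [e1, ih']⟩
    rw [e2]
    show _ = (pre N.gam c.g t * stepLab N.gam (c.g t) (c.g (t + 1)))⁻¹
    group

end NC

end Pool.Agent.FM
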