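import Pool.Agent.FM.C07f

/-!
# Block C07, part g: assembly
-/

open Set

namespace Pool.Agent.FM

theorem onW_odd {w : ℕ → ℕ × ℕ} {t u v : ℕ} (h : onW w (2 * t + 1) (2 * u) (2 * v)) :
    (u, v) = w t := by
  unfold onW at h
  rw [if_pos (by omega), show (2 * t + 1) / 2 = t by omega] at h
  ext
  · simp only; omega
  · simp only; omega

theorem onW_even {w : ℕ → ℕ × ℕ} {t U V : ℕ} (h : onW w (2 * t) U V) :
    2 * min (w (t - 1)).1 (w t).1 ≤ U ∧ U ≤ 2 * max (w (t - 1)).1 (w t).1 ∧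
    2 * min (w (t - 1)).2 (w t).2 ≤ V ∧ V ≤ 2 * max (w (t - 1)).2 (w t).2 := by
  unfold onW at h
  rwa [if_neg (by omega), show (2 * t) / 2 = t by omega] at h

theorem GAdj_cases {m : ℕ} {p q : ℕ × ℕ} (hp : IsGV m p) (h : GAdj m p q) :
    (p.1 = q.1 ∧ p.2 = q.2 ∧ (p.2 = 1 ∨ p.2 = 2)) ∨
    (p.2 = 1 ∧ q.2 = 1 ∧ q.1 = p.1 + 1 ∧ q.1 ≤ 2 * m + 1) ∨
    (q.2 = 1 ∧ p.2 = 1 ∧ p.1 = q.1 + 1 ∧ p.1 ≤ 2 * m + 1) ∨
    (∃ i < m, (p.1 = 2 * i + 2 ∨ p.1 = 2 * i + 3) ∧ q.1 = p.1 ∧
      ((p.2 = 1 ∧ q.2 = 2) ∨ (p.2 = 2 ∧ q.2 = 1))) ∨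
    (∃ i < m, p.2 = 2 ∧ q.2 = 2 ∧ ((p.1 = 2 * i + 2 ∧ q.1 = 2 * i + 3) ∨
      (p.1 = 2 * i + 3 ∧ q.1 = 2 * i + 2))) := by
  rcases h with h | (h | ⟨i, hi, h, h'⟩ | ⟨i, hi, h, h'⟩) | (h | ⟨i, hi, h, h'⟩ | ⟨i, hi, h, h'⟩)
  · left
    subst h
    refine ⟨rfl, rfl, ?_⟩
    rcases hp with hp | ⟨i, hi, hp⟩
    · exact Or.inl hp.2
    · exact Or.inr hp.2
  · right; left; exact h
  · right; right; right; left
    exact ⟨i, hi, h, h'.1, Or.inl ⟨h'.2.1, h'.2.2⟩⟩
  · right; right; right; right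
    refine ⟨i, hi, ?_, ?_, Or.inl ⟨?_, ?_⟩⟩ <;> simp [h, h']
  · right; right; left; exact h
  · right; right; right; left
    exact ⟨i, hi, by omega, by omega, Or.inr ⟨by omega, by omega⟩⟩
  · right; right; right; right
    refine ⟨i, hi, ?_, ?_, Or.inr ⟨?_, ?_⟩⟩ <;> simp [h, h']

theorem onW_vertex {w : ℕ → ℕ × ℕ} {m t u v : ℕ} (hp : IsGV m (w (t - 1)))
    (ha : GAdj m (w (t - 1)) (w t)) (h : onW w (2 * t) (2 * u) (2 * v)) :
    (u, v) = w t ∨ (u, v) = w (t - 1) := by
  have h := onW_even h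
  have hc := GAdj_cases hp ha
  generalize w t = q at *
  generalize w (t - 1) = p at *
  obtain ⟨p1, p2⟩ := p
  obtain ⟨q1, q2⟩ := q
  simp only [Prod.mk.injEq] at *
  rcases hc with hc | hc | hc | ⟨i, hi, hc⟩ | ⟨i, hi, hc⟩ <;> omega

theorem onW_edge3 {w : ℕ → ℕ × ℕ} {m t u v : ℕ} (hp : IsGV m (w (t - 1)))
    (ha : GAdj m (w (t - 1)) (w t)) (h : onW w (2 * t) (2 * u + 1) (2 * v)) :
    Gam m (Finset.range m) (2 * u + 1) (2 * v) ∧ u ≤ 2 * m ∧ (v = 1 ∨ v = 2) ∧
      ((w t).1 ≤ u ∨ (w (t - 1)).1 ≤ u) := by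
  have h := onW_even h
  have hc := GAdj_cases hp ha
  generalize w t = q at *
  generalize w (t - 1) = p at *
  obtain ⟨p1, p2⟩ := p
  obtain ⟨q1, q2⟩ := q
  simp only at *
  rcases hc with hc | hc | hc | ⟨i, hi, hc⟩ | ⟨i, hi, hc⟩
  · omega
  · refine ⟨Or.inl ⟨by omega, by omega⟩, by omega, by omega, by omega⟩
  · refine ⟨Or.inl ⟨by omega, by omega⟩, by omega, by omega, by omega⟩
  · omega
  · refine ⟨Or.inr ⟨i, Finset.mem_range.2 hi, hi, ?_⟩, by omega, by omega, by omega⟩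
    unfold onLoop
    omega

theorem onW_edge4 {w : ℕ → ℕ × ℕ} {m t u v : ℕ} (hp : IsGV m (w (t - 1)))
    (ha : GAdj m (w (t - 1)) (w t)) (h : onW w (2 * t) (2 * u) (2 * v + 1)) :
    v = 1 ∧ ∃ k < m, u = 2 * k + 2 ∨ u = 2 * k + 3 := by
  have h := onW_even h
  have hc := GAdj_cases hp ha
  generalize w t = q at *
  generalize w (t - 1) = p at *
  obtain ⟨p1, p2⟩ := p
  obtain ⟨q1, q2⟩ := q
  simp only at *
  rcases hc with hc | hc | hc | ⟨i, hi, hc⟩ | ⟨i, hi, hc⟩
  · omega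
  · omega
  · omega
  · exact ⟨by omega, i, hi, by omega⟩
  · omega

theorem Gam_of_IsGV {m u v : ℕ} (h : IsGV m (u, v)) :
    Gam m (Finset.range m) (2 * u) (2 * v) := by
  rcases h with h | ⟨i, hi, h⟩
  · simp only at h
    exact Or.inl ⟨by omega, by omega⟩
  · simp only at h
    refine Or.inr ⟨i, Finset.mem_range.2 hi, hi, ?_⟩
    unfold onLoop
    omega

theorem IsGV_bound {m u v : ℕ} (h : IsGV m (u, v)) : u ≤ 2 * m + 1 ∧ (v = 1 ∨ v = 2) := by
  rcases h with h | ⟨i, hi, h⟩ <;> simp only at h <;> omega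

/-- vertical edges of a graph -/
theorem Gam_edge4 {m u v : ℕ} {J : Finset ℕ} (h : Gam m J (2 * u) (2 * v + 1)) :
    v = 1 ∧ ∃ k ∈ J, k < m ∧ (u = 2 * k + 2 ∨ u = 2 * k + 3) := by
  rcases h with h | ⟨i, hJ, hi, h⟩
  · unfold onL at h
    omega
  · unfold onLoop at h
    exact ⟨by omega, i, hJ, hi, by omega⟩


namespace NC

variable {c : Cfg} {n : ℕ} {H : Type} [Group H] (N : NC c n H)

theorem edge0 [NeZero n] (hc : c.Ok) (h1 : c.T + 3 ≤ n) (h2 : 2 * c.m + 5 ≤ n)
    {t x y u v : ℕ} (ht : t < n) (hx : x < n) (hy : y < n)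
    (h : InL c (2 * t + 1) (2 * x) (2 * y) (2 * u) (2 * v)) :
    N.e (vv n t x y u v) 0 = if t + 1 = n then N.X0 else 1 := by
  obtain ⟨⟨hu, hv⟩, h⟩ := h
  have hT := hc.hT
  rcases h with h | h | h | h | h | h | h | h | h | h
  · rw [N.bound h2 (by decide) (by decide) t x y (by omega) (by omega) (by omega)]
    exact N.a0 h2 ht hx hy
  · obtain ⟨hx1, hy1, h⟩ := h
    obtain rfl : x = 1 := by omega
    obtain rfl : y = 0 := by omega
    refine N.lev1 hc h1 h2 ht ?_
    rcases h with h | h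
    · exact Or.inl ⟨by omega, h.2⟩
    · exact Or.inr h
  · omega
  · omega
  · omega
  · omega
  · obtain ⟨ht1, ht2, hx1, hy1, h⟩ := h
    obtain rfl : x = 1 := by omega
    have hg : IsGV c.m (u, v) := by
      rcases h with h | h
      · rw [onW_odd h]
        exact hc.gv t
      · left
        simp only
        omega
    have hg1 : 1 ≤ u := by
      rcases h with h | h
      · have e := onW_odd h
        have := hc.gp t
        rw [← e] at this
        exact this
      · omega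
    have hb := IsGV_bound hg
    have hy' : y = 0 ∨ y = 1 := by omega
    rcases hy' with rfl | rfl
    · exact N.lev1 hc h1 h2 ht (Or.inl ⟨by omega, Gam_of_IsGV hg⟩)
    · rw [if_neg (by omega)]
      exact N.cap2_t hc h1 h2 (by omega) (by omega) hg1 hb.1 hb.2
  · obtain ⟨ht1, ht2, hx1, hy1, hu1, hu2, hv1, hv2, h⟩ := h
    obtain rfl : x = 1 := by omega
    obtain rfl : y = 1 := by omega
    rw [if_neg (by omega)]
    exact N.cap2_t hc h1 h2 (by omega) (by omega) (by omega) (by omega) (by omega)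
  · obtain ⟨ht1, ht2, hy1, hx1, hx2, h⟩ := h
    obtain rfl : y = 0 := by omega
    have hg : IsGV c.m (u, v) := by
      rw [onW_odd h]
      exact hc.fv t
    have hb := IsGV_bound hg
    have hx' : x = 1 ∨ x = 2 := by omega
    rcases hx' with rfl | rfl
    · exact N.lev1 hc h1 h2 ht (Or.inl ⟨by omega, Gam_of_IsGV hg⟩)
    · rw [if_neg (by omega)]
      exact N.cap1_t hc h1 h2 (by omega) (by omega) hb.1 hb.2
  · obtain ⟨ht1, ht2, hy1, hx1, hu1, hv1, hv2, h⟩ := h
    obtain rfl : x = 2 := by omega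
    obtain rfl : y = 0 := by omega
    rw [if_neg (by omega)]
    exact N.cap1_t hc h1 h2 (by omega) (by omega) (by omega) (by omega)

theorem edge1 [NeZero n] (hc : c.Ok) (h1 : c.T + 3 ≤ n) (h2 : 2 * c.m + 5 ≤ n)
    {t x y u v : ℕ} (ht : t < n) (hx : x < n) (hy : y < n)
    (h : InL c (2 * t) (2 * x + 1) (2 * y) (2 * u) (2 * v))
    (hno : ¬ (x = 1 ∧ y = 0 ∧ 3 ≤ t ∧ t ≤ c.T ∧ ((u, v) = c.f t ∨ (u, v) = c.f (t - 1)))) :
    N.e (vv n t x y u v) 1 = if x + 1 = n then N.X1 else 1 := by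
  obtain ⟨⟨hu, hv⟩, h⟩ := h
  have hT := hc.hT
  rcases h with h | h | h | h | h | h | h | h | h | h
  · rw [N.bound h2 (by decide) (by decide) t x y (by omega) (by omega) (by omega)]
    exact N.a1 h2 ht hx hy
  · omega
  · obtain ⟨ht1, hy1, h⟩ := h
    obtain rfl : t = 2 := by omega
    obtain rfl : y = 0 := by omega
    exact N.lev2 hc h1 h2 hx h
  · omega
  · omega
  · obtain ⟨ht1, hy1, hx1, h⟩ := h
    obtain rfl : t = 0 := by omega
    obtain rfl : y = 0 := by omega
    obtain rfl : x = 0 := by omega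
    rw [if_neg (by omega)]
    exact N.lev5 hc h1 h2 h
  · omega
  · omega
  · obtain ⟨ht1, ht2, hy1, hx1, hx2, h⟩ := h
    obtain rfl : x = 1 := by omega
    obtain rfl : y = 0 := by omega
    exfalso
    apply hno
    refine ⟨rfl, rfl, by omega, by omega, ?_⟩
    have ha := hc.fa (t - 1)
    rw [show t - 1 + 1 = t by omega] at ha
    exact onW_vertex (hc.fv _) ha h
  · omega

theorem edge2 [NeZero n] (hc : c.Ok) (h1 : c.T + 3 ≤ n) (h2 : 2 * c.m + 5 ≤ n)
    {t x y u v : ℕ} (ht : t < n) (hx : x < n) (hy : y < n)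
    (h : InL c (2 * t) (2 * x) (2 * y + 1) (2 * u) (2 * v))
    (hno : ¬ (x = 1 ∧ y = 0 ∧ 4 ≤ t ∧ t < c.T ∧ ((u, v) = c.g t ∨ (u, v) = c.g (t - 1)))) :
    N.e (vv n t x y u v) 2 = if y + 1 = n then N.Z else 1 := by
  obtain ⟨⟨hu, hv⟩, h⟩ := h
  have hT := hc.hT
  rcases h with h | h | h | h | h | h | h | h | h | h
  · rw [N.bound h2 (by decide) (by decide) t x y (by omega) (by omega) (by omega)]
    exact N.a2 h2 ht hx hy
  · omega
  · omega
  · obtain ⟨ht1, hx1, h⟩ := h
    obtain rfl : t = 1 := by omega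
    obtain rfl : x = 1 := by omega
    exact N.lev3 hc h1 h2 hy h
  · omega
  · omega
  · obtain ⟨ht1, ht2, hx1, hy1, h⟩ := h
    obtain rfl : x = 1 := by omega
    obtain rfl : y = 0 := by omega
    rcases h with h | h
    · exfalso
      apply hno
      refine ⟨rfl, rfl, by omega, by omega, ?_⟩
      have ha := hc.ga (t - 1)
      rw [show t - 1 + 1 = t by omega] at ha
      exact onW_vertex (hc.gv _) ha h
    · obtain rfl : u = 1 := by omega
      obtain rfl : v = 1 := by omega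
      rw [if_neg (by omega)]
      exact N.rc2 t (by omega) (by omega)
  · omega
  · omega
  · omega

theorem edge3 [NeZero n] (hc : c.Ok) (h1 : c.T + 3 ≤ n) (h2 : 2 * c.m + 5 ≤ n)
    {t x y u v : ℕ} (ht : t < n) (hx : x < n) (hy : y < n)
    (h : InL c (2 * t) (2 * x) (2 * y) (2 * u + 1) (2 * v)) :
    N.e (vv n t x y u v) 3 = 1 := by
  obtain ⟨⟨hu, hv⟩, h⟩ := h
  have hT := hc.hT
  rcases h with h | h | h | h | h | h | h | h | h | h
  · exact N.b3' t x y (by omega) (by omega)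
  · obtain ⟨hx1, hy1, h⟩ := h
    obtain rfl : x = 1 := by omega
    obtain rfl : y = 0 := by omega
    have hc1 : ¬ Cap1 c t 1 0 := fun h => by have := h.1; omega
    have hc2 : ¬ Cap2 c t 1 0 := fun h => by have := h.2.1; omega
    rcases h with h | h
    · exact N.graph3 hc h1 h2 ht hx hy hc1 hc2 h.2
    · exact N.graph3 hc h1 h2 ht hx hy hc1 hc2 h
  · obtain ⟨ht1, hy1, h⟩ := h
    obtain rfl : t = 2 := by omega
    obtain rfl : y = 0 := by omega
    exact N.graph3 hc h1 h2 ht hx hy (fun h => by have := h.2.2.1; omega)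
      (fun h => by have := h.2.1; omega) h
  · obtain ⟨ht1, hx1, h⟩ := h
    obtain rfl : t = 1 := by omega
    obtain rfl : x = 1 := by omega
    exact N.graph3 hc h1 h2 ht hx hy (fun h => by have := h.1; omega)
      (fun h => by have := h.2.2.1; omega) h
  · obtain ⟨ht1, hx1, hy1, hu1, hv1, h⟩ := h
    obtain rfl : t = 0 := by omega
    obtain rfl : x = 0 := by omega
    obtain rfl : y = 0 := by omega
    exact N.planar3 hc h1 h2 (by omega) (by omega)
  · obtain ⟨ht1, hy1, hx1, h⟩ := h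
    obtain rfl : t = 0 := by omega
    obtain rfl : y = 0 := by omega
    have hm := hc.hm
    have hG : Gam c.m {c.m - 1} (2 * u + 1) (2 * v) := by
      rcases h with h | h
      · exact Or.inl h
      · exact Or.inr ⟨c.m - 1, by simp, by omega, h⟩
    exact N.graph3 hc h1 h2 ht hx hy (fun h => by have := h.2.2.1; omega)
      (fun h => by have := h.2.1; omega) hG
  · obtain ⟨ht1, ht2, hx1, hy1, h⟩ := h
    obtain rfl : x = 1 := by omega
    rcases h with h | h
    · have ha := hc.ga (t - 1)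
      rw [show t - 1 + 1 = t by omega] at ha
      obtain ⟨hG, hu1, hv1, hu2⟩ := onW_edge3 (hc.gv _) ha h
      have hy' : y = 0 ∨ y = 1 := by omega
      have g1 := hc.gp t
      have g2 := hc.gp (t - 1)
      rcases hy' with rfl | rfl
      · exact N.graph3 hc h1 h2 ht hx hy (fun h => by have := h.1; omega)
          (fun h => by have := h.2.1; omega) hG
      · exact N.rc3 t u v (by omega) (by omega) (by omega) hu1 hv1
    · omega
  · obtain ⟨ht1, ht2, hx1, hy1, hu1, hu2, hv1, hv2, h⟩ := h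
    obtain rfl : x = 1 := by omega
    obtain rfl : y = 1 := by omega
    exact N.rc3 t u v (by omega) (by omega) (by omega) (by omega) (by omega)
  · obtain ⟨ht1, ht2, hy1, hx1, hx2, h⟩ := h
    obtain rfl : y = 0 := by omega
    have ha := hc.fa (t - 1)
    rw [show t - 1 + 1 = t by omega] at ha
    obtain ⟨hG, hu1, hv1, hu2⟩ := onW_edge3 (hc.fv _) ha h
    have hx' : x = 1 ∨ x = 2 := by omega
    rcases hx' with rfl | rfl
    · exact N.graph3 hc h1 h2 ht hx hy (fun h => by have := h.1; omega)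
          (fun h => by have := h.2.1; omega) hG
    · exact N.mc t u v (by omega) (by omega) hu1 hv1
  · obtain ⟨ht1, ht2, hy1, hx1, hu1, hv1, hv2, h⟩ := h
    obtain rfl : x = 2 := by omega
    obtain rfl : y = 0 := by omega
    exact N.mc t u v (by omega) (by omega) (by omega) (by omega)

/-- the labels in direction `4` -/
theorem edge4 [NeZero n] (hc : c.Ok) (h1 : c.T + 3 ≤ n) (h2 : 2 * c.m + 5 ≤ n)
    {t x y u v : ℕ} (ht : t < n) (hx : x < n) (hy : y < n)
    (h : InL c (2 * t) (2 * x) (2 * y) (2 * u) (2 * v + 1)) :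
    N.e (vv n t x y u v) 4 =
      if v = 1 then
        (if u = 2 * c.m + 2 then N.gam (c.m - 1)
         else if x = 1 ∧ y = 0 then loopLab c.m N.gam u
         else if t = 2 ∧ y = 0 then loopLab c.m N.gam u
         else if t = 1 ∧ x = 1 then loopLab c.m N.gam u
         else if t = 0 ∧ x = 0 ∧ y = 0 then (if u = 2 * c.m + 1 then N.gam (c.m - 1) else 1)
         else 1)
      else 1 := by
  obtain ⟨⟨hu, hv⟩, h⟩ := h
  have hT := hc.hT
  have hm := hc.hm
  have lodd : ∀ k, k < c.m → loopLab c.m N.gam (2 * k + 3) = N.gam k := by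
    intro k hk
    unfold loopLab
    rw [if_pos (by omega)]
    congr 1
    omega
  have leven : ∀ k, loopLab c.m N.gam (2 * k) = 1 := by
    intro k
    unfold loopLab
    rw [if_neg (by omega)]
  rcases h with h | h | h | h | h | h | h | h | h | h
  · have hu' : u = 0 ∨ u = 2 * c.m + 2 := by omega
    rcases hu' with rfl | rfl
    · rw [N.bl' t x y (by omega)]
      have l0 := leven 0
      rw [mul_zero] at l0
      rw [l0, if_neg (show ¬ (0 = 2 * c.m + 2) by omega), if_neg (show ¬ (0 = 2 * c.m + 1) by omega)]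
      simp
    · have hv' : v = 0 ∨ v = 1 ∨ v = 2 := by omega
      rcases hv' with rfl | rfl | rfl
      · rw [if_neg (by omega)]
        exact N.br' t x y (Or.inl rfl)
      · rw [if_pos rfl, if_pos rfl, N.gconst h2 ht hx hy]
        exact N.gam_last hc h1 h2
      · rw [if_neg (by omega)]
        exact N.br' t x y (Or.inr rfl)
  · obtain ⟨hx1, hy1, h⟩ := h
    obtain rfl : x = 1 := by omega
    obtain rfl : y = 0 := by omega
    have hc1 : ¬ Cap1 c t 1 0 := fun h => by have := h.1; omega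
    have hc2 : ¬ Cap2 c t 1 0 := fun h => by have := h.2.1; omega
    have key : v = 1 ∧ ∃ k, k < c.m ∧ (u = 2 * k + 2 ∨ u = 2 * k + 3) ∧
        (t ≤ c.T ∨ (t < n ∧ k ∈ c.J1)) := by
      rcases h with ⟨hTT, h⟩ | h
      · obtain ⟨hv1, k, hk, hkm, h⟩ := Gam_edge4 h
        exact ⟨hv1, k, hkm, h, Or.inl (by omega)⟩
      · obtain ⟨hv1, k, hk, hkm, h⟩ := Gam_edge4 h
        exact ⟨hv1, k, hkm, h, Or.inr ⟨ht, hk⟩⟩
    obtain ⟨rfl, k, hkm, hk, htk⟩ := key
    rw [if_pos rfl, if_neg (by omega), if_pos ⟨rfl, rfl⟩]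
    rcases hk with rfl | rfl
    · rw [show 2 * k + 2 = 2 * (k + 1) by ring, leven, show 2 * (k + 1) = 2 * k + 2 by ring]
      exact N.left4 hc h1 h2 ht hx hy hc1 hc2 hkm
    · rw [lodd k hkm]
      exact N.right1 hc h1 h2 hkm htk
  · obtain ⟨ht1, hy1, h⟩ := h
    obtain rfl : t = 2 := by omega
    obtain rfl : y = 0 := by omega
    obtain ⟨rfl, k, hk, hkm, h⟩ := Gam_edge4 h
    rw [if_pos rfl, if_neg (by omega), if_pos (show (2 = 2 ∧ 0 = 0) from ⟨rfl, rfl⟩), ite_self]
    rcases h with rfl | rfl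
    · rw [show 2 * k + 2 = 2 * (k + 1) by ring, leven, show 2 * (k + 1) = 2 * k + 2 by ring]
      exact N.left4 hc h1 h2 ht hx hy (fun h => by have := h.2.2.1; omega)
        (fun h => by have := h.2.1; omega) hkm
    · rw [lodd k hkm]
      exact N.right2 hc h1 h2 hkm hx hk
  · obtain ⟨ht1, hx1, h⟩ := h
    obtain rfl : t = 1 := by omega
    obtain rfl : x = 1 := by omega
    obtain ⟨rfl, k, hk, hkm, h⟩ := Gam_edge4 h
    rw [if_pos rfl, if_neg (by omega), if_neg (show ¬ (1 = 2 ∧ y = 0) by omega),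
      if_pos (show (1 = 1 ∧ 1 = 1) from ⟨rfl, rfl⟩), ite_self]
    rcases h with rfl | rfl
    · rw [show 2 * k + 2 = 2 * (k + 1) by ring, leven, show 2 * (k + 1) = 2 * k + 2 by ring]
      exact N.left4 hc h1 h2 ht hx hy (fun h => by have := h.1; omega)
        (fun h => by have := h.2.2.1; omega) hkm
    · rw [lodd k hkm]
      exact N.right3 hc h1 h2 hkm hy
  · obtain ⟨ht1, hx1, hy1, hu1, hv1, h⟩ := h
    obtain rfl : t = 0 := by omega
    obtain rfl : x = 0 := by omega
    obtain rfl : y = 0 := by omega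
    rw [N.planar4 hc h1 h2 (by omega) (by omega)]
    by_cases hv1 : v = 1
    · subst hv1
      by_cases hu2 : u = 2 * c.m + 2
      · rw [if_pos ⟨rfl, Or.inr hu2⟩, if_pos rfl, if_pos hu2]
      · by_cases hu3 : u = 2 * c.m + 1
        · rw [if_pos ⟨rfl, Or.inl hu3⟩, if_pos rfl, if_neg hu2, if_neg (by omega),
            if_neg (by omega), if_neg (by omega), if_pos ⟨rfl, rfl, rfl⟩, if_pos hu3]
        · rw [if_neg (by omega), if_pos rfl, if_neg hu2, if_neg (by omega),
            if_neg (by omega), if_neg (by omega), if_pos ⟨rfl, rfl, rfl⟩, if_neg hu3]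
    · rw [if_neg (by omega), if_neg hv1]
  · obtain ⟨ht1, hy1, hx1, h⟩ := h
    obtain rfl : t = 0 := by omega
    obtain rfl : y = 0 := by omega
    have hG : Gam c.m {c.m - 1} (2 * u) (2 * v + 1) := by
      rcases h with h | h
      · exact Or.inl h
      · exact Or.inr ⟨c.m - 1, by simp, by omega, h⟩
    obtain ⟨rfl, k, hk, hkm, h⟩ := Gam_edge4 hG
    rw [Finset.mem_singleton] at hk
    have hx' : x = 0 ∨ x = 1 := by omega
    have hleft : N.e (vv n 0 x 0 (2 * k + 2) 1) 4 = 1 :=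
      N.left4 hc h1 h2 ht hx hy (fun h => by have := h.2.2.1; omega)
        (fun h => by have := h.2.1; omega) hkm
    have hright := N.right5 hc h1 h2 (x := x) (by omega)
    rw [if_pos rfl, if_neg (by omega)]
    rcases hx' with rfl | rfl
    · rw [if_neg (by omega), if_neg (by omega), if_neg (by omega), if_pos ⟨rfl, rfl, rfl⟩]
      rcases h with rfl | rfl
      · rw [if_neg (by omega)]
        exact hleft
      · rw [if_pos (by omega), show 2 * k + 3 = 2 * c.m + 1 by omega]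
        exact hright
    · rw [if_pos ⟨rfl, rfl⟩]
      rcases h with rfl | rfl
      · rw [show 2 * k + 2 = 2 * (k + 1) by ring, leven, show 2 * (k + 1) = 2 * k + 2 by ring]
        exact hleft
      · rw [lodd k hkm, show 2 * k + 3 = 2 * c.m + 1 by omega, hk]
        exact hright
  · obtain ⟨ht1, ht2, hx1, hy1, h⟩ := h
    obtain rfl : x = 1 := by omega
    rcases h with h | h
    · have ha := hc.ga (t - 1)
      rw [show t - 1 + 1 = t by omega] at ha
      obtain ⟨rfl, k, hkm, hk⟩ := onW_edge4 (hc.gv _) ha h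
      have hy' : y = 0 ∨ y = 1 := by omega
      rw [if_pos rfl, if_neg (by omega)]
      rcases hy' with rfl | rfl
      · rw [if_pos ⟨rfl, rfl⟩]
        rcases hk with rfl | rfl
        · rw [show 2 * k + 2 = 2 * (k + 1) by ring, leven, show 2 * (k + 1) = 2 * k + 2 by ring]
          exact N.left4 hc h1 h2 ht hx hy (fun h => by have := h.1; omega)
            (fun h => by have := h.2.1; omega) hkm
        · rw [lodd k hkm]
          exact N.right1 hc h1 h2 hkm (Or.inl (by omega))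
      · rw [if_neg (by omega), if_neg (by omega), if_neg (by omega), if_neg (by omega)]
        exact N.cap2_v hc h1 h2 (by omega) (by omega) (by omega) (by omega)
    · omega
  · obtain ⟨ht1, ht2, hx1, hy1, hu1, hu2, hv1, hv2, h⟩ := h
    obtain rfl : x = 1 := by omega
    obtain rfl : y = 1 := by omega
    obtain rfl : v = 1 := by omega
    rw [if_pos rfl, if_neg (by omega), if_neg (by omega), if_neg (by omega), if_neg (by omega),
      if_neg (by omega)]
    exact N.cap2_v hc h1 h2 (by omega) (by omega) (by omega) (by omega)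
  · obtain ⟨ht1, ht2, hy1, hx1, hx2, h⟩ := h
    obtain rfl : y = 0 := by omega
    have ha := hc.fa (t - 1)
    rw [show t - 1 + 1 = t by omega] at ha
    obtain ⟨rfl, k, hkm, hk⟩ := onW_edge4 (hc.fv _) ha h
    have hx' : x = 1 ∨ x = 2 := by omega
    rw [if_pos rfl, if_neg (by omega)]
    rcases hx' with rfl | rfl
    · rw [if_pos ⟨rfl, rfl⟩]
      rcases hk with rfl | rfl
      · rw [show 2 * k + 2 = 2 * (k + 1) by ring, leven, show 2 * (k + 1) = 2 * k + 2 by ring]
        exact N.left4 hc h1 h2 ht hx hy (fun h => by have := h.1; omega)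
          (fun h => by have := h.2.1; omega) hkm
      · rw [lodd k hkm]
        exact N.right1 hc h1 h2 hkm (Or.inl (by omega))
    · rw [if_neg (by omega), if_neg (by omega), if_neg (by omega), if_neg (by omega)]
      exact N.cap1_v hc h1 h2 (by omega) (by omega) (by omega)
  · obtain ⟨ht1, ht2, hy1, hx1, hu1, hv1, hv2, h⟩ := h
    obtain rfl : x = 2 := by omega
    obtain rfl : y = 0 := by omega
    obtain rfl : v = 1 := by omega
    rw [if_pos rfl, if_neg (by omega), if_neg (by omega), if_neg (by omega), if_neg (by omega),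
      if_neg (by omega)]
    exact N.cap1_v hc h1 h2 (by omega) (by omega) (by omega)

/-- the representation read off from the connection, given the labels of the fins -/
theorem exists_rep_of [NeZero n] (hc : c.Ok) (h1 : c.T + 3 ≤ n) (h2 : 2 * c.m + 5 ≤ n)
    (finf : ∀ t, 3 ≤ t → t ≤ c.T →
      N.e (vv n t 1 0 (c.f t).1 (c.f t).2) 1 = (pre N.gam c.f t)⁻¹ ∧
      N.e (vv n t 1 0 (c.f (t - 1)).1 (c.f (t - 1)).2) 1 = (pre N.gam c.f (t - 1))⁻¹)
    (fing : ∀ t, 4 ≤ t → t < c.T →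
      N.e (vv n t 1 0 (c.g t).1 (c.g t).2) 2 = (pre N.gam c.g t)⁻¹ ∧
      N.e (vv n t 1 0 (c.g (t - 1)).1 (c.g (t - 1)).2) 2 = (pre N.gam c.g (t - 1))⁻¹) :
    ∃ R : Rep c H, ∀ v i, ec v i ∈ c.K true n ∩ PC n (2 * c.m + 2) → N.e v i = R.lab n v i := by
  have hT := hc.hT
  have hm := hc.hm
  have hff : pre N.gam c.f c.T = 1 := by
    have h := (finf c.T (by omega) le_rfl).1
    rw [hc.fT c.T le_rfl, N.a1 h2 (by omega) (by omega) (by omega), if_neg (by omega)] at h
    rw [← inv_inj, inv_one]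
    exact h.symm
  have hgg : ∀ t, 4 ≤ t → t < c.T → c.g t = (1, 1) → pre N.gam c.g t = 1 := by
    intro t ht htT hg
    have h := (fing t ht htT).1
    rw [hg, N.rc2 t ht htT] at h
    rw [← inv_inj, inv_one]
    exact h.symm
  refine ⟨⟨N.X0, N.X1, N.Z, N.gam, N.comm01 h2, N.comm0z h2, N.comm1z h2, ?_, ?_,
    fun i hi him => N.commJ1 hc h1 h2 him hi, fun i hi him => N.commJ2 hc h1 h2 him hi,
    fun i him => N.commZ hc h1 h2 him, hff, hgg⟩, ?_⟩
  · rw [← N.gam_last hc h1 h2]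
    exact N.comm0g h2
  · rw [← N.gam_last hc h1 h2]
    exact N.comm1g h2
  intro w i hw
  have e0 : (w 0).val < n := ZMod.val_lt _
  have e1 : (w 1).val < n := ZMod.val_lt _
  have e2 : (w 2).val < n := ZMod.val_lt _
  have e3 : (w 3).val < n := ZMod.val_lt _
  have e4 : (w 4).val < n := ZMod.val_lt _
  have hwv := vv_val w
  unfold Rep.lab
  generalize (w 0).val = t at *
  generalize (w 1).val = x at *
  generalize (w 2).val = y at *
  generalize (w 3).val = u at *
  generalize (w 4).val = v at *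
  subst hwv
  rw [ec_vv, cl_mem e0 e1 e2 e3 e4] at hw
  unfold labN
  fin_cases i
  · simp at hw
    simpa using N.edge0 hc h1 h2 e0 e1 e2 hw
  · simp at hw
    simp only [Fin.mk_one, Fin.reduceEq, if_false, if_true]
    by_cases hxn : x + 1 = n
    · rw [if_pos hxn, N.edge1 hc h1 h2 e0 e1 e2 hw (by omega), if_pos hxn]
    rw [if_neg hxn]
    by_cases hx : x = 1 ∧ y = 0 ∧ 3 ≤ t ∧ t ≤ c.T
    · rw [if_pos hx]
      obtain ⟨rfl, rfl, ht3, htT⟩ := hx
      obtain ⟨f1, f2⟩ := finf t ht3 htT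
      by_cases hf1 : (u, v) = c.f t
      · rw [if_pos hf1, ← f1, ← hf1]
      rw [if_neg hf1]
      by_cases hf2 : (u, v) = c.f (t - 1)
      · rw [if_pos hf2, ← f2, ← hf2]
      rw [if_neg hf2, N.edge1 hc h1 h2 e0 e1 e2 hw (by tauto), if_neg hxn]
    · rw [if_neg hx, N.edge1 hc h1 h2 e0 e1 e2 hw (by tauto), if_neg hxn]
  · simp at hw
    simp only [Fin.reduceFinMk, Fin.reduceEq, if_false, if_true]
    by_cases hxn : y + 1 = n
    · rw [if_pos hxn, N.edge2 hc h1 h2 e0 e1 e2 hw (by omega), if_pos hxn]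
    rw [if_neg hxn]
    by_cases hx : y = 0 ∧ x = 1 ∧ 4 ≤ t ∧ t < c.T
    · rw [if_pos hx]
      obtain ⟨rfl, rfl, ht3, htT⟩ := hx
      obtain ⟨f1, f2⟩ := fing t ht3 htT
      by_cases hf1 : (u, v) = c.g t
      · rw [if_pos hf1, ← f1, ← hf1]
      rw [if_neg hf1]
      by_cases hf2 : (u, v) = c.g (t - 1)
      · rw [if_pos hf2, ← f2, ← hf2]
      rw [if_neg hf2, N.edge2 hc h1 h2 e0 e1 e2 hw (by tauto), if_neg hxn]
    · rw [if_neg hx, N.edge2 hc h1 h2 e0 e1 e2 hw (by tauto), if_neg hxn]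
  · simp at hw
    simpa using N.edge3 hc h1 h2 e0 e1 e2 hw
  · simp at hw
    simpa using N.edge4 hc h1 h2 e0 e1 e2 hw

/-- the representation read off from the connection -/
theorem exists_rep [NeZero n] (hc : c.Ok) (h1 : c.T + 3 ≤ n) (h2 : 2 * c.m + 5 ≤ n) :
    ∃ R : Rep c H, ∀ v i, ec v i ∈ c.K true n ∩ PC n (2 * c.m + 2) → N.e v i = R.lab n v i :=
  N.exists_rep_of hc h1 h2 (fun _ ht hT => N.fin_f hc h1 h2 ht hT)
    (fun _ ht hT => N.fin_g hc h1 h2 ht hT)

end NC

end Pool.Agent.FM
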