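import Pool.Agent.FM.Defs2

/-!
BLOCK C08: edge path connectivity and generating loops.
-/

open Set

namespace Pool.Agent.FM

theorem EP.trans {n : ℕ} {G : Type} [Group G] {L : Set (Cell n)} {c : Vx n → Fin 5 → G}
    {u v w : Vx n} {g h : G} (h1 : EP L c u v g) (h2 : EP L c v w h) : EP L c u w (g * h) := by
  induction h2 with
  | refl => rw [mul_one]; exact h1
  | up i _ he ih => rw [← mul_assoc]; exact EP.up i ih he
  | down i _ he ih => rw [← mul_assoc]; exact EP.down i ih he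

theorem EP.symm {n : ℕ} {G : Type} [Group G] {L : Set (Cell n)} {c : Vx n → Fin 5 → G}
    {u v : Vx n} {g : G} (h1 : EP L c u v g) : EP L c v u g⁻¹ := by
  induction h1 with
  | refl => rw [inv_one]; exact EP.refl
  | @up w g i _ he ih =>
    rw [mul_inv_rev]
    refine EP.trans ?_ ih
    have := EP.down (L := L) (c := c) (v := Pool.Agent.FM.up w i) (w := w) i EP.refl he
    rwa [one_mul] at this
  | @down w g i _ he ih =>
    rw [mul_inv_rev, inv_inv]
    refine EP.trans ?_ ih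
    have := EP.up (L := L) (c := c) (v := w) (w := w) i EP.refl he
    rwa [one_mul] at this

/-- the base vertex -/
def vbase (n : ℕ) : Vx n := ![0, 0, 0, 0, 1]

namespace C08

/-- vertex with natural coordinates -/
def V (n t x y u v : ℕ) : Vx n :=
  ![(t : ZMod n), (x : ZMod n), (y : ZMod n), (u : ZMod n), (v : ZMod n)]

/-- membership in the complex in natural numbers -/
def LN (c : Cfg) (t x y u v : ℕ) : Prop :=
  (¬ (0 < u ∧ u < 2 * (2 * c.m + 2) ∧ 0 < v ∧ v < 6) ∨ InK true c t x y u v) ∧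
    u ≤ 2 * (2 * c.m + 2) ∧ v ≤ 6

section

variable {c : Cfg} {n : ℕ}

theorem mem_L (a : Cell n) : a ∈ c.K true n ∩ PC n (2 * c.m + 2) ↔
    LN c (dbl (a 0)) (dbl (a 1)) (dbl (a 2)) (dbl (a 3)) (dbl (a 4)) := Iff.rfl

variable [NeZero n] {t x y u v : ℕ}

theorem exists_V (w : Vx n) : ∃ t x y u v : ℕ, t < n ∧ x < n ∧ y < n ∧ u < n ∧ v < n ∧
    w = V n t x y u v := by
  refine ⟨(w 0).val, (w 1).val, (w 2).val, (w 3).val, (w 4).val, ZMod.val_lt _, ZMod.val_lt _,
    ZMod.val_lt _, ZMod.val_lt _, ZMod.val_lt _, ?_⟩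
  funext i
  fin_cases i <;> simp [V]

omit [NeZero n] in
theorem mem_vc (ht : t < n) (hx : x < n) (hy : y < n) (hu : u < n) (hv : v < n) :
    vc (V n t x y u v) ∈ c.K true n ∩ PC n (2 * c.m + 2) ↔
      LN c (2 * t) (2 * x) (2 * y) (2 * u) (2 * v) := by
  rw [mem_L]
  have e0 : dbl (vc (V n t x y u v) 0) = 2 * t := by
    show 2 * ((t : ZMod n)).val + 0 = 2 * t
    rw [ZMod.val_cast_of_lt ht, add_zero]
  have e1 : dbl (vc (V n t x y u v) 1) = 2 * x := by
    show 2 * ((x : ZMod n)).val + 0 = 2 * x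
    rw [ZMod.val_cast_of_lt hx, add_zero]
  have e2 : dbl (vc (V n t x y u v) 2) = 2 * y := by
    show 2 * ((y : ZMod n)).val + 0 = 2 * y
    rw [ZMod.val_cast_of_lt hy, add_zero]
  have e3 : dbl (vc (V n t x y u v) 3) = 2 * u := by
    show 2 * ((u : ZMod n)).val + 0 = 2 * u
    rw [ZMod.val_cast_of_lt hu, add_zero]
  have e4 : dbl (vc (V n t x y u v) 4) = 2 * v := by
    show 2 * ((v : ZMod n)).val + 0 = 2 * v
    rw [ZMod.val_cast_of_lt hv, add_zero]
  rw [e0, e1, e2, e3, e4]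

omit [NeZero n] in
theorem mem_ec (ht : t < n) (hx : x < n) (hy : y < n) (hu : u < n) (hv : v < n) (i : Fin 5) :
    ec (V n t x y u v) i ∈ c.K true n ∩ PC n (2 * c.m + 2) ↔
      LN c (2 * t + (decide ((0 : Fin 5) = i)).toNat) (2 * x + (decide ((1 : Fin 5) = i)).toNat)
        (2 * y + (decide ((2 : Fin 5) = i)).toNat) (2 * u + (decide ((3 : Fin 5) = i)).toNat)
        (2 * v + (decide ((4 : Fin 5) = i)).toNat) := by
  rw [mem_L]
  have e0 : dbl (ec (V n t x y u v) i 0) = 2 * t + (decide ((0 : Fin 5) = i)).toNat := by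
    show 2 * ((t : ZMod n)).val + _ = _
    rw [ZMod.val_cast_of_lt ht]
    rfl
  have e1 : dbl (ec (V n t x y u v) i 1) = 2 * x + (decide ((1 : Fin 5) = i)).toNat := by
    show 2 * ((x : ZMod n)).val + _ = _
    rw [ZMod.val_cast_of_lt hx]
    rfl
  have e2 : dbl (ec (V n t x y u v) i 2) = 2 * y + (decide ((2 : Fin 5) = i)).toNat := by
    show 2 * ((y : ZMod n)).val + _ = _
    rw [ZMod.val_cast_of_lt hy]
    rfl
  have e3 : dbl (ec (V n t x y u v) i 3) = 2 * u + (decide ((3 : Fin 5) = i)).toNat := by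
    show 2 * ((u : ZMod n)).val + _ = _
    rw [ZMod.val_cast_of_lt hu]
    rfl
  have e4 : dbl (ec (V n t x y u v) i 4) = 2 * v + (decide ((4 : Fin 5) = i)).toNat := by
    show 2 * ((v : ZMod n)).val + _ = _
    rw [ZMod.val_cast_of_lt hv]
    rfl
  rw [e0, e1, e2, e3, e4]

omit [NeZero n] in
theorem up0 : up (V n t x y u v) 0 = V n (t + 1) x y u v := by
  funext i
  fin_cases i <;> simp [up, V, Function.update]
omit [NeZero n] in
theorem up1 : up (V n t x y u v) 1 = V n t (x + 1) y u v := by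
  funext i
  fin_cases i <;> simp [up, V, Function.update]
omit [NeZero n] in
theorem up2 : up (V n t x y u v) 2 = V n t x (y + 1) u v := by
  funext i
  fin_cases i <;> simp [up, V, Function.update]
omit [NeZero n] in
theorem up3 : up (V n t x y u v) 3 = V n t x y (u + 1) v := by
  funext i
  fin_cases i <;> simp [up, V, Function.update]
omit [NeZero n] in
theorem up4 : up (V n t x y u v) 4 = V n t x y u (v + 1) := by
  funext i
  fin_cases i <;> simp [up, V, Function.update]

variable {G : Type} [Group G] (R : Rep c G)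

omit [NeZero n] in
theorem lab_V (ht : t < n) (hx : x < n) (hy : y < n) (hu : u < n) (hv : v < n) (i : Fin 5) :
    R.lab n (V n t x y u v) i = labN R n t x y u v i := by
  show labN R n ((t : ZMod n)).val ((x : ZMod n)).val ((y : ZMod n)).val ((u : ZMod n)).val
    ((v : ZMod n)).val i = _
  rw [ZMod.val_cast_of_lt ht, ZMod.val_cast_of_lt hx, ZMod.val_cast_of_lt hy,
    ZMod.val_cast_of_lt hu, ZMod.val_cast_of_lt hv]

/-- edge path from the base vertex -/
def E (R : Rep c G) (n t x y u v : ℕ) (g : G) : Prop :=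
  EP (c.K true n ∩ PC n (2 * c.m + 2)) (R.lab n) (vbase n) (V n t x y u v) g

variable {R}

omit [NeZero n] in
theorem E.u0 {g g' : G} (h : E R n t x y u v g) (ht : t < n) (hx : x < n) (hy : y < n) (hu : u < n)
    (hv : v < n) (hL : LN c (2 * t + 1) (2 * x) (2 * y) (2 * u) (2 * v))
    (hg : labN R n t x y u v 0 = g') : E R n (t + 1) x y u v (g * g') := by
  have := EP.up (0 : Fin 5) h ((mem_ec ht hx hy hu hv 0).mpr hL)
  rwa [up0, lab_V R ht hx hy hu hv, hg] at this

omit [NeZero n] in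
theorem E.u1 {g g' : G} (h : E R n t x y u v g) (ht : t < n) (hx : x < n) (hy : y < n) (hu : u < n)
    (hv : v < n) (hL : LN c (2 * t) (2 * x + 1) (2 * y) (2 * u) (2 * v))
    (hg : labN R n t x y u v 1 = g') : E R n t (x + 1) y u v (g * g') := by
  have := EP.up (1 : Fin 5) h ((mem_ec ht hx hy hu hv 1).mpr hL)
  rwa [up1, lab_V R ht hx hy hu hv, hg] at this

omit [NeZero n] in
theorem E.u2 {g g' : G} (h : E R n t x y u v g) (ht : t < n) (hx : x < n) (hy : y < n) (hu : u < n)
    (hv : v < n) (hL : LN c (2 * t) (2 * x) (2 * y + 1) (2 * u) (2 * v))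
    (hg : labN R n t x y u v 2 = g') : E R n t x (y + 1) u v (g * g') := by
  have := EP.up (2 : Fin 5) h ((mem_ec ht hx hy hu hv 2).mpr hL)
  rwa [up2, lab_V R ht hx hy hu hv, hg] at this

omit [NeZero n] in
theorem E.u3 {g : G} (h : E R n t x y u v g) (ht : t < n) (hx : x < n) (hy : y < n) (hu : u < n)
    (hv : v < n) (hL : LN c (2 * t) (2 * x) (2 * y) (2 * u + 1) (2 * v)) :
    E R n t x y (u + 1) v g := by
  have := EP.up (3 : Fin 5) h ((mem_ec ht hx hy hu hv 3).mpr hL)
  rw [up3, lab_V R ht hx hy hu hv] at this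
  have e : labN R n t x y u v 3 = 1 := by simp [labN]
  rwa [e, mul_one] at this

omit [NeZero n] in
theorem E.u4 {g g' : G} (h : E R n t x y u v g) (ht : t < n) (hx : x < n) (hy : y < n) (hu : u < n)
    (hv : v < n) (hL : LN c (2 * t) (2 * x) (2 * y) (2 * u) (2 * v + 1))
    (hg : labN R n t x y u v 4 = g') : E R n t x y u (v + 1) (g * g') := by
  have := EP.up (4 : Fin 5) h ((mem_ec ht hx hy hu hv 4).mpr hL)
  rwa [up4, lab_V R ht hx hy hu hv, hg] at this

omit [NeZero n] in
theorem E.d4 {g : G} (h : E R n t x y u (v + 1) g) (ht : t < n) (hx : x < n) (hy : y < n)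
    (hu : u < n) (hv : v < n) (hL : LN c (2 * t) (2 * x) (2 * y) (2 * u) (2 * v + 1))
    (hg : labN R n t x y u v 4 = 1) : E R n t x y u v g := by
  unfold E at h ⊢
  rw [← up4] at h
  have := EP.down (4 : Fin 5) h ((mem_ec ht hx hy hu hv 4).mpr hL)
  rwa [lab_V R ht hx hy hu hv, hg, inv_one, mul_one] at this

/-- cells over the boundary of the rectangle -/
theorem LN_bd {t x y u v : ℕ} (h : ¬ (0 < u ∧ u < 2 * (2 * c.m + 2) ∧ 0 < v ∧ v < 6))
    (hu : u ≤ 2 * (2 * c.m + 2)) (hv : v ≤ 6) : LN c t x y u v := ⟨Or.inl h, hu, hv⟩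

theorem pre_const {γ : ℕ → G} {w : ℕ → ℕ × ℕ} {b : ℕ × ℕ} (hb : b.1 < 3) :
    ∀ t : ℕ, (∀ s ≤ t, w s = b) → pre γ w t = 1 := by
  intro t
  induction t with
  | zero => intro _; rfl
  | succ t ih =>
    intro h
    show pre γ w t * stepLab γ (w t) (w (t + 1)) = 1
    rw [ih fun s hs => h s (by omega), h t (by omega), h (t + 1) le_rfl]
    unfold stepLab
    rw [if_neg (by omega), one_mul]

omit [NeZero n] in
theorem vbase_eq : vbase n = V n 0 0 0 0 1 := by
  funext i
  fin_cases i <;> simp [vbase, V]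

section stages

variable (hc : c.Ok) (h1 : c.T + 3 ≤ n) (h2 : 2 * c.m + 5 ≤ n)

include h1 h2 in
theorem S0a (t : ℕ) (ht : t < n) : E R n t 0 0 0 1 (1 : G) := by
  induction t with
  | zero =>
    unfold E
    rw [← vbase_eq]
    exact EP.refl
  | succ t ih =>
    have := (ih (by omega)).u0 (g' := 1) (by omega) (by omega) (by omega) (by omega) (by omega)
      (LN_bd (by omega) (by omega) (by omega)) (by
        unfold labN
        rw [if_pos rfl, if_neg (by omega)])
    rwa [mul_one] at this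

include hc h1 h2 in
theorem S0b (t : ℕ) (ht : t < n) (x : ℕ) (hx : x < n) : E R n t x 0 0 1 (1 : G) := by
  induction x with
  | zero => exact S0a h1 h2 t ht
  | succ x ih =>
    have := (ih (by omega)).u1 (g' := 1) (by omega) (by omega) (by omega) (by omega) (by omega)
      (LN_bd (by omega) (by omega) (by omega)) (by
        unfold labN
        rw [if_neg (by decide), if_pos rfl, if_neg (by omega)]
        split_ifs with a1 a2 a3
        · rcases Nat.lt_or_ge 3 t with b1 | b1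
          · rcases Nat.lt_or_ge t c.T with b2 | b2
            · have := hc.fp t b1 b2
              rw [← a2] at this
              simp at this
            · have : t = c.T := by omega
              rw [this, R.hf, inv_one]
          · rw [pre_const (b := (0, 1)) (by simp) t fun s hs => hc.f0 s (by omega), inv_one]
        · rcases Nat.lt_or_ge 4 t with b1 | b1
          · have := hc.fp (t - 1) (by omega) (by omega)
            rw [← a3] at this
            simp at this
          · rw [pre_const (b := (0, 1)) (by simp) (t - 1) fun s hs => hc.f0 s (by omega),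
              inv_one]
        · rfl
        · rfl)
    rwa [mul_one] at this

include hc h1 h2 in
theorem S0c (t : ℕ) (ht : t < n) (x : ℕ) (hx : x < n) (y : ℕ) (hy : y < n) :
    E R n t x y 0 1 (1 : G) := by
  induction y with
  | zero => exact S0b hc h1 h2 t ht x hx
  | succ y ih =>
    have := (ih (by omega)).u2 (g' := 1) (by omega) (by omega) (by omega) (by omega) (by omega)
      (LN_bd (by omega) (by omega) (by omega)) (by
        unfold labN
        rw [if_neg (by decide), if_neg (by decide), if_pos rfl, if_neg (by omega)]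
        split_ifs with a1 a2 a3
        · have := hc.gp t
          rw [← a2] at this
          simp at this
        · have := hc.gp (t - 1)
          rw [← a3] at this
          simp at this
        · rfl
        · rfl)
    rwa [mul_one] at this

omit [NeZero n] in
include hc in
/-- vertical labels over small `u` are trivial -/
theorem lab4_one {t x y u v : ℕ} (h : v ≠ 1 ∨ (u ≠ 2 * c.m + 2 ∧ ¬ (u % 2 = 1 ∧ 3 ≤ u))) :
    labN R n t x y u v 4 = 1 := by
  have hm := hc.hm
  unfold labN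
  rw [if_neg (by decide), if_neg (by decide), if_neg (by decide), if_neg (by decide)]
  rcases h with h | ⟨h, h'⟩
  · rw [if_neg h]
  · have e : loopLab c.m R.γ u = 1 := by
      unfold loopLab
      rw [if_neg (by omega)]
    rw [e, if_neg h, if_neg (show ¬ u = 2 * c.m + 1 by omega)]
    simp

include hc h1 h2 in
theorem S1a (t : ℕ) (ht : t < n) (x : ℕ) (hx : x < n) (y : ℕ) (hy : y < n) (v : ℕ) (hv : v ≤ 3) :
    E R n t x y 0 v (1 : G) := by
  have h := S0c (R := R) hc h1 h2 t ht x hx y hy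
  have h0 : E R n t x y 0 0 (1 : G) :=
    h.d4 ht hx hy (by omega) (by omega) (LN_bd (by omega) (by omega) (by omega))
      (lab4_one hc (Or.inl (by omega)))
  have h2' : E R n t x y 0 2 (1 : G) := by
    have := h.u4 ht hx hy (by omega) (by omega) (LN_bd (by omega) (by omega) (by omega))
      (lab4_one hc (Or.inr ⟨by omega, by omega⟩))
    rwa [mul_one] at this
  have h3 : E R n t x y 0 3 (1 : G) := by
    have := h2'.u4 ht hx hy (by omega) (by omega) (LN_bd (by omega) (by omega) (by omega))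
      (lab4_one hc (Or.inl (by omega)))
    rwa [mul_one] at this
  interval_cases v
  · exact h0
  · exact h
  · exact h2'
  · exact h3

include hc h1 h2 in
theorem S1b (t : ℕ) (ht : t < n) (x : ℕ) (hx : x < n) (y : ℕ) (hy : y < n) (v : ℕ)
    (hv : v = 0 ∨ v = 3) (u : ℕ) (hu : u ≤ 2 * c.m + 2) : E R n t x y u v (1 : G) := by
  induction u with
  | zero => exact S1a hc h1 h2 t ht x hx y hy v (by omega)
  | succ u ih =>
    exact (ih (by omega)).u3 ht hx hy (by omega) (by omega)
      (LN_bd (by omega) (by omega) (by omega))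

include hc h1 h2 in
theorem S1c (t : ℕ) (ht : t < n) (x : ℕ) (hx : x < n) (y : ℕ) (hy : y < n) (v : ℕ)
    (hv : v ≤ 3) : E R n t x y (2 * c.m + 2) v (1 : G) := by
  have h0 := S1b (R := R) hc h1 h2 t ht x hx y hy 0 (Or.inl rfl) (2 * c.m + 2) le_rfl
  have h3 := S1b (R := R) hc h1 h2 t ht x hx y hy 3 (Or.inr rfl) (2 * c.m + 2) le_rfl
  have h1' : E R n t x y (2 * c.m + 2) 1 (1 : G) := by
    have := h0.u4 ht hx hy (by omega) (by omega) (LN_bd (by omega) (by omega) (by omega))
      (lab4_one hc (Or.inl (by omega)))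
    rwa [mul_one] at this
  have h2' : E R n t x y (2 * c.m + 2) 2 (1 : G) :=
    h3.d4 ht hx hy (by omega) (by omega) (LN_bd (by omega) (by omega) (by omega))
      (lab4_one hc (Or.inl (by omega)))
  interval_cases v
  · exact h0
  · exact h1'
  · exact h2'
  · exact h3

include hc h1 h2 in
/-- boundary vertices -/
theorem S1 (t : ℕ) (ht : t < n) (x : ℕ) (hx : x < n) (y : ℕ) (hy : y < n) (u v : ℕ)
    (hu : u ≤ 2 * c.m + 2) (hv : v ≤ 3)
    (h : ¬ (0 < u ∧ u < 2 * c.m + 2 ∧ 0 < v ∧ v < 3)) : E R n t x y u v (1 : G) := by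
  rcases Nat.eq_zero_or_pos u with rfl | hu0
  · exact S1a hc h1 h2 t ht x hx y hy v hv
  · rcases Nat.lt_or_ge u (2 * c.m + 2) with hu1 | hu1
    · exact S1b hc h1 h2 t ht x hx y hy v (by omega) u hu
    · have : u = 2 * c.m + 2 := by omega
      rw [this]
      exact S1c hc h1 h2 t ht x hx y hy v hv

include hc h1 h2 in
/-- a row of horizontal edges starting at `u = 0` -/
theorem S2 (t : ℕ) (ht : t < n) (x : ℕ) (hx : x < n) (y : ℕ) (hy : y < n) (v : ℕ) (hv : v ≤ 3)
    (hL : ∀ u ≤ 2 * c.m, LN c (2 * t) (2 * x) (2 * y) (2 * u + 1) (2 * v)) (u : ℕ)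
    (hu : u ≤ 2 * c.m + 1) : E R n t x y u v (1 : G) := by
  induction u with
  | zero => exact S1a hc h1 h2 t ht x hx y hy v hv
  | succ u ih =>
    exact (ih (by omega)).u3 ht hx hy (by omega) (by omega) (hL u (by omega))

/-- the bus is contained in the level -/
def Bus (c : Cfg) (t x y : ℕ) : Prop := ∀ u, u ≤ 4 * c.m + 2 → InK true c t x y u 2

/-- the loop `i` is contained in the level -/
def Loop (c : Cfg) (t x y i : ℕ) : Prop := ∀ u v, onLoop i u v → InK true c t x y u v

include hc h1 h2 in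
theorem S2b (t : ℕ) (ht : t < n) (x : ℕ) (hx : x < n) (y : ℕ) (hy : y < n)
    (hB : Bus c (2 * t) (2 * x) (2 * y)) (u : ℕ)
    (hu : u ≤ 2 * c.m + 1) : E R n t x y u 1 (1 : G) :=
  S2 hc h1 h2 t ht x hx y hy 1 (by omega)
    (fun u hu => ⟨Or.inr (hB _ (by omega)), by omega, by omega⟩) u hu

include hc h1 h2 in
theorem S3 (t : ℕ) (ht : t < n) (x : ℕ) (hx : x < n) (y : ℕ) (hy : y < n)
    (hB : Bus c (2 * t) (2 * x) (2 * y)) (i : ℕ) (hi : i < c.m)
    (hLo : Loop c (2 * t) (2 * x) (2 * y) i) (u : ℕ) (hu : u = 2 * i + 2 ∨ u = 2 * i + 3) :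
    E R n t x y u 2 (1 : G) := by
  have h0 : E R n t x y (2 * i + 2) 2 (1 : G) := by
    have := (S2b (R := R) hc h1 h2 t ht x hx y hy hB (2 * i + 2) (by omega)).u4 ht hx hy
      (by omega) (by omega)
      ⟨Or.inr (hLo (2 * (2 * i + 2)) (2 * 1 + 1) (by unfold onLoop; omega)), by omega, by omega⟩
      (lab4_one hc (Or.inr ⟨by omega, by omega⟩))
    rwa [mul_one] at this
  rcases hu with rfl | rfl
  · exact h0
  · exact h0.u3 ht hx hy (by omega) (by omega)
      ⟨Or.inr (hLo (2 * (2 * i + 2) + 1) (2 * 2) (by unfold onLoop; omega)), by omega, by omega⟩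

include hc h1 h2 in
/-- vertices over the graph at a level -/
theorem S4 (t : ℕ) (ht : t < n) (x : ℕ) (hx : x < n) (y : ℕ) (hy : y < n) (J : Finset ℕ)
    (hJ : ∀ u v, Gam c.m J u v → InK true c (2 * t) (2 * x) (2 * y) u v) (u v : ℕ)
    (h : Gam c.m J (2 * u) (2 * v)) : E R n t x y u v (1 : G) := by
  have hB : Bus c (2 * t) (2 * x) (2 * y) := fun u hu => hJ u 2 (Or.inl ⟨hu, rfl⟩)
  rcases h with ⟨h3, h4⟩ | ⟨i, hiJ, hi, h5, h6, h7, h8, h9⟩
  · have : v = 1 := by omega
    rw [this]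
    exact S2b hc h1 h2 t ht x hx y hy hB u (by omega)
  · have hv : v = 1 ∨ v = 2 := by omega
    rcases hv with rfl | rfl
    · exact S2b hc h1 h2 t ht x hx y hy hB u (by omega)
    · exact S3 hc h1 h2 t ht x hx y hy hB i hi
        (fun u v huv => hJ u v (Or.inr ⟨i, hiJ, hi, huv⟩)) u (by omega)

include hc h1 h2 in
/-- the level `t = x = y = 0` -/
theorem S5 (u v : ℕ) (hu : u ≤ 2 * c.m + 2) (hv : v ≤ 3) : E R n 0 0 0 u v (1 : G) := by
  by_cases h : 0 < u ∧ u < 2 * c.m + 2 ∧ 0 < v ∧ v < 3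
  swap
  · exact S1 hc h1 h2 0 (by omega) 0 (by omega) 0 (by omega) u v hu hv h
  obtain ⟨a1, a2, a3, a4⟩ := h
  have hB : Bus c (2 * 0) (2 * 0) (2 * 0) := fun u hu =>
    Or.inr (Or.inr (Or.inr (Or.inl ⟨rfl, rfl, rfl, by omega, by omega, by omega⟩)))
  have hv : v = 1 ∨ v = 2 := by omega
  rcases hv with rfl | rfl
  · exact S2b hc h1 h2 0 (by omega) 0 (by omega) 0 (by omega) hB u (by omega)
  · have hev : ∀ w, w ≤ 2 * c.m + 1 → ¬ (w % 2 = 1 ∧ 3 ≤ w) → E R n 0 0 0 w 2 (1 : G) := by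
      intro w hw hw'
      have := (S2b (R := R) hc h1 h2 0 (by omega) 0 (by omega) 0 (by omega) hB w hw).u4
        (by omega) (by omega) (by omega) (by omega) (by omega)
        ⟨Or.inr (Or.inr (Or.inr (Or.inr (Or.inl ⟨rfl, rfl, rfl, by omega, by omega, by omega⟩)))),
          by omega, by omega⟩
        (lab4_one hc (Or.inr ⟨by omega, hw'⟩))
      rwa [mul_one] at this
    by_cases h5 : u % 2 = 1 ∧ 3 ≤ u
    · obtain ⟨w, rfl⟩ : ∃ w, u = w + 1 := ⟨u - 1, by omega⟩
      exact (hev w (by omega) (by omega)).u3 (by omega) (by omega) (by omega) (by omega)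
        (by omega)
        ⟨Or.inr (Or.inr (Or.inr (Or.inr (Or.inl ⟨rfl, rfl, rfl, by omega, by omega, by omega⟩)))),
          by omega, by omega⟩
    · exact hev u (by omega) h5

include hc h1 h2 in
/-- the cap of the main walk -/
theorem S6 (t : ℕ) (ht3 : 3 ≤ t) (htT : t ≤ c.T) (u v : ℕ) (hu : u ≤ 2 * c.m + 1)
    (hv : v = 1 ∨ v = 2) : E R n t 2 0 u v (1 : G) :=
  S2 hc h1 h2 t (by omega) 2 (by omega) 0 (by omega) v (by omega)
    (fun u hu => ⟨Or.inr (Or.inr (Or.inr (Or.inr (Or.inr (Or.inr (Or.inr (Or.inr (Or.inr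
      ⟨by omega, by omega, rfl, rfl, by omega, by omega, by omega, by omega⟩)))))))),
      by omega, by omega⟩) u hu

include hc h1 h2 in
/-- the cap of the relator walk -/
theorem S7 (t : ℕ) (ht4 : 4 ≤ t) (htT : t < c.T) (u v : ℕ) (hu1 : 1 ≤ u)
    (hu : u ≤ 2 * c.m + 1) (hv : v = 1 ∨ v = 2) : E R n t 1 1 u v (1 : G) := by
  have hm := hc.hm
  have hB : Bus c (2 * t) (2 * 1) (2 * 0) := fun u hu =>
    Or.inl ⟨rfl, rfl, Or.inl ⟨by omega, Or.inl ⟨hu, rfl⟩⟩⟩
  have hlab : labN R n t 1 0 1 1 2 = 1 := by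
    unfold labN
    rw [if_neg (by decide), if_neg (by decide), if_pos rfl, if_neg (by omega),
      if_pos ⟨rfl, rfl, ht4, htT⟩]
    split_ifs with a2 a3
    · rw [R.hg t ht4 htT a2.symm, inv_one]
    · rcases Nat.lt_or_ge 4 t with b1 | b1
      · rw [R.hg (t - 1) (by omega) (by omega) a3.symm, inv_one]
      · rw [pre_const (b := (1, 1)) (by simp) (t - 1) fun s hs => hc.g0 s (by omega), inv_one]
    · rfl
  have h11 : E R n t 1 1 1 1 (1 : G) := by
    have := (S2b (R := R) hc h1 h2 t (by omega) 1 (by omega) 0 (by omega) hB 1 (by omega)).u2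
      (by omega) (by omega) (by omega) (by omega) (by omega)
      ⟨Or.inr (Or.inr (Or.inr (Or.inr (Or.inr (Or.inr (Or.inl
        ⟨by omega, by omega, rfl, by omega, Or.inr ⟨rfl, rfl⟩⟩)))))), by omega, by omega⟩ hlab
    rwa [mul_one] at this
  have hcap : ∀ u v, 2 ≤ u → u ≤ 4 * c.m + 2 → 2 ≤ v → v ≤ 4 →
      InK true c (2 * t) (2 * 1) (2 * 1) u v := fun u v a1 a2 a3 a4 =>
    Or.inr (Or.inr (Or.inr (Or.inr (Or.inr (Or.inr (Or.inl
        ⟨by omega, by omega, rfl, rfl, a1, a2, a3, a4, by omega⟩))))))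
  have h12 : E R n t 1 1 1 2 (1 : G) := by
    have := h11.u4 (by omega) (by omega) (by omega) (by omega) (by omega)
      ⟨Or.inr (hcap _ _ (by omega) (by omega) (by omega) (by omega)), by omega, by omega⟩
      (lab4_one hc (Or.inr ⟨by omega, by omega⟩))
    rwa [mul_one] at this
  have hrow : ∀ v, (v = 1 ∨ v = 2) → E R n t 1 1 1 v (1 : G) → ∀ w, w ≤ 2 * c.m →
      E R n t 1 1 (w + 1) v (1 : G) := by
    intro v hv hv1 w
    induction w with
    | zero => intro _; exact hv1
    | succ w ih =>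
      intro hw
      exact (ih (by omega)).u3 (by omega) (by omega) (by omega) (by omega) (by omega)
        ⟨Or.inr (hcap _ _ (by omega) (by omega) (by omega) (by omega)), by omega, by omega⟩
  obtain ⟨w, rfl⟩ : ∃ w, u = w + 1 := ⟨u - 1, by omega⟩
  rcases hv with rfl | rfl
  · exact hrow 1 (Or.inl rfl) h11 w (by omega)
  · exact hrow 2 (Or.inr rfl) h12 w (by omega)

omit [NeZero n] in
/-- vertices on the segment between two adjacent vertices of the graph -/
theorem seg_mem {m : ℕ} {p q : ℕ × ℕ} (hp : IsGV m p) (hq : IsGV m q) (h : GAdj m p q)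
    {u v : ℕ} (h1 : 2 * min p.1 q.1 ≤ 2 * u) (h2 : 2 * u ≤ 2 * max p.1 q.1)
    (h3 : 2 * min p.2 q.2 ≤ 2 * v) (h4 : 2 * v ≤ 2 * max p.2 q.2) :
    Gam m (Finset.range m) (2 * u) (2 * v) := by
  have key : ∀ i, i < m → (2 * i + 2 ≤ u ∧ u ≤ 2 * i + 3) → (v = 1 ∨ v = 2) →
      Gam m (Finset.range m) (2 * u) (2 * v) := fun i hi hu hv =>
    Or.inr ⟨i, Finset.mem_range.mpr hi, hi, by omega, by omega, by omega, by omega, by omega⟩
  have keyL : u ≤ 2 * m + 1 → v = 1 → Gam m (Finset.range m) (2 * u) (2 * v) := fun hu hv =>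
    Or.inl ⟨by omega, by omega⟩
  obtain ⟨p1, p2⟩ := p
  obtain ⟨q1, q2⟩ := q
  simp only at h1 h2 h3 h4
  rcases h with h | h | h
  · rw [Prod.mk.injEq] at h
    obtain ⟨rfl, rfl⟩ := h
    rcases hp with ⟨a1, a2⟩ | ⟨i, hi, a1, a2⟩
    · simp only at a1 a2
      exact keyL (by omega) (by omega)
    · simp only at a1 a2
      exact key i hi (by omega) (by omega)
  · rcases h with ⟨a1, a2, a3, a4⟩ | ⟨i, hi, a1, a2, a3, a4⟩ | ⟨i, hi, a1, a2⟩
    · simp only at a1 a2 a3 a4
      exact keyL (by omega) (by omega)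
    · simp only at a1 a2 a3 a4
      exact key i hi (by omega) (by omega)
    · rw [Prod.mk.injEq] at a1 a2
      exact key i hi (by omega) (by omega)
  · rcases h with ⟨a1, a2, a3, a4⟩ | ⟨i, hi, a1, a2, a3, a4⟩ | ⟨i, hi, a1, a2⟩
    · simp only at a1 a2 a3 a4
      exact keyL (by omega) (by omega)
    · simp only at a1 a2 a3 a4
      exact key i hi (by omega) (by omega)
    · rw [Prod.mk.injEq] at a1 a2
      exact key i hi (by omega) (by omega)

omit [NeZero n] in
theorem onW_even {w : ℕ → ℕ × ℕ} {t u v : ℕ} (h : onW w (2 * t) (2 * u) (2 * v)) :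
    2 * min (w (t - 1)).1 (w t).1 ≤ 2 * u ∧ 2 * u ≤ 2 * max (w (t - 1)).1 (w t).1 ∧
    2 * min (w (t - 1)).2 (w t).2 ≤ 2 * v ∧ 2 * v ≤ 2 * max (w (t - 1)).2 (w t).2 := by
  unfold onW at h
  rw [if_neg (by omega), show 2 * t / 2 = t by omega] at h
  exact h

omit [NeZero n] in
theorem walk_mem {m : ℕ} {w : ℕ → ℕ × ℕ} (hv : ∀ t, IsGV m (w t))
    (ha : ∀ t, GAdj m (w t) (w (t + 1))) {t u v : ℕ} (ht : 1 ≤ t)
    (h : onW w (2 * t) (2 * u) (2 * v)) : Gam m (Finset.range m) (2 * u) (2 * v) := by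
  obtain ⟨a1, a2, a3, a4⟩ := onW_even h
  have h5 := ha (t - 1)
  rw [show t - 1 + 1 = t by omega] at h5
  exact seg_mem (hv (t - 1)) (hv t) h5 a1 a2 a3 a4

omit [NeZero n] in
theorem Gam_bound {m : ℕ} {J : Finset ℕ} {u v : ℕ} (h : Gam m J (2 * u) (2 * v)) :
    u ≤ 2 * m + 1 ∧ (v = 1 ∨ v = 2) := by
  rcases h with ⟨h3, h4⟩ | ⟨i, hiJ, hi, h5, h6, h7, h8, h9⟩
  · constructor <;> omega
  · constructor <;> omega

end stages

end

end C08

open C08 in
theorem Cfg.conn {c : Cfg} (hc : c.Ok) {G : Type} [Group G] (R : Rep c G) {n : ℕ} [NeZero n]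
    (h1 : c.T + 3 ≤ n) (h2 : 2 * c.m + 5 ≤ n) (v : Vx n)
    (hv : vc v ∈ c.K true n ∩ PC n (2 * c.m + 2)) :
    EP (c.K true n ∩ PC n (2 * c.m + 2)) (R.lab n) (vbase n) v 1 := by
  have hm := hc.hm
  obtain ⟨t, x, y, u, w, ht, hx, hy, hu, hw, rfl⟩ := exists_V v
  rw [mem_vc ht hx hy hu hw] at hv
  obtain ⟨h, hu', hw'⟩ := hv
  show E R n t x y u w 1
  by_cases hb : 0 < u ∧ u < 2 * c.m + 2 ∧ 0 < w ∧ w < 3
  swap
  · exact S1 hc h1 h2 t ht x hx y hy u w (by omega) (by omega) hb
  replace h := h.resolve_left (by omega)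
  rcases h with ⟨a1, a2, a3⟩ | ⟨a1, a2, a3⟩ | ⟨a1, a2, a3⟩ | ⟨a1, a2, a3, a4, a5, _⟩ |
    ⟨a1, a2, a3, a4⟩ | ⟨a1, a2, a3, a4, a5⟩ | ⟨a1, a2, a3, a4, a5, a6, a7, a8, _⟩ |
    ⟨a1, a2, a3, a4, a5, a6⟩ | ⟨a1, a2, a3, a4, a5, a6, a7, _⟩
  · obtain rfl : x = 1 := by omega
    obtain rfl : y = 0 := by omega
    rcases a3 with ⟨a3, a4⟩ | a3
    · exact S4 hc h1 h2 t ht 1 hx 0 hy (Finset.range c.m)
        (fun u v h => Or.inl ⟨rfl, rfl, Or.inl ⟨a3, h⟩⟩) u w a4
    · exact S4 hc h1 h2 t ht 1 hx 0 hy c.J1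
        (fun u v h => Or.inl ⟨rfl, rfl, Or.inr h⟩) u w a3
  · obtain rfl : t = 2 := by omega
    obtain rfl : y = 0 := by omega
    exact S4 hc h1 h2 2 ht x hx 0 hy c.J2
        (fun u v h => Or.inr (Or.inl ⟨rfl, rfl, h⟩)) u w a3
  · obtain rfl : t = 1 := by omega
    obtain rfl : x = 1 := by omega
    exact S4 hc h1 h2 1 ht 1 hx y hy (Finset.range c.m)
        (fun u v h => Or.inr (Or.inr (Or.inl ⟨rfl, rfl, h⟩))) u w a3
  · obtain rfl : t = 0 := by omega
    obtain rfl : x = 0 := by omega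
    obtain rfl : y = 0 := by omega
    exact S5 hc h1 h2 u w (by omega) (by omega)
  · obtain rfl : t = 0 := by omega
    obtain rfl : y = 0 := by omega
    refine S4 hc h1 h2 0 ht x hx 0 hy {c.m - 1} ?_ u w ?_
    · intro u v h
      refine Or.inr (Or.inr (Or.inr (Or.inr (Or.inl ⟨rfl, rfl, a3, ?_⟩))))
      rcases h with h | ⟨i, hi, hi', h⟩
      · exact Or.inl h
      · rw [Finset.mem_singleton] at hi
        rw [hi] at h
        exact Or.inr h
    · rcases a4 with a4 | a4
      · exact Or.inl a4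
      · exact Or.inr ⟨c.m - 1, Finset.mem_singleton_self _, by omega, a4⟩
  · obtain rfl : x = 1 := by omega
    have hG : Gam c.m (Finset.range c.m) (2 * u) (2 * w) := by
      rcases a5 with a5 | ⟨a5, a6⟩
      · exact walk_mem hc.gv hc.ga (by omega) a5
      · exact Or.inl ⟨by omega, by omega⟩
    have hy' : y = 0 ∨ y = 1 := by omega
    rcases hy' with rfl | rfl
    · exact S4 hc h1 h2 t ht 1 hx 0 hy (Finset.range c.m)
        (fun u v h => Or.inl ⟨rfl, rfl, Or.inl ⟨by omega, h⟩⟩) u w hG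
    · obtain ⟨b1, b2⟩ := Gam_bound hG
      exact S7 hc h1 h2 t (by omega) (by omega) u w (by omega) b1 b2
  · obtain rfl : x = 1 := by omega
    obtain rfl : y = 1 := by omega
    exact S7 hc h1 h2 t (by omega) (by omega) u w (by omega) (by omega) (by omega)
  · obtain rfl : y = 0 := by omega
    have hG : Gam c.m (Finset.range c.m) (2 * u) (2 * w) :=
      walk_mem hc.fv hc.fa (by omega) a6
    have hx' : x = 1 ∨ x = 2 := by omega
    rcases hx' with rfl | rfl
    · exact S4 hc h1 h2 t ht 1 hx 0 hy (Finset.range c.m)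
        (fun u v h => Or.inl ⟨rfl, rfl, Or.inl ⟨by omega, h⟩⟩) u w hG
    · obtain ⟨b1, b2⟩ := Gam_bound hG
      exact S6 hc h1 h2 t (by omega) (by omega) u w b1 b2
  · obtain rfl : y = 0 := by omega
    obtain rfl : x = 2 := by omega
    exact S6 hc h1 h2 t (by omega) (by omega) u w (by omega) (by omega)

open C08 in
theorem Cfg.loops {c : Cfg} (hc : c.Ok) {G : Type} [Group G] (R : Rep c G) {n : ℕ} [NeZero n]
    (h1 : c.T + 3 ≤ n) (h2 : 2 * c.m + 5 ≤ n) :
    vc (vbase n) ∈ c.K true n ∩ PC n (2 * c.m + 2) ∧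
    EP (c.K true n ∩ PC n (2 * c.m + 2)) (R.lab n) (vbase n) (vbase n) R.x0 ∧
    EP (c.K true n ∩ PC n (2 * c.m + 2)) (R.lab n) (vbase n) (vbase n) R.x1 ∧
    EP (c.K true n ∩ PC n (2 * c.m + 2)) (R.lab n) (vbase n) (vbase n) R.z ∧
    ∀ i < c.m, EP (c.K true n ∩ PC n (2 * c.m + 2)) (R.lab n) (vbase n) (vbase n) (R.γ i) := by
  have hm := hc.hm
  have hT := hc.hT
  have hn0 : ((n - 1 + 1 : ℕ) : ZMod n) = 0 := by
    rw [show n - 1 + 1 = n by omega, ZMod.natCast_self]
  refine ⟨?_, ?_, ?_, ?_, ?_⟩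
  · rw [vbase_eq, mem_vc (by omega) (by omega) (by omega) (by omega) (by omega)]
    exact LN_bd (by omega) (by omega) (by omega)
  · have := (S0a (R := R) h1 h2 (n - 1) (by omega)).u0 (g' := R.x0) (by omega) (by omega)
      (by omega) (by omega) (by omega) (LN_bd (by omega) (by omega) (by omega)) (by
        unfold labN
        rw [if_pos rfl, if_pos (by omega)])
    rw [one_mul] at this
    unfold E at this
    have e : V n (n - 1 + 1) 0 0 0 1 = vbase n := by
      rw [vbase_eq]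
      unfold V
      rw [hn0, Nat.cast_zero]
    rwa [e] at this
  · have := (S0b (R := R) hc h1 h2 0 (by omega) (n - 1) (by omega)).u1 (g' := R.x1) (by omega)
      (by omega) (by omega) (by omega) (by omega) (LN_bd (by omega) (by omega) (by omega)) (by
        unfold labN
        rw [if_neg (by decide), if_pos rfl, if_pos (by omega)])
    rw [one_mul] at this
    unfold E at this
    have e : V n 0 (n - 1 + 1) 0 0 1 = vbase n := by
      rw [vbase_eq]
      unfold V
      rw [hn0, Nat.cast_zero]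
    rwa [e] at this
  · have := (S0c (R := R) hc h1 h2 0 (by omega) 0 (by omega) (n - 1) (by omega)).u2 (g' := R.z)
      (by omega)
      (by omega) (by omega) (by omega) (by omega) (LN_bd (by omega) (by omega) (by omega)) (by
        unfold labN
        rw [if_neg (by decide), if_neg (by decide), if_pos rfl, if_pos (by omega)])
    rw [one_mul] at this
    unfold E at this
    have e : V n 0 0 (n - 1 + 1) 0 1 = vbase n := by
      rw [vbase_eq]
      unfold V
      rw [hn0, Nat.cast_zero]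
    rwa [e] at this
  · intro i hi
    have hJ : ∀ u v, Gam c.m (Finset.range c.m) u v →
        InK true c (2 * 1) (2 * 1) (2 * 0) u v := fun u v h =>
      Or.inl ⟨rfl, rfl, Or.inl ⟨by omega, h⟩⟩
    have hi' := Finset.mem_range.mpr hi
    have ha : E R n 1 1 0 (2 * i + 3) 1 (1 : G) :=
      S4 hc h1 h2 1 (by omega) 1 (by omega) 0 (by omega) _ hJ _ _
        (Or.inr ⟨i, hi', hi, by omega, by omega, by omega, by omega, by omega⟩)
    have hb : E R n 1 1 0 (2 * i + 3) 2 (1 : G) :=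
      S4 hc h1 h2 1 (by omega) 1 (by omega) 0 (by omega) _ hJ _ _
        (Or.inr ⟨i, hi', hi, by omega, by omega, by omega, by omega, by omega⟩)
    have hd := ha.u4 (g' := R.γ i) (by omega) (by omega) (by omega) (by omega) (by omega)
      ⟨Or.inr (hJ _ _ (Or.inr ⟨i, hi', hi, by omega, by omega, by omega, by omega, by omega⟩)),
        by omega, by omega⟩ (by
        unfold labN loopLab
        rw [if_neg (by decide), if_neg (by decide), if_neg (by decide), if_neg (by decide),
          if_pos rfl, if_neg (by omega), if_pos ⟨rfl, rfl⟩, if_pos (by omega),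
          show (2 * i + 3 - 3) / 2 = i by omega])
    have := EP.trans hd (EP.symm hb)
    rwa [inv_one, one_mul, mul_one] at this

end Pool.Agent.FM
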