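import Pool.Agent.FM.Defs3
import Pool.Agent.FM.B02
import Pool.Agent.FM.C05

/-!
BLOCK C09: thinning the caps is a collapse.
-/

open Set

namespace Pool.Agent.FM

namespace C09

theorem dbl_inj {n : ℕ} [NeZero n] {a b : C1 n} (h : dbl a = dbl b) : a = b := by
  obtain ⟨k, p⟩ := a
  obtain ⟨l, q⟩ := b
  unfold dbl at h
  have h2 : k.val = l.val ∧ p = q := by
    cases p <;> cases q <;> simp at h ⊢ <;> omega
  rw [ZMod.val_injective n h2.1, h2.2]

/-- change of the coordinate `u` -/
def mu1 {n : ℕ} (a : C1 n) : C1 n := if a.2 = true then (a.1 + 1, false) else (a.1 - 1, true)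

theorem mu1_mu1 {n : ℕ} (a : C1 n) : mu1 (mu1 a) = a := by
  obtain ⟨k, p⟩ := a
  cases p <;> simp [mu1]

theorem dbl_lt {n : ℕ} [NeZero n] (a : C1 n) : dbl a < 2 * n := by
  have h : a.1.val < n := ZMod.val_lt _
  unfold dbl
  obtain ⟨k, p⟩ := a
  cases p
  · simp only [Bool.toNat_false]; simp only at h; omega
  · simp only [Bool.toNat_true]; simp only at h; omega

theorem dbl_mu1_odd {n : ℕ} [NeZero n] {a : C1 n} (h : dbl a % 2 = 1) (h2 : dbl a + 1 < 2 * n) :
    dbl (mu1 a) = dbl a + 1 := by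
  obtain ⟨k, p⟩ := a
  cases p
  · simp [dbl] at h
  · simp only [dbl, mu1, if_true, Bool.toNat_true, Bool.toNat_false] at h h2 ⊢
    have : (k + 1).val = k.val + 1 := by
      rw [ZMod.val_add, ZMod.val_one_eq_one_mod, Nat.add_mod_mod, Nat.mod_eq_of_lt (by omega)]
    omega

theorem dbl_mu1_even {n : ℕ} [NeZero n] {a : C1 n} (h : dbl a % 2 = 0) (h2 : 0 < dbl a) :
    dbl (mu1 a) + 1 = dbl a := by
  obtain ⟨k, p⟩ := a
  cases p
  · have hm1 : mu1 ((k, false) : C1 n) = (k - 1, true) := by simp [mu1]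
    rw [hm1]
    simp only [dbl, Bool.toNat_true, Bool.toNat_false] at h h2 ⊢
    have hlt : k.val < n := ZMod.val_lt _
    have h3 : (k - 1 + 1).val = k.val := by rw [sub_add_cancel]
    have h4 : (k - 1).val < n := ZMod.val_lt _
    rw [ZMod.val_add, ZMod.val_one_eq_one_mod, Nat.add_mod_mod] at h3
    by_cases h5 : (k - 1).val + 1 < n
    · rw [Nat.mod_eq_of_lt h5] at h3; omega
    · have h6 : (k - 1).val + 1 = n := by omega
      rw [h6, Nat.mod_self] at h3
      omega
  · simp [dbl] at h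

/-- the matching -/
def mu {n : ℕ} (a : Cell n) : Cell n := Function.update a 3 (mu1 (a 3))

theorem mu_mu {n : ℕ} (a : Cell n) : mu (mu a) = a := by
  unfold mu
  simp [mu1_mu1]

theorem mu_three {n : ℕ} (a : Cell n) : mu a 3 = mu1 (a 3) := by simp [mu]

theorem mu_ne {n : ℕ} (a : Cell n) {i : Fin 5} (h : i ≠ 3) : mu a i = a i := by
  simp [mu, h]

/-- the cells which are removed, in doubled coordinates -/
def Rm (m T t x y u v : ℕ) : Prop :=
  t % 2 = 1 ∧ v = 3 ∧ u ≤ 4 * m + 2 ∧
    ((8 ≤ t ∧ t + 2 ≤ 2 * T ∧ x = 2 ∧ y = 2 ∧ 2 < u) ∨ (6 ≤ t ∧ t ≤ 2 * T ∧ x = 4 ∧ y = 0 ∧ 0 < u))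

theorem onW_odd {w : ℕ → ℕ × ℕ} {t u v : ℕ} (ht : t % 2 = 1) (h : onW w t u v) : v % 2 = 0 := by
  unfold onW at h
  rw [if_pos ht] at h
  omega

theorem rm_iff (c : Cfg) (t x y u v : ℕ) :
    (InK false c t x y u v ∧ ¬ InK true c t x y u v) ↔ Rm c.m c.T t x y u v := by
  constructor
  · rintro ⟨h, hn⟩
    unfold InK at h hn
    rcases h with h | h | h | h | h | h | h | h | h
    · exact absurd (Or.inl h) hn
    · exact absurd (Or.inr (Or.inl h)) hn
    · exact absurd (Or.inr (Or.inr (Or.inl h))) hn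
    · exact absurd (Or.inr (Or.inr (Or.inr (Or.inl h)))) hn
    · exact absurd (Or.inr (Or.inr (Or.inr (Or.inr (Or.inl h))))) hn
    · exact absurd (Or.inr (Or.inr (Or.inr (Or.inr (Or.inr (Or.inl h)))))) hn
    · have hn' := fun h' => hn (Or.inr (Or.inr (Or.inr (Or.inr (Or.inr (Or.inr (Or.inl h')))))))
      obtain ⟨e1, e2, e3, e4, e5, e6, e7, e8, -⟩ := h
      by_contra hr
      apply hn'
      refine ⟨e1, e2, e3, e4, e5, e6, e7, e8, fun _ h3 => hr ?_⟩
      unfold Rm
      omega
    · exact absurd (Or.inr (Or.inr (Or.inr (Or.inr (Or.inr (Or.inr (Or.inr (Or.inl h)))))))) hn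
    · have hn' := fun h' => hn (Or.inr (Or.inr (Or.inr (Or.inr (Or.inr (Or.inr (Or.inr (Or.inr h'))))))))
      obtain ⟨e1, e2, e3, e4, e5, e6, e7, -⟩ := h
      by_contra hr
      apply hn'
      refine ⟨e1, e2, e3, e4, e5, e6, e7, fun _ h3 => hr ?_⟩
      unfold Rm
      omega
  · intro h
    constructor
    · unfold InK
      rcases h with ⟨e1, e2, e3, h | h⟩
      · right; right; right; right; right; right; left
        refine ⟨by omega, by omega, by omega, by omega, by omega, by omega, by omega, by omega, ?_⟩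
        intro h; simp at h
      · right; right; right; right; right; right; right; right
        refine ⟨by omega, by omega, by omega, by omega, by omega, by omega, by omega, ?_⟩
        intro h; simp at h
    · intro hn
      unfold InK at hn
      unfold Rm at h
      rcases hn with ⟨e1, e2, hn⟩ | ⟨e1, e2, hn⟩ | ⟨e1, e2, hn⟩ | ⟨e1, e2, hn⟩ | ⟨e1, e2, e3, hn⟩ |
        ⟨e1, e2, e3, e4, hn⟩ | ⟨e1, e2, e3, e4, e5, e6, e7, e8, hn⟩ | ⟨e1, e2, e3, e4, e5, hn⟩ |
        ⟨e1, e2, e3, e4, e5, e6, e7, hn⟩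
      · omega
      · omega
      · omega
      · omega
      · omega
      · rcases hn with hn | hn
        · have := onW_odd h.1 hn; omega
        · omega
      · have := hn rfl; omega
      · have := onW_odd h.1 hn; omega
      · have := hn rfl; omega

/-- membership in the difference of the two complexes -/
theorem mem_diff_iff {c : Cfg} {n : ℕ} [NeZero n] (a : Cell n) :
    a ∈ c.K false n \ c.K true n ↔
      Rm c.m c.T (dbl (a 0)) (dbl (a 1)) (dbl (a 2)) (dbl (a 3)) (dbl (a 4)) := by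
  rw [← rm_iff]
  constructor
  · rintro ⟨h | h, h'⟩
    · exact absurd (Or.inl h) h'
    · exact ⟨h, fun h2 => h' (Or.inr h2)⟩
  · rintro ⟨h, h'⟩
    refine ⟨Or.inr h, ?_⟩
    rintro (h2 | h2)
    · have := (rm_iff c _ _ _ _ _).mp ⟨h, h'⟩
      simp only [KO, mem_ofPred_eq] at h2
      unfold Rm at this
      omega
    · exact h' h2

/-- a coface of a removed cell in the full complex is in the direction `u` -/
theorem coface {c : Cfg} {t x y u v t' x' y' u' v' : ℕ} {n : ℕ}
    (h : Rm c.m c.T t x y u v) (h' : InK false c t' x' y' u' v')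
    (ht : C05.FN n t t') (hx : C05.FN n x x') (hy : C05.FN n y y') (hu : C05.FN n u u')
    (hv : C05.FN n v v') : t' = t ∧ x' = x ∧ y' = y ∧ v' = v := by
  unfold C05.FN at *
  unfold Rm at h
  have e0 : t' = t := by omega
  have e4 : v' = v := by omega
  subst e0 e4
  unfold InK at h'
  rcases h' with ⟨e1, e2, hn⟩ | ⟨e1, e2, hn⟩ | ⟨e1, e2, hn⟩ | ⟨e1, e2, hn⟩ | ⟨e1, e2, e3, hn⟩ |
    ⟨e1, e2, e3, e4, hn⟩ | ⟨e1, e2, e3, e4, e5, e6, e7, e8, hn⟩ | ⟨e1, e2, e3, e4, e5, hn⟩ |
    ⟨e1, e2, e3, e4, e5, e6, e7, hn⟩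
  · omega
  · omega
  · omega
  · omega
  · omega
  · rcases hn with hn | hn
    · have := onW_odd h.1 hn; omega
    · omega
  · omega
  · have := onW_odd h.1 hn; omega
  · omega

end C09

open C09

theorem thin_full {c : Cfg} (hc : c.Ok) {n : ℕ} [NeZero n] (h1 : c.T + 3 ≤ n)
    (h2 : 2 * c.m + 5 ≤ n) : HEq' (c.K false n) (c.K true n) := by
  have hsub : c.K true n ⊆ c.K false n := by
    rintro a (ha | ha)
    · exact Or.inl ha
    · right
      by_contra hcon
      apply hcon
      simp only [mem_ofPred_eq] at ha ⊢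
      unfold InK at ha ⊢
      rcases ha with ha | ha | ha | ha | ha | ha | ha | ha | ha
      · exact Or.inl ha
      · exact Or.inr (Or.inl ha)
      · exact Or.inr (Or.inr (Or.inl ha))
      · exact Or.inr (Or.inr (Or.inr (Or.inl ha)))
      · exact Or.inr (Or.inr (Or.inr (Or.inr (Or.inl ha))))
      · exact Or.inr (Or.inr (Or.inr (Or.inr (Or.inr (Or.inl ha)))))
      · obtain ⟨e1, e2, e3, e4, e5, e6, e7, e8, -⟩ := ha
        exact Or.inr (Or.inr (Or.inr (Or.inr (Or.inr (Or.inr (Or.inl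
          ⟨e1, e2, e3, e4, e5, e6, e7, e8, by simp⟩))))))
      · exact Or.inr (Or.inr (Or.inr (Or.inr (Or.inr (Or.inr (Or.inr (Or.inl ha)))))))
      · obtain ⟨e1, e2, e3, e4, e5, e6, e7, -⟩ := ha
        exact Or.inr (Or.inr (Or.inr (Or.inr (Or.inr (Or.inr (Or.inr (Or.inr
          ⟨e1, e2, e3, e4, e5, e6, e7, by simp⟩)))))))
  have hdbl : ∀ a ∈ c.K false n \ c.K true n,
      (dbl (a 3) % 2 = 1 ∧ dbl (mu a 3) = dbl (a 3) + 1) ∨
      (dbl (a 3) % 2 = 0 ∧ dbl (mu a 3) + 1 = dbl (a 3)) := by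
    intro a ha
    rw [mem_diff_iff] at ha
    rw [mu_three]
    unfold Rm at ha
    rcases Nat.mod_two_eq_zero_or_one (dbl (a 3)) with h | h
    · right
      exact ⟨h, dbl_mu1_even h (by omega)⟩
    · left
      exact ⟨h, dbl_mu1_odd h (by omega)⟩
  refine collapse_matching (by omega) (Cfg.isCx_K hc h1 h2 true) (Cfg.isCx_K hc h1 h2 false) hsub
    mu (fun a => dbl (a 3) + dbl (a 3) % 2) ?_ ?_ ?_
  · intro a ha
    refine ⟨?_, mu_mu a, ?_⟩
    · have h3 := hdbl a ha
      rw [mem_diff_iff] at ha ⊢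
      rw [mu_ne a (by decide : (0 : Fin 5) ≠ 3), mu_ne a (by decide : (1 : Fin 5) ≠ 3),
        mu_ne a (by decide : (2 : Fin 5) ≠ 3), mu_ne a (by decide : (4 : Fin 5) ≠ 3)]
      unfold Rm at ha ⊢
      omega
    · rcases hp : (a 3).2 with _ | _
      · left
        refine ⟨3, ?_, hp, ?_, ?_⟩
        · rw [mu_three]; simp [mu1, hp]
        · rw [mu_three]; simp [mu1, hp]
        · intro i hi; rw [mu_ne a hi]
      · right
        refine ⟨3, hp, ?_, ?_, ?_⟩
        · rw [mu_three]; simp [mu1, hp]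
        · rw [mu_three]; simp [mu1, hp]
        · intro i hi; rw [mu_ne a hi]
  · intro a ha
    have h3 := hdbl a ha
    show dbl (mu a 3) + dbl (mu a 3) % 2 = dbl (a 3) + dbl (a 3) % 2
    omega
  · intro a ha hfa e he hae hne
    have h3 := hdbl a ha
    have hodd : dbl (a 3) % 2 = 0 := by
      rcases h3 with h3 | h3
      · exfalso
        obtain ⟨j, g1, g2, g3, g4⟩ := hfa
        by_cases hj : j = 3
        · subst hj
          unfold dbl at h3
          rw [g2] at h3
          simp at h3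
        · rw [mu_ne a hj] at g1
          rw [g1] at g2
          simp at g2
      · exact h3.1
    have ha' := (mem_diff_iff a).mp ha
    have he' : InK false c (dbl (e 0)) (dbl (e 1)) (dbl (e 2)) (dbl (e 3)) (dbl (e 4)) := by
      have h4 : e ∉ c.K true n := fun hcon =>
        ha.2 (Cfg.isCx_K hc h1 h2 true e hcon a (facet_face hae))
      rcases he with he | he
      · exact absurd (Or.inl he) h4
      · exact he
    have hF := facet_face hae
    have hF3 := C05.fn_of_face (hF 3)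
    obtain ⟨q0, q1, q2, q4⟩ := coface ha' he' (C05.fn_of_face (hF 0)) (C05.fn_of_face (hF 1))
      (C05.fn_of_face (hF 2)) hF3 (C05.fn_of_face (hF 4))
    have hne3 : dbl (e 3) ≠ dbl (mu a 3) := by
      intro hcon
      apply hne
      funext i
      by_cases hi : i = 3
      · subst hi; exact dbl_inj hcon
      · rw [mu_ne a hi]
        fin_cases i
        · exact dbl_inj q0
        · exact dbl_inj q1
        · exact dbl_inj q2
        · exact absurd rfl hi
        · exact dbl_inj q4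
    have hne4 : dbl (e 3) ≠ dbl (a 3) := by
      intro hcon
      obtain ⟨j, g1, g2, g3, g4⟩ := hae
      have hej : e = a := by
        funext i
        fin_cases i
        · exact dbl_inj q0
        · exact dbl_inj q1
        · exact dbl_inj q2
        · exact dbl_inj hcon
        · exact dbl_inj q4
      rw [hej, g2] at g1
      simp at g1
    have hlt := dbl_lt (e 3)
    unfold C05.FN at hF3
    unfold Rm at ha'
    show dbl (a 3) + dbl (a 3) % 2 < dbl (e 3) + dbl (e 3) % 2
    omega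

end Pool.Agent.FM
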