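import Pool.Agent.FM.Defs3
import Pool.Agent.FM.B02
import Pool.Agent.FM.C05

/-!
# Block C10: elementary move of the main walk
-/

open Set

namespace Pool.Agent.FM

namespace C10

open C05

section dbl

set_option linter.unusedSectionVars false

variable {n : ℕ} [NeZero n]

/-- the cell of the circle with a given doubled coordinate -/
def und (n k : ℕ) : C1 n := (((k / 2 : ℕ) : ZMod n), decide (k % 2 = 1))

theorem dbl_und {k : ℕ} (hk : k < 2 * n) : dbl (und n k) = k := by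
  unfold dbl und
  rw [ZMod.val_natCast, Nat.mod_eq_of_lt (by omega)]
  by_cases h : k % 2 = 1
  · simp [h]; omega
  · simp [h]; omega

theorem dbl_lt (a : C1 n) : dbl a < 2 * n := by
  have := ZMod.val_lt a.1
  unfold dbl
  rcases a with ⟨k, b⟩
  cases b <;> simp at this ⊢ <;> omega

theorem dbl_inj {a b : C1 n} (h : dbl a = dbl b) : a = b := by
  rcases a with ⟨k, e⟩
  rcases b with ⟨l, f⟩
  unfold dbl at h
  have h1 : k.val = l.val ∧ e = f := by
    cases e <;> cases f <;> simp at h ⊢ <;> omega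
  exact Prod.ext (ZMod.val_injective n h1.1) h1.2

/-- codimension one faces in doubled coordinates -/
def FT (n q p : ℕ) : Prop := p % 2 = 1 ∧ (q + 1 = p ∨ q = p + 1 ∨ (p + 1 = 2 * n ∧ q = 0))

theorem dbl_mod (a : C1 n) : dbl a % 2 = 1 ↔ a.2 = true := by
  rcases a with ⟨k, b⟩
  unfold dbl
  cases b <;> simp

theorem ft_of {b a : C1 n} (h1 : a.2 = true) (h2 : b.2 = false)
    (h3 : b.1 = a.1 ∨ b.1 = a.1 + 1) : FT n (dbl b) (dbl a) := by
  rcases fn_of_face (Or.inr ⟨h1, h2, h3⟩ : Face1 b a) with h | h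
  · exfalso
    have h4 := (dbl_mod a).mpr h1
    rw [← h, dbl_mod b, h2] at h4
    simp at h4
  · exact h

theorem of_ft {b a : C1 n} (h : FT n (dbl b) (dbl a)) :
    a.2 = true ∧ b.2 = false ∧ (b.1 = a.1 ∨ b.1 = a.1 + 1) := by
  obtain ⟨h1, h2⟩ := h
  have ha := (dbl_mod a).mp h1
  have hb : b.2 = false := by
    by_contra hb
    have := (dbl_mod b).mpr (by simpa using hb)
    omega
  refine ⟨ha, hb, ?_⟩
  unfold dbl at h2
  rw [ha, hb] at h2
  simp only [Bool.toNat_true, Bool.toNat_false, add_zero] at h2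
  rcases h2 with h2 | h2 | ⟨h2, h3⟩
  · left
    exact ZMod.val_injective n (by omega)
  · right
    have h3 : b.1.val = a.1.val + 1 := by omega
    rw [← ZMod.natCast_zmod_val b.1, h3, Nat.cast_add, ZMod.natCast_zmod_val, Nat.cast_one]
  · right
    have h4 : b.1.val = 0 := by omega
    have h5 : a.1.val + 1 = n := by omega
    have h6 : ((a.1.val + 1 : ℕ) : ZMod n) = 0 := by rw [h5]; simp
    rw [Nat.cast_add, ZMod.natCast_zmod_val, Nat.cast_one] at h6
    rw [h6]
    exact (ZMod.val_eq_zero b.1).mp h4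

theorem facet_iff {d c : Cell n} : Facet d c ↔
    ∃ j, FT n (dbl (d j)) (dbl (c j)) ∧ ∀ i, i ≠ j → dbl (d i) = dbl (c i) := by
  constructor
  · rintro ⟨j, h1, h2, h3, h4⟩
    exact ⟨j, ft_of h1 h2 h3, fun i hi => by rw [h4 i hi]⟩
  · rintro ⟨j, h1, h2⟩
    obtain ⟨h3, h4, h5⟩ := of_ft h1
    exact ⟨j, h3, h4, h5, fun i hi => dbl_inj (h2 i hi)⟩

theorem cell_ext {a b : Cell n} (h0 : dbl (a 0) = dbl (b 0)) (h1 : dbl (a 1) = dbl (b 1))
    (h2 : dbl (a 2) = dbl (b 2)) (h3 : dbl (a 3) = dbl (b 3)) (h4 : dbl (a 4) = dbl (b 4)) :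
    a = b := by
  funext i
  apply dbl_inj
  fin_cases i <;> assumption

/-- replace the planar part of a cell -/
def setP (a : Cell n) (u v : ℕ) : Cell n :=
  fun i => if i = 3 then und n u else if i = 4 then und n v else a i

theorem setP_0 (a : Cell n) (u v : ℕ) : setP a u v 0 = a 0 := by simp [setP]
theorem setP_1 (a : Cell n) (u v : ℕ) : setP a u v 1 = a 1 := by simp [setP]
theorem setP_2 (a : Cell n) (u v : ℕ) : setP a u v 2 = a 2 := by simp [setP]
theorem setP_3 (a : Cell n) {u : ℕ} (v : ℕ) (hu : u < 2 * n) : dbl (setP a u v 3) = u := by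
  simp [setP, dbl_und hu]
theorem setP_4 (a : Cell n) (u : ℕ) {v : ℕ} (hv : v < 2 * n) : dbl (setP a u v 4) = v := by
  simp [setP, dbl_und hv]

end dbl

/-- the closed segment between two vertices, in doubled coordinates -/
def Box (p q : ℕ × ℕ) (u v : ℕ) : Prop :=
  2 * min p.1 q.1 ≤ u ∧ u ≤ 2 * max p.1 q.1 ∧ 2 * min p.2 q.2 ≤ v ∧ v ≤ 2 * max p.2 q.2

theorem Box_self {p : ℕ × ℕ} {u v : ℕ} : Box p p u v ↔ u = 2 * p.1 ∧ v = 2 * p.2 := by
  unfold Box
  simp only [min_self, max_self]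
  omega

theorem Box_symm {p q : ℕ × ℕ} {u v : ℕ} : Box p q u v ↔ Box q p u v := by
  unfold Box
  rw [min_comm p.1, max_comm p.1, min_comm p.2, max_comm p.2]

theorem onW_odd {w : ℕ → ℕ × ℕ} {j u v : ℕ} :
    onW w (2 * j + 1) u v ↔ u = 2 * (w j).1 ∧ v = 2 * (w j).2 := by
  unfold onW
  rw [if_pos (by omega), show (2 * j + 1) / 2 = j by omega]

theorem onW_even {w : ℕ → ℕ × ℕ} {j u v : ℕ} :
    onW w (2 * (j + 1)) u v ↔ Box (w j) (w (j + 1)) u v := by
  unfold onW Box
  rw [if_neg (by omega), show 2 * (j + 1) / 2 = j + 1 by omega, show j + 1 - 1 = j by omega]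

theorem seg_gam {m : ℕ} {p q : ℕ × ℕ} (hp : IsGV m p) (hq : IsGV m q) (h : GAdj m p q) {u v : ℕ}
    (h1 : 2 * min p.1 q.1 ≤ u) (h2 : u ≤ 2 * max p.1 q.1) (h3 : 2 * min p.2 q.2 ≤ v)
    (h4 : v ≤ 2 * max p.2 q.2) : Gam m (Finset.range m) u v := by
  have key : ∀ {p q : ℕ × ℕ}, GE m p q → 2 * min p.1 q.1 ≤ u → u ≤ 2 * max p.1 q.1 →
      2 * min p.2 q.2 ≤ v → v ≤ 2 * max p.2 q.2 → Gam m (Finset.range m) u v := by
    intro p q h h1 h2 h3 h4
    rcases h with h | ⟨i, hi, h⟩ | ⟨i, hi, rfl, rfl⟩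
    · left; unfold onL; omega
    · right
      refine ⟨i, by simpa using hi, hi, ?_⟩
      unfold onLoop; omega
    · right
      refine ⟨i, by simpa using hi, hi, ?_⟩
      simp only at h1 h2 h3 h4
      unfold onLoop; omega
  rcases h with rfl | h | h
  · rcases hp with hp | ⟨i, hi, hp⟩
    · left; unfold onL; omega
    · right
      refine ⟨i, by simpa using hi, hi, ?_⟩
      unfold onLoop; omega
  · exact key h h1 h2 h3 h4
  · exact key h (by rw [min_comm]; exact h1) (by rw [max_comm]; exact h2)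
      (by rw [min_comm]; exact h3) (by rw [max_comm]; exact h4)

theorem walk_gam {m : ℕ} {w : ℕ → ℕ × ℕ} (hw : ∀ t, IsGV m (w t))
    (ha : ∀ t, GAdj m (w t) (w (t + 1))) {t u v : ℕ} (h : onW w t u v) (h0 : 2 ≤ t) :
    Gam m (Finset.range m) u v ∧ u ≤ 4 * m + 2 ∧ 2 ≤ v ∧ v ≤ 4 := by
  by_cases hc : t % 2 = 1
  · obtain ⟨j, rfl⟩ : ∃ j, t = 2 * j + 1 := ⟨t / 2, by omega⟩
    rw [onW_odd] at h
    have g := gv_le (hw j)
    refine ⟨?_, by omega, by omega, by omega⟩
    exact seg_gam (hw j) (hw j) (Or.inl rfl) (by omega) (by omega) (by omega) (by omega)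
  · obtain ⟨j, rfl⟩ : ∃ j, t = 2 * (j + 1) := ⟨t / 2 - 1, by omega⟩
    rw [onW_even] at h
    unfold Box at h
    have g1 := gv_le (hw j)
    have g2 := gv_le (hw (j + 1))
    refine ⟨?_, by omega, by omega, by omega⟩
    exact seg_gam (hw j) (hw (j + 1)) (ha j) h.1 h.2.1 h.2.2.1 h.2.2.2

/-- the data of an elementary move at the time `s + 1` -/
structure Hyp (c c' : Cfg) (s : ℕ) : Prop where
  hc : c.Ok
  hc' : c'.Ok
  hm : c'.m = c.m
  hT : c'.T = c.T
  hJ1 : c'.J1 = c.J1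
  hJ2 : c'.J2 = c.J2
  hg : c'.g = c.g
  h3 : 3 ≤ s
  h3' : s + 1 < c.T
  hf : ∀ t, t ≠ s + 1 → c'.f t = c.f t
  hl : c.f s = c.f (s + 1) ∨ c.f s = c'.f (s + 1)
  hr : c.f (s + 2) = c.f (s + 1) ∨ c.f (s + 2) = c'.f (s + 1)
  hadj : GAdj c.m (c.f (s + 1)) (c'.f (s + 1))
  hne : c.f (s + 1) ≠ c'.f (s + 1)

theorem gadj_symm {m : ℕ} {p q : ℕ × ℕ} (h : GAdj m p q) : GAdj m q p := by
  rcases h with h | h | h
  · exact Or.inl h.symm
  · exact Or.inr (Or.inr h)
  · exact Or.inr (Or.inl h)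

theorem Hyp.symm {c c' : Cfg} {s : ℕ} (h : Hyp c c' s) : Hyp c' c s where
  hc := h.hc'
  hc' := h.hc
  hm := h.hm.symm
  hT := h.hT.symm
  hJ1 := h.hJ1.symm
  hJ2 := h.hJ2.symm
  hg := h.hg.symm
  h3 := h.h3
  h3' := by rw [h.hT]; exact h.h3'
  hf := fun t ht => (h.hf t ht).symm
  hl := by
    rw [h.hf s (by omega)]
    exact h.hl.symm
  hr := by
    rw [h.hf (s + 2) (by omega)]
    exact h.hr.symm
  hadj := by rw [h.hm]; exact gadj_symm h.hadj
  hne := h.hne.symm

/-- the larger complex -/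
def LL (n : ℕ) (c c' : Cfg) (s : ℕ) : Set (Cell n) :=
  c.K false n ∪ c'.K false n ∪ {a | dbl (a 0) = 2 * (s + 1) + 1 ∧ dbl (a 1) = 3 ∧
    dbl (a 2) = 0 ∧ dbl (a 3) = (c.f (s + 1)).1 + (c'.f (s + 1)).1 ∧
    dbl (a 4) = (c.f (s + 1)).2 + (c'.f (s + 1)).2}

theorem LL_symm (n : ℕ) (c c' : Cfg) (s : ℕ) : LL n c c' s = LL n c' c s := by
  unfold LL
  rw [union_comm (c.K false n)]
  congr 1
  ext a
  simp only [mem_ofPred_eq]
  rw [add_comm (c.f (s + 1)).1, add_comm (c.f (s + 1)).2]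

/-- the new cells -/
def New (c c' : Cfg) (s t x y u v : ℕ) : Prop :=
  x = 3 ∧ y = 0 ∧ (t = 2 * (s + 1) + 1 ∨ (t = 2 * (s + 1) ∧ c.f s = c.f (s + 1)) ∨
    (t = 2 * (s + 1 + 1) ∧ c.f (s + 2) = c.f (s + 1))) ∧
  ((u = (c.f (s + 1)).1 + (c'.f (s + 1)).1 ∧ v = (c.f (s + 1)).2 + (c'.f (s + 1)).2) ∨
    (u = 2 * (c'.f (s + 1)).1 ∧ v = 2 * (c'.f (s + 1)).2))

/-- numerical data of two adjacent vertices -/
structure Nums (m : ℕ) (p q : ℕ × ℕ) : Prop where
  a : (p.1 = q.1 ∧ (p.2 + 1 = q.2 ∨ q.2 + 1 = p.2)) ∨ (p.2 = q.2 ∧ (p.1 + 1 = q.1 ∨ q.1 + 1 = p.1))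
  p1 : 1 ≤ p.1 ∧ p.1 ≤ 2 * m + 1
  p2 : 1 ≤ p.2 ∧ p.2 ≤ 2
  q1 : 1 ≤ q.1 ∧ q.1 ≤ 2 * m + 1
  q2 : 1 ≤ q.2 ∧ q.2 ≤ 2

theorem Nums.box {m : ℕ} {p q : ℕ × ℕ} (N : Nums m p q) {u v : ℕ} : Box p q u v ↔
    (u = 2 * p.1 ∧ v = 2 * p.2) ∨ (u = p.1 + q.1 ∧ v = p.2 + q.2) ∨
      (u = 2 * q.1 ∧ v = 2 * q.2) := by
  have h := N.a
  clear N
  obtain ⟨p1, p2⟩ := p
  obtain ⟨q1, q2⟩ := q
  unfold Box
  simp only at h ⊢
  rcases h with ⟨h1, h2 | h2⟩ | ⟨h1, h2 | h2⟩
  · subst h1 h2
    rw [min_self, max_self, min_eq_left (by omega), max_eq_right (by omega)]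
    omega
  · subst h1 h2
    rw [min_self, max_self, min_eq_right (by omega), max_eq_left (by omega)]
    omega
  · subst h1 h2
    rw [min_self, max_self, min_eq_left (by omega), max_eq_right (by omega)]
    omega
  · subst h1 h2
    rw [min_self, max_self, min_eq_right (by omega), max_eq_left (by omega)]
    omega

theorem Nums.ne {m : ℕ} {p q : ℕ × ℕ} (N : Nums m p q) :
    ¬ (p.1 + q.1 = 2 * p.1 ∧ p.2 + q.2 = 2 * p.2) ∧
    ¬ (2 * q.1 = 2 * p.1 ∧ 2 * q.2 = 2 * p.2) ∧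
    ¬ (p.1 + q.1 = 2 * q.1 ∧ p.2 + q.2 = 2 * q.2) := by
  have h := N.a
  clear N
  omega

theorem Hyp.nums {c c' : Cfg} {s : ℕ} (h : Hyp c c' s) :
    Nums c.m (c.f (s + 1)) (c'.f (s + 1)) := by
  have h1 := adj_cases h.hadj
  have h2 := gv_le (h.hc.fv (s + 1))
  have h3 := gv_le (h.hc'.fv (s + 1))
  have h4 := h.hc.fp (s + 1) (by have := h.h3; omega) h.h3'
  have h5 := h.hc'.fp (s + 1) (by have := h.h3; omega) (by rw [h.hT]; exact h.h3')
  have h6 := h.hne
  rw [h.hm] at h3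
  refine ⟨?_, by omega, by omega, by omega, by omega⟩
  have h7 : ¬ ((c.f (s + 1)).1 = (c'.f (s + 1)).1 ∧ (c.f (s + 1)).2 = (c'.f (s + 1)).2) :=
    fun h8 => h6 (Prod.ext h8.1 h8.2)
  omega

theorem inK_three {c : Cfg} {t y u v : ℕ} (ht : 6 ≤ t) (h : InK false c t 3 y u v) :
    y = 0 ∧ t ≤ 2 * c.T ∧ onW c.f t u v := by
  unfold InK at h
  rcases h with ⟨e1, e2, h⟩ | ⟨e1, e2, h⟩ | ⟨e1, e2, h⟩ | ⟨e1, e2, h⟩ | ⟨e1, e2, e3, h⟩ |
    ⟨e1, e2, e3, e4, h⟩ | ⟨e1, e2, e3, e4, e5, e6, e7, e8, h⟩ | ⟨e1, e2, e3, e4, e5, h⟩ |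
    ⟨e1, e2, e3, e4, e5, e6, e7, h⟩
  · omega
  · omega
  · omega
  · omega
  · omega
  · omega
  · omega
  · exact ⟨e3, e2, h⟩
  · omega

theorem inK_three' {c : Cfg} {t u v : ℕ} (ht : 6 ≤ t) (hT : t ≤ 2 * c.T) (h : onW c.f t u v) :
    InK false c t 3 0 u v := by
  unfold InK
  right; right; right; right; right; right; right; left
  exact ⟨ht, hT, rfl, by norm_num, by norm_num, h⟩

theorem mem_K_three {c : Cfg} {n : ℕ} {a : Cell n} (ht : 6 ≤ dbl (a 0)) (hx : dbl (a 1) = 3)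
    (hu : 0 < dbl (a 3) ∧ dbl (a 3) < 2 * (2 * c.m + 2)) (hv : 0 < dbl (a 4) ∧ dbl (a 4) < 6) :
    a ∈ c.K false n ↔ dbl (a 2) = 0 ∧ dbl (a 0) ≤ 2 * c.T ∧
      onW c.f (dbl (a 0)) (dbl (a 3)) (dbl (a 4)) := by
  constructor
  · rintro (h | h)
    · exact absurd ⟨hu.1, hu.2, hv.1, hv.2⟩ h
    · have h' : InK false c (dbl (a 0)) (dbl (a 1)) (dbl (a 2)) (dbl (a 3)) (dbl (a 4)) := h
      rw [hx] at h'
      exact inK_three ht h'
  · rintro ⟨h1, h2, h3⟩
    right
    show InK false c (dbl (a 0)) (dbl (a 1)) (dbl (a 2)) (dbl (a 3)) (dbl (a 4))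
    rw [hx, h1]
    exact inK_three' ht h2 h3

/-- the walks at the relevant times -/
theorem Hyp.walk {c c' : Cfg} {s : ℕ} (h : Hyp c c' s) {t u v : ℕ} (ht : 2 ≤ t)
    (h' : onW c'.f t u v) (hn : ¬ onW c.f t u v) : New c c' s t 3 0 u v := by
  have N := h.nums
  have e1 : c'.f s = c.f s := h.hf s (by omega)
  have e2 : c'.f (s + 2) = c.f (s + 2) := h.hf (s + 2) (by omega)
  refine ⟨rfl, rfl, ?_⟩
  by_cases hc : t % 2 = 1
  · obtain ⟨j, rfl⟩ : ∃ j, t = 2 * j + 1 := ⟨t / 2, by omega⟩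
    rw [onW_odd] at h' hn
    by_cases hj : j = s + 1
    · subst hj
      exact ⟨Or.inl rfl, Or.inr h'⟩
    · rw [h.hf j hj] at h'
      exact absurd h' hn
  · obtain ⟨j, rfl⟩ : ∃ j, t = 2 * (j + 1) := ⟨t / 2 - 1, by omega⟩
    rw [onW_even] at h' hn
    by_cases hj : j = s + 1
    · subst hj
      rw [show s + 1 + 1 = s + 2 from rfl] at h' hn ⊢
      rw [e2] at h'
      rcases h.hr with hr | hr
      · rw [hr] at h' hn
        rw [Box_symm, N.box] at h'
        rw [Box_self] at hn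
        exact ⟨Or.inr (Or.inr ⟨rfl, hr⟩), h'.resolve_left hn⟩
      · rw [hr] at h' hn
        rw [Box_self] at h'
        rw [N.box] at hn
        exact absurd (Or.inr (Or.inr h')) hn
    · by_cases hj' : j = s
      · subst hj'
        rw [e1] at h'
        rcases h.hl with hl | hl
        · rw [hl] at h' hn
          rw [N.box] at h'
          rw [Box_self] at hn
          exact ⟨Or.inr (Or.inl ⟨rfl, hl⟩), h'.resolve_left hn⟩
        · rw [hl] at h' hn
          rw [Box_self] at h'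
          rw [Box_symm, N.box] at hn
          exact absurd (Or.inr (Or.inr h')) hn
      · rw [h.hf j hj, h.hf (j + 1) (by omega)] at h'
        exact absurd h' hn

theorem inK_diff {c c' : Cfg} {s : ℕ} (h : Hyp c c' s) {t x y u v : ℕ}
    (h' : InK false c' t x y u v) (hn : ¬ InK false c t x y u v) :
    New c c' s t x y u v := by
  unfold InK at h'
  rw [h.hm, h.hT, h.hJ1, h.hJ2, h.hg] at h'
  rcases h' with h' | h' | h' | h' | h' | h' | h' | ⟨d1, d2, d3, d4, d5, h'⟩ | h'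
  · exact absurd (Or.inl h') hn
  · exact absurd (Or.inr (Or.inl h')) hn
  · exact absurd (Or.inr (Or.inr (Or.inl h'))) hn
  · exact absurd (Or.inr (Or.inr (Or.inr (Or.inl h')))) hn
  · exact absurd (Or.inr (Or.inr (Or.inr (Or.inr (Or.inl h'))))) hn
  · exact absurd (Or.inr (Or.inr (Or.inr (Or.inr (Or.inr (Or.inl h')))))) hn
  · exact absurd (Or.inr (Or.inr (Or.inr (Or.inr (Or.inr (Or.inr (Or.inl h'))))))) hn
  · have hg := walk_gam h.hc'.fv h.hc'.fa h' (by omega)
    rw [h.hm] at hg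
    obtain ⟨g1, g2, g3, g4⟩ := hg
    rcases (show x = 2 ∨ x = 3 ∨ x = 4 by omega) with hx | hx | hx
    · exact absurd (Or.inl ⟨hx, d3, Or.inl ⟨d2, g1⟩⟩) hn
    · subst hx d3
      refine h.walk (by omega) h' fun hw => hn ?_
      exact inK_three' d1 d2 hw
    · refine absurd ?_ hn
      exact Or.inr (Or.inr (Or.inr (Or.inr (Or.inr (Or.inr (Or.inr (Or.inr
        ⟨d1, d2, d3, hx, g2, g3, g4, fun hz => absurd hz (by decide)⟩)))))))
  · exact absurd (Or.inr (Or.inr (Or.inr (Or.inr (Or.inr (Or.inr (Or.inr (Or.inr h')))))))) hn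

theorem Hyp.char {c c' : Cfg} {s : ℕ} (h : Hyp c c' s) {n : ℕ} [NeZero n] (a : Cell n) :
    a ∈ LL n c c' s \ c.K false n ↔
      New c c' s (dbl (a 0)) (dbl (a 1)) (dbl (a 2)) (dbl (a 3)) (dbl (a 4)) := by
  have N := h.nums
  have h3 := h.h3
  have h3' := h.h3'
  have e1 : c'.f s = c.f s := h.hf s (by omega)
  have e2 : c'.f (s + 2) = c.f (s + 2) := h.hf (s + 2) (by omega)
  constructor
  · rintro ⟨(ha | ha) | ha, hn⟩
    · exact absurd ha hn
    · rcases ha with ha | ha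
      · exfalso
        apply hn
        left
        have : KO n (2 * c'.m + 2) = KO n (2 * c.m + 2) := by rw [h.hm]
        rw [← this]
        exact ha
      · exact inK_diff h ha fun hh => hn (Or.inr hh)
    · obtain ⟨d0, d1, d2, d3, d4⟩ := ha
      exact ⟨d1, d2, Or.inl d0, Or.inl ⟨d3, d4⟩⟩
  · rintro ⟨hx, hy, ht, hp⟩
    have hu : 0 < dbl (a 3) ∧ dbl (a 3) < 2 * (2 * c.m + 2) := by
      have := N.p1; have := N.q1; omega
    have hv : 0 < dbl (a 4) ∧ dbl (a 4) < 6 := by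
      have := N.p2; have := N.q2; omega
    have ht6 : 6 ≤ dbl (a 0) := by omega
    have hu' : 0 < dbl (a 3) ∧ dbl (a 3) < 2 * (2 * c'.m + 2) := by rw [h.hm]; exact hu
    have hne : ¬ (dbl (a 3) = 2 * (c.f (s + 1)).1 ∧ dbl (a 4) = 2 * (c.f (s + 1)).2) := by
      have := N.ne
      rcases hp with ⟨hp1, hp2⟩ | ⟨hp1, hp2⟩
      · rw [hp1, hp2]; exact this.1
      · rw [hp1, hp2]; exact this.2.1
    unfold LL
    constructor
    · rcases ht with ht | ⟨ht, hf⟩ | ⟨ht, hf⟩
      · rcases hp with hp | hp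
        · right
          exact ⟨ht, hx, hy, hp.1, hp.2⟩
        · left; right
          rw [mem_K_three ht6 hx hu' hv]
          refine ⟨hy, by rw [h.hT]; omega, ?_⟩
          rw [ht, onW_odd]
          exact hp
      · left; right
        rw [mem_K_three ht6 hx hu' hv]
        refine ⟨hy, by rw [h.hT]; omega, ?_⟩
        rw [ht, onW_even, e1, hf, N.box]
        exact Or.inr hp
      · left; right
        rw [mem_K_three ht6 hx hu' hv]
        refine ⟨hy, by rw [h.hT]; omega, ?_⟩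
        rw [ht, onW_even, show s + 1 + 1 = s + 2 from rfl, e2, hf, Box_symm, N.box]
        exact Or.inr hp
    · rw [mem_K_three ht6 hx hu hv]
      rintro ⟨-, -, hw⟩
      rcases ht with ht | ⟨ht, hf⟩ | ⟨ht, hf⟩
      · rw [ht, onW_odd] at hw
        exact hne hw
      · rw [ht, onW_even, hf, Box_self] at hw
        exact hne hw
      · rw [ht, onW_even, show s + 1 + 1 = s + 2 from rfl, hf, Box_self] at hw
        exact hne hw

theorem planar_face {n m : ℕ} {p q : ℕ × ℕ} (N : Nums m p q) (h2 : 2 * m + 5 ≤ n) {u v : ℕ}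
    (hu : FN n u (p.1 + q.1)) (hv : FN n v (p.2 + q.2)) :
    (u = 2 * p.1 ∧ v = 2 * p.2) ∨ (u = p.1 + q.1 ∧ v = p.2 + q.2) ∨
      (u = 2 * q.1 ∧ v = 2 * q.2) := by
  have h := N.a
  have hp1 := N.p1
  have hp2 := N.p2
  have hq1 := N.q1
  have hq2 := N.q2
  clear N
  unfold FN at hu hv
  rcases h with ⟨h, h'⟩ | ⟨h, h'⟩
  · have e1 : u = 2 * p.1 := by omega
    have e2 : v = 2 * p.2 ∨ v = p.2 + q.2 ∨ v = 2 * q.2 := by omega
    omega
  · have e1 : v = 2 * p.2 := by omega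
    have e2 : u = 2 * p.1 ∨ u = p.1 + q.1 ∨ u = 2 * q.1 := by omega
    omega

theorem LL_cx {c c' : Cfg} {s : ℕ} (h : Hyp c c' s) {n : ℕ} [NeZero n] (h1 : c.T + 3 ≤ n)
    (h2 : 2 * c.m + 5 ≤ n) : IsCx (LL n c c' s) := by
  intro a ha b hb
  rcases ha with (ha | ha) | ha
  · left; left
    exact Cfg.isCx_K h.hc h1 h2 false a ha b hb
  · left; right
    exact Cfg.isCx_K h.hc' (by rw [h.hT]; exact h1) (by rw [h.hm]; exact h2) false a ha b hb
  · obtain ⟨d0, d1, d2, d3, d4⟩ := ha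
    have f0 := fn_of_face (hb 0)
    have f1 := fn_of_face (hb 1)
    have f2 := fn_of_face (hb 2)
    have f3 := fn_of_face (hb 3)
    have f4 := fn_of_face (hb 4)
    rw [d0] at f0
    rw [d1] at f1
    rw [d2] at f2
    rw [d3] at f3
    rw [d4] at f4
    have N := h.nums
    have hp := planar_face N h2 f3 f4
    have h3' := h.h3'
    have h3 := h.h3
    have g0 : dbl (b 0) = 2 * (s + 1) + 1 ∨ dbl (b 0) = 2 * (s + 1) ∨
        dbl (b 0) = 2 * (s + 1 + 1) := by
      unfold FN at f0; omega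
    have g1 : dbl (b 1) = 3 ∨ dbl (b 1) = 2 ∨ dbl (b 1) = 4 := by
      unfold FN at f1; omega
    have g2 : dbl (b 2) = 0 := by
      unfold FN at f2; omega
    have hbox : Box (c.f (s + 1)) (c'.f (s + 1)) (dbl (b 3)) (dbl (b 4)) := N.box.mpr hp
    rcases g1 with g1 | g1 | g1
    · have hu : 0 < dbl (b 3) ∧ dbl (b 3) < 2 * (2 * c.m + 2) := by
        have := N.p1; have := N.q1; omega
      have hv : 0 < dbl (b 4) ∧ dbl (b 4) < 6 := by
        have := N.p2; have := N.q2; omega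
      have ht6 : 6 ≤ dbl (b 0) := by omega
      by_cases hK : b ∈ c.K false n
      · left; left; exact hK
      · have hnew := (h.char b).mpr
        refine (hnew ⟨g1, g2, ?_, ?_⟩).1
        · rw [mem_K_three ht6 g1 hu hv] at hK
          rcases g0 with g0 | g0 | g0
          · exact Or.inl g0
          · right; left
            refine ⟨g0, ?_⟩
            rcases h.hl with hl | hl
            · exact hl
            · exfalso
              apply hK
              refine ⟨g2, by omega, ?_⟩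
              rw [g0, onW_even, hl, Box_symm]
              exact hbox
          · right; right
            refine ⟨g0, ?_⟩
            rcases h.hr with hr | hr
            · exact hr
            · exfalso
              apply hK
              refine ⟨g2, by omega, ?_⟩
              rw [g0, onW_even, show s + 1 + 1 = s + 2 from rfl, hr]
              exact hbox
        · rcases hp with hp | hp | hp
          · exfalso
            rw [mem_K_three ht6 g1 hu hv] at hK
            apply hK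
            refine ⟨g2, by omega, ?_⟩
            rcases g0 with g0 | g0 | g0
            · rw [g0, onW_odd]; exact hp
            · rw [g0, onW_even]
              rcases h.hl with hl | hl
              · rw [hl, Box_self]; exact hp
              · rw [hl, Box_symm]; exact hbox
            · rw [g0, onW_even, show s + 1 + 1 = s + 2 from rfl]
              rcases h.hr with hr | hr
              · rw [hr, Box_self]; exact hp
              · rw [hr]; exact hbox
          · exact Or.inl hp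
          · exact Or.inr hp
    · left; left; right
      show InK false c (dbl (b 0)) (dbl (b 1)) (dbl (b 2)) (dbl (b 3)) (dbl (b 4))
      left
      refine ⟨g1, g2, Or.inl ⟨by omega, ?_⟩⟩
      have hq := h.hc'.fv (s + 1)
      rw [h.hm] at hq
      exact seg_gam (h.hc.fv (s + 1)) hq h.hadj hbox.1 hbox.2.1 hbox.2.2.1 hbox.2.2.2
    · left; left; right
      show InK false c (dbl (b 0)) (dbl (b 1)) (dbl (b 2)) (dbl (b 3)) (dbl (b 4))
      have p1 := N.p1
      have p2 := N.p2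
      have q1 := N.q1
      have q2 := N.q2
      refine Or.inr (Or.inr (Or.inr (Or.inr (Or.inr (Or.inr (Or.inr (Or.inr
        ⟨by omega, by omega, g2, g1, by omega, by omega, by omega,
          fun hz => absurd hz (by decide)⟩)))))))

theorem not_FT_self {n x : ℕ} : ¬ FT n x x := by
  unfold FT; omega

open Classical in
/-- the matching -/
noncomputable def mu (n : ℕ) (p q : ℕ × ℕ) (a : Cell n) : Cell n :=
  if dbl (a 3) = 2 * q.1 ∧ dbl (a 4) = 2 * q.2 then setP a (p.1 + q.1) (p.2 + q.2)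
  else setP a (2 * q.1) (2 * q.2)

theorem mu_0 {n : ℕ} [NeZero n] (p q : ℕ × ℕ) (a : Cell n) : mu n p q a 0 = a 0 := by
  unfold mu; split_ifs <;> exact setP_0 _ _ _
theorem mu_1 {n : ℕ} [NeZero n] (p q : ℕ × ℕ) (a : Cell n) : mu n p q a 1 = a 1 := by
  unfold mu; split_ifs <;> exact setP_1 _ _ _
theorem mu_2 {n : ℕ} [NeZero n] (p q : ℕ × ℕ) (a : Cell n) : mu n p q a 2 = a 2 := by
  unfold mu; split_ifs <;> exact setP_2 _ _ _

theorem mu_facet {n : ℕ} [NeZero n] {m : ℕ} {p q : ℕ × ℕ} (N : Nums m p q) {a b : Cell n}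
    (h0 : a 0 = b 0) (h1 : a 1 = b 1) (h2 : a 2 = b 2)
    (ha3 : dbl (a 3) = 2 * q.1) (ha4 : dbl (a 4) = 2 * q.2) (hb3 : dbl (b 3) = p.1 + q.1)
    (hb4 : dbl (b 4) = p.2 + q.2) : Facet a b := by
  rw [facet_iff]
  rcases N.a with ⟨e, h⟩ | ⟨e, h⟩
  · refine ⟨4, ?_, ?_⟩
    · rw [ha4, hb4]
      unfold FT; omega
    · intro i hi
      fin_cases i
      · exact congrArg dbl h0
      · exact congrArg dbl h1
      · exact congrArg dbl h2
      · show dbl (a 3) = dbl (b 3)
        rw [ha3, hb3]; omega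
      · exact absurd rfl hi
  · refine ⟨3, ?_, ?_⟩
    · rw [ha3, hb3]
      unfold FT; omega
    · intro i hi
      fin_cases i
      · exact congrArg dbl h0
      · exact congrArg dbl h1
      · exact congrArg dbl h2
      · exact absurd rfl hi
      · show dbl (a 4) = dbl (b 4)
        rw [ha4, hb4]; omega

theorem half {c c' : Cfg} {s : ℕ} (h : Hyp c c' s) {n : ℕ} [NeZero n] (h1 : c.T + 3 ≤ n)
    (h2 : 2 * c.m + 5 ≤ n) : HEq' (LL n c c' s) (c.K false n) := by
  classical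
  have N := h.nums
  have hM := h.hc.hm
  have h3 := h.h3
  have h3' := h.h3'
  have bq1 : 2 * (c'.f (s + 1)).1 < 2 * n := by have := N.q1; omega
  have bq2 : 2 * (c'.f (s + 1)).2 < 2 * n := by have := N.q2; omega
  have be1 : (c.f (s + 1)).1 + (c'.f (s + 1)).1 < 2 * n := by
    have := N.q1; have := N.p1; omega
  have be2 : (c.f (s + 1)).2 + (c'.f (s + 1)).2 < 2 * n := by
    have := N.q2; have := N.p2; omega
  have hne := N.ne
  have muE : ∀ a : Cell n, dbl (a 3) = (c.f (s + 1)).1 + (c'.f (s + 1)).1 → dbl (a 4) = (c.f (s + 1)).2 + (c'.f (s + 1)).2 →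
      mu n (c.f (s + 1)) (c'.f (s + 1)) a = setP a (2 * (c'.f (s + 1)).1) (2 * (c'.f (s + 1)).2) := by
    intro a h3 h4
    unfold mu
    rw [if_neg]
    rw [h3, h4]
    exact hne.2.2
  have muQ : ∀ a : Cell n, dbl (a 3) = 2 * (c'.f (s + 1)).1 → dbl (a 4) = 2 * (c'.f (s + 1)).2 →
      mu n (c.f (s + 1)) (c'.f (s + 1)) a = setP a ((c.f (s + 1)).1 + (c'.f (s + 1)).1) ((c.f (s + 1)).2 + (c'.f (s + 1)).2) := by
    intro a h3 h4
    unfold mu
    rw [if_pos ⟨h3, h4⟩]
  refine collapse_matching (by omega) (Cfg.isCx_K h.hc h1 h2 false) (LL_cx h h1 h2) ?_ (mu n (c.f (s + 1)) (c'.f (s + 1)))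
    (fun a => if dbl (a 0) = 2 * (s + 1) + 1 then 1 else 0) ?_ ?_ ?_
  · intro a ha
    left; left; exact ha
  · intro a ha
    rw [h.char] at ha
    obtain ⟨hx, hy, ht, hpl⟩ := ha
    rcases hpl with ⟨e3, e4⟩ | ⟨e3, e4⟩
    · have hm := muE a e3 e4
      have m3 : dbl (mu n (c.f (s + 1)) (c'.f (s + 1)) a 3) = 2 * (c'.f (s + 1)).1 := by rw [hm]; exact setP_3 _ _ bq1
      have m4 : dbl (mu n (c.f (s + 1)) (c'.f (s + 1)) a 4) = 2 * (c'.f (s + 1)).2 := by rw [hm]; exact setP_4 _ _ bq2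
      refine ⟨?_, ?_, Or.inr ?_⟩
      · rw [h.char, mu_0, mu_1, mu_2, m3, m4]
        exact ⟨hx, hy, ht, Or.inr ⟨rfl, rfl⟩⟩
      · have hm2 := muQ _ m3 m4
        apply cell_ext
        · rw [mu_0, mu_0]
        · rw [mu_1, mu_1]
        · rw [mu_2, mu_2]
        · rw [hm2, setP_3 _ _ be1, e3]
        · rw [hm2, setP_4 _ _ be2, e4]
      · exact mu_facet N (mu_0 _ _ _) (mu_1 _ _ _) (mu_2 _ _ _) m3 m4 e3 e4
    · have hm := muQ a e3 e4
      have m3 : dbl (mu n (c.f (s + 1)) (c'.f (s + 1)) a 3) = (c.f (s + 1)).1 + (c'.f (s + 1)).1 := by rw [hm]; exact setP_3 _ _ be1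
      have m4 : dbl (mu n (c.f (s + 1)) (c'.f (s + 1)) a 4) = (c.f (s + 1)).2 + (c'.f (s + 1)).2 := by rw [hm]; exact setP_4 _ _ be2
      refine ⟨?_, ?_, Or.inl ?_⟩
      · rw [h.char, mu_0, mu_1, mu_2, m3, m4]
        exact ⟨hx, hy, ht, Or.inl ⟨rfl, rfl⟩⟩
      · have hm2 := muE _ m3 m4
        apply cell_ext
        · rw [mu_0, mu_0]
        · rw [mu_1, mu_1]
        · rw [mu_2, mu_2]
        · rw [hm2, setP_3 _ _ bq1, e3]
        · rw [hm2, setP_4 _ _ bq2, e4]
      · exact mu_facet N (mu_0 _ _ _).symm (mu_1 _ _ _).symm (mu_2 _ _ _).symm e3 e4 m3 m4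
  · intro a _
    simp only [mu_0]
  · intro a ha hfa e he hae hne'
    rw [h.char] at ha
    obtain ⟨hx, hy, ht, hpl⟩ := ha
    rcases hpl with ⟨e3, e4⟩ | ⟨e3, e4⟩
    · exfalso
      have hm := muE a e3 e4
      obtain ⟨j, hj, -⟩ := facet_iff.mp hfa
      fin_cases j
      · have hj' : FT n (dbl (a 0)) (dbl (mu n (c.f (s + 1)) (c'.f (s + 1)) a 0)) := hj
        rw [mu_0] at hj'
        exact not_FT_self hj'
      · have hj' : FT n (dbl (a 1)) (dbl (mu n (c.f (s + 1)) (c'.f (s + 1)) a 1)) := hj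
        rw [mu_1] at hj'
        exact not_FT_self hj'
      · have hj' : FT n (dbl (a 2)) (dbl (mu n (c.f (s + 1)) (c'.f (s + 1)) a 2)) := hj
        rw [mu_2] at hj'
        exact not_FT_self hj'
      · have hj' : FT n (dbl (a 3)) (dbl (mu n (c.f (s + 1)) (c'.f (s + 1)) a 3)) := hj
        rw [hm, setP_3 _ _ bq1] at hj'
        unfold FT at hj'; omega
      · have hj' : FT n (dbl (a 4)) (dbl (mu n (c.f (s + 1)) (c'.f (s + 1)) a 4)) := hj
        rw [hm, setP_4 _ _ bq2] at hj'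
        unfold FT at hj'; omega
    · have hm := muQ a e3 e4
      have p1 := N.p1
      have p2 := N.p2
      have q1 := N.q1
      have q2 := N.q2
      have hor : e ∈ c.K false n ∨
          New c c' s (dbl (e 0)) (dbl (e 1)) (dbl (e 2)) (dbl (e 3)) (dbl (e 4)) := by
        by_cases hK : e ∈ c.K false n
        · exact Or.inl hK
        · exact Or.inr ((h.char e).mp ⟨he, hK⟩)
      obtain ⟨j, hj, hoth⟩ := facet_iff.mp hae
      -- the planar case
      have planar : dbl (e 0) = dbl (a 0) → dbl (e 1) = 3 → dbl (e 2) = 0 →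
          (0 < dbl (e 3) ∧ dbl (e 3) < 2 * (2 * c.m + 2)) → (0 < dbl (e 4) ∧ dbl (e 4) < 6) →
          (dbl (e 3) % 2 = 1 ∨ dbl (e 4) % 2 = 1) → False := by
        intro g0 g1 g2 g3 g4 g5
        rcases hor with hK | ⟨_, _, _, hpl⟩
        · rw [mem_K_three (by omega) g1 g3 g4, g0] at hK
          obtain ⟨-, -, hw⟩ := hK
          rcases ht with ht | ⟨ht, hf⟩ | ⟨ht, hf⟩
          · rw [ht, onW_odd] at hw; omega
          · rw [ht, onW_even, hf, Box_self] at hw; omega
          · rw [ht, onW_even, show s + 1 + 1 = s + 2 from rfl, hf, Box_self] at hw; omega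
        · rcases hpl with ⟨k3, k4⟩ | ⟨k3, k4⟩
          · apply hne'
            apply cell_ext
            · rw [mu_0]; exact g0
            · rw [mu_1, g1, hx]
            · rw [mu_2, g2, hy]
            · rw [hm, setP_3 _ _ be1]; exact k3
            · rw [hm, setP_4 _ _ be2]; exact k4
          · rw [k3, k4] at g5
            omega
      fin_cases j
      · -- time direction
        have hj' : FT n (dbl (a 0)) (dbl (e 0)) := hj
        have k1 : dbl (e 1) = 3 := by rw [← hx]; exact (hoth 1 (by decide)).symm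
        have k2 : dbl (e 2) = 0 := by rw [← hy]; exact (hoth 2 (by decide)).symm
        have k3 : dbl (e 3) = 2 * (c'.f (s + 1)).1 := by rw [← e3]; exact (hoth 3 (by decide)).symm
        have k4 : dbl (e 4) = 2 * (c'.f (s + 1)).2 := by rw [← e4]; exact (hoth 4 (by decide)).symm
        obtain ⟨hodd, hadj⟩ := hj'
        have ha0 : dbl (a 0) ≠ 2 * (s + 1) + 1 := by omega
        rcases hor with hK | ⟨_, _, ht', _⟩
        · exfalso
          rw [mem_K_three (by omega) k1 (by omega) (by omega)] at hK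
          obtain ⟨-, -, hw⟩ := hK
          obtain ⟨i, hi⟩ : ∃ i, dbl (e 0) = 2 * i + 1 := ⟨dbl (e 0) / 2, by omega⟩
          rw [hi, onW_odd, k3, k4] at hw
          have hfi : c.f i = c.f (s + 1) := by
            rcases ht with ht | ⟨ht, hf⟩ | ⟨ht, hf⟩
            · exact absurd ht ha0
            · have : i = s ∨ i = s + 1 := by omega
              rcases this with rfl | rfl
              · exact hf
              · rfl
            · have : i = s + 1 ∨ i = s + 2 := by omega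
              rcases this with rfl | rfl
              · rfl
              · exact hf
          rw [hfi] at hw
          exact hne.2.1 hw
        · have he0 : dbl (e 0) = 2 * (s + 1) + 1 := by omega
          simp only [if_neg ha0, if_pos he0]
          exact one_pos
      · exfalso
        have hj' : FT n (dbl (a 1)) (dbl (e 1)) := hj
        rw [hx] at hj'
        unfold FT at hj'; omega
      · exfalso
        have hj' : FT n (dbl (a 2)) (dbl (e 2)) := hj
        have k0 : dbl (e 0) = dbl (a 0) := (hoth 0 (by decide)).symm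
        have k1 : dbl (e 1) = 3 := by rw [← hx]; exact (hoth 1 (by decide)).symm
        have k3 : dbl (e 3) = 2 * (c'.f (s + 1)).1 := by rw [← e3]; exact (hoth 3 (by decide)).symm
        have k4 : dbl (e 4) = 2 * (c'.f (s + 1)).2 := by rw [← e4]; exact (hoth 4 (by decide)).symm
        have hodd := hj'.1
        rcases hor with hK | ⟨_, hy', _, _⟩
        · rw [mem_K_three (by omega) k1 (by omega) (by omega)] at hK
          have := hK.1
          omega
        · omega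
      · exfalso
        have hj' : FT n (dbl (a 3)) (dbl (e 3)) := hj
        have k0 : dbl (e 0) = dbl (a 0) := (hoth 0 (by decide)).symm
        have k1 : dbl (e 1) = 3 := by rw [← hx]; exact (hoth 1 (by decide)).symm
        have k2 : dbl (e 2) = 0 := by rw [← hy]; exact (hoth 2 (by decide)).symm
        have k4 : dbl (e 4) = 2 * (c'.f (s + 1)).2 := by rw [← e4]; exact (hoth 4 (by decide)).symm
        rw [e3] at hj'
        obtain ⟨hodd, hadj⟩ := hj'
        exact planar k0 k1 k2 (by omega) (by omega) (Or.inl hodd)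
      · exfalso
        have hj' : FT n (dbl (a 4)) (dbl (e 4)) := hj
        have k0 : dbl (e 0) = dbl (a 0) := (hoth 0 (by decide)).symm
        have k1 : dbl (e 1) = 3 := by rw [← hx]; exact (hoth 1 (by decide)).symm
        have k2 : dbl (e 2) = 0 := by rw [← hy]; exact (hoth 2 (by decide)).symm
        have k3 : dbl (e 3) = 2 * (c'.f (s + 1)).1 := by rw [← e3]; exact (hoth 3 (by decide)).symm
        rw [e4] at hj'
        obtain ⟨hodd, hadj⟩ := hj'
        exact planar k0 k1 k2 (by omega) (by omega) (Or.inr hodd)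

end C10

open C10 in
theorem move1 {c c' : Cfg} (hc : c.Ok) (hc' : c'.Ok) (hm : c'.m = c.m) (hT : c'.T = c.T)
    (hJ1 : c'.J1 = c.J1) (hJ2 : c'.J2 = c.J2) (hg : c'.g = c.g) (t0 : ℕ) (h3 : 3 < t0)
    (h3' : t0 < c.T) (hf : ∀ t, t ≠ t0 → c'.f t = c.f t)
    (hl : c.f (t0 - 1) = c.f t0 ∨ c.f (t0 - 1) = c'.f t0)
    (hr : c.f (t0 + 1) = c.f t0 ∨ c.f (t0 + 1) = c'.f t0)
    (hadj : GAdj c.m (c.f t0) (c'.f t0))
    {n : ℕ} [NeZero n] (h1 : c.T + 3 ≤ n) (h2 : 2 * c.m + 5 ≤ n) :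
    HEq' (c.K false n) (c'.K false n) := by
  by_cases hne : c.f t0 = c'.f t0
  · have hff : c'.f = c.f := by
      funext t
      by_cases ht : t = t0
      · rw [ht, hne]
      · exact hf t ht
    have hcc : c' = c := by
      rcases c with ⟨m, T, J1, J2, f, g⟩
      rcases c' with ⟨m', T', J1', J2', f', g'⟩
      simp only at hm hT hJ1 hJ2 hg hff
      subst hm hT hJ1 hJ2 hg hff
      rfl
    rw [hcc]
    exact HEq'.refl _
  · obtain ⟨s, rfl⟩ : ∃ s, t0 = s + 1 := ⟨t0 - 1, by omega⟩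
    have H : Hyp c c' s := ⟨hc, hc', hm, hT, hJ1, hJ2, hg, by omega, h3', hf, hl, hr, hadj, hne⟩
    have e1 := half H h1 h2
    have e2 := half H.symm (n := n) (by rw [hT]; exact h1) (by rw [hm]; exact h2)
    rw [← LL_symm] at e2
    exact e1.symm.trans e2

end Pool.Agent.FM
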