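import Pool.Agent.FM.C11Cx
import Pool.Agent.FM.B02

/-!
BLOCK C11: relator move.
-/

open Set

namespace Pool.Agent.FM

namespace C11

theorem half {c1 c2 : Cfg} {t1 t2 : ℕ} (H : Hyp c1 c2 t1 t2) {n : ℕ} [NeZero n]
    (h1 : c1.T + 3 ≤ n) (h2 : 2 * c1.m + 5 ≤ n) :
    HEq' (EL c1 c2 t1 t2 n) (c1.K false n) := by
  have hm1 := H.ok1.hm
  have h5 := H.h2T
  have hn : 2 * t2 + 2 < 2 * n := by omega
  have hmn : 4 * c1.m + 4 < 2 * n := by omega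
  have hn5 : 5 ≤ n := by omega
  have hK := Cfg.isCx_K H.ok1 h1 h2 false
  obtain ⟨a1, a2, a3⟩ := Num.matching_num (L := EL c1 c2 t1 t2 n) hK
    (D c1.f c2.f c1.m t1 t2) (mem_D H h1 h2) (muQ c1.f t1 t2) (rQ c1.f c1.m t1 t2)
    (fun q hq => D_lt hn hmn hn5 H.w1 H.w2 H.h12 hq)
    (fun q hq => D_mu H.w1 H.w2 H.h12 q hq)
    (fun q hq hlo e he hf hne => D_ac hn hmn hn5 H.w1 H.w2 H.h12 q hq hlo e he hf hne)
  exact collapse_matching (by omega) hK (isCx_EL H h1 h2)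
    (fun a ha => Or.inl (Or.inl ha)) _ _ a1 a2 a3

theorem Hyp.swap {c1 c2 : Cfg} {t1 t2 : ℕ} (H : Hyp c1 c2 t1 t2) : Hyp c2 c1 t1 t2 :=
  ⟨H.ok2, H.ok1, H.hm.symm, H.hT.symm, H.hJ1.symm, H.hJ2.symm, H.hg.symm, H.h4, H.h12,
    by rw [H.hT]; exact H.h2T, by rw [H.hg]; exact H.hg1, by rw [H.hg]; exact H.hg2,
    fun t ht => (H.hf t ht).symm, H.hf1', H.hf1, H.hf2', H.hf2, by rw [H.hg]; exact H.hw',
    by rw [H.hg]; exact H.hw⟩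

theorem EL_comm {c1 c2 : Cfg} {t1 t2 : ℕ} (H : Hyp c1 c2 t1 t2) (n : ℕ) :
    EL c1 c2 t1 t2 n = EL c2 c1 t1 t2 n := by
  unfold EL
  rw [union_comm (c1.K false n)]
  congr 1
  ext a
  show Ex _ _ _ _ _ _ ↔ Ex _ _ _ _ _ _
  unfold Ex
  rw [H.hm, or_comm (a := Ln c1.f t1 t2 _ _ _)]

end C11

theorem move3 {c c' : Cfg} (hc : c.Ok) (hc' : c'.Ok) (hm : c'.m = c.m) (hT : c'.T = c.T)
    (hJ1 : c'.J1 = c.J1) (hJ2 : c'.J2 = c.J2) (hg : c'.g = c.g) (t1 t2 : ℕ) (h4 : 4 ≤ t1)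
    (h12 : t1 < t2) (h2T : t2 < c.T) (hg1 : c.g t1 = (1, 1)) (hg2 : c.g t2 = (1, 1))
    (hf : ∀ t, t < t1 ∨ t2 < t → c'.f t = c.f t) (hf1 : ∀ t, t1 ≤ t → t ≤ t2 → c.f t = (1, 1))
    (hf2 : ∀ t, t1 ≤ t → t ≤ t2 → c'.f t = c.g t)
    {n : ℕ} [NeZero n] (h1 : c.T + 3 ≤ n) (h2 : 2 * c.m + 5 ≤ n) :
    HEq' (c.K false n) (c'.K false n) := by
  have H : C11.Hyp c c' t1 t2 := ⟨hc, hc', hm, hT, hJ1, hJ2, hg, h4, h12, h2T, hg1, hg2, hf,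
    hf1 t1 le_rfl h12.le, by rw [hf2 t1 le_rfl h12.le, hg1], hf1 t2 h12.le le_rfl,
    by rw [hf2 t2 h12.le le_rfl, hg2], Or.inl hf1, Or.inr hf2⟩
  have e1 := C11.half H h1 h2
  have e2 := C11.half H.swap (n := n) (by rw [hT]; exact h1) (by rw [hm]; exact h2)
  rw [← C11.EL_comm H n] at e2
  exact e1.symm.trans e2

end Pool.Agent.FM
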