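import Pool.Agent.FM.C11Match
import Pool.Agent.FM.C05

/-!
The complex of block C11.
-/

open Set

namespace Pool.Agent.FM

namespace C11

open C05

theorem WOk_of {c c' : Cfg} (hc : c.Ok) (hc' : c'.Ok) (hm : c'.m = c.m) {t1 t2 : ℕ}
    (hf1' : c'.f t1 = (1, 1))
    (hw' : (∀ t, t1 ≤ t → t ≤ t2 → c'.f t = (1, 1)) ∨ (∀ t, t1 ≤ t → t ≤ t2 → c'.f t = c.g t)) :
    WOk c'.f c.m t1 t2 := by
  refine ⟨fun j h1 h2 => ?_, fun j h1 h2 => ?_, hf1'⟩
  · exact adj_cases (hc'.fa j)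
  · have h5 := gv_le (hc'.fv j)
    rw [hm] at h5
    have hm1 := hc.hm
    rcases hw' with h | h
    · rw [h j h1 h2]
      simp only
      omega
    · have := hc.gp j
      rw [h j h1 h2] at h5 ⊢
      omega

theorem Hyp.w1 {c1 c2 : Cfg} {t1 t2 : ℕ} (H : Hyp c1 c2 t1 t2) : WOk c1.f c1.m t1 t2 :=
  WOk_of H.ok1 H.ok1 rfl H.hf1 H.hw

theorem Hyp.w2 {c1 c2 : Cfg} {t1 t2 : ℕ} (H : Hyp c1 c2 t1 t2) : WOk c2.f c1.m t1 t2 :=
  WOk_of H.ok1 H.ok2 H.hm H.hf1' H.hw'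

theorem Ln_FN {w : ℕ → ℕ × ℕ} {m t1 t2 n : ℕ} (hw : WOk w m t1 t2) (hn : 2 * t2 + 2 < 2 * n)
    {t u v t' u' v' : ℕ} (hL : Ln w t1 t2 t u v) (ht : FN n t' t) (hu : FN n u' u)
    (hv : FN n v' v) (hm : 4 * m + 4 < 2 * n) (hn5 : 5 ≤ n) : Ln w t1 t2 t' u' v' := by
  unfold FN at ht hu hv
  rcases hL with ⟨rfl, rfl, rfl⟩ | ⟨a1, a2, a3, rfl, rfl⟩ | ⟨a1, a2, a3, h⟩
  · left; omega
  · obtain ⟨j, rfl⟩ : ∃ j, t = 2 * j + 1 := ⟨t / 2, by omega⟩
    rw [show (2 * j + 1) / 2 = j by omega] at hu hv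
    have hu' : u' = 2 * (w j).1 := by omega
    have hv' : v' = 2 * (w j).2 := by omega
    subst hu' hv'
    have ht' : t' = 2 * j + 1 ∨ t' = 2 * j ∨ t' = 2 * j + 2 := by omega
    rcases ht' with rfl | rfl | rfl
    · rw [Ln_odd (by omega) (by omega)]
      exact ⟨rfl, rfl⟩
    · rcases Nat.lt_or_ge t1 j with hj | hj
      · obtain ⟨i, rfl⟩ : ∃ i, j = i + 1 := ⟨j - 1, by omega⟩
        rw [show 2 * (i + 1) = 2 * i + 2 by ring, Ln_even (by omega) (by omega)]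
        unfold Sg
        omega
      · have : j = t1 := by omega
        subst this
        rw [Ln_start, hw.st]
        exact ⟨rfl, rfl⟩
    · rw [Ln_even (by omega) (by omega)]
      unfold Sg
      omega
  · obtain ⟨j, rfl⟩ : ∃ j, t = 2 * j + 2 := ⟨t / 2 - 1, by omega⟩
    rw [show (2 * j + 2) / 2 - 1 = j by omega] at h
    have hadj := hw.adj j (by omega) (by omega)
    have hb1 := hw.bd j (by omega) (by omega)
    have hb2 := hw.bd (j + 1) (by omega) (by omega)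
    have ht' : t' = 2 * j + 2 := by omega
    subst ht'
    rw [Ln_even (by omega) (by omega)]
    unfold Sg at h ⊢
    rcases hadj with ⟨e1, e2 | e2 | e2⟩ | ⟨e1, e2 | e2⟩ <;> omega

theorem onW_of_Ln {w : ℕ → ℕ × ℕ} {m t1 t2 : ℕ} (hw : WOk w m t1 t2) (h1 : 1 ≤ t1)
    {t u v : ℕ} (hL : Ln w t1 t2 t u v) : onW w t u v := by
  unfold onW
  rcases hL with ⟨rfl, rfl, rfl⟩ | ⟨a1, a2, a3, rfl, rfl⟩ | ⟨a1, a2, a3, h⟩
  · rw [if_neg (by omega), show 2 * t1 / 2 = t1 by omega, hw.st]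
    simp only
    omega
  · rw [if_pos a3]
    exact ⟨rfl, rfl⟩
  · rw [if_neg (by omega)]
    unfold Sg at h
    rwa [show t / 2 - 1 + 1 = t / 2 by omega] at h

theorem Ln_of_onW {w : ℕ → ℕ × ℕ} {t1 t2 : ℕ} {t u v : ℕ} (h1 : 2 * t1 < t) (h2 : t ≤ 2 * t2)
    (h : onW w t u v) : Ln w t1 t2 t u v := by
  unfold onW at h
  by_cases ht : t % 2 = 1
  · rw [if_pos ht] at h
    exact Or.inr (Or.inl ⟨h1, h2, ht, h.1, h.2⟩)
  · rw [if_neg ht] at h
    refine Or.inr (Or.inr ⟨h1, h2, by omega, ?_⟩)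
    unfold Sg
    rwa [show t / 2 - 1 + 1 = t / 2 by omega]

/-- the line of a walk is in the relator fins -/
theorem fin_of_Ln {w g : ℕ → ℕ × ℕ} {t1 t2 : ℕ}
    (hw : (∀ t, t1 ≤ t → t ≤ t2 → w t = (1, 1)) ∨ (∀ t, t1 ≤ t → t ≤ t2 → w t = g t))
    {t u v : ℕ} (hL : Ln w t1 t2 t u v) : onW g t u v ∨ (u = 2 ∧ v = 2) := by
  rcases hL with ⟨rfl, rfl, rfl⟩ | ⟨a1, a2, a3, rfl, rfl⟩ | ⟨a1, a2, a3, h⟩
  · exact Or.inr ⟨rfl, rfl⟩
  · rcases hw with hw | hw
    · right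
      rw [hw (t / 2) (by omega) (by omega)]
      exact ⟨rfl, rfl⟩
    · left
      unfold onW
      rw [if_pos a3, hw (t / 2) (by omega) (by omega)]
      exact ⟨rfl, rfl⟩
  · unfold Sg at h
    rw [show t / 2 - 1 + 1 = t / 2 by omega] at h
    rcases hw with hw | hw
    · right
      rw [hw (t / 2) (by omega) (by omega), hw (t / 2 - 1) (by omega) (by omega)] at h
      simp only at h
      omega
    · left
      unfold onW
      rw [hw (t / 2) (by omega) (by omega), hw (t / 2 - 1) (by omega) (by omega)] at h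
      rw [if_neg (by omega)]
      exact h

theorem WR_FN {m t1 t2 n : ℕ} (hn : 2 * t2 + 2 < 2 * n) {t u v t' u' v' : ℕ}
    (h : WR m t1 t2 t u v) (ht : FN n t' t) (hu : FN n u' u)
    (hv : FN n v' v) (hm : 4 * m + 4 < 2 * n) (hn5 : 5 ≤ n) : WR m t1 t2 t' u' v' := by
  unfold WR FN at *
  refine ⟨by omega, by omega, by omega, by omega, by omega, by omega⟩

section

variable {c1 c2 : Cfg} {t1 t2 : ℕ}

theorem clause6 (H : Hyp c1 c2 t1 t2) {t y u v : ℕ} (hW : WR c1.m t1 t2 t u v) (hy : y ≤ 2)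
    (h : onW c1.g t u v ∨ (u = 2 ∧ v = 2)) : InK false c1 t 2 y u v := by
  have h4 := H.h4
  have h5 := H.h2T
  unfold WR at hW
  exact Or.inr (Or.inr (Or.inr (Or.inr (Or.inr (Or.inl
    ⟨by omega, by omega, rfl, hy, h⟩)))))

theorem clause7 (H : Hyp c1 c2 t1 t2) {t u v : ℕ} (hW : WR c1.m t1 t2 t u v) :
    InK false c1 t 2 2 u v := by
  have h4 := H.h4
  have h5 := H.h2T
  unfold WR at hW
  exact Or.inr (Or.inr (Or.inr (Or.inr (Or.inr (Or.inr (Or.inl
    ⟨by omega, by omega, rfl, rfl, by omega, by omega, by omega, by omega,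
      fun h => absurd h (by decide)⟩))))))

theorem clause9 (H : Hyp c1 c2 t1 t2) {t u v : ℕ} (hW : WR c1.m t1 t2 t u v) :
    InK false c1 t 4 0 u v := by
  have h4 := H.h4
  have h5 := H.h2T
  unfold WR at hW
  exact Or.inr (Or.inr (Or.inr (Or.inr (Or.inr (Or.inr (Or.inr (Or.inr
    ⟨by omega, by omega, rfl, rfl, by omega, by omega, by omega,
      fun h => absurd h (by decide)⟩)))))))

theorem clause8 (H : Hyp c1 c2 t1 t2) {t u v : ℕ} (hW : WR c1.m t1 t2 t u v)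
    (h : onW c1.f t u v) : InK false c1 t 3 0 u v := by
  have h4 := H.h4
  have h5 := H.h2T
  unfold WR at hW
  exact Or.inr (Or.inr (Or.inr (Or.inr (Or.inr (Or.inr (Or.inr (Or.inl
    ⟨by omega, by omega, rfl, by omega, by omega, h⟩)))))))

theorem clause8' (H : Hyp c1 c2 t1 t2) {t u v : ℕ} (hW : WR c1.m t1 t2 t u v)
    (h : onW c2.f t u v) : InK false c2 t 3 0 u v := by
  have h4 := H.h4
  have h5 := H.h2T
  have h6 := H.hT
  unfold WR at hW
  exact Or.inr (Or.inr (Or.inr (Or.inr (Or.inr (Or.inr (Or.inr (Or.inl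
    ⟨by omega, by omega, rfl, by omega, by omega, h⟩)))))))

theorem ex_face (H : Hyp c1 c2 t1 t2) {n : ℕ} (h1 : c1.T + 3 ≤ n) (h2 : 2 * c1.m + 5 ≤ n)
    {t x y u v t' x' y' u' v' : ℕ} (h : Ex c1.f c2.f c1.m t1 t2 ⟨t, x, y, u, v⟩)
    (ht : FN n t' t) (hx : FN n x' x) (hy : FN n y' y) (hu : FN n u' u) (hv : FN n v' v) :
    InK false c1 t' x' y' u' v' ∨ InK false c2 t' x' y' u' v' ∨
      Ex c1.f c2.f c1.m t1 t2 ⟨t', x', y', u', v'⟩ := by
  have h4 := H.h4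
  have h5 := H.h2T
  have h12 := H.h12
  have hw1 := H.w1
  have hw2 := H.w2
  have hn : 2 * t2 + 2 < 2 * n := by omega
  have hmn : 4 * c1.m + 4 < 2 * n := by omega
  have hn5 : 5 ≤ n := by omega
  rcases h with ⟨rfl, rfl, h⟩ | ⟨hxy, hW⟩
  · simp only at h
    have hW' : WR c1.m t1 t2 t' u' v' := by
      rcases h with h | h
      · exact Ln_WR hw1 h12 (Ln_FN hw1 hn h ht hu hv hmn hn5)
      · exact Ln_WR hw2 h12 (Ln_FN hw2 hn h ht hu hv hmn hn5)
    have hx' : x' = 3 ∨ x' = 2 ∨ x' = 4 := by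
      have hx0 : FN n x' 3 := hx
      unfold FN at hx0; omega
    have hy' : y' = 1 ∨ y' = 0 ∨ y' = 2 := by
      have hy0 : FN n y' 1 := hy
      unfold FN at hy0; omega
    have hL : Ln c1.f t1 t2 t' u' v' ∨ Ln c2.f t1 t2 t' u' v' := by
      rcases h with h | h
      · exact Or.inl (Ln_FN hw1 hn h ht hu hv hmn hn5)
      · exact Or.inr (Ln_FN hw2 hn h ht hu hv hmn hn5)
    rcases hx' with rfl | rfl | rfl
    · rcases hy' with rfl | rfl | rfl
      · exact Or.inr (Or.inr (Or.inl ⟨rfl, rfl, hL⟩))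
      · rcases hL with hL | hL
        · exact Or.inl (clause8 H hW' (onW_of_Ln hw1 (by omega) hL))
        · exact Or.inr (Or.inl (clause8' H hW' (onW_of_Ln hw2 (by omega) hL)))
      · exact Or.inr (Or.inr (Or.inr ⟨Or.inr (Or.inl ⟨rfl, rfl⟩), hW'⟩))
    · left
      rcases hL with hL | hL
      · exact clause6 H hW' (by omega) (fin_of_Ln H.hw hL)
      · exact clause6 H hW' (by omega) (fin_of_Ln H.hw' hL)
    · rcases hy' with rfl | rfl | rfl
      · exact Or.inr (Or.inr (Or.inr ⟨Or.inl ⟨rfl, rfl⟩, hW'⟩))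
      · exact Or.inl (clause9 H hW')
      · exact Or.inr (Or.inr (Or.inr ⟨Or.inr (Or.inr ⟨rfl, rfl⟩), hW'⟩))
  · simp only at hxy hW
    have hW' := WR_FN hn hW ht hu hv hmn hn5
    rcases hxy with ⟨rfl, rfl⟩ | ⟨rfl, rfl⟩ | ⟨rfl, rfl⟩
    · have hx' : x' = 4 := by unfold FN at hx; omega
      have hy' : y' = 1 ∨ y' = 0 ∨ y' = 2 := by unfold FN at hy; omega
      subst hx'
      rcases hy' with rfl | rfl | rfl
      · exact Or.inr (Or.inr (Or.inr ⟨Or.inl ⟨rfl, rfl⟩, hW'⟩))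
      · exact Or.inl (clause9 H hW')
      · exact Or.inr (Or.inr (Or.inr ⟨Or.inr (Or.inr ⟨rfl, rfl⟩), hW'⟩))
    · have hx' : x' = 3 ∨ x' = 2 ∨ x' = 4 := by unfold FN at hx; omega
      have hy' : y' = 2 := by unfold FN at hy; omega
      subst hy'
      rcases hx' with rfl | rfl | rfl
      · exact Or.inr (Or.inr (Or.inr ⟨Or.inr (Or.inl ⟨rfl, rfl⟩), hW'⟩))
      · exact Or.inl (clause7 H hW')
      · exact Or.inr (Or.inr (Or.inr ⟨Or.inr (Or.inr ⟨rfl, rfl⟩), hW'⟩))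
    · have hx' : x' = 4 := by unfold FN at hx; omega
      have hy' : y' = 2 := by unfold FN at hy; omega
      subst hx' hy'
      exact Or.inr (Or.inr (Or.inr ⟨Or.inr (Or.inr ⟨rfl, rfl⟩), hW'⟩))

theorem isCx_EL (H : Hyp c1 c2 t1 t2) {n : ℕ} [NeZero n]
    (h1 : c1.T + 3 ≤ n) (h2 : 2 * c1.m + 5 ≤ n) : IsCx (EL c1 c2 t1 t2 n) := by
  intro a ha b hb
  rcases ha with (ha | ha) | ha
  · exact Or.inl (Or.inl (Cfg.isCx_K H.ok1 h1 h2 false a ha b hb))
  · exact Or.inl (Or.inr (Cfg.isCx_K H.ok2 (by rw [H.hT]; exact h1) (by rw [H.hm]; exact h2)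
      false a ha b hb))
  · rcases ex_face H h1 h2 ha (fn_of_face (hb 0)) (fn_of_face (hb 1)) (fn_of_face (hb 2))
      (fn_of_face (hb 3)) (fn_of_face (hb 4)) with h | h | h
    · exact Or.inl (Or.inl (Or.inr h))
    · exact Or.inl (Or.inr (Or.inr h))
    · exact Or.inr h

/-- walks agree outside the window -/
theorem onW_out (H : Hyp c1 c2 t1 t2) {t u v : ℕ} (ht : t ≤ 2 * t1 ∨ 2 * t2 < t)
    (h : onW c2.f t u v) : onW c1.f t u v := by
  have h12 := H.h12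
  have hall : ∀ s, s ≤ t1 ∨ t2 ≤ s → c2.f s = c1.f s := by
    intro s hs
    by_cases e1 : s = t1
    · rw [e1, H.hf1, H.hf1']
    · by_cases e2 : s = t2
      · rw [e2, H.hf2, H.hf2']
      · exact H.hf s (by omega)
  unfold onW at h ⊢
  by_cases h2 : t % 2 = 1
  · rw [if_pos h2] at h ⊢
    rwa [hall (t / 2) (by omega)] at h
  · rw [if_neg h2] at h ⊢
    rwa [hall (t / 2) (by omega), hall (t / 2 - 1) (by omega)] at h

theorem not_K (H : Hyp c1 c2 t1 t2) {t x y u v : ℕ}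
    (hW : WR c1.m t1 t2 t u v) (hxy : (x = 3 ∧ y = 0 ∧ ¬ onW c1.f t u v) ∨
      (3 ≤ x ∧ 1 ≤ y)) : ¬ InK false c1 t x y u v := by
  have h4 := H.h4
  unfold WR at hW
  intro h
  rcases h with ⟨a1, a2, a3⟩ | ⟨a1, a2, a3⟩ | ⟨a1, a2, a3⟩ | ⟨a1, a2, a3, a4, a5, _⟩ |
    ⟨a1, a2, a3, a4⟩ | ⟨a1, a2, a3, a4, a5⟩ | ⟨a1, a2, a3, a4, a5, a6, a7, a8, _⟩ |
    ⟨a1, a2, a3, a4, a5, a6⟩ | ⟨a1, a2, a3, a4, a5, a6, a7, _⟩
  · omega
  · omega
  · omega
  · omega
  · omega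
  · omega
  · omega
  · rcases hxy with ⟨b1, b2, b3⟩ | b
    · exact b3 a6
    · omega
  · omega

theorem mem_D (H : Hyp c1 c2 t1 t2) {n : ℕ} [NeZero n]
    (h1 : c1.T + 3 ≤ n) (h2 : 2 * c1.m + 5 ≤ n) (a : Cell n) :
    a ∈ EL c1 c2 t1 t2 n \ c1.K false n ↔ D c1.f c2.f c1.m t1 t2 (Num.num a) := by
  have h4 := H.h4
  have h5 := H.h2T
  have h12 := H.h12
  have hw1 := H.w1
  have hw2 := H.w2
  constructor
  · rintro ⟨(ha | ha) | ha, hn⟩
    · exact absurd ha hn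
    · rcases ha with ha | ha
      · exfalso
        apply hn
        left
        rw [H.hm] at ha
        exact ha
      · have ha' : InK false c2 (dbl (a 0)) (dbl (a 1)) (dbl (a 2)) (dbl (a 3)) (dbl (a 4)) := ha
        have hn' : ¬ InK false c1 (dbl (a 0)) (dbl (a 1)) (dbl (a 2)) (dbl (a 3)) (dbl (a 4)) :=
          fun h => hn (Or.inr h)
        have key : (6 ≤ dbl (a 0) ∧ dbl (a 0) ≤ 2 * c2.T ∧ dbl (a 2) = 0 ∧ 2 ≤ dbl (a 1) ∧
            dbl (a 1) ≤ 4 ∧ onW c2.f (dbl (a 0)) (dbl (a 3)) (dbl (a 4))) := by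
          unfold InK at ha'
          rw [H.hm, H.hT, H.hJ1, H.hJ2, H.hg] at ha'
          rw [H.hT]
          rcases ha' with h | h | h | h | h | h | h | h | h
          · exact absurd (Or.inl h) hn'
          · exact absurd (Or.inr (Or.inl h)) hn'
          · exact absurd (Or.inr (Or.inr (Or.inl h))) hn'
          · exact absurd (Or.inr (Or.inr (Or.inr (Or.inl h)))) hn'
          · exact absurd (Or.inr (Or.inr (Or.inr (Or.inr (Or.inl h))))) hn'
          · exact absurd (Or.inr (Or.inr (Or.inr (Or.inr (Or.inr (Or.inl h)))))) hn'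
          · exact absurd (Or.inr (Or.inr (Or.inr (Or.inr (Or.inr (Or.inr (Or.inl h))))))) hn'
          · exact h
          · exact absurd (Or.inr (Or.inr (Or.inr (Or.inr (Or.inr (Or.inr (Or.inr (Or.inr
              h)))))))) hn'
        obtain ⟨k1, k2, k3, k4, k5, k6⟩ := key
        rw [H.hT] at k2
        have hc8 : onW c1.f (dbl (a 0)) (dbl (a 3)) (dbl (a 4)) → False := fun h =>
          hn' (Or.inr (Or.inr (Or.inr (Or.inr (Or.inr (Or.inr (Or.inr (Or.inl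
            ⟨k1, k2, k3, k4, k5, h⟩))))))))
        by_cases hin : 2 * t1 < dbl (a 0) ∧ dbl (a 0) ≤ 2 * t2
        · have hL := Ln_of_onW hin.1 hin.2 k6
          have hW := Ln_WR hw2 h12 hL
          have hx : dbl (a 1) = 3 := by
            by_contra hx
            have hx' : dbl (a 1) = 2 ∨ dbl (a 1) = 4 := by omega
            rcases hx' with hx' | hx'
            · apply hn'
              rw [hx', k3]
              exact clause6 H hW (by omega) (fin_of_Ln H.hw' hL)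
            · apply hn'
              rw [hx', k3]
              exact clause9 H hW
          refine Or.inl ⟨hx, k3, hL, fun hL1 => ?_⟩
          exact hc8 (onW_of_Ln hw1 (by omega) hL1)
        · exact (hc8 (onW_out H (by omega) k6)).elim
    · rcases ha with ha | ha
      · exact Or.inr (Or.inl ha)
      · exact Or.inr (Or.inr ha)
  · intro h
    obtain ⟨hW, hx3, hx4, hy2⟩ := D_WR hw1 hw2 h12 h
    have hKO : a ∉ KO n (2 * c1.m + 2) := by
      intro h'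
      apply h'
      have hW' : WR c1.m t1 t2 (dbl (a 0)) (dbl (a 3)) (dbl (a 4)) := hW
      unfold WR at hW'
      omega
    have hnot : ¬ InK false c1 (dbl (a 0)) (dbl (a 1)) (dbl (a 2)) (dbl (a 3)) (dbl (a 4)) →
        a ∉ c1.K false n := by
      intro h1 h2
      rcases h2 with h2 | h2
      · exact hKO h2
      · exact h1 h2
    rcases h with ⟨b1, b2, b3, b4⟩ | ⟨b1, b2, b3⟩ | ⟨b1, b2⟩
    · have b1' : dbl (a 1) = 3 := b1
      have b2' : dbl (a 2) = 0 := b2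
      have ht : 2 * t1 < dbl (a 0) := by
        by_contra hc
        have ht0 : dbl (a 0) = 2 * t1 := by
          have hW' : WR c1.m t1 t2 (dbl (a 0)) (dbl (a 3)) (dbl (a 4)) := hW
          unfold WR at hW'
          omega
        have b3' : Ln c2.f t1 t2 (dbl (a 0)) (dbl (a 3)) (dbl (a 4)) := b3
        apply b4
        show Ln c1.f t1 t2 (dbl (a 0)) (dbl (a 3)) (dbl (a 4))
        rw [ht0] at b3' ⊢
        rw [Ln_start] at b3' ⊢
        exact b3'
      refine ⟨Or.inl (Or.inr (Or.inr ?_)), hnot ?_⟩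
      · show InK false c2 (dbl (a 0)) (dbl (a 1)) (dbl (a 2)) (dbl (a 3)) (dbl (a 4))
        rw [b1', b2']
        exact clause8' H hW (onW_of_Ln hw2 (by omega) b3)
      · refine not_K H hW (Or.inl ⟨b1', b2', fun h => b4 ?_⟩)
        have hW' : WR c1.m t1 t2 (dbl (a 0)) (dbl (a 3)) (dbl (a 4)) := hW
        exact Ln_of_onW ht hW'.2.1 h
    · refine ⟨Or.inr (Or.inl ⟨b1, b2, b3⟩), hnot (not_K H hW (Or.inr ⟨?_, ?_⟩))⟩
      · exact hx3
      · have b2' : dbl (a 2) = 1 := b2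
        omega
    · refine ⟨Or.inr (Or.inr ⟨b1, b2⟩), hnot (not_K H hW (Or.inr ⟨?_, ?_⟩))⟩
      · exact hx3
      · have b1' : (dbl (a 1) = 4 ∧ dbl (a 2) = 1) ∨ (dbl (a 1) = 3 ∧ dbl (a 2) = 2) ∨
          (dbl (a 1) = 4 ∧ dbl (a 2) = 2) := b1
        omega

end

end C11

end Pool.Agent.FM
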