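import Pool.Agent.FM.Defs2

/-!
# Cells in doubled coordinates

Translation of the hypotheses of `collapse_matching` into statements about five natural numbers.
-/

open Set

namespace Pool.Agent.FM

/-- a cell in doubled coordinates -/
@[ext] structure Q5 : Type where
  t : ℕ
  x : ℕ
  y : ℕ
  u : ℕ
  v : ℕ

namespace Num

/-- doubled coordinates of a cell -/
def num {n : ℕ} (a : Cell n) : Q5 := ⟨dbl (a 0), dbl (a 1), dbl (a 2), dbl (a 3), dbl (a 4)⟩

/-- the cell of the circle with a given doubled coordinate -/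
def und (n d : ℕ) : C1 n := (((d / 2 : ℕ) : ZMod n), decide (d % 2 = 1))

/-- the cell with given doubled coordinates -/
def cel (n : ℕ) (q : Q5) : Cell n := ![und n q.t, und n q.x, und n q.y, und n q.u, und n q.v]

/-- the coordinates are in the fundamental domain -/
def Lt (n : ℕ) (q : Q5) : Prop :=
  q.t < 2 * n ∧ q.x < 2 * n ∧ q.y < 2 * n ∧ q.u < 2 * n ∧ q.v < 2 * n

/-- `q` is a proper face of `p`, in doubled coordinates -/
def F1 (n q p : ℕ) : Prop := p % 2 = 1 ∧ (q + 1 = p ∨ q = p + 1 ∨ (p + 1 = 2 * n ∧ q = 0))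

/-- `q` is a facet of `p`, in doubled coordinates -/
def Fac (n : ℕ) (q p : Q5) : Prop :=
  (F1 n q.t p.t ∧ q.x = p.x ∧ q.y = p.y ∧ q.u = p.u ∧ q.v = p.v) ∨
  (q.t = p.t ∧ F1 n q.x p.x ∧ q.y = p.y ∧ q.u = p.u ∧ q.v = p.v) ∨
  (q.t = p.t ∧ q.x = p.x ∧ F1 n q.y p.y ∧ q.u = p.u ∧ q.v = p.v) ∨
  (q.t = p.t ∧ q.x = p.x ∧ q.y = p.y ∧ F1 n q.u p.u ∧ q.v = p.v) ∨
  (q.t = p.t ∧ q.x = p.x ∧ q.y = p.y ∧ q.u = p.u ∧ F1 n q.v p.v)

variable {n : ℕ} [NeZero n]

theorem dbl_lt (a : C1 n) : dbl a < 2 * n := by
  have := ZMod.val_lt a.1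
  unfold dbl
  have h : a.2.toNat ≤ 1 := Bool.toNat_le _
  omega

omit [NeZero n] in
theorem dbl_und {d : ℕ} (h : d < 2 * n) : dbl (und n d) = d := by
  unfold dbl und
  simp only
  rw [ZMod.val_cast_of_lt (by omega)]
  by_cases h1 : d % 2 = 1
  · rw [decide_eq_true h1, Bool.toNat_true]; omega
  · rw [decide_eq_false h1, Bool.toNat_false]; omega

theorem und_dbl (a : C1 n) : und n (dbl a) = a := by
  obtain ⟨k, b⟩ := a
  unfold und dbl
  cases b
  · simp
  · simp only [Bool.toNat_true]
    rw [show (2 * k.val + 1) / 2 = k.val by omega, decide_eq_true (by omega)]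
    simp

omit [NeZero n] in
theorem num_cel {q : Q5} (h : Lt n q) : num (cel n q) = q := by
  obtain ⟨h0, h1, h2, h3, h4⟩ := h
  ext
  · exact dbl_und h0
  · exact dbl_und h1
  · exact dbl_und h2
  · exact dbl_und h3
  · exact dbl_und h4

theorem cel_num (a : Cell n) : cel n (num a) = a := by
  funext i
  fin_cases i
  · exact und_dbl (a 0)
  · exact und_dbl (a 1)
  · exact und_dbl (a 2)
  · exact und_dbl (a 3)
  · exact und_dbl (a 4)

theorem num_injective {a b : Cell n} (h : num a = num b) : a = b := by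
  rw [← cel_num a, ← cel_num b, h]

theorem lt_num (a : Cell n) : Lt n (num a) :=
  ⟨dbl_lt _, dbl_lt _, dbl_lt _, dbl_lt _, dbl_lt _⟩

theorem f1_iff (a b : C1 n) : F1 n (dbl a) (dbl b) ↔
    (b.2 = true ∧ a.2 = false ∧ (a.1 = b.1 ∨ a.1 = b.1 + 1)) := by
  obtain ⟨k, s⟩ := a
  obtain ⟨l, r⟩ := b
  have hk := ZMod.val_lt k
  have hl := ZMod.val_lt l
  have hadd : (l + 1).val = if l.val + 1 = n then 0 else l.val + 1 := by
    rw [ZMod.val_add, ZMod.val_one_eq_one_mod, Nat.add_mod_mod]
    split_ifs with h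
    · rw [h, Nat.mod_self]
    · exact Nat.mod_eq_of_lt (by omega)
  unfold F1 dbl
  simp only
  constructor
  · rintro ⟨h1, h2⟩
    cases r
    · simp only [Bool.toNat_false] at h1; omega
    · cases s
      · simp only [Bool.toNat_true, Bool.toNat_false] at h1 h2
        refine ⟨rfl, rfl, ?_⟩
        rcases h2 with h2 | h2 | h2
        · left
          exact ZMod.val_injective n (by omega)
        · right
          apply ZMod.val_injective n
          rw [hadd, if_neg (by omega)]
          omega
        · right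
          apply ZMod.val_injective n
          rw [hadd, if_pos (by omega)]
          omega
      · simp only [Bool.toNat_true] at h1 h2; omega
  · rintro ⟨rfl, rfl, h | h⟩
    · rw [h]
      simp only [Bool.toNat_true, Bool.toNat_false]
      exact ⟨by omega, Or.inl trivial⟩
    · rw [h]
      rw [hadd]
      simp only [Bool.toNat_true, Bool.toNat_false]
      split_ifs with h
      · exact ⟨by omega, Or.inr (Or.inr ⟨by omega, rfl⟩)⟩
      · exact ⟨by omega, Or.inr (Or.inl (by omega))⟩

omit [NeZero n] in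
theorem dbl_inj_iff [NeZero n] {a b : C1 n} : dbl a = dbl b ↔ a = b := by
  constructor
  · intro h
    rw [← und_dbl a, ← und_dbl b, h]
  · rintro rfl; rfl

theorem facet_iff (a b : Cell n) : Facet a b ↔ Fac n (num a) (num b) := by
  constructor
  · rintro ⟨j, h1, h2, h3, h4⟩
    have hF : F1 n (dbl (a j)) (dbl (b j)) := (f1_iff _ _).mpr ⟨h1, h2, h3⟩
    have hE : ∀ i, i ≠ j → dbl (a i) = dbl (b i) := fun i hi => by rw [h4 i hi]
    unfold Fac num
    fin_cases j
    · left
      exact ⟨hF, hE 1 (by decide), hE 2 (by decide), hE 3 (by decide), hE 4 (by decide)⟩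
    · right; left
      exact ⟨hE 0 (by decide), hF, hE 2 (by decide), hE 3 (by decide), hE 4 (by decide)⟩
    · right; right; left
      exact ⟨hE 0 (by decide), hE 1 (by decide), hF, hE 3 (by decide), hE 4 (by decide)⟩
    · right; right; right; left
      exact ⟨hE 0 (by decide), hE 1 (by decide), hE 2 (by decide), hF, hE 4 (by decide)⟩
    · right; right; right; right
      exact ⟨hE 0 (by decide), hE 1 (by decide), hE 2 (by decide), hE 3 (by decide), hF⟩
  · intro h
    unfold Fac num at h
    simp only at h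
    have key : ∀ j, F1 n (dbl (a j)) (dbl (b j)) → (∀ i, i ≠ j → a i = b i) → Facet a b := by
      intro j hj hij
      obtain ⟨h1, h2, h3⟩ := (f1_iff _ _).mp hj
      exact ⟨j, h1, h2, h3, hij⟩
    rcases h with ⟨h0, h1, h2, h3, h4⟩ | ⟨h0, h1, h2, h3, h4⟩ | ⟨h0, h1, h2, h3, h4⟩ |
      ⟨h0, h1, h2, h3, h4⟩ | ⟨h0, h1, h2, h3, h4⟩
    · refine key 0 h0 fun i hi => ?_
      rw [dbl_inj_iff] at h1 h2 h3 h4
      fin_cases i <;> first | exact absurd rfl hi | assumption
    · refine key 1 h1 fun i hi => ?_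
      rw [dbl_inj_iff] at h0 h2 h3 h4
      fin_cases i <;> first | exact absurd rfl hi | assumption
    · refine key 2 h2 fun i hi => ?_
      rw [dbl_inj_iff] at h0 h1 h3 h4
      fin_cases i <;> first | exact absurd rfl hi | assumption
    · refine key 3 h3 fun i hi => ?_
      rw [dbl_inj_iff] at h0 h1 h2 h4
      fin_cases i <;> first | exact absurd rfl hi | assumption
    · refine key 4 h4 fun i hi => ?_
      rw [dbl_inj_iff] at h0 h1 h2 h3
      fin_cases i <;> first | exact absurd rfl hi | assumption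

/-- the hypotheses of `collapse_matching` in doubled coordinates: `D` describes the cells of
`L \ K`, `μ` and `r` are the matching and the rank -/
theorem matching_num {K L : Set (Cell n)} (hK : IsCx K) (D : Q5 → Prop)
    (hD : ∀ a : Cell n, a ∈ L \ K ↔ D (num a)) (μ : Q5 → Q5) (r : Q5 → ℕ)
    (hlt : ∀ q, D q → Lt n q)
    (hμ : ∀ q, D q → D (μ q) ∧ μ (μ q) = q ∧ (Fac n q (μ q) ∨ Fac n (μ q) q) ∧ r (μ q) = r q)
    (hac : ∀ q, D q → Fac n q (μ q) → ∀ e, D e → Fac n q e → e ≠ μ q → r q < r e) :
    (∀ a ∈ L \ K, (fun a => cel n (μ (num a))) a ∈ L \ K ∧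
      (fun a => cel n (μ (num a))) ((fun a => cel n (μ (num a))) a) = a ∧
      (Facet a ((fun a => cel n (μ (num a))) a) ∨ Facet ((fun a => cel n (μ (num a))) a) a)) ∧
    (∀ a ∈ L \ K, (fun a => r (num a)) ((fun a => cel n (μ (num a))) a) =
      (fun a => r (num a)) a) ∧
    (∀ a ∈ L \ K, Facet a ((fun a => cel n (μ (num a))) a) → ∀ e ∈ L, Facet a e →
      e ≠ (fun a => cel n (μ (num a))) a → (fun a => r (num a)) a < (fun a => r (num a)) e) := by
  have hnum : ∀ q, D q → num (cel n q) = q := fun q hq => num_cel (hlt q hq)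
  refine ⟨?_, ?_, ?_⟩
  · intro a ha
    have h1 := (hD a).mp ha
    obtain ⟨h2, h3, h4, _⟩ := hμ _ h1
    refine ⟨?_, ?_, ?_⟩
    · show cel n (μ (num a)) ∈ L \ K
      rw [hD, hnum _ h2]
      exact h2
    · show cel n (μ (num (cel n (μ (num a))))) = a
      rw [hnum _ h2, h3, cel_num]
    · show Facet a (cel n (μ (num a))) ∨ Facet (cel n (μ (num a))) a
      rw [facet_iff, facet_iff, hnum _ h2]
      exact h4
  · intro a ha
    have h1 := (hD a).mp ha
    obtain ⟨h2, _, _, h5⟩ := hμ _ h1
    show r (num (cel n (μ (num a)))) = r (num a)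
    rw [hnum _ h2, h5]
  · intro a ha hf e he hae hne
    have h1 := (hD a).mp ha
    obtain ⟨h2, _, _, _⟩ := hμ _ h1
    have hf' : Facet a (cel n (μ (num a))) := hf
    rw [facet_iff, hnum _ h2] at hf'
    have heK : e ∉ K := by
      intro heK
      obtain ⟨j, j1, j2, j3, j4⟩ := hae
      refine ha.2 (hK e heK a fun i => ?_)
      by_cases hij : i = j
      · subst hij
        exact Or.inr ⟨j1, j2, j3⟩
      · exact Or.inl (j4 i hij)
    have he' := (hD e).mp ⟨he, heK⟩
    rw [facet_iff] at hae
    refine hac _ h1 hf' _ he' hae fun h => hne ?_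
    show e = cel n (μ (num a))
    rw [← h, cel_num]

/-- a criterion for complexes, one coordinate at a time -/
theorem isCx_num {L : Set (Cell n)} (P : Q5 → Prop) (hP : ∀ a : Cell n, a ∈ L ↔ P (num a))
    (h : ∀ p, Lt n p → P p → ∀ q, Lt n q → Fac n q p → P q) : IsCx L := by
  have key : ∀ a ∈ L, ∀ (j : Fin 5) (b : C1 n), Face1 b (a j) → Function.update a j b ∈ L := by
    intro a ha j b hb
    rcases hb with rfl | ⟨h1, h2, h3⟩
    · rw [Function.update_eq_self]; exact ha
    · rw [hP]
      refine h _ (lt_num a) ((hP a).mp ha) _ (lt_num _) ?_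
      rw [← facet_iff]
      refine ⟨j, h1, ?_, ?_, ?_⟩
      · rw [Function.update_self]; exact h2
      · rw [Function.update_self]; exact h3
      · intro i hi
        rw [Function.update_of_ne hi]
  intro a ha b hb
  have h0 := key a ha 0 (b 0) (hb 0)
  have h1 := key _ h0 1 (b 1) (by rw [Function.update_of_ne (by decide)]; exact hb 1)
  have h2 := key _ h1 2 (b 2) (by
    rw [Function.update_of_ne (by decide), Function.update_of_ne (by decide)]; exact hb 2)
  have h3 := key _ h2 3 (b 3) (by
    rw [Function.update_of_ne (by decide), Function.update_of_ne (by decide),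
      Function.update_of_ne (by decide)]; exact hb 3)
  have h4 := key _ h3 4 (b 4) (by
    rw [Function.update_of_ne (by decide), Function.update_of_ne (by decide),
      Function.update_of_ne (by decide), Function.update_of_ne (by decide)]; exact hb 4)
  have e : b = Function.update (Function.update (Function.update (Function.update
      (Function.update a 0 (b 0)) 1 (b 1)) 2 (b 2)) 3 (b 3)) 4 (b 4) := by
    funext i
    fin_cases i <;> simp [Function.update]
  rw [e]
  exact h4

end Num

end Pool.Agent.FM
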