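import Pool.Agent.FM.Defs3
import Pool.Agent.FM.Num

/-!
Definitions for block C11.
-/

open Set

namespace Pool.Agent.FM

namespace C11

/-- the closed segment from `w j` to `w (j + 1)`, in doubled coordinates -/
def Sg (w : ℕ → ℕ × ℕ) (j u v : ℕ) : Prop :=
  2 * min (w j).1 (w (j + 1)).1 ≤ u ∧ u ≤ 2 * max (w j).1 (w (j + 1)).1 ∧
    2 * min (w j).2 (w (j + 1)).2 ≤ v ∧ v ≤ 2 * max (w j).2 (w (j + 1)).2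

/-- the line of a walk in the window -/
def Ln (w : ℕ → ℕ × ℕ) (t1 t2 t u v : ℕ) : Prop :=
  (t = 2 * t1 ∧ u = 2 ∧ v = 2) ∨
  (2 * t1 < t ∧ t ≤ 2 * t2 ∧ t % 2 = 1 ∧ u = 2 * (w (t / 2)).1 ∧ v = 2 * (w (t / 2)).2) ∨
  (2 * t1 < t ∧ t ≤ 2 * t2 ∧ t % 2 = 0 ∧ Sg w (t / 2 - 1) u v)

/-- the window times the rectangle -/
def WR (m t1 t2 t u v : ℕ) : Prop :=
  2 * t1 ≤ t ∧ t ≤ 2 * t2 ∧ 2 ≤ u ∧ u ≤ 4 * m + 2 ∧ 2 ≤ v ∧ v ≤ 4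

/-- the cells to be collapsed -/
def D (w1 w2 : ℕ → ℕ × ℕ) (m t1 t2 : ℕ) (q : Q5) : Prop :=
  (q.x = 3 ∧ q.y = 0 ∧ Ln w2 t1 t2 q.t q.u q.v ∧ ¬ Ln w1 t1 t2 q.t q.u q.v) ∨
  (q.x = 3 ∧ q.y = 1 ∧ (Ln w1 t1 t2 q.t q.u q.v ∨ Ln w2 t1 t2 q.t q.u q.v)) ∨
  (((q.x = 4 ∧ q.y = 1) ∨ (q.x = 3 ∧ q.y = 2) ∨ (q.x = 4 ∧ q.y = 2)) ∧
    WR m t1 t2 q.t q.u q.v)

/-- the additional cells -/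
def Ex (w1 w2 : ℕ → ℕ × ℕ) (m t1 t2 : ℕ) (q : Q5) : Prop :=
  (q.x = 3 ∧ q.y = 1 ∧ (Ln w1 t1 t2 q.t q.u q.v ∨ Ln w2 t1 t2 q.t q.u q.v)) ∨
  (((q.x = 4 ∧ q.y = 1) ∨ (q.x = 3 ∧ q.y = 2) ∨ (q.x = 4 ∧ q.y = 2)) ∧
    WR m t1 t2 q.t q.u q.v)

/-- the big complex -/
def EL (c1 c2 : Cfg) (t1 t2 n : ℕ) : Set (Cell n) :=
  (c1.K false n ∪ c2.K false n) ∪ {a | Ex c1.f c2.f c1.m t1 t2 (Num.num a)}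

/-- the symmetric hypotheses -/
structure Hyp (c1 c2 : Cfg) (t1 t2 : ℕ) : Prop where
  ok1 : c1.Ok
  ok2 : c2.Ok
  hm : c2.m = c1.m
  hT : c2.T = c1.T
  hJ1 : c2.J1 = c1.J1
  hJ2 : c2.J2 = c1.J2
  hg : c2.g = c1.g
  h4 : 4 ≤ t1
  h12 : t1 < t2
  h2T : t2 < c1.T
  hg1 : c1.g t1 = (1, 1)
  hg2 : c1.g t2 = (1, 1)
  hf : ∀ t, t < t1 ∨ t2 < t → c2.f t = c1.f t
  hf1 : c1.f t1 = (1, 1)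
  hf1' : c2.f t1 = (1, 1)
  hf2 : c1.f t2 = (1, 1)
  hf2' : c2.f t2 = (1, 1)
  hw : (∀ t, t1 ≤ t → t ≤ t2 → c1.f t = (1, 1)) ∨ (∀ t, t1 ≤ t → t ≤ t2 → c1.f t = c1.g t)
  hw' : (∀ t, t1 ≤ t → t ≤ t2 → c2.f t = (1, 1)) ∨ (∀ t, t1 ≤ t → t ≤ t2 → c2.f t = c1.g t)

end C11

end Pool.Agent.FM
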