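import Pool.Agent.FM.C11Slice

/-!
The matching for block C11.
-/

open Set

namespace Pool.Agent.FM

namespace C11

open Classical in
/-- the matching -/
noncomputable def muQ (w : ℕ → ℕ × ℕ) (t1 t2 : ℕ) (q : Q5) : Q5 :=
  if q.y = 0 then ⟨q.t, q.x, 1, q.u, q.v⟩
  else if q.y = 1 then
    (if q.x = 3 then
      (if Ln w t1 t2 q.t q.u q.v then ⟨q.t, 4, q.y, q.u, q.v⟩ else ⟨q.t, q.x, 0, q.u, q.v⟩)
    else
      (if Ln w t1 t2 q.t q.u q.v then ⟨q.t, 3, q.y, q.u, q.v⟩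
       else ⟨(nuS w t1 q.t q.u q.v).1, q.x, q.y, (nuS w t1 q.t q.u q.v).2.1,
        (nuS w t1 q.t q.u q.v).2.2⟩))
  else if q.x = 3 then ⟨q.t, 4, q.y, q.u, q.v⟩ else ⟨q.t, 3, q.y, q.u, q.v⟩

open Classical in
/-- the rank -/
noncomputable def rQ (w : ℕ → ℕ × ℕ) (m t1 t2 : ℕ) (q : Q5) : ℕ :=
  if q.y = 2 then q.t % 2 + q.u % 2 + q.v % 2
  else if Ln w t1 t2 q.t q.u q.v then 4 + (q.t % 2 + q.u % 2 + q.v % 2)
  else if q.x = 4 then 8 + rhoS w m t1 q.t q.u q.v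
  else 12 * m + 4 * t2 + 20 + (q.t % 2 + q.u % 2 + q.v % 2)

section

variable {w w2 : ℕ → ℕ × ℕ} {m t1 t2 : ℕ}

theorem Ln_WR (hw : WOk w m t1 t2) (h12 : t1 < t2) {t u v : ℕ} (h : Ln w t1 t2 t u v) :
    WR m t1 t2 t u v := by
  rcases h with ⟨rfl, rfl, rfl⟩ | ⟨a1, a2, a3, rfl, rfl⟩ | ⟨a1, a2, a3, h⟩
  · unfold WR; omega
  · have := hw.bd (t / 2) (by omega) (by omega)
    unfold WR; omega
  · have b1 := hw.bd (t / 2 - 1) (by omega) (by omega)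
    have b2 := hw.bd (t / 2 - 1 + 1) (by omega) (by omega)
    unfold Sg at h
    unfold WR; omega

theorem rho_le {t u v : ℕ} (h : WR m t1 t2 t u v) :
    rhoS w m t1 t u v ≤ 12 * m + 4 * t2 + 11 := by
  unfold WR at h
  unfold rhoS
  split_ifs <;> omega

theorem D_WR (hw : WOk w m t1 t2) (hw2 : WOk w2 m t1 t2) (h12 : t1 < t2) {q : Q5}
    (h : D w w2 m t1 t2 q) : WR m t1 t2 q.t q.u q.v ∧ 3 ≤ q.x ∧ q.x ≤ 4 ∧ q.y ≤ 2 := by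
  rcases h with ⟨a1, a2, a3, a4⟩ | ⟨a1, a2, a3 | a3⟩ | ⟨a1, a2⟩
  · exact ⟨Ln_WR hw2 h12 a3, by omega, by omega, by omega⟩
  · exact ⟨Ln_WR hw h12 a3, by omega, by omega, by omega⟩
  · exact ⟨Ln_WR hw2 h12 a3, by omega, by omega, by omega⟩
  · exact ⟨a2, by omega, by omega, by omega⟩

/-- facets between cells of `D` -/
theorem fac_D {n : ℕ} (hn : 2 * t2 + 2 < 2 * n) (hm : 4 * m + 4 < 2 * n) (hn5 : 5 ≤ n)
    (hw : WOk w m t1 t2) (hw2 : WOk w2 m t1 t2) (h12 : t1 < t2) {q e : Q5}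
    (hq : D w w2 m t1 t2 q) (he : D w w2 m t1 t2 e) (h : Num.Fac n q e) :
    (F3 q.t q.u q.v e.t e.u e.v ∧ q.x = e.x ∧ q.y = e.y) ∨
    (q.t = e.t ∧ q.u = e.u ∧ q.v = e.v ∧ q.y = e.y ∧ q.x = 4 ∧ e.x = 3) ∨
    (q.t = e.t ∧ q.u = e.u ∧ q.v = e.v ∧ q.x = e.x ∧ (q.y = 0 ∨ q.y = 2) ∧ e.y = 1) := by
  obtain ⟨a1, a2, a3, a4⟩ := D_WR hw hw2 h12 hq
  obtain ⟨b1, b2, b3, b4⟩ := D_WR hw hw2 h12 he
  unfold WR at a1 b1
  unfold Num.Fac Num.F1 at h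
  rcases h with ⟨h0, h1, h2, h3, h4⟩ | ⟨h0, h1, h2, h3, h4⟩ | ⟨h0, h1, h2, h3, h4⟩ |
      ⟨h0, h1, h2, h3, h4⟩ | ⟨h0, h1, h2, h3, h4⟩
  · left
    exact ⟨Or.inl ⟨h0.1, by omega, h3, h4⟩, h1, h2⟩
  · right; left
    omega
  · right; right
    omega
  · left
    exact ⟨Or.inr (Or.inl ⟨h0, h3.1, by omega, h4⟩), h1, h2⟩
  · left
    exact ⟨Or.inr (Or.inr ⟨h0, h3, h4.1, by omega⟩), h1, h2⟩

theorem fac_F3 {n : ℕ} {t x y u v t' u' v' : ℕ} (h : F3 t u v t' u' v') :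
    Num.Fac n ⟨t, x, y, u, v⟩ ⟨t', x, y, u', v'⟩ := by
  unfold Num.Fac Num.F1
  dsimp only
  rcases h with ⟨h1, h2, h3, h4⟩ | ⟨h1, h2, h3, h4⟩ | ⟨h1, h2, h3, h4⟩
  · left
    exact ⟨⟨h1, by omega⟩, rfl, rfl, h3, h4⟩
  · right; right; right; left
    exact ⟨h1, rfl, rfl, ⟨h2, by omega⟩, h4⟩
  · right; right; right; right
    exact ⟨h1, rfl, rfl, h2, ⟨h3, by omega⟩⟩

theorem D_lt {n : ℕ} (hn : 2 * t2 + 2 < 2 * n) (hm : 4 * m + 4 < 2 * n) (hn5 : 5 ≤ n)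
    (hw : WOk w m t1 t2) (hw2 : WOk w2 m t1 t2) (h12 : t1 < t2) {q : Q5}
    (hq : D w w2 m t1 t2 q) : Num.Lt n q := by
  obtain ⟨a1, a2, a3, a4⟩ := D_WR hw hw2 h12 hq
  unfold WR at a1
  unfold Num.Lt
  omega

theorem D_mu {n : ℕ} (hw : WOk w m t1 t2) (hw2 : WOk w2 m t1 t2) (h12 : t1 < t2) (q : Q5)
    (hq : D w w2 m t1 t2 q) : D w w2 m t1 t2 (muQ w t1 t2 q) ∧
      muQ w t1 t2 (muQ w t1 t2 q) = q ∧
      (Num.Fac n q (muQ w t1 t2 q) ∨ Num.Fac n (muQ w t1 t2 q) q) ∧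
      rQ w m t1 t2 (muQ w t1 t2 q) = rQ w m t1 t2 q := by
  obtain ⟨t, x, y, u, v⟩ := q
  have facx : ∀ y, Num.Fac n ⟨t, 4, y, u, v⟩ ⟨t, 3, y, u, v⟩ := fun y => by
    unfold Num.Fac Num.F1
    right; left
    exact ⟨rfl, ⟨by norm_num, Or.inr (Or.inl rfl)⟩, rfl, rfl, rfl⟩
  have facy : ∀ x, Num.Fac n ⟨t, x, 0, u, v⟩ ⟨t, x, 1, u, v⟩ := fun x => by
    unfold Num.Fac Num.F1
    right; right; left
    exact ⟨rfl, rfl, ⟨by norm_num, Or.inl rfl⟩, rfl, rfl⟩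
  rcases hq with ⟨a1, a2, a3, a4⟩ | ⟨a1, a2, a3⟩ | ⟨⟨a1, a1'⟩ | ⟨a1, a1'⟩ | ⟨a1, a1'⟩, a2⟩
  · simp only at a1 a2 a3 a4
    subst a1 a2
    have e1 : muQ w t1 t2 ⟨t, 3, 0, u, v⟩ = ⟨t, 3, 1, u, v⟩ := by simp [muQ]
    have e2 : muQ w t1 t2 ⟨t, 3, 1, u, v⟩ = ⟨t, 3, 0, u, v⟩ := by simp [muQ, a4]
    rw [e1, e2]
    refine ⟨Or.inr (Or.inl ⟨rfl, rfl, Or.inr a3⟩), rfl, Or.inl (facy 3), ?_⟩
    simp [rQ, a4]
  · simp only at a1 a2 a3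
    subst a1 a2
    by_cases hL : Ln w t1 t2 t u v
    · have e1 : muQ w t1 t2 ⟨t, 3, 1, u, v⟩ = ⟨t, 4, 1, u, v⟩ := by simp [muQ, hL]
      have e2 : muQ w t1 t2 ⟨t, 4, 1, u, v⟩ = ⟨t, 3, 1, u, v⟩ := by simp [muQ, hL]
      rw [e1, e2]
      refine ⟨Or.inr (Or.inr ⟨Or.inl ⟨rfl, rfl⟩, Ln_WR hw h12 hL⟩), rfl, Or.inr (facx 1), ?_⟩
      simp [rQ, hL]
    · have e1 : muQ w t1 t2 ⟨t, 3, 0, u, v⟩ = ⟨t, 3, 1, u, v⟩ := by simp [muQ]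
      have e2 : muQ w t1 t2 ⟨t, 3, 1, u, v⟩ = ⟨t, 3, 0, u, v⟩ := by simp [muQ, hL]
      rw [e2, e1]
      refine ⟨Or.inl ⟨rfl, rfl, a3.resolve_left hL, hL⟩, rfl, Or.inr (facy 3), ?_⟩
      simp [rQ, hL]
  · simp only at a1 a1' a2
    subst a1 a1'
    by_cases hL : Ln w t1 t2 t u v
    · have e1 : muQ w t1 t2 ⟨t, 3, 1, u, v⟩ = ⟨t, 4, 1, u, v⟩ := by simp [muQ, hL]
      have e2 : muQ w t1 t2 ⟨t, 4, 1, u, v⟩ = ⟨t, 3, 1, u, v⟩ := by simp [muQ, hL]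
      rw [e2, e1]
      refine ⟨Or.inr (Or.inl ⟨rfl, rfl, Or.inl hL⟩), rfl, Or.inl (facx 1), ?_⟩
      simp [rQ, hL]
    · obtain ⟨t', u', v', b1, b2, b3, b4, b5, b6⟩ := slice_mu hw h12 a2 hL
      have e1 : muQ w t1 t2 ⟨t, 4, 1, u, v⟩ = ⟨t', 4, 1, u', v'⟩ := by simp [muQ, hL, b1]
      have e2 : muQ w t1 t2 ⟨t', 4, 1, u', v'⟩ = ⟨t, 4, 1, u, v⟩ := by simp [muQ, b3, b4]
      rw [e1, e2]
      refine ⟨Or.inr (Or.inr ⟨Or.inl ⟨rfl, rfl⟩, b2⟩), rfl, ?_, ?_⟩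
      · rcases b5 with b5 | b5
        · exact Or.inl (fac_F3 b5)
        · exact Or.inr (fac_F3 b5)
      · simp [rQ, hL, b3, b6]
  · simp only at a1 a1' a2
    subst a1 a1'
    have e1 : muQ w t1 t2 ⟨t, 3, 2, u, v⟩ = ⟨t, 4, 2, u, v⟩ := by simp [muQ]
    have e2 : muQ w t1 t2 ⟨t, 4, 2, u, v⟩ = ⟨t, 3, 2, u, v⟩ := by simp [muQ]
    rw [e1, e2]
    refine ⟨Or.inr (Or.inr ⟨Or.inr (Or.inr ⟨rfl, rfl⟩), a2⟩), rfl, Or.inr (facx 2), ?_⟩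
    simp [rQ]
  · simp only at a1 a1' a2
    subst a1 a1'
    have e1 : muQ w t1 t2 ⟨t, 3, 2, u, v⟩ = ⟨t, 4, 2, u, v⟩ := by simp [muQ]
    have e2 : muQ w t1 t2 ⟨t, 4, 2, u, v⟩ = ⟨t, 3, 2, u, v⟩ := by simp [muQ]
    rw [e2, e1]
    refine ⟨Or.inr (Or.inr ⟨Or.inr (Or.inl ⟨rfl, rfl⟩), a2⟩), rfl, Or.inl (facx 2), ?_⟩
    simp [rQ]

theorem F3_dim {t u v t' u' v' : ℕ} (h : F3 t u v t' u' v') :
    t % 2 + u % 2 + v % 2 < t' % 2 + u' % 2 + v' % 2 := by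
  unfold F3 at h
  omega

theorem D_ac {n : ℕ} (hn : 2 * t2 + 2 < 2 * n) (hm : 4 * m + 4 < 2 * n) (hn5 : 5 ≤ n)
    (hw : WOk w m t1 t2) (hw2 : WOk w2 m t1 t2) (h12 : t1 < t2) (q : Q5)
    (hq : D w w2 m t1 t2 q) (hlo : Num.Fac n q (muQ w t1 t2 q)) (e : Q5)
    (he : D w w2 m t1 t2 e) (hf : Num.Fac n q e) (hne : e ≠ muQ w t1 t2 q) :
    rQ w m t1 t2 q < rQ w m t1 t2 e := by
  obtain ⟨hWq, -, -, -⟩ := D_WR hw hw2 h12 hq
  obtain ⟨hWe, -, -, -⟩ := D_WR hw hw2 h12 he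
  have hμ := (D_mu (n := n) hw hw2 h12 q hq).1
  have hlo' := fac_D hn hm hn5 hw hw2 h12 hq hμ hlo
  have hf' := fac_D hn hm hn5 hw hw2 h12 hq he hf
  obtain ⟨t, x, y, u, v⟩ := q
  obtain ⟨t', x', y', u', v'⟩ := e
  simp only at hWq hWe hf' hlo'
  have hrq := rho_le (w := w) hWq
  have hre := rho_le (w := w) hWe
  rcases hq with ⟨a1, a2, a3, a4⟩ | ⟨a1, a2, a3⟩ | ⟨⟨a1, a1'⟩ | ⟨a1, a1'⟩ | ⟨a1, a1'⟩, a2⟩
  · -- phase 1
    simp only at a1 a2 a3 a4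
    subst a1 a2
    have e1 : muQ w t1 t2 ⟨t, 3, 0, u, v⟩ = ⟨t, 3, 1, u, v⟩ := by simp [muQ]
    rw [e1] at hne
    rcases hf' with ⟨h1, h2, h3⟩ | h | ⟨h1, h2, h3, h4, h5, h6⟩
    · subst h2 h3
      have hL' : ¬ Ln w t1 t2 t' u' v' := fun h => a4 (Ln_face hw h1 hWq h hWe)
      have := F3_dim h1
      simp only [rQ, a4, hL', if_false]
      norm_num
      omega
    · omega
    · exfalso
      apply hne
      subst h1 h2 h3 h4 h6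
      rfl
  · simp only at a1 a2 a3
    subst a1 a2
    by_cases hL : Ln w t1 t2 t u v
    · have e1 : muQ w t1 t2 ⟨t, 3, 1, u, v⟩ = ⟨t, 4, 1, u, v⟩ := by simp [muQ, hL]
      rw [e1] at hlo'
      simp only at hlo'
      unfold F3 at hlo'
      omega
    · have e2 : muQ w t1 t2 ⟨t, 3, 1, u, v⟩ = ⟨t, 3, 0, u, v⟩ := by simp [muQ, hL]
      rw [e2] at hlo'
      simp only at hlo'
      unfold F3 at hlo'
      omega
  · simp only at a1 a1' a2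
    subst a1 a1'
    by_cases hL : Ln w t1 t2 t u v
    · -- phase 3
      have e2 : muQ w t1 t2 ⟨t, 4, 1, u, v⟩ = ⟨t, 3, 1, u, v⟩ := by simp [muQ, hL]
      rw [e2] at hne
      rcases hf' with ⟨h1, h2, h3⟩ | ⟨h1, h2, h3, h4, h5, h6⟩ | h
      · subst h2 h3
        have := F3_dim h1
        by_cases hL' : Ln w t1 t2 t' u' v'
        · simp only [rQ, hL, hL', if_true]
          norm_num
          omega
        · simp only [rQ, hL, hL', if_true, if_false]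
          norm_num
          omega
      · exfalso
        apply hne
        subst h1 h2 h3 h4 h6
        rfl
      · omega
    · -- phase 2
      obtain ⟨t'', u'', v'', b1, b2, b3, b4, b5, b6⟩ := slice_mu hw h12 a2 hL
      have e1 : muQ w t1 t2 ⟨t, 4, 1, u, v⟩ = ⟨t'', 4, 1, u'', v''⟩ := by simp [muQ, hL, b1]
      rw [e1] at hne hlo'
      simp only at hlo'
      rcases hf' with ⟨h1, h2, h3⟩ | ⟨h1, h2, h3, h4, h5, h6⟩ | h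
      · subst h2 h3
        have hL' : ¬ Ln w t1 t2 t' u' v' := fun h => hL (Ln_face hw h1 hWq h hWe)
        have hlo3 : F3 t u v t'' u'' v'' := by
          rcases hlo' with h | h | h
          · exact h.1
          · omega
          · omega
        have := slice_ac hw a2 hL hWe hL' b1 hlo3 h1 (by
          intro h
          apply hne
          simp only [Prod.mk.injEq] at h
          obtain ⟨rfl, rfl, rfl⟩ := h
          rfl)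
        simp only [rQ, hL, hL', if_false]
        norm_num
        omega
      · subst h1 h2 h3 h4 h6
        simp only [rQ, hL, if_false]
        norm_num
        omega
      · omega
  · -- the upper cells of phase 4
    simp only at a1 a1' a2
    subst a1 a1'
    have e1 : muQ w t1 t2 ⟨t, 3, 2, u, v⟩ = ⟨t, 4, 2, u, v⟩ := by simp [muQ]
    rw [e1] at hlo'
    simp only at hlo'
    unfold F3 at hlo'
    omega
  · -- phase 4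
    simp only at a1 a1' a2
    subst a1 a1'
    have e2 : muQ w t1 t2 ⟨t, 4, 2, u, v⟩ = ⟨t, 3, 2, u, v⟩ := by simp [muQ]
    rw [e2] at hne
    rcases hf' with ⟨h1, h2, h3⟩ | ⟨h1, h2, h3, h4, h5, h6⟩ | ⟨h1, h2, h3, h4, h5, h6⟩
    · subst h2 h3
      have := F3_dim h1
      simp only [rQ]
      norm_num
      omega
    · exfalso
      apply hne
      subst h1 h2 h3 h4 h6
      rfl
    · subst h1 h2 h3 h4 h6
      by_cases hL : Ln w t1 t2 t u v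
      · simp only [rQ, hL, if_true]
        norm_num
      · simp only [rQ, hL, if_false]
        norm_num
        omega

end

end C11

end Pool.Agent.FM
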