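import Pool.Agent.FM.C11Defs

/-!
Slice matching for block C11.
-/

open Set

namespace Pool.Agent.FM

namespace C11

/-- facets of triples (no wrap) -/
def F3 (t u v t' u' v' : ℕ) : Prop :=
  (t' % 2 = 1 ∧ (t + 1 = t' ∨ t = t' + 1) ∧ u = u' ∧ v = v') ∨
  (t = t' ∧ u' % 2 = 1 ∧ (u + 1 = u' ∨ u = u' + 1) ∧ v = v') ∨
  (t = t' ∧ u = u' ∧ v' % 2 = 1 ∧ (v + 1 = v' ∨ v = v' + 1))

/-- walks in the window -/
structure WOk (w : ℕ → ℕ × ℕ) (m t1 t2 : ℕ) : Prop where
  adj : ∀ j, t1 ≤ j → j < t2 → ((w j).1 = (w (j + 1)).1 ∧ ((w j).2 = (w (j + 1)).2 ∨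
    (w j).2 + 1 = (w (j + 1)).2 ∨ (w (j + 1)).2 + 1 = (w j).2)) ∨
    ((w j).2 = (w (j + 1)).2 ∧ ((w j).1 + 1 = (w (j + 1)).1 ∨ (w (j + 1)).1 + 1 = (w j).1))
  bd : ∀ j, t1 ≤ j → j ≤ t2 →
    1 ≤ (w j).1 ∧ (w j).1 ≤ 2 * m + 1 ∧ 1 ≤ (w j).2 ∧ (w j).2 ≤ 2
  st : w t1 = (1, 1)

open Classical in
/-- the slice matching -/
noncomputable def nuS (w : ℕ → ℕ × ℕ) (t1 t u v : ℕ) : ℕ × ℕ × ℕ :=
  if t = 2 * t1 then
    (if u = 2 then (t, 2, 7 - v) else if u % 2 = 1 then (t, u + 1, v) else (t, u - 1, v))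
  else if Sg w ((t - 1) / 2) u v then
    (if u % 2 = 0 ∧ v % 2 = 0 then
      (t, (w ((t - 1) / 2)).1 + (w ((t - 1) / 2 + 1)).1,
        (w ((t - 1) / 2)).2 + (w ((t - 1) / 2 + 1)).2)
     else (t, 2 * (w ((t - 1) / 2 + 1)).1, 2 * (w ((t - 1) / 2 + 1)).2))
  else if t % 2 = 1 then (t + 1, u, v) else (t - 1, u, v)

open Classical in
/-- the rank of the slice matching -/
noncomputable def rhoS (w : ℕ → ℕ × ℕ) (m t1 t u v : ℕ) : ℕ :=
  if t = 2 * t1 then (if u = 2 then 0 else 3 * (u + u % 2) + v % 2)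
  else if Sg w ((t - 1) / 2) u v then 12 * m + 8 + 4 * ((t - 1) / 2 + 1)
  else 12 * m + 8 + 4 * ((t - 1) / 2 + 1) + 1 + u % 2 + v % 2

section

variable {w : ℕ → ℕ × ℕ} {m t1 t2 : ℕ}

theorem odd_half (j : ℕ) : (2 * j + 1 - 1) / 2 = j := by omega
theorem even_half (j : ℕ) : (2 * j + 2 - 1) / 2 = j := by omega

theorem nu_start {u v : ℕ} : nuS w t1 (2 * t1) u v =
    if u = 2 then (2 * t1, 2, 7 - v) else if u % 2 = 1 then (2 * t1, u + 1, v)
      else (2 * t1, u - 1, v) := by
  unfold nuS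
  rw [if_pos rfl]

theorem nu_Aup {j u v : ℕ} (h : ¬ Sg w j u v) : nuS w t1 (2 * j + 1) u v = (2 * j + 2, u, v) := by
  unfold nuS
  rw [if_neg (by omega), odd_half, if_neg h, if_pos (by omega)]

theorem nu_Alo {j u v : ℕ} (hj : t1 ≤ j) (h : ¬ Sg w j u v) :
    nuS w t1 (2 * j + 2) u v = (2 * j + 1, u, v) := by
  unfold nuS
  rw [if_neg (by omega), even_half, if_neg h, if_neg (by omega)]
  rfl

theorem nu_Blo {j u v : ℕ} (h : Sg w j u v) (h2 : u % 2 = 0 ∧ v % 2 = 0) :
    nuS w t1 (2 * j + 1) u v =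
      (2 * j + 1, (w j).1 + (w (j + 1)).1, (w j).2 + (w (j + 1)).2) := by
  unfold nuS
  rw [if_neg (by omega), odd_half, if_pos h, if_pos h2]

theorem nu_Bup {j u v : ℕ} (h : Sg w j u v) (h2 : ¬ (u % 2 = 0 ∧ v % 2 = 0)) :
    nuS w t1 (2 * j + 1) u v =
      (2 * j + 1, 2 * (w (j + 1)).1, 2 * (w (j + 1)).2) := by
  unfold nuS
  rw [if_neg (by omega), odd_half, if_pos h, if_neg h2]

theorem rho_start {u v : ℕ} : rhoS w m t1 (2 * t1) u v =
    if u = 2 then 0 else 3 * (u + u % 2) + v % 2 := by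
  unfold rhoS
  rw [if_pos rfl]

theorem rho_odd_pos {j u v : ℕ} (h : Sg w j u v) :
    rhoS w m t1 (2 * j + 1) u v = 12 * m + 8 + 4 * (j + 1) := by
  unfold rhoS
  rw [if_neg (by omega), odd_half, if_pos h]

theorem rho_odd_neg {j u v : ℕ} (h : ¬ Sg w j u v) :
    rhoS w m t1 (2 * j + 1) u v = 12 * m + 8 + 4 * (j + 1) + 1 + u % 2 + v % 2 := by
  unfold rhoS
  rw [if_neg (by omega), odd_half, if_neg h]

theorem rho_even_neg {j u v : ℕ} (hj : t1 ≤ j) (h : ¬ Sg w j u v) :
    rhoS w m t1 (2 * j + 2) u v = 12 * m + 8 + 4 * (j + 1) + 1 + u % 2 + v % 2 := by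
  unfold rhoS
  rw [if_neg (by omega), even_half, if_neg h]

theorem Ln_start {u v : ℕ} : Ln w t1 t2 (2 * t1) u v ↔ u = 2 ∧ v = 2 := by
  unfold Ln
  constructor
  · rintro (⟨_, h⟩ | h | h)
    · exact h
    · omega
    · omega
  · intro h
    exact Or.inl ⟨rfl, h⟩

theorem Ln_odd {j u v : ℕ} (h1 : t1 ≤ j) (h2 : j < t2) : Ln w t1 t2 (2 * j + 1) u v ↔
    u = 2 * (w j).1 ∧ v = 2 * (w j).2 := by
  unfold Ln
  rw [show (2 * j + 1) / 2 = j by omega]
  constructor
  · rintro (h | ⟨_, _, _, h⟩ | h)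
    · omega
    · exact h
    · omega
  · intro h
    exact Or.inr (Or.inl ⟨by omega, by omega, by omega, h⟩)

theorem Ln_even {j u v : ℕ} (h1 : t1 ≤ j) (h2 : j < t2) : Ln w t1 t2 (2 * j + 2) u v ↔
    Sg w j u v := by
  unfold Ln
  rw [show (2 * j + 2) / 2 - 1 = j by omega]
  constructor
  · rintro (h | h | ⟨_, _, _, h⟩)
    · omega
    · omega
    · exact h
  · intro h
    exact Or.inr (Or.inr ⟨by omega, by omega, by omega, h⟩)

theorem WR_cases {t u v : ℕ} (h : WR m t1 t2 t u v) : t = 2 * t1 ∨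
    ∃ j, t1 ≤ j ∧ j < t2 ∧ (t = 2 * j + 1 ∨ t = 2 * j + 2) := by
  unfold WR at h
  by_cases h1 : t = 2 * t1
  · exact Or.inl h1
  · exact Or.inr ⟨(t - 1) / 2, by omega, by omega, by omega⟩

/-- the matching property -/
theorem slice_mu (hw : WOk w m t1 t2) (h12 : t1 < t2) {t u v : ℕ} (h : WR m t1 t2 t u v)
    (hL : ¬ Ln w t1 t2 t u v) : ∃ t' u' v', nuS w t1 t u v = (t', u', v') ∧
      WR m t1 t2 t' u' v' ∧ ¬ Ln w t1 t2 t' u' v' ∧ nuS w t1 t' u' v' = (t, u, v) ∧
      (F3 t u v t' u' v' ∨ F3 t' u' v' t u v) ∧ rhoS w m t1 t' u' v' = rhoS w m t1 t u v := by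
  rcases WR_cases h with rfl | ⟨j, hj1, hj2, rfl | rfl⟩
  · rw [Ln_start] at hL
    unfold WR at h
    rw [nu_start]
    by_cases hu : u = 2
    · subst hu
      refine ⟨2 * t1, 2, 7 - v, by rw [if_pos rfl], ?_, ?_, ?_, ?_, ?_⟩
      · unfold WR; omega
      · rw [Ln_start]; omega
      · rw [nu_start, if_pos rfl, show 7 - (7 - v) = v by omega]
      · unfold F3; omega
      · rw [rho_start, rho_start, if_pos rfl, if_pos rfl]
    · rw [if_neg hu]
      by_cases hu2 : u % 2 = 1
      · refine ⟨2 * t1, u + 1, v, by rw [if_pos hu2], ?_, ?_, ?_, ?_, ?_⟩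
        · unfold WR; omega
        · rw [Ln_start]; omega
        · rw [nu_start, if_neg (by omega), if_neg (by omega)]
          rfl
        · unfold F3; omega
        · rw [rho_start, rho_start, if_neg (by omega), if_neg hu]
          omega
      · refine ⟨2 * t1, u - 1, v, by rw [if_neg hu2], ?_, ?_, ?_, ?_, ?_⟩
        · unfold WR; omega
        · rw [Ln_start]; omega
        · rw [nu_start, if_neg (by omega), if_pos (by omega), show u - 1 + 1 = u by omega]
        · unfold F3; omega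
        · rw [rho_start, rho_start, if_neg (by omega), if_neg hu]
          omega
  · -- odd times
    have hadj := hw.adj j hj1 hj2
    have hb1 := hw.bd j hj1 (by omega)
    have hb2 := hw.bd (j + 1) (by omega) (by omega)
    rw [Ln_odd hj1 hj2] at hL
    by_cases hS : Sg w j u v
    · by_cases he : u % 2 = 0 ∧ v % 2 = 0
      · have hS' : Sg w j ((w j).1 + (w (j + 1)).1) ((w j).2 + (w (j + 1)).2) := by
          unfold Sg; omega
        obtain ⟨hu, hv, hd⟩ : u = 2 * (w (j + 1)).1 ∧ v = 2 * (w (j + 1)).2 ∧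
            (((w j).1 = (w (j + 1)).1 ∧ ((w j).2 + 1 = (w (j + 1)).2 ∨
              (w (j + 1)).2 + 1 = (w j).2)) ∨
            ((w j).2 = (w (j + 1)).2 ∧ ((w j).1 + 1 = (w (j + 1)).1 ∨
              (w (j + 1)).1 + 1 = (w j).1))) := by
          unfold Sg at hS
          rcases hadj with ⟨e1, e2 | e2 | e2⟩ | ⟨e1, e2 | e2⟩ <;> omega
        have hne : ¬ (((w j).1 + (w (j + 1)).1) % 2 = 0 ∧ ((w j).2 + (w (j + 1)).2) % 2 = 0) := by
          omega
        refine ⟨_, _, _, nu_Blo hS he, ?_, ?_, ?_, ?_, ?_⟩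
        · unfold WR; omega
        · rw [Ln_odd hj1 hj2]; omega
        · rw [nu_Bup hS' hne, hu, hv]
        · left
          clear hS hS' hadj
          unfold F3
          rcases hd with ⟨e1, e2 | e2⟩ | ⟨e1, e2 | e2⟩
          · right; right; omega
          · right; right; omega
          · right; left; omega
          · right; left; omega
        · rw [rho_odd_pos hS, rho_odd_pos hS']
      · have hS' : Sg w j (2 * (w (j + 1)).1) (2 * (w (j + 1)).2) := by
          unfold Sg; omega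
        obtain ⟨hu, hv⟩ : u = (w j).1 + (w (j + 1)).1 ∧ v = (w j).2 + (w (j + 1)).2 := by
          unfold Sg at hS
          rcases hadj with ⟨e1, e2 | e2 | e2⟩ | ⟨e1, e2 | e2⟩ <;> omega
        refine ⟨_, _, _, nu_Bup hS he, ?_, ?_, ?_, ?_, ?_⟩
        · unfold WR; omega
        · rw [Ln_odd hj1 hj2]; omega
        · rw [nu_Blo hS' (by omega), hu, hv]
        · right
          clear hS hS'
          unfold F3
          rcases hadj with ⟨e1, e2 | e2 | e2⟩ | ⟨e1, e2 | e2⟩
          · omega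
          · right; right; omega
          · right; right; omega
          · right; left; omega
          · right; left; omega
        · rw [rho_odd_pos hS, rho_odd_pos hS']
    · refine ⟨_, _, _, nu_Aup hS, ?_, ?_, nu_Alo hj1 hS, ?_, ?_⟩
      · unfold WR at h ⊢; omega
      · rw [Ln_even hj1 hj2]; exact hS
      · unfold F3; omega
      · rw [rho_odd_neg hS, rho_even_neg hj1 hS]
  · rw [Ln_even hj1 hj2] at hL
    refine ⟨_, _, _, nu_Alo hj1 hL, ?_, ?_, nu_Aup hL, ?_, ?_⟩
    · unfold WR at h ⊢; omega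
    · rw [Ln_odd hj1 hj2]
      intro h'
      apply hL
      unfold Sg
      omega
    · unfold F3; omega
    · rw [rho_odd_neg hL, rho_even_neg hj1 hL]

/-- the line is closed -/
theorem Ln_face (hw : WOk w m t1 t2) {t u v t' u' v' : ℕ} (hf : F3 t u v t' u' v')
    (hR : WR m t1 t2 t u v) (hL : Ln w t1 t2 t' u' v') (h' : WR m t1 t2 t' u' v') :
    Ln w t1 t2 t u v := by
  rcases WR_cases h' with rfl | ⟨j, hj1, hj2, rfl | rfl⟩
  · rw [Ln_start] at hL
    unfold F3 at hf
    omega
  · rw [Ln_odd hj1 hj2] at hL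
    unfold F3 at hf
    have h3 : (t = 2 * j ∨ t = 2 * j + 2) ∧ u = 2 * (w j).1 ∧ v = 2 * (w j).2 := by omega
    obtain ⟨rfl | rfl, hu, hv⟩ := h3
    · rcases Nat.lt_or_ge t1 j with hj | hj
      · obtain ⟨i, rfl⟩ : ∃ i, j = i + 1 := ⟨j - 1, by omega⟩
        rw [show 2 * (i + 1) = 2 * i + 2 by ring, Ln_even (by omega) (by omega)]
        unfold Sg
        omega
      · have : j = t1 := by omega
        subst this
        rw [Ln_start]
        rw [hw.st] at hu hv
        simp only at hu hv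
        omega
    · rw [Ln_even hj1 hj2]
      unfold Sg
      omega
  · rw [Ln_even hj1 hj2] at hL
    have hadj := hw.adj j hj1 hj2
    unfold F3 at hf
    have ht : t = 2 * j + 2 := by omega
    subst ht
    rw [Ln_even hj1 hj2]
    unfold Sg at hL ⊢
    omega

/-- acyclicity -/
theorem slice_ac (hw : WOk w m t1 t2) {t u v t' u' v' t'' u'' v'' : ℕ}
    (h : WR m t1 t2 t u v) (hL : ¬ Ln w t1 t2 t u v) (h' : WR m t1 t2 t' u' v')
    (hL' : ¬ Ln w t1 t2 t' u' v') (hν : nuS w t1 t u v = (t'', u'', v''))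
    (hlo : F3 t u v t'' u'' v'') (hF : F3 t u v t' u' v')
    (hne : (t', u', v') ≠ (t'', u'', v'')) : rhoS w m t1 t u v < rhoS w m t1 t' u' v' := by
  rcases WR_cases h with rfl | ⟨j, hj1, hj2, rfl | rfl⟩
  · rw [Ln_start] at hL
    unfold WR at h h'
    have hr : rhoS w m t1 (2 * t1) u v ≤ 12 * m + 7 := by
      rw [rho_start]
      split_ifs <;> omega
    by_cases ht : t' = 2 * t1
    · subst ht
      rw [nu_start] at hν
      rw [rho_start, rho_start]
      have hF' : (u' % 2 = 1 ∧ (u + 1 = u' ∨ u = u' + 1) ∧ v = v') ∨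
          (u = u' ∧ v' % 2 = 1 ∧ (v + 1 = v' ∨ v = v' + 1)) := by
        unfold F3 at hF; omega
      by_cases hu : u = 2
      · rw [if_pos hu] at hν ⊢
        simp only [Prod.mk.injEq] at hν
        by_cases hu' : u' = 2
        · exfalso
          apply hne
          simp only [Prod.mk.injEq]
          omega
        · rw [if_neg hu']
          omega
      · rw [if_neg hu] at hν ⊢
        by_cases hu2 : u % 2 = 1
        · rw [if_pos hu2] at hν
          simp only [Prod.mk.injEq] at hν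
          unfold F3 at hlo
          omega
        · rw [if_neg hu2] at hν
          simp only [Prod.mk.injEq] at hν
          have hne' : ¬ (u' = u - 1 ∧ v' = v) := by
            intro h
            apply hne
            simp only [Prod.mk.injEq]
            omega
          rw [if_neg (by omega)]
          omega
    · have ht' : t' = 2 * t1 + 1 := by
        unfold F3 at hF; omega
      subst ht'
      by_cases hS : Sg w t1 u' v'
      · rw [rho_odd_pos hS]; omega
      · rw [rho_odd_neg hS]; omega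
  · -- odd times
    have hadj := hw.adj j hj1 hj2
    by_cases hS : Sg w j u v
    · rw [Ln_odd hj1 hj2] at hL
      by_cases he : u % 2 = 0 ∧ v % 2 = 0
      · rw [nu_Blo hS he] at hν
        simp only [Prod.mk.injEq] at hν
        have ht' : t' = 2 * j + 1 := by
          unfold F3 at hF; omega
        subst ht'
        rw [rho_odd_pos hS]
        by_cases hS' : Sg w j u' v'
        · exfalso
          apply hne
          simp only [Prod.mk.injEq]
          have hp : ¬ (u' % 2 = 0 ∧ v' % 2 = 0) := by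
            unfold F3 at hF; omega
          have : u' = (w j).1 + (w (j + 1)).1 ∧ v' = (w j).2 + (w (j + 1)).2 := by
            unfold Sg at hS'
            rcases hadj with ⟨e1, e2 | e2 | e2⟩ | ⟨e1, e2 | e2⟩ <;> omega
          omega
        · rw [rho_odd_neg hS']; omega
      · rw [nu_Bup hS he] at hν
        simp only [Prod.mk.injEq] at hν
        unfold F3 at hlo
        omega
    · rw [nu_Aup hS] at hν
      simp only [Prod.mk.injEq] at hν
      unfold F3 at hlo
      omega
  · rw [Ln_even hj1 hj2] at hL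
    rw [nu_Alo hj1 hL] at hν
    simp only [Prod.mk.injEq] at hν
    rw [rho_even_neg hj1 hL]
    unfold WR at h h'
    by_cases ht : t' = 2 * j + 2
    · subst ht
      rw [Ln_even hj1 hj2] at hL'
      rw [rho_even_neg hj1 hL']
      unfold F3 at hF
      omega
    · by_cases ht2 : t' = 2 * j + 1
      · exfalso
        apply hne
        simp only [Prod.mk.injEq]
        unfold F3 at hF
        omega
      · have ht3 : t' = 2 * (j + 1) + 1 := by
          unfold F3 at hF; omega
        subst ht3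
        by_cases hS' : Sg w (j + 1) u' v'
        · rw [rho_odd_pos hS']; omega
        · rw [rho_odd_neg hS']; omega

end

end C11

end Pool.Agent.FM
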