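import Pool.Agent.FM.Defs3
import Pool.Agent.FM.B04

/-!
# Block C12: stretching a configuration
-/

namespace Pool.Agent.FM

/-- the doubled coordinate of the image under `sig k` -/
def dmap (k d : ℕ) : ℕ := if d ≤ 2 * k + 1 then d else if d ≤ 2 * k + 3 then 2 * k + 1 else d - 2

theorem dbl_sig {n : ℕ} [NeZero n] {k : ℕ} (hk : k < n) (a : C1 (n + 1)) :
    dbl (sig k a) = dmap k (dbl a) := by
  obtain ⟨a1, a2⟩ := a
  have h1 : a1.val < n + 1 := ZMod.val_lt a1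
  have h2 : a2.toNat ≤ 1 := by cases a2 <;> simp
  unfold dbl sig dmap
  simp only
  by_cases h3 : a1.val ≤ k
  · rw [if_pos h3]
    simp only
    rw [ZMod.val_natCast_of_lt (by omega), if_pos (by omega)]
  · rw [if_neg h3]
    by_cases h4 : a1.val = k + 1
    · rw [if_pos h4, if_neg (by omega), if_pos (by omega)]
      simp only
      rw [ZMod.val_natCast_of_lt hk]
      simp
    · rw [if_neg h4, if_neg (by omega), if_neg (by omega)]
      simp only
      rw [ZMod.val_natCast_of_lt (by omega)]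
      omega

theorem gv_bound {m : ℕ} {p : ℕ × ℕ} (h : IsGV m p) : p.1 ≤ 2 * m + 1 ∧ p.2 ≤ 2 := by
  rcases h with ⟨h1, h2⟩ | ⟨i, hi, h1, h2⟩
  · omega
  · omega

theorem onW_bound {m : ℕ} {w : ℕ → ℕ × ℕ} (hw : ∀ t, IsGV m (w t)) {t u v : ℕ}
    (h : onW w t u v) : u ≤ 4 * m + 2 ∧ v ≤ 4 := by
  have h1 := gv_bound (hw (t / 2))
  have h2 := gv_bound (hw (t / 2 - 1))
  unfold onW at h
  split_ifs at h with hc
  · omega
  · obtain ⟨-, h3, -, h4⟩ := h
    have h5 : max (w (t / 2 - 1)).1 (w (t / 2)).1 ≤ 2 * m + 1 := max_le h2.1 h1.1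
    have h6 : max (w (t / 2 - 1)).2 (w (t / 2)).2 ≤ 2 := max_le h2.2 h1.2
    omega

theorem Gam_bound {m : ℕ} {J : Finset ℕ} {u v : ℕ} (h : Gam m J u v) :
    u ≤ 4 * m + 2 ∧ v ≤ 4 := by
  rcases h with ⟨h1, h2⟩ | ⟨i, -, hi, h1, h2, h3, h4, -⟩
  · omega
  · omega

theorem InK_bound {c : Cfg} (hc : c.Ok) {t x y u v : ℕ} (h : InK false c t x y u v) :
    u ≤ 4 * c.m + 4 ∧ v ≤ 6 := by
  have hm := hc.hm
  rcases h with ⟨_, h2, h⟩ | ⟨_, h2, h⟩ | ⟨_, _, h⟩ | ⟨_, _, h3, h4, h5, _⟩ | ⟨_, h2, _, h⟩ |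
    ⟨_, _, _, h4, h⟩ | ⟨_, _, _, h4, _, h6, _, h8, _⟩ | ⟨_, _, h3, _, _, h⟩ |
    ⟨_, _, h3, _, h5, _, h7, _⟩
  · rcases h with ⟨-, h⟩ | h <;> · have := Gam_bound h; omega
  · have := Gam_bound h; omega
  · have := Gam_bound h; omega
  · omega
  · rcases h with ⟨h3, h4⟩ | ⟨h3, h4, h5, h6, _⟩ <;> omega
  · rcases h with h | ⟨h5, h6⟩
    · have := onW_bound hc.gv h; omega
    · omega
  · omega
  · have := onW_bound hc.fv h; omega
  · omega

/-- the condition `InK` only depends on the relative position of the coordinates -/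
theorem InK_congr {c c' : Cfg} (hc : c.Ok) (hc' : c'.Ok) (hm : c'.m = c.m) (hJ1 : c'.J1 = c.J1)
    (hJ2 : c'.J2 = c.J2) {t t' x x' y y' u u' v v' : ℕ} (h0 : t' = 0 ↔ t = 0)
    (h2 : t' = 2 ↔ t = 2) (h4 : t' = 4 ↔ t = 4) (h6 : 6 ≤ t' ↔ 6 ≤ t) (h8 : 8 ≤ t' ↔ 8 ≤ t)
    (hT : t' ≤ 2 * c'.T ↔ t ≤ 2 * c.T) (hT2 : t' + 2 ≤ 2 * c'.T ↔ t + 2 ≤ 2 * c.T)
    (hf : ∀ u v, 6 ≤ t → t ≤ 2 * c.T → (onW c'.f t' u v ↔ onW c.f t u v))
    (hg : ∀ u v, 6 ≤ t → t ≤ 2 * c.T → (onW c'.g t' u v ↔ onW c.g t u v))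
    (hx : x' = x ∨ (4 < x ∧ 4 < x')) (hy : y' = y ∨ (2 < y ∧ 2 < y'))
    (hu : u' = u ∨ (4 * c.m + 4 < u ∧ 4 * c.m + 4 < u')) (hv : v' = v ∨ (6 < v ∧ 6 < v')) :
    InK false c' t' x' y' u' v' ↔ InK false c t x y u v := by
  rcases hu with rfl | ⟨hu1, hu2⟩
  swap
  · constructor
    · intro h; have := (InK_bound hc' h).1; omega
    · intro h; have := (InK_bound hc h).1; omega
  rcases hv with rfl | ⟨hv1, hv2⟩
  swap
  · constructor
    · intro h; have := (InK_bound hc' h).2; omega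
    · intro h; have := (InK_bound hc h).2; omega
  have hx2 : x' = 2 ↔ x = 2 := by omega
  have hx0 : x' = 0 ↔ x = 0 := by omega
  have hx4 : x' = 4 ↔ x = 4 := by omega
  have hx2l : x' ≤ 2 ↔ x ≤ 2 := by omega
  have hx2g : 2 ≤ x' ↔ 2 ≤ x := by omega
  have hx4l : x' ≤ 4 ↔ x ≤ 4 := by omega
  have hy0 : y' = 0 ↔ y = 0 := by omega
  have hy2 : y' = 2 ↔ y = 2 := by omega
  have hy2l : y' ≤ 2 ↔ y ≤ 2 := by omega
  unfold InK
  rw [hm, hJ1, hJ2, hx2, hx0, hx4, hx2l, hx2g, hx4l, hy0, hy2, hy2l, h0, h2, h4, h6, h8, hT, hT2]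
  have e6 : (8 ≤ t ∧ t + 2 ≤ 2 * c.T ∧ x = 2 ∧ y ≤ 2 ∧ (onW c'.g t' u' v' ∨ u' = 2 ∧ v' = 2)) ↔
      (8 ≤ t ∧ t + 2 ≤ 2 * c.T ∧ x = 2 ∧ y ≤ 2 ∧ (onW c.g t u' v' ∨ u' = 2 ∧ v' = 2)) :=
    and_congr_right fun h1 => and_congr_right fun h3 => and_congr_right fun _ =>
      and_congr_right fun _ => or_congr (hg _ _ (by omega) (by omega)) Iff.rfl
  have e8 : (6 ≤ t ∧ t ≤ 2 * c.T ∧ y = 0 ∧ 2 ≤ x ∧ x ≤ 4 ∧ onW c'.f t' u' v') ↔
      (6 ≤ t ∧ t ≤ 2 * c.T ∧ y = 0 ∧ 2 ≤ x ∧ x ≤ 4 ∧ onW c.f t u' v') :=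
    and_congr_right fun h1 => and_congr_right fun h3 => and_congr_right fun _ =>
      and_congr_right fun _ => and_congr_right fun _ => hf _ _ h1 h3
  rw [e6, e8]
  simp

theorem dmap_last {n d : ℕ} (h : d < 2 * n + 2) (hn : 1 ≤ n) :
    d = dmap (n - 1) d ∨ (2 * n - 1 ≤ d ∧ 2 * n - 1 ≤ dmap (n - 1) d) := by
  unfold dmap
  split_ifs <;> omega

theorem dbl_lt {n : ℕ} [NeZero n] (a : C1 n) : dbl a < 2 * n := by
  have h1 : a.1.val < n := ZMod.val_lt a.1
  have h2 : a.2.toNat ≤ 1 := by cases a.2 <;> simp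
  unfold dbl
  omega

theorem KO_congr {n n' A : ℕ} {a : Cell n} {a' : Cell n'}
    (h3 : dbl (a' 3) = dbl (a 3) ∨ (2 * A ≤ dbl (a 3) ∧ 2 * A ≤ dbl (a' 3)))
    (h4 : dbl (a' 4) = dbl (a 4) ∨ (6 ≤ dbl (a 4) ∧ 6 ≤ dbl (a' 4))) :
    a' ∈ KO n' A ↔ a ∈ KO n A := by
  unfold KO
  simp only [Set.mem_ofPred_eq]
  constructor <;> intro h h' <;> apply h <;> omega

theorem stretch_n {c : Cfg} (hc : c.Ok) {n : ℕ} [NeZero n] (h1 : c.T + 3 ≤ n)
    (h2 : 2 * c.m + 5 ≤ n) : stretchCx (fun _ => n - 1) (c.K false n) = c.K false (n + 1) := by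
  ext a
  have hn : 1 ≤ n := by omega
  have hT := hc.hT
  have hd : ∀ i, dbl (sig (n - 1) (a i)) = dmap (n - 1) (dbl (a i)) := fun i =>
    dbl_sig (by omega) (a i)
  have hl : ∀ i, dbl (a i) = dbl (sig (n - 1) (a i)) ∨
      (2 * n - 1 ≤ dbl (a i) ∧ 2 * n - 1 ≤ dbl (sig (n - 1) (a i))) := fun i => by
    rw [hd]
    exact dmap_last (by have := dbl_lt (a i); omega) hn
  unfold stretchCx Cfg.K
  simp only [Set.mem_ofPred_eq, Set.mem_union]
  have l0 := hl 0
  have l1 := hl 1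
  have l2 := hl 2
  have l3 := hl 3
  have l4 := hl 4
  refine or_congr (KO_congr (by omega) (by omega)) ?_
  by_cases hc0 : dbl (a 0) = dbl (sig (n - 1) (a 0))
  · refine InK_congr hc hc rfl rfl rfl (by omega) (by omega) (by omega) (by omega) (by omega)
      (by omega) (by omega) ?_ ?_ (by omega) (by omega) (by omega) (by omega)
    · intro u v _ _; rw [hc0]
    · intro u v _ _; rw [hc0]
  · have hc1 := l0.resolve_left hc0
    refine InK_congr hc hc rfl rfl rfl (by omega) (by omega) (by omega) (by omega) (by omega)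
      (by omega) (by omega) ?_ ?_ (by omega) (by omega) (by omega) (by omega)
    · intro u v _ h; omega
    · intro u v _ h; omega

theorem Cfg.Ok.str {c : Cfg} (hc : c.Ok) (t0 : ℕ) (h4 : 4 ≤ t0) (hT : t0 + 2 ≤ c.T) :
    (c.str t0).Ok := by
  have key : ∀ w : ℕ → ℕ × ℕ, (∀ t, GAdj c.m (w t) (w (t + 1))) → ∀ t,
      GAdj c.m (w (if t ≤ t0 then t else t - 1)) (w (if t + 1 ≤ t0 then t + 1 else t + 1 - 1)) := by
    intro w hw t
    by_cases ha : t + 1 ≤ t0
    · rw [if_pos (by omega), if_pos ha]; exact hw t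
    · rw [if_neg ha]
      by_cases hb : t ≤ t0
      · rw [if_pos hb]; exact Or.inl rfl
      · rw [if_neg hb]
        have := hw (t - 1)
        rw [show t - 1 + 1 = t by omega] at this
        exact this
  constructor
  · exact hc.hm
  · have := hc.hT
    change 7 ≤ c.T + 1
    omega
  · exact fun t => hc.fv _
  · exact key c.f hc.fa
  · intro t ht
    change c.f (if t ≤ t0 then t else t - 1) = _
    rw [if_pos (by omega)]; exact hc.f0 t ht
  · intro t ht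
    change c.f (if t ≤ t0 then t else t - 1) = _
    have ht' : c.T + 1 ≤ t := ht
    rw [if_neg (by omega)]; exact hc.fT _ (by omega)
  · intro t ht ht'
    have ht' : t < c.T + 1 := ht'
    change 1 ≤ (c.f (if t ≤ t0 then t else t - 1)).1
    split_ifs with h
    · exact hc.fp t ht (by omega)
    · exact hc.fp _ (by omega) (by omega)
  · exact fun t => hc.gv _
  · exact key c.g hc.ga
  · intro t ht
    change c.g (if t ≤ t0 then t else t - 1) = _
    rw [if_pos (by omega)]; exact hc.g0 t ht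
  · intro t ht
    have ht' : c.T + 1 ≤ t + 1 := ht
    change c.g (if t ≤ t0 then t else t - 1) = _
    rw [if_neg (by omega)]; exact hc.gT _ (by omega)
  · exact fun t => hc.gp _

theorem onW_str (w : ℕ → ℕ × ℕ) {t0 t : ℕ} (h4 : 4 ≤ t0) (u v : ℕ) :
    onW (fun s => w (if s ≤ t0 then s else s - 1)) t u v ↔ onW w (dmap t0 t) u v := by
  unfold dmap
  split_ifs with ha hb
  · -- t ≤ 2 t0 + 1
    unfold onW
    simp only
    rw [if_pos (show t / 2 ≤ t0 by omega), if_pos (show t / 2 - 1 ≤ t0 by omega)]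
  · -- t = 2 t0 + 2 or 2 t0 + 3
    unfold onW
    simp only
    rw [if_pos (show (2 * t0 + 1) % 2 = 1 by omega), show (2 * t0 + 1) / 2 = t0 by omega]
    by_cases hc : t % 2 = 1
    · rw [if_pos hc, if_neg (show ¬ t / 2 ≤ t0 by omega), show t / 2 - 1 = t0 by omega]
    · rw [if_neg hc, if_neg (show ¬ t / 2 ≤ t0 by omega), if_pos (show t / 2 - 1 ≤ t0 by omega),
        show t / 2 - 1 = t0 by omega, min_self, max_self, min_self, max_self]
      omega
  · unfold onW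
    simp only
    have e1 : (t - 2) % 2 = t % 2 := by omega
    have e2 : (t - 2) / 2 = t / 2 - 1 := by omega
    rw [e1, e2, if_neg (show ¬ t / 2 ≤ t0 by omega)]
    by_cases hc : t % 2 = 1
    · rw [if_pos hc, if_pos hc]
    · rw [if_neg hc, if_neg hc, if_neg (show ¬ t / 2 - 1 ≤ t0 by omega)]

theorem stretch_t {c : Cfg} (hc : c.Ok) {n : ℕ} [NeZero n] (h1 : c.T + 3 ≤ n)
    (h2 : 2 * c.m + 5 ≤ n) (t0 : ℕ) (h4 : 4 ≤ t0) (hT : t0 + 2 ≤ c.T) :
    stretchCx (Function.update (fun _ => n - 1) 0 t0) (c.K false n) = (c.str t0).K false (n + 1) := by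
  ext a
  have hn : 1 ≤ n := by omega
  have hT' := hc.hT
  have hk : ∀ i : Fin 5, i ≠ 0 → Function.update (fun _ => n - 1) 0 t0 i = n - 1 := fun i hi => by
    rw [Function.update_of_ne hi]
  have hk0 : Function.update (fun _ : Fin 5 => n - 1) 0 t0 0 = t0 := by
    rw [Function.update_self]
  have hl : ∀ i : Fin 5, i ≠ 0 → dbl (a i) =
        dbl (sig (Function.update (fun _ => n - 1) 0 t0 i) (a i)) ∨
      (2 * n - 1 ≤ dbl (a i) ∧
        2 * n - 1 ≤ dbl (sig (Function.update (fun _ => n - 1) 0 t0 i) (a i))) := fun i hi => by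
    rw [hk i hi, dbl_sig (show n - 1 < n by omega)]
    exact dmap_last (by have := dbl_lt (a i); omega) hn
  unfold stretchCx Cfg.K
  simp only [Set.mem_ofPred_eq, Set.mem_union]
  have l1 := hl 1 (by decide)
  have l2 := hl 2 (by decide)
  have l3 := hl 3 (by decide)
  have l4 := hl 4 (by decide)
  have l0 : dbl (sig (Function.update (fun _ : Fin 5 => n - 1) 0 t0 0) (a 0)) =
      dmap t0 (dbl (a 0)) := by
    rw [hk0, dbl_sig (by omega)]
  have hm : (c.str t0).m = c.m := rfl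
  have hTT : (c.str t0).T = c.T + 1 := rfl
  refine (or_congr (KO_congr (by omega) (by omega)) ?_)
  symm
  have hdm : dmap t0 (dbl (a 0)) = dbl (a 0) ∧ dbl (a 0) ≤ 2 * t0 + 1 ∨
      dmap t0 (dbl (a 0)) = 2 * t0 + 1 ∧ 2 * t0 + 2 ≤ dbl (a 0) ∧ dbl (a 0) ≤ 2 * t0 + 3 ∨
      dmap t0 (dbl (a 0)) = dbl (a 0) - 2 ∧ 2 * t0 + 4 ≤ dbl (a 0) := by
    unfold dmap
    split_ifs <;> omega
  rw [l0]
  refine InK_congr hc (hc.str t0 h4 hT) rfl rfl rfl (by omega) (by omega) (by omega) (by omega)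
    (by omega) (by omega) (by omega) ?_ ?_ (by omega) (by omega) (by omega) (by omega)
  · intro u v _ _
    exact onW_str c.f h4 u v
  · intro u v _ _
    exact onW_str c.g h4 u v

/-- independence of the size of the torus; uses `stretch` (B04) and `stretch_n` -/
theorem CE.refl {c : Cfg} (hc : c.Ok) : CE c c := by
  have key : ∀ (n : ℕ) [NeZero n], c.T + 3 ≤ n → 2 * c.m + 5 ≤ n → ∀ k,
      HEq' (c.K false n) (c.K false (n + k)) := by
    intro n _ h1 h2 k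
    induction k with
    | zero => exact HEq'.refl _
    | succ k ih =>
      have : NeZero (n + k) := ⟨by omega⟩
      refine ih.trans ?_
      have h3 := stretch (n := n + k) (fun _ => n + k - 1) (fun _ => by omega) (c.K false (n + k))
      rw [stretch_n hc (by omega) (by omega)] at h3
      exact h3
  intro n n' _ _ h1 h2 h3 h4
  rcases le_total n n' with h | h
  · have := key n h1 h2 (n' - n)
    rw [show n + (n' - n) = n' by omega] at this
    exact this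
  · have := key n' h3 h4 (n - n')
    rw [show n' + (n - n') = n by omega] at this
    exact this.symm

theorem CE.symm {c c' : Cfg} (h : CE c c') : CE c' c := by
  intro n n' _ _ h1 h2 h3 h4
  exact (h n' n h3 h4 h1 h2).symm

theorem CE.trans {c c' c'' : Cfg} (h : CE c c') (h' : CE c' c'') : CE c c'' := by
  intro n n' _ _ h1 h2 h3 h4
  exact (h n (c'.T + 2 * c'.m + 4 + 1) h1 h2 (by omega) (by omega)).trans
    (h' (c'.T + 2 * c'.m + 4 + 1) n' (by omega) (by omega) h3 h4)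

/-- from `stretch`, `stretch_t` and `CE.refl` -/
theorem CE.str {c : Cfg} (hc : c.Ok) (t0 : ℕ) (h4 : 4 ≤ t0) (hT : t0 + 2 ≤ c.T) :
    CE c (c.str t0) := by
  intro n n' _ _ h1 h2 h3 h5
  have h6 := stretch (n := n) (Function.update (fun _ => n - 1) 0 t0) (fun i => by
    by_cases hi : i = 0
    · subst hi; rw [Function.update_self]; omega
    · rw [Function.update_of_ne hi]; omega) (c.K false n)
  rw [stretch_t hc h1 h2 t0 h4 hT] at h6
  refine h6.trans ?_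
  have hm : (c.str t0).m = c.m := rfl
  have hTT : (c.str t0).T = c.T + 1 := rfl
  exact CE.refl (hc.str t0 h4 hT) (n + 1) n' (by omega) (by omega) h3 h5

end Pool.Agent.FM
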