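import Pool.Agent.FM.Defs3

/-!
# Block C13, first part: walks of lists of slots
-/

namespace Pool.Agent.FM

namespace Sl

theorem gadj_symm {m : ℕ} {p q : ℕ × ℕ} (h : GAdj m p q) : GAdj m q p := by
  rcases h with h | h | h
  · exact Or.inl h.symm
  · exact Or.inr (Or.inr h)
  · exact Or.inr (Or.inl h)

theorem gadj_refl {m : ℕ} (p : ℕ × ℕ) : GAdj m p p := Or.inl rfl

/-- horizontal neighbours -/
theorem gadj_hor {m u : ℕ} (h : u + 1 ≤ 2 * m + 1) : GAdj m (u, 1) (u + 1, 1) :=
  Or.inr (Or.inl (Or.inl ⟨rfl, rfl, rfl, h⟩))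

theorem lw_adj {m i : ℕ} (hi : i < m) (j : ℕ) : GAdj m (lw i j) (lw i (j + 1)) := by
  unfold lw
  rcases lt_or_ge j (2 * i) with h | h
  · rw [if_pos (by omega), if_pos (by omega)]
    have := gadj_hor (m := m) (u := 2 + j) (by omega)
    simpa [add_assoc] using this
  rcases eq_or_lt_of_le h with h | h
  · subst h
    rw [if_pos le_rfl, if_neg (by omega), if_pos rfl]
    refine Or.inr (Or.inl (Or.inr (Or.inl ⟨i, hi, Or.inl ?_, ?_, rfl, rfl⟩))) <;> simp <;> omega
  rcases eq_or_lt_of_le (Nat.succ_le_of_lt h) with h | h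
  · have hj : j = 2 * i + 1 := h.symm
    subst hj
    rw [if_neg (by omega), if_pos rfl, if_neg (by omega), if_neg (by omega), if_pos rfl]
    exact Or.inr (Or.inl (Or.inr (Or.inr ⟨i, hi, rfl, rfl⟩)))
  rcases eq_or_lt_of_le (Nat.succ_le_of_lt h) with h | h
  · have hj : j = 2 * i + 2 := h.symm
    subst hj
    rw [if_neg (by omega), if_neg (by omega), if_pos rfl, if_neg (by omega), if_neg (by omega),
      if_neg (by omega)]
    refine Or.inr (Or.inr (Or.inr (Or.inl ⟨i, hi, Or.inr ?_, ?_, rfl, rfl⟩))) <;> simp <;> omega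
  · have hj : 2 * i + 3 ≤ j := h
    rw [if_neg (by omega), if_neg (by omega), if_neg (by omega), if_neg (by omega),
      if_neg (by omega), if_neg (by omega)]
    rcases Nat.lt_or_ge (4 * i + 6 - j) 3 with h3 | h3
    · rw [max_eq_left (by omega), max_eq_left (by omega)]
      exact gadj_refl _
    · apply gadj_symm
      have := gadj_hor (m := m) (u := 4 * i + 6 - (j + 1)) (by omega)
      rw [max_eq_right (by omega), max_eq_right (by omega)]
      convert this using 2
      omega

theorem lw_gv {m i : ℕ} (hi : i < m) (j : ℕ) : IsGV m (lw i j) := by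
  unfold lw IsGV
  split_ifs with h1 h2 h3
  · left; simp; omega
  · right; exact ⟨i, hi, by simp, rfl⟩
  · right; exact ⟨i, hi, by simp, rfl⟩
  · left; simp; omega

theorem lw_pos (i j : ℕ) : 1 ≤ (lw i j).1 := by
  unfold lw
  split_ifs with h1 h2 h3 <;> simp <;> omega

theorem lw_zero (i : ℕ) : lw i 0 = (2, 1) := by
  unfold lw; rw [if_pos (by omega)]

theorem lw_end {i j : ℕ} (h : 4 * i + 4 ≤ j) : lw i j = (2, 1) := by
  unfold lw
  rw [if_neg (by omega), if_neg (by omega), if_neg (by omega), max_eq_left (by omega)]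

theorem sp_zero {m : ℕ} {s : Slot} (hs : s.Good m) : slotPos m s 0 = (2, 1) := by
  cases s with
  | wait => rfl
  | touch => simp [slotPos]
  | lett i b =>
    cases b
    · exact lw_zero i
    · have hi : i < m := hs
      show lw i (4 * m - 0) = (2, 1)
      exact lw_end (by omega)

theorem sp_end {m : ℕ} {s : Slot} (hs : s.Good m) {j : ℕ} (hj : 4 * m ≤ j) :
    slotPos m s j = (2, 1) := by
  cases s with
  | wait => rfl
  | touch => simp [slotPos, hj]
  | lett i b =>
    have hi : i < m := hs
    cases b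
    · exact lw_end (by omega)
    · show lw i (4 * m - j) = (2, 1)
      rw [Nat.sub_eq_zero_of_le hj]
      exact lw_zero i

theorem gadj_touch {m : ℕ} (hm : 1 ≤ m) : GAdj m (1, 1) (2, 1) := gadj_hor (by omega)

theorem sp_adj {m : ℕ} (hm : 1 ≤ m) {s : Slot} (hs : s.Good m) (j : ℕ) :
    GAdj m (slotPos m s j) (slotPos m s (j + 1)) := by
  cases s with
  | wait => exact gadj_refl _
  | touch =>
    simp only [slotPos]
    split_ifs
    · exact gadj_refl _
    · exact gadj_symm (gadj_touch hm)
    · exact gadj_touch hm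
    · exact gadj_refl _
  | lett i b =>
    have hi : i < m := hs
    cases b
    · exact lw_adj hi j
    · show GAdj m (lw i (4 * m - j)) (lw i (4 * m - (j + 1)))
      rcases Nat.lt_or_ge j (4 * m) with h | h
      · have e : 4 * m - j = (4 * m - (j + 1)) + 1 := by omega
        rw [e]
        exact gadj_symm (lw_adj hi _)
      · rw [Nat.sub_eq_zero_of_le h, Nat.sub_eq_zero_of_le (by omega)]
        exact gadj_refl _

theorem sp_gv {m : ℕ} (hm : 1 ≤ m) {s : Slot} (hs : s.Good m) (j : ℕ) :
    IsGV m (slotPos m s j) := by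
  cases s with
  | wait => left; simp [slotPos]; omega
  | touch =>
    left
    simp only [slotPos]
    split_ifs <;> simp <;> omega
  | lett i b =>
    have hi : i < m := hs
    cases b
    · exact lw_gv hi _
    · exact lw_gv hi _

theorem sp_pos {m : ℕ} (s : Slot) (j : ℕ) : 1 ≤ (slotPos m s j).1 := by
  cases s with
  | wait => simp [slotPos]
  | touch => simp only [slotPos]; split_ifs <;> simp
  | lett i b =>
    cases b
    · exact lw_pos _ _
    · exact lw_pos _ _

/-- the walk of a list of slots, starting at time `0` -/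
def W (m : ℕ) (S : List Slot) (j : ℕ) : ℕ × ℕ :=
  slotPos m (S.getD (j / (4 * m)) Slot.wait) (j % (4 * m))

theorem good_getD {m : ℕ} {S : List Slot} (hS : ∀ s ∈ S, s.Good m) (q : ℕ) :
    (S.getD q Slot.wait).Good m := by
  rcases Nat.lt_or_ge q S.length with h | h
  · rw [List.getD_eq_getElem _ _ h]
    exact hS _ (List.getElem_mem h)
  · rw [List.getD_eq_default _ _ h]
    trivial

theorem W_gv {m : ℕ} (hm : 1 ≤ m) {S : List Slot} (hS : ∀ s ∈ S, s.Good m) (j : ℕ) :
    IsGV m (W m S j) := sp_gv hm (good_getD hS _) _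

theorem W_pos {m : ℕ} (S : List Slot) (j : ℕ) : 1 ≤ (W m S j).1 := sp_pos _ _

/-- the walk inside the slot `q`, ends included -/
theorem W_slot {m : ℕ} (hm : 1 ≤ m) {S : List Slot} (hS : ∀ s ∈ S, s.Good m) (q r : ℕ)
    (hr : r ≤ 4 * m) : W m S (4 * m * q + r) = slotPos m (S.getD q Slot.wait) r := by
  unfold W
  rcases Nat.lt_or_ge r (4 * m) with h | h
  · rw [Nat.mul_add_div (by omega), Nat.div_eq_of_lt h, Nat.mul_add_mod, Nat.mod_eq_of_lt h,
      Nat.add_zero]
  · have hr' : r = 4 * m := le_antisymm hr h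
    subst hr'
    rw [Nat.mul_add_div (by omega), Nat.div_self (by omega), Nat.mul_add_mod, Nat.mod_self,
      sp_zero (good_getD hS _), sp_end (good_getD hS _) le_rfl]

theorem W_zero {m : ℕ} (hm : 1 ≤ m) {S : List Slot} (hS : ∀ s ∈ S, s.Good m) :
    W m S 0 = (2, 1) := by
  have := W_slot hm hS 0 0 (by omega)
  rw [sp_zero (good_getD hS 0)] at this
  simpa only [mul_zero, add_zero] using this

theorem W_mul {m : ℕ} (hm : 1 ≤ m) {S : List Slot} (hS : ∀ s ∈ S, s.Good m) (q : ℕ) :
    W m S (4 * m * q) = (2, 1) := by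
  have := W_slot hm hS q 0 (by omega)
  rwa [sp_zero (good_getD hS q), Nat.add_zero] at this

theorem W_ge {m : ℕ} {S : List Slot} {j : ℕ} (hj : 4 * m * S.length ≤ j) (hm : 1 ≤ m) :
    W m S j = (2, 1) := by
  unfold W
  rw [List.getD_eq_default]
  · rfl
  · rw [Nat.le_div_iff_mul_le (by omega), mul_comm]
    exact hj

theorem W_adj {m : ℕ} (hm : 1 ≤ m) {S : List Slot} (hS : ∀ s ∈ S, s.Good m) (j : ℕ) :
    GAdj m (W m S j) (W m S (j + 1)) := by
  have hr : j % (4 * m) < 4 * m := Nat.mod_lt _ (by omega)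
  have e : j = 4 * m * (j / (4 * m)) + j % (4 * m) := (Nat.div_add_mod j (4 * m)).symm
  have h1 := W_slot hm hS (j / (4 * m)) (j % (4 * m)) hr.le
  have h2 := W_slot hm hS (j / (4 * m)) (j % (4 * m) + 1) hr
  rw [← e] at h1
  rw [← add_assoc, ← e] at h2
  rw [h1, h2]
  exact sp_adj hm (good_getD hS _) _

/-- a walk of two consecutive lists of slots -/
theorem W_append_lt {m : ℕ} (hm : 1 ≤ m) (A B : List Slot) {j : ℕ} (hj : j < 4 * m * A.length) :
    W m (A ++ B) j = W m A j := by
  unfold W
  rw [List.getD_append]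
  rw [Nat.div_lt_iff_lt_mul (by omega), mul_comm]
  exact hj

theorem W_append_ge {m : ℕ} (hm : 1 ≤ m) (A B : List Slot) (j : ℕ) :
    W m (A ++ B) (4 * m * A.length + j) = W m B j := by
  unfold W
  rw [Nat.mul_add_div (by omega), Nat.mul_add_mod,
    List.getD_append_right _ _ _ _ (Nat.le_add_right _ _), Nat.add_sub_cancel_left]

theorem W_append_le {m : ℕ} (hm : 1 ≤ m) {A B : List Slot} (hB : ∀ s ∈ B, s.Good m)
    {j : ℕ} (hj : j ≤ 4 * m * A.length) : W m (A ++ B) j = W m A j := by
  rcases hj.lt_or_eq with h | h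
  · exact W_append_lt hm A B h
  · have h1 := W_append_ge hm A B 0
    rw [add_zero, W_zero hm hB] at h1
    rw [h, h1, W_ge le_rfl hm]

theorem wk_eq (m : ℕ) (base : ℕ × ℕ) (S : List Slot) (t : ℕ) :
    wk m base S t = if t ≤ 3 then base
      else if t = 4 then (1, 1)
      else if t ≤ 5 + 4 * m * S.length then W m S (t - 5)
      else if t = 6 + 4 * m * S.length then (1, 1)
      else base := rfl

theorem wk_mid {m : ℕ} {base : ℕ × ℕ} {S : List Slot} {j : ℕ} (h : j ≤ 4 * m * S.length) :
    wk m base S (5 + j) = W m S j := by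
  rw [wk_eq, if_neg (by omega), if_neg (by omega), if_pos (by omega), Nat.add_sub_cancel_left]

/-- inside a block -/
theorem wk_block {m : ℕ} (hm : 1 ≤ m) {base : ℕ × ℕ} {A M B : List Slot}
    (hB : ∀ s ∈ B, s.Good m) {j : ℕ} (hj : j ≤ 4 * m * M.length) :
    wk m base (A ++ M ++ B) (5 + 4 * m * A.length + j) = W m M j := by
  have e : 4 * m * (A ++ M ++ B).length
      = 4 * m * A.length + 4 * m * M.length + 4 * m * B.length := by
    simp only [List.length_append]; ring
  rw [add_assoc, wk_mid (by omega), List.append_assoc, W_append_ge hm, W_append_le hm hB hj]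

/-- outside a block -/
theorem wk_out {m : ℕ} (hm : 1 ≤ m) {base : ℕ × ℕ} {A M M' B : List Slot}
    (hMM : M.length = M'.length) {t : ℕ}
    (ht : t < 5 + 4 * m * A.length ∨ 5 + 4 * m * A.length + 4 * m * M.length < t) :
    wk m base (A ++ M ++ B) t = wk m base (A ++ M' ++ B) t := by
  have e : (A ++ M ++ B).length = (A ++ M' ++ B).length := by
    simp only [List.length_append, hMM]
  have e2 : 4 * m * (A ++ M ++ B).length
      = 4 * m * A.length + 4 * m * M.length + 4 * m * B.length := by
    simp only [List.length_append]; ring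
  rw [wk_eq, wk_eq, ← e]
  split_ifs with h1 h2 h3 h4
  · rfl
  · rfl
  · rcases ht with ht | ht
    · rw [List.append_assoc, List.append_assoc, W_append_lt hm _ _ (by omega),
        W_append_lt hm _ _ (by omega)]
    · obtain ⟨k, hk⟩ : ∃ k, t - 5 = 4 * m * (A ++ M).length + k := by
        refine ⟨t - 5 - 4 * m * (A ++ M).length, ?_⟩
        have : 4 * m * (A ++ M).length = 4 * m * A.length + 4 * m * M.length := by
          simp only [List.length_append]; ring
        omega
      have e3 : (A ++ M).length = (A ++ M').length := by simp only [List.length_append, hMM]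
      rw [hk, W_append_ge hm, e3, W_append_ge hm]
  · rfl
  · rfl

theorem wk_gv {m : ℕ} (hm : 1 ≤ m) {base : ℕ × ℕ} (hb : base.1 ≤ 1 ∧ base.2 = 1) {S : List Slot}
    (hS : ∀ s ∈ S, s.Good m) (t : ℕ) : IsGV m (wk m base S t) := by
  rw [wk_eq]
  split_ifs
  · left; omega
  · left; simp
  · exact W_gv hm hS _
  · left; simp
  · left; omega

theorem wk_adj {m : ℕ} (hm : 1 ≤ m) {base : ℕ × ℕ} (hb : GAdj m base (1, 1)) {S : List Slot}
    (hS : ∀ s ∈ S, s.Good m) (t : ℕ) : GAdj m (wk m base S t) (wk m base S (t + 1)) := by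
  rw [wk_eq, wk_eq]
  rcases Nat.lt_or_ge t 3 with h | h
  · rw [if_pos (by omega), if_pos (by omega)]; exact gadj_refl _
  rcases eq_or_lt_of_le h with h | h
  · subst h
    rw [if_pos (by omega), if_neg (by omega), if_pos (by omega)]; exact hb
  rcases eq_or_lt_of_le (Nat.succ_le_of_lt h) with h | h
  · have ht : t = 4 := h.symm
    subst ht
    rw [if_neg (by omega), if_pos rfl, if_neg (by omega), if_neg (by omega), if_pos (by omega)]
    rw [W_zero hm hS]
    exact gadj_touch hm
  · have ht : 5 ≤ t := h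
    obtain ⟨k, rfl⟩ := Nat.exists_eq_add_of_le ht
    rcases Nat.lt_or_ge k (4 * m * S.length) with h5 | h5
    · rw [if_neg (by omega), if_neg (by omega), if_pos (by omega), if_neg (by omega),
        if_neg (by omega), if_pos (by omega)]
      have := W_adj hm hS k
      rwa [show 5 + k - 5 = k by omega, show 5 + k + 1 - 5 = k + 1 by omega]
    rcases eq_or_lt_of_le h5 with h5 | h5
    · rw [if_neg (by omega), if_neg (by omega), if_pos (by omega), if_neg (by omega),
        if_neg (by omega), if_neg (by omega), if_pos (by omega)]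
      rw [W_ge (by omega) hm]
      exact gadj_symm (gadj_touch hm)
    rcases eq_or_lt_of_le (Nat.succ_le_of_lt h5) with h6 | h6
    · rw [if_neg (by omega), if_neg (by omega), if_neg (by omega), if_pos (by omega),
        if_neg (by omega), if_neg (by omega), if_neg (by omega), if_neg (by omega)]
      exact gadj_symm hb
    · rw [if_neg (by omega), if_neg (by omega), if_neg (by omega), if_neg (by omega),
        if_neg (by omega), if_neg (by omega), if_neg (by omega), if_neg (by omega)]
      exact gadj_refl _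

theorem wk_pos {m : ℕ} {base : ℕ × ℕ} (S : List Slot) {t : ℕ} (h3 : 3 < t)
    (hT : t < 7 + 4 * m * S.length) : 1 ≤ (wk m base S t).1 := by
  rw [wk_eq, if_neg (by omega)]
  split_ifs
  · simp
  · exact W_pos _ _
  · simp
  · omega

end Sl

open Sl in
theorem slotCfg_ok {m : ℕ} (hm : 1 ≤ m) (J1 J2 : Finset ℕ) {F G : List Slot}
    (hFG : F.length = G.length) (hF : ∀ s ∈ F, s.Good m) (hG : ∀ s ∈ G, s.Good m) :
    (slotCfg m J1 J2 F G).Ok where
  hm := hm
  hT := by show 7 ≤ 7 + 4 * m * F.length; omega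
  fv := fun t => wk_gv hm (by simp) hF t
  fa := fun t => wk_adj hm (gadj_hor (by omega)) hF t
  f0 := fun t ht => by
    show wk m (0, 1) F t = (0, 1)
    rw [wk_eq, if_pos ht]
  fT := fun t ht => by
    show wk m (0, 1) F t = (0, 1)
    have ht' : 7 + 4 * m * F.length ≤ t := ht
    rw [wk_eq, if_neg (by omega), if_neg (by omega), if_neg (by omega), if_neg (by omega)]
  fp := fun t h3 hT => wk_pos F h3 hT
  gv := fun t => wk_gv hm (by simp) hG t
  ga := fun t => wk_adj hm (gadj_refl _) hG t
  g0 := fun t ht => by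
    show wk m (1, 1) G t = (1, 1)
    rw [wk_eq]
    split_ifs <;> first | rfl | omega
  gT := fun t ht => by
    show wk m (1, 1) G t = (1, 1)
    have ht' : 7 + 4 * m * F.length ≤ t + 1 := ht
    rw [hFG] at ht'
    rw [wk_eq, if_neg (by omega), if_neg (by omega), if_neg (by omega)]
    split_ifs <;> rfl
  gp := fun t => by
    show 1 ≤ (wk m (1, 1) G t).1
    rw [wk_eq]
    split_ifs
    · simp
    · simp
    · exact W_pos _ _
    · simp
    · simp

end Pool.Agent.FM
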