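import Pool.Agent.FM.C10
import Pool.Agent.FM.C11
import Pool.Agent.FM.C12
import Pool.Agent.FM.C13a

/-!
# Block C13: moves of slots
-/

namespace Pool.Agent.FM

namespace Sl

theorem cfg_ext {c c' : Cfg} (hm : c.m = c'.m) (hT : c.T = c'.T) (h1 : c.J1 = c'.J1)
    (h2 : c.J2 = c'.J2) (hf : ∀ t, c.f t = c'.f t) (hg : ∀ t, c.g t = c'.g t) : c = c' := by
  cases c; cases c'
  simp only at hm hT h1 h2 hf hg
  subst hm hT h1 h2
  obtain rfl := funext hf
  obtain rfl := funext hg
  rfl

theorem CE_of_same {c c' : Cfg} (hc : c.Ok) (hm : c'.m = c.m) (hT : c'.T = c.T)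
    (H : ∀ (n : ℕ) [NeZero n], c.T + 3 ≤ n → 2 * c.m + 5 ≤ n →
      HEq' (c.K false n) (c'.K false n)) : CE c c' := by
  intro n n' _ _ h1 h2 h3 h4
  rw [hT] at h3
  rw [hm] at h4
  exact (CE.refl hc n n' h1 h2 h3 h4).trans (H n' h3 h4)

/-- the walk of `c'` before the time `k`, then the walk of `c` -/
def inter (c c' : Cfg) (k : ℕ) : Cfg :=
  { c with f := fun t => if t < k then c'.f t else c.f t }

theorem inter_ok {c c' : Cfg} (hc : c.Ok) (hc' : c'.Ok) (hm : c'.m = c.m) (hT : c'.T = c.T)
    (hadj : ∀ t, GAdj c.m (c.f t) (c'.f t))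
    (h : ∀ t, c.f t ≠ c'.f t → (c'.f (t - 1) = c.f t ∨ c'.f (t - 1) = c'.f t)) (k : ℕ) :
    (inter c c' k).Ok where
  hm := hc.hm
  hT := hc.hT
  fv := fun t => by
    show IsGV c.m (if t < k then c'.f t else c.f t)
    split_ifs
    · rw [← hm]; exact hc'.fv t
    · exact hc.fv t
  fa := fun t => by
    show GAdj c.m (if t < k then c'.f t else c.f t)
      (if t + 1 < k then c'.f (t + 1) else c.f (t + 1))
    split_ifs with h1 h2 h2
    · rw [← hm]; exact hc'.fa t
    · by_cases he : c.f (t + 1) = c'.f (t + 1)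
      · rw [he, ← hm]; exact hc'.fa t
      · rcases h (t + 1) he with h3 | h3
        · rw [Nat.add_sub_cancel] at h3; rw [h3]; exact gadj_refl _
        · rw [Nat.add_sub_cancel] at h3; rw [h3]; exact gadj_symm (hadj _)
    · omega
    · exact hc.fa t
  f0 := fun t ht => by
    show (if t < k then c'.f t else c.f t) = (0, 1)
    rw [hc.f0 t ht, hc'.f0 t ht, ite_self]
  fT := fun t ht => by
    show (if t < k then c'.f t else c.f t) = (0, 1)
    have ht' : c.T ≤ t := ht
    rw [hc.fT t ht', hc'.fT t (by omega), ite_self]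
  fp := fun t h3 hT' => by
    show 1 ≤ (if t < k then c'.f t else c.f t).1
    have hT'' : t < c.T := hT'
    split_ifs
    · exact hc'.fp t h3 (by omega)
    · exact hc.fp t h3 hT''
  gv := hc.gv
  ga := hc.ga
  g0 := hc.g0
  gT := hc.gT
  gp := hc.gp

end Sl

open Sl

theorem CE.walk {c c' : Cfg} (hc : c.Ok) (hc' : c'.Ok) (hm : c'.m = c.m) (hT : c'.T = c.T)
    (hJ1 : c'.J1 = c.J1) (hJ2 : c'.J2 = c.J2) (hg : c'.g = c.g)
    (hadj : ∀ t, GAdj c.m (c.f t) (c'.f t))
    (h : ∀ t, c.f t ≠ c'.f t → (c'.f (t - 1) = c.f t ∨ c'.f (t - 1) = c'.f t) ∧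
      (c.f (t + 1) = c.f t ∨ c.f (t + 1) = c'.f t)) : CE c c' := by
  have hok := inter_ok hc hc' hm hT hadj (fun t ht => (h t ht).1)
  have key : ∀ k, CE c (inter c c' k) := by
    intro k
    induction k with
    | zero =>
      have e : inter c c' 0 = c := cfg_ext rfl rfl rfl rfl (fun t => by simp [inter])
        (fun t => rfl)
      rw [e]
      exact CE.refl hc
    | succ k ih =>
      refine ih.trans ?_
      by_cases he : c.f k = c'.f k
      · have e : inter c c' (k + 1) = inter c c' k := by
          refine cfg_ext rfl rfl rfl rfl (fun t => ?_) (fun t => rfl)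
          show (if t < k + 1 then c'.f t else c.f t) = (if t < k then c'.f t else c.f t)
          split_ifs with h1 h2 h2
          · rfl
          · have : t = k := by omega
            rw [this, he]
          · omega
          · rfl
        rw [e]
        exact CE.refl (hok k)
      · have h3 : 3 < k := by
          by_contra h3
          exact he (by rw [hc.f0 k (by omega), hc'.f0 k (by omega)])
        have h4 : k < c.T := by
          by_contra h4
          exact he (by rw [hc.fT k (by omega), hc'.fT k (by omega)])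
        have e1 : (inter c c' k).f k = c.f k := by
          show (if k < k then c'.f k else c.f k) = c.f k
          rw [if_neg (lt_irrefl k)]
        have e2 : (inter c c' (k + 1)).f k = c'.f k := by
          show (if k < k + 1 then c'.f k else c.f k) = c'.f k
          rw [if_pos (Nat.lt_succ_self k)]
        have e3 : (inter c c' k).f (k - 1) = c'.f (k - 1) := by
          show (if k - 1 < k then c'.f (k - 1) else c.f (k - 1)) = c'.f (k - 1)
          rw [if_pos (by omega)]
        have e4 : (inter c c' k).f (k + 1) = c.f (k + 1) := by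
          show (if k + 1 < k then c'.f (k + 1) else c.f (k + 1)) = c.f (k + 1)
          rw [if_neg (by omega)]
        refine CE_of_same (hok k) rfl rfl fun n _ h1 h2 => ?_
        refine move1 (hok k) (hok (k + 1)) rfl rfl rfl rfl rfl k h3 h4 ?_ ?_ ?_ ?_ h1 h2
        · intro t ht
          show (if t < k + 1 then c'.f t else c.f t) = (if t < k then c'.f t else c.f t)
          split_ifs <;> first | rfl | omega
        · rw [e1, e2, e3]; exact (h k he).1
        · rw [e1, e2, e4]; exact (h k he).2
        · rw [e1, e2]; exact hadj k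
  have e : inter c c' c.T = c' := by
    refine cfg_ext hm.symm hT.symm hJ1.symm hJ2.symm (fun t => ?_) (fun t => by rw [hg]; rfl)
    show (if t < c.T then c'.f t else c.f t) = c'.f t
    split_ifs with h1
    · rfl
    · rw [hc.fT t (by omega), hc'.fT t (by omega)]
  rw [← e]
  exact key c.T

namespace Sl

/-- the main walk replaced on the interval `[a, a + L]` -/
def blk (c : Cfg) (a L : ℕ) (h : ℕ → ℕ × ℕ) : Cfg :=
  { c with f := fun t => if a ≤ t ∧ t ≤ a + L then h (t - a) else c.f t }

theorem blk_f (c : Cfg) (a L : ℕ) (h : ℕ → ℕ × ℕ) (t : ℕ) :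
    (blk c a L h).f t = if a ≤ t ∧ t ≤ a + L then h (t - a) else c.f t := rfl

theorem blk_in (c : Cfg) {a L : ℕ} (h : ℕ → ℕ × ℕ) {j : ℕ} (hj : j ≤ L) :
    (blk c a L h).f (a + j) = h j := by
  rw [blk_f, if_pos (by omega), Nat.add_sub_cancel_left]

theorem blk_out (c : Cfg) {a L : ℕ} (h : ℕ → ℕ × ℕ) {t : ℕ} (ht : t < a ∨ a + L < t) :
    (blk c a L h).f t = c.f t := by
  rw [blk_f, if_neg (by omega)]

theorem blk_congr (c : Cfg) {a L : ℕ} {h h' : ℕ → ℕ × ℕ} (e : ∀ j, j ≤ L → h j = h' j) :
    blk c a L h = blk c a L h' := by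
  refine cfg_ext rfl rfl rfl rfl (fun t => ?_) (fun t => rfl)
  rw [blk_f, blk_f]
  split_ifs with h1
  · exact e _ (by omega)
  · rfl

/-- closed walks at `(2, 1)` of length `L` -/
structure IsBlk (m L : ℕ) (h : ℕ → ℕ × ℕ) : Prop where
  h0 : h 0 = (2, 1)
  hL : h L = (2, 1)
  hv : ∀ j, IsGV m (h j)
  ha : ∀ j, j < L → GAdj m (h j) (h (j + 1))
  hp : ∀ j, 1 ≤ (h j).1

/-- a place for a block -/
structure Plc (c : Cfg) (a L : ℕ) : Prop where
  ok : c.Ok
  h5 : 5 ≤ a
  hT : a + L + 2 ≤ c.T
  ha : c.f a = (2, 1)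
  hb : c.f (a + L) = (2, 1)

theorem blk_ok {c : Cfg} {a L : ℕ} (P : Plc c a L) {h : ℕ → ℕ × ℕ} (hh : IsBlk c.m L h) :
    (blk c a L h).Ok where
  hm := P.ok.hm
  hT := P.ok.hT
  fv := fun t => by
    rw [blk_f]
    split_ifs
    · exact hh.hv _
    · exact P.ok.fv _
  fa := fun t => by
    show GAdj c.m _ _
    rcases Nat.lt_or_ge t a with h1 | h1
    · rw [blk_out c h (Or.inl h1)]
      rcases eq_or_lt_of_le (Nat.succ_le_of_lt h1) with h2 | h2
      · have h2' : t + 1 = a + 0 := h2
        rw [h2', blk_in c h (Nat.zero_le _), hh.h0, ← P.ha]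
        have := P.ok.fa t
        rwa [show t + 1 = a from h2] at this
      · rw [blk_out c h (Or.inl h2)]
        exact P.ok.fa t
    · obtain ⟨j, rfl⟩ := Nat.exists_eq_add_of_le h1
      rcases Nat.lt_or_ge j L with h2 | h2
      · rw [blk_in c h h2.le, add_assoc, blk_in c h h2]
        exact hh.ha j h2
      · rcases eq_or_lt_of_le h2 with h3 | h3
        · subst h3
          rw [blk_in c h le_rfl, blk_out c h (Or.inr (by omega)), hh.hL, ← P.hb]
          exact P.ok.fa _
        · rw [blk_out c h (Or.inr (by omega)), blk_out c h (Or.inr (by omega))]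
          exact P.ok.fa _
  f0 := fun t ht => by
    have := P.h5
    rw [blk_out c h (Or.inl (by omega))]
    exact P.ok.f0 t ht
  fT := fun t ht => by
    have ht' : c.T ≤ t := ht
    have := P.hT
    rw [blk_out c h (Or.inr (by omega))]
    exact P.ok.fT t ht'
  fp := fun t h3 hT => by
    rw [blk_f]
    split_ifs
    · exact hh.hp _
    · exact P.ok.fp t h3 hT
  gv := P.ok.gv
  ga := P.ok.ga
  g0 := P.ok.g0
  gT := P.ok.gT
  gp := P.ok.gp

theorem blk_CE {c : Cfg} {a L : ℕ} (P : Plc c a L) {h h' : ℕ → ℕ × ℕ} (hh : IsBlk c.m L h)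
    (hh' : IsBlk c.m L h') (hadj : ∀ j, 0 < j → j < L → GAdj c.m (h j) (h' j))
    (hs : ∀ j, 0 < j → j < L → h j ≠ h' j → (h' (j - 1) = h j ∨ h' (j - 1) = h' j) ∧
      (h (j + 1) = h j ∨ h (j + 1) = h' j)) : CE (blk c a L h) (blk c a L h') := by
  have hj : ∀ t, (blk c a L h).f t ≠ (blk c a L h').f t → ∃ j, t = a + j ∧ 0 < j ∧ j < L := by
    intro t ht
    by_cases h1 : t < a ∨ a + L < t
    · exact absurd (by rw [blk_out c h h1, blk_out c h' h1]) ht
    · obtain ⟨j, rfl⟩ := Nat.exists_eq_add_of_le (show a ≤ t by omega)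
      have hjL : j ≤ L := by omega
      rw [blk_in c h hjL, blk_in c h' hjL] at ht
      refine ⟨j, rfl, Nat.pos_of_ne_zero ?_, lt_of_le_of_ne hjL ?_⟩
      · rintro rfl; exact ht (by rw [hh.h0, hh'.h0])
      · rintro rfl; exact ht (by rw [hh.hL, hh'.hL])
  refine CE.walk (blk_ok P hh) (blk_ok P hh') rfl rfl rfl rfl rfl ?_ ?_
  · intro t
    by_cases ht : (blk c a L h).f t = (blk c a L h').f t
    · rw [ht]; exact gadj_refl _
    · obtain ⟨j, rfl, h0, hL⟩ := hj t ht
      rw [blk_in c h hL.le, blk_in c h' hL.le]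
      exact hadj j h0 hL
  · intro t ht
    obtain ⟨j, rfl, h0, hL⟩ := hj t ht
    rw [blk_in c h hL.le, blk_in c h' hL.le] at ht ⊢
    rw [show a + j - 1 = a + (j - 1) by omega, blk_in c h' (by omega), add_assoc,
      blk_in c h (by omega)]
    exact hs j h0 hL ht

theorem W_isBlk {m : ℕ} (hm : 1 ≤ m) {S : List Slot} (hS : ∀ s ∈ S, s.Good m) :
    IsBlk m (4 * m * S.length) (W m S) where
  h0 := W_zero hm hS
  hL := W_ge le_rfl hm
  hv := W_gv hm hS
  ha := fun j _ => W_adj hm hS j
  hp := W_pos S

/-- configurations of slots as blocks -/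
theorem slotCfg_blk {m : ℕ} (hm : 1 ≤ m) (J1 J2 : Finset ℕ) {A B G M M0 : List Slot}
    (hB : ∀ s ∈ B, s.Good m) (hM : M.length = M0.length) :
    slotCfg m J1 J2 (A ++ M ++ B) G =
      blk (slotCfg m J1 J2 (A ++ M0 ++ B) G) (5 + 4 * m * A.length) (4 * m * M0.length)
        (W m M) := by
  refine cfg_ext rfl ?_ rfl rfl (fun t => ?_) (fun t => rfl)
  · show 7 + 4 * m * (A ++ M ++ B).length = 7 + 4 * m * (A ++ M0 ++ B).length
    simp only [List.length_append, hM]
  · rw [blk_f]
    show wk m (0, 1) (A ++ M ++ B) t = _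
    split_ifs with h1
    · obtain ⟨j, rfl⟩ := Nat.exists_eq_add_of_le h1.1
      rw [Nat.add_sub_cancel_left, wk_block hm hB]
      rw [hM]
      omega
    · exact wk_out hm hM (by rw [hM]; omega)

theorem plc_slot {m : ℕ} (hm : 1 ≤ m) (J1 J2 : Finset ℕ) {A B G M : List Slot}
    (hA : ∀ s ∈ A, s.Good m) (hB : ∀ s ∈ B, s.Good m) (hG : ∀ s ∈ G, s.Good m)
    (hM : ∀ s ∈ M, s.Good m) (hl : G.length = A.length + M.length + B.length) :
    Plc (slotCfg m J1 J2 (A ++ M ++ B) G) (5 + 4 * m * A.length) (4 * m * M.length) where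
  ok := by
    apply slotCfg_ok hm
    · simp only [List.length_append]; omega
    · intro s hs
      simp only [List.mem_append] at hs
      rcases hs with (hs | hs) | hs
      · exact hA s hs
      · exact hM s hs
      · exact hB s hs
    · exact hG
  h5 := by omega
  hT := by
    show _ ≤ 7 + 4 * m * (A ++ M ++ B).length
    have e2 : 4 * m * (A ++ M ++ B).length
        = 4 * m * A.length + 4 * m * M.length + 4 * m * B.length := by
      simp only [List.length_append]; ring
    omega
  ha := by
    show wk m (0, 1) (A ++ M ++ B) (5 + 4 * m * A.length) = (2, 1)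
    have := wk_block (base := (0, 1)) hm (A := A) (M := M) hB (j := 0) (Nat.zero_le _)
    rw [add_zero] at this
    rw [this, W_zero hm hM]
  hb := by
    show wk m (0, 1) (A ++ M ++ B) (5 + 4 * m * A.length + 4 * m * M.length) = (2, 1)
    rw [wk_block hm hB le_rfl, W_ge le_rfl hm]

/-- equivalences of blocks give equivalences of configurations of slots -/
theorem CE_block {m : ℕ} (hm : 1 ≤ m) (J1 J2 : Finset ℕ) {A B G M M' : List Slot}
    (hA : ∀ s ∈ A, s.Good m) (hB : ∀ s ∈ B, s.Good m) (hG : ∀ s ∈ G, s.Good m)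
    (hM : ∀ s ∈ M, s.Good m) (hMM : M.length = M'.length)
    (hl : G.length = A.length + M.length + B.length)
    (H : ∀ (c : Cfg) (a : ℕ), c.m = m → Plc c a (4 * m * M.length) →
      CE (blk c a (4 * m * M.length) (W m M)) (blk c a (4 * m * M.length) (W m M'))) :
    CE (slotCfg m J1 J2 (A ++ M ++ B) G) (slotCfg m J1 J2 (A ++ M' ++ B) G) := by
  have h1 := H _ _ rfl (plc_slot hm J1 J2 hA hB hG hM hl)
  rw [← slotCfg_blk hm J1 J2 hB rfl, ← slotCfg_blk hm J1 J2 hB hMM.symm] at h1
  exact h1

theorem sp_adj' {m : ℕ} (hm : 1 ≤ m) {s : Slot} (hs : s.Good m) {p q : ℕ}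
    (h : p = q ∨ p = q + 1 ∨ q = p + 1) : GAdj m (slotPos m s p) (slotPos m s q) := by
  rcases h with rfl | rfl | rfl
  · exact gadj_refl _
  · exact gadj_symm (sp_adj hm hs _)
  · exact sp_adj hm hs _

/-- the walk of two slots -/
theorem W_two {m : ℕ} (hm : 1 ≤ m) {s s' : Slot} (hs : s.Good m) (hs' : s'.Good m) {j : ℕ}
    (hj : j ≤ 4 * m * 2) :
    W m [s, s'] j = if j ≤ 4 * m then slotPos m s j else slotPos m s' (j - 4 * m) := by
  have hS : ∀ x ∈ [s, s'], x.Good m := by
    intro x hx
    simp only [List.mem_cons, List.not_mem_nil, or_false] at hx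
    rcases hx with rfl | rfl <;> assumption
  split_ifs with h
  · have := W_slot hm hS 0 j h
    rw [mul_zero, zero_add] at this
    exact this
  · have := W_slot hm hS 1 (j - 4 * m) (by omega)
    rw [mul_one, show 4 * m + (j - 4 * m) = j by omega] at this
    exact this

end Sl

theorem CE.swap {m : ℕ} (hm : 1 ≤ m) (J1 J2 : Finset ℕ) {A B G : List Slot} {s : Slot}
    (hA : ∀ s ∈ A, s.Good m) (hB : ∀ s ∈ B, s.Good m) (hs : s.Good m) (hG : ∀ s ∈ G, s.Good m)
    (hl : G.length = A.length + 2 + B.length) :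
    CE (slotCfg m J1 J2 (A ++ [Slot.wait, s] ++ B) G)
      (slotCfg m J1 J2 (A ++ [s, Slot.wait] ++ B) G) := by
  have hw : Slot.Good m Slot.wait := trivial
  apply CE_block hm J1 J2 hA hB hG
  · intro x hx
    simp only [List.mem_cons, List.not_mem_nil, or_false] at hx
    rcases hx with rfl | rfl
    · exact hw
    · exact hs
  · rfl
  · exact hl
  intro c a hcm P
  rw [show ([Slot.wait, s] : List Slot).length = 2 from rfl] at P ⊢
  subst hcm
  set m := c.m with hmdef
  have hb : ∀ k, k ≤ 4 * m → IsBlk c.m (4 * m * 2) (fun j => slotPos m s (j - k)) := by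
    intro k hk
    refine ⟨?_, ?_, fun j => sp_gv hm hs _, fun j _ => sp_adj' hm hs (by omega),
      fun j => sp_pos _ _⟩
    · show slotPos m s (0 - k) = (2, 1)
      rw [Nat.zero_sub]; exact sp_zero hs
    · exact sp_end hs (by omega)
  have key : ∀ k, k ≤ 4 * m → CE (blk c a (4 * m * 2) (fun j => slotPos m s (j - k)))
      (blk c a (4 * m * 2) (fun j => slotPos m s (j - 0))) := by
    intro k
    induction k with
    | zero => intro _; exact CE.refl (blk_ok P (hb 0 (by omega)))
    | succ k ih =>
      intro hk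
      refine CE.trans ?_ (ih (by omega))
      apply blk_CE P (hb _ hk) (hb _ (by omega))
      · intro j _ _
        exact sp_adj' hm hs (by omega)
      · intro j _ _ _
        refine ⟨Or.inl ?_, Or.inr ?_⟩
        · show slotPos m s (j - 1 - k) = slotPos m s (j - (k + 1))
          congr 1; omega
        · show slotPos m s (j + 1 - (k + 1)) = slotPos m s (j - k)
          congr 1; omega
  have e1 : blk c a (4 * m * 2) (W m [Slot.wait, s])
      = blk c a (4 * m * 2) (fun j => slotPos m s (j - 4 * m)) := by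
    apply blk_congr
    intro j hj
    rw [W_two hm hw hs hj]
    split_ifs with h
    · show ((2, 1) : ℕ × ℕ) = slotPos m s (j - 4 * m)
      rw [Nat.sub_eq_zero_of_le h, sp_zero hs]
    · rfl
  have e2 : blk c a (4 * m * 2) (W m [s, Slot.wait])
      = blk c a (4 * m * 2) (fun j => slotPos m s (j - 0)) := by
    apply blk_congr
    intro j hj
    rw [W_two hm hs hw hj]
    split_ifs with h
    · rfl
    · show ((2, 1) : ℕ × ℕ) = slotPos m s (j - 0)
      rw [sp_end hs (by omega)]
  rw [e1, e2]
  exact key _ le_rfl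

theorem CE.cancel {m : ℕ} (hm : 1 ≤ m) (J1 J2 : Finset ℕ) {A B G : List Slot} {i : ℕ} (b : Bool)
    (hi : i < m) (hA : ∀ s ∈ A, s.Good m) (hB : ∀ s ∈ B, s.Good m) (hG : ∀ s ∈ G, s.Good m)
    (hl : G.length = A.length + 2 + B.length) :
    CE (slotCfg m J1 J2 (A ++ [Slot.lett i b, Slot.lett i !b] ++ B) G)
      (slotCfg m J1 J2 (A ++ [Slot.wait, Slot.wait] ++ B) G) := by
  have hw : Slot.Good m Slot.wait := trivial
  have hs : Slot.Good m (Slot.lett i b) := hi
  have hs' : Slot.Good m (Slot.lett i !b) := hi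
  apply CE_block hm J1 J2 hA hB hG
  · intro x hx
    simp only [List.mem_cons, List.not_mem_nil, or_false] at hx
    rcases hx with rfl | rfl
    · exact hs
    · exact hs'
  · rfl
  · exact hl
  intro c a hcm P
  rw [show ([Slot.lett i b, Slot.lett i !b] : List Slot).length = 2 from rfl] at P ⊢
  subst hcm
  set m := c.m with hmdef
  set s := Slot.lett i b with hsdef
  have hrev : ∀ j, j ≤ 4 * m → slotPos m (Slot.lett i !b) j = slotPos m s (4 * m - j) := by
    intro j hj
    rw [hsdef]
    cases b
    · rfl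
    · show lw i j = lw i (4 * m - (4 * m - j))
      congr 1; omega
  have hb : ∀ k, IsBlk c.m (4 * m * 2) (fun j => slotPos m s (min (min j (4 * m * 2 - j)) k)) := by
    intro k
    refine ⟨?_, ?_, fun j => sp_gv hm hs _, fun j _ => sp_adj' hm hs (by omega),
      fun j => sp_pos _ _⟩
    · show slotPos m s (min (min 0 (4 * m * 2 - 0)) k) = (2, 1)
      rw [show min (min 0 (4 * m * 2 - 0)) k = 0 by omega]; exact sp_zero hs
    · show slotPos m s (min (min (4 * m * 2) (4 * m * 2 - 4 * m * 2)) k) = (2, 1)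
      rw [show min (min (4 * m * 2) (4 * m * 2 - 4 * m * 2)) k = 0 by omega]; exact sp_zero hs
  have key : ∀ k, CE
      (blk c a (4 * m * 2) (fun j => slotPos m s (min (min j (4 * m * 2 - j)) k)))
      (blk c a (4 * m * 2) (fun j => slotPos m s (min (min j (4 * m * 2 - j)) 0))) := by
    intro k
    induction k with
    | zero => exact CE.refl (blk_ok P (hb 0))
    | succ k ih =>
      refine CE.trans ?_ ih
      apply blk_CE P (hb _) (hb _)
      · intro j _ _
        exact sp_adj' hm hs (by omega)
      · intro j h0 hL hne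
        have hk : k + 1 ≤ min j (4 * m * 2 - j) := by
          by_contra hk
          apply hne
          show slotPos m s _ = slotPos m s _
          congr 1; omega
        refine ⟨Or.inr ?_, ?_⟩
        · show slotPos m s (min (min (j - 1) (4 * m * 2 - (j - 1))) k)
            = slotPos m s (min (min j (4 * m * 2 - j)) k)
          congr 1; omega
        · rcases Nat.lt_or_ge k (min (j + 1) (4 * m * 2 - (j + 1))) with h | h
          · left
            show slotPos m s (min (min (j + 1) (4 * m * 2 - (j + 1))) (k + 1))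
              = slotPos m s (min (min j (4 * m * 2 - j)) (k + 1))
            congr 1; omega
          · right
            show slotPos m s (min (min (j + 1) (4 * m * 2 - (j + 1))) (k + 1))
              = slotPos m s (min (min j (4 * m * 2 - j)) k)
            congr 1; omega
  have e1 : blk c a (4 * m * 2) (W m [s, Slot.lett i !b])
      = blk c a (4 * m * 2) (fun j => slotPos m s (min (min j (4 * m * 2 - j)) (4 * m))) := by
    apply blk_congr
    intro j hj
    rw [W_two hm hs hs' hj]
    split_ifs with h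
    · congr 1; omega
    · rw [hrev _ (by omega)]
      congr 1; omega
  have e2 : blk c a (4 * m * 2) (W m [Slot.wait, Slot.wait])
      = blk c a (4 * m * 2) (fun j => slotPos m s (min (min j (4 * m * 2 - j)) 0)) := by
    apply blk_congr
    intro j hj
    rw [W_two hm hw hw hj]
    rw [Nat.min_zero, sp_zero hs]
    split_ifs <;> rfl
  rw [e1, e2]
  exact key _

namespace Sl

/-- touching slots may be replaced by waiting slots -/
theorem CE_touch {c : Cfg} {a : ℕ} {M M' : List Slot} (hm : 1 ≤ c.m)
    (P : Plc c a (4 * c.m * M.length)) (hM : ∀ s ∈ M, s.Good c.m) (hM' : ∀ s ∈ M', s.Good c.m)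
    (hMM : M.length = M'.length)
    (h : ∀ q, M.getD q Slot.wait = M'.getD q Slot.wait ∨
      (M.getD q Slot.wait = Slot.touch ∧ M'.getD q Slot.wait = Slot.wait)) :
    CE (blk c a (4 * c.m * M.length) (W c.m M)) (blk c a (4 * c.m * M.length) (W c.m M')) := by
  have h2 : IsBlk c.m (4 * c.m * M.length) (W c.m M') := by
    have := W_isBlk hm hM'
    rwa [← hMM] at this
  have touch_or : ∀ r, slotPos c.m Slot.touch r = (2, 1) ∨ slotPos c.m Slot.touch r = (1, 1) := by
    intro r
    simp only [slotPos]
    split_ifs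
    · left; rfl
    · right; rfl
  have hne : ∀ j, W c.m M j ≠ W c.m M' j → M.getD (j / (4 * c.m)) Slot.wait = Slot.touch ∧
      M'.getD (j / (4 * c.m)) Slot.wait = Slot.wait ∧ 0 < j % (4 * c.m) ∧
      W c.m M j = (1, 1) ∧ W c.m M' j = (2, 1) := by
    intro j hj
    rcases h (j / (4 * c.m)) with h1 | ⟨h1, h1'⟩
    · exact absurd (by unfold W; rw [h1]) hj
    · have e1 : W c.m M' j = (2, 1) := by unfold W; rw [h1']; rfl
      have e2 : W c.m M j = slotPos c.m Slot.touch (j % (4 * c.m)) := by unfold W; rw [h1]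
      rw [e1] at hj
      refine ⟨h1, h1', Nat.pos_of_ne_zero ?_, ?_, e1⟩
      · intro h0
        apply hj
        rw [e2, h0]
        exact sp_zero (m := c.m) (s := Slot.touch) trivial
      · rcases touch_or (j % (4 * c.m)) with h2 | h2
        · rw [e2] at hj; exact absurd h2 hj
        · rw [e2, h2]
  apply blk_CE P (W_isBlk hm hM) h2
  · intro j _ _
    by_cases hj : W c.m M j = W c.m M' j
    · rw [hj]; exact gadj_refl _
    · obtain ⟨_, _, _, e1, e2⟩ := hne j hj
      rw [e1, e2]
      exact gadj_touch hm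
  · intro j _ _ hj
    obtain ⟨t1, t2, hr, e1, e2⟩ := hne j hj
    have hlt : j % (4 * c.m) < 4 * c.m := Nat.mod_lt _ (by omega)
    have ej : j = 4 * c.m * (j / (4 * c.m)) + j % (4 * c.m) := (Nat.div_add_mod j _).symm
    refine ⟨Or.inr ?_, ?_⟩
    · have := W_slot hm hM' (j / (4 * c.m)) (j % (4 * c.m) - 1) (by omega)
      rw [t2] at this
      rw [show j - 1 = 4 * c.m * (j / (4 * c.m)) + (j % (4 * c.m) - 1) by
        rw [← Nat.add_sub_assoc hr, ← ej], this, e2]
      rfl
    · have := W_slot hm hM (j / (4 * c.m)) (j % (4 * c.m) + 1) (by omega)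
      rw [t1] at this
      rw [show j + 1 = 4 * c.m * (j / (4 * c.m)) + (j % (4 * c.m) + 1) by
        rw [← add_assoc, ← ej], this, e1, e2]
      rcases touch_or (j % (4 * c.m) + 1) with h2 | h2
      · right; exact h2
      · left; exact h2

theorem W_waits {m k : ℕ} (j : ℕ) : W m (List.replicate k Slot.wait) j = (2, 1) := by
  unfold W
  have : (List.replicate k Slot.wait).getD (j / (4 * m)) Slot.wait = Slot.wait := by
    rw [List.getD_eq_getElem?_getD, List.getElem?_replicate]
    split_ifs <;> rfl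
  rw [this]
  rfl

end Sl

theorem CE.relator {m : ℕ} (hm : 1 ≤ m) (J1 J2 : Finset ℕ) {A B A' B' ρ : List Slot}
    (hA : ∀ s ∈ A, s.Good m) (hB : ∀ s ∈ B, s.Good m) (hA' : ∀ s ∈ A', s.Good m)
    (hB' : ∀ s ∈ B', s.Good m) (hρ : ∀ s ∈ ρ, s.Good m) (hAA : A.length = A'.length)
    (hBB : B.length = B'.length) :
    CE (slotCfg m J1 J2 (A ++ List.replicate (ρ.length + 2) Slot.wait ++ B)
        (A' ++ ([Slot.touch] ++ ρ ++ [Slot.touch]) ++ B'))
      (slotCfg m J1 J2 (A ++ ([Slot.wait] ++ ρ ++ [Slot.wait]) ++ B)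
        (A' ++ ([Slot.touch] ++ ρ ++ [Slot.touch]) ++ B')) := by
  set M0 := List.replicate (ρ.length + 2) Slot.wait with hM0
  set M2 := [Slot.touch] ++ ρ ++ [Slot.touch] with hM2
  set M3 := [Slot.wait] ++ ρ ++ [Slot.wait] with hM3
  have l0 : M0.length = ρ.length + 2 := by simp [hM0]
  have l2 : M2.length = ρ.length + 2 := by simp [hM2]
  have l3 : M3.length = ρ.length + 2 := by simp [hM3]
  have g0 : ∀ s ∈ M0, s.Good m := by
    intro s hs
    rw [List.eq_of_mem_replicate hs]
    trivial
  have g2 : ∀ s ∈ M2, s.Good m := by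
    intro s hs
    simp only [hM2, List.mem_append, List.mem_singleton] at hs
    rcases hs with (rfl | hs) | rfl
    · trivial
    · exact hρ s hs
    · trivial
  have g3 : ∀ s ∈ M3, s.Good m := by
    intro s hs
    simp only [hM3, List.mem_append, List.mem_singleton] at hs
    rcases hs with (rfl | hs) | rfl
    · trivial
    · exact hρ s hs
    · trivial
  have hG : ∀ s ∈ A' ++ M2 ++ B', s.Good m := by
    intro s hs
    simp only [List.mem_append] at hs
    rcases hs with (hs | hs) | hs
    · exact hA' s hs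
    · exact g2 s hs
    · exact hB' s hs
  have hl : (A' ++ M2 ++ B').length = A.length + M0.length + B.length := by
    simp only [List.length_append, l0, l2]; omega
  have P := plc_slot hm J1 J2 hA hB hG g0 hl
  have E3 := slotCfg_blk hm J1 J2 (A := A) (G := A' ++ M2 ++ B') hB
    (show M3.length = M0.length by omega)
  have E0 := slotCfg_blk hm J1 J2 (A := A) (G := A' ++ M2 ++ B') hB
    (show M0.length = M0.length from rfl)
  rw [E3]
  set c := slotCfg m J1 J2 (A ++ M0 ++ B) (A' ++ M2 ++ B') with hcdef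
  set a := 5 + 4 * m * A.length with hadef
  set L := 4 * m * M0.length with hLdef
  have hcm : c.m = m := rfl
  have hL8 : 8 ≤ L := by
    rw [hLdef, l0]
    nlinarith
  have e02 : M0.length = M2.length := by omega
  have b0 : IsBlk m L (W m M0) := W_isBlk hm g0
  have b2 : IsBlk m L (W m M2) := by
    have := W_isBlk hm g2
    rwa [← e02] at this
  -- the walk through `(1, 1)`
  set h1 : ℕ → ℕ × ℕ := fun j => if 0 < j ∧ j < L then (1, 1) else (2, 1) with hh1
  have b1 : IsBlk m L h1 := by
    refine ⟨?_, ?_, ?_, ?_, ?_⟩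
    · simp [hh1]
    · simp [hh1]
    · intro j
      simp only [hh1]
      split_ifs
      · left; simp
      · left; simp; omega
    · intro j _
      simp only [hh1]
      split_ifs
      · exact gadj_refl _
      · exact gadj_touch hm
      · exact gadj_symm (gadj_touch hm)
      · exact gadj_refl _
    · intro j
      simp only [hh1]
      split_ifs <;> simp
  have hin : ∀ j, 0 < j → j < L → h1 j = (1, 1) := by
    intro j h0 hL
    simp only [hh1]
    rw [if_pos ⟨h0, hL⟩]
  -- the relator walk on the block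
  have hgW : ∀ j, j ≤ L → c.g (a + j) = W m M2 j := by
    intro j hj
    show wk m (1, 1) (A' ++ M2 ++ B') (a + j) = W m M2 j
    rw [hadef, hAA]
    exact wk_block hm hB' (by rw [← e02]; exact hj)
  have hW1 : W m M2 1 = (1, 1) := by
    have := W_slot hm g2 0 1 (by omega)
    rw [mul_zero, zero_add] at this
    rw [this]
    have e : M2.getD 0 Slot.wait = Slot.touch := rfl
    rw [e]
    simp only [slotPos]
    rw [if_neg (by omega)]
  have hW2 : W m M2 (L - 1) = (1, 1) := by
    have := W_slot hm g2 (ρ.length + 1) (4 * m - 1) (by omega)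
    rw [show 4 * m * (ρ.length + 1) + (4 * m - 1) = L - 1 by
      rw [hLdef, l0, show 4 * m * (ρ.length + 2) = 4 * m * (ρ.length + 1) + 4 * m by ring]
      omega] at this
    rw [this]
    have e : M2.getD (ρ.length + 1) Slot.wait = Slot.touch := by
      rw [hM2, List.getD_append_right _ _ _ _ (by simp)]
      simp
    rw [e]
    simp only [slotPos]
    rw [if_neg (by omega)]
  have s1 : CE (blk c a L (W m M0)) (blk c a L h1) := by
    apply blk_CE P b0 b1
    · intro j h0 hL
      rw [W_waits, hin j h0 hL]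
      exact gadj_symm (gadj_touch hm)
    · intro j h0 hL _
      rw [W_waits, W_waits, hin j h0 hL]
      refine ⟨?_, Or.inl rfl⟩
      rcases Nat.lt_or_ge 1 j with h | h
      · right; exact hin _ (by omega) (by omega)
      · left
        have : j = 1 := by omega
        subst this
        simp [hh1]
  have s2 : CE (blk c a L h1) (blk c a L (W m M2)) := by
    refine CE_of_same (blk_ok P b1) rfl rfl fun n _ hn1 hn2 => ?_
    have hPT : a + L + 2 ≤ c.T := P.hT
    have hP5 : 5 ≤ a := P.h5
    refine move3 (blk_ok P b1) (blk_ok P b2) rfl rfl rfl rfl rfl (a + 1) (a + (L - 1))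
      (by omega) (by omega) ?_ ?_ ?_ ?_ ?_ ?_ hn1 hn2
    · show a + (L - 1) < c.T
      omega
    · show c.g (a + 1) = (1, 1)
      rw [hgW 1 (by omega), hW1]
    · show c.g (a + (L - 1)) = (1, 1)
      rw [hgW (L - 1) (by omega), hW2]
    · intro t ht
      by_cases h1' : t < a ∨ a + L < t
      · rw [blk_out c _ h1', blk_out c _ h1']
      · obtain ⟨j, rfl⟩ := Nat.exists_eq_add_of_le (show a ≤ t by omega)
        have hj : j = 0 ∨ j = L := by omega
        rw [blk_in c _ (by omega), blk_in c _ (by omega)]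
        rcases hj with rfl | rfl
        · rw [b2.h0, b1.h0]
        · rw [b2.hL, b1.hL]
    · intro t ht1 ht2
      obtain ⟨j, rfl⟩ := Nat.exists_eq_add_of_le (show a ≤ t by omega)
      rw [blk_in c _ (by omega)]
      exact hin j (by omega) (by omega)
    · intro t ht1 ht2
      obtain ⟨j, rfl⟩ := Nat.exists_eq_add_of_le (show a ≤ t by omega)
      rw [blk_in c _ (by omega)]
      show W m M2 j = c.g (a + j)
      rw [hgW j (by omega)]
  have s3 : CE (blk c a L (W m M2)) (blk c a L (W m M3)) := by
    have P' : Plc c a (4 * c.m * M2.length) := by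
      rw [← e02]; exact P
    have := CE_touch (c := c) hm P' g2 g3 (by omega) (fun q => ?_)
    · rw [← e02] at this
      exact this
    · rcases q with _ | q
      · right; exact ⟨rfl, rfl⟩
      · have e2 : M2.getD (q + 1) Slot.wait = (ρ ++ [Slot.touch]).getD q Slot.wait := by
          rw [hM2]; rfl
        have e3 : M3.getD (q + 1) Slot.wait = (ρ ++ [Slot.wait]).getD q Slot.wait := by
          rw [hM3]; rfl
        rw [e2, e3]
        rcases Nat.lt_or_ge q ρ.length with h | h
        · left
          rw [List.getD_append _ _ _ _ h, List.getD_append _ _ _ _ h]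
        · rw [List.getD_append_right _ _ _ _ h, List.getD_append_right _ _ _ _ h]
          rcases hq : q - ρ.length with _ | k
          · right; exact ⟨rfl, rfl⟩
          · left; rfl
  have h := (s1.trans s2).trans s3
  rw [← E0] at h
  exact h

namespace Sl

/-- duplication of the time `t0`, `k` times -/
def strk (c : Cfg) (t0 k : ℕ) : Cfg where
  m := c.m
  T := c.T + k
  J1 := c.J1
  J2 := c.J2
  f := fun t => c.f (if t ≤ t0 then t else max t0 (t - k))
  g := fun t => c.g (if t ≤ t0 then t else max t0 (t - k))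

theorem strk_zero (c : Cfg) (t0 : ℕ) : strk c t0 0 = c := by
  refine cfg_ext rfl rfl rfl rfl (fun t => ?_) (fun t => ?_)
  · show c.f _ = c.f t
    congr 1
    split_ifs <;> omega
  · show c.g _ = c.g t
    congr 1
    split_ifs <;> omega

theorem strk_succ (c : Cfg) (t0 k : ℕ) : (strk c t0 k).str t0 = strk c t0 (k + 1) := by
  refine cfg_ext rfl ?_ rfl rfl (fun t => ?_) (fun t => ?_)
  · show c.T + k + 1 = c.T + (k + 1)
    omega
  · show c.f _ = c.f _
    congr 1
    split_ifs <;> omega
  · show c.g _ = c.g _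
    congr 1
    split_ifs <;> omega

theorem strk_CE {c : Cfg} (hc : c.Ok) {t0 : ℕ} (h4 : 4 ≤ t0) (hT : t0 + 2 ≤ c.T) (k : ℕ) :
    (strk c t0 k).Ok ∧ CE c (strk c t0 k) := by
  induction k with
  | zero => rw [strk_zero]; exact ⟨hc, CE.refl hc⟩
  | succ k ih =>
    have hT' : t0 + 2 ≤ (strk c t0 k).T := by
      show t0 + 2 ≤ c.T + k
      omega
    rw [← strk_succ]
    exact ⟨ih.1.str t0 h4 hT', ih.2.trans (CE.str ih.1 t0 h4 hT')⟩

theorem wk_insert {m : ℕ} (hm : 1 ≤ m) (base : ℕ × ℕ) {A B : List Slot}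
    (hB : ∀ s ∈ B, s.Good m) (t : ℕ) :
    wk m base (A ++ B) (if t ≤ 5 + 4 * m * A.length then t
      else max (5 + 4 * m * A.length) (t - 4 * m)) = wk m base (A ++ [Slot.wait] ++ B) t := by
  have e1 : 4 * m * (A ++ B).length = 4 * m * A.length + 4 * m * B.length := by
    simp only [List.length_append]; ring
  have e2 : 4 * m * (A ++ [Slot.wait] ++ B).length
      = 4 * m * A.length + 4 * m + 4 * m * B.length := by
    simp only [List.length_append, List.length_singleton]; ring
  have hwB : ∀ s ∈ [Slot.wait] ++ B, s.Good m := by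
    intro s hs
    simp only [List.mem_append, List.mem_singleton] at hs
    rcases hs with rfl | hs
    · trivial
    · exact hB s hs
  rcases Nat.lt_or_ge t 5 with h5 | h5
  · rw [if_pos (by omega), wk_eq, wk_eq]
    split_ifs <;> first | rfl | omega
  obtain ⟨j, rfl⟩ := Nat.exists_eq_add_of_le h5
  rcases Nat.lt_or_ge (4 * m * A.length) j with h6 | h6
  · rw [if_neg (by omega)]
    obtain ⟨k, rfl⟩ := Nat.exists_eq_add_of_le h6.le
    rcases Nat.lt_or_ge (4 * m) k with h7 | h7
    · obtain ⟨l, rfl⟩ := Nat.exists_eq_add_of_le h7.le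
      have e3 : max (5 + 4 * m * A.length) (5 + (4 * m * A.length + (4 * m + l)) - 4 * m)
          = 5 + (4 * m * A.length + l) := by omega
      rw [e3]
      rcases Nat.lt_or_ge (4 * m * B.length) l with h8 | h8
      · rw [wk_eq, wk_eq]
        split_ifs <;> first | rfl | omega
      · rw [wk_mid (j := 4 * m * A.length + l) (by omega),
          wk_mid (j := 4 * m * A.length + (4 * m + l)) (by omega), W_append_ge hm]
        have e4 : 4 * m * A.length + (4 * m + l) = 4 * m * (A ++ [Slot.wait]).length + l := by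
          simp only [List.length_append, List.length_singleton]; ring
        rw [e4, W_append_ge hm]
    · have e3 : max (5 + 4 * m * A.length) (5 + (4 * m * A.length + k) - 4 * m)
          = 5 + 4 * m * A.length := by omega
      have h8 := wk_block (base := base) hm (A := A) (M := [Slot.wait]) hB (j := k)
        (by simpa using h7)
      rw [e3, ← add_assoc, h8, show W m [Slot.wait] k = (2, 1) from W_waits (k := 1) k,
        wk_mid (by omega)]
      have := W_append_ge hm A B 0
      rw [add_zero] at this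
      rw [this, W_zero hm hB]
  · rw [if_pos (by omega), wk_mid (by omega), wk_mid (by omega), W_append_le hm hB h6,
      List.append_assoc, W_append_le hm hwB h6]

end Sl

theorem CE.insert {m : ℕ} (hm : 1 ≤ m) (J1 J2 : Finset ℕ) {A B A' B' : List Slot}
    (hA : ∀ s ∈ A, s.Good m) (hB : ∀ s ∈ B, s.Good m) (hA' : ∀ s ∈ A', s.Good m)
    (hB' : ∀ s ∈ B', s.Good m) (hAA : A.length = A'.length) (hBB : B.length = B'.length) :
    CE (slotCfg m J1 J2 (A ++ B) (A' ++ B'))
      (slotCfg m J1 J2 (A ++ [Slot.wait] ++ B) (A' ++ [Slot.wait] ++ B')) := by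
  have hok : (slotCfg m J1 J2 (A ++ B) (A' ++ B')).Ok := by
    apply slotCfg_ok hm
    · simp only [List.length_append]; omega
    · intro s hs
      rcases List.mem_append.1 hs with hs | hs
      · exact hA s hs
      · exact hB s hs
    · intro s hs
      rcases List.mem_append.1 hs with hs | hs
      · exact hA' s hs
      · exact hB' s hs
  have e1 : 4 * m * (A ++ B).length = 4 * m * A.length + 4 * m * B.length := by
    simp only [List.length_append]; ring
  have e : strk (slotCfg m J1 J2 (A ++ B) (A' ++ B')) (5 + 4 * m * A.length) (4 * m)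
      = slotCfg m J1 J2 (A ++ [Slot.wait] ++ B) (A' ++ [Slot.wait] ++ B') := by
    refine cfg_ext rfl ?_ rfl rfl (fun t => ?_) (fun t => ?_)
    · show 7 + 4 * m * (A ++ B).length + 4 * m = 7 + 4 * m * (A ++ [Slot.wait] ++ B).length
      simp only [List.length_append, List.length_singleton]; ring
    · exact wk_insert hm (0, 1) hB t
    · show wk m (1, 1) (A' ++ B') _ = wk m (1, 1) (A' ++ [Slot.wait] ++ B') t
      rw [← wk_insert hm (1, 1) hB' t, hAA]
  rw [← e]
  refine (strk_CE hok (by omega) ?_ _).2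
  show 5 + 4 * m * A.length + 2 ≤ 7 + 4 * m * (A ++ B).length
  omega

end Pool.Agent.FM
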