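import Pool.Agent.FM.Defs3

/-!
# Block C14: combinatorics of slot words

Pure list combinatorics: the moves of pairs of lists of slots generate the word problem of the
presented group.
-/

namespace Pool.Agent.FM

namespace WM

/-- the number of waits and the other slots: filtering out the waits -/
def nw (F : List Slot) : List Slot := F.filter fun s => decide (s ≠ Slot.wait)

lemma nw_append (F G : List Slot) : nw (F ++ G) = nw F ++ nw G := by
  simp [nw]

lemma nw_wait (n : ℕ) : nw (List.replicate n Slot.wait) = [] := by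
  simp [nw]

lemma nw_slots {m : ℕ} (W : List (Fin m × Bool)) : nw (slots W) = slots W := by
  unfold nw slots
  rw [List.filter_eq_self]
  intro s hs
  simp only [List.mem_map] at hs
  obtain ⟨p, -, rfl⟩ := hs
  simp

lemma nw_length (F : List Slot) : (nw F).length ≤ F.length := List.length_filter_le _ _

lemma slots_append {m : ℕ} (W W' : List (Fin m × Bool)) :
    slots (W ++ W') = slots W ++ slots W' := by
  simp [slots]

lemma slots_length {m : ℕ} (W : List (Fin m × Bool)) : (slots W).length = W.length := by
  simp [slots]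

lemma slots_good {m : ℕ} (W : List (Fin m × Bool)) : ∀ s ∈ slots W, s.Good m := by
  intro s hs
  simp only [slots, List.mem_map] at hs
  obtain ⟨p, -, rfl⟩ := hs
  exact p.1.2

lemma wait_good (m n : ℕ) : ∀ s ∈ List.replicate n Slot.wait, s.Good m := by
  intro s hs
  rw [List.eq_of_mem_replicate hs]
  trivial

lemma app_good {m : ℕ} {A B : List Slot} (hA : ∀ s ∈ A, s.Good m) (hB : ∀ s ∈ B, s.Good m) :
    ∀ s ∈ A ++ B, s.Good m := by
  intro s hs
  rcases List.mem_append.1 hs with h | h
  · exact hA s h
  · exact hB s h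

lemma one_good {m : ℕ} {s : Slot} (hs : s.Good m) : ∀ t ∈ [s], t.Good m := by
  intro t ht
  rw [List.mem_singleton.1 ht]
  exact hs

lemma rel_good {m : ℕ} (rels : List (List (Fin m × Bool))) :
    ∀ s ∈ relSlots rels, s.Good m := by
  intro s hs
  simp only [relSlots, List.mem_cons, List.mem_flatMap, List.mem_append] at hs
  rcases hs with rfl | ⟨ρ, -, h⟩
  · trivial
  · rcases h with h | h
    · exact slots_good ρ s h
    · rcases h with rfl | h
      · trivial
      · simp at h

/-- a relator inside the relator walk -/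
lemma rel_split {m : ℕ} (rels : List (List (Fin m × Bool))) (ρ : List (Fin m × Bool))
    (h : ρ ∈ rels) : ∃ G1 G2 : List Slot,
      relSlots rels = G1 ++ ([Slot.touch] ++ slots ρ ++ [Slot.touch]) ++ G2 := by
  obtain ⟨R1, R2, rfl⟩ := List.append_of_mem h
  have key : ∀ R : List (List (Fin m × Bool)), ∃ G1 : List Slot,
      Slot.touch :: (R.flatMap fun ρ => slots ρ ++ [Slot.touch]) = G1 ++ [Slot.touch] := by
    intro R
    induction R using List.reverseRecOn with
    | nil => exact ⟨[], by simp⟩
    | append_singleton R r _ =>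
      refine ⟨Slot.touch :: (R.flatMap fun ρ => slots ρ ++ [Slot.touch]) ++ slots r, ?_⟩
      simp
  obtain ⟨G1, hG1⟩ := key R1
  refine ⟨G1, R2.flatMap fun ρ => slots ρ ++ [Slot.touch], ?_⟩
  have : relSlots (R1 ++ ρ :: R2) = (Slot.touch :: (R1.flatMap fun ρ => slots ρ ++ [Slot.touch])) ++
      (slots ρ ++ [Slot.touch]) ++ R2.flatMap fun ρ => slots ρ ++ [Slot.touch] := by
    simp [relSlots]
  rw [this, hG1]
  simp

/-- the hypotheses of the theorem, bundled -/
structure Moves (m : ℕ) (E : List Slot → List Slot → List Slot → List Slot → Prop) : Prop where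
  hrefl : ∀ F G : List Slot, F.length = G.length → (∀ s ∈ F, s.Good m) → (∀ s ∈ G, s.Good m) →
      E F G F G
  hsymm : ∀ F G F' G', E F G F' G' → E F' G' F G
  htrans : ∀ F G F' G' F'' G'', E F G F' G' → E F' G' F'' G'' → E F G F'' G''
  hswap : ∀ (A B G : List Slot) (s : Slot), (∀ s ∈ A, s.Good m) → (∀ s ∈ B, s.Good m) →
      s.Good m → (∀ s ∈ G, s.Good m) → G.length = A.length + 2 + B.length →
      E (A ++ [Slot.wait, s] ++ B) G (A ++ [s, Slot.wait] ++ B) G
  hcancel : ∀ (A B G : List Slot) (i : ℕ) (b : Bool), i < m → (∀ s ∈ A, s.Good m) →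
      (∀ s ∈ B, s.Good m) → (∀ s ∈ G, s.Good m) → G.length = A.length + 2 + B.length →
      E (A ++ [Slot.lett i b, Slot.lett i !b] ++ B) G (A ++ [Slot.wait, Slot.wait] ++ B) G
  hrel : ∀ (A B A' B' ρ : List Slot), (∀ s ∈ A, s.Good m) → (∀ s ∈ B, s.Good m) →
      (∀ s ∈ A', s.Good m) → (∀ s ∈ B', s.Good m) → (∀ s ∈ ρ, s.Good m) →
      A.length = A'.length → B.length = B'.length →
      E (A ++ List.replicate (ρ.length + 2) Slot.wait ++ B)
        (A' ++ ([Slot.touch] ++ ρ ++ [Slot.touch]) ++ B')
        (A ++ ([Slot.wait] ++ ρ ++ [Slot.wait]) ++ B)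
        (A' ++ ([Slot.touch] ++ ρ ++ [Slot.touch]) ++ B')
  hins : ∀ (A B A' B' : List Slot), (∀ s ∈ A, s.Good m) → (∀ s ∈ B, s.Good m) →
      (∀ s ∈ A', s.Good m) → (∀ s ∈ B', s.Good m) → A.length = A'.length → B.length = B'.length →
      E (A ++ B) (A' ++ B') (A ++ [Slot.wait] ++ B) (A' ++ [Slot.wait] ++ B')

variable {m : ℕ} {E : List Slot → List Slot → List Slot → List Slot → Prop}

/-- rewriting the first list -/
lemma Moves.cast {F G F' G' : List Slot} (h : E F G F' G') {F1 G1 F1' G1' : List Slot}
    (e1 : F1 = F) (e2 : G1 = G) (e3 : F1' = F') (e4 : G1' = G') : E F1 G1 F1' G1' := by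
  subst e1; subst e2; subst e3; subst e4
  exact h

/-- moving a slot through waits -/
lemma Moves.move_one (H : Moves m E) (G B : List Slot) (s : Slot) (hG : ∀ s ∈ G, s.Good m)
    (hB : ∀ s ∈ B, s.Good m) (hs : s.Good m) (k : ℕ) : ∀ A : List Slot, (∀ s ∈ A, s.Good m) →
    G.length = A.length + (1 + k) + B.length →
    E (A ++ [s] ++ List.replicate k Slot.wait ++ B) G
      (A ++ List.replicate k Slot.wait ++ [s] ++ B) G := by
  induction k with
  | zero =>
    intro A hA hl
    have : A ++ [s] ++ List.replicate 0 Slot.wait ++ B =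
      A ++ List.replicate 0 Slot.wait ++ [s] ++ B := by simp
    rw [this]
    refine H.hrefl _ _ ?_ ?_ hG
    · simp [hl]; omega
    · exact app_good (app_good (app_good hA (wait_good m 0)) (one_good hs)) hB
  | succ k ih =>
    intro A hA hl
    have h1 := H.hsymm _ _ _ _ (H.hswap A (List.replicate k Slot.wait ++ B) G s hA
      (app_good (wait_good m k) hB) hs hG (by simp [hl]; omega))
    have h2 := ih (A ++ [Slot.wait]) (app_good hA (one_good trivial)) (by simp [hl]; omega)
    have h3 : A ++ [Slot.wait, s] ++ (List.replicate k Slot.wait ++ B) =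
      A ++ [Slot.wait] ++ [s] ++ List.replicate k Slot.wait ++ B := by simp
    rw [h3] at h1
    refine Moves.cast (H.htrans _ _ _ _ _ _ h1 h2) ?_ rfl ?_ rfl
    · simp [List.replicate_succ]
    · simp [List.replicate_succ]

/-- collecting the waits -/
lemma Moves.normal (H : Moves m E) (G B : List Slot) (hG : ∀ s ∈ G, s.Good m)
    (hB : ∀ s ∈ B, s.Good m) (F : List Slot) : ∀ A : List Slot, (∀ s ∈ A, s.Good m) →
    (∀ s ∈ F, s.Good m) →
    G.length = A.length + F.length + B.length →
    E (A ++ F ++ B) G
      (A ++ (List.replicate (F.length - (nw F).length) Slot.wait ++ nw F) ++ B) G := by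
  induction F with
  | nil =>
    intro A hA _ hl
    refine Moves.cast (H.hrefl (A ++ B) G ?_ (app_good hA hB) hG) ?_ rfl ?_ rfl
    · simp at hl ⊢; omega
    · simp
    · simp [nw]
  | cons s F ih =>
    intro A hA hF hl
    have hs : s.Good m := hF s (by simp)
    have hF' : ∀ s ∈ F, s.Good m := fun t ht => hF t (by simp [ht])
    have h2 := ih (A ++ [s]) (app_good hA (one_good hs)) hF' (by simp [hl]; omega)
    have hle := nw_length F
    by_cases hw : s = Slot.wait
    · subst hw
      refine Moves.cast h2 ?_ rfl ?_ rfl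
      · simp
      · have e1 : nw (Slot.wait :: F) = nw F := by simp [nw]
        rw [e1]
        have e2 : (Slot.wait :: F).length - (nw F).length = (F.length - (nw F).length) + 1 := by
          simp; omega
        rw [e2, List.replicate_succ]
        simp
    · have e1 : nw (s :: F) = s :: nw F := by simp [nw, hw]
      have e2 : (s :: F).length - (nw (s :: F)).length = F.length - (nw F).length := by
        rw [e1]; simp
      have hnw : ∀ s ∈ nw F, s.Good m := fun t ht => hF' t (List.mem_of_mem_filter ht)
      have h3 := H.move_one G (nw F ++ B) s hG (app_good hnw hB) hs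
        (F.length - (nw F).length) A hA (by simp [hl]; omega)
      refine Moves.cast (H.htrans _ _ _ _ _ _ h2 (Moves.cast h3 ?_ rfl rfl rfl)) ?_ rfl ?_ rfl
      · simp
      · simp
      · rw [e2, e1]; simp

/-- two lists of slots with the same letters are equivalent -/
lemma Moves.same (H : Moves m E) (G F F' : List Slot) (hG : ∀ s ∈ G, s.Good m)
    (hF : ∀ s ∈ F, s.Good m) (hF' : ∀ s ∈ F', s.Good m) (hl : G.length = F.length)
    (hl' : G.length = F'.length) (h : nw F = nw F') : E F G F' G := by
  have h1 := H.normal G [] hG (by simp) F [] (by simp) hF (by simp [hl])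
  have h2 := H.normal G [] hG (by simp) F' [] (by simp) hF' (by simp [hl'])
  rw [← h, ← hl', hl] at h2
  simp only [List.nil_append, List.append_nil] at h1 h2
  exact H.htrans _ _ _ _ _ _ h1 (H.hsymm _ _ _ _ h2)

/-- insertion of several waits -/
lemma Moves.ins (H : Moves m E) (A B A' B' : List Slot) (hA : ∀ s ∈ A, s.Good m)
    (hB : ∀ s ∈ B, s.Good m) (hA' : ∀ s ∈ A', s.Good m) (hB' : ∀ s ∈ B', s.Good m)
    (hl : A.length = A'.length) (hl' : B.length = B'.length) (k : ℕ) :
    E (A ++ B) (A' ++ B') (A ++ List.replicate k Slot.wait ++ B)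
      (A' ++ List.replicate k Slot.wait ++ B') := by
  induction k with
  | zero =>
    refine Moves.cast (H.hrefl (A ++ B) (A' ++ B') ?_ (app_good hA hB) (app_good hA' hB'))
      rfl rfl ?_ ?_
    · simp [hl, hl']
    · simp
    · simp
  | succ k ih =>
    have h1 := H.hins A (List.replicate k Slot.wait ++ B) A' (List.replicate k Slot.wait ++ B') hA
      (app_good (wait_good m k) hB) hA' (app_good (wait_good m k) hB') hl (by simp [hl'])
    refine H.htrans _ _ _ _ _ _ ih (Moves.cast h1 ?_ ?_ ?_ ?_)
    · simp
    · simp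
    · simp [List.replicate_succ]
    · simp [List.replicate_succ]

/-- step (1): every pair of slot lists over the relator walk is equivalent to a normal form -/
lemma Moves.toNormal (H : Moves m E) (G0 F : List Slot) (hG0 : ∀ s ∈ G0, s.Good m)
    (hF : ∀ s ∈ F, s.Good m) (a b : ℕ) (hl : F.length = a + G0.length + b)
    (W : List (Fin m × Bool)) (h : nw F = slots W) :
    E F (List.replicate a Slot.wait ++ G0 ++ List.replicate b Slot.wait)
      (List.replicate G0.length Slot.wait ++ slots W)
      (G0 ++ List.replicate W.length Slot.wait) := by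
  set n := W.length with hn
  have hw := wait_good m
  have gG : ∀ s ∈ List.replicate a Slot.wait ++ G0 ++ List.replicate b Slot.wait, s.Good m :=
    app_good (app_good (hw a) hG0) (hw b)
  -- insert `n` waits at the end
  have h1 := H.ins F [] (List.replicate a Slot.wait ++ G0 ++ List.replicate b Slot.wait) []
    hF (by simp) gG (by simp) (by simp [hl]; omega) rfl n
  -- move the letters
  have h2 := H.same (List.replicate a Slot.wait ++ G0 ++ List.replicate b Slot.wait ++
      List.replicate n Slot.wait) (F ++ List.replicate n Slot.wait)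
    (List.replicate a Slot.wait ++ (List.replicate G0.length Slot.wait ++ slots W) ++
      List.replicate b Slot.wait) (app_good gG (hw n)) (app_good hF (hw n))
    (app_good (app_good (hw a) (app_good (hw _) (slots_good W))) (hw b))
    (by simp [hl]; omega) (by simp [slots_length]; omega)
    (by simp [nw_append, nw_wait, nw_slots, h])
  -- remove the first `a` waits
  have h3 := H.ins [] (List.replicate G0.length Slot.wait ++ slots W ++
      List.replicate b Slot.wait) [] (G0 ++ List.replicate n Slot.wait ++
      List.replicate b Slot.wait) (by simp)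
      (app_good (app_good (hw _) (slots_good W)) (hw b)) (by simp)
      (app_good (app_good hG0 (hw n)) (hw b)) rfl (by simp [slots_length]; omega) a
  -- remove the last `b` waits
  have h4 := H.ins (List.replicate G0.length Slot.wait ++ slots W) [] (G0 ++
      List.replicate n Slot.wait) [] (app_good (hw _) (slots_good W)) (by simp)
      (app_good hG0 (hw n)) (by simp) (by simp [slots_length]; omega) rfl b
  have h5 : List.replicate b Slot.wait ++ List.replicate n Slot.wait =
      List.replicate n Slot.wait ++ List.replicate b Slot.wait := by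
    rw [← List.replicate_add, ← List.replicate_add, Nat.add_comm]
  refine H.htrans _ _ _ _ _ _ (Moves.cast h1 (by simp) (by simp) rfl rfl) ?_
  refine H.htrans _ _ _ _ _ _ (Moves.cast h2 (by simp) (by simp) rfl rfl) ?_
  refine H.htrans _ _ _ _ _ _ (Moves.cast (H.hsymm _ _ _ _ h3) (by simp) (by simp [h5]) rfl rfl) ?_
  exact Moves.cast (H.hsymm _ _ _ _ h4) (by simp) (by simp) (by simp) (by simp)

/-- the equivalence of words in all contexts -/
def Moves.Rel (E : List Slot → List Slot → List Slot → List Slot → Prop)
    (G0 : List Slot) (W W' : List (Fin m × Bool)) : Prop :=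
  ∀ L1 L2 : List (Fin m × Bool),
    E (List.replicate G0.length Slot.wait ++ slots (L1 ++ W ++ L2))
      (G0 ++ List.replicate (L1 ++ W ++ L2).length Slot.wait)
      (List.replicate G0.length Slot.wait ++ slots (L1 ++ W' ++ L2))
      (G0 ++ List.replicate (L1 ++ W' ++ L2).length Slot.wait)

/-- the congruence on the free monoid -/
def Moves.con (H : Moves m E) (G0 : List Slot) (hG0 : ∀ s ∈ G0, s.Good m) :
    Con (FreeMonoid (Fin m × Bool)) where
  r W W' := Moves.Rel E G0 (FreeMonoid.toList W) (FreeMonoid.toList W')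
  iseqv := by
    refine ⟨?_, ?_, ?_⟩
    · intro W L1 L2
      refine H.hrefl _ _ ?_ (app_good (wait_good m _) (slots_good _))
        (app_good hG0 (wait_good m _))
      simp [slots_length]
    · intro W W' h L1 L2
      exact H.hsymm _ _ _ _ (h L1 L2)
    · intro W W' W'' h h' L1 L2
      exact H.htrans _ _ _ _ _ _ (h L1 L2) (h' L1 L2)
  mul' := by
    intro W X Y Z h h' L1 L2
    have h1 := h L1 (FreeMonoid.toList Y ++ L2)
    have h2 := h' (L1 ++ FreeMonoid.toList X) L2
    refine H.htrans _ _ _ _ _ _ (Moves.cast h1 ?_ ?_ rfl rfl) (Moves.cast h2 ?_ ?_ ?_ ?_) <;>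
      simp [FreeMonoid.toList_mul]

/-- step (2) -/
lemma Moves.rel_cancel (H : Moves m E) (G0 : List Slot) (hG0 : ∀ s ∈ G0, s.Good m) (i : Fin m)
    (b : Bool) : Moves.Rel E G0 [(i, b), (i, !b)] ([] : List (Fin m × Bool)) := by
  intro L1 L2
  have hw := wait_good m
  have hG : ∀ s ∈ G0 ++ List.replicate (L1 ++ [(i, b), (i, !b)] ++ L2).length Slot.wait,
      s.Good m := app_good hG0 (hw _)
  have h1 := H.hcancel (List.replicate G0.length Slot.wait ++ slots L1) (slots L2)
    (G0 ++ List.replicate (L1 ++ [(i, b), (i, !b)] ++ L2).length Slot.wait) i b i.2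
    (app_good (hw _) (slots_good _)) (slots_good _) hG (by simp [slots_length]; omega)
  have h2 := H.toNormal G0 (List.replicate G0.length Slot.wait ++ slots L1 ++
    [Slot.wait, Slot.wait] ++ slots L2) hG0
    (app_good (app_good (app_good (hw _) (slots_good _)) (hw 2)) (slots_good _)) 0
    (L1 ++ [(i, b), (i, !b)] ++ L2).length (by simp [slots_length]) (L1 ++ [] ++ L2)
    (by
      have : nw [Slot.wait, Slot.wait] = [] := nw_wait 2
      rw [nw_append, nw_append, nw_append, nw_wait, nw_slots, nw_slots, this]
      simp [slots_append])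
  refine H.htrans _ _ _ _ _ _ (Moves.cast h1 ?_ rfl rfl rfl) (Moves.cast h2 rfl ?_ rfl rfl)
  · simp [slots]
  · simp

/-- step (3) -/
lemma Moves.rel_relator (H : Moves m E) (rels : List (List (Fin m × Bool)))
    (ρ : List (Fin m × Bool)) (h : ρ ∈ rels) :
    Moves.Rel E (relSlots rels) ρ ([] : List (Fin m × Bool)) := by
  intro L1 L2
  have hw := wait_good m
  have hG0 := rel_good rels
  obtain ⟨G1, G2, hG⟩ := rel_split rels ρ h
  have hG1 : ∀ s ∈ G1, s.Good m := fun s hs => hG0 s (by rw [hG]; simp [hs])
  have hG2 : ∀ s ∈ G2, s.Good m := fun s hs => hG0 s (by rw [hG]; simp [hs])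
  have hlen : (relSlots rels).length = G1.length + (ρ.length + 2) + G2.length := by
    rw [hG]; simp [slots_length]; omega
  have h1 := H.hrel (slots L1 ++ List.replicate G1.length Slot.wait)
    (List.replicate G2.length Slot.wait ++ slots L2)
    (List.replicate L1.length Slot.wait ++ G1) (G2 ++ List.replicate L2.length Slot.wait)
    (slots ρ) (app_good (slots_good _) (hw _)) (app_good (hw _) (slots_good _))
    (app_good (hw _) hG1) (app_good hG2 (hw _)) (slots_good _)
    (by simp [slots_length]) (by simp [slots_length])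
  have hone : ∀ s ∈ [Slot.wait], s.Good m := hw 1
  have hn1 : nw [Slot.wait] = [] := nw_wait 1
  have h2 := H.toNormal (relSlots rels) (slots L1 ++ List.replicate G1.length Slot.wait ++
    ([Slot.wait] ++ slots ρ ++ [Slot.wait]) ++
    (List.replicate G2.length Slot.wait ++ slots L2)) hG0
    (app_good (app_good (app_good (slots_good _) (hw _)) (app_good (app_good hone
      (slots_good _)) hone)) (app_good (hw _) (slots_good _))) L1.length L2.length
    (by rw [hlen]; simp [slots_length]; omega) (L1 ++ ρ ++ L2)
    (by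
      simp only [nw_append, nw_wait, nw_slots, hn1]
      simp [slots_append])
  have h3 := H.toNormal (relSlots rels) (slots L1 ++ List.replicate G1.length Slot.wait ++
    List.replicate ((slots ρ).length + 2) Slot.wait ++
    (List.replicate G2.length Slot.wait ++ slots L2)) hG0
    (app_good (app_good (app_good (slots_good _) (hw _)) (hw _))
      (app_good (hw _) (slots_good _))) L1.length L2.length
    (by rw [hlen]; simp [slots_length]; omega) (L1 ++ [] ++ L2)
    (by
      simp only [nw_append, nw_wait, nw_slots]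
      simp [slots_append])
  refine H.htrans _ _ _ _ _ _ (H.hsymm _ _ _ _ h2) (H.htrans _ _ _ _ _ _
    (Moves.cast (H.hsymm _ _ _ _ h1) rfl ?_ rfl rfl) (Moves.cast h3 rfl ?_ rfl rfl))
  · rw [hG]; simp
  · rw [hG]; simp

/-- the word problem of the presented group is generated by the moves -/
lemma Moves.words (H : Moves m E) (rels : List (List (Fin m × Bool)))
    (W W' : List (Fin m × Bool))
    (h : PresentedGroup.mk (relSet rels) (FreeGroup.mk W) =
      PresentedGroup.mk (relSet rels) (FreeGroup.mk W')) :
    Moves.Rel E (relSlots rels) W W' := by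
  classical
  set c := H.con (relSlots rels) (rel_good rels) with hc
  let u : Fin m → c.Quotientˣ := fun i =>
    { val := c.mk' (FreeMonoid.of (i, true))
      inv := c.mk' (FreeMonoid.of (i, false))
      val_inv := by
        rw [← map_mul]
        exact (Con.eq c).2 (H.rel_cancel (relSlots rels) (rel_good rels) i true)
      inv_val := by
        rw [← map_mul]
        exact (Con.eq c).2 (H.rel_cancel (relSlots rels) (rel_good rels) i false) }
  have hval : ∀ W : List (Fin m × Bool),
      ((FreeGroup.lift u (FreeGroup.mk W) : c.Quotientˣ) : c.Quotient) =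
        c.mk' (FreeMonoid.ofList W) := by
    intro W
    induction W with
    | nil =>
      rw [show (FreeGroup.mk ([] : List (Fin m × Bool))) = 1 from FreeGroup.one_eq_mk.symm,
        map_one]
      rfl
    | cons x W ih =>
      have e1 : FreeGroup.mk (x :: W) = FreeGroup.mk [x] * FreeGroup.mk W := by
        rw [FreeGroup.mul_mk]; rfl
      have e2 : FreeMonoid.ofList (x :: W) = FreeMonoid.of x * FreeMonoid.ofList W := rfl
      rw [e1, e2, map_mul, Units.val_mul, ih, map_mul]
      congr 1
      obtain ⟨i, b⟩ := x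
      cases b
      · simp [FreeGroup.lift_mk, u]
      · simp [FreeGroup.lift_mk, u]
  have hrels : ∀ r ∈ relSet rels, FreeGroup.lift u r = 1 := by
    rintro r ⟨ρ, hρ, rfl⟩
    ext
    rw [hval]
    exact (Con.eq c).2 (H.rel_relator rels ρ hρ)
  have h1 : PresentedGroup.toGroup hrels (PresentedGroup.mk (relSet rels) (FreeGroup.mk W)) =
      PresentedGroup.toGroup hrels (PresentedGroup.mk (relSet rels) (FreeGroup.mk W')) := by
    rw [h]
  have h2 : FreeGroup.lift u (FreeGroup.mk W) = FreeGroup.lift u (FreeGroup.mk W') := h1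
  have h3 := congrArg (fun x : c.Quotientˣ => (x : c.Quotient)) h2
  simp only [hval] at h3
  exact (Con.eq c).1 h3

end WM

theorem words_moves {m : ℕ} (rels : List (List (Fin m × Bool)))
    (E : List Slot → List Slot → List Slot → List Slot → Prop)
    (hrefl : ∀ F G : List Slot, F.length = G.length → (∀ s ∈ F, s.Good m) → (∀ s ∈ G, s.Good m) →
      E F G F G)
    (hsymm : ∀ F G F' G', E F G F' G' → E F' G' F G)
    (htrans : ∀ F G F' G' F'' G'', E F G F' G' → E F' G' F'' G'' → E F G F'' G'')
    (hswap : ∀ (A B G : List Slot) (s : Slot), (∀ s ∈ A, s.Good m) → (∀ s ∈ B, s.Good m) →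
      s.Good m → (∀ s ∈ G, s.Good m) → G.length = A.length + 2 + B.length →
      E (A ++ [Slot.wait, s] ++ B) G (A ++ [s, Slot.wait] ++ B) G)
    (hcancel : ∀ (A B G : List Slot) (i : ℕ) (b : Bool), i < m → (∀ s ∈ A, s.Good m) →
      (∀ s ∈ B, s.Good m) → (∀ s ∈ G, s.Good m) → G.length = A.length + 2 + B.length →
      E (A ++ [Slot.lett i b, Slot.lett i !b] ++ B) G (A ++ [Slot.wait, Slot.wait] ++ B) G)
    (hrel : ∀ (A B A' B' ρ : List Slot), (∀ s ∈ A, s.Good m) → (∀ s ∈ B, s.Good m) →
      (∀ s ∈ A', s.Good m) → (∀ s ∈ B', s.Good m) → (∀ s ∈ ρ, s.Good m) →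
      A.length = A'.length → B.length = B'.length →
      E (A ++ List.replicate (ρ.length + 2) Slot.wait ++ B)
        (A' ++ ([Slot.touch] ++ ρ ++ [Slot.touch]) ++ B')
        (A ++ ([Slot.wait] ++ ρ ++ [Slot.wait]) ++ B)
        (A' ++ ([Slot.touch] ++ ρ ++ [Slot.touch]) ++ B'))
    (hins : ∀ (A B A' B' : List Slot), (∀ s ∈ A, s.Good m) → (∀ s ∈ B, s.Good m) →
      (∀ s ∈ A', s.Good m) → (∀ s ∈ B', s.Good m) → A.length = A'.length → B.length = B'.length →
      E (A ++ B) (A' ++ B') (A ++ [Slot.wait] ++ B) (A' ++ [Slot.wait] ++ B'))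
    (W W' : List (Fin m × Bool))
    (h : PresentedGroup.mk (relSet rels) (FreeGroup.mk W) =
      PresentedGroup.mk (relSet rels) (FreeGroup.mk W')) :
    E (List.replicate (relSlots rels).length Slot.wait ++ slots W)
      (relSlots rels ++ List.replicate W.length Slot.wait)
      (List.replicate (relSlots rels).length Slot.wait ++ slots W')
      (relSlots rels ++ List.replicate W'.length Slot.wait) := by
  have H : WM.Moves m E := ⟨hrefl, hsymm, htrans, hswap, hcancel, hrel, hins⟩
  have := H.words rels W W' h [] []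
  simpa using this

end Pool.Agent.FM
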