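import Pool.Agent.FM.Defs3

/-!
BLOCK C15: representations of the configuration of a word.
-/

namespace Pool.Agent.FM

namespace C15

variable {G : Type} [Group G]

/-- value of a slot -/
def val (γ : ℕ → G) : Slot → G
  | .wait => 1
  | .touch => 1
  | .lett i b => if b then γ i else (γ i)⁻¹

/-- value of a list of slots -/
def vals (γ : ℕ → G) (S : List Slot) : G := (S.map (val γ)).prod

theorem vals_append (γ : ℕ → G) (S S' : List Slot) :
    vals γ (S ++ S') = vals γ S * vals γ S' := by
  simp [vals]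

theorem vals_wait (γ : ℕ → G) (k : ℕ) : vals γ (List.replicate k Slot.wait) = 1 := by
  simp [vals, val]

theorem vals_slots {m : ℕ} (γ : ℕ → G) (W : List (Fin m × Bool)) :
    vals γ (slots W) = evalW γ W := by
  simp [vals, slots, evalW, val, Function.comp_def]

theorem pre_add (γ : ℕ → G) (w : ℕ → ℕ × ℕ) (a j : ℕ) :
    pre γ w (a + j) = pre γ w a * pre γ (fun k => w (a + k)) j := by
  induction j with
  | zero => simp [pre]
  | succ j ih => rw [← add_assoc, pre, ih, pre, mul_assoc, add_assoc]

theorem pre_congr (γ : ℕ → G) {w w' : ℕ → ℕ × ℕ} {j : ℕ} (h : ∀ k ≤ j, w k = w' k) :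
    pre γ w j = pre γ w' j := by
  induction j with
  | zero => rfl
  | succ j ih =>
    rw [pre, pre, ih (fun k hk => h k (by omega)), h j (by omega), h (j + 1) le_rfl]

theorem pre_one (γ : ℕ → G) {w : ℕ → ℕ × ℕ} {j : ℕ}
    (h : ∀ k < j, stepLab γ (w k) (w (k + 1)) = 1) : pre γ w j = 1 := by
  induction j with
  | zero => rfl
  | succ j ih => rw [pre, ih (fun k hk => h k (by omega)), h j (by omega), mul_one]

/-- the cases of `lw` -/
theorem lw_cases (i j : ℕ) :
    (j ≤ 2 * i ∧ lw i j = (2 + j, 1)) ∨ (j = 2 * i + 1 ∧ lw i j = (2 * i + 2, 2)) ∨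
      (j = 2 * i + 2 ∧ lw i j = (2 * i + 3, 2)) ∨
      (2 * i + 3 ≤ j ∧ j ≤ 4 * i + 3 ∧ lw i j = (4 * i + 6 - j, 1)) ∨
      (4 * i + 4 ≤ j ∧ lw i j = (2, 1)) := by
  unfold lw
  split_ifs with h1 h2 h3
  · exact Or.inl ⟨h1, rfl⟩
  · exact Or.inr (Or.inl ⟨h2, rfl⟩)
  · exact Or.inr (Or.inr (Or.inl ⟨h3, rfl⟩))
  · right; right; right
    rcases Nat.lt_or_ge j (4 * i + 4) with h | h
    · left
      refine ⟨by omega, by omega, ?_⟩
      rw [max_eq_right (by omega)]
    · right
      refine ⟨h, ?_⟩
      rw [max_eq_left (by omega)]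

theorem stepLab_lt {γ : ℕ → G} {p q : ℕ × ℕ} (h : p.1 < 3 ∨ q.1 < 3) : stepLab γ p q = 1 := by
  unfold stepLab
  rw [if_neg (by omega)]

theorem stepLab_eq {γ : ℕ → G} {p q : ℕ × ℕ} (h : p.2 = q.2) : stepLab γ p q = 1 := by
  unfold stepLab
  split_ifs <;> first | rfl | omega

theorem lw_step (γ : ℕ → G) (i j : ℕ) :
    stepLab γ (lw i j) (lw i (j + 1)) = if j = 2 * i + 2 then (γ i)⁻¹ else 1 := by
  rcases lw_cases i j with ⟨h1, h⟩ | ⟨h1, h⟩ | ⟨h1, h⟩ | ⟨h1, h2, h⟩ | ⟨h1, h⟩ <;>
  rcases lw_cases i (j + 1) with ⟨h1', h'⟩ | ⟨h1', h'⟩ | ⟨h1', h'⟩ | ⟨h1', h2', h'⟩ | ⟨h1', h'⟩ <;>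
  first
  | (exfalso; omega)
  | (rw [h, h', if_neg (by omega)]
     unfold stepLab
     rw [if_neg (by simp only; omega)])
  | (rw [h, h', if_pos (by omega)]
     unfold stepLab
     have e' : 4 * i + 6 - (j + 1) = 2 * i + 3 := by omega
     have e'' : (2 * i + 3) % 2 = 1 := by omega
     simp [e', e''])

theorem lw_step' (γ : ℕ → G) (i j : ℕ) :
    stepLab γ (lw i (j + 1)) (lw i j) = if j = 2 * i + 2 then γ i else 1 := by
  rcases lw_cases i j with ⟨h1, h⟩ | ⟨h1, h⟩ | ⟨h1, h⟩ | ⟨h1, h2, h⟩ | ⟨h1, h⟩ <;>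
  rcases lw_cases i (j + 1) with ⟨h1', h'⟩ | ⟨h1', h'⟩ | ⟨h1', h'⟩ | ⟨h1', h2', h'⟩ | ⟨h1', h'⟩ <;>
  first
  | (exfalso; omega)
  | (rw [h, h', if_neg (by omega)]
     unfold stepLab
     rw [if_neg (by simp only; omega)])
  | (rw [h, h', if_pos (by omega)]
     unfold stepLab
     have e' : 4 * i + 6 - (j + 1) = 2 * i + 3 := by omega
     have e'' : (2 * i + 3) % 2 = 1 := by omega
     simp [e', e''])

theorem pre_lw (γ : ℕ → G) (i j : ℕ) :
    pre γ (lw i) j = if j ≤ 2 * i + 2 then 1 else (γ i)⁻¹ := by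
  induction j with
  | zero => simp [pre]
  | succ j ih =>
    rw [pre, ih, lw_step]
    rcases lt_trichotomy j (2 * i + 2) with h | h | h
    · rw [if_pos (by omega), if_neg (by omega), if_pos (by omega), mul_one]
    · rw [if_pos (by omega), if_pos (by omega), if_neg (by omega), one_mul]
    · rw [if_neg (by omega), if_neg (by omega), if_neg (by omega), mul_one]

theorem pre_lw' (γ : ℕ → G) {m i : ℕ} (hi : i < m) (j : ℕ) (hj : j ≤ 4 * m) :
    pre γ (fun j => lw i (4 * m - j)) j = if j + 2 * i + 3 ≤ 4 * m then 1 else γ i := by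
  induction j with
  | zero => rw [if_pos (by omega)]; rfl
  | succ j ih =>
    obtain ⟨k, hk, hk'⟩ : ∃ k, 4 * m - (j + 1) = k ∧ 4 * m - j = k + 1 :=
      ⟨4 * m - (j + 1), rfl, by omega⟩
    rw [pre, ih (by omega), hk, hk', lw_step']
    rcases lt_trichotomy k (2 * i + 2) with h | h | h
    · rw [if_neg (by omega), if_neg (by omega), if_neg (by omega), mul_one]
    · rw [if_pos (by omega), if_pos (by omega), if_neg (by omega), one_mul]
    · rw [if_pos (by omega), if_neg (by omega), if_pos (by omega), mul_one]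

theorem slotPos_zero {m : ℕ} {s : Slot} (hs : s.Good m) : slotPos m s 0 = (2, 1) := by
  cases s with
  | wait => rfl
  | touch => simp [slotPos]
  | lett i b =>
    have hi : i < m := hs
    cases b
    · simp [slotPos, lw]
    · simp only [slotPos]
      rcases lw_cases i (4 * m - 0) with ⟨h1, h⟩ | ⟨h1, h⟩ | ⟨h1, h⟩ | ⟨h1, h2, h⟩ | ⟨h1, h⟩
      · omega
      · omega
      · omega
      · rw [h]; ext <;> simp; omega
      · exact h

theorem slotPos_last {m : ℕ} {s : Slot} (hs : s.Good m) : slotPos m s (4 * m) = (2, 1) := by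
  cases s with
  | wait => rfl
  | touch => simp [slotPos]
  | lett i b =>
    have hi : i < m := hs
    cases b
    · simp only [slotPos]
      rcases lw_cases i (4 * m) with ⟨h1, h⟩ | ⟨h1, h⟩ | ⟨h1, h⟩ | ⟨h1, h2, h⟩ | ⟨h1, h⟩
      · omega
      · omega
      · omega
      · rw [h]; ext <;> simp; omega
      · exact h
    · simp [slotPos, lw]

theorem pre_slot (γ : ℕ → G) {m : ℕ} {s : Slot} (hs : s.Good m) :
    pre γ (slotPos m s) (4 * m) = val γ s := by
  cases s with
  | wait => exact pre_one γ fun k _ => stepLab_lt (by simp [slotPos])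
  | touch =>
    refine pre_one γ fun k _ => stepLab_lt ?_
    left
    simp only [slotPos]
    split_ifs <;> simp
  | lett i b =>
    have hi : i < m := hs
    cases b
    · simp only [val]
      have : slotPos m (Slot.lett i false) = lw i := by ext1 j; rfl
      rw [this, pre_lw, if_neg (by omega)]
      simp
    · have : slotPos m (Slot.lett i true) = fun j => lw i (4 * m - j) := by ext1 j; rfl
      rw [this, pre_lw' γ hi _ le_rfl, if_neg (by omega)]
      simp [val]

theorem pre_touch (γ : ℕ → G) (m j : ℕ) : pre γ (slotPos m Slot.touch) j = 1 := by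
  refine pre_one γ fun k _ => stepLab_lt ?_
  left
  simp only [slotPos]
  split_ifs <;> simp

theorem getD_good {m : ℕ} {S : List Slot} (hS : ∀ s ∈ S, s.Good m) (q : ℕ) :
    (S.getD q Slot.wait).Good m := by
  rw [List.getD_eq_getElem?_getD]
  rcases h : S[q]? with _ | s
  · exact trivial
  · exact hS s (List.mem_of_getElem? h)

theorem wk_slot {m : ℕ} (hm : 1 ≤ m) (base : ℕ × ℕ) {S : List Slot} (hS : ∀ s ∈ S, s.Good m)
    {q j : ℕ} (hq : q < S.length) (hj : j ≤ 4 * m) :
    wk m base S (5 + 4 * m * q + j) = slotPos m (S.getD q Slot.wait) j := by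
  have key : ∀ q j, q ≤ S.length → j < 4 * m → (j = 0 ∨ q < S.length) →
      wk m base S (5 + 4 * m * q + j) = slotPos m (S.getD q Slot.wait) j := by
    intro q j hq hj hqj
    have hle : 4 * m * q + j ≤ 4 * m * S.length := by
      rcases hqj with h | h
      · rw [h]; simpa using Nat.mul_le_mul_left (4 * m) hq
      · calc 4 * m * q + j ≤ 4 * m * q + 4 * m := by omega
          _ = 4 * m * (q + 1) := by ring
          _ ≤ _ := Nat.mul_le_mul_left _ h
    unfold wk
    rw [if_neg (by omega), if_neg (by omega), if_pos (by omega)]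
    have e : 5 + 4 * m * q + j - 5 = j + 4 * m * q := by omega
    rw [e, Nat.add_mul_div_left _ _ (by omega), Nat.add_mul_mod_self_left, Nat.mod_eq_of_lt hj,
      Nat.div_eq_of_lt hj, zero_add]
  rcases Nat.lt_or_eq_of_le hj with h | h
  · exact key q j hq.le h (Or.inr hq)
  · subst h
    have e : 5 + 4 * m * q + 4 * m = 5 + 4 * m * (q + 1) + 0 := by ring
    rw [e, key (q + 1) 0 hq (by omega) (Or.inl rfl), slotPos_zero (getD_good hS _),
      slotPos_last (getD_good hS _)]

theorem wk_five {m : ℕ} (hm : 1 ≤ m) (base : ℕ × ℕ) {S : List Slot} (hS : ∀ s ∈ S, s.Good m) :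
    wk m base S 5 = (2, 1) := by
  unfold wk
  rw [if_neg (by omega), if_neg (by omega), if_pos (by omega)]
  simpa using slotPos_zero (getD_good hS 0)

theorem pre_five (γ : ℕ → G) {m : ℕ} (hm : 1 ≤ m) {base : ℕ × ℕ} (hb : base.1 < 3)
    {S : List Slot} (hS : ∀ s ∈ S, s.Good m) : pre γ (wk m base S) 5 = 1 := by
  refine pre_one γ fun k hk => stepLab_lt ?_
  right
  rcases Nat.lt_or_ge k 3 with h | h
  · unfold wk; rw [if_pos (by omega)]; exact hb
  · rcases Nat.lt_or_ge k 4 with h' | h'
    · unfold wk; rw [if_neg (by omega), if_pos (by omega)]; simp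
    · have : k = 4 := by omega
      subst this
      rw [wk_five hm base hS]
      simp

/-- the product at the beginning of the slot `q` -/
theorem pre_slots (γ : ℕ → G) {m : ℕ} (hm : 1 ≤ m) {base : ℕ × ℕ} (hb : base.1 < 3)
    {S : List Slot} (hS : ∀ s ∈ S, s.Good m) {q : ℕ} (hq : q ≤ S.length) :
    pre γ (wk m base S) (5 + 4 * m * q) = vals γ (S.take q) := by
  induction q with
  | zero => simpa [vals] using pre_five γ hm hb hS
  | succ q ih =>
    have e : 5 + 4 * m * (q + 1) = 5 + 4 * m * q + 4 * m := by ring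
    rw [e, pre_add, ih (by omega)]
    rw [pre_congr γ (w' := slotPos m (S.getD q Slot.wait))
      (fun k hk => wk_slot hm base hS (by omega) hk), pre_slot γ (getD_good hS q)]
    have hq' : q < S.length := hq
    rw [← List.take_append_getElem hq', vals_append]
    congr 1
    rw [List.getD_eq_getElem _ _ hq']
    simp [vals]

theorem pre_in_touch (γ : ℕ → G) {m : ℕ} (hm : 1 ≤ m) {base : ℕ × ℕ} (hb : base.1 < 3)
    {S : List Slot} (hS : ∀ s ∈ S, s.Good m) {q j : ℕ} (hq : q < S.length) (hj : j ≤ 4 * m)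
    (hs : S.getD q Slot.wait = Slot.touch) :
    pre γ (wk m base S) (5 + 4 * m * q + j) = vals γ (S.take q) := by
  rw [pre_add, pre_slots γ hm hb hS hq.le,
    pre_congr γ (w' := slotPos m Slot.touch)
      (fun k hk => by
        show wk m base S (5 + 4 * m * q + k) = _
        rw [wk_slot hm base hS hq (by omega), hs]), pre_touch, mul_one]

theorem wk_end {m : ℕ} (base : ℕ × ℕ) (S : List Slot) :
    wk m base S (6 + 4 * m * S.length) = (1, 1) := by
  unfold wk
  rw [if_neg (by omega), if_neg (by omega), if_neg (by omega), if_pos rfl]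

theorem wk_after {m : ℕ} (base : ℕ × ℕ) (S : List Slot) {t : ℕ}
    (ht : 7 + 4 * m * S.length ≤ t) : wk m base S t = base := by
  unfold wk
  rw [if_neg (by omega), if_neg (by omega), if_neg (by omega), if_neg (by omega)]

theorem pre_end (γ : ℕ → G) {m : ℕ} (hm : 1 ≤ m) {base : ℕ × ℕ} (hb : base.1 < 3)
    {S : List Slot} (hS : ∀ s ∈ S, s.Good m) :
    pre γ (wk m base S) (6 + 4 * m * S.length) = vals γ S := by
  have e : 6 + 4 * m * S.length = (5 + 4 * m * S.length) + 1 := by ring
  rw [e, pre, pre_slots γ hm hb hS le_rfl, List.take_length, stepLab_lt, mul_one]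
  right
  rw [← e, wk_end]
  simp

theorem pre_T (γ : ℕ → G) {m : ℕ} (hm : 1 ≤ m) {base : ℕ × ℕ} (hb : base.1 < 3)
    {S : List Slot} (hS : ∀ s ∈ S, s.Good m) :
    pre γ (wk m base S) (7 + 4 * m * S.length) = vals γ S := by
  have e : 7 + 4 * m * S.length = (6 + 4 * m * S.length) + 1 := by ring
  rw [e, pre, pre_end γ hm hb hS, stepLab_lt, mul_one]
  left
  rw [wk_end]
  simp

theorem slots_good {m : ℕ} (W : List (Fin m × Bool)) : ∀ s ∈ slots W, s.Good m := by
  intro s hs
  simp only [slots, List.mem_map] at hs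
  obtain ⟨p, _, rfl⟩ := hs
  exact p.1.2

theorem relSlots_good {m : ℕ} (rels : List (List (Fin m × Bool))) :
    ∀ s ∈ relSlots rels, s.Good m := by
  intro s hs
  simp only [relSlots, List.mem_cons, List.mem_flatMap, List.mem_append, List.not_mem_nil,
    or_false] at hs
  rcases hs with rfl | ⟨ρ, _, h | rfl⟩
  · trivial
  · exact slots_good _ _ h
  · trivial

theorem F_good {m : ℕ} (k : ℕ) (W : List (Fin m × Bool)) :
    ∀ s ∈ List.replicate k Slot.wait ++ slots W, s.Good m := by
  intro s hs
  rcases List.mem_append.1 hs with h | h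
  · rw [List.eq_of_mem_replicate h]; trivial
  · exact slots_good _ _ h

theorem G_good {m : ℕ} (rels : List (List (Fin m × Bool))) (k : ℕ) :
    ∀ s ∈ relSlots rels ++ List.replicate k Slot.wait, s.Good m := by
  intro s hs
  rcases List.mem_append.1 hs with h | h
  · exact relSlots_good _ _ h
  · rw [List.eq_of_mem_replicate h]; trivial

theorem getD_mid (A B : List Slot) (s : Slot) :
    (A ++ s :: B).getD A.length Slot.wait = s := by
  rw [List.getD_append_right _ _ _ _ le_rfl]
  simp

theorem vals_touch (γ : ℕ → G) (A : List Slot) : vals γ (Slot.touch :: A) = vals γ A := by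
  simp [vals, val]

theorem aux {m : ℕ} (γ : ℕ → G) (k : ℕ) (rels : List (List (Fin m × Bool)))
    (hrel : ∀ ρ ∈ rels, evalW γ ρ = 1) (q : ℕ)
    (hq : ((rels.flatMap fun ρ => slots ρ ++ [Slot.touch]) ++
      List.replicate k Slot.wait).getD q Slot.wait = Slot.touch) :
    vals γ (((rels.flatMap fun ρ => slots ρ ++ [Slot.touch]) ++
      List.replicate k Slot.wait).take q) = 1 := by
  induction rels generalizing q with
  | nil =>
    exfalso
    simp only [List.flatMap_nil, List.nil_append] at hq
    rw [List.getD_eq_getElem?_getD, List.getElem?_replicate] at hq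
    split_ifs at hq <;> simp at hq
  | cons ρ rels ih =>
    set B := (rels.flatMap fun ρ => slots ρ ++ [Slot.touch]) ++ List.replicate k Slot.wait with hB
    have e : ((ρ :: rels).flatMap fun ρ => slots ρ ++ [Slot.touch]) ++
        List.replicate k Slot.wait = slots ρ ++ Slot.touch :: B := by
      rw [hB]; simp
    rw [e] at hq ⊢
    rcases lt_trichotomy q (slots ρ).length with h | h | h
    · exfalso
      rw [List.getD_append _ _ _ _ h, List.getD_eq_getElem _ _ h] at hq
      simp [slots] at hq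
    · subst h
      rw [List.take_left, vals_slots]
      exact hrel ρ (by simp)
    · obtain ⟨q', rfl⟩ : ∃ q', q = (slots ρ).length + (q' + 1) :=
        ⟨q - (slots ρ).length - 1, by omega⟩
      rw [List.getD_append_right _ _ _ _ (by omega), Nat.add_sub_cancel_left,
        List.getD_cons_succ] at hq
      rw [List.take_length_add_append, List.take_succ_cons, vals_append, vals_touch, vals_slots,
        hrel ρ (by simp), one_mul]
      exact ih (fun ρ' h' => hrel ρ' (List.mem_cons_of_mem _ h')) q' hq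

theorem take_touch {m : ℕ} (γ : ℕ → G) (k : ℕ) (rels : List (List (Fin m × Bool)))
    (hrel : ∀ ρ ∈ rels, evalW γ ρ = 1) (q : ℕ)
    (hq : (relSlots rels ++ List.replicate k Slot.wait).getD q Slot.wait = Slot.touch) :
    vals γ ((relSlots rels ++ List.replicate k Slot.wait).take q) = 1 := by
  cases q with
  | zero => simp [vals]
  | succ q =>
    simp only [relSlots, List.cons_append] at hq ⊢
    rw [List.getD_cons_succ] at hq
    rw [List.take_succ_cons, vals_touch]
    exact aux γ k rels hrel q hq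

theorem vals_flat {m : ℕ} (γ : ℕ → G) (rels : List (List (Fin m × Bool)))
    (hrel : ∀ ρ ∈ rels, evalW γ ρ = 1) :
    vals γ (rels.flatMap fun ρ => slots ρ ++ [Slot.touch]) = 1 := by
  induction rels with
  | nil => simp [vals]
  | cons ρ rels ih =>
    rw [List.flatMap_cons, vals_append, vals_append, vals_slots, hrel ρ (by simp), one_mul,
      ih (fun ρ' h' => hrel ρ' (List.mem_cons_of_mem _ h'))]
    simp [vals, val]

theorem vals_rel {m : ℕ} (γ : ℕ → G) (rels : List (List (Fin m × Bool)))
    (hrel : ∀ ρ ∈ rels, evalW γ ρ = 1) (k : ℕ) :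
    vals γ (relSlots rels ++ List.replicate k Slot.wait) = 1 := by
  rw [vals_append, vals_wait, mul_one, relSlots, vals_touch, vals_flat γ rels hrel]

/-! ### the walks are admissible -/

theorem GAdj.symm {m : ℕ} {p q : ℕ × ℕ} (h : GAdj m p q) : GAdj m q p := by
  rcases h with h | h | h
  · exact Or.inl h.symm
  · exact Or.inr (Or.inr h)
  · exact Or.inr (Or.inl h)

theorem adj12 {m : ℕ} (hm : 1 ≤ m) : GAdj m (1, 1) (2, 1) :=
  Or.inr (Or.inl (Or.inl ⟨rfl, rfl, rfl, by simp only; omega⟩))

theorem lw_gv {m i : ℕ} (hi : i < m) (j : ℕ) : IsGV m (lw i j) := by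
  rcases lw_cases i j with ⟨h1, h⟩ | ⟨h1, h⟩ | ⟨h1, h⟩ | ⟨h1, h2, h⟩ | ⟨h1, h⟩ <;> rw [h]
  · exact Or.inl ⟨by simp only; omega, rfl⟩
  · exact Or.inr ⟨i, hi, Or.inl rfl, rfl⟩
  · exact Or.inr ⟨i, hi, Or.inr rfl, rfl⟩
  · exact Or.inl ⟨by simp only; omega, rfl⟩
  · exact Or.inl ⟨by simp only; omega, rfl⟩

theorem lw_ge (i j : ℕ) : 2 ≤ (lw i j).1 := by
  rcases lw_cases i j with ⟨h1, h⟩ | ⟨h1, h⟩ | ⟨h1, h⟩ | ⟨h1, h2, h⟩ | ⟨h1, h⟩ <;> rw [h] <;>
    simp only <;> omega

theorem lw_adj {m i : ℕ} (hi : i < m) (j : ℕ) : GAdj m (lw i j) (lw i (j + 1)) := by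
  rcases lw_cases i j with ⟨h1, h⟩ | ⟨h1, h⟩ | ⟨h1, h⟩ | ⟨h1, h2, h⟩ | ⟨h1, h⟩ <;>
  rcases lw_cases i (j + 1) with ⟨h1', h'⟩ | ⟨h1', h'⟩ | ⟨h1', h'⟩ | ⟨h1', h2', h'⟩ | ⟨h1', h'⟩ <;>
  first
  | (exfalso; omega)
  | (rw [h, h']
     exact Or.inr (Or.inl (Or.inl ⟨rfl, rfl, by simp only; omega, by simp only; omega⟩)))
  | (rw [h, h']
     exact Or.inr (Or.inr (Or.inl ⟨rfl, rfl, by simp only; omega, by simp only; omega⟩)))
  | (rw [h, h']
     exact Or.inr (Or.inl (Or.inr (Or.inl ⟨i, hi, by simp only; omega, by simp only; omega,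
       rfl, rfl⟩))))
  | (rw [h, h']
     exact Or.inr (Or.inr (Or.inr (Or.inl ⟨i, hi, by simp only; omega, by simp only; omega,
       rfl, rfl⟩))))
  | (rw [h, h']
     exact Or.inr (Or.inl (Or.inr (Or.inr ⟨i, hi, rfl, rfl⟩))))
  | (rw [h, h']
     exact Or.inl rfl)

theorem slotPos_gv {m : ℕ} (hm : 1 ≤ m) {s : Slot} (hs : s.Good m) (j : ℕ) :
    IsGV m (slotPos m s j) := by
  cases s with
  | wait => exact Or.inl ⟨by simp only [slotPos]; omega, rfl⟩
  | touch =>
    simp only [slotPos]
    split_ifs <;> exact Or.inl ⟨by simp only; omega, rfl⟩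
  | lett i b => cases b <;> exact lw_gv hs _

theorem slotPos_pos {m : ℕ} {s : Slot} (j : ℕ) : 1 ≤ (slotPos m s j).1 := by
  cases s with
  | wait => simp [slotPos]
  | touch =>
    simp only [slotPos]
    split_ifs <;> simp
  | lett i b => cases b <;> exact le_trans (by norm_num) (lw_ge _ _)

theorem slotPos_adj {m : ℕ} (hm : 1 ≤ m) {s : Slot} (hs : s.Good m) {j : ℕ} (hj : j < 4 * m) :
    GAdj m (slotPos m s j) (slotPos m s (j + 1)) := by
  cases s with
  | wait => exact Or.inl rfl
  | touch =>
    simp only [slotPos]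
    split_ifs
    · exact Or.inl rfl
    · exact GAdj.symm (adj12 hm)
    · exact adj12 hm
    · exact Or.inl rfl
  | lett i b =>
    cases b
    · exact lw_adj hs _
    · simp only [slotPos]
      obtain ⟨k, hk, hk'⟩ : ∃ k, 4 * m - (j + 1) = k ∧ 4 * m - j = k + 1 :=
        ⟨4 * m - (j + 1), rfl, by omega⟩
      rw [hk, hk']
      exact GAdj.symm (lw_adj hs _)

/-- division of a time with remainder -/
theorem time_cases {m : ℕ} (hm : 1 ≤ m) (l t : ℕ) :
    t ≤ 3 ∨ t = 4 ∨ (∃ q j, q < l ∧ j < 4 * m ∧ t = 5 + 4 * m * q + j) ∨ t = 5 + 4 * m * l ∨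
      t = 6 + 4 * m * l ∨ 7 + 4 * m * l ≤ t := by
  by_cases h : 5 ≤ t ∧ t < 5 + 4 * m * l
  · right; right; left
    refine ⟨(t - 5) / (4 * m), (t - 5) % (4 * m), ?_, Nat.mod_lt _ (by omega), ?_⟩
    · rw [Nat.div_lt_iff_lt_mul (by omega), mul_comm l]
      omega
    · have := Nat.div_add_mod (t - 5) (4 * m)
      omega
  · omega

theorem wk_low {m : ℕ} (base : ℕ × ℕ) (S : List Slot) {t : ℕ} (ht : t ≤ 3) :
    wk m base S t = base := by
  unfold wk
  rw [if_pos ht]

theorem wk_four {m : ℕ} (base : ℕ × ℕ) (S : List Slot) : wk m base S 4 = (1, 1) := by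
  unfold wk
  rw [if_neg (by omega), if_pos rfl]

theorem wk_last {m : ℕ} (hm : 1 ≤ m) (base : ℕ × ℕ) {S : List Slot}
    (hS : ∀ s ∈ S, s.Good m) : wk m base S (5 + 4 * m * S.length) = (2, 1) := by
  unfold wk
  rw [if_neg (by omega), if_neg (by omega), if_pos (by omega)]
  have e : 5 + 4 * m * S.length - 5 = 0 + 4 * m * S.length := by omega
  rw [e, Nat.add_mul_mod_self_left, Nat.zero_mod]
  exact slotPos_zero (getD_good hS _)

theorem wk_gv {m : ℕ} (hm : 1 ≤ m) {base : ℕ × ℕ} (hb : IsGV m base) {S : List Slot}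
    (hS : ∀ s ∈ S, s.Good m) (t : ℕ) : IsGV m (wk m base S t) := by
  rcases time_cases hm S.length t with h | h | ⟨q, j, hq, hj, rfl⟩ | h | h | h
  · rw [wk_low _ _ h]; exact hb
  · subst h; rw [wk_four]; exact Or.inl ⟨by simp only; omega, rfl⟩
  · rw [wk_slot hm base hS hq hj.le]; exact slotPos_gv hm (getD_good hS _) _
  · rw [h, wk_last hm base hS]; exact Or.inl ⟨by simp only; omega, rfl⟩
  · rw [h, wk_end]; exact Or.inl ⟨by simp only; omega, rfl⟩
  · rw [wk_after _ _ h]; exact hb

theorem wk_adj {m : ℕ} (hm : 1 ≤ m) {base : ℕ × ℕ} (hb : GAdj m base (1, 1)) {S : List Slot}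
    (hS : ∀ s ∈ S, s.Good m) (t : ℕ) : GAdj m (wk m base S t) (wk m base S (t + 1)) := by
  rcases time_cases hm S.length t with h | h | ⟨q, j, hq, hj, rfl⟩ | h | h | h
  · rw [wk_low _ _ h]
    rcases Nat.lt_or_ge t 3 with h' | h'
    · rw [wk_low _ _ (by omega : t + 1 ≤ 3)]; exact Or.inl rfl
    · have : t + 1 = 4 := by omega
      rw [this, wk_four]; exact hb
  · subst h; rw [wk_four, wk_five hm base hS]; exact adj12 hm
  · rw [add_assoc (5 + 4 * m * q), wk_slot hm base hS hq hj.le, wk_slot hm base hS hq hj]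
    exact slotPos_adj hm (getD_good hS _) hj
  · subst h
    have e : 5 + 4 * m * S.length + 1 = 6 + 4 * m * S.length := by ring
    rw [e, wk_last hm base hS, wk_end]; exact GAdj.symm (adj12 hm)
  · subst h
    rw [wk_end, wk_after _ _ (by omega)]; exact GAdj.symm hb
  · rw [wk_after _ _ h, wk_after _ _ (by omega)]; exact Or.inl rfl

theorem wk_pos {m : ℕ} (hm : 1 ≤ m) (base : ℕ × ℕ) {S : List Slot}
    (hS : ∀ s ∈ S, s.Good m) {t : ℕ} (h3 : 3 < t) (hT : t < 7 + 4 * m * S.length) :
    1 ≤ (wk m base S t).1 := by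
  rcases time_cases hm S.length t with h | h | ⟨q, j, hq, hj, rfl⟩ | h | h | h
  · omega
  · subst h; rw [wk_four]
  · rw [wk_slot hm base hS hq hj.le]; exact slotPos_pos _
  · rw [h, wk_last hm base hS]; simp
  · rw [h, wk_end]
  · omega

end C15

open C15

theorem Rep.words {m : ℕ} (hm : 1 ≤ m) {J1 J2 : Finset ℕ} {rels : List (List (Fin m × Bool))}
    {W : List (Fin m × Bool)} {G : Type} [Group G] (R : Rep (cfgW J1 J2 rels W) G) :
    evalW R.γ W = 1 ∧ ∀ ρ ∈ rels, evalW R.γ ρ = 1 := by
  constructor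
  · have h := R.hf
    have h' := pre_T R.γ hm (base := (0, 1)) (by norm_num) (F_good (relSlots rels).length W)
    rw [vals_append, vals_wait, one_mul, vals_slots] at h'
    rw [← h']
    exact h
  · -- the values at the touch slots
    have key : ∀ A B : List Slot, relSlots rels ++ List.replicate W.length Slot.wait =
        A ++ Slot.touch :: B → vals R.γ A = 1 := by
      intro A B hAB
      have hlen : A.length < (relSlots rels ++ List.replicate W.length Slot.wait).length := by
        rw [hAB]; simp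
      have hgood := G_good rels W.length
      have hs : (relSlots rels ++ List.replicate W.length Slot.wait).getD A.length Slot.wait =
          Slot.touch := by rw [hAB, getD_mid]
      have h := pre_in_touch R.γ hm (base := (1, 1)) (by norm_num) hgood hlen
        (by omega : 1 ≤ 4 * m) hs
      rw [hAB, List.take_left, ← hAB] at h
      rw [← h]
      refine R.hg (5 + 4 * m * A.length + 1) (by omega) ?_ ?_
      · show 5 + 4 * m * A.length + 1 < 7 + 4 * m *
          (List.replicate (relSlots rels).length Slot.wait ++ slots W).length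
        have e : (List.replicate (relSlots rels).length Slot.wait ++ slots W).length =
            (relSlots rels ++ List.replicate W.length Slot.wait).length := by simp [slots]
        rw [e]
        have := Nat.mul_le_mul_left (4 * m) hlen.le
        omega
      · show wk m (1, 1) (relSlots rels ++ List.replicate W.length Slot.wait)
          (5 + 4 * m * A.length + 1) = (1, 1)
        rw [wk_slot hm _ hgood hlen (by omega), hs]
        simp only [slotPos]
        rw [if_neg (by omega)]
    have key2 : ∀ L1 L2 : List (List (Fin m × Bool)), rels = L1 ++ L2 →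
        vals R.γ (L1.flatMap fun ρ => slots ρ ++ [Slot.touch]) = 1 := by
      intro L1 L2 hL
      rcases List.eq_nil_or_concat L1 with rfl | ⟨L, ρ, rfl⟩
      · simp [vals]
      · have h := key (Slot.touch :: ((L.flatMap fun ρ => slots ρ ++ [Slot.touch]) ++ slots ρ))
          ((L2.flatMap fun ρ => slots ρ ++ [Slot.touch]) ++ List.replicate W.length Slot.wait)
          (by rw [hL]; simp [relSlots])
        rw [vals_touch] at h
        rw [List.concat_eq_append, List.flatMap_append, vals_append]
        rw [vals_append] at h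
        simp only [List.flatMap_cons, List.flatMap_nil, List.append_nil]
        rw [vals_append, ← mul_assoc, h, one_mul]
        simp [vals, val]
    intro ρ hρ
    obtain ⟨L1, L2, hL⟩ := List.append_of_mem hρ
    have h1 := key2 L1 (ρ :: L2) hL
    have h2 := key2 (L1 ++ [ρ]) L2 (by rw [hL]; simp)
    rw [List.flatMap_append, vals_append, h1, one_mul] at h2
    simp only [List.flatMap_cons, List.flatMap_nil, List.append_nil] at h2
    rw [vals_append, vals_slots] at h2
    simpa [vals, val] using h2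

theorem Rep.ofWords {m : ℕ} (hm : 1 ≤ m) {J1 J2 : Finset ℕ} {rels : List (List (Fin m × Bool))}
    {W : List (Fin m × Bool)} {G : Type} [Group G] (x0 x1 z : G) (γ : ℕ → G)
    (h01 : Commute x0 x1) (h0z : Commute x0 z) (h1z : Commute x1 z)
    (h0c : Commute x0 (γ (m - 1))) (h1c : Commute x1 (γ (m - 1)))
    (hJ1 : ∀ i ∈ J1, i < m → Commute x0 (γ i)) (hJ2 : ∀ i ∈ J2, i < m → Commute x1 (γ i))
    (hz : ∀ i < m, Commute z (γ i)) (hW : evalW γ W = 1) (hrel : ∀ ρ ∈ rels, evalW γ ρ = 1) :
    ∃ R : Rep (cfgW J1 J2 rels W) G, R.x0 = x0 ∧ R.x1 = x1 ∧ R.z = z ∧ R.γ = γ := by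
  refine ⟨{ x0 := x0, x1 := x1, z := z, γ := γ, h01 := h01, h0z := h0z, h1z := h1z,
            h0c := h0c, h1c := h1c, hJ1 := hJ1, hJ2 := hJ2, hz := hz, hf := ?_, hg := ?_ },
    rfl, rfl, rfl, rfl⟩
  · have h' := pre_T γ hm (base := (0, 1)) (by norm_num) (F_good (relSlots rels).length W)
    rw [vals_append, vals_wait, one_mul, vals_slots, hW] at h'
    exact h'
  · intro t h4 hT hg
    have e : (List.replicate (relSlots rels).length Slot.wait ++ slots W).length =
        (relSlots rels ++ List.replicate W.length Slot.wait).length := by simp [slots]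
    replace hT : t < 7 + 4 * m * (relSlots rels ++ List.replicate W.length Slot.wait).length := by
      rw [← e]; exact hT
    replace hg : wk m (1, 1) (relSlots rels ++ List.replicate W.length Slot.wait) t = (1, 1) := hg
    show pre γ (wk m (1, 1) (relSlots rels ++ List.replicate W.length Slot.wait)) t = 1
    have hgood := G_good rels W.length
    rcases time_cases hm (relSlots rels ++ List.replicate W.length Slot.wait).length t with
      h | h | ⟨q, j, hq, hj, rfl⟩ | h | h | h
    · omega
    · subst h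
      refine pre_one γ fun k hk => stepLab_lt ?_
      left
      rw [wk_low _ _ (by omega)]
      norm_num
    · rw [wk_slot hm _ hgood hq hj.le] at hg
      have hs : (relSlots rels ++ List.replicate W.length Slot.wait).getD q Slot.wait =
          Slot.touch := by
        rcases h : (relSlots rels ++ List.replicate W.length Slot.wait).getD q Slot.wait with
          _ | _ | ⟨i, b⟩
        · rw [h] at hg; simp [slotPos] at hg
        · rfl
        · rw [h] at hg
          exfalso
          cases b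
          · have := lw_ge i j
            simp only [slotPos] at hg
            rw [hg] at this
            simp at this
          · have := lw_ge i (4 * m - j)
            simp only [slotPos] at hg
            rw [hg] at this
            simp at this
      rw [pre_in_touch γ hm (by norm_num) hgood hq hj.le hs]
      exact take_touch γ W.length rels hrel q hs
    · subst h
      rw [wk_last hm _ hgood] at hg
      simp at hg
    · subst h
      rw [pre_end γ hm (by norm_num) hgood]
      exact vals_rel γ rels hrel _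
    · omega

theorem cfgW_ok {m : ℕ} (hm : 1 ≤ m) (J1 J2 : Finset ℕ) (rels : List (List (Fin m × Bool)))
    (W : List (Fin m × Bool)) : (cfgW J1 J2 rels W).Ok := by
  have hF := F_good (relSlots rels).length W
  have hG := G_good rels W.length
  have e : (List.replicate (relSlots rels).length Slot.wait ++ slots W).length =
      (relSlots rels ++ List.replicate W.length Slot.wait).length := by simp [slots]
  have b0 : IsGV m (0, 1) := Or.inl ⟨by simp, rfl⟩
  have b1 : IsGV m (1, 1) := Or.inl ⟨by simp only; omega, rfl⟩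
  have a0 : GAdj m (0, 1) (1, 1) := Or.inr (Or.inl (Or.inl ⟨rfl, rfl, rfl, by simp only; omega⟩))
  have a1 : GAdj m (1, 1) (1, 1) := Or.inl rfl
  refine ⟨hm, ?_, ?_, ?_, ?_, ?_, ?_, ?_, ?_, ?_, ?_, ?_⟩
  · exact Nat.le_add_right 7 _
  · exact fun t => wk_gv hm b0 hF t
  · exact fun t => wk_adj hm a0 hF t
  · exact fun t ht => wk_low _ _ ht
  · exact fun t ht => wk_after _ _ ht
  · exact fun t h3 hT => wk_pos hm _ hF h3 hT
  · exact fun t => wk_gv hm b1 hG t
  · exact fun t => wk_adj hm a1 hG t
  · intro t ht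
    rcases Nat.lt_or_ge t 4 with h | h
    · exact wk_low _ _ (by omega)
    · have : t = 4 := by omega
      subst this
      exact wk_four (m := m) (1, 1) (relSlots rels ++ List.replicate W.length Slot.wait)
  · intro t ht
    replace ht : 7 + 4 * m * (relSlots rels ++ List.replicate W.length Slot.wait).length ≤
      t + 1 := by rw [← e]; exact ht
    rcases Nat.lt_or_ge (6 + 4 * m * (relSlots rels ++
      List.replicate W.length Slot.wait).length) t with h | h
    · exact wk_after _ _ (by omega)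
    · have : t = 6 + 4 * m * (relSlots rels ++ List.replicate W.length Slot.wait).length := by
        omega
      rw [this]
      exact wk_end _ _
  · intro t
    show 1 ≤ (wk m (1, 1) (relSlots rels ++ List.replicate W.length Slot.wait) t).1
    rcases Nat.lt_or_ge 3 t with h3 | h3
    · rcases Nat.lt_or_ge t (7 + 4 * m * (relSlots rels ++
        List.replicate W.length Slot.wait).length) with h | h
      · exact wk_pos hm _ hG h3 h
      · rw [wk_after _ _ h]
    · rw [wk_low _ _ h3]

end Pool.Agent.FM
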