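import Pool.Agent.FM.Defs3
import Pool.Agent.FM.B09

/-!
# Geometry of the cover of the reference hypersurface
-/

open Set Topology

namespace Pool.Agent.FM

namespace C16

/-- distance to the nearest vertex -/
noncomputable def dlZ (x : ℝ) : ℝ := |x - 3 * kapZ x|

theorem dlZ_le (x : ℝ) (k : ℤ) : dlZ x ≤ |x - 3 * k| := by
  have hb := kapZ_bounds x
  unfold dlZ
  rcases lt_trichotomy k (kapZ x) with h | h | h
  · have h2 : (k : ℝ) + 1 ≤ kapZ x := by exact_mod_cast h
    have h3 : |x - 3 * (kapZ x : ℝ)| ≤ 3 / 2 := abs_le.mpr ⟨by linarith, by linarith⟩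
    have h4 : 3 / 2 ≤ |x - 3 * (k : ℝ)| := le_trans (by linarith) (le_abs_self _)
    linarith
  · rw [h]
  · have h2 : (kapZ x : ℝ) + 1 ≤ k := by exact_mod_cast h
    have h3 : |x - 3 * (kapZ x : ℝ)| ≤ 3 / 2 := abs_le.mpr ⟨by linarith, by linarith⟩
    have h4 : 3 / 2 ≤ |x - 3 * (k : ℝ)| := by
      rw [abs_sub_comm]
      exact le_trans (by linarith) (le_abs_self _)
    linarith

theorem dlZ_lip (x y : ℝ) : dlZ x ≤ dlZ y + |x - y| := by
  refine le_trans (dlZ_le x (kapZ y)) ?_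
  unfold dlZ
  have := abs_add_le (x - y) (y - 3 * kapZ y)
  rw [show x - y + (y - 3 * (kapZ y : ℝ)) = x - 3 * kapZ y by ring] at this
  linarith

theorem dlZ_periodic (n : ℕ) : Function.Periodic dlZ (3 * (n : ℝ)) := by
  intro x
  have := kapZ_add x (n : ℤ)
  simp only [Int.cast_natCast] at this
  unfold dlZ
  rw [this]
  congr 1
  push_cast
  ring

/-- distance to the nearest vertex, on the circle -/
noncomputable def dl {n : ℕ} : Circ n → ℝ := (dlZ_periodic n).lift

@[simp] theorem dl_coe {n : ℕ} (x : ℝ) : dl (x : Circ n) = dlZ x := rfl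

theorem exists_rep {n : ℕ} [NeZero n] (x y : Circ n) :
    ∃ x' y' : ℝ, (x' : Circ n) = x ∧ (y' : Circ n) = y ∧ |x' - y'| = dist x y := by
  induction x using QuotientAddGroup.induction_on with
  | H x =>
  induction y using QuotientAddGroup.induction_on with
  | H y =>
    set m := round ((3 * (n : ℝ))⁻¹ * (x - y)) with hm
    refine ⟨x - m * (3 * (n : ℝ)), y, ?_, rfl, ?_⟩
    · have : ((m * (3 * (n : ℝ)) : ℝ) : Circ n) = 0 := by
        rw [AddCircle.coe_eq_zero_iff]
        exact ⟨m, by simp⟩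
      show ((x - m * (3 * (n : ℝ)) : ℝ) : Circ n) = ((x : ℝ) : Circ n)
      rw [AddCircle.coe_sub, this, sub_zero]
    · rw [dist_eq_norm]
      have h' : ‖((x - y : ℝ) : Circ n)‖ = |x - y - m * (3 * (n : ℝ))| := by
        rw [AddCircle.norm_eq]
      show _ = ‖((x - y : ℝ) : Circ n)‖
      rw [h']
      congr 1
      ring

theorem dl_lip {n : ℕ} [NeZero n] (x y : Circ n) : |dl x - dl y| ≤ dist x y := by
  obtain ⟨x', y', rfl, rfl, h⟩ := exists_rep x y
  rw [← h, dl_coe, dl_coe, abs_le]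
  have h1 := dlZ_lip x' y'
  have h2 := dlZ_lip y' x'
  rw [abs_sub_comm] at h2
  constructor <;> linarith

theorem continuous_dl {n : ℕ} [NeZero n] : Continuous (dl (n := n)) := by
  have : LipschitzWith 1 (dl (n := n)) := by
    apply LipschitzWith.of_dist_le_mul
    intro x y
    rw [Real.dist_eq]
    simpa using dl_lip x y
  exact this.continuous

theorem lo_snd {n : ℕ} {x : Circ n} (h : 1 < dl x) : (lo 1 x).2 = true := by
  induction x using QuotientAddGroup.induction_on with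
  | H x =>
    change 1 < dlZ x at h
    change (loZ 1 x).2 = true
    rcases loZ_spec (d := 1) (x := x) (by norm_num) (by norm_num) with ⟨_, h2, h3⟩ | ⟨h1, _⟩
    · exfalso
      have := dlZ_le x (loZ 1 x).1
      have h4 : |x - 3 * ((loZ 1 x).1 : ℝ)| ≤ 1 := abs_le.mpr ⟨by linarith, by linarith⟩
      linarith
    · exact h1

theorem kap_eq_of_close {n : ℕ} [NeZero n] {x y : Circ n} (hx : dl x < 7 / 5) (hy : dl y ≤ 7 / 5)
    (h : dist x y < 1 / 20) : kap x = kap y := by
  obtain ⟨x', y', rfl, rfl, h2⟩ := exists_rep x y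
  rw [← h2, abs_lt] at h
  simp only [dl_coe, dlZ, abs_lt, abs_le] at hx hy
  have h3 : kapZ x' = kapZ y' := by
    have h4 : (kapZ x' : ℝ) < kapZ y' + 1 := by linarith
    have h5 : (kapZ y' : ℝ) < kapZ x' + 1 := by linarith
    have h6 : kapZ x' < kapZ y' + 1 := by exact_mod_cast h4
    have h7 : kapZ y' < kapZ x' + 1 := by exact_mod_cast h5
    omega
  rw [kap_coe, kap_coe, h3]

theorem lo_eq_of_close {n : ℕ} [NeZero n] {x y : Circ n} (hx : 11 / 10 ≤ dl x)
    (hy : 11 / 10 ≤ dl y) (h : dist x y < 1 / 20) : lo 1 x = lo 1 y := by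
  have hx1 : (lo 1 x).2 = true := lo_snd (by linarith)
  have hy1 : (lo 1 y).2 = true := lo_snd (by linarith)
  obtain ⟨x', y', rfl, rfl, h2⟩ := exists_rep x y
  rw [← h2, abs_lt] at h
  change (loZ 1 x').2 = true at hx1
  change (loZ 1 y').2 = true at hy1
  rcases loZ_spec (d := 1) (x := x') (by norm_num) (by norm_num) with ⟨h1, _⟩ | ⟨_, h3, h4⟩
  · rw [h1] at hx1; simp at hx1
  rcases loZ_spec (d := 1) (x := y') (by norm_num) (by norm_num) with ⟨h1, _⟩ | ⟨_, h5, h6⟩
  · rw [h1] at hy1; simp at hy1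
  have h7 : (loZ 1 x').1 = (loZ 1 y').1 := by
    have h8 : ((loZ 1 x').1 : ℝ) < (loZ 1 y').1 + 1 := by linarith
    have h9 : ((loZ 1 y').1 : ℝ) < (loZ 1 x').1 + 1 := by linarith
    have h10 : (loZ 1 x').1 < (loZ 1 y').1 + 1 := by exact_mod_cast h8
    have h11 : (loZ 1 y').1 < (loZ 1 x').1 + 1 := by exact_mod_cast h9
    omega
  rw [lo_coe, lo_coe]
  congr 1
  exact Prod.ext h7 (by rw [hx1, hy1])

/-- the point of a vertex -/
noncomputable def vp {n : ℕ} (a : ZMod n) : Circ n := ((3 * (a.val : ℝ) : ℝ) : Circ n)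

theorem vp_intCast {n : ℕ} [NeZero n] (k : ℤ) :
    vp (k : ZMod n) = ((3 * (k : ℝ) : ℝ) : Circ n) := by
  unfold vp
  have h1 : (((k : ZMod n).val : ℤ) : ℝ) = ((k % n : ℤ) : ℝ) := by
    rw [ZMod.val_intCast]
  have h2 : (k : ℝ) = ((k % n : ℤ) : ℝ) + n * ((k / n : ℤ) : ℝ) := by
    have := Int.emod_add_mul_ediv k n
    have h3 : ((k % n + n * (k / n) : ℤ) : ℝ) = (k : ℝ) := by rw [this]
    rw [← h3]
    push_cast
    ring
  rw [h2, show (((k : ZMod n).val : ℕ) : ℝ) = (((k : ZMod n).val : ℤ) : ℝ) by norm_cast, h1]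
  rw [mul_add, AddCircle.coe_add]
  have : ((3 * ((n : ℝ) * ((k / n : ℤ) : ℝ)) : ℝ) : Circ n) = 0 := by
    rw [AddCircle.coe_eq_zero_iff]
    refine ⟨k / n, ?_⟩
    simp only [zsmul_eq_mul]
    ring
  rw [this, add_zero]

theorem rep_vp {n : ℕ} [NeZero n] (x : Circ n) (a : ZMod n) :
    ∃ (x' : ℝ) (k : ℤ), (x' : Circ n) = x ∧ (k : ZMod n) = a ∧ |x' - 3 * k| = dist x (vp a) := by
  obtain ⟨x', y', hx, hy, h⟩ := exists_rep x (vp a)
  unfold vp at hy
  have h0 : ((y' - 3 * (a.val : ℝ) : ℝ) : Circ n) = 0 := by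
    rw [AddCircle.coe_sub, hy, sub_self]
  rw [AddCircle.coe_eq_zero_iff] at h0
  obtain ⟨m, hm⟩ := h0
  simp only [zsmul_eq_mul] at hm
  refine ⟨x', (a.val : ℤ) + n * m, hx, ?_, ?_⟩
  · push_cast
    rw [ZMod.natCast_zmod_val]
    simp
  · rw [← h]
    congr 1
    push_cast
    linarith

theorem kap_of_dist {n : ℕ} [NeZero n] {x : Circ n} {a : ZMod n} (h : dist x (vp a) < 3 / 2) :
    kap x = a := by
  obtain ⟨x', k, rfl, rfl, h2⟩ := rep_vp x a
  rw [← h2, abs_lt] at h
  rw [kap_coe, (kapZ_eq_iff (k := k)).mpr ⟨by linarith, by linarith⟩]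

theorem dl_of_dist {n : ℕ} [NeZero n] {x : Circ n} {a : ZMod n} (h : dist x (vp a) < 3 / 2) :
    dl x = dist x (vp a) := by
  obtain ⟨x', k, rfl, rfl, h2⟩ := rep_vp x a
  rw [← h2] at h ⊢
  rw [abs_lt] at h
  rw [dl_coe, dlZ, (kapZ_eq_iff (k := k)).mpr ⟨by linarith, by linarith⟩]

theorem dist_of_lo {n : ℕ} [NeZero n] {x : Circ n} {a : ZMod n} (h : lo 1 x = (a, false)) :
    dist x (vp a) ≤ 1 := by
  induction x using QuotientAddGroup.induction_on with
  | H x =>
    change cst n (loZ 1 x) = (a, false) at h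
    unfold cst at h
    rw [Prod.mk.injEq] at h
    obtain ⟨h1, h2⟩ := h
    rw [← h1, vp_intCast]
    rcases loZ_spec (d := 1) (x := x) (by norm_num) (by norm_num) with ⟨_, h3, h4⟩ | ⟨h5, _⟩
    · show dist ((x : ℝ) : Circ n) _ ≤ 1
      rw [dist_eq_norm, ← AddCircle.coe_sub]
      refine le_trans (b := |x - 3 * ((loZ 1 x).1 : ℝ)|) ?_ (abs_le.mpr ⟨by linarith, by linarith⟩)
      rw [AddCircle.norm_eq]
      set y := x - 3 * ((loZ 1 x).1 : ℝ)
      have hn0 : (n : ℝ) ≠ 0 := by exact_mod_cast NeZero.ne n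
      have hp : (0 : ℝ) < 3 * n := by have := NeZero.pos n; positivity
      have h6 := round_le ((3 * (n : ℝ))⁻¹ * y) 0
      have h7 : |y - round ((3 * (n : ℝ))⁻¹ * y) * (3 * (n : ℝ))|
          = (3 * (n : ℝ)) * |(3 * (n : ℝ))⁻¹ * y - round ((3 * (n : ℝ))⁻¹ * y)| := by
        rw [← abs_of_pos hp, ← abs_mul, abs_of_pos hp]
        congr 1
        field_simp
      rw [h7]
      calc (3 * (n : ℝ)) * |(3 * (n : ℝ))⁻¹ * y - round ((3 * (n : ℝ))⁻¹ * y)|
          ≤ (3 * (n : ℝ)) * |(3 * (n : ℝ))⁻¹ * y - (0 : ℤ)| :=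
            mul_le_mul_of_nonneg_left h6 hp.le
        _ = |y| := by
            rw [Int.cast_zero, sub_zero, abs_mul, abs_of_pos (inv_pos.mpr hp)]
            field_simp
    · rw [h5] at h2; simp at h2

/-- distance of the planar part to the boundary of the rectangle -/
noncomputable def rh {n : ℕ} (A : ℕ) (q : Tor n) : ℝ :=
  min (min (dist (q 3) (vp 0)) (dist (q 3) (vp (A : ZMod n))))
    (min (dist (q 4) (vp 0)) (dist (q 4) (vp (3 : ZMod n))))

theorem continuous_rh {n : ℕ} [NeZero n] (A : ℕ) : Continuous (rh (n := n) A) := by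
  unfold rh
  fun_prop

/-- the five functions -/
noncomputable def dh {n : ℕ} (A : ℕ) (q : Tor n) (i : Fin 5) : ℝ :=
  if i = 3 ∨ i = 4 then min (dl (q i)) (rh A q) else dl (q i)

theorem continuous_dh {n : ℕ} [NeZero n] (A : ℕ) (i : Fin 5) :
    Continuous (fun q : Tor n => dh A q i) := by
  unfold dh
  have h := continuous_dl (n := n)
  have h2 := continuous_rh (n := n) A
  split_ifs
  · exact (h.comp (continuous_apply i)).min h2
  · exact h.comp (continuous_apply i)

theorem dh_le {n : ℕ} (A : ℕ) (q : Tor n) (i : Fin 5) : dh A q i ≤ dl (q i) := by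
  unfold dh
  split_ifs
  · exact min_le_left _ _
  · exact le_refl _

theorem Lo_PC {n : ℕ} [NeZero n] {A : ℕ} (hn : 5 ≤ n) (hA : A + 3 ≤ n)
    {K : Set (Cell n)} (hKO : KO n A ⊆ K) {q : Tor n} (hq : q ∈ X K) : Lo 1 q ∈ PC n A := by
  have h1 : Hi 1 q ∉ KO n A := fun h => hq.2 (hKO h)
  unfold KO at h1
  simp only [mem_setOf_eq, not_not] at h1
  have h2 : Hi 1 q ∈ PC n A := ⟨h1.2.1.le, h1.2.2.2.le⟩
  exact isCx_PC hA hn _ h2 _ (face_Lo_Hi (by norm_num) (le_refl 1) (by norm_num) q)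

theorem eq_of_dbl {n : ℕ} [NeZero n] {a : C1 n} {m : ℕ} (h : dbl a = 2 * m) (hm : m < n) :
    a = ((m : ZMod n), false) := by
  rcases a with ⟨a, t⟩
  unfold dbl at h
  cases t
  · simp only [Bool.toNat_false, add_zero] at h
    have : a.val = m := by omega
    rw [← this, ZMod.natCast_zmod_val]
  · simp only [Bool.toNat_true] at h
    omega

theorem rh_le_one {n : ℕ} [NeZero n] {A : ℕ} (hn : 5 ≤ n) (hA : A + 3 ≤ n)
    {q : Tor n} (h1 : Lo 1 q ∈ KO n A) (h2 : Lo 1 q ∈ PC n A) : rh A q ≤ 1 := by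
  have h3 := h2.1
  have h4 := h2.2
  unfold KO at h1
  simp only [mem_setOf_eq] at h1
  unfold rh
  by_cases e1 : dbl (Lo 1 q 3) = 0
  · have := eq_of_dbl (m := 0) (by simpa using e1) (by omega)
    have := dist_of_lo this
    simp only [Nat.cast_zero] at this
    exact le_trans (min_le_left _ _) (le_trans (min_le_left _ _) this)
  by_cases e2 : dbl (Lo 1 q 3) = 2 * A
  · have := eq_of_dbl e2 (by omega)
    have := dist_of_lo this
    exact le_trans (min_le_left _ _) (le_trans (min_le_right _ _) this)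
  by_cases e3 : dbl (Lo 1 q 4) = 0
  · have := eq_of_dbl (m := 0) (by simpa using e3) (by omega)
    have := dist_of_lo this
    simp only [Nat.cast_zero] at this
    exact le_trans (min_le_right _ _) (le_trans (min_le_left _ _) this)
  by_cases e4 : dbl (Lo 1 q 4) = 6
  · have := eq_of_dbl (m := 3) (by simpa using e4) (by omega)
    have := dist_of_lo this
    exact le_trans (min_le_right _ _) (le_trans (min_le_right _ _) this)
  exfalso
  apply h1
  refine ⟨by omega, by omega, by omega, by omega⟩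

theorem card_dh {n : ℕ} [NeZero n] {A : ℕ} (hn : 5 ≤ n) (hA : A + 3 ≤ n)
    {K : Set (Cell n)} (hKO : KO n A ⊆ K)
    (hthin : ∀ a ∈ K, a ∉ KO n A → dimC a ≤ 2) {q : Tor n} (hq : q ∈ X K) :
    (Finset.univ.filter fun i => 1 < dh A q i).card ≤ 3 := by
  by_cases h : Lo 1 q ∈ KO n A
  · have h1 := rh_le_one hn hA h (Lo_PC hn hA hKO hq)
    have h2 : (Finset.univ.filter fun i => 1 < dh A q i) ⊆ ({0, 1, 2} : Finset (Fin 5)) := by
      intro i hi
      simp only [Finset.mem_filter, Finset.mem_univ, true_and] at hi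
      unfold dh at hi
      split_ifs at hi with h3
      · exfalso
        have := min_le_right (dl (q i)) (rh A q)
        linarith
      · simp only [Finset.mem_insert, Finset.mem_singleton]
        fin_cases i <;> simp_all
    exact le_trans (Finset.card_le_card h2) (by decide)
  · have h1 := hthin _ hq.1 h
    unfold dimC at h1
    refine le_trans (Finset.card_le_card ?_) (le_trans h1 (by norm_num))
    intro i hi
    simp only [Finset.mem_filter, Finset.mem_univ, true_and] at hi ⊢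
    exact lo_snd (lt_of_lt_of_le hi (dh_le A q i))

/-- the thresholds -/
noncomputable def th (k : Fin 4) : ℝ := 7 / 5 - (k : ℕ) / 10

theorem th_bounds (k : Fin 4) : 11 / 10 ≤ th k ∧ th k ≤ 7 / 5 := by
  unfold th
  have : (k : ℕ) ≤ 3 := by omega
  have h : ((k : ℕ) : ℝ) ≤ 3 := by exact_mod_cast this
  have h0 : (0 : ℝ) ≤ ((k : ℕ) : ℝ) := by positivity
  constructor <;> linarith

theorem cover_aux (f : Fin 5 → ℝ) (h : (Finset.univ.filter fun i => 1 < f i).card ≤ 3) :
    ∃ (k : Fin 4) (S : Finset (Fin 5)), S.card = (k : ℕ) ∧ (∀ i ∈ S, th k < f i) ∧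
      ∀ i ∉ S, f i < th k := by
  by_contra hcon
  push Not at hcon
  set N : Fin 4 → ℕ := fun k => (Finset.univ.filter fun i => th k < f i).card with hN
  set N' : Fin 4 → ℕ := fun k => (Finset.univ.filter fun i => th k ≤ f i).card with hN'
  have h1 : ∀ k, N k ≤ N' k := fun k => Finset.card_le_card fun i hi => by
    simp only [Finset.mem_filter, Finset.mem_univ, true_and] at hi ⊢
    exact hi.le
  have h2 : ∀ k l : Fin 4, k < l → N' k ≤ N l := fun k l hkl => Finset.card_le_card fun i hi => by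
    simp only [Finset.mem_filter, Finset.mem_univ, true_and] at hi ⊢
    refine lt_of_lt_of_le ?_ hi
    unfold th
    have : ((k : ℕ) : ℝ) < ((l : ℕ) : ℝ) := by exact_mod_cast hkl
    linarith
  have h3 : ∀ k, N' k ≤ 3 := fun k => le_trans (Finset.card_le_card fun i hi => by
    simp only [Finset.mem_filter, Finset.mem_univ, true_and] at hi ⊢
    have := (th_bounds k).1
    linarith) h
  have h4 : ∀ k : Fin 4, N k = (k : ℕ) → N' k = (k : ℕ) → False := by
    intro k e1 e2
    obtain ⟨i, hi, hi2⟩ := hcon k (Finset.univ.filter fun i => th k < f i) e1 (fun i hi => by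
      simpa using hi)
    simp only [Finset.mem_filter, Finset.mem_univ, true_and, not_lt] at hi
    have hss : (Finset.univ.filter fun i => th k < f i) ⊂ (Finset.univ.filter fun i => th k ≤ f i) := by
      rw [Finset.ssubset_iff_of_subset]
      · exact ⟨i, by simpa using hi2, by simpa using hi⟩
      · intro j hj
        simp only [Finset.mem_filter, Finset.mem_univ, true_and] at hj ⊢
        exact hj.le
    have := Finset.card_lt_card hss
    have e1' : (Finset.univ.filter fun i => th k < f i).card = (k : ℕ) := e1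
    have e2' : (Finset.univ.filter fun i => th k ≤ f i).card = (k : ℕ) := e2
    omega
  have a0 := h1 0; have a1 := h1 1; have a2 := h1 2; have a3 := h1 3
  have b0 := h2 0 1 (by decide); have b1 := h2 1 2 (by decide); have b2 := h2 2 3 (by decide)
  have c3 := h3 3
  have d0 : ¬ (N 0 = 0 ∧ N' 0 = 0) := fun h => h4 0 h.1 h.2
  have d1 : ¬ (N 1 = 1 ∧ N' 1 = 1) := fun h => h4 1 h.1 h.2
  have d2 : ¬ (N 2 = 2 ∧ N' 2 = 2) := fun h => h4 2 h.1 h.2
  have d3 : ¬ (N 3 = 3 ∧ N' 3 = 3) := fun h => h4 3 h.1 h.2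
  omega

/-- the open sets of the cover -/
def UU {n : ℕ} (K : Set (Cell n)) (A : ℕ) (k : Fin 4) : Set (X K) :=
  {q | ∃ S : Finset (Fin 5), S.card = (k : ℕ) ∧ (∀ i ∈ S, th k < dh A q.1 i) ∧
      ∀ i ∉ S, dh A q.1 i < th k}

theorem isOpen_UU {n : ℕ} [NeZero n] (K : Set (Cell n)) (A : ℕ) (k : Fin 4) :
    IsOpen (UU K A k) := by
  have h : UU K A k = ⋃ S : Finset (Fin 5), ⋃ (_ : S.card = (k : ℕ)),
      ((⋂ i ∈ S, {q : X K | th k < dh A q.1 i}) ∩
        ⋂ i ∈ (Finset.univ \ S), {q : X K | dh A q.1 i < th k}) := by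
    ext q
    simp only [UU, mem_setOf_eq, mem_iUnion, mem_inter_iff, mem_iInter, Finset.mem_sdiff,
      Finset.mem_univ, true_and, exists_prop]
  rw [h]
  refine isOpen_iUnion fun S => isOpen_iUnion fun _ => IsOpen.inter ?_ ?_
  · refine isOpen_biInter_finset fun i _ => ?_
    exact isOpen_lt continuous_const ((continuous_dh A i).comp continuous_subtype_val)
  · refine isOpen_biInter_finset fun i _ => ?_
    exact isOpen_lt ((continuous_dh A i).comp continuous_subtype_val) continuous_const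

theorem iUnion_UU {n : ℕ} [NeZero n] {A : ℕ} (hn : 5 ≤ n) (hA : A + 3 ≤ n)
    {K : Set (Cell n)} (hKO : KO n A ⊆ K)
    (hthin : ∀ a ∈ K, a ∉ KO n A → dimC a ≤ 2) : (⋃ k, UU K A k) = univ := by
  rw [eq_univ_iff_forall]
  intro q
  obtain ⟨k, S, h⟩ := cover_aux _ (card_dh hn hA hKO hthin q.2)
  exact mem_iUnion.mpr ⟨k, S, h⟩

theorem dh_ne {n : ℕ} {K : Set (Cell n)} {A : ℕ} {k : Fin 4} {q : X K} (h : q ∈ UU K A k)
    (i : Fin 5) : dh A q.1 i ≠ th k := by
  obtain ⟨S, _, h1, h2⟩ := h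
  by_cases hi : i ∈ S
  · exact (h1 i hi).ne'
  · exact (h2 i hi).ne

theorem rh_ne {n : ℕ} [NeZero n] {K : Set (Cell n)} {A : ℕ} {k : Fin 4} {q : X K}
    (h : q ∈ UU K A k) : rh A q.1 ≠ th k := by
  intro he
  have hb := th_bounds k
  have h3 := dh_ne h 3
  have h4 := dh_ne h 4
  have e3 : dh A q.1 3 = min (dl (q.1 3)) (rh A q.1) := by simp [dh]
  have e4 : dh A q.1 4 = min (dl (q.1 4)) (rh A q.1) := by simp [dh]
  rw [e3] at h3
  rw [e4] at h4
  have hor : (dist (q.1 3) (vp 0) = th k ∨ dist (q.1 3) (vp (A : ZMod n)) = th k) ∨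
      (dist (q.1 4) (vp 0) = th k ∨ dist (q.1 4) (vp (3 : ZMod n)) = th k) := by
    unfold rh at he
    rcases min_choice (min (dist (q.1 3) (vp 0)) (dist (q.1 3) (vp (A : ZMod n))))
      (min (dist (q.1 4) (vp 0)) (dist (q.1 4) (vp (3 : ZMod n)))) with h | h
    · left
      rw [h] at he
      rcases min_choice (dist (q.1 3) (vp 0)) (dist (q.1 3) (vp (A : ZMod n))) with h' | h'
      · left; rw [← he, h']
      · right; rw [← he, h']
    · right
      rw [h] at he
      rcases min_choice (dist (q.1 4) (vp 0)) (dist (q.1 4) (vp (3 : ZMod n))) with h' | h'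
      · left; rw [← he, h']
      · right; rw [← he, h']
  rcases hor with (h | h) | (h | h)
  · apply h3
    rw [dl_of_dist (a := 0) (by rw [h]; linarith), h, he, min_self]
  · apply h3
    rw [dl_of_dist (a := (A : ZMod n)) (by rw [h]; linarith), h, he, min_self]
  · apply h4
    rw [dl_of_dist (a := 0) (by rw [h]; linarith), h, he, min_self]
  · apply h4
    rw [dl_of_dist (a := 3) (by rw [h]; linarith), h, he, min_self]

end C16

end Pool.Agent.FM
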