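import Pool.Agent.FM.Defs3
import Pool.Agent.FM.B09

/-!
# The transport between boundary vertices does not depend on the planar part
-/

open Set

namespace Pool.Agent.FM

/-- equal or adjacent vertices of the circle -/
def AdjZ {n : ℕ} (a b : ZMod n) : Prop := b = a ∨ b = a + 1 ∨ a = b + 1

/-- the vertex with the planar part replaced by the corner `(0, 0)` -/
def prC {n : ℕ} (v : Vx n) : Vx n := fun i => if i = 3 ∨ i = 4 then 0 else v i

namespace C16b

variable {n : ℕ} [NeZero n] {A : ℕ}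

theorem mem_iff (u : Vx n) : vc u ∈ KO n A ∩ PC n A ↔
    ((u 3).val ≤ A ∧ (u 4).val ≤ 3 ∧
      ¬ (0 < (u 3).val ∧ (u 3).val < A ∧ 0 < (u 4).val ∧ (u 4).val < 3)) := by
  simp only [KO, PC, vc, dbl, mem_inter_iff, mem_setOf_eq, Bool.toNat_false, add_zero]
  omega

theorem ec3_mem_iff (u : Vx n) : ec u 3 ∈ KO n A ∩ PC n A ↔
    (2 * (u 3).val + 1 ≤ 2 * A ∧ (u 4).val ≤ 3 ∧
      ¬ (2 * (u 3).val + 1 < 2 * A ∧ 0 < (u 4).val ∧ (u 4).val < 3)) := by
  have h43 : ¬ ((4 : Fin 5) = 3) := by decide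
  simp only [KO, PC, ec, dbl, mem_inter_iff, mem_setOf_eq, h43, decide_true, decide_false,
    Bool.toNat_false, Bool.toNat_true, add_zero]
  omega

theorem ec4_mem_iff (u : Vx n) : ec u 4 ∈ KO n A ∩ PC n A ↔
    ((u 3).val ≤ A ∧ 2 * (u 4).val + 1 ≤ 6 ∧
      ¬ (0 < (u 3).val ∧ (u 3).val < A ∧ 2 * (u 4).val + 1 < 6)) := by
  have h34 : ¬ ((3 : Fin 5) = 4) := by decide
  simp only [KO, PC, ec, dbl, mem_inter_iff, mem_setOf_eq, h34, decide_true, decide_false,
    Bool.toNat_false, Bool.toNat_true, add_zero]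
  omega

theorem prC_mem (hA1 : 1 ≤ A) (u : Vx n) : vc (prC u) ∈ KO n A ∩ PC n A := by
  rw [mem_iff]
  simp [prC]

theorem val_add_one' {a : ZMod n} (h : a.val + 1 < n) : (a + 1).val = a.val + 1 := by
  have : ((a.val + 1 : ℕ) : ZMod n) = a + 1 := by
    rw [Nat.cast_add, ZMod.natCast_zmod_val, Nat.cast_one]
  rw [← this, ZMod.val_cast_of_lt h]

theorem stp_prC (hA1 : 1 ≤ A) {G : Type} [Group G] {c : Vx n → Fin 5 → G} {y : G} (i : Fin 5)
    (hi3 : i ≠ 3) (hi4 : i ≠ 4)
    (hb : ∀ v, vc v ∈ KO n A ∩ PC n A → c v i = if v i + 1 = 0 then y else 1)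
    {u : Vx n} (hu : vc u ∈ KO n A ∩ PC n A) (b : ZMod n) :
    stp c u i b = stp c (prC u) i b := by
  have e1 : (prC u) i = u i := by simp [prC, hi3, hi4]
  have e2 : vc (Function.update u i b) ∈ KO n A ∩ PC n A := by
    rw [mem_iff] at hu ⊢
    rw [Function.update_of_ne (Ne.symm hi3), Function.update_of_ne (Ne.symm hi4)]
    exact hu
  have e3 : vc (Function.update (prC u) i b) ∈ KO n A ∩ PC n A := by
    rw [mem_iff]
    rw [Function.update_of_ne (Ne.symm hi3), Function.update_of_ne (Ne.symm hi4)]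
    simp [prC]
  unfold stp
  rw [e1, hb _ hu, hb _ (prC_mem hA1 u), hb _ e2, hb _ e3, e1, Function.update_self,
    Function.update_self]

end C16b

open C16b

theorem ell_prC {n : ℕ} [NeZero n] {A : ℕ} (hn : 5 ≤ n) (hA1 : 1 ≤ A) (hA : A + 3 ≤ n)
    {G : Type} [Group G] {c : Vx n → Fin 5 → G} {x0 x1 z : G} (hb : BdLab n A c x0 x1 z 1)
    {v w : Vx n} (hv : vc v ∈ KO n A ∩ PC n A) (hw : vc w ∈ KO n A ∩ PC n A)
    (hside : (v 3 = 0 ∧ w 3 = 0) ∨ (v 3 = (A : ZMod n) ∧ w 3 = (A : ZMod n)) ∨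
      (v 4 = 0 ∧ w 4 = 0) ∨ (v 4 = 3 ∧ w 4 = 3))
    (h3 : AdjZ (v 3) (w 3)) (h4 : AdjZ (v 4) (w 4)) :
    ell c v w = ell c (prC v) (prC w) := by
  -- values of the corners
  have val3 : (3 : ZMod n).val = 3 := by
    have : ((3 : ℕ) : ZMod n) = 3 := by norm_num
    rw [← this, ZMod.val_cast_of_lt (by omega)]
  have valA : (A : ZMod n).val = A := ZMod.val_cast_of_lt (by omega)
  -- the intermediate vertices
  set v1 := Function.update v 0 (w 0) with hv1
  set v2 := Function.update v1 1 (w 1) with hv2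
  set v3 := Function.update v2 2 (w 2) with hv3
  set v4 := Function.update v3 3 (w 3) with hv4
  have p13 : v1 3 = v 3 := by rw [hv1, Function.update_of_ne (by decide)]
  have p14 : v1 4 = v 4 := by rw [hv1, Function.update_of_ne (by decide)]
  have p23 : v2 3 = v 3 := by rw [hv2, Function.update_of_ne (by decide), p13]
  have p24 : v2 4 = v 4 := by rw [hv2, Function.update_of_ne (by decide), p14]
  have p33 : v3 3 = v 3 := by rw [hv3, Function.update_of_ne (by decide), p23]
  have p34 : v3 4 = v 4 := by rw [hv3, Function.update_of_ne (by decide), p24]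
  have p43 : v4 3 = w 3 := by rw [hv4, Function.update_self]
  have p44 : v4 4 = v 4 := by rw [hv4, Function.update_of_ne (by decide), p34]
  have m1 : vc v1 ∈ KO n A ∩ PC n A := by rw [mem_iff, p13, p14, ← mem_iff]; exact hv
  have m2 : vc v2 ∈ KO n A ∩ PC n A := by rw [mem_iff, p23, p24, ← mem_iff]; exact hv
  have hv' := (mem_iff v).mp hv
  have hw' := (mem_iff w).mp hw
  -- fourth factor
  have f3 : stp c v3 3 (w 3) = 1 := by
    rcases h3 with h | h | h
    · rw [h, ← p33]; exact B09.stp_self c v3 3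
    · have hval : (w 3).val = (v 3).val + 1 := by rw [h]; exact val_add_one' (by omega)
      rw [B09.stp_up (by omega) c v3 3 (by rw [p33]; exact h)]
      refine hb.b3 v3 ?_
      rw [ec3_mem_iff, p33, p34]
      rcases hside with ⟨a, b⟩ | ⟨a, b⟩ | ⟨a, b⟩ | ⟨a, b⟩
      · rw [a, b] at hval; simp at hval
      · rw [a, b] at hval; omega
      · rw [a]; simp; omega
      · rw [a, val3]; omega
    · have hval : (v 3).val = (w 3).val + 1 := by rw [h]; exact val_add_one' (by omega)
      rw [B09.stp_down (by omega) c v3 3 (by rw [p33]; exact h), inv_eq_one]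
      refine hb.b3 _ ?_
      rw [ec3_mem_iff]
      change 2 * (v4 3).val + 1 ≤ 2 * A ∧ (v4 4).val ≤ 3 ∧
        ¬ (2 * (v4 3).val + 1 < 2 * A ∧ 0 < (v4 4).val ∧ (v4 4).val < 3)
      rw [p43, p44]
      rcases hside with ⟨a, b⟩ | ⟨a, b⟩ | ⟨a, b⟩ | ⟨a, b⟩
      · rw [a, b] at hval; simp at hval
      · rw [a, b] at hval; omega
      · rw [a]; simp; omega
      · rw [a, val3]; omega
  -- fifth factor
  have f4 : stp c v4 4 (w 4) = 1 := by
    rcases h4 with h | h | h
    · rw [h, ← p44]; exact B09.stp_self c v4 4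
    · have hval : (w 4).val = (v 4).val + 1 := by rw [h]; exact val_add_one' (by omega)
      rw [B09.stp_up (by omega) c v4 4 (by rw [p44]; exact h), hb.b4 v4 ?_, ite_self]
      rw [ec4_mem_iff, p43, p44]
      rcases hside with ⟨a, b⟩ | ⟨a, b⟩ | ⟨a, b⟩ | ⟨a, b⟩
      · rw [b]; simp; omega
      · rw [b, valA]; omega
      · rw [a, b] at hval; simp at hval
      · rw [a, b] at hval; omega
    · have hval : (v 4).val = (w 4).val + 1 := by rw [h]; exact val_add_one' (by omega)
      rw [B09.stp_down (by omega) c v4 4 (by rw [p44]; exact h), inv_eq_one, hb.b4 _ ?_, ite_self]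
      rw [ec4_mem_iff, Function.update_self, Function.update_of_ne (by decide), p43]
      rcases hside with ⟨a, b⟩ | ⟨a, b⟩ | ⟨a, b⟩ | ⟨a, b⟩
      · rw [b]; simp; omega
      · rw [b, valA]; omega
      · rw [a, b] at hval; simp at hval
      · rw [a, b] at hval; omega
  -- the projected side
  have q0 : (prC w) 0 = w 0 := by simp [prC]
  have q1 : (prC w) 1 = w 1 := by simp [prC]
  have q2 : (prC w) 2 = w 2 := by simp [prC]
  have q3 : (prC w) 3 = 0 := by simp [prC]
  have q4 : (prC w) 4 = 0 := by simp [prC]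
  have u1 : Function.update (prC v) 0 (w 0) = prC v1 := by
    funext i
    fin_cases i <;> simp [prC, hv1, Function.update]
  have u2 : Function.update (prC v1) 1 (w 1) = prC v2 := by
    funext i
    fin_cases i <;> simp [prC, hv2, Function.update]
  have u3 : Function.update (prC v2) 2 (w 2) = prC v3 := by
    funext i
    fin_cases i <;> simp [prC, hv3, Function.update]
  have r3 : (prC v3) 3 = 0 := by simp [prC]
  have r4 : (prC v3) 4 = 0 := by simp [prC]
  have lhs : ell c v w = stp c v 0 (w 0) * stp c v1 1 (w 1) * stp c v2 2 (w 2) *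
    stp c v3 3 (w 3) * stp c v4 4 (w 4) := rfl
  have rhs : ell c (prC v) (prC w) = stp c (prC v) 0 (w 0) * stp c (prC v1) 1 (w 1) *
      stp c (prC v2) 2 (w 2) := by
    unfold ell
    simp only [q0, q1, q2, q3, q4]
    rw [u1, u2, u3]
    have s3 : stp c (prC v3) 3 0 = 1 := by
      have := B09.stp_self c (prC v3) 3
      rwa [r3] at this
    have s4 : Function.update (prC v3) 3 0 = prC v3 := by
      conv_lhs => rw [← r3]
      exact Function.update_eq_self _ _
    have s5 : stp c (prC v3) 4 0 = 1 := by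
      have := B09.stp_self c (prC v3) 4
      rwa [r4] at this
    rw [s3, s4, s5, mul_one, mul_one]
  rw [lhs, rhs, f3, f4, mul_one, mul_one, stp_prC hA1 0 (by decide) (by decide) hb.b0 hv,
    stp_prC hA1 1 (by decide) (by decide) hb.b1 m1, stp_prC hA1 2 (by decide) (by decide) hb.b2 m2]

end Pool.Agent.FM
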