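import Pool.Agent.FM.Defs3
import Pool.Agent.FM.B09
import Pool.Agent.FM.C16a
import Pool.Agent.FM.C16b

/-!
# The reference hypersurface has property LS4
-/

open Set Topology

namespace Pool.Agent.FM

namespace C16

theorem const_of_close {β : Type*} (f : unitInterval → β) {δ : ℝ} (hδ : 0 < δ)
    (h : ∀ s t, dist s t < δ → f s = f t) : ∀ s t, f s = f t := by
  have h1 : IsLocallyConstant f := (IsLocallyConstant.iff_eventually_eq f).2 fun x =>
    Metric.eventually_nhds_iff.2 ⟨δ, hδ, fun y hy => h y x hy⟩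
  intro s t
  exact h1.apply_eq_of_preconnectedSpace s t

theorem dichotomy {g : unitInterval → ℝ} (hg : Continuous g) {c : ℝ} (h : ∀ t, g t ≠ c) :
    (∀ t, c < g t) ∨ (∀ t, g t < c) := by
  by_contra hcon
  push Not at hcon
  obtain ⟨⟨s, hs⟩, ⟨t, ht⟩⟩ := hcon
  obtain ⟨u, hu⟩ := mem_range_of_exists_le_of_exists_ge hg ⟨s, hs⟩ ⟨t, ht⟩
  exact h u hu

theorem uniform {Y : Type*} [PseudoMetricSpace Y] {x y : Y} (γ : Path x y) :
    ∃ δ > 0, ∀ s t : unitInterval, dist s t < δ → dist (γ s) (γ t) < 1 / 20 := by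
  have h := CompactSpace.uniformContinuous_of_continuous γ.continuous
  rw [Metric.uniformContinuous_iff] at h
  obtain ⟨δ, hδ, h⟩ := h (1 / 20) (by norm_num)
  exact ⟨δ, hδ, fun s t hst => h hst⟩

/-- potential from a fixed cell -/
theorem pot_cell {n : ℕ} [NeZero n] (hn : 3 ≤ n) {G : Type} [Group G] {L : Set (Cell n)}
    (hL : IsCx L) {c : Vx n → Fin 5 → G} (hc : Flat L c) {Y : Type} {γ : unitInterval → Y}
    {m : Y → Y → G} (κ : Y → Vx n) {a : Cell n} (ha : a ∈ L) (hv : ∀ t, Face (vc (κ (γ t))) a)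
    {δ : ℝ} (hδ : 0 < δ)
    (hm : ∀ s t, dist s t < δ → m (γ s) (γ t) = ell c (κ (γ s)) (κ (γ t))) :
    ∃ φ : unitInterval → G, Pot m γ φ ∧ (φ 0)⁻¹ * φ 1 = ell c (κ (γ 0)) (κ (γ 1)) := by
  refine ⟨fun t => ell c (κ (γ 0)) (κ (γ t)), ⟨δ, hδ, fun s t hst => ?_⟩, ?_⟩
  · show _ = _ * _
    rw [hm s t hst, ell_cell hn hL hc ha (hv 0) (hv s) (hv t)]
  · show (ell c (κ (γ 0)) (κ (γ 0)))⁻¹ * ell c (κ (γ 0)) (κ (γ 1)) = _
    have h := ell_cell hn hL hc ha (hv 0) (hv 0) (hv 0)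
    have h1 : ell c (κ (γ 0)) (κ (γ 0)) = 1 := by simpa using h
    rw [h1, inv_one, one_mul]

section main

set_option linter.unusedSectionVars false

variable {n : ℕ} [NeZero n] {A : ℕ}

/-- a coordinate along a path: constant cell or constant nearest vertex -/
theorem coord {K : Set (Cell n)} {x y : X K} (γ : Path x y) {δ : ℝ} (hδ : 0 < δ)
    (hcl : ∀ s t : unitInterval, dist s t < δ → dist (γ s) (γ t) < 1 / 20) (k : Fin 4) (i : Fin 5)
    (h : ∀ t, dl ((γ t).1 i) ≠ th k) :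
    ∃ a : C1 n, (∀ t, Face1 (kap ((γ t).1 i), false) a) ∧ Face1 a (lo 1 ((γ 0).1 i)) := by
  have hcont : Continuous fun t => dl ((γ t).1 i) :=
    continuous_dl.comp ((continuous_apply i).comp (continuous_subtype_val.comp γ.continuous))
  have hb := th_bounds k
  have hcl' : ∀ s t : unitInterval, dist s t < δ → dist ((γ s).1 i) ((γ t).1 i) < 1 / 20 := by
    intro s t hst
    refine lt_of_le_of_lt (dist_le_pi_dist (γ s).1 (γ t).1 i) ?_
    exact hcl s t hst
  rcases dichotomy hcont h with h1 | h1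
  · have hc := const_of_close (fun t => lo 1 ((γ t).1 i)) hδ fun s t hst =>
      lo_eq_of_close (by linarith [h1 s]) (by linarith [h1 t]) (hcl' s t hst)
    refine ⟨lo 1 ((γ 0).1 i), fun t => ?_, Face1.refl _⟩
    have := hc 0 t
    rw [this]
    exact kap_vertex (γ t).1 i
  · have hc := const_of_close (fun t => kap ((γ t).1 i)) hδ fun s t hst =>
      kap_eq_of_close (by linarith [h1 s]) (by linarith [h1 t]) (hcl' s t hst)
    refine ⟨(kap ((γ 0).1 i), false), fun t => ?_, kap_vertex (γ 0).1 i⟩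
    have := hc 0 t
    rw [this]
    exact Face1.refl _

/-- boundary vertices -/
theorem mem_KO_vc {v : Vx n} (h : v 3 = 0 ∨ v 3 = (A : ZMod n) ∨ v 4 = 0 ∨ v 4 = 3) (hA : A < n)
    (hn : 5 ≤ n) : vc v ∈ KO n A := by
  unfold KO
  simp only [mem_setOf_eq, vc, dbl, Bool.toNat_false, add_zero]
  rintro ⟨h1, h2, h3, h4⟩
  rcases h with h | h | h | h
  · rw [h, ZMod.val_zero] at h1; omega
  · rw [h, ZMod.val_natCast, Nat.mod_eq_of_lt hA] at h2; omega
  · rw [h, ZMod.val_zero] at h3; omega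
  · have h5 : (3 : ZMod n) = ((3 : ℕ) : ZMod n) := by norm_cast
    rw [h, h5, ZMod.val_natCast, Nat.mod_eq_of_lt (by omega)] at h4; omega

/-- the sides near which a point with small `rh` lies -/
theorem side_of_rh {q : Tor n} {r : ℝ} (h : rh A q < r) :
    (dist (q 3) (vp 0) < r ∨ dist (q 3) (vp (A : ZMod n)) < r) ∨
      (dist (q 4) (vp 0) < r ∨ dist (q 4) (vp (3 : ZMod n)) < r) := by
  unfold rh at h
  simpa only [min_lt_iff] using h

theorem kap_side {q q' : Tor n} {r : ℝ} (hr : r ≤ 7 / 5) (h : rh A q < r)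
    (hd : dist q q' < 1 / 20) :
    (kap (q 3) = 0 ∧ kap (q' 3) = 0) ∨ (kap (q 3) = (A : ZMod n) ∧ kap (q' 3) = (A : ZMod n)) ∨
      (kap (q 4) = 0 ∧ kap (q' 4) = 0) ∨ (kap (q 4) = 3 ∧ kap (q' 4) = 3) := by
  have key : ∀ (i : Fin 5) (a : ZMod n), dist (q i) (vp a) < r → kap (q i) = a ∧ kap (q' i) = a := by
    intro i a hi
    refine ⟨kap_of_dist (by linarith), kap_of_dist ?_⟩
    have h1 := dist_triangle (q' i) (q i) (vp a)
    have h2 : dist (q' i) (q i) ≤ dist q q' := by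
      rw [dist_comm]; exact dist_le_pi_dist q q' i
    linarith
  rcases side_of_rh h with (h | h) | (h | h)
  · exact Or.inl (key _ _ h)
  · exact Or.inr (Or.inl (key _ _ h))
  · exact Or.inr (Or.inr (Or.inl (key _ _ h)))
  · exact Or.inr (Or.inr (Or.inr (key _ _ h)))

theorem adj_kap {q q' : Tor n} (hd : dist q q' < 1 / 20) (i : Fin 5) :
    AdjZ (kap (q i)) (kap (q' i)) := by
  have h1 : Face1 (kap (q i), false) (lo 1 (q i)) := kap_vertex q i
  have h2 : Face1 (kap (q' i), false) (lo 1 (q i)) :=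
    B09.kap_aux' (lt_of_le_of_lt (dist_le_pi_dist q q' i) (by linarith))
  rcases B09.cv_of_face1 h1 with h1 | ⟨_, h1⟩ <;> rcases B09.cv_of_face1 h2 with h2 | ⟨_, h2⟩
  · left; rw [h1, h2]
  · right; left; rw [h1, h2]
  · right; right; rw [h1, h2]
  · left; rw [h1, h2]

end main

theorem exists_pot {n : ℕ} [NeZero n] {A : ℕ} (hn : 5 ≤ n) (hA1 : 1 ≤ A) (hA : A + 3 ≤ n)
    {K : Set (Cell n)} (hK : IsCx K) (hKO : KO n A ⊆ K) {G : Type} [Group G]
    {c : Vx n → Fin 5 → G}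
    (hc : Flat (K ∩ PC n A) c) {x0 x1 z : G} (hb : BdLab n A c x0 x1 z 1) (k : Fin 4)
    {x y : X K} (γ : Path x y) (hγ : ∀ t, γ t ∈ UU K A k) :
    ∃ φ : unitInterval → G, Pot (fun a b : X K => mOf c a b) γ φ ∧
      (φ 0)⁻¹ * φ 1 = (open Classical in if rh A x.1 < th k then
        ell c (prC (Kap x.1)) (prC (Kap y.1)) else ell c (Kap x.1) (Kap y.1)) := by
  obtain ⟨δ, hδ, hcl⟩ := uniform γ
  have hb' := th_bounds k
  have hPC := isCx_PC hA hn
  have hL : IsCx (K ∩ PC n A) := fun a ha b hb => ⟨hK a ha.1 b hb, hPC a ha.2 b hb⟩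
  have hLo : ∀ q : X K, Lo 1 q.1 ∈ K ∩ PC n A := fun q => ⟨q.2.1, Lo_PC hn hA hKO q.2⟩
  have hrc : Continuous fun t => rh A (γ t).1 :=
    (continuous_rh A).comp (continuous_subtype_val.comp γ.continuous)
  have hx : γ 0 = x := γ.source
  have hy : γ 1 = y := γ.target
  rcases dichotomy hrc (fun t => rh_ne (hγ t)) with h1 | h1
  · -- first regime
    have hd : ∀ i t, dl ((γ t).1 i) ≠ th k := by
      intro i t he
      have h2 := dh_ne (hγ t) i
      apply h2
      unfold dh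
      split_ifs
      · rw [he, min_eq_left (h1 t).le]
      · exact he
    choose a ha1 ha2 using fun i => coord γ hδ hcl k i (hd i)
    obtain ⟨φ, hφ, hφ2⟩ := pot_cell (by omega) hL hc (γ := γ)
      (m := fun a b : X K => mOf c a b) (fun q : X K => Kap q.1) (a := a)
      (hL _ (hLo (γ 0)) a ha2) (fun t i => ha1 i t) hδ (fun s t _ => rfl)
    refine ⟨φ, hφ, ?_⟩
    rw [hφ2, hx, hy, if_neg]
    have := h1 0
    rw [hx] at this
    exact not_lt.mpr this.le
  · -- second regime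
    have hd : ∀ i, i ≠ 3 → i ≠ 4 → ∀ t, dl ((γ t).1 i) ≠ th k := by
      intro i h3 h4 t he
      have h2 := dh_ne (hγ t) i
      apply h2
      unfold dh
      rw [if_neg (by tauto)]
      exact he
    have hex : ∀ i : Fin 5, ∃ a : C1 n, (∀ t, Face1 (prC (Kap (γ t).1) i, false) a) ∧
        (i ≠ 3 → i ≠ 4 → Face1 a (lo 1 ((γ 0).1 i))) ∧ (i = 3 ∨ i = 4 → a = (0, false)) := by
      intro i
      by_cases h3 : i = 3 ∨ i = 4
      · refine ⟨(0, false), fun t => ?_, fun h4 h5 => ?_, fun _ => rfl⟩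
        · simp only [prC, h3, if_true]
          exact Face1.refl _
        · tauto
      · have h4 : i ≠ 3 := fun h => h3 (Or.inl h)
        have h5 : i ≠ 4 := fun h => h3 (Or.inr h)
        obtain ⟨a, ha1, ha2⟩ := coord γ hδ hcl k i (hd i h4 h5)
        refine ⟨a, fun t => ?_, fun _ _ => ha2, fun h => absurd h h3⟩
        simp only [prC, h3, if_false]
        exact ha1 t
    choose a ha1 ha2 ha3 using hex
    have haKO : a ∈ KO n A := by
      unfold KO
      simp only [mem_setOf_eq]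
      rintro ⟨h2, _⟩
      rw [ha3 3 (Or.inl rfl)] at h2
      simp [dbl] at h2
    have haPC : a ∈ PC n A := by
      unfold PC
      simp only [mem_setOf_eq]
      rw [ha3 3 (Or.inl rfl), ha3 4 (Or.inr rfl)]
      simp [dbl]
    have hKap : ∀ t, vc (Kap (γ t).1) ∈ KO n A ∩ PC n A := by
      intro t
      refine ⟨mem_KO_vc ?_ (by omega) hn, hPC _ (hLo (γ t)).2 _ (kap_vertex _)⟩
      rcases kap_side hb'.2 (h1 t) (q' := (γ t).1) (by rw [dist_self]; norm_num) with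
        h | h | h | h
      · exact Or.inl h.1
      · exact Or.inr (Or.inl h.1)
      · exact Or.inr (Or.inr (Or.inl h.1))
      · exact Or.inr (Or.inr (Or.inr h.1))
    obtain ⟨φ, hφ, hφ2⟩ := pot_cell (by omega) hL hc (γ := γ)
      (m := fun a b : X K => mOf c a b) (fun q : X K => prC (Kap q.1)) (a := a)
      ⟨hKO haKO, haPC⟩ (fun t i => ha1 i t) hδ (fun s t hst => ell_prC hn hA1 hA hb (hKap s)
        (hKap t) (kap_side hb'.2 (h1 s) (hcl s t hst)) (adj_kap (hcl s t hst) 3)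
        (adj_kap (hcl s t hst) 4))
    refine ⟨φ, hφ, ?_⟩
    rw [hφ2, hx, hy, if_pos]
    have := h1 0
    rw [hx] at this
    exact this

end C16

open C16

theorem ls4_of_trivial {n : ℕ} [NeZero n] {A : ℕ} (hn : 5 ≤ n) (hA1 : 1 ≤ A) (hA : A + 3 ≤ n)
    {K : Set (Cell n)} (hK : IsCx K) (hKO : KO n A ⊆ K)
    (hthin : ∀ a ∈ K, a ∉ KO n A → dimC a ≤ 2) {G : Type} [Group G] {c : Vx n → Fin 5 → G}
    (hc : Flat (K ∩ PC n A) c) {x0 x1 z : G} (hb : BdLab n A c x0 x1 z 1)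
    (huniq : ∀ (x y : X K) (γ γ' : Path x y) (φ φ' : unitInterval → G),
      Pot (fun a b : X K => mOf c a b) γ φ → Pot (fun a b : X K => mOf c a b) γ' φ' →
      (φ 0)⁻¹ * φ 1 = (φ' 0)⁻¹ * φ' 1 → γ.Homotopic γ') : LS4 (X K) := by
  refine ⟨UU K A, isOpen_UU K A, iUnion_UU hn hA hKO hthin, ?_⟩
  intro k x y γ γ' h h'
  obtain ⟨φ, hφ, e⟩ := exists_pot hn hA1 hA hK hKO hc hb k γ h
  obtain ⟨φ', hφ', e'⟩ := exists_pot hn hA1 hA hK hKO hc hb k γ' h'
  exact huniq x y γ γ' φ φ' hφ hφ' (e.trans e'.symm)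

end Pool.Agent.FM
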