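import Pool.Agent.FM.Defs2

/-!
# Further definitions: equivalence of configurations, boundary labels, cup product data
-/

open Set Topology

namespace Pool.Agent.FM

/-- duplication of the time `t0` in a configuration -/
def Cfg.str (c : Cfg) (t0 : ℕ) : Cfg where
  m := c.m
  T := c.T + 1
  J1 := c.J1
  J2 := c.J2
  f := fun t => c.f (if t ≤ t0 then t else t - 1)
  g := fun t => c.g (if t ≤ t0 then t else t - 1)

/-- two configurations have homeomorphic hypersurfaces, for all sufficiently fine tori -/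
def CE (c c' : Cfg) : Prop :=
  ∀ (n n' : ℕ) [NeZero n] [NeZero n'], c.T + 3 ≤ n → 2 * c.m + 5 ≤ n → c'.T + 3 ≤ n' →
    2 * c'.m + 5 ≤ n' → HEq' (c.K false n) (c'.K false n')

/-- labels on the boundary of the rectangle: `x0`, `x1`, `z` on the wrap edges of the first three
directions, `γ` on the edge from `(A, 1)` to `(A, 2)`, trivial labels on the other edges -/
structure BdLab (n A : ℕ) {G : Type} [Group G] (c : Vx n → Fin 5 → G) (x0 x1 z γ : G) : Prop where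
  b0 : ∀ v, vc v ∈ KO n A ∩ PC n A → c v 0 = if v 0 + 1 = 0 then x0 else 1
  b1 : ∀ v, vc v ∈ KO n A ∩ PC n A → c v 1 = if v 1 + 1 = 0 then x1 else 1
  b2 : ∀ v, vc v ∈ KO n A ∩ PC n A → c v 2 = if v 2 + 1 = 0 then z else 1
  b3 : ∀ v, ec v 3 ∈ KO n A ∩ PC n A → c v 3 = 1
  b4 : ∀ v, ec v 4 ∈ KO n A ∩ PC n A → c v 4 = if v 3 = (A : ZMod n) ∧ v 4 = 1 then γ else 1

/-- a product of four crossed homomorphisms which does not vanish on the torus
`x0, x1, γ, z` -/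
def HasCup (G : Type) [Group G] (x0 x1 γ z : G) : Prop :=
  ∃ (M0 M1 M2 M3 : Type) (_ : AddCommGroup M0) (_ : AddCommGroup M1) (_ : AddCommGroup M2)
    (_ : AddCommGroup M3) (_ : DistribMulAction G M0) (_ : DistribMulAction G M1)
    (_ : DistribMulAction G M2) (_ : DistribMulAction G M3)
    (Φ : M0 →+ M1 →+ M2 →+ M3 →+ ZMod 2) (α0 : G → M0) (α1 : G → M1) (α2 : G → M2) (α3 : G → M3),
    (∀ (g : G) a b c d, Φ (g • a) (g • b) (g • c) (g • d) = Φ a b c d) ∧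
    (∀ g h, α0 (g * h) = α0 g + g • α0 h) ∧ (∀ g h, α1 (g * h) = α1 g + g • α1 h) ∧
    (∀ g h, α2 (g * h) = α2 g + g • α2 h) ∧ (∀ g h, α3 (g * h) = α3 g + g • α3 h) ∧
    (α0 x1 = 0 ∧ α0 γ = 0 ∧ α0 z = 0) ∧ (α1 x0 = 0 ∧ α1 γ = 0 ∧ α1 z = 0) ∧
    (α2 x0 = 0 ∧ α2 x1 = 0 ∧ α2 z = 0) ∧ (α3 x0 = 0 ∧ α3 x1 = 0 ∧ α3 γ = 0) ∧
    Φ (α0 x0) (x0 • α1 x1) ((x0 * x1) • α2 γ) ((x0 * x1 * γ) • α3 z) = 1

/-- the facets of the fine lattice (with the order of the directions) on the torus over the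
boundary of the rectangle -/
def TF (n μ A : ℕ) : Set ((Fin 5 → ZMod (3 * n * μ)) × Equiv.Perm (Fin 5)) :=
  {p | (p.2 0 = 3 ∧ ((p.1 3).val = 0 ∨ (p.1 3).val = 3 * A * μ) ∧ (p.1 4).val < 9 * μ) ∨
    (p.2 0 = 4 ∧ ((p.1 4).val = 0 ∨ (p.1 4).val = 9 * μ) ∧ (p.1 3).val < 3 * A * μ)}

end Pool.Agent.FM
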