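import Pool.Agent.FM.N01
import Pool.Agent.FM.Defs3

/-!
# Algebra of the cup product and of the Kuhn lattice
-/

open Set

namespace Pool.Agent.FM

theorem cup_boundary {G : Type} [Group G] {M0 M1 M2 M3 : Type} [AddCommGroup M0] [AddCommGroup M1]
    [AddCommGroup M2] [AddCommGroup M3] [DistribMulAction G M0] [DistribMulAction G M1]
    [DistribMulAction G M2] [DistribMulAction G M3] {P : Type} (Φ : M0 →+ M1 →+ M2 →+ M3 →+ ZMod 2)
    (hΦ : ∀ (g : G) a b c d, Φ (g • a) (g • b) (g • c) (g • d) = Φ a b c d) (m : P → P → G)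
    (a0 : P → P → M0) (a1 : P → P → M1) (a2 : P → P → M2) (a3 : P → P → M3) (p : Fin 6 → P)
    (hm : ∀ i j k, i ≤ j → j ≤ k → m (p i) (p j) * m (p j) (p k) = m (p i) (p k))
    (h0 : ∀ i j k, i ≤ j → j ≤ k → a0 (p i) (p k) = a0 (p i) (p j) + m (p i) (p j) • a0 (p j) (p k))
    (h1 : ∀ i j k, i ≤ j → j ≤ k → a1 (p i) (p k) = a1 (p i) (p j) + m (p i) (p j) • a1 (p j) (p k))
    (h2 : ∀ i j k, i ≤ j → j ≤ k → a2 (p i) (p k) = a2 (p i) (p j) + m (p i) (p j) • a2 (p j) (p k))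
    (h3 : ∀ i j k, i ≤ j → j ≤ k →
      a3 (p i) (p k) = a3 (p i) (p j) + m (p i) (p j) • a3 (p j) (p k)) :
    ∑ j : Fin 6, cup Φ m a0 a1 a2 a3 (fun i => p (j.succAbove i)) = 0 := by
  let f : P → P → P → P → P → ZMod 2 := fun q0 q1 q2 q3 q4 =>
    Φ (a0 q0 q1) (m q0 q1 • a1 q1 q2) (m q0 q2 • a2 q2 q3) (m q0 q3 • a3 q3 q4)
  have f0 : cup Φ m a0 a1 a2 a3 (fun i => p ((0 : Fin 6).succAbove i)) =
    f (p 1) (p 2) (p 3) (p 4) (p 5) := rfl
  have f1 : cup Φ m a0 a1 a2 a3 (fun i => p ((1 : Fin 6).succAbove i)) =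
    f (p 0) (p 2) (p 3) (p 4) (p 5) := rfl
  have f2 : cup Φ m a0 a1 a2 a3 (fun i => p ((2 : Fin 6).succAbove i)) =
    f (p 0) (p 1) (p 3) (p 4) (p 5) := rfl
  have f3 : cup Φ m a0 a1 a2 a3 (fun i => p ((3 : Fin 6).succAbove i)) =
    f (p 0) (p 1) (p 2) (p 4) (p 5) := rfl
  have f4 : cup Φ m a0 a1 a2 a3 (fun i => p ((4 : Fin 6).succAbove i)) =
    f (p 0) (p 1) (p 2) (p 3) (p 5) := rfl
  have f5 : cup Φ m a0 a1 a2 a3 (fun i => p ((5 : Fin 6).succAbove i)) =
    f (p 0) (p 1) (p 2) (p 3) (p 4) := rfl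
  rw [Fin.sum_univ_six, f0, f1, f2, f3, f4, f5]
  have m012 := hm 0 1 2 (by decide) (by decide)
  have m013 := hm 0 1 3 (by decide) (by decide)
  have m014 := hm 0 1 4 (by decide) (by decide)
  have m023 := hm 0 2 3 (by decide) (by decide)
  have m034 := hm 0 3 4 (by decide) (by decide)
  have e0 : f (p 1) (p 2) (p 3) (p 4) (p 5) = Φ (m (p 0) (p 1) • a0 (p 1) (p 2))
      (m (p 0) (p 2) • a1 (p 2) (p 3)) (m (p 0) (p 3) • a2 (p 3) (p 4))
      (m (p 0) (p 4) • a3 (p 4) (p 5)) := by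
    show Φ _ _ _ _ = _
    rw [← hΦ (m (p 0) (p 1)), smul_smul, smul_smul, smul_smul, m012, m013, m014]
  rw [e0]
  simp only [f]
  rw [h0 0 1 2 (by decide) (by decide), h1 1 2 3 (by decide) (by decide),
    h2 2 3 4 (by decide) (by decide), h3 3 4 5 (by decide) (by decide)]
  simp only [smul_add, map_add, AddMonoidHom.add_apply, smul_smul, m012, m023, m034]
  ring_nf
  reduce_mod_char

theorem modif_cocycle {G : Type} [Group G] {P M : Type} [AddCommGroup M] [DistribMulAction G M]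
    (m : P → P → G) (α : G → M) (hα : ∀ g h, α (g * h) = α g + g • α h) (f : P → M) (x y z : P)
    (h : m x y * m y z = m x z) :
    modif m α f x z = modif m α f x y + m x y • modif m α f y z := by
  unfold modif
  rw [← h, hα, smul_sub, smul_add, smul_smul]
  abel

open N01 in
theorem kuhn_sum {N : ℕ} [NeZero N] (C : Set (Fin 5 → ZMod N)) [DecidablePred (· ∈ C)]
    (D : (Fin 5 → (Fin 5 → ZMod N)) → ZMod 2)
    (hD : ∀ q ∈ C, ∀ σ, ∑ j : Fin 6, D (fun i => simp5 q σ (j.succAbove i)) = 0) :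
    ∑ q : Fin 5 → ZMod N, ∑ σ : Equiv.Perm (Fin 5),
      ((if q ∈ C then 1 else 0) + (if shi q (σ 0) ∈ C then 1 else 0)) * D (simp4 q σ) = 0 := by
  -- the inner faces cancel
  have inner : ∀ (q : Fin 5 → ZMod N) (j : Fin 6), j ≠ 0 → j ≠ 5 →
      ∑ σ : Equiv.Perm (Fin 5), D (fun i => simp5 q σ (j.succAbove i)) = 0 := by
    intro q j hj0 hj5
    fin_cases j
    · exact absurd rfl hj0
    · refine sum_perm_zero _ 0 1 (by decide) fun (σ : Equiv.Perm (Fin 5)) => ?_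
      have a0 : (σ * Equiv.swap (0 : Fin 5) 1 : Equiv.Perm (Fin 5)) 0 = σ 1 := by simp
      have a1 : (σ * Equiv.swap (0 : Fin 5) 1 : Equiv.Perm (Fin 5)) 1 = σ 0 := by simp
      have a2 : (σ * Equiv.swap (0 : Fin 5) 1 : Equiv.Perm (Fin 5)) 2 = σ 2 := by
        rw [Equiv.Perm.mul_apply, Equiv.swap_apply_of_ne_of_ne (by decide) (by decide)]
      have a3 : (σ * Equiv.swap (0 : Fin 5) 1 : Equiv.Perm (Fin 5)) 3 = σ 3 := by
        rw [Equiv.Perm.mul_apply, Equiv.swap_apply_of_ne_of_ne (by decide) (by decide)]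
      have a4 : (σ * Equiv.swap (0 : Fin 5) 1 : Equiv.Perm (Fin 5)) 4 = σ 4 := by
        rw [Equiv.Perm.mul_apply, Equiv.swap_apply_of_ne_of_ne (by decide) (by decide)]
      congr 1
      funext i
      have hc := sh_comm (v := q) (i := σ 1) (j := σ 0) (ne_of (by decide))
      fin_cases i <;> simp [simp5, Fin.succAbove, a0, a1, a2, a3, a4, hc]
    · refine sum_perm_zero _ 1 2 (by decide) fun (σ : Equiv.Perm (Fin 5)) => ?_
      have a0 : (σ * Equiv.swap (1 : Fin 5) 2 : Equiv.Perm (Fin 5)) 0 = σ 0 := by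
        rw [Equiv.Perm.mul_apply, Equiv.swap_apply_of_ne_of_ne (by decide) (by decide)]
      have a1 : (σ * Equiv.swap (1 : Fin 5) 2 : Equiv.Perm (Fin 5)) 1 = σ 2 := by simp
      have a2 : (σ * Equiv.swap (1 : Fin 5) 2 : Equiv.Perm (Fin 5)) 2 = σ 1 := by simp
      have a3 : (σ * Equiv.swap (1 : Fin 5) 2 : Equiv.Perm (Fin 5)) 3 = σ 3 := by
        rw [Equiv.Perm.mul_apply, Equiv.swap_apply_of_ne_of_ne (by decide) (by decide)]
      have a4 : (σ * Equiv.swap (1 : Fin 5) 2 : Equiv.Perm (Fin 5)) 4 = σ 4 := by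
        rw [Equiv.Perm.mul_apply, Equiv.swap_apply_of_ne_of_ne (by decide) (by decide)]
      congr 1
      funext i
      have hc := sh_comm (v := sh q (σ 0)) (i := σ 2) (j := σ 1) (ne_of (by decide))
      fin_cases i <;> simp [simp5, Fin.succAbove, a0, a1, a2, a3, a4, hc]
    · refine sum_perm_zero _ 2 3 (by decide) fun (σ : Equiv.Perm (Fin 5)) => ?_
      have a0 : (σ * Equiv.swap (2 : Fin 5) 3 : Equiv.Perm (Fin 5)) 0 = σ 0 := by
        rw [Equiv.Perm.mul_apply, Equiv.swap_apply_of_ne_of_ne (by decide) (by decide)]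
      have a1 : (σ * Equiv.swap (2 : Fin 5) 3 : Equiv.Perm (Fin 5)) 1 = σ 1 := by
        rw [Equiv.Perm.mul_apply, Equiv.swap_apply_of_ne_of_ne (by decide) (by decide)]
      have a2 : (σ * Equiv.swap (2 : Fin 5) 3 : Equiv.Perm (Fin 5)) 2 = σ 3 := by simp
      have a3 : (σ * Equiv.swap (2 : Fin 5) 3 : Equiv.Perm (Fin 5)) 3 = σ 2 := by simp
      have a4 : (σ * Equiv.swap (2 : Fin 5) 3 : Equiv.Perm (Fin 5)) 4 = σ 4 := by
        rw [Equiv.Perm.mul_apply, Equiv.swap_apply_of_ne_of_ne (by decide) (by decide)]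
      congr 1
      funext i
      have hc := sh_comm (v := sh (sh q (σ 0)) (σ 1)) (i := σ 3) (j := σ 2) (ne_of (by decide))
      fin_cases i <;> simp [simp5, Fin.succAbove, a0, a1, a2, a3, a4, hc]
    · refine sum_perm_zero _ 3 4 (by decide) fun (σ : Equiv.Perm (Fin 5)) => ?_
      have a0 : (σ * Equiv.swap (3 : Fin 5) 4 : Equiv.Perm (Fin 5)) 0 = σ 0 := by
        rw [Equiv.Perm.mul_apply, Equiv.swap_apply_of_ne_of_ne (by decide) (by decide)]
      have a1 : (σ * Equiv.swap (3 : Fin 5) 4 : Equiv.Perm (Fin 5)) 1 = σ 1 := by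
        rw [Equiv.Perm.mul_apply, Equiv.swap_apply_of_ne_of_ne (by decide) (by decide)]
      have a2 : (σ * Equiv.swap (3 : Fin 5) 4 : Equiv.Perm (Fin 5)) 2 = σ 2 := by
        rw [Equiv.Perm.mul_apply, Equiv.swap_apply_of_ne_of_ne (by decide) (by decide)]
      have a3 : (σ * Equiv.swap (3 : Fin 5) 4 : Equiv.Perm (Fin 5)) 3 = σ 4 := by simp
      have a4 : (σ * Equiv.swap (3 : Fin 5) 4 : Equiv.Perm (Fin 5)) 4 = σ 3 := by simp
      congr 1
      funext i
      have hc := sh_comm (v := sh (sh (sh q (σ 0)) (σ 1)) (σ 2)) (i := σ 4) (j := σ 3) (ne_of (by decide))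
      fin_cases i <;> simp [simp5, Fin.succAbove, a0, a1, a2, a3, a4, hc]
    · exact absurd rfl hj5
  -- the first face
  have first : ∑ q : Fin 5 → ZMod N, ∑ σ : Equiv.Perm (Fin 5),
      (if q ∈ C then 1 else 0) * D (fun i => simp5 q σ ((0 : Fin 6).succAbove i)) =
      ∑ q : Fin 5 → ZMod N, ∑ σ : Equiv.Perm (Fin 5),
        (if shi q (σ 0) ∈ C then 1 else 0) * D (simp4 q σ) := by
    rw [Finset.sum_comm, Finset.sum_comm (s := (Finset.univ : Finset (Fin 5 → ZMod N)))]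
    refine Finset.sum_congr rfl fun σ _ => ?_
    refine Fintype.sum_equiv (shE N (σ 0)) _ _ fun q => ?_
    show _ = (if shi (sh q (σ 0)) (σ 0) ∈ C then 1 else 0) * D (simp4 (sh q (σ 0)) σ)
    rw [shi_sh]
    congr 2
  -- the last face
  have last : ∑ q : Fin 5 → ZMod N, ∑ σ : Equiv.Perm (Fin 5),
      (if q ∈ C then 1 else 0) * D (fun i => simp5 q σ ((5 : Fin 6).succAbove i)) =
      ∑ q : Fin 5 → ZMod N, ∑ σ : Equiv.Perm (Fin 5),
        (if q ∈ C then 1 else 0) * D (simp4 q σ) := by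
    refine Finset.sum_congr rfl fun q _ => ?_
    let ρ : Equiv.Perm (Fin 5) := (Equiv.swap 0 1 * Equiv.swap 1 2 * Equiv.swap 2 3 *
      Equiv.swap 3 4)⁻¹
    have r0 : ρ 0 = 4 := by decide
    have r1 : ρ 1 = 0 := by decide
    have r2 : ρ 2 = 1 := by decide
    have r3 : ρ 3 = 2 := by decide
    have r4 : ρ 4 = 3 := by decide
    refine Fintype.sum_equiv (Equiv.mulRight ρ) _ _ fun σ => ?_
    congr 2
    funext i
    fin_cases i <;>
      simp [simp5, simp4, Fin.succAbove, Equiv.Perm.mul_apply, r1, r2, r3, r4]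
  have tot : ∑ q : Fin 5 → ZMod N, ∑ σ : Equiv.Perm (Fin 5),
      (if q ∈ C then 1 else 0) * ∑ j : Fin 6, D (fun i => simp5 q σ (j.succAbove i)) = 0 := by
    refine Finset.sum_eq_zero fun q _ => Finset.sum_eq_zero fun σ _ => ?_
    by_cases hq : q ∈ C
    · rw [hD q hq σ, mul_zero]
    · rw [if_neg hq, zero_mul]
  have tot2 : ∑ q : Fin 5 → ZMod N, ∑ σ : Equiv.Perm (Fin 5),
      (if q ∈ C then 1 else 0) * ∑ j : Fin 6, D (fun i => simp5 q σ (j.succAbove i)) =
      (∑ q : Fin 5 → ZMod N, ∑ σ : Equiv.Perm (Fin 5),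
      (if q ∈ C then 1 else 0) * D (fun i => simp5 q σ ((0 : Fin 6).succAbove i))) +
      (∑ q : Fin 5 → ZMod N, ∑ σ : Equiv.Perm (Fin 5),
      (if q ∈ C then 1 else 0) * D (fun i => simp5 q σ ((5 : Fin 6).succAbove i))) := by
    rw [← Finset.sum_add_distrib]
    refine Finset.sum_congr rfl fun q _ => ?_
    rw [← Finset.mul_sum, ← Finset.mul_sum, ← Finset.mul_sum, Finset.sum_comm,
      Fin.sum_univ_six, inner q 1 (by decide) (by decide), inner q 2 (by decide) (by decide),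
      inner q 3 (by decide) (by decide), inner q 4 (by decide) (by decide)]
    ring
  rw [tot2, first, last, ← Finset.sum_add_distrib] at tot
  refine Eq.trans (Finset.sum_congr rfl fun q _ => ?_) tot
  rw [← Finset.sum_add_distrib]
  refine Finset.sum_congr rfl fun σ _ => ?_
  ring

end Pool.Agent.FM
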