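import Pool.Agent.FM.N01
import Pool.Agent.FM.Defs3
import Pool.Agent.FM.B05
import Pool.Agent.FM.B06
import Pool.Agent.FM.B08

/-!
# The category condition `LS4` kills the sums of cup products over the hypersurface
-/

open Set Topology

namespace Pool.Agent.FM

namespace N02

/-! ### potentials -/

theorem exists_potential {Y G : Type} [TopologicalSpace Y] [Group G]
    (Θ : ∀ {x y : Y}, Path x y → G)
    (hh : ∀ {x y : Y} (γ γ' : Path x y), γ.Homotopic γ' → Θ γ = Θ γ')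
    (ht : ∀ {x y z : Y} (γ : Path x y) (γ' : Path y z), Θ (γ.trans γ') = Θ γ * Θ γ')
    (U : Set Y)
    (hU : ∀ (x y : Y) (γ γ' : Path x y), (∀ t, γ t ∈ U) → (∀ t, γ' t ∈ U) → γ.Homotopic γ') :
    ∃ b : Y → G, ∀ (x y : Y) (γ : Path x y), (∀ t, γ t ∈ U) → b y = b x * Θ γ := by
  classical
  let S : Y → Set Y := fun x => {y | JoinedIn U y x}
  let base : Y → Y := fun x => if h : (S x).Nonempty then h.some else x
  have hbase : ∀ x, (S x).Nonempty → JoinedIn U (base x) x := by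
    intro x h
    simp only [base, dif_pos h]
    exact h.some_mem
  have hcongr : ∀ x y, S x = S y → (S x).Nonempty → base x = base y := by
    intro x y h hx
    have hy : (S y).Nonempty := h ▸ hx
    simp only [base, dif_pos hx, dif_pos hy]
    congr 1
  let b : Y → G := fun x => if h : (S x).Nonempty then Θ (hbase x h).somePath else 1
  refine ⟨b, fun x y γ hγ => ?_⟩
  have hxy : JoinedIn U x y := ⟨γ, hγ⟩
  have hx : (S x).Nonempty := ⟨x, JoinedIn.refl (by simpa using hγ 0)⟩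
  have hy : (S y).Nonempty := ⟨x, hxy⟩
  have hS : S x = S y := by
    ext z
    exact ⟨fun h => h.trans hxy, fun h => h.trans hxy.symm⟩
  have hb := hcongr x y hS hx
  simp only [b, dif_pos hx, dif_pos hy]
  rw [← ht]
  have key : ∀ (u : Y) (hu : u = base y) (p : Path u y) (_ : ∀ t, p t ∈ U),
      Θ (hbase y hy).somePath = Θ p := by
    intro u hu p hp
    subst hu
    exact hh _ _ (hU _ _ _ _ (hbase y hy).somePath_mem hp)
  refine key _ hb _ fun t => ?_
  have : ((hbase x hx).somePath.trans γ) t ∈ range ((hbase x hx).somePath.trans γ) := ⟨t, rfl⟩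
  rw [Path.trans_range] at this
  rcases this with ⟨s, hs⟩ | ⟨s, hs⟩
  · rw [← hs]; exact (hbase x hx).somePath_mem s
  · rw [← hs]; exact hγ s

/-! ### integer lifts of points of the fine lattice -/

theorem cell1_add (n : ℕ) (m k : ℤ) : B5.cell1 n (m + 3 * n * k) = B5.cell1 n m := by
  unfold B5.cell1
  have h1 : (m + 3 * n * k) % 3 = m % 3 := by
    rw [show m + 3 * (n : ℤ) * k = m + 3 * (n * k) by ring]; omega
  have h2 : (m + 3 * n * k) / 3 = m / 3 + n * k := by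
    rw [show m + 3 * (n : ℤ) * k = m + 3 * (n * k) by ring]; omega
  rw [h1, h2]
  have h3 : (((m / 3 + n * k : ℤ)) : ZMod n) = ((m / 3 : ℤ) : ZMod n) := by
    push_cast; simp
  have h4 : (((m / 3 + n * k + 1 : ℤ)) : ZMod n) = ((m / 3 + 1 : ℤ) : ZMod n) := by
    push_cast; simp
  rw [h3, h4]

theorem lift_diff {N : ℕ} [NeZero N] {a : ZMod N} {u : ℤ} (h : (u : ZMod N) = a) :
    ∃ k : ℤ, u = (a.val : ℤ) + N * k := by
  have : ((u - (a.val : ℤ) : ℤ) : ZMod N) = 0 := by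
    push_cast; rw [h, ZMod.natCast_zmod_val, sub_self]
  rw [ZMod.intCast_zmod_eq_zero_iff_dvd] at this
  obtain ⟨k, hk⟩ := this
  exact ⟨k, by linarith⟩

theorem fcell_lift {n μ : ℕ} [NeZero (3 * n * μ)] (hμ : 0 < μ) {p : Fin 5 → ZMod (3 * n * μ)}
    {u : Fin 5 → ℤ} (h : ∀ i, (u i : ZMod (3 * n * μ)) = p i) :
    fcell n μ p = B5.cel n fun i => u i / μ := by
  funext i
  obtain ⟨k, hk⟩ := lift_diff (h i)
  have hμ' : (μ : ℤ) ≠ 0 := by exact_mod_cast hμ.ne'
  have e : u i / μ = (((p i).val / μ : ℕ) : ℤ) + 3 * n * k := by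
    rw [hk]
    push_cast
    rw [show ((p i).val : ℤ) + 3 * n * μ * k = (p i).val + μ * (3 * n * k) by ring,
      Int.add_mul_ediv_left _ _ hμ']
  show fcell n μ p i = B5.cell1 n (u i / μ)
  rw [e, cell1_add]
  unfold fcell B5.cell1
  simp only
  have a1 : ((((p i).val / μ : ℕ) : ℤ) % 3 = 0) ↔ ((p i).val / μ) % 3 = 0 := by omega
  have a2 : ((((p i).val / μ : ℕ) : ℤ) % 3 = 1) ↔ ((p i).val / μ) % 3 = 1 := by omega
  have a3 : ((((p i).val / μ : ℕ) : ℤ) / 3 : ℤ) = (((p i).val / μ / 3 : ℕ) : ℤ) := by omega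
  simp only [a1, a2, a3]
  rw [Int.cast_add, Int.cast_natCast, Int.cast_one, Nat.cast_add, Nat.cast_one]

theorem fpos_lift {n μ : ℕ} [NeZero (3 * n * μ)] (hμ : 0 < μ) {p : Fin 5 → ZMod (3 * n * μ)}
    {u : Fin 5 → ℤ} (h : ∀ i, (u i : ZMod (3 * n * μ)) = p i) :
    fpos n μ p = pt n fun i => (u i : ℝ) / μ := by
  funext i
  obtain ⟨k, hk⟩ := lift_diff (h i)
  have hμ' : (μ : ℝ) ≠ 0 := by exact_mod_cast hμ.ne'
  show ((((p i).val : ℝ) / μ : ℝ) : Circ n) = (((u i : ℝ) / μ : ℝ) : Circ n)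
  rw [hk]
  push_cast
  have e : (((p i).val : ℝ) + 3 * n * μ * k) / μ = (p i).val / μ + k • (3 * (n : ℝ)) := by
    rw [zsmul_eq_mul]; field_simp
  rw [e, AddCircle.coe_add, AddCircle.coe_zsmul, AddCircle.coe_period, smul_zero, add_zero]

theorem dist_pt_le {n : ℕ} {y y' : Fin 5 → ℝ} {r : ℝ} (hr : 0 ≤ r) (h : ∀ i, |y i - y' i| ≤ r) :
    dist (pt n y) (pt n y') ≤ r := by
  rw [dist_pi_le_iff hr]
  intro i
  show dist ((y i : ℝ) : Circ n) ((y' i : ℝ) : Circ n) ≤ r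
  rw [dist_eq_norm, ← AddCircle.coe_sub]
  refine le_trans ?_ (h i)
  exact QuotientAddGroup.norm_mk_le_norm

theorem isClosed_X {n : ℕ} {K : Set (Cell n)} (hK : IsCx K) : IsClosed (X K) := by
  rw [← isOpen_compl_iff, isOpen_iff_mem_nhds]
  intro q hq
  have hq' : Lo 1 q ∉ K ∨ Hi 1 q ∈ K := by
    by_contra hc
    push Not at hc
    exact hq ⟨hc.1, hc.2⟩
  rcases hq' with h | h
  · filter_upwards [B06.Lo_near (c := 1) (by norm_num) (by norm_num) q] with p hp hpX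
    exact h (hK _ hpX.1 _ hp)
  · filter_upwards [B06.Hi_near (c := 1) (by norm_num) (by norm_num) q] with p hp hpX
    exact hpX.2 (hK _ h _ hp)

/-- the integer points of the simplex: the first `j` directions `σ 1, ..., σ j` are added -/
def sv (u : Fin 5 → ℤ) (σ : Equiv.Perm (Fin 5)) (j : ℕ) : Fin 5 → ℤ :=
  fun i => u i + (if 1 ≤ (σ.symm i : ℕ) ∧ (σ.symm i : ℕ) ≤ j then 1 else 0)

theorem sv_zero (u : Fin 5 → ℤ) (σ : Equiv.Perm (Fin 5)) : sv u σ 0 = u := by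
  funext i
  unfold sv
  rw [if_neg (by omega), add_zero]

theorem sv_succ (u : Fin 5 → ℤ) (σ : Equiv.Perm (Fin 5)) (j : Fin 5) (hj : j ≠ 0) :
    sv u σ j = Function.update (sv u σ (j - 1 : ℕ)) (σ j) (sv u σ (j - 1 : ℕ) (σ j) + 1) := by
  have hj' : (j : ℕ) ≠ 0 := fun h => hj (Fin.ext h)
  funext i
  by_cases h : i = σ j
  · subst h
    rw [Function.update_self]
    unfold sv
    rw [Equiv.symm_apply_apply, if_pos (by omega), if_neg (by omega)]
    ring
  · rw [Function.update_of_ne h]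
    unfold sv
    have h2 : (σ.symm i : ℕ) ≠ j := by
      intro h3
      apply h
      have : σ.symm i = j := Fin.ext h3
      rw [← this, Equiv.apply_symm_apply]
    have : (1 ≤ (σ.symm i : ℕ) ∧ (σ.symm i : ℕ) ≤ j) ↔
        (1 ≤ (σ.symm i : ℕ) ∧ (σ.symm i : ℕ) ≤ (j - 1 : ℕ)) := by omega
    simp only [this]

theorem sh_lift {N : ℕ} {p : Fin 5 → ZMod N} {u : Fin 5 → ℤ} (h : ∀ i, (u i : ZMod N) = p i)
    (j : Fin 5) (i : Fin 5) :
    ((Function.update u j (u j + 1) i : ℤ) : ZMod N) = sh p j i := by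
  unfold sh
  by_cases hij : i = j
  · subst hij; simp [h]
  · rw [Function.update_of_ne hij, Function.update_of_ne hij, h]

theorem shi_lift {N : ℕ} {p : Fin 5 → ZMod N} {u : Fin 5 → ℤ} (h : ∀ i, (u i : ZMod N) = p i)
    (j : Fin 5) (i : Fin 5) :
    ((Function.update u j (u j - 1) i : ℤ) : ZMod N) = shi p j i := by
  unfold shi
  by_cases hij : i = j
  · subst hij; simp [h]
  · rw [Function.update_of_ne hij, Function.update_of_ne hij, h]

theorem simp4_lift {N : ℕ} {q : Fin 5 → ZMod N} {u : Fin 5 → ℤ} (h : ∀ i, (u i : ZMod N) = q i)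
    (σ : Equiv.Perm (Fin 5)) (j : Fin 5) (i : Fin 5) :
    ((sv u σ j i : ℤ) : ZMod N) = simp4 q σ j i := by
  have h0 : ∀ i, ((sv u σ 0 i : ℤ) : ZMod N) = simp4 q σ 0 i := fun i => by
    rw [sv_zero]; exact h i
  have h1 : ∀ i, ((sv u σ (1 : Fin 5) i : ℤ) : ZMod N) = simp4 q σ 1 i := fun i => by
    rw [sv_succ u σ 1 (by decide)]; exact sh_lift h0 _ i
  have h2 : ∀ i, ((sv u σ (2 : Fin 5) i : ℤ) : ZMod N) = simp4 q σ 2 i := fun i => by
    rw [sv_succ u σ 2 (by decide)]; exact sh_lift h1 _ i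
  have h3 : ∀ i, ((sv u σ (3 : Fin 5) i : ℤ) : ZMod N) = simp4 q σ 3 i := fun i => by
    rw [sv_succ u σ 3 (by decide)]; exact sh_lift h2 _ i
  have h4 : ∀ i, ((sv u σ (4 : Fin 5) i : ℤ) : ZMod N) = simp4 q σ 4 i := fun i => by
    rw [sv_succ u σ 4 (by decide)]; exact sh_lift h3 _ i
  fin_cases j
  exacts [h0 i, h1 i, h2 i, h3 i, h4 i]

/-- points of a fine facet between a cube in the neighbourhood and a cube outside are in `X K` -/
theorem facet_mem {n μ : ℕ} [NeZero (3 * n * μ)] (hμ : 0 < μ) {K : Set (Cell n)} (hK : IsCx K)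
    {q : Fin 5 → ZMod (3 * n * μ)} {u : Fin 5 → ℤ} (h : ∀ i, (u i : ZMod (3 * n * μ)) = q i)
    (i₀ : Fin 5) (hw : ¬ (fcell n μ q ∈ K ↔ fcell n μ (shi q i₀) ∈ K)) {y : Fin 5 → ℝ}
    (hy : ∀ i, (u i : ℝ) / μ ≤ y i ∧ y i ≤ ((u i : ℝ) + 1) / μ) (hy0 : y i₀ = (u i₀ : ℝ) / μ) :
    pt n y ∈ X K := by
  have hμR : (0 : ℝ) < μ := by exact_mod_cast hμ
  have hμZ : (0 : ℤ) < μ := by exact_mod_cast hμ
  rw [fcell_lift hμ h, fcell_lift hμ (shi_lift h i₀)] at hw
  have gen : ∀ (a : ℤ) (x : ℝ), (a : ℝ) / μ ≤ x → x ≤ ((a : ℝ) + 1) / μ →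
      ((a / μ : ℤ) : ℝ) ≤ x ∧ x ≤ ((a / μ : ℤ) : ℝ) + 1 := by
    intro a x h1 h2
    have e1 : (a / μ : ℤ) * μ ≤ a := Int.ediv_mul_le a hμZ.ne'
    have e2 : a < (a / μ + 1 : ℤ) * μ := Int.lt_ediv_add_one_mul_self a hμZ
    have e1' : ((a / μ : ℤ) : ℝ) * μ ≤ a := by exact_mod_cast e1
    have e2' : (a : ℝ) + 1 ≤ (((a / μ : ℤ) : ℝ) + 1) * μ := by exact_mod_cast e2
    constructor
    · refine le_trans ?_ h1
      rw [le_div_iff₀ hμR]; exact e1'
    · refine le_trans h2 ?_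
      rw [div_le_iff₀ hμR]; exact e2'
  have ha : ∀ i, ((u i / μ : ℤ) : ℝ) ≤ y i ∧ y i ≤ ((u i / μ : ℤ) : ℝ) + 1 :=
    fun i => gen _ _ (hy i).1 (hy i).2
  have hb : ∀ i, (((Function.update u i₀ (u i₀ - 1)) i / μ : ℤ) : ℝ) ≤ y i ∧
      y i ≤ (((Function.update u i₀ (u i₀ - 1)) i / μ : ℤ) : ℝ) + 1 := by
    intro i
    by_cases hi : i = i₀
    · subst hi
      rw [Function.update_self]
      apply gen
      · rw [hy0]
        apply div_le_div_of_nonneg_right _ hμR.le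
        push_cast; linarith
      · rw [hy0]
        apply div_le_div_of_nonneg_right _ hμR.le
        push_cast; linarith
    · rw [Function.update_of_ne hi]
      exact ha i
  by_cases hc : B5.cel n (fun i => u i / μ) ∈ K
  · have hd : B5.cel n (fun i => (Function.update u i₀ (u i₀ - 1)) i / μ) ∉ K := by tauto
    exact B5.mem_X_of_cubes hK ha hb hc hd
  · have hd : B5.cel n (fun i => (Function.update u i₀ (u i₀ - 1)) i / μ) ∈ K := by tauto
    exact B5.mem_X_of_cubes hK hb ha hd hc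

/-- the real coordinates of the integer points of a simplex stay in the facet -/
theorem sv_mem {μ : ℕ} (hμ : 0 < μ) (u : Fin 5 → ℤ) (σ : Equiv.Perm (Fin 5)) (j : Fin 5)
    (i : Fin 5) : (u i : ℝ) / μ ≤ (sv u σ j i : ℝ) / μ ∧ (sv u σ j i : ℝ) / μ ≤ ((u i : ℝ) + 1) / μ := by
  have hμR : (0 : ℝ) < μ := by exact_mod_cast hμ
  unfold sv
  split_ifs with h
  · push_cast
    constructor
    · apply div_le_div_of_nonneg_right _ hμR.le; linarith
    · exact le_rfl
  · push_cast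
    constructor
    · rw [add_zero]
    · apply div_le_div_of_nonneg_right _ hμR.le; linarith

theorem sv_normal (u : Fin 5 → ℤ) (σ : Equiv.Perm (Fin 5)) (j : ℕ) : sv u σ j (σ 0) = u (σ 0) := by
  unfold sv
  rw [Equiv.symm_apply_apply, if_neg (by simp), add_zero]

end N02

open N02

open Classical in
theorem ls4_sum {n : ℕ} [NeZero n] {K : Set (Cell n)} (hK : IsCx K) (hLS : LS4 (X K))
    {G : Type} [Group G] (m : Tor n → Tor n → G) {ε : ℝ} (hε : 0 < ε)
    (hm : ∀ x ∈ X K, ∀ y ∈ X K, ∀ z ∈ X K, dist x y < ε → dist y z < ε → dist x z < ε →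
      m x y * m y z = m x z)
    {M0 M1 M2 M3 : Type} [AddCommGroup M0] [AddCommGroup M1] [AddCommGroup M2] [AddCommGroup M3]
    [DistribMulAction G M0] [DistribMulAction G M1] [DistribMulAction G M2] [DistribMulAction G M3]
    (Φ : M0 →+ M1 →+ M2 →+ M3 →+ ZMod 2) (α0 : G → M0) (α1 : G → M1) (α2 : G → M2) (α3 : G → M3)
    (hΦ : ∀ (g : G) a b c d, Φ (g • a) (g • b) (g • c) (g • d) = Φ a b c d)
    (h0 : ∀ g h, α0 (g * h) = α0 g + g • α0 h) (h1 : ∀ g h, α1 (g * h) = α1 g + g • α1 h)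
    (h2 : ∀ g h, α2 (g * h) = α2 g + g • α2 h) (h3 : ∀ g h, α3 (g * h) = α3 g + g • α3 h) :
    ∃ μ0 : ℕ, ∀ (μ : ℕ) [NeZero (3 * n * μ)], μ0 ≤ μ →
      ∑ q : Fin 5 → ZMod (3 * n * μ), ∑ σ : Equiv.Perm (Fin 5),
        (if (fcell n μ q ∈ K ↔ fcell n μ (shi q (σ 0)) ∈ K) then 0 else
          cup Φ m (fun x y => α0 (m x y)) (fun x y => α1 (m x y)) (fun x y => α2 (m x y))
            (fun x y => α3 (m x y)) (fun i => fpos n μ (simp4 q σ i))) = 0 := by
  obtain ⟨U, hUo, hUc, hU⟩ := hLS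
  have : CompactSpace (X K) := isCompact_iff_compactSpace.mp (isClosed_X hK).isCompact
  -- Lebesgue number
  obtain ⟨δ, hδ, hleb⟩ := lebesgue_number_lemma_of_metric (s := (univ : Set (X K))) isCompact_univ
    hUo (by rw [hUc])
  -- transport
  obtain ⟨Θ, _, _, hΘh, hΘt, _, hΘm⟩ := exists_theta (Y := X K) (fun x y => m x.1 y.1) ε hε
    (fun x y z hxy hyz hxz => hm _ x.2 _ y.2 _ z.2 hxy hyz hxz)
  -- potentials
  choose b hb using fun k : Fin 4 => exists_potential Θ hΘh hΘt (U k) (hU k)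
  -- the functions killing the crossed homomorphisms
  have hf : ∀ {M : Type} [AddCommGroup M] [DistribMulAction G M] (α : G → M)
      (_ : ∀ g h, α (g * h) = α g + g • α h) (k : Fin 4), ∃ f : Tor n → M,
      ∀ (x y : X K) (γ : Path x y), (∀ t, γ t ∈ U k) → (∀ s t, dist (γ s) (γ t) < ε) →
        modif m α f x.1 y.1 = 0 := by
    intro M _ _ α hα k
    refine ⟨fun x => if h : x ∈ X K then (b k ⟨x, h⟩)⁻¹ • α (b k ⟨x, h⟩) else 0, ?_⟩
    intro x y γ hγ hγd
    have e := hb k x y γ hγ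
    rw [hΘm γ hγd] at e
    have hmxy : m x.1 y.1 = (b k x)⁻¹ * b k y := by rw [e]; group
    have α1 : α 1 = 0 := by
      have := hα 1 1
      simpa using this
    have αinv : α (b k x)⁻¹ = - ((b k x)⁻¹ • α (b k x)) := by
      have := hα (b k x)⁻¹ (b k x)
      rw [inv_mul_cancel, α1] at this
      exact eq_neg_of_add_eq_zero_left this.symm
    simp only [modif, dif_pos x.2, dif_pos y.2, Subtype.coe_eta]
    rw [hmxy, hα, αinv, smul_smul, mul_assoc, mul_inv_cancel, mul_one]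
    abel
  obtain ⟨f0, hf0⟩ : ∃ f : Fin 4 → Tor n → M0, ∀ k (x y : X K) (γ : Path x y),
      (∀ t, γ t ∈ U k) → (∀ s t, dist (γ s) (γ t) < ε) → modif m α0 (f k) x.1 y.1 = 0 :=
    ⟨fun k => (hf α0 h0 k).choose, fun k => (hf α0 h0 k).choose_spec⟩
  obtain ⟨f1, hf1⟩ : ∃ f : Fin 4 → Tor n → M1, ∀ k (x y : X K) (γ : Path x y),
      (∀ t, γ t ∈ U k) → (∀ s t, dist (γ s) (γ t) < ε) → modif m α1 (f k) x.1 y.1 = 0 :=
    ⟨fun k => (hf α1 h1 k).choose, fun k => (hf α1 h1 k).choose_spec⟩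
  obtain ⟨f2, hf2⟩ : ∃ f : Fin 4 → Tor n → M2, ∀ k (x y : X K) (γ : Path x y),
      (∀ t, γ t ∈ U k) → (∀ s t, dist (γ s) (γ t) < ε) → modif m α2 (f k) x.1 y.1 = 0 :=
    ⟨fun k => (hf α2 h2 k).choose, fun k => (hf α2 h2 k).choose_spec⟩
  obtain ⟨f3, hf3⟩ : ∃ f : Fin 4 → Tor n → M3, ∀ k (x y : X K) (γ : Path x y),
      (∀ t, γ t ∈ U k) → (∀ s t, dist (γ s) (γ t) < ε) → modif m α3 (f k) x.1 y.1 = 0 :=
    ⟨fun k => (hf α3 h3 k).choose, fun k => (hf α3 h3 k).choose_spec⟩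
  -- the mesh
  obtain ⟨μ0, hμ0⟩ := exists_nat_gt (1 / min δ ε)
  have hmin : 0 < min δ ε := lt_min hδ hε
  refine ⟨μ0, ?_⟩
  intro μ _ hμμ
  have hμR : (1 : ℝ) / min δ ε < μ := lt_of_lt_of_le hμ0 (by exact_mod_cast hμμ)
  have hμR0 : (0 : ℝ) < μ := lt_trans (by positivity) hμR
  have hμ : 0 < μ := by exact_mod_cast hμR0
  have hmesh : 1 / (μ : ℝ) < min δ ε := by
    rw [div_lt_comm₀ hμR0 hmin]; exact hμR
  have hmδ : 1 / (μ : ℝ) < δ := lt_of_lt_of_le hmesh (min_le_left _ _)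
  have hmε : 1 / (μ : ℝ) < ε := lt_of_lt_of_le hmesh (min_le_right _ _)
  let w : (Fin 5 → ZMod (3 * n * μ)) → ZMod 2 := fun q => if fcell n μ q ∈ K then 1 else 0
  have hw : ∀ q q', w q ≠ w q' ↔ ¬ (fcell n μ q ∈ K ↔ fcell n μ q' ∈ K) := by
    intro q q'
    simp only [w]
    by_cases a1 : fcell n μ q ∈ K <;> by_cases a2 : fcell n μ q' ∈ K <;> simp [a1, a2]
  -- geometry of one simplex
  have geo : ∀ (q : Fin 5 → ZMod (3 * n * μ)) (σ : Equiv.Perm (Fin 5)), w q ≠ w (shi q (σ 0)) →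
      ∃ (P : Fin 5 → X K), (∀ i, (P i).1 = fpos n μ (simp4 q σ i)) ∧
        (∀ i j, dist (P i) (P j) < ε) ∧ ∃ k : Fin 4, ∀ i j : Fin 5, (i : ℕ) + 1 = j →
          ∃ γ : Path (P i) (P j), (∀ t, γ t ∈ U k) ∧ (∀ s t, dist (γ s) (γ t) < ε) := by
    intro q σ hwq
    rw [hw] at hwq
    set u : Fin 5 → ℤ := fun i => ((q i).val : ℤ) with hu
    have hlift : ∀ i, (u i : ZMod (3 * n * μ)) = q i := by
      intro i
      simp only [hu]
      rw [Int.cast_natCast, ZMod.natCast_zmod_val]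
    have hbox : ∀ (y : Fin 5 → ℝ), (∀ i, (u i : ℝ) / μ ≤ y i ∧ y i ≤ ((u i : ℝ) + 1) / μ) →
        y (σ 0) = (u (σ 0) : ℝ) / μ → pt n y ∈ X K := fun y hy hy0 =>
      facet_mem hμ hK hlift (σ 0) hwq hy hy0
    have hdist : ∀ (y y' : Fin 5 → ℝ), (∀ i, (u i : ℝ) / μ ≤ y i ∧ y i ≤ ((u i : ℝ) + 1) / μ) →
        (∀ i, (u i : ℝ) / μ ≤ y' i ∧ y' i ≤ ((u i : ℝ) + 1) / μ) →
        dist (pt n y) (pt n y') ≤ 1 / μ := by
      intro y y' hy hy'
      refine dist_pt_le (by positivity) fun i => ?_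
      have e1 : ((u i : ℝ) + 1) / μ = (u i : ℝ) / μ + 1 / μ := by ring
      have a1 := hy i
      have a2 := hy' i
      rw [e1] at a1 a2
      rw [abs_le]
      constructor <;> linarith [a1.1, a1.2, a2.1, a2.2]
    let yy : Fin 5 → Fin 5 → ℝ := fun j i => (sv u σ j i : ℝ) / μ
    have hyy : ∀ j i, (u i : ℝ) / μ ≤ yy j i ∧ yy j i ≤ ((u i : ℝ) + 1) / μ :=
      fun j i => sv_mem hμ u σ j i
    have hyy0 : ∀ j, yy j (σ 0) = (u (σ 0) : ℝ) / μ := fun j => by
      simp only [yy]; rw [sv_normal]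
    let P : Fin 5 → X K := fun j => ⟨pt n (yy j), hbox _ (hyy j) (hyy0 j)⟩
    obtain ⟨k, hk⟩ := hleb (P 0) (mem_univ _)
    refine ⟨P, fun i => ?_, fun i j => ?_, k, fun i j hij => ?_⟩
    · exact (fpos_lift hμ (simp4_lift hlift σ i)).symm
    · exact lt_of_le_of_lt (hdist _ _ (hyy i) (hyy j)) hmε
    · let z : unitInterval → Fin 5 → ℝ := fun t l => yy i l + (t : ℝ) * (yy j l - yy i l)
      have hz : ∀ t l, (u l : ℝ) / μ ≤ z t l ∧ z t l ≤ ((u l : ℝ) + 1) / μ := by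
        intro t l
        have t0 := t.2.1
        have t1 := t.2.2
        have a1 := hyy i l
        have a2 := hyy j l
        simp only [z]
        constructor
        · nlinarith [mul_nonneg t0 (sub_nonneg.mpr a2.1), mul_nonneg (sub_nonneg.mpr t1) (sub_nonneg.mpr a1.1)]
        · nlinarith [mul_nonneg t0 (sub_nonneg.mpr a2.2), mul_nonneg (sub_nonneg.mpr t1) (sub_nonneg.mpr a1.2)]
      have hz0 : ∀ t, z t (σ 0) = (u (σ 0) : ℝ) / μ := by
        intro t
        simp only [z]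
        rw [hyy0, hyy0]; ring
      have hcont : Continuous fun t : unitInterval => pt n (z t) := by
        refine (continuous_pt n).comp (continuous_pi fun l => ?_)
        simp only [z]
        fun_prop
      let γ : Path (P i) (P j) :=
        { toFun := fun t => ⟨pt n (z t), hbox _ (hz t) (hz0 t)⟩
          continuous_toFun := Continuous.subtype_mk hcont _
          source' := by
            apply Subtype.ext
            show pt n (z 0) = pt n (yy i)
            congr 1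
            funext l
            simp [z]
          target' := by
            apply Subtype.ext
            show pt n (z 1) = pt n (yy j)
            congr 1
            funext l
            simp [z] }
      refine ⟨γ, fun t => ?_, fun s t => ?_⟩
      · apply hk
        rw [Metric.mem_ball]
        exact lt_of_le_of_lt (hdist _ _ (hz t) (hyy 0)) hmδ
      · exact lt_of_le_of_lt (hdist _ _ (hz s) (hz t)) hmε
  have key := cup_sum_zero Φ (fun p => fpos n μ p) w hΦ m α0 α1 α2 α3 h0 h1 h2 h3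
    (f0 0) (f1 1) (f2 2) (f3 3) ?_ ?_
  · refine Eq.trans ?_ key
    refine Finset.sum_congr rfl fun q _ => Finset.sum_congr rfl fun σ _ => ?_
    by_cases hc : (fcell n μ q ∈ K ↔ fcell n μ (shi q (σ 0)) ∈ K)
    · rw [if_pos hc]
      have : w q = w (shi q (σ 0)) := by
        by_contra h
        exact (hw _ _).mp h hc
      rw [this, N01.two_add, zero_mul]
    · rw [if_neg hc]
      have : w q + w (shi q (σ 0)) = 1 := by
        simp only [w]
        by_cases a1 : fcell n μ q ∈ K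
        · have a2 : fcell n μ (shi q (σ 0)) ∉ K := fun a2 => hc (iff_of_true a1 a2)
          rw [if_pos a1, if_neg a2, add_zero]
        · have a2 : fcell n μ (shi q (σ 0)) ∈ K := by
            by_contra a2
            exact hc (iff_of_false a1 a2)
          rw [if_neg a1, if_pos a2, zero_add]
      rw [this, one_mul]
  · intro q σ hq
    obtain ⟨P, hP, hd, -⟩ := geo q σ hq
    intro i j k hij hjk
    show m (fpos n μ (simp4 q σ i)) (fpos n μ (simp4 q σ j)) *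
      m (fpos n μ (simp4 q σ j)) (fpos n μ (simp4 q σ k)) =
      m (fpos n μ (simp4 q σ i)) (fpos n μ (simp4 q σ k))
    rw [← hP i, ← hP j, ← hP k]
    exact hm _ (P i).2 _ (P j).2 _ (P k).2 (hd i j) (hd j k) (hd i k)
  · intro q σ hq
    obtain ⟨P, hP, hd, k, hk⟩ := geo q σ hq
    rw [← hP 0, ← hP 1, ← hP 2, ← hP 3, ← hP 4]
    fin_cases k
    · left
      obtain ⟨γ, hγ, hγd⟩ := hk 0 1 rfl
      exact hf0 0 _ _ γ hγ hγd
    · right; left
      obtain ⟨γ, hγ, hγd⟩ := hk 1 2 rfl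
      exact hf1 1 _ _ γ hγ hγd
    · right; right; left
      obtain ⟨γ, hγ, hγd⟩ := hk 2 3 rfl
      exact hf2 2 _ _ γ hγ hγd
    · right; right; right
      obtain ⟨γ, hγ, hγd⟩ := hk 3 4 rfl
      exact hf3 3 _ _ γ hγ hγd

end Pool.Agent.FM
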