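import Pool.Agent.FM.Defs3
import Pool.Agent.FM.N02

/-!
BLOCK C19: geometry of the fine cubes.
-/

open Set

namespace Pool.Agent.FM

namespace C19

theorem simp5_lift {N : ℕ} {q : Fin 5 → ZMod N} {u : Fin 5 → ℤ} (h : ∀ i, (u i : ZMod N) = q i)
    (σ : Equiv.Perm (Fin 5)) (j : Fin 6) (i : Fin 5) :
    ((B5.wt σ u j i : ℤ) : ZMod N) = simp5 q σ j i := by
  have h0 : ∀ i, ((B5.wt σ u ((0 : Fin 5) : ℕ) i : ℤ) : ZMod N) = q i := fun i => by
    rw [Fin.val_zero, B5.wt_zero]; exact h i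
  have step : ∀ (k : Fin 5) (p : Fin 5 → ZMod N),
      (∀ i, ((B5.wt σ u (k : ℕ) i : ℤ) : ZMod N) = p i) →
      ∀ i, ((B5.wt σ u ((k : ℕ) + 1) i : ℤ) : ZMod N) = sh p (σ k) i := fun k p hp i => by
    rw [← B5.wt_succ]; exact N02.sh_lift hp _ i
  have h1 := step 0 _ h0
  have h2 := step 1 _ h1
  have h3 := step 2 _ h2
  have h4 := step 3 _ h3
  have h5 := step 4 _ h4
  fin_cases j
  exacts [h0 i, h1 i, h2 i, h3 i, h4 i, h5 i]

theorem wt_bd {μ : ℕ} (hμ : 0 < μ) (u : Fin 5 → ℤ) (σ : Equiv.Perm (Fin 5)) (j : ℕ)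
    (i : Fin 5) : (u i : ℝ) / μ ≤ (B5.wt σ u j i : ℝ) / μ ∧
      (B5.wt σ u j i : ℝ) / μ ≤ ((u i : ℝ) + 1) / μ := by
  have hμR : (0 : ℝ) < μ := by exact_mod_cast hμ
  unfold B5.wt
  split_ifs with h
  · push_cast
    constructor
    · apply div_le_div_of_nonneg_right _ hμR.le; linarith
    · exact le_rfl
  · push_cast
    constructor
    · rw [add_zero]
    · apply div_le_div_of_nonneg_right _ hμR.le; linarith

theorem unit_bd {μ : ℕ} (hμ : 0 < μ) (a : ℤ) (x : ℝ) (h1 : (a : ℝ) / μ ≤ x)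
    (h2 : x ≤ ((a : ℝ) + 1) / μ) : ((a / μ : ℤ) : ℝ) ≤ x ∧ x ≤ ((a / μ : ℤ) : ℝ) + 1 := by
  have hμR : (0 : ℝ) < μ := by exact_mod_cast hμ
  have hμZ : (0 : ℤ) < μ := by exact_mod_cast hμ
  have e1 : (a / μ : ℤ) * μ ≤ a := Int.ediv_mul_le a hμZ.ne'
  have e2 : a < (a / μ + 1 : ℤ) * μ := Int.lt_ediv_add_one_mul_self a hμZ
  have e1' : ((a / μ : ℤ) : ℝ) * μ ≤ a := by exact_mod_cast e1
  have e2' : (a : ℝ) + 1 ≤ (((a / μ : ℤ) : ℝ) + 1) * μ := by exact_mod_cast e2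
  constructor
  · refine le_trans ?_ h1
    rw [le_div_iff₀ hμR]; exact e1'
  · refine le_trans h2 ?_
    rw [div_le_iff₀ hμR]; exact e2'

theorem dbl_lo0 {n B : ℕ} [NeZero n] (hB : B < n) {x : ℝ} (h0 : 0 ≤ x) (h1 : x ≤ 3 * B) :
    dbl (cst n (loZ 0 x)) ≤ 2 * B := by
  rcases h : loZ 0 x with ⟨k, b⟩
  cases b
  · rw [loZ_false_iff le_rfl (by norm_num)] at h
    have hk0 : (-1 : ℝ) < k := by linarith
    have hk1 : (k : ℝ) ≤ B := by linarith
    have hk0' : -1 < k := by exact_mod_cast hk0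
    have hk1' : k ≤ B := by exact_mod_cast hk1
    obtain ⟨l, rfl⟩ : ∃ l : ℕ, k = l := ⟨k.toNat, by omega⟩
    show 2 * (((l : ℤ) : ZMod n)).val + 0 ≤ _
    rw [Int.cast_natCast, ZMod.val_cast_of_lt (by omega)]
    omega
  · rw [loZ_true_iff le_rfl (by norm_num)] at h
    have hk0 : (-1 : ℝ) < k := by linarith
    have hk1 : (k : ℝ) < B := by linarith
    have hk0' : -1 < k := by exact_mod_cast hk0
    have hk1' : k < B := by exact_mod_cast hk1
    obtain ⟨l, rfl⟩ : ∃ l : ℕ, k = l := ⟨k.toNat, by omega⟩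
    show 2 * (((l : ℤ) : ZMod n)).val + 1 ≤ _
    rw [Int.cast_natCast, ZMod.val_cast_of_lt (by omega)]
    omega

/-- points of the closed fine cubes are in the closed neighbourhood -/
theorem cube_Np {n : ℕ} [NeZero n] {A : ℕ} (hn : 5 ≤ n) (hA : A + 3 ≤ n)
    {K : Set (Cell n)} (hK : IsCx K) {μ : ℕ} (hμ : 1 ≤ μ)
    (q : Fin 5 → ZMod (3 * n * μ)) (hq : q ∈ cubes μ K A) {y : Fin 5 → ℝ}
    (hy : ∀ i, ((q i).val : ℝ) / μ ≤ y i ∧ y i ≤ (((q i).val : ℝ) + 1) / μ) :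
    pt n y ∈ Np K A := by
  have : NeZero (3 * n * μ) := ⟨by have := NeZero.ne n; positivity⟩
  have hμR : (0 : ℝ) < μ := by exact_mod_cast hμ
  obtain ⟨hq1, hq2, hq3⟩ := hq
  have hlift : ∀ i, (((q i).val : ℤ) : ZMod (3 * n * μ)) = q i := fun i => by
    rw [Int.cast_natCast, ZMod.natCast_zmod_val]
  rw [N02.fcell_lift hμ hlift] at hq1
  constructor
  · refine hK _ hq1 _ fun i => ?_
    obtain ⟨h1, h2⟩ := unit_bd hμ ((q i).val : ℤ) (y i)
      (by rw [Int.cast_natCast]; exact (hy i).1) (by rw [Int.cast_natCast]; exact (hy i).2)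
    exact (B5.face_unit n h1 h2).1
  · have hz : ∀ i, 0 ≤ y i := fun i => le_trans (by positivity) (hy i).1
    constructor
    · show dbl (cst n (loZ 0 (y 3))) ≤ 2 * A
      refine dbl_lo0 (by omega) (hz 3) ?_
      refine le_trans (hy 3).2 ?_
      rw [div_le_iff₀ hμR]
      have : ((q 3).val : ℝ) + 1 ≤ 3 * A * μ := by exact_mod_cast hq2
      exact this
    · show dbl (cst n (loZ 0 (y 4))) ≤ 6
      refine le_trans (dbl_lo0 (B := 3) (by omega) (hz 4) ?_) (by norm_num)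
      refine le_trans (hy 4).2 ?_
      rw [div_le_iff₀ hμR]
      have : ((q 4).val : ℝ) + 1 ≤ 9 * μ := by exact_mod_cast hq3
      push_cast
      linarith

end C19

open C19

theorem simp5_close {n : ℕ} [NeZero n] {μ : ℕ} (hμ : 1 ≤ μ) (q : Fin 5 → ZMod (3 * n * μ))
    (σ : Equiv.Perm (Fin 5)) (i j : Fin 6) :
    dist (fpos n μ (simp5 q σ i)) (fpos n μ (simp5 q σ j)) ≤ 1 / μ := by
  have : NeZero (3 * n * μ) := ⟨by have := NeZero.ne n; positivity⟩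
  have hμR : (0 : ℝ) < μ := by exact_mod_cast hμ
  have hlift : ∀ i, (((q i).val : ℤ) : ZMod (3 * n * μ)) = q i := fun i => by
    rw [Int.cast_natCast, ZMod.natCast_zmod_val]
  rw [N02.fpos_lift hμ (simp5_lift hlift σ i), N02.fpos_lift hμ (simp5_lift hlift σ j)]
  refine N02.dist_pt_le (by positivity) fun k => ?_
  rw [← sub_div, abs_div, abs_of_pos hμR]
  apply div_le_div_of_nonneg_right _ hμR.le
  unfold B5.wt
  split_ifs <;> push_cast <;> rw [abs_le] <;> constructor <;> linarith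

theorem simp5_Np {n : ℕ} [NeZero n] {A : ℕ} (hn : 5 ≤ n) (hA1 : 1 ≤ A) (hA : A + 3 ≤ n)
    {K : Set (Cell n)} (hK : IsCx K) (hKO : KO n A ⊆ K) {μ : ℕ} (hμ : 1 ≤ μ)
    (q : Fin 5 → ZMod (3 * n * μ)) (hq : q ∈ cubes μ K A) (σ : Equiv.Perm (Fin 5)) (i : Fin 6) :
    fpos n μ (simp5 q σ i) ∈ Np K A := by
  have : NeZero (3 * n * μ) := ⟨by have := NeZero.ne n; positivity⟩
  have hlift : ∀ i, (((q i).val : ℤ) : ZMod (3 * n * μ)) = q i := fun i => by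
    rw [Int.cast_natCast, ZMod.natCast_zmod_val]
  rw [N02.fpos_lift hμ (simp5_lift hlift σ i)]
  refine cube_Np hn hA hK hμ q hq fun k => ?_
  have := wt_bd hμ (fun i => ((q i).val : ℤ)) σ i k
  simpa using this

end Pool.Agent.FM
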