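import Pool.Agent.FM.Defs3
import Pool.Agent.FM.B09
import Pool.Agent.FM.N02

/-!
# Evaluation of the cup product on the torus over the boundary of the rectangle
-/

open Set

namespace Pool.Agent.FM

namespace C20

/-- transport along one edge -/
theorem ell_update {n : ℕ} {G : Type} [Group G] (c : Vx n → Fin 5 → G) (v : Vx n) (d : Fin 5)
    (a : ZMod n) : ell c v (Function.update v d a) = stp c v d a := by
  have hs : ∀ (w : Vx n) (i : Fin 5), stp c w i (w i) = 1 := fun w i => by simp [stp]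
  fin_cases d
  · simp only [ell, Fin.zero_eta]
    have e0 : Function.update v 0 (Function.update v 0 a 0) = Function.update v 0 a := by simp
    rw [e0]
    have e1 : Function.update (Function.update v 0 a) 1 (Function.update v 0 a 1) =
      Function.update v 0 a := Function.update_eq_self _ _
    rw [e1]
    have e2 : Function.update (Function.update v 0 a) 2 (Function.update v 0 a 2) =
      Function.update v 0 a := Function.update_eq_self _ _
    rw [e2]
    have e3 : Function.update (Function.update v 0 a) 3 (Function.update v 0 a 3) =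
      Function.update v 0 a := Function.update_eq_self _ _
    rw [e3, hs, hs, hs, hs]
    simp
  · simp only [ell, Fin.mk_one]
    have e0 : Function.update v 0 (Function.update v 1 a 0) = v := by
      rw [Function.update_of_ne (by decide : (0 : Fin 5) ≠ 1), Function.update_eq_self]
    rw [e0]
    have e1 : Function.update v 1 (Function.update v 1 a 1) = Function.update v 1 a := by simp
    rw [e1]
    have e2 : Function.update (Function.update v 1 a) 2 (Function.update v 1 a 2) =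
      Function.update v 1 a := Function.update_eq_self _ _
    rw [e2]
    have e3 : Function.update (Function.update v 1 a) 3 (Function.update v 1 a 3) =
      Function.update v 1 a := Function.update_eq_self _ _
    rw [e3, hs, hs, hs, Function.update_of_ne (by decide : (0 : Fin 5) ≠ 1), hs]
    simp
  · simp only [ell, Fin.reduceFinMk]
    have e0 : Function.update v 0 (Function.update v 2 a 0) = v := by
      rw [Function.update_of_ne (by decide : (0 : Fin 5) ≠ 2), Function.update_eq_self]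
    rw [e0]
    have e1 : Function.update v 1 (Function.update v 2 a 1) = v := by
      rw [Function.update_of_ne (by decide : (1 : Fin 5) ≠ 2), Function.update_eq_self]
    rw [e1]
    have e2 : Function.update v 2 (Function.update v 2 a 2) = Function.update v 2 a := by simp
    rw [e2]
    have e3 : Function.update (Function.update v 2 a) 3 (Function.update v 2 a 3) =
      Function.update v 2 a := Function.update_eq_self _ _
    rw [e3, hs, hs, Function.update_of_ne (by decide : (0 : Fin 5) ≠ 2), hs,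
      Function.update_of_ne (by decide : (1 : Fin 5) ≠ 2), hs]
    simp
  · simp only [ell, Fin.reduceFinMk]
    have e0 : Function.update v 0 (Function.update v 3 a 0) = v := by
      rw [Function.update_of_ne (by decide : (0 : Fin 5) ≠ 3), Function.update_eq_self]
    rw [e0]
    have e1 : Function.update v 1 (Function.update v 3 a 1) = v := by
      rw [Function.update_of_ne (by decide : (1 : Fin 5) ≠ 3), Function.update_eq_self]
    rw [e1]
    have e2 : Function.update v 2 (Function.update v 3 a 2) = v := by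
      rw [Function.update_of_ne (by decide : (2 : Fin 5) ≠ 3), Function.update_eq_self]
    rw [e2]
    have e3 : Function.update v 3 (Function.update v 3 a 3) = Function.update v 3 a := by simp
    rw [e3, hs, Function.update_of_ne (by decide : (0 : Fin 5) ≠ 3), hs,
      Function.update_of_ne (by decide : (1 : Fin 5) ≠ 3), hs,
      Function.update_of_ne (by decide : (2 : Fin 5) ≠ 3), hs]
    simp
  · simp only [ell, Fin.reduceFinMk]
    have e0 : Function.update v 0 (Function.update v 4 a 0) = v := by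
      rw [Function.update_of_ne (by decide : (0 : Fin 5) ≠ 4), Function.update_eq_self]
    rw [e0]
    have e1 : Function.update v 1 (Function.update v 4 a 1) = v := by
      rw [Function.update_of_ne (by decide : (1 : Fin 5) ≠ 4), Function.update_eq_self]
    rw [e1]
    have e2 : Function.update v 2 (Function.update v 4 a 2) = v := by
      rw [Function.update_of_ne (by decide : (2 : Fin 5) ≠ 4), Function.update_eq_self]
    rw [e2]
    have e3 : Function.update v 3 (Function.update v 4 a 3) = v := by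
      rw [Function.update_of_ne (by decide : (3 : Fin 5) ≠ 4), Function.update_eq_self]
    rw [e3, Function.update_of_ne (by decide : (0 : Fin 5) ≠ 4), hs,
      Function.update_of_ne (by decide : (1 : Fin 5) ≠ 4), hs,
      Function.update_of_ne (by decide : (2 : Fin 5) ≠ 4), hs,
      Function.update_of_ne (by decide : (3 : Fin 5) ≠ 4), hs]
    simp

/-- nearest vertex of the lattice point `a / μ` -/
noncomputable def kk (μ : ℕ) (a : ℤ) : ℤ := kapZ ((a : ℝ) / μ)

theorem kk_iff {μ : ℕ} (hμ : 0 < μ) (a k : ℤ) :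
    kk μ a = k ↔ (6 * k - 3) * μ ≤ 2 * a ∧ 2 * a < (6 * k + 3) * μ := by
  have hμR : (0 : ℝ) < μ := by exact_mod_cast hμ
  unfold kk
  rw [kapZ_eq_iff, le_div_iff₀ hμR, div_lt_iff₀ hμR]
  constructor
  · rintro ⟨h1, h2⟩
    constructor
    · have : (((6 * k - 3) * μ : ℤ) : ℝ) ≤ ((2 * a : ℤ) : ℝ) := by
        push_cast; linarith
      exact_mod_cast this
    · have : ((2 * a : ℤ) : ℝ) < (((6 * k + 3) * μ : ℤ) : ℝ) := by
        push_cast; linarith
      exact_mod_cast this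
  · rintro ⟨h1, h2⟩
    have h1' : (((6 * k - 3) * μ : ℤ) : ℝ) ≤ ((2 * a : ℤ) : ℝ) := by exact_mod_cast h1
    have h2' : ((2 * a : ℤ) : ℝ) < (((6 * k + 3) * μ : ℤ) : ℝ) := by exact_mod_cast h2
    push_cast at h1' h2'
    constructor <;> linarith

/-- the step from `a` to `a + 1` crosses the wall between the vertices `k` and `k + 1` -/
def Cross (μ : ℕ) (a k : ℤ) : Prop := 2 * a < (6 * k + 3) * μ ∧ (6 * k + 3) * μ ≤ 2 * a + 2

theorem kk_cross {μ : ℕ} (hμ : 1 ≤ μ) (a k : ℤ) :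
    (kk μ (a + 1) ≠ kk μ a ∧ kk μ a = k) ↔ Cross μ a k := by
  have hμ0 : 0 < μ := by omega
  have hμZ : (1 : ℤ) ≤ μ := by exact_mod_cast hμ
  unfold Cross
  constructor
  · rintro ⟨h1, h2⟩
    have h3 := (kk_iff hμ0 a k).1 h2
    refine ⟨h3.2, ?_⟩
    by_contra h4
    push Not at h4
    apply h1
    rw [h2, kk_iff hμ0]
    constructor <;> nlinarith [h3.1]
  · rintro ⟨h1, h2⟩
    have h3 : kk μ a = k := by
      rw [kk_iff hμ0]
      constructor <;> nlinarith
    have h4 : kk μ (a + 1) = k + 1 := by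
      rw [kk_iff hμ0]
      constructor <;> nlinarith
    refine ⟨?_, h3⟩
    rw [h3, h4]
    omega

theorem kk_succ {μ : ℕ} (hμ : 1 ≤ μ) {a : ℤ} (h : kk μ (a + 1) ≠ kk μ a) :
    kk μ (a + 1) = kk μ a + 1 := by
  have hμ0 : 0 < μ := by omega
  have hμZ : (1 : ℤ) ≤ μ := by exact_mod_cast hμ
  have h1 := (kk_cross hμ a (kk μ a)).1 ⟨h, rfl⟩
  rw [kk_iff hμ0]
  unfold Cross at h1
  constructor <;> nlinarith [h1.1, h1.2]

theorem kk_mul {μ : ℕ} (hμ : 0 < μ) (k : ℤ) : kk μ (3 * k * μ) = k := by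
  have hμZ : (0 : ℤ) < μ := by exact_mod_cast hμ
  rw [kk_iff hμ]
  constructor <;> nlinarith

theorem kk_nonneg {μ : ℕ} (hμ : 0 < μ) {a : ℤ} (ha : 0 ≤ a) : 0 ≤ kk μ a := by
  have hμZ : (0 : ℤ) < μ := by exact_mod_cast hμ
  have h := (kk_iff hμ a (kk μ a)).1 rfl
  by_contra hc
  push Not at hc
  have : kk μ a + 1 ≤ 0 := hc
  nlinarith [h.2]

theorem kk_le {μ : ℕ} (hμ : 0 < μ) {a k : ℤ} (ha : a ≤ 3 * k * μ) : kk μ a ≤ k := by
  have hμZ : (0 : ℤ) < μ := by exact_mod_cast hμ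
  have h := (kk_iff hμ a (kk μ a)).1 rfl
  by_contra hc
  push Not at hc
  have : k + 1 ≤ kk μ a := hc
  nlinarith [h.1]

/-- the nearest vertex of an integer point -/
noncomputable def kv (n μ : ℕ) (U : Fin 5 → ℤ) : Vx n := fun i => ((kk μ (U i) : ℤ) : ZMod n)

theorem kv_update (n μ : ℕ) (U : Fin 5 → ℤ) (d : Fin 5) (a : ℤ) :
    kv n μ (Function.update U d a) = Function.update (kv n μ U) d ((kk μ a : ℤ) : ZMod n) := by
  funext i
  by_cases h : i = d
  · subst h
    simp [kv]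
  · simp [kv, Function.update_of_ne h]

theorem ell_kv {n μ : ℕ} (hn : 2 ≤ n) (hμ : 1 ≤ μ) {G : Type} [Group G] (c : Vx n → Fin 5 → G)
    (U : Fin 5 → ℤ) (d : Fin 5) :
    ell c (kv n μ U) (kv n μ (Function.update U d (U d + 1))) =
      if kk μ (U d + 1) = kk μ (U d) then 1 else c (kv n μ U) d := by
  rw [kv_update, ell_update]
  unfold stp
  split_ifs with h1 h2 h3 h4
  · rfl
  · exfalso
    have h3 := kk_succ hμ h2
    unfold kv at h1
    rw [h3] at h1
    push_cast at h1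
    have h5 : (1 : ZMod n) = 0 := by
      have := h1
      rwa [add_eq_left] at this
    have : Fact (1 < n) := ⟨by omega⟩
    exact one_ne_zero h5
  · exfalso
    apply h1
    unfold kv
    rw [h4]
  · rfl
  · exfalso
    apply h1
    unfold kv
    rw [‹kk μ (U d + 1) = kk μ (U d)›]
  · exfalso
    apply h3
    unfold kv
    rw [kk_succ hμ ‹¬ kk μ (U d + 1) = kk μ (U d)›]
    push_cast
    rfl

/-! ### labels on the torus -/

section lab

variable {n : ℕ} {A : ℕ} {G : Type} [Group G] {c : Vx n → Fin 5 → G} {x0 x1 z γ : G}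

theorem dbl_kv {k : ℤ} (h0 : 0 ≤ k) (h1 : k < n) (b : Bool) :
    dbl (((k : ℤ) : ZMod n), b) = 2 * k.toNat + b.toNat := by
  obtain ⟨m, rfl⟩ := Int.eq_ofNat_of_zero_le h0
  have hm : m < n := by exact_mod_cast h1
  simp [dbl, ZMod.val_cast_of_lt hm]

theorem cast_add_one_eq_zero {k : ℤ} (hn : 1 ≤ n) (h0 : 0 ≤ k) (h1 : k < n) :
    ((k : ZMod n) + 1 = 0) ↔ k = n - 1 := by
  have : ((k : ZMod n) + 1) = ((k + 1 : ℤ) : ZMod n) := by push_cast; rfl
  rw [this, ZMod.intCast_zmod_eq_zero_iff_dvd]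
  constructor
  · rintro ⟨m, hm⟩
    have hn' : (0 : ℤ) < n := by exact_mod_cast (by omega : 0 < n)
    have m1 : m = 1 := by
      have a1 : 0 < m := by
        by_contra h
        push Not at h
        nlinarith
      have a2 : m < 2 := by
        by_contra h
        push Not at h
        nlinarith
      omega
    subst m1
    omega
  · intro h
    exact ⟨1, by omega⟩

theorem cast_eq_natCast {k : ℤ} {m : ℕ} (h0 : 0 ≤ k) (h1 : k < n) (hm : m < n) :
    ((k : ZMod n) = (m : ZMod n)) ↔ k = m := by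
  obtain ⟨l, rfl⟩ := Int.eq_ofNat_of_zero_le h0
  have hl : l < n := by exact_mod_cast h1
  constructor
  · intro h
    have h2 : ((l : ℕ) : ZMod n).val = ((m : ℕ) : ZMod n).val := by
      rw [← h]; simp
    rw [ZMod.val_cast_of_lt hl, ZMod.val_cast_of_lt hm] at h2
    exact_mod_cast h2
  · intro h
    have : l = m := by exact_mod_cast h
    subst this
    simp

/-- integer points over the boundary of the rectangle -/
def Pl (μ A : ℕ) (U : Fin 5 → ℤ) : Prop :=
  ((U 3 = 0 ∨ U 3 = 3 * A * μ) ∧ 0 ≤ U 4 ∧ U 4 ≤ 9 * μ) ∨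
  ((U 4 = 0 ∨ U 4 = 9 * μ) ∧ 0 ≤ U 3 ∧ U 3 ≤ 3 * A * μ)

theorem kk_zero {μ : ℕ} (hμ : 0 < μ) : kk μ 0 = 0 := by
  have := kk_mul hμ 0
  simpa using this

theorem kk_planar {μ : ℕ} (hμ : 0 < μ) {U : Fin 5 → ℤ} (h : Pl μ A U) :
    0 ≤ kk μ (U 3) ∧ kk μ (U 3) ≤ A ∧ 0 ≤ kk μ (U 4) ∧ kk μ (U 4) ≤ 3 ∧
      (kk μ (U 3) = 0 ∨ kk μ (U 3) = A ∨ kk μ (U 4) = 0 ∨ kk μ (U 4) = 3) := by
  have hμZ : (0 : ℤ) < μ := by exact_mod_cast hμ
  have h0 := kk_zero hμ
  have hA := kk_mul hμ (A : ℤ)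
  have h3 := kk_mul hμ 3
  rw [show (3 : ℤ) * 3 * μ = 9 * μ by ring] at h3
  rcases h with ⟨h, h', h''⟩ | ⟨h, h', h''⟩
  · have a1 := kk_nonneg hμ h'
    have a2 : kk μ (U 4) ≤ 3 := kk_le hμ (by linarith)
    rcases h with h | h
    · rw [h, h0]
      refine ⟨le_rfl, by positivity, a1, a2, Or.inl rfl⟩
    · rw [h, hA]
      refine ⟨by positivity, le_rfl, a1, a2, Or.inr (Or.inl rfl)⟩
  · have a1 := kk_nonneg hμ h'
    have a2 : kk μ (U 3) ≤ A := kk_le hμ h''
    rcases h with h | h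
    · rw [h, h0]
      exact ⟨a1, a2, le_rfl, by norm_num, Or.inr (Or.inr (Or.inl rfl))⟩
    · rw [h, h3]
      exact ⟨a1, a2, by norm_num, le_rfl, Or.inr (Or.inr (Or.inr rfl))⟩

theorem vc_mem (hn : 5 ≤ n) (hA : A + 3 ≤ n) {μ : ℕ} (hμ : 0 < μ) {U : Fin 5 → ℤ}
    (h : Pl μ A U) : vc (kv n μ U) ∈ KO n A ∩ PC n A := by
  obtain ⟨a1, a2, a3, a4, a5⟩ := kk_planar hμ h
  have d3 : dbl (vc (kv n μ U) 3) = 2 * (kk μ (U 3)).toNat := by
    have := dbl_kv (n := n) a1 (by omega) false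
    simpa [vc, kv] using this
  have d4 : dbl (vc (kv n μ U) 4) = 2 * (kk μ (U 4)).toNat := by
    have := dbl_kv (n := n) a3 (by omega) false
    simpa [vc, kv] using this
  constructor
  · show ¬ _
    rw [d3, d4]
    omega
  · show _ ∧ _
    rw [d3, d4]
    omega

theorem ec4_mem (hn : 5 ≤ n) (hA : A + 3 ≤ n) {μ : ℕ} (hμ : 0 < μ) {U : Fin 5 → ℤ}
    (h3 : U 3 = 0 ∨ U 3 = 3 * A * μ) (h4 : 0 ≤ U 4) (h5 : kk μ (U 4) < 3) :
    ec (kv n μ U) 4 ∈ KO n A ∩ PC n A := by
  have hA' := kk_mul hμ (A : ℤ)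
  have a3 := kk_nonneg hμ h4
  have a1 : kk μ (U 3) = 0 ∨ kk μ (U 3) = A := by
    rcases h3 with h3 | h3
    · left; rw [h3, kk_zero hμ]
    · right; rw [h3, hA']
  have d3 : dbl (ec (kv n μ U) 4 3) = 2 * (kk μ (U 3)).toNat := by
    have := dbl_kv (n := n) (k := kk μ (U 3)) (by omega) (by omega) false
    simpa [ec, kv] using this
  have d4 : dbl (ec (kv n μ U) 4 4) = 2 * (kk μ (U 4)).toNat + 1 := by
    have := dbl_kv (n := n) a3 (by omega) true
    simpa [ec, kv] using this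
  constructor
  · show ¬ _
    rw [d3, d4]
    omega
  · show _ ∧ _
    rw [d3, d4]
    omega

theorem ec3_mem (hn : 5 ≤ n) (hA : A + 3 ≤ n) {μ : ℕ} (hμ : 0 < μ) {U : Fin 5 → ℤ}
    (h3 : U 4 = 0 ∨ U 4 = 9 * μ) (h4 : 0 ≤ U 3) (h5 : kk μ (U 3) < A) :
    ec (kv n μ U) 3 ∈ KO n A ∩ PC n A := by
  have hA' := kk_mul hμ 3
  rw [show (3 : ℤ) * 3 * μ = 9 * μ by ring] at hA'
  have a3 := kk_nonneg hμ h4
  have a1 : kk μ (U 4) = 0 ∨ kk μ (U 4) = 3 := by
    rcases h3 with h3 | h3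
    · left; rw [h3, kk_zero hμ]
    · right; rw [h3, hA']
  have d4 : dbl (ec (kv n μ U) 3 4) = 2 * (kk μ (U 4)).toNat := by
    have := dbl_kv (n := n) (k := kk μ (U 4)) (by omega) (by omega) false
    simpa [ec, kv] using this
  have d3 : dbl (ec (kv n μ U) 3 3) = 2 * (kk μ (U 3)).toNat + 1 := by
    have := dbl_kv (n := n) a3 (by omega) true
    simpa [ec, kv] using this
  constructor
  · show ¬ _
    rw [d3, d4]
    omega
  · show _ ∧ _
    rw [d3, d4]
    omega

/-- the general form of the labels in the directions `0, 1, 2` -/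
theorem lab_aux (hn : 5 ≤ n) {μ : ℕ} (hμ : 1 ≤ μ) {a : ℤ} {g : G} (e : G) (h0 : 0 ≤ a)
    (h1 : a + 1 ≤ 3 * n * μ) (he : e = if ((kk μ a : ℤ) : ZMod n) + 1 = 0 then g else 1)
    [Decidable (Cross μ a (n - 1))] :
    (if kk μ (a + 1) = kk μ a then 1 else e) = if Cross μ a (n - 1) then g else 1 := by
  have hμ0 : 0 < μ := by omega
  have b0 := kk_nonneg hμ0 h0
  have b1 : kk μ (a + 1) ≤ n := kk_le hμ0 h1
  by_cases h : kk μ (a + 1) = kk μ a
  · rw [if_pos h, if_neg]
    intro hc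
    exact ((kk_cross hμ a _).2 hc).1 h
  · rw [if_neg h]
    have b2 := kk_succ hμ h
    rw [he]
    by_cases h2 : kk μ a = n - 1
    · rw [if_pos ((cast_add_one_eq_zero (by omega) b0 (by omega)).2 h2),
        if_pos ((kk_cross hμ a _).1 ⟨h, h2⟩)]
    · rw [if_neg (fun hc => h2 ((cast_add_one_eq_zero (by omega) b0 (by omega)).1 hc)),
        if_neg (fun hc => h2 ((kk_cross hμ a _).2 hc).2)]

open Classical in
theorem lab0 (hn : 5 ≤ n) (hA : A + 3 ≤ n) (hb : BdLab n A c x0 x1 z γ) {μ : ℕ} (hμ : 1 ≤ μ)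
    {U : Fin 5 → ℤ} (hU : Pl μ A U) (h0 : 0 ≤ U 0) (h1 : U 0 + 1 ≤ 3 * n * μ) :
    ell c (kv n μ U) (kv n μ (Function.update U 0 (U 0 + 1))) =
      if Cross μ (U 0) (n - 1) then x0 else 1 := by
  rw [ell_kv (by omega) hμ]
  exact lab_aux hn hμ _ h0 h1 (hb.b0 _ (vc_mem hn hA (by omega) hU))

open Classical in
theorem lab1 (hn : 5 ≤ n) (hA : A + 3 ≤ n) (hb : BdLab n A c x0 x1 z γ) {μ : ℕ} (hμ : 1 ≤ μ)
    {U : Fin 5 → ℤ} (hU : Pl μ A U) (h0 : 0 ≤ U 1) (h1 : U 1 + 1 ≤ 3 * n * μ) :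
    ell c (kv n μ U) (kv n μ (Function.update U 1 (U 1 + 1))) =
      if Cross μ (U 1) (n - 1) then x1 else 1 := by
  rw [ell_kv (by omega) hμ]
  exact lab_aux hn hμ _ h0 h1 (hb.b1 _ (vc_mem hn hA (by omega) hU))

open Classical in
theorem lab2 (hn : 5 ≤ n) (hA : A + 3 ≤ n) (hb : BdLab n A c x0 x1 z γ) {μ : ℕ} (hμ : 1 ≤ μ)
    {U : Fin 5 → ℤ} (hU : Pl μ A U) (h0 : 0 ≤ U 2) (h1 : U 2 + 1 ≤ 3 * n * μ) :
    ell c (kv n μ U) (kv n μ (Function.update U 2 (U 2 + 1))) =
      if Cross μ (U 2) (n - 1) then z else 1 := by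
  rw [ell_kv (by omega) hμ]
  exact lab_aux hn hμ _ h0 h1 (hb.b2 _ (vc_mem hn hA (by omega) hU))

theorem lab3 (hn : 5 ≤ n) (hA : A + 3 ≤ n) (hb : BdLab n A c x0 x1 z γ) {μ : ℕ} (hμ : 1 ≤ μ)
    {U : Fin 5 → ℤ} (h3 : U 4 = 0 ∨ U 4 = 9 * μ) (h4 : 0 ≤ U 3) (h5 : U 3 + 1 ≤ 3 * A * μ) :
    ell c (kv n μ U) (kv n μ (Function.update U 3 (U 3 + 1))) = 1 := by
  have hμ0 : 0 < μ := by omega
  rw [ell_kv (by omega) hμ]
  split_ifs with h
  · rfl
  · apply hb.b3 _ (ec3_mem hn hA hμ0 h3 h4 _)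
    have b1 : kk μ (U 3 + 1) ≤ A := kk_le hμ0 h5
    have b2 := kk_succ hμ h
    omega

open Classical in
theorem lab4 (hn : 5 ≤ n) (hA : A + 3 ≤ n) (hb : BdLab n A c x0 x1 z γ) {μ : ℕ} (hμ : 1 ≤ μ)
    {U : Fin 5 → ℤ} (hA1 : 1 ≤ A) (h3 : U 3 = 0 ∨ U 3 = 3 * A * μ) (h4 : 0 ≤ U 4)
    (h5 : U 4 + 1 ≤ 9 * μ) :
    ell c (kv n μ U) (kv n μ (Function.update U 4 (U 4 + 1))) =
      if U 3 = 3 * A * μ ∧ Cross μ (U 4) 1 then γ else 1 := by
  have hμ0 : 0 < μ := by omega
  have hμZ : (0 : ℤ) < μ := by exact_mod_cast hμ0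
  have hAZ : (1 : ℤ) ≤ A := by exact_mod_cast hA1
  rw [ell_kv (by omega) hμ]
  by_cases h : kk μ (U 4 + 1) = kk μ (U 4)
  · rw [if_pos h, if_neg]
    intro hc
    exact ((kk_cross hμ _ _).2 hc.2).1 h
  · rw [if_neg h]
    have b1 : kk μ (U 4 + 1) ≤ 3 := kk_le hμ0 (by linarith)
    have b2 := kk_succ hμ h
    have b3 := kk_nonneg hμ0 h4
    rw [hb.b4 _ (ec4_mem hn hA hμ0 h3 h4 (by omega))]
    have e3 : (kv n μ U 3 = (A : ZMod n)) ↔ U 3 = 3 * A * μ := by
      have a1 : kk μ (U 3) = 0 ∨ kk μ (U 3) = A := by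
        rcases h3 with h3 | h3
        · left; rw [h3, kk_zero hμ0]
        · right; rw [h3, kk_mul hμ0]
      show (((kk μ (U 3) : ℤ) : ZMod n) = (A : ZMod n)) ↔ _
      rw [cast_eq_natCast (by omega) (by omega) (by omega)]
      constructor
      · intro h6
        rcases h3 with h3 | h3
        · rw [h3, kk_zero hμ0] at h6
          omega
        · exact h3
      · intro h6
        rw [h6, kk_mul hμ0]
    have e4 : (kv n μ U 4 = 1) ↔ Cross μ (U 4) 1 := by
      show (((kk μ (U 4) : ℤ) : ZMod n) = 1) ↔ _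
      have := cast_eq_natCast (n := n) (k := kk μ (U 4)) (m := 1) b3 (by omega) (by omega)
      rw [Nat.cast_one] at this
      rw [this]
      constructor
      · intro h6
        exact (kk_cross hμ _ _).1 ⟨h, by exact_mod_cast h6⟩
      · intro h6
        exact_mod_cast ((kk_cross hμ _ _).2 h6).2
    simp only [e3, e4]

open Classical in
/-- the label of a step in direction `d` -/
noncomputable def Lab (n μ A : ℕ) (x0 x1 z γ : G) (u : Fin 5 → ℤ) (d : Fin 5) : G :=
  if d = 0 then (if Cross μ (u 0) (n - 1) then x0 else 1)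
  else if d = 1 then (if Cross μ (u 1) (n - 1) then x1 else 1)
  else if d = 2 then (if Cross μ (u 2) (n - 1) then z else 1)
  else if d = 3 then 1
  else (if u 3 = 3 * A * μ ∧ Cross μ (u 4) 1 then γ else 1)

/-- the integer lift of a lattice point -/
def lft {N : ℕ} (q : Fin 5 → ZMod N) : Fin 5 → ℤ := fun i => ((q i).val : ℤ)

theorem lft_spec {N : ℕ} [NeZero N] (q : Fin 5 → ZMod N) (i : Fin 5) :
    ((lft q i : ℤ) : ZMod N) = q i := by
  unfold lft
  rw [Int.cast_natCast, ZMod.natCast_zmod_val]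

theorem Kap_simp4 {μ : ℕ} [NeZero (3 * n * μ)] (hμ : 0 < μ) (q : Fin 5 → ZMod (3 * n * μ))
    (σ : Equiv.Perm (Fin 5)) (j : Fin 5) :
    Kap (fpos n μ (simp4 q σ j)) = kv n μ (N02.sv (lft q) σ j) := by
  rw [N02.fpos_lift hμ (N02.simp4_lift (lft_spec q) σ j)]
  funext i
  rfl

theorem sv_bounds (u : Fin 5 → ℤ) (σ : Equiv.Perm (Fin 5)) (j : ℕ) (i : Fin 5) :
    u i ≤ N02.sv u σ j i ∧ N02.sv u σ j i ≤ u i + 1 := by
  unfold N02.sv
  split_ifs <;> omega

theorem sv_dir (u : Fin 5 → ℤ) (σ : Equiv.Perm (Fin 5)) (j : Fin 5) (j' : ℕ) (h : j' < j) :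
    N02.sv u σ j' (σ j) = u (σ j) := by
  unfold N02.sv
  rw [Equiv.symm_apply_apply, if_neg (by omega), add_zero]

theorem TF_lft {μ : ℕ} [NeZero (3 * n * μ)] {q : Fin 5 → ZMod (3 * n * μ)}
    {σ : Equiv.Perm (Fin 5)} (h : (q, σ) ∈ TF n μ A) :
    (∀ i, 0 ≤ lft q i ∧ lft q i + 1 ≤ 3 * n * μ) ∧
    ((σ 0 = 3 ∧ (lft q 3 = 0 ∨ lft q 3 = 3 * A * μ) ∧ lft q 4 + 1 ≤ 9 * μ) ∨
      (σ 0 = 4 ∧ (lft q 4 = 0 ∨ lft q 4 = 9 * μ) ∧ lft q 3 + 1 ≤ 3 * A * μ)) := by
  refine ⟨fun i => ⟨by unfold lft; positivity, ?_⟩, ?_⟩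
  · have := ZMod.val_lt (q i)
    unfold lft
    exact_mod_cast this
  · unfold lft
    rcases h with ⟨h1, h2, h3⟩ | ⟨h1, h2, h3⟩
    · left
      simp only at h1 h2 h3
      refine ⟨h1, ?_, by exact_mod_cast h3⟩
      rcases h2 with h2 | h2
      · left; exact_mod_cast h2
      · right; exact_mod_cast h2
    · right
      simp only at h1 h2 h3
      refine ⟨h1, ?_, by exact_mod_cast h3⟩
      rcases h2 with h2 | h2
      · left; exact_mod_cast h2
      · right; exact_mod_cast h2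

theorem sv_Pl {μ : ℕ} [NeZero (3 * n * μ)] {q : Fin 5 → ZMod (3 * n * μ)}
    {σ : Equiv.Perm (Fin 5)} (h : (q, σ) ∈ TF n μ A) (j : ℕ) : Pl μ A (N02.sv (lft q) σ j) := by
  obtain ⟨hb, h⟩ := TF_lft h
  have b3 := sv_bounds (lft q) σ j 3
  have b4 := sv_bounds (lft q) σ j 4
  have h3 := hb 3
  have h4 := hb 4
  rcases h with ⟨h1, h2, h5⟩ | ⟨h1, h2, h5⟩
  · left
    have e := N02.sv_normal (lft q) σ j
    rw [h1] at e
    rw [e]
    exact ⟨h2, by omega, by linarith⟩
  · right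
    have e := N02.sv_normal (lft q) σ j
    rw [h1] at e
    rw [e]
    exact ⟨h2, by omega, by linarith⟩

theorem step_label (hn : 5 ≤ n) (hA1 : 1 ≤ A) (hA : A + 3 ≤ n) (hb : BdLab n A c x0 x1 z γ)
    {μ : ℕ} (hμ : 1 ≤ μ) [NeZero (3 * n * μ)] {q : Fin 5 → ZMod (3 * n * μ)}
    {σ : Equiv.Perm (Fin 5)} (h : (q, σ) ∈ TF n μ A) (j j' : Fin 5) (hj : (j' : ℕ) + 1 = j) :
    mOf c (fpos n μ (simp4 q σ j')) (fpos n μ (simp4 q σ j)) =
      Lab n μ A x0 x1 z γ (lft q) (σ j) := by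
  have hμ0 : 0 < μ := by omega
  unfold mOf
  rw [Kap_simp4 hμ0, Kap_simp4 hμ0]
  have hj0 : j ≠ 0 := by
    rintro rfl
    simp at hj
  rw [N02.sv_succ (lft q) σ j hj0, show ((j : ℕ) - 1) = j' by omega]
  have hPl := sv_Pl h (j' : ℕ)
  have hdir := sv_dir (lft q) σ j j' (by omega)
  have hσ : σ 0 ≠ σ j := fun e => hj0 (σ.injective e).symm
  obtain ⟨hbd, hTF⟩ := TF_lft h
  have b3 := sv_bounds (lft q) σ j' 3
  have b4 := sv_bounds (lft q) σ j' 4
  have e0 := N02.sv_normal (lft q) σ (j' : ℕ)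
  generalize N02.sv (lft q) σ (j' : ℕ) = U at *
  have hd : σ j = 0 ∨ σ j = 1 ∨ σ j = 2 ∨ σ j = 3 ∨ σ j = 4 := by
    generalize σ j = d
    fin_cases d <;> simp
  unfold Lab
  rcases hd with hd | hd | hd | hd | hd
  · rw [hd] at hdir ⊢
    rw [if_pos rfl, lab0 hn hA hb hμ hPl (by rw [hdir]; exact (hbd 0).1)
      (by rw [hdir]; exact (hbd 0).2), hdir]
  · rw [hd] at hdir ⊢
    rw [if_neg (by decide), if_pos rfl, lab1 hn hA hb hμ hPl (by rw [hdir]; exact (hbd 1).1)
      (by rw [hdir]; exact (hbd 1).2), hdir]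
  · rw [hd] at hdir ⊢
    rw [if_neg (by decide), if_neg (by decide), if_pos rfl,
      lab2 hn hA hb hμ hPl (by rw [hdir]; exact (hbd 2).1)
      (by rw [hdir]; exact (hbd 2).2), hdir]
  · rw [hd] at hdir ⊢ hσ
    rw [if_neg (by decide), if_neg (by decide), if_neg (by decide), if_pos rfl]
    rcases hTF with ⟨h1, h2, h5⟩ | ⟨h1, h2, h5⟩
    · exact absurd h1 hσ
    · rw [h1] at e0
      refine lab3 hn hA hb hμ ?_ ?_ ?_
      · rw [e0]; exact h2
      · rw [hdir]; exact (hbd 3).1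
      · rw [hdir]; exact h5
  · rw [hd] at hdir ⊢ hσ
    rw [if_neg (by decide), if_neg (by decide), if_neg (by decide), if_neg (by decide)]
    rcases hTF with ⟨h1, h2, h5⟩ | ⟨h1, h2, h5⟩
    · rw [h1] at e0
      rw [lab4 hn hA hb hμ hA1 (by rw [e0]; exact h2) (by rw [hdir]; exact (hbd 4).1)
        (by rw [hdir]; exact h5), hdir, e0]
    · exact absurd h1 hσ

end lab

/-! ### the distinguished simplex -/

/-- the order of the directions of the distinguished simplex -/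
def sst : Equiv.Perm (Fin 5) := ⟨![3, 0, 1, 4, 2], ![1, 2, 4, 0, 3], by decide, by decide⟩

/-- the first vertex of the distinguished simplex -/
def qst (n μ A : ℕ) : Fin 5 → ZMod (3 * n * μ) :=
  ![(((6 * n - 3) * μ - 1) / 2 : ℕ), (((6 * n - 3) * μ - 1) / 2 : ℕ),
    (((6 * n - 3) * μ - 1) / 2 : ℕ), ((3 * A * μ : ℕ) : ZMod (3 * n * μ)),
    ((9 * μ - 1) / 2 : ℕ)]

theorem cross_unique {μ : ℕ} {a b k : ℤ} (h : Cross μ a k) (h' : Cross μ b k) : a = b := by
  unfold Cross at h h'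
  omega

theorem val0 {n μ : ℕ} (hn : 5 ≤ n) (hμ : 4 ≤ μ) :
    ((((6 * n - 3) * μ - 1) / 2 : ℕ) : ZMod (3 * n * μ)).val = ((6 * n - 3) * μ - 1) / 2 := by
  apply ZMod.val_cast_of_lt
  have e : (6 * n - 3) * μ = 6 * n * μ - 3 * μ := by
    rw [Nat.sub_mul]
  have : 3 * μ ≤ 6 * n * μ := by nlinarith
  rw [e]
  have e2 : 6 * n * μ = 2 * (3 * n * μ) := by ring
  omega

theorem val4 {n μ : ℕ} (hn : 5 ≤ n) (hμ : 4 ≤ μ) :
    (((9 * μ - 1) / 2 : ℕ) : ZMod (3 * n * μ)).val = (9 * μ - 1) / 2 := by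
  apply ZMod.val_cast_of_lt
  have : 15 * μ ≤ 3 * n * μ := by nlinarith
  omega

theorem val3 {n μ A : ℕ} (hμ : 4 ≤ μ) (hA : A + 3 ≤ n) :
    ((3 * A * μ : ℕ) : ZMod (3 * n * μ)).val = 3 * A * μ := by
  apply ZMod.val_cast_of_lt
  have : (A + 3) * μ ≤ n * μ := Nat.mul_le_mul_right _ hA
  nlinarith

theorem cross0 {n μ : ℕ} (hn : 5 ≤ n) (hμ : 4 ≤ μ) :
    Cross μ ((((6 * n - 3) * μ - 1) / 2 : ℕ) : ℤ) (n - 1) := by
  unfold Cross
  have e : ((6 * ((n : ℤ) - 1) + 3) * μ) = (((6 * n - 3) * μ : ℕ) : ℤ) := by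
    rw [Nat.cast_mul, Nat.cast_sub (by omega)]
    push_cast
    ring
  rw [e]
  have : 1 ≤ (6 * n - 3) * μ := Nat.mul_pos (by omega) (by omega)
  generalize (6 * n - 3) * μ = M at *
  omega

theorem cross4 {μ : ℕ} (hμ : 4 ≤ μ) : Cross μ (((9 * μ - 1) / 2 : ℕ) : ℤ) 1 := by
  unfold Cross
  omega

theorem mem_TF {n μ A : ℕ} (hμ : 4 ≤ μ) (hn : 5 ≤ n) (hA : A + 3 ≤ n) :
    (qst n μ A, sst) ∈ TF n μ A := by
  left
  refine ⟨rfl, Or.inr (val3 hμ hA), ?_⟩
  show (((9 * μ - 1) / 2 : ℕ) : ZMod (3 * n * μ)).val < 9 * μ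
  rw [val4 hn hμ]
  omega

theorem perm_eq {σ : Equiv.Perm (Fin 5)} (h1 : σ 1 = 0) (h2 : σ 2 = 1) (h3 : σ 3 = 4)
    (h4 : σ 4 = 2) : σ = sst := by
  have h0 : σ 0 = 3 := by
    have a1 : σ 0 ≠ σ 1 := fun e => absurd (σ.injective e) (by decide)
    have a2 : σ 0 ≠ σ 2 := fun e => absurd (σ.injective e) (by decide)
    have a3 : σ 0 ≠ σ 3 := fun e => absurd (σ.injective e) (by decide)
    have a4 : σ 0 ≠ σ 4 := fun e => absurd (σ.injective e) (by decide)
    rw [h1] at a1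
    rw [h2] at a2
    rw [h3] at a3
    rw [h4] at a4
    generalize σ 0 = d at *
    fin_cases d <;> simp_all
  ext i
  fin_cases i
  · exact congrArg Fin.val h0
  · exact congrArg Fin.val h1
  · exact congrArg Fin.val h2
  · exact congrArg Fin.val h3
  · exact congrArg Fin.val h4

theorem qst_eq {n μ A : ℕ} [NeZero (3 * n * μ)] (hn : 5 ≤ n) (hμ : 4 ≤ μ) (hA : A + 3 ≤ n)
    {q : Fin 5 → ZMod (3 * n * μ)}
    (h0 : Cross μ (lft q 0) (n - 1)) (h1 : Cross μ (lft q 1) (n - 1))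
    (h2 : Cross μ (lft q 2) (n - 1)) (h3 : lft q 3 = 3 * A * μ) (h4 : Cross μ (lft q 4) 1) :
    q = qst n μ A := by
  have e0 := cross_unique h0 (cross0 hn hμ)
  have e1 := cross_unique h1 (cross0 hn hμ)
  have e2 := cross_unique h2 (cross0 hn hμ)
  have e4 := cross_unique h4 (cross4 hμ)
  unfold lft at e0 e1 e2 e4 h3
  have key : ∀ (a : ZMod (3 * n * μ)) (m : ℕ), ((a.val : ℕ) : ℤ) = ((m : ℕ) : ℤ) →
      a = (m : ZMod (3 * n * μ)) := by
    intro a m h
    have h' : a.val = m := by exact_mod_cast h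
    rw [← h', ZMod.natCast_zmod_val]
  funext i
  fin_cases i
  · exact key _ _ e0
  · exact key _ _ e1
  · exact key _ _ e2
  · exact key _ _ (h3.trans (by push_cast; ring))
  · exact key _ _ e4

theorem ell_update2 {n : ℕ} {G : Type} [Group G] (c : Vx n → Fin 5 → G) (v : Vx n)
    (a b : ZMod n) : ell c v (Function.update (Function.update v 0 a) 1 b) =
      ell c v (Function.update v 0 a) *
        ell c (Function.update v 0 a) (Function.update (Function.update v 0 a) 1 b) := by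
  rw [ell_update, ell_update]
  have hs : ∀ (w : Vx n) (i : Fin 5), stp c w i (w i) = 1 := fun w i => by simp [stp]
  simp only [ell]
  have w0 : Function.update (Function.update v 0 a) 1 b 0 = a := by
    rw [Function.update_of_ne (by decide), Function.update_self]
  rw [w0]
  have w1 : Function.update (Function.update v 0 a) 1 b 1 = b := Function.update_self _ _ _
  rw [w1]
  have e2 : Function.update (Function.update (Function.update v 0 a) 1 b) 2
      (Function.update (Function.update v 0 a) 1 b 2) = Function.update (Function.update v 0 a) 1 b :=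
    Function.update_eq_self _ _
  rw [e2]
  have e3 : Function.update (Function.update (Function.update v 0 a) 1 b) 3
      (Function.update (Function.update v 0 a) 1 b 3) = Function.update (Function.update v 0 a) 1 b :=
    Function.update_eq_self _ _
  rw [e3, hs, hs, hs, mul_one, mul_one, mul_one]

theorem ell_update3 {n : ℕ} {G : Type} [Group G] (c : Vx n → Fin 5 → G) (v : Vx n)
    (a b e : ZMod n) :
    ell c v (Function.update (Function.update (Function.update v 0 a) 1 b) 4 e) =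
      ell c v (Function.update v 0 a) *
        ell c (Function.update v 0 a) (Function.update (Function.update v 0 a) 1 b) *
        ell c (Function.update (Function.update v 0 a) 1 b)
          (Function.update (Function.update (Function.update v 0 a) 1 b) 4 e) := by
  rw [ell_update, ell_update, ell_update]
  have hs : ∀ (w : Vx n) (i : Fin 5), stp c w i (w i) = 1 := fun w i => by simp [stp]
  simp only [ell]
  have w0 : Function.update (Function.update (Function.update v 0 a) 1 b) 4 e 0 = a := by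
    rw [Function.update_of_ne (by decide), Function.update_of_ne (by decide), Function.update_self]
  rw [w0]
  have w1 : Function.update (Function.update (Function.update v 0 a) 1 b) 4 e 1 = b := by
    rw [Function.update_of_ne (by decide), Function.update_self]
  rw [w1]
  have w2 : Function.update (Function.update (Function.update v 0 a) 1 b) 4 e 2 =
      Function.update (Function.update v 0 a) 1 b 2 := by
    rw [Function.update_of_ne (by decide)]
  rw [w2]
  have e2 : Function.update (Function.update (Function.update v 0 a) 1 b) 2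
      (Function.update (Function.update v 0 a) 1 b 2) = Function.update (Function.update v 0 a) 1 b :=
    Function.update_eq_self _ _
  rw [e2]
  have w3 : Function.update (Function.update (Function.update v 0 a) 1 b) 4 e 3 =
      Function.update (Function.update v 0 a) 1 b 3 := by
    rw [Function.update_of_ne (by decide)]
  rw [w3]
  have e3 : Function.update (Function.update (Function.update v 0 a) 1 b) 3
      (Function.update (Function.update v 0 a) 1 b 3) = Function.update (Function.update v 0 a) 1 b :=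
    Function.update_eq_self _ _
  rw [e3, hs, hs, Function.update_self, mul_one, mul_one]

theorem Lab_ind {n μ A : ℕ} {G : Type} [Group G] {x0 x1 z γ : G} {u : Fin 5 → ℤ} {d : Fin 5}
    (P : G → Prop) (p : P 1) (p0 : d = 0 → Cross μ (u 0) (n - 1) → P x0)
    (p1 : d = 1 → Cross μ (u 1) (n - 1) → P x1) (p2 : d = 2 → Cross μ (u 2) (n - 1) → P z)
    (p4 : d = 4 → u 3 = 3 * A * μ → Cross μ (u 4) 1 → P γ) : P (Lab n μ A x0 x1 z γ u d) := by
  have hd : d = 0 ∨ d = 1 ∨ d = 2 ∨ d = 3 ∨ d = 4 := by fin_cases d <;> simp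
  unfold Lab
  rcases hd with rfl | rfl | rfl | rfl | rfl
  · rw [if_pos rfl]
    split_ifs with h
    · exact p0 rfl h
    · exact p
  · rw [if_neg (by decide), if_pos rfl]
    split_ifs with h
    · exact p1 rfl h
    · exact p
  · rw [if_neg (by decide), if_neg (by decide), if_pos rfl]
    split_ifs with h
    · exact p2 rfl h
    · exact p
  · rw [if_neg (by decide), if_neg (by decide), if_neg (by decide), if_pos rfl]
    exact p
  · rw [if_neg (by decide), if_neg (by decide), if_neg (by decide), if_neg (by decide)]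
    split_ifs with h
    · exact p4 rfl h.1 h.2
    · exact p

end C20

open C20

open scoped Classical in
theorem torus_value {n : ℕ} [NeZero n] {A : ℕ} (hn : 5 ≤ n) (hA1 : 1 ≤ A) (hA : A + 3 ≤ n)
    {K : Set (Cell n)} (hK : IsCx K) (hKO : KO n A ⊆ K) {G : Type} [Group G]
    {c : Vx n → Fin 5 → G} (hc : Flat (K ∩ PC n A) c) {x0 x1 z γ : G}
    (hb : BdLab n A c x0 x1 z γ) {M0 M1 M2 M3 : Type} [AddCommGroup M0] [AddCommGroup M1]
    [AddCommGroup M2] [AddCommGroup M3] [DistribMulAction G M0] [DistribMulAction G M1]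
    [DistribMulAction G M2] [DistribMulAction G M3] (Φ : M0 →+ M1 →+ M2 →+ M3 →+ ZMod 2)
    (α0 : G → M0) (α1 : G → M1) (α2 : G → M2) (α3 : G → M3)
    (h0 : ∀ g h, α0 (g * h) = α0 g + g • α0 h) (h1 : ∀ g h, α1 (g * h) = α1 g + g • α1 h)
    (h2 : ∀ g h, α2 (g * h) = α2 g + g • α2 h) (h3 : ∀ g h, α3 (g * h) = α3 g + g • α3 h)
    (v0 : α0 x1 = 0 ∧ α0 γ = 0 ∧ α0 z = 0) (v1 : α1 x0 = 0 ∧ α1 γ = 0 ∧ α1 z = 0)
    (v2 : α2 x0 = 0 ∧ α2 x1 = 0 ∧ α2 z = 0) (v3 : α3 x0 = 0 ∧ α3 x1 = 0 ∧ α3 γ = 0)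
    (hv : Φ (α0 x0) (x0 • α1 x1) ((x0 * x1) • α2 γ) ((x0 * x1 * γ) • α3 z) = 1)
    {μ : ℕ} (hμ : 4 ≤ μ) [NeZero (3 * n * μ)] :
    ∑ q : Fin 5 → ZMod (3 * n * μ), ∑ σ : Equiv.Perm (Fin 5),
      (if (q, σ) ∈ TF n μ A then
        cup Φ (fun a b => mOf c (fpos n μ a) (fpos n μ b))
          (fun a b => α0 (mOf c (fpos n μ a) (fpos n μ b)))
          (fun a b => α1 (mOf c (fpos n μ a) (fpos n μ b)))
          (fun a b => α2 (mOf c (fpos n μ a) (fpos n μ b)))
          (fun a b => α3 (mOf c (fpos n μ a) (fpos n μ b))) (simp4 q σ) else 0) = 1 := by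
  have hμ0 : 0 < μ := by omega
  have hμ1 : 1 ≤ μ := by omega
  have o0 : α0 1 = 0 := by simpa using h0 1 1
  have o1 : α1 1 = 0 := by simpa using h1 1 1
  have o2 : α2 1 = 0 := by simpa using h2 1 1
  have o3 : α3 1 = 0 := by simpa using h3 1 1
  have l0 : ∀ u d, α0 (Lab n μ A x0 x1 z γ u d) ≠ 0 → d = 0 ∧ Cross μ (u 0) (n - 1) := by
    intro u d h
    by_contra hno
    exact h (Lab_ind (fun g => α0 g = 0) o0 (fun a b => absurd ⟨a, b⟩ hno) (fun _ _ => v0.1)
      (fun _ _ => v0.2.2) (fun _ _ _ => v0.2.1))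
  have l1 : ∀ u d, α1 (Lab n μ A x0 x1 z γ u d) ≠ 0 → d = 1 ∧ Cross μ (u 1) (n - 1) := by
    intro u d h
    by_contra hno
    exact h (Lab_ind (fun g => α1 g = 0) o1 (fun _ _ => v1.1) (fun a b => absurd ⟨a, b⟩ hno)
      (fun _ _ => v1.2.2) (fun _ _ _ => v1.2.1))
  have l2 : ∀ u d, α2 (Lab n μ A x0 x1 z γ u d) ≠ 0 →
      d = 4 ∧ u 3 = 3 * A * μ ∧ Cross μ (u 4) 1 := by
    intro u d h
    by_contra hno
    exact h (Lab_ind (fun g => α2 g = 0) o2 (fun _ _ => v2.1) (fun _ _ => v2.2.1)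
      (fun _ _ => v2.2.2) (fun a b e => absurd ⟨a, b, e⟩ hno))
  have l3 : ∀ u d, α3 (Lab n μ A x0 x1 z γ u d) ≠ 0 → d = 2 ∧ Cross μ (u 2) (n - 1) := by
    intro u d h
    by_contra hno
    exact h (Lab_ind (fun g => α3 g = 0) o3 (fun _ _ => v3.1) (fun _ _ => v3.2.1)
      (fun a b => absurd ⟨a, b⟩ hno) (fun _ _ _ => v3.2.2))
  have claim1 : ∀ q σ, (q, σ) ∈ TF n μ A → ¬ (q = qst n μ A ∧ σ = sst) →
      cup Φ (fun a b => mOf c (fpos n μ a) (fpos n μ b))
          (fun a b => α0 (mOf c (fpos n μ a) (fpos n μ b)))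
          (fun a b => α1 (mOf c (fpos n μ a) (fpos n μ b)))
          (fun a b => α2 (mOf c (fpos n μ a) (fpos n μ b)))
          (fun a b => α3 (mOf c (fpos n μ a) (fpos n μ b))) (simp4 q σ) = 0 := by
    intro q σ hT hno
    by_contra hne
    have s1 := step_label hn hA1 hA hb hμ1 hT 1 0 rfl
    have s2 := step_label hn hA1 hA hb hμ1 hT 2 1 rfl
    have s3 := step_label hn hA1 hA hb hμ1 hT 3 2 rfl
    have s4 := step_label hn hA1 hA hb hμ1 hT 4 3 rfl
    unfold cup at hne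
    simp only [s1, s2, s3, s4] at hne
    have c0 := l0 _ _ (fun e => hne (by rw [e]; simp))
    have c1 := l1 _ _ (fun e => hne (by rw [e]; simp))
    have c2 := l2 _ _ (fun e => hne (by rw [e]; simp))
    have c3 := l3 _ _ (fun e => hne (by rw [e]; simp))
    exact hno ⟨qst_eq hn hμ hA c0.2 c1.2 c3.2 c2.2.1 c2.2.2, perm_eq c0.1 c1.1 c2.1 c3.1⟩
  rw [Finset.sum_eq_single (qst n μ A), Finset.sum_eq_single sst]
  · have hT := mem_TF (A := A) hμ hn hA
    rw [if_pos hT]
    have s1 := step_label hn hA1 hA hb hμ1 hT 1 0 rfl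
    have s2 := step_label hn hA1 hA hb hμ1 hT 2 1 rfl
    have s3 := step_label hn hA1 hA hb hμ1 hT 3 2 rfl
    have s4 := step_label hn hA1 hA hb hμ1 hT 4 3 rfl
    have q0 : lft (qst n μ A) 0 = (((6 * n - 3) * μ - 1) / 2 : ℕ) := by
      show ((((((6 * n - 3) * μ - 1) / 2 : ℕ) : ZMod (3 * n * μ)).val : ℕ) : ℤ) = _
      rw [val0 hn hμ]
    have q4 : lft (qst n μ A) 4 = ((9 * μ - 1) / 2 : ℕ) := by
      show (((((9 * μ - 1) / 2 : ℕ) : ZMod (3 * n * μ)).val : ℕ) : ℤ) = _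
      rw [val4 hn hμ]
    have q3 : lft (qst n μ A) 3 = 3 * A * μ := by
      show ((((3 * A * μ : ℕ) : ZMod (3 * n * μ)).val : ℕ) : ℤ) = _
      rw [val3 hμ hA]
      push_cast
      ring
    have t1 : Lab n μ A x0 x1 z γ (lft (qst n μ A)) (sst 1) = x0 := by
      show Lab n μ A x0 x1 z γ (lft (qst n μ A)) 0 = x0
      unfold Lab
      rw [if_pos rfl, if_pos]
      rw [q0]
      exact cross0 hn hμ
    have t2 : Lab n μ A x0 x1 z γ (lft (qst n μ A)) (sst 2) = x1 := by
      show Lab n μ A x0 x1 z γ (lft (qst n μ A)) 1 = x1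
      unfold Lab
      rw [if_neg (by decide), if_pos rfl, if_pos]
      show Cross μ (lft (qst n μ A) 0) _
      rw [q0]
      exact cross0 hn hμ
    have t3 : Lab n μ A x0 x1 z γ (lft (qst n μ A)) (sst 3) = γ := by
      show Lab n μ A x0 x1 z γ (lft (qst n μ A)) 4 = γ
      unfold Lab
      rw [if_neg (by decide), if_neg (by decide), if_neg (by decide), if_neg (by decide), if_pos]
      rw [q4]
      exact ⟨q3, cross4 hμ⟩
    have t4 : Lab n μ A x0 x1 z γ (lft (qst n μ A)) (sst 4) = z := by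
      show Lab n μ A x0 x1 z γ (lft (qst n μ A)) 2 = z
      unfold Lab
      rw [if_neg (by decide), if_neg (by decide), if_pos rfl, if_pos]
      show Cross μ (lft (qst n μ A) 0) _
      rw [q0]
      exact cross0 hn hμ
    rw [t1] at s1
    rw [t2] at s2
    rw [t3] at s3
    rw [t4] at s4
    have u1 : kv n μ (N02.sv (lft (qst n μ A)) sst (1 : Fin 5)) =
        Function.update (kv n μ (N02.sv (lft (qst n μ A)) sst (0 : Fin 5))) 0
          ((kk μ (N02.sv (lft (qst n μ A)) sst (0 : Fin 5) 0 + 1) : ℤ) : ZMod n) := by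
      rw [← kv_update]
      exact congrArg _ (N02.sv_succ (lft (qst n μ A)) sst 1 (by decide))
    have u2 : kv n μ (N02.sv (lft (qst n μ A)) sst (2 : Fin 5)) =
        Function.update (kv n μ (N02.sv (lft (qst n μ A)) sst (1 : Fin 5))) 1
          ((kk μ (N02.sv (lft (qst n μ A)) sst (1 : Fin 5) 1 + 1) : ℤ) : ZMod n) := by
      rw [← kv_update]
      exact congrArg _ (N02.sv_succ (lft (qst n μ A)) sst 2 (by decide))
    have u3 : kv n μ (N02.sv (lft (qst n μ A)) sst (3 : Fin 5)) =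
        Function.update (kv n μ (N02.sv (lft (qst n μ A)) sst (2 : Fin 5))) 4
          ((kk μ (N02.sv (lft (qst n μ A)) sst (2 : Fin 5) 4 + 1) : ℤ) : ZMod n) := by
      rw [← kv_update]
      exact congrArg _ (N02.sv_succ (lft (qst n μ A)) sst 3 (by decide))
    have m02 : mOf c (fpos n μ (simp4 (qst n μ A) sst 0)) (fpos n μ (simp4 (qst n μ A) sst 2)) =
        x0 * x1 := by
      rw [← s1, ← s2]
      unfold mOf
      rw [Kap_simp4 hμ0, Kap_simp4 hμ0, Kap_simp4 hμ0, u2, u1]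
      exact ell_update2 _ _ _ _
    have m03 : mOf c (fpos n μ (simp4 (qst n μ A) sst 0)) (fpos n μ (simp4 (qst n μ A) sst 3)) =
        x0 * x1 * γ := by
      rw [← s1, ← s2, ← s3]
      unfold mOf
      rw [Kap_simp4 hμ0, Kap_simp4 hμ0, Kap_simp4 hμ0, Kap_simp4 hμ0, u3, u2, u1]
      exact ell_update3 _ _ _ _ _
    unfold cup
    simp only [s1, s2, s3, s4, m02, m03]
    exact hv
  · intro σ _ hσ
    split_ifs with hT
    · exact claim1 _ _ hT (fun h => hσ h.2)
    · rfl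
  · intro h
    exact absurd (Finset.mem_univ _) h
  · intro q _ hq
    apply Finset.sum_eq_zero
    intro σ _
    split_ifs with hT
    · exact claim1 _ _ hT (fun h => hq h.1)
    · rfl
  · intro h
    exact absurd (Finset.mem_univ _) h

end Pool.Agent.FM
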