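import Pool.Agent.FM.C17
import Pool.Agent.FM.B09
import Pool.Agent.FM.C01
import Pool.Agent.FM.C02
import Pool.Agent.FM.N02
import Pool.Agent.FM.C19
import Pool.Agent.FM.C20

/-!
# A nontrivial cup product excludes `LS4`
-/

open Set

namespace Pool.Agent.FM

namespace C21

/-- the window: the small cube is over the rectangle -/
def Win {N : ℕ} (A μ : ℕ) (q : Fin 5 → ZMod N) : Prop :=
  (q 3).val < 3 * A * μ ∧ (q 4).val < 9 * μ

theorem val_sub_one {N : ℕ} [NeZero N] (a : ZMod N) :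
    ((a - 1).val = a.val - 1 ∧ 1 ≤ a.val) ∨ ((a - 1).val = N - 1 ∧ a.val = 0) := by
  have hN : 0 < N := NeZero.pos N
  by_cases h : a.val = 0
  · right
    refine ⟨?_, h⟩
    have h0 : a = 0 := (ZMod.val_eq_zero a).mp h
    rw [h0, zero_sub]
    obtain ⟨k, rfl⟩ : ∃ k, N = k + 1 := ⟨N - 1, by omega⟩
    rw [ZMod.val_neg_one]
    rfl
  · left
    refine ⟨?_, by omega⟩
    have h1 : ((a.val - 1 : ℕ) : ZMod N) = a - 1 := by
      rw [Nat.cast_sub (by omega), ZMod.natCast_zmod_val, Nat.cast_one]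
    rw [← h1, ZMod.val_cast_of_lt]
    have := ZMod.val_lt a
    omega

/-- doubled coordinate of the cell of a small interval -/
theorem dbl_fcell {n μ : ℕ} [NeZero n] [NeZero (3 * n * μ)] (q : Fin 5 → ZMod (3 * n * μ))
    (i : Fin 5) : dbl (fcell n μ q i) =
      (if (q i).val / μ % 3 = 0 then 2 * ((q i).val / μ / 3)
       else if (q i).val / μ % 3 = 1 then 2 * ((q i).val / μ / 3) + 1
       else 2 * (((q i).val / μ / 3 + 1) % n)) ∧ (q i).val / μ / 3 < n := by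
  have hpos : 0 < 3 * n * μ := NeZero.pos _
  have hμ : 0 < μ := Nat.pos_of_mul_pos_left hpos
  have hlt : (q i).val < 3 * n * μ := ZMod.val_lt _
  have h1 : (q i).val / μ < 3 * n := by
    rw [Nat.div_lt_iff_lt_mul hμ]; exact hlt
  have h2 : (q i).val / μ / 3 < n := by omega
  refine ⟨?_, h2⟩
  unfold fcell
  simp only
  split_ifs with c0 c1
  · unfold dbl
    simp only
    rw [ZMod.val_cast_of_lt h2]
    simp
  · unfold dbl
    simp only
    rw [ZMod.val_cast_of_lt h2]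
    simp
  · unfold dbl
    simp only
    rw [ZMod.val_natCast]
    simp

theorem fcell_KO_of_not_win {n μ A : ℕ} [NeZero n] [NeZero (3 * n * μ)] (hn : 5 ≤ n)
    (hA1 : 1 ≤ A) (hA : A + 3 ≤ n) (q : Fin 5 → ZMod (3 * n * μ)) (h : ¬ Win A μ q) :
    fcell n μ q ∈ KO n A := by
  have hpos : 0 < 3 * n * μ := NeZero.pos _
  have hμ : 0 < μ := Nat.pos_of_mul_pos_left hpos
  unfold Win at h
  show ¬ _
  obtain ⟨e3, b3⟩ := dbl_fcell q 3
  obtain ⟨e4, b4⟩ := dbl_fcell q 4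
  rw [e3, e4]
  rintro ⟨h1, h2, h3, h4⟩
  apply h
  constructor
  · by_contra hc
    push Not at hc
    have : 3 * A ≤ (q 3).val / μ := by
      rw [Nat.le_div_iff_mul_le hμ]; exact hc
    generalize (q 3).val / μ = Q at *
    by_cases hw : Q / 3 + 1 = n
    · split_ifs at h1 h2 with c0 c1
      · omega
      · omega
      · rw [hw, Nat.mod_self] at h1; omega
    · rw [Nat.mod_eq_of_lt (show Q / 3 + 1 < n by omega)] at h1 h2
      split_ifs at h1 h2 <;> omega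
  · by_contra hc
    push Not at hc
    have : 9 ≤ (q 4).val / μ := by
      rw [Nat.le_div_iff_mul_le hμ]; exact hc
    generalize (q 4).val / μ = Q at *
    by_cases hw : Q / 3 + 1 = n
    · split_ifs at h3 h4 with c0 c1
      · omega
      · omega
      · rw [hw, Nat.mod_self] at h3; omega
    · rw [Nat.mod_eq_of_lt (show Q / 3 + 1 < n by omega)] at h3 h4
      split_ifs at h3 h4 <;> omega

theorem shi_self {N : ℕ} (q : Fin 5 → ZMod N) (i : Fin 5) : shi q i i = q i - 1 := by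
  unfold shi; rw [Function.update_self]

theorem shi_ne {N : ℕ} (q : Fin 5 → ZMod N) {i j : Fin 5} (h : j ≠ i) : shi q i j = q j := by
  unfold shi; rw [Function.update_of_ne h]

theorem aux3 (a b x y z a' : ℕ) (c1 : x + y ≤ z) (c2 : y < z) (c3 : 0 < x) (l3 : a < z)
    (l4 : b < z) (h : (a' = a - 1 ∧ 1 ≤ a) ∨ (a' = z - 1 ∧ a = 0)) :
    ¬ (a < x ∧ b < y ↔ a' < x ∧ b < y) ↔ (a = 0 ∨ a = x) ∧ b < y := by
  omega

theorem aux4 (a b x y z b' : ℕ) (c1 : x + y ≤ z) (c2 : y < z) (c3 : 0 < x) (c4 : 0 < y)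
    (l3 : a < z) (l4 : b < z) (h : (b' = b - 1 ∧ 1 ≤ b) ∨ (b' = z - 1 ∧ b = 0)) :
    ¬ (a < x ∧ b < y ↔ a < x ∧ b' < y) ↔ (b = 0 ∨ b = y) ∧ a < x := by
  omega

theorem win_iff_TF {n μ A : ℕ} [NeZero n] [NeZero (3 * n * μ)] (hn : 5 ≤ n)
    (hA1 : 1 ≤ A) (hA : A + 3 ≤ n) (q : Fin 5 → ZMod (3 * n * μ)) (σ : Equiv.Perm (Fin 5)) :
    ¬ (Win A μ q ↔ Win A μ (shi q (σ 0))) ↔ (q, σ) ∈ TF n μ A := by
  have hpos : 0 < 3 * n * μ := NeZero.pos _
  have hμ : 0 < μ := Nat.pos_of_mul_pos_left hpos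
  have c1 : 3 * A * μ + 9 * μ ≤ 3 * n * μ := by
    rw [← add_mul]; exact Nat.mul_le_mul_right _ (by omega)
  have c2 : 9 * μ < 3 * n * μ := Nat.mul_lt_mul_of_pos_right (by omega) hμ
  have c3 : 0 < 3 * A * μ := by positivity
  have l3 := ZMod.val_lt (q 3)
  have l4 := ZMod.val_lt (q 4)
  show _ ↔ (σ 0 = 3 ∧ ((q 3).val = 0 ∨ (q 3).val = 3 * A * μ) ∧ (q 4).val < 9 * μ) ∨
    (σ 0 = 4 ∧ ((q 4).val = 0 ∨ (q 4).val = 9 * μ) ∧ (q 3).val < 3 * A * μ)
  unfold Win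
  generalize σ 0 = i
  by_cases h3 : i = 3
  · subst h3
    rw [shi_self, shi_ne q (by decide : (4 : Fin 5) ≠ 3)]
    have h34 : ¬ ((3 : Fin 5) = 4) := by decide
    simp only [h34, false_and, or_false, true_and]
    exact aux3 _ _ _ _ _ _ c1 c2 c3 l3 l4 (val_sub_one (q 3))
  · by_cases h4 : i = 4
    · subst h4
      rw [shi_self, shi_ne q (by decide : (3 : Fin 5) ≠ 4)]
      have h43 : ¬ ((4 : Fin 5) = 3) := by decide
      simp only [h43, false_and, false_or, true_and]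
      exact aux4 _ _ _ _ _ _ c1 c2 c3 (by positivity) l3 l4 (val_sub_one (q 4))
    · rw [shi_ne q (Ne.symm h3), shi_ne q (Ne.symm h4)]
      simp [h3, h4]

theorem dbl_coe_false {n k : ℕ} (h : k < n) : dbl (((k : ℕ) : ZMod n), false) = 2 * k := by
  unfold dbl
  simp only
  rw [ZMod.val_cast_of_lt h]
  simp

theorem fcell_KO_of_TF {n μ A : ℕ} [NeZero n] [NeZero (3 * n * μ)] (hn : 5 ≤ n)
    (hA1 : 1 ≤ A) (hA : A + 3 ≤ n) (q : Fin 5 → ZMod (3 * n * μ)) (σ : Equiv.Perm (Fin 5))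
    (h : (q, σ) ∈ TF n μ A) : fcell n μ q ∈ KO n A ∧ fcell n μ (shi q (σ 0)) ∈ KO n A := by
  have hpos : 0 < 3 * n * μ := NeZero.pos _
  have hμ : 0 < μ := Nat.pos_of_mul_pos_left hpos
  -- values of the quotient at the four walls
  have d1 : (3 * A * μ) / μ = 3 * A := Nat.mul_div_cancel _ hμ
  have d2 : (9 * μ) / μ = 9 := Nat.mul_div_cancel _ hμ
  have d3 : (3 * A * μ - 1) / μ = 3 * A - 1 := by
    rw [Nat.div_eq_iff hμ]
    have : (3 * A - 1) * μ + μ = 3 * A * μ := by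
      rw [← Nat.succ_mul]; congr 1; omega
    have h0 : 0 < 3 * A * μ := by positivity
    constructor <;> omega
  have d4 : (9 * μ - 1) / μ = 8 := by
    rw [Nat.div_eq_iff hμ]
    constructor <;> omega
  have d5 : (3 * n * μ - 1) / μ = 3 * n - 1 := by
    rw [Nat.div_eq_iff hμ]
    have : (3 * n - 1) * μ + μ = 3 * n * μ := by
      rw [← Nat.succ_mul]; congr 1; omega
    constructor <;> omega
  have mA : (3 * A - 1) / 3 + 1 = A := by omega
  have mn : (3 * n - 1) / 3 + 1 = n := by omega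
  have key : ∀ (p : Fin 5 → ZMod (3 * n * μ)) (i : Fin 5), (i = 3 ∨ i = 4) →
      ((p i).val / μ = 0 ∨ (p i).val / μ = 3 * n - 1 ∨
        (i = 3 ∧ ((p i).val / μ = 3 * A ∨ (p i).val / μ = 3 * A - 1)) ∨
        (i = 4 ∧ ((p i).val / μ = 9 ∨ (p i).val / μ = 8))) → fcell n μ p ∈ KO n A := by
    intro p i hi hp
    show ¬ _
    obtain ⟨e, b⟩ := dbl_fcell p i
    rintro ⟨k1, k2, k3, k4⟩
    rcases hp with hp | hp | ⟨rfl, hp⟩ | ⟨rfl, hp⟩
    · rw [hp] at e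
      simp at e
      rcases hi with rfl | rfl <;> omega
    · rw [hp, if_neg (by omega), if_neg (by omega), mn, Nat.mod_self] at e
      rcases hi with rfl | rfl <;> omega
    · rcases hp with hp | hp
      · rw [hp, if_pos (by omega)] at e
        omega
      · rw [hp, if_neg (by omega), if_neg (by omega), mA, Nat.mod_eq_of_lt (by omega)] at e
        omega
    · rcases hp with hp | hp
      · rw [hp, if_pos (by omega)] at e
        omega
      · rw [hp, if_neg (by omega), if_neg (by omega), Nat.mod_eq_of_lt (by omega)] at e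
        omega
  rcases h with ⟨h0, h1, -⟩ | ⟨h0, h1, -⟩
  · simp only at h0 h1
    rw [h0]
    rcases h1 with h1 | h1
    · refine ⟨key q 3 (Or.inl rfl) (Or.inl (by rw [h1]; simp)), ?_⟩
      refine key _ 3 (Or.inl rfl) ?_
      rw [shi_self]
      rcases val_sub_one (q 3) with ⟨e, f⟩ | ⟨e, f⟩
      · omega
      · rw [e, d5]; exact Or.inr (Or.inl rfl)
    · refine ⟨key q 3 (Or.inl rfl) (Or.inr (Or.inr (Or.inl ⟨rfl, Or.inl (by rw [h1, d1])⟩))), ?_⟩
      refine key _ 3 (Or.inl rfl) ?_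
      rw [shi_self]
      rcases val_sub_one (q 3) with ⟨e, f⟩ | ⟨e, f⟩
      · rw [e, h1, d3]; exact Or.inr (Or.inr (Or.inl ⟨rfl, Or.inr rfl⟩))
      · rw [f] at h1
        have : 0 < 3 * A * μ := by positivity
        omega
  · simp only at h0 h1
    rw [h0]
    rcases h1 with h1 | h1
    · refine ⟨key q 4 (Or.inr rfl) (Or.inl (by rw [h1]; simp)), ?_⟩
      refine key _ 4 (Or.inr rfl) ?_
      rw [shi_self]
      rcases val_sub_one (q 4) with ⟨e, f⟩ | ⟨e, f⟩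
      · omega
      · rw [e, d5]; exact Or.inr (Or.inl rfl)
    · refine ⟨key q 4 (Or.inr rfl) (Or.inr (Or.inr (Or.inr ⟨rfl, Or.inl (by rw [h1, d2])⟩))), ?_⟩
      refine key _ 4 (Or.inr rfl) ?_
      rw [shi_self]
      rcases val_sub_one (q 4) with ⟨e, f⟩ | ⟨e, f⟩
      · rw [e, h1, d4]; exact Or.inr (Or.inr (Or.inr ⟨rfl, Or.inr rfl⟩))
      · omega

theorem X_sub_Np {n : ℕ} [NeZero n] {A : ℕ} {K : Set (Cell n)}
    (hKO : KO n A ⊆ K) : X K ⊆ Np K A := by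
  intro x hx
  refine ⟨hx.1, mem_PC_of fun h => hx.2 (hKO ?_)⟩
  exact C01.isCx_KO A _ h _ (face_Hi_Lo (by norm_num) (by norm_num) (by norm_num) x)

end C21

open C21

theorem not_ls4 {n : ℕ} [NeZero n] {A : ℕ} (hn : 5 ≤ n) (hA1 : 1 ≤ A) (hA : A + 3 ≤ n)
    {K : Set (Cell n)} (hK : IsCx K) (hKO : KO n A ⊆ K) {G : Type} [Group G]
    {c : Vx n → Fin 5 → G} (hc : Flat (K ∩ PC n A) c) {x0 x1 z γ : G}
    (hb : BdLab n A c x0 x1 z γ) (hcup : HasCup G x0 x1 γ z) : ¬ LS4 (X K) := by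
  classical
  intro hLS
  obtain ⟨M0, M1, M2, M3, i0, i1, i2, i3, j0, j1, j2, j3, Φ, α0, α1, α2, α3, hΦ, h0, h1, h2, h3,
    v0, v1, v2, v3, hv⟩ := hcup
  have hcoc : ∀ x ∈ Np K A, ∀ y ∈ Np K A, ∀ z ∈ Np K A, dist x y < 1 / 2 → dist y z < 1 / 2 →
      dist x z < 1 / 2 → mOf c x y * mOf c y z = mOf c x z := fun x hx y hy z hz hxy hyz hxz =>
    cocycle_Np hn hA hK hc ⟨x, hx⟩ ⟨y, hy⟩ ⟨z, hz⟩ hxy hyz hxz
  obtain ⟨μ0, hμ0⟩ := ls4_sum hK hLS (mOf c) (ε := 1 / 2) (by norm_num)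
    (fun x hx y hy z hz => hcoc x (X_sub_Np hKO hx) y (X_sub_Np hKO hy) z (X_sub_Np hKO hz))
    Φ α0 α1 α2 α3 hΦ h0 h1 h2 h3
  obtain ⟨μ, hμ1, hμ2⟩ : ∃ μ : ℕ, μ0 ≤ μ ∧ 4 ≤ μ := ⟨max μ0 4, le_max_left _ _, le_max_right _ _⟩
  have hn0 : 0 < n := by omega
  have : NeZero (3 * n * μ) := ⟨by positivity⟩
  have s1 := hμ0 μ hμ1
  have s3 := torus_value hn hA1 hA hK hKO hc hb Φ α0 α1 α2 α3 h0 h1 h2 h3 v0 v1 v2 v3 hv hμ2
  let D : (Fin 5 → (Fin 5 → ZMod (3 * n * μ))) → ZMod 2 := fun p =>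
    cup Φ (mOf c) (fun x y => α0 (mOf c x y)) (fun x y => α1 (mOf c x y))
      (fun x y => α2 (mOf c x y)) (fun x y => α3 (mOf c x y)) (fun i => fpos n μ (p i))
  have hμR : (4 : ℝ) ≤ μ := by exact_mod_cast hμ2
  have hmesh : 1 / (μ : ℝ) < 1 / 2 := by
    apply one_div_lt_one_div_of_lt <;> linarith
  have s2 := kuhn_sum (cubes μ K A) D (by
    intro q hq σ
    have hNp := fun i => simp5_Np hn hA1 hA hK hKO (show 1 ≤ μ by omega) q hq σ i
    have hcl := fun i j => lt_of_le_of_lt (simp5_close (show 1 ≤ μ by omega) q σ i j) hmesh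
    have hm : ∀ i j k : Fin 6, mOf c (fpos n μ (simp5 q σ i)) (fpos n μ (simp5 q σ j)) *
        mOf c (fpos n μ (simp5 q σ j)) (fpos n μ (simp5 q σ k)) =
        mOf c (fpos n μ (simp5 q σ i)) (fpos n μ (simp5 q σ k)) := fun i j k =>
      hcoc _ (hNp i) _ (hNp j) _ (hNp k) (hcl i j) (hcl j k) (hcl i k)
    refine cup_boundary Φ hΦ (mOf c) _ _ _ _ (fun i => fpos n μ (simp5 q σ i)) ?_ ?_ ?_ ?_ ?_
    · intro i j k _ _; exact hm i j k
    · intro i j k _ _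
      show α0 (mOf c (fpos n μ (simp5 q σ i)) (fpos n μ (simp5 q σ k))) = _
      rw [← hm i j k, h0]
    · intro i j k _ _
      show α1 (mOf c (fpos n μ (simp5 q σ i)) (fpos n μ (simp5 q σ k))) = _
      rw [← hm i j k, h1]
    · intro i j k _ _
      show α2 (mOf c (fpos n μ (simp5 q σ i)) (fpos n μ (simp5 q σ k))) = _
      rw [← hm i j k, h2]
    · intro i j k _ _
      show α3 (mOf c (fpos n μ (simp5 q σ i)) (fpos n μ (simp5 q σ k))) = _
      rw [← hm i j k, h3])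
  have hsplit : ∀ (q : Fin 5 → ZMod (3 * n * μ)) (σ : Equiv.Perm (Fin 5)),
      (((if q ∈ cubes μ K A then 1 else 0) + (if shi q (σ 0) ∈ cubes μ K A then 1 else 0)) *
        D (simp4 q σ) : ZMod 2) =
      (if (fcell n μ q ∈ K ↔ fcell n μ (shi q (σ 0)) ∈ K) then 0 else D (simp4 q σ)) +
      (if (q, σ) ∈ TF n μ A then D (simp4 q σ) else 0) := by
    intro q σ
    have hC : ∀ p : Fin 5 → ZMod (3 * n * μ), p ∈ cubes μ K A ↔ fcell n μ p ∈ K ∧ Win A μ p :=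
      fun p => Iff.rfl
    have hTF := win_iff_TF (μ := μ) hn hA1 hA q σ
    by_cases w1 : Win A μ q <;> by_cases w2 : Win A μ (shi q (σ 0))
    · have ht : (q, σ) ∉ TF n μ A := fun h => (hTF.mpr h) (iff_of_true w1 w2)
      rw [if_neg ht, add_zero]
      by_cases a1 : fcell n μ q ∈ K <;> by_cases a2 : fcell n μ (shi q (σ 0)) ∈ K <;>
        simp [hC, w1, w2, a1, a2, N01.two_add]
    · have ht : (q, σ) ∈ TF n μ A := hTF.mp fun h => w2 (h.mp w1)
      have hk := fcell_KO_of_TF hn hA1 hA q σ ht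
      simp [hC, w1, w2, hKO hk.1, hKO hk.2, ht]
    · have ht : (q, σ) ∈ TF n μ A := hTF.mp fun h => w1 (h.mpr w2)
      have hk := fcell_KO_of_TF hn hA1 hA q σ ht
      simp [hC, w1, w2, hKO hk.1, hKO hk.2, ht]
    · have ht : (q, σ) ∉ TF n μ A := fun h => (hTF.mpr h) (iff_of_false w1 w2)
      have k1 := hKO (fcell_KO_of_not_win hn hA1 hA q w1)
      have k2 := hKO (fcell_KO_of_not_win hn hA1 hA _ w2)
      simp [hC, w1, w2, k1, k2, ht]
  have e : ∑ q : Fin 5 → ZMod (3 * n * μ), ∑ σ : Equiv.Perm (Fin 5),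
      (((if q ∈ cubes μ K A then 1 else 0) + (if shi q (σ 0) ∈ cubes μ K A then 1 else 0)) *
        D (simp4 q σ) : ZMod 2) =
      (∑ q : Fin 5 → ZMod (3 * n * μ), ∑ σ : Equiv.Perm (Fin 5),
        (if (fcell n μ q ∈ K ↔ fcell n μ (shi q (σ 0)) ∈ K) then 0 else D (simp4 q σ))) +
      (∑ q : Fin 5 → ZMod (3 * n * μ), ∑ σ : Equiv.Perm (Fin 5),
        (if (q, σ) ∈ TF n μ A then D (simp4 q σ) else 0)) := by
    rw [← Finset.sum_add_distrib]
    refine Finset.sum_congr rfl fun q _ => ?_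
    rw [← Finset.sum_add_distrib]
    exact Finset.sum_congr rfl fun σ _ => hsplit q σ
  have s4 : (0 : ZMod 2) = 0 + 1 := s2.symm.trans (e.trans (congrArg₂ (· + ·) s1 s3))
  exact absurd s4 (by decide)

end Pool.Agent.FM
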