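import Pool.Agent.FM.G2

/-!
Block C22: the group `π`.
-/

namespace Pool.Agent.FM

/-- in every group satisfying the relations, `s⁻¹ w s w⁻¹` commutes with `x0, x1, z` -/
theorem cOf_commute {k : ℕ} {R : List (List (Fin k × Bool))} {G : Type} [Group G] {x0 x1 z : G}
    {γ : ℕ → G} (h : PiRel k R x0 x1 z γ) (w : List (Fin k × Bool)) :
    Commute x0 (cOf γ w) ∧ Commute x1 (cOf γ w) ∧ Commute z (cOf γ w) :=
  ⟨h.comm_x0_c w, h.comm_x1_c w, h.comm_z_c w⟩

/-- value of the main word -/
theorem evalW_mainWord {k : ℕ} {G : Type} [Group G] (γ : ℕ → G) (w : List (Fin k × Bool)) :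
    evalW γ (mainWord k w) = (γ (2 * k + 1))⁻¹ * cOf γ w := by
  unfold mainWord cOf
  have h1 : evalW γ (w.map (fun p => ((⟨p.1, by omega⟩ : Fin (2 * k + 2)), p.2))) = evalW γ w :=
    evalW_map' γ (fun i : Fin k => (⟨i, by omega⟩ : Fin (2 * k + 2))) γ (fun i => rfl) w
  have h2 : evalW γ (w.reverse.map fun p => ((⟨p.1, by omega⟩ : Fin (2 * k + 2)), !p.2)) =
      (evalW γ w)⁻¹ := by
    rw [← evalW_inv]
    have := evalW_map' γ (fun i : Fin k => (⟨i, by omega⟩ : Fin (2 * k + 2))) γ (fun i => rfl)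
      (w.reverse.map fun p => (p.1, !p.2))
    rw [List.map_map] at this
    exact this
  rw [evalW_append, evalW_append, evalW_append, h1, h2]
  simp [evalW_cons, evalW_nil, mul_assoc]

/-- trivial words of `⟨Fin k | R⟩` give the same main word as the empty word, in the group of loops -/
theorem mainWord_triv {k : ℕ} (R : List (List (Fin k × Bool))) (w : List (Fin k × Bool))
    (h : Triv R w) :
    PresentedGroup.mk (relSet (piWords k R)) (FreeGroup.mk (mainWord k w)) =
      PresentedGroup.mk (relSet (piWords k R)) (FreeGroup.mk (mainWord k [])) := by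
  let γ : ℕ → PresentedGroup (relSet (piWords k R)) := fun i =>
    if h : i < 2 * k + 2 then PresentedGroup.of (⟨i, h⟩ : Fin (2 * k + 2)) else 1
  have hev : ∀ W : List (Fin (2 * k + 2) × Bool),
      PresentedGroup.mk (relSet (piWords k R)) (FreeGroup.mk W) = evalW γ W := by
    intro W
    rw [evalW_eq_lift]
    have : FreeGroup.lift (fun i : Fin (2 * k + 2) => γ i) =
        PresentedGroup.mk (relSet (piWords k R)) := by
      ext i
      have hi := i.2
      simp only [FreeGroup.lift_apply_of, γ, dif_pos hi]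
      rfl
    rw [this]
  have hrel : PiRel k R (1 : PresentedGroup (relSet (piWords k R))) 1 1 γ := by
    refine ⟨Commute.one_left _, Commute.one_left _, Commute.one_left _,
      fun _ _ => Commute.one_left _, fun _ _ => Commute.one_left _,
      fun _ _ => Commute.one_left _, fun ρ hρ => ?_⟩
    rw [← hev]
    exact PresentedGroup.one_of_mem ⟨ρ, hρ, rfl⟩
  have h0 : Triv R [] := by
    unfold Triv
    exact map_one _
  rw [hev, hev, evalW_mainWord, evalW_mainWord, hrel.cOf_triv h, hrel.cOf_triv h0]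

theorem exists_pi (k : ℕ) (R : List (List (Fin k × Bool))) :
    ∃ (N : ℕ) (rels : Finset (FreeGroup (Fin N)))
      (x0 x1 z : PresentedGroup (rels : Set (FreeGroup (Fin N))))
      (γ : ℕ → PresentedGroup (rels : Set (FreeGroup (Fin N)))),
      PiRel k R x0 x1 z γ ∧
      (∀ (H : Type) [Group H] (y0 y1 y : H) (δ : ℕ → H), PiRel k R y0 y1 y δ →
        ∃ Ψ : PresentedGroup (rels : Set (FreeGroup (Fin N))) →* H,
          Ψ x0 = y0 ∧ Ψ x1 = y1 ∧ Ψ z = y ∧ ∀ i < 2 * k + 1, Ψ (γ i) = δ i) ∧
      Subgroup.closure ({x0, x1, z} ∪ {g | ∃ i < 2 * k + 1, g = γ i}) = ⊤ ∧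
      (∀ w, ¬ Triv R w → HasCup (PresentedGroup (rels : Set (FreeGroup (Fin N))))
        x0 x1 (cOf γ w) z) := by
  refine ⟨2 * k + 4, piRels k R, piMk k R (fx0 k), piMk k R (fx1 k), piMk k R (fz k),
    fun i => piMk k R (fg k i), pi_rel k R, ?_, ?_, ?_⟩
  · intro H _ y0 y1 y δ h
    exact pi_lift h
  · set C := Subgroup.closure ({piMk k R (fx0 k), piMk k R (fx1 k), piMk k R (fz k)} ∪
      {g | ∃ i < 2 * k + 1, g = piMk k R (fg k i)}) with hC
    have hx0 : piMk k R (fx0 k) ∈ C := Subgroup.subset_closure (Or.inl (by simp))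
    have hx1 : piMk k R (fx1 k) ∈ C := Subgroup.subset_closure (Or.inl (by simp))
    have hz : piMk k R (fz k) ∈ C := Subgroup.subset_closure (Or.inl (by simp))
    have hγ : ∀ i < 2 * k + 1, piMk k R (fg k i) ∈ C := fun i hi =>
      Subgroup.subset_closure (Or.inr ⟨i, hi, rfl⟩)
    have hall : ∀ i : Fin (2 * k + 4), piMk k R (FreeGroup.of i) ∈ C := by
      intro i
      have hi := i.2
      by_cases c1 : (i : ℕ) < 2 * k + 1
      · have := hγ i c1
        simp only [fg, dif_pos c1] at this
        exact this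
      · by_cases c2 : (i : ℕ) = 2 * k + 1
        · have e : i = ⟨2 * k + 1, by omega⟩ := Fin.ext c2
          rw [e]; exact hx0
        · by_cases c3 : (i : ℕ) = 2 * k + 2
          · have e : i = ⟨2 * k + 2, by omega⟩ := Fin.ext c3
            rw [e]; exact hx1
          · have e : i = ⟨2 * k + 3, by omega⟩ := Fin.ext (by simp only []; omega)
            rw [e]; exact hz
    rw [eq_top_iff]
    rintro x -
    obtain ⟨y, rfl⟩ := QuotientGroup.mk_surjective x
    have hle : Subgroup.map (piMk k R) (Subgroup.closure (Set.range FreeGroup.of)) ≤ C := by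
      rw [MonoidHom.map_closure, Subgroup.closure_le]
      rintro _ ⟨_, ⟨i, rfl⟩, rfl⟩
      exact hall i
    rw [FreeGroup.closure_range_of] at hle
    exact hle ⟨y, trivial, rfl⟩
  · intro w hw
    exact G2.hasCup_pi hw

end Pool.Agent.FM
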