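import Pool.Agent.FM.Defs3

/-!
# Computability of the triangulation
-/

open scoped Classical in
/-- the triangulation of the word `W` -/
noncomputable def Pool.Agent.FM.trW {m : ℕ} (J1 J2 : Finset ℕ)
    (rels : List (List (Fin m × Bool))) (W : List (Fin m × Bool)) : List (List ℕ) :=
  Pool.Agent.FM.Tri (3 * Pool.Agent.FM.nW rels W) fun e =>
    decide (Pool.Agent.FM.cubeCell (Pool.Agent.FM.nW rels W) e ∈
      (Pool.Agent.FM.cfgW J1 J2 rels W).K true (Pool.Agent.FM.nW rels W))

namespace Pool.Agent.FM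

namespace C23

section prim

variable {α : Type} [Primcodable α]

theorem pAdd {f g : α → ℕ} (hf : Primrec f) (hg : Primrec g) : Primrec fun a => f a + g a :=
  Primrec.nat_add.comp hf hg
theorem pSub {f g : α → ℕ} (hf : Primrec f) (hg : Primrec g) : Primrec fun a => f a - g a :=
  Primrec.nat_sub.comp hf hg
theorem pMul {f g : α → ℕ} (hf : Primrec f) (hg : Primrec g) : Primrec fun a => f a * g a :=
  Primrec.nat_mul.comp hf hg
theorem pDiv {f g : α → ℕ} (hf : Primrec f) (hg : Primrec g) : Primrec fun a => f a / g a :=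
  Primrec.nat_div.comp hf hg
theorem pMod {f g : α → ℕ} (hf : Primrec f) (hg : Primrec g) : Primrec fun a => f a % g a :=
  Primrec.nat_mod.comp hf hg
theorem pMin {f g : α → ℕ} (hf : Primrec f) (hg : Primrec g) : Primrec fun a => min (f a) (g a) :=
  Primrec.nat_min.comp hf hg
theorem pMax {f g : α → ℕ} (hf : Primrec f) (hg : Primrec g) : Primrec fun a => max (f a) (g a) :=
  Primrec.nat_max.comp hf hg
theorem pEq {f g : α → ℕ} (hf : Primrec f) (hg : Primrec g) : PrimrecPred fun a => f a = g a :=
  Primrec.eq.comp hf hg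
theorem pLe {f g : α → ℕ} (hf : Primrec f) (hg : Primrec g) : PrimrecPred fun a => f a ≤ g a :=
  Primrec.nat_le.comp hf hg
theorem pLt {f g : α → ℕ} (hf : Primrec f) (hg : Primrec g) : PrimrecPred fun a => f a < g a :=
  Primrec.nat_lt.comp hf hg

theorem pPow {f : α → ℕ} (hf : Primrec f) (j : ℕ) : Primrec fun a => f a ^ j := by
  induction j with
  | zero => simpa using Primrec.const 1
  | succ j ih => simpa only [pow_succ] using pMul ih hf

theorem pFalse : PrimrecPred (fun _ : α => False) := ⟨inferInstance, Primrec.const _⟩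
theorem pTrue : PrimrecPred (fun _ : α => True) := ⟨inferInstance, Primrec.const _⟩

theorem pEx (L : List ℕ) (p : ℕ → α → Prop) (h : ∀ i, PrimrecPred (p i)) :
    PrimrecPred (fun a => ∃ i ∈ L, p i a) := by
  induction L with
  | nil => simpa using (pFalse (α := α))
  | cons x L ih => exact ((h x).or ih).of_eq fun a => by simp

end prim

/-! ### triangulations -/

section tri

variable {α : Type} [Primcodable α]

theorem pnx {N e : α → ℕ} (hN : Primrec N) (he : Primrec e) (j : ℕ) :
    Primrec fun a => nx (N a) j (e a) := by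
  unfold nx
  exact Primrec.ite (pEq (pMod (pDiv he (pPow hN j)) hN) (pSub hN (Primrec.const 1)))
    (pSub he (pMul (pSub hN (Primrec.const 1)) (pPow hN j))) (pAdd he (pPow hN j))

theorem ppd {N e : α → ℕ} (hN : Primrec N) (he : Primrec e) (j : ℕ) :
    Primrec fun a => pd (N a) j (e a) := by
  unfold pd
  exact Primrec.ite (pEq (pMod (pDiv he (pPow hN j)) hN) (Primrec.const 0))
    (pAdd he (pMul (pSub hN (Primrec.const 1)) (pPow hN j))) (pSub he (pPow hN j))

theorem pchain {N : α → ℕ} (hN : Primrec N) (l : List ℕ) :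
    ∀ {e : α → ℕ}, Primrec e → Primrec fun a => chain (N a) (e a) l := by
  induction l with
  | nil => intro e he; exact Primrec.list_cons.comp he (Primrec.const [])
  | cons j l ih => intro e he; exact Primrec.list_cons.comp he (ih (pnx hN he j))

theorem pchains {N : α → ℕ} (hN : Primrec N) {e : α → ℕ} (he : Primrec e) (L : List (List ℕ)) :
    Primrec fun a => L.map fun l => chain (N a) (e a) l := by
  induction L with
  | nil => exact Primrec.const []
  | cons l L ih => exact Primrec.list_cons.comp (pchain hN l he) ih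

theorem pflat (L : List ℕ) (F : ℕ → α → List (List ℕ)) (h : ∀ i, Primrec (F i)) :
    Primrec fun a => L.flatMap fun i => F i a := by
  induction L with
  | nil => exact Primrec.const []
  | cons i L ih => exact Primrec.list_append.comp (h i) ih

theorem pTri {N : α → ℕ} (hN : Primrec N) {P : α → ℕ → Bool} (hP : Primrec₂ P) :
    Primrec fun a => Tri (N a) (P a) := by
  unfold Tri
  refine Primrec.list_flatMap (Primrec.list_range.comp (pPow hN 5)) ?_
  refine pflat (α := α × ℕ) (List.range 5) (fun i p => if P p.1 p.2 = P p.1 (pd (N p.1) i p.2)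
    then [] else (perms4 i).map fun l => chain (N p.1) p.2 l) fun i => ?_
  refine Primrec.ite ?_ (Primrec.const []) ?_
  · exact Primrec.eq.comp (hP.comp Primrec.fst Primrec.snd)
      (hP.comp Primrec.fst (ppd (hN.comp Primrec.fst) Primrec.snd i))
  · exact pchains (hN.comp Primrec.fst) Primrec.snd (perms4 i)

end tri

/-! ### walks -/

section walks

variable {α : Type} [Primcodable α]

theorem plw {i j : α → ℕ} (hi : Primrec i) (hj : Primrec j) : Primrec fun a => lw (i a) (j a) := by
  unfold lw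
  have c : ∀ k : ℕ, Primrec (fun _ : α => k) := Primrec.const
  exact Primrec.ite (pLe hj (pMul (c 2) hi)) (Primrec.pair (pAdd (c 2) hj) (c 1))
    (Primrec.ite (pEq hj (pAdd (pMul (c 2) hi) (c 1)))
      (Primrec.pair (pAdd (pMul (c 2) hi) (c 2)) (c 2))
      (Primrec.ite (pEq hj (pAdd (pMul (c 2) hi) (c 2)))
        (Primrec.pair (pAdd (pMul (c 2) hi) (c 3)) (c 2))
        (Primrec.pair (pMax (c 2) (pSub (pAdd (pMul (c 4) hi) (c 6)) hj)) (c 1))))

theorem pslotFixed (m : ℕ) (s : Slot) {j : α → ℕ} (hj : Primrec j) :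
    Primrec fun a => slotPos m s (j a) := by
  cases s with
  | wait => exact Primrec.const (2, 1)
  | touch =>
    exact Primrec.ite ((pEq hj (Primrec.const 0)).or (pLe (Primrec.const (4 * m)) hj))
      (Primrec.const (2, 1)) (Primrec.const (1, 1))
  | lett i b =>
    cases b with
    | false => exact plw (Primrec.const i) hj
    | true => exact plw (Primrec.const i) (pSub (Primrec.const (4 * m)) hj)

theorem pslotList (m : ℕ) (L : List Slot) : ∀ {k j : α → ℕ}, Primrec k → Primrec j →
    Primrec fun a => slotPos m (L.getD (k a) Slot.wait) (j a) := by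
  induction L with
  | nil => intro k j _ hj; exact pslotFixed m Slot.wait hj
  | cons s L ih =>
    intro k j hk hj
    refine (Primrec.ite (pEq hk (Primrec.const 0)) (pslotFixed m s hj)
      (ih (pSub hk (Primrec.const 1)) hj)).of_eq fun a => ?_
    rcases Nat.eq_zero_or_pos (k a) with h | h
    · simp [h]
    · obtain ⟨r, hr⟩ := Nat.exists_eq_succ_of_ne_zero h.ne'
      rw [hr]; simp

theorem pslotW {m : ℕ} {W : α → List (Fin m × Bool)} {k j : α → ℕ} (hW : Primrec W)
    (hk : Primrec k) (hj : Primrec j) :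
    Primrec fun a => slotPos m ((slots (W a)).getD (k a) Slot.wait) (j a) := by
  have h0 : Primrec fun a => (W a)[k a]? := Primrec.list_getElem?.comp hW hk
  have h1 : Primrec₂ fun (a : α) (p : Fin m × Bool) =>
      (bif p.2 then lw p.1 (4 * m - j a) else lw p.1 (j a)) := by
    refine Primrec.cond (Primrec.snd.comp Primrec.snd) ?_ ?_
    · exact plw (Primrec.fin_val.comp (Primrec.fst.comp Primrec.snd))
        (pSub (Primrec.const (4 * m)) (hj.comp Primrec.fst))
    · exact plw (Primrec.fin_val.comp (Primrec.fst.comp Primrec.snd)) (hj.comp Primrec.fst)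
  refine (Primrec.option_casesOn h0 (Primrec.const (2, 1)) h1).of_eq fun a => ?_
  unfold slots
  rw [List.getD_eq_getElem?_getD, List.getElem?_map]
  rcases (W a)[k a]? with _ | ⟨i, b⟩
  · rfl
  · cases b <;> rfl

theorem pWalk {m : ℕ} (base : ℕ × ℕ) {len : α → ℕ} (hlen : Primrec len)
    {S : α → List Slot} (hS : ∀ a, (S a).length = len a)
    {t : α → ℕ} (ht : Primrec t)
    (hp : ∀ {k j : α → ℕ}, Primrec k → Primrec j →
      Primrec fun a => slotPos m ((S a).getD (k a) Slot.wait) (j a)) :
    Primrec fun a => wk m base (S a) (t a) := by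
  unfold wk
  simp only [hS]
  have c : ∀ k : ℕ, Primrec (fun _ : α => k) := Primrec.const
  have hl : Primrec fun a => 4 * m * len a := pMul (c (4 * m)) hlen
  refine Primrec.ite (pLe ht (c 3)) (Primrec.const base) ?_
  refine Primrec.ite (pEq ht (c 4)) (Primrec.const (1, 1)) ?_
  refine Primrec.ite (pLe ht (pAdd (c 5) hl)) ?_ ?_
  · exact hp (pDiv (pSub ht (c 5)) (c (4 * m))) (pMod (pSub ht (c 5)) (c (4 * m)))
  · exact Primrec.ite (pEq ht (pAdd (c 6) hl)) (Primrec.const (1, 1)) (Primrec.const base)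

end walks

/-! ### the complex -/

section cx

variable {α : Type} [Primcodable α]

theorem ponL (m : ℕ) {u v : α → ℕ} (hu : Primrec u) (hv : Primrec v) :
    PrimrecPred fun a => onL m (u a) (v a) := by
  unfold onL
  exact (pLe hu (Primrec.const _)).and (pEq hv (Primrec.const _))

theorem ponLoop (i : ℕ) {u v : α → ℕ} (hu : Primrec u) (hv : Primrec v) :
    PrimrecPred fun a => onLoop i (u a) (v a) := by
  unfold onLoop
  exact (pLe (Primrec.const _) hu).and ((pLe hu (Primrec.const _)).and
    ((pLe (Primrec.const _) hv).and ((pLe hv (Primrec.const _)).and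
      ((pEq hu (Primrec.const _)).and (pEq hv (Primrec.const _))).not)))

theorem pGam (m : ℕ) (J : Finset ℕ) {u v : α → ℕ} (hu : Primrec u) (hv : Primrec v) :
    PrimrecPred fun a => Gam m J (u a) (v a) := by
  unfold Gam
  refine (ponL m hu hv).or ((pEx J.toList (fun i a => i < m ∧ onLoop i (u a) (v a))
    fun i => ?_).of_eq fun a => by simp)
  by_cases h : i < m
  · exact (ponLoop i hu hv).of_eq fun a => by simp [h]
  · exact pFalse.of_eq fun a => by simp [h]

theorem ponW {w : α → ℕ → ℕ × ℕ} (hw : ∀ {t : α → ℕ}, Primrec t → Primrec fun a => w a (t a))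
    {t u v : α → ℕ} (ht : Primrec t) (hu : Primrec u) (hv : Primrec v) :
    PrimrecPred fun a => onW (w a) (t a) (u a) (v a) := by
  have c : ∀ k : ℕ, Primrec (fun _ : α => k) := Primrec.const
  have h1 := hw (pDiv ht (c 2))
  have h0 := hw (pSub (pDiv ht (c 2)) (c 1))
  have e1 : PrimrecPred fun a => t a % 2 = 1 := pEq (pMod ht (c 2)) (c 1)
  have A : PrimrecPred fun a => u a = 2 * (w a (t a / 2)).1 ∧ v a = 2 * (w a (t a / 2)).2 :=
    (pEq hu (pMul (c 2) (Primrec.fst.comp h1))).and (pEq hv (pMul (c 2) (Primrec.snd.comp h1)))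
  have B : PrimrecPred fun a => 2 * min (w a (t a / 2 - 1)).1 (w a (t a / 2)).1 ≤ u a ∧
      u a ≤ 2 * max (w a (t a / 2 - 1)).1 (w a (t a / 2)).1 ∧
      2 * min (w a (t a / 2 - 1)).2 (w a (t a / 2)).2 ≤ v a ∧
      v a ≤ 2 * max (w a (t a / 2 - 1)).2 (w a (t a / 2)).2 :=
    (pLe (pMul (c 2) (pMin (Primrec.fst.comp h0) (Primrec.fst.comp h1))) hu).and
      ((pLe hu (pMul (c 2) (pMax (Primrec.fst.comp h0) (Primrec.fst.comp h1)))).and
        ((pLe (pMul (c 2) (pMin (Primrec.snd.comp h0) (Primrec.snd.comp h1))) hv).and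
          (pLe hv (pMul (c 2) (pMax (Primrec.snd.comp h0) (Primrec.snd.comp h1))))))
  refine ((e1.and A).or (e1.not.and B)).of_eq fun a => ?_
  unfold onW
  by_cases h : t a % 2 = 1 <;> simp [h]

theorem pInK (m : ℕ) (J1 J2 : Finset ℕ) {T : α → ℕ} (hT : Primrec T)
    {f g : α → ℕ → ℕ × ℕ} (hf : ∀ {t : α → ℕ}, Primrec t → Primrec fun a => f a (t a))
    (hg : ∀ {t : α → ℕ}, Primrec t → Primrec fun a => g a (t a))
    {t x y u v : α → ℕ} (ht : Primrec t) (hx : Primrec x) (hy : Primrec y) (hu : Primrec u)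
    (hv : Primrec v) :
    PrimrecPred fun a => InK true ⟨m, T a, J1, J2, f a, g a⟩ (t a) (x a) (y a) (u a) (v a) := by
  have c : ∀ k : ℕ, Primrec (fun _ : α => k) := Primrec.const
  have hT2 : Primrec fun a => 2 * T a := pMul (c 2) hT
  have G0 := pGam m (Finset.range m) hu hv
  have G1 := pGam m J1 hu hv
  have G2 := pGam m J2 hu hv
  have W1 := ponW hf ht hu hv
  have W2 := ponW hg ht hu hv
  have odd : PrimrecPred fun a => t a % 2 = 1 := pEq (pMod ht (c 2)) (c 1)
  unfold InK
  simp only [forall_const]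
  refine PrimrecPred.or ?_ (PrimrecPred.or ?_ (PrimrecPred.or ?_ (PrimrecPred.or ?_
    (PrimrecPred.or ?_ (PrimrecPred.or ?_ (PrimrecPred.or ?_ (PrimrecPred.or ?_ ?_)))))))
  · exact (pEq hx (c 2)).and ((pEq hy (c 0)).and (((pLe ht hT2).and G0).or G1))
  · exact (pEq ht (c 4)).and ((pEq hy (c 0)).and G2)
  · exact (pEq ht (c 2)).and ((pEq hx (c 2)).and G0)
  · exact (pEq ht (c 0)).and ((pEq hx (c 0)).and ((pEq hy (c 0)).and
      ((pLe hu (c _)).and ((pLe hv (c 6)).and ((pEq hu (c _)).and (pEq hv (c 3))).not))))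
  · exact (pEq ht (c 0)).and ((pEq hy (c 0)).and ((pLe hx (c 2)).and
      ((ponL m hu hv).or (ponLoop (m - 1) hu hv))))
  · exact (pLe (c 8) ht).and ((pLe (pAdd ht (c 2)) hT2).and ((pEq hx (c 2)).and
      ((pLe hy (c 2)).and (W2.or ((pEq hu (c 2)).and (pEq hv (c 2)))))))
  · exact (pLe (c 8) ht).and ((pLe (pAdd ht (c 2)) hT2).and ((pEq hx (c 2)).and
      ((pEq hy (c 2)).and ((pLe (c 2) hu).and ((pLe hu (c _)).and ((pLe (c 2) hv).and
        ((pLe hv (c 4)).and (odd.and ((pEq hv (c 3)).and (pLt (c 2) hu))).not)))))))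
  · exact (pLe (c 6) ht).and ((pLe ht hT2).and ((pEq hy (c 0)).and ((pLe (c 2) hx).and
      ((pLe hx (c 4)).and W1))))
  · exact (pLe (c 6) ht).and ((pLe ht hT2).and ((pEq hy (c 0)).and ((pEq hx (c 4)).and
      ((pLe hu (c _)).and ((pLe (c 2) hv).and ((pLe hv (c 4)).and
        (odd.and ((pEq hv (c 3)).and (pLt (c 0) hu))).not))))))

/-- the doubled coordinate of the cell of the centre of a unit cube -/
def dd (n e i : ℕ) : ℕ :=
  if ((e / (3 * n) ^ i) % (3 * n)) % 3 = 0 then 2 * (((e / (3 * n) ^ i) % (3 * n)) / 3 % n)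
  else if ((e / (3 * n) ^ i) % (3 * n)) % 3 = 1 then
    2 * (((e / (3 * n) ^ i) % (3 * n)) / 3 % n) + 1
  else 2 * ((((e / (3 * n) ^ i) % (3 * n)) / 3 + 1) % n)

theorem dbl_cubeCell (n e : ℕ) (i : Fin 5) : dbl (cubeCell n e i) = dd n e i := by
  unfold dbl cubeCell dd
  simp only
  split_ifs <;> simp [ZMod.val_natCast, -Nat.cast_add]

theorem pdd {n e : α → ℕ} (hn : Primrec n) (he : Primrec e) (i : ℕ) :
    Primrec fun a => dd (n a) (e a) i := by
  have c : ∀ k : ℕ, Primrec (fun _ : α => k) := Primrec.const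
  have h3 : Primrec fun a => 3 * n a := pMul (c 3) hn
  have hq : Primrec fun a => (e a / (3 * n a) ^ i) % (3 * n a) := pMod (pDiv he (pPow h3 i)) h3
  unfold dd
  refine Primrec.ite (pEq (pMod hq (c 3)) (c 0)) (pMul (c 2) (pMod (pDiv hq (c 3)) hn)) ?_
  exact Primrec.ite (pEq (pMod hq (c 3)) (c 1)) (pAdd (pMul (c 2) (pMod (pDiv hq (c 3)) hn)) (c 1))
    (pMul (c 2) (pMod (pAdd (pDiv hq (c 3)) (c 1)) hn))

end cx

section word

variable {m : ℕ} (J1 J2 : Finset ℕ) (rels : List (List (Fin m × Bool)))

theorem pnW : Primrec (nW rels) := by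
  unfold nW
  exact pAdd (pAdd (pMul (Primrec.const _) (pAdd (Primrec.const _) Primrec.list_length))
    (Primrec.const _)) (Primrec.const _)

theorem pmem : PrimrecPred fun p : List (Fin m × Bool) × ℕ =>
    cubeCell (nW rels p.1) p.2 ∈ (cfgW J1 J2 rels p.1).K true (nW rels p.1) := by
  have hn : Primrec fun p : List (Fin m × Bool) × ℕ => nW rels p.1 := (pnW rels).comp Primrec.fst
  have he : Primrec fun p : List (Fin m × Bool) × ℕ => p.2 := Primrec.snd
  have hW : Primrec fun p : List (Fin m × Bool) × ℕ => p.1 := Primrec.fst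
  have c : ∀ k : ℕ, Primrec (fun _ : List (Fin m × Bool) × ℕ => k) := Primrec.const
  have d := fun i => pdd hn he i
  have hlen : Primrec fun p : List (Fin m × Bool) × ℕ => (relSlots rels).length + p.1.length :=
    pAdd (c _) (Primrec.list_length.comp hW)
  have hT : Primrec fun p : List (Fin m × Bool) × ℕ =>
      7 + 4 * m * ((relSlots rels).length + p.1.length) := pAdd (c 7) (pMul (c _) hlen)
  have hf : ∀ {t : List (Fin m × Bool) × ℕ → ℕ}, Primrec t → Primrec fun p =>
      wk m (0, 1) (List.replicate (relSlots rels).length Slot.wait ++ slots p.1) (t p) := by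
    intro t ht
    refine pWalk (0, 1) hlen (fun p => by simp [slots]) ht ?_
    intro k j hk hj
    refine (Primrec.ite (pLt hk (c (relSlots rels).length)) (Primrec.const (2, 1))
      (pslotW hW (pSub hk (c (relSlots rels).length)) hj)).of_eq fun p => ?_
    by_cases h : k p < (relSlots rels).length
    · rw [if_pos h, List.getD_append _ _ _ _ (by simpa using h), List.getD_eq_getElem?_getD,
        List.getElem?_replicate, if_pos h]
      rfl
    · rw [if_neg h, List.getD_append_right _ _ _ _ (by simpa using h)]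
      simp
  have hg : ∀ {t : List (Fin m × Bool) × ℕ → ℕ}, Primrec t → Primrec fun p =>
      wk m (1, 1) (relSlots rels ++ List.replicate p.1.length Slot.wait) (t p) := by
    intro t ht
    refine pWalk (1, 1) hlen (fun p => by simp) ht ?_
    intro k j hk hj
    refine (pslotList m (relSlots rels) hk hj).of_eq fun p => ?_
    by_cases h : k p < (relSlots rels).length
    · rw [List.getD_append _ _ _ _ (by simpa using h)]
    · rw [List.getD_append_right _ _ _ _ (by simpa using h),
        List.getD_eq_default _ _ (by simpa using h)]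
      congr 1
      rw [List.getD_eq_getElem?_getD, List.getElem?_replicate]
      split_ifs <;> rfl
  have hK := pInK m J1 J2 hT (f := fun p : List (Fin m × Bool) × ℕ =>
      wk m (0, 1) (List.replicate (relSlots rels).length Slot.wait ++ slots p.1))
    (g := fun p : List (Fin m × Bool) × ℕ =>
      wk m (1, 1) (relSlots rels ++ List.replicate p.1.length Slot.wait)) hf hg
    (d 0) (d 1) (d 2) (d 3) (d 4)
  have hO : PrimrecPred fun p : List (Fin m × Bool) × ℕ =>
      ¬ (0 < dd (nW rels p.1) p.2 3 ∧ dd (nW rels p.1) p.2 3 < 2 * (2 * m + 2) ∧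
        0 < dd (nW rels p.1) p.2 4 ∧ dd (nW rels p.1) p.2 4 < 6) :=
    ((pLt (c 0) (d 3)).and ((pLt (d 3) (c _)).and ((pLt (c 0) (d 4)).and (pLt (d 4) (c 6))))).not
  refine (hO.or hK).of_eq fun p => ?_
  unfold Cfg.K KO
  simp only [Set.mem_union, Set.mem_ofPred_eq, dbl_cubeCell]
  have hcfg : cfgW J1 J2 rels p.1 = ⟨m, 7 + 4 * m * ((relSlots rels).length + p.1.length), J1, J2,
      wk m (0, 1) (List.replicate (relSlots rels).length Slot.wait ++ slots p.1),
      wk m (1, 1) (relSlots rels ++ List.replicate p.1.length Slot.wait)⟩ := by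
    unfold cfgW slotCfg
    simp [slots]
  rw [hcfg]
  rfl

end word

end C23

theorem computable_trW {m : ℕ} (_hm : 1 ≤ m) (J1 J2 : Finset ℕ)
    (rels : List (List (Fin m × Bool))) : Computable (trW J1 J2 rels) := by
  classical
  have h1 : Primrec₂ fun (W : List (Fin m × Bool)) (e : ℕ) =>
      decide (cubeCell (nW rels W) e ∈ (cfgW J1 J2 rels W).K true (nW rels W)) :=
    (C23.pmem J1 J2 rels).decide
  have h2 := C23.pTri (C23.pMul (Primrec.const 3) (C23.pnW rels)) h1
  exact (h2.of_eq fun W => by unfold trW; congr!).to_comp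

theorem computable_mainWord (k : ℕ) : Computable (mainWord k) := by
  refine Primrec.to_comp ?_
  have h1 : Primrec fun p : Fin k × Bool =>
      (((⟨p.1, by omega⟩ : Fin (2 * k + 2)), p.2) : Fin (2 * k + 2) × Bool) :=
    Primrec.dom_finite _
  have h2 : Primrec fun p : Fin k × Bool =>
      (((⟨p.1, by omega⟩ : Fin (2 * k + 2)), !p.2) : Fin (2 * k + 2) × Bool) :=
    Primrec.dom_finite _
  unfold mainWord
  refine Primrec.list_append.comp (Primrec.list_append.comp (Primrec.list_append.comp
    (Primrec.const _) ?_) (Primrec.const _)) ?_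
  · exact Primrec.list_map Primrec.id (h1.comp Primrec.snd)
  · exact Primrec.list_map Primrec.list_reverse (h2.comp Primrec.snd)

end Pool.Agent.FM
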