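import Pool.Agent.FM.Defs3

/-!
# Boundary labels of a representation
-/

namespace Pool.Agent.FM

theorem C24_pre_const {G : Type} [Group G] (γ : ℕ → G) (w : ℕ → ℕ × ℕ) (p : ℕ × ℕ) (t : ℕ)
    (h : ∀ s ≤ t, w s = p) : pre γ w t = 1 := by
  induction t with
  | zero => rfl
  | succ t ih =>
    rw [pre, ih fun s hs => h s (by omega), h t (by omega), h (t + 1) le_rfl, one_mul]
    unfold stepLab
    split_ifs <;> first | rfl | omega

/-- planar coordinates of a boundary vertex -/
theorem C24_bd {n A : ℕ} [NeZero n] {v : Vx n}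
    (hv : vc v ∈ KO n A ∩ PC n A) : ((v 3).val = 0 ∨ (v 3).val = A ∨ (v 4).val = 0 ∨ (v 4).val = 3) ∧
    (v 3).val ≤ A ∧ (v 4).val ≤ 3 := by
  obtain ⟨h1, h2⟩ := hv
  simp only [KO, PC, Set.mem_ofPred_eq, vc, dbl, Bool.toNat_false, add_zero] at h1 h2
  omega

theorem C24_val_add {n : ℕ} [NeZero n] (hn : 2 ≤ n) (a : ZMod n) : a + 1 = 0 ↔ a.val + 1 = n := by
  constructor
  · intro h
    have h1 : (a + 1).val = 0 := by rw [h]; exact ZMod.val_zero
    have h2 : a.val < n := ZMod.val_lt a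
    rw [ZMod.val_add] at h1
    have h3 : (1 : ZMod n).val = 1 := by
      have : Fact (1 < n) := ⟨by omega⟩
      exact ZMod.val_one n
    rw [h3] at h1
    have h4 : n ∣ a.val + 1 := Nat.dvd_of_mod_eq_zero h1
    have h5 := Nat.le_of_dvd (by omega) h4
    omega
  · intro h
    have h1 : ((a.val + 1 : ℕ) : ZMod n) = 0 := by rw [h]; simp
    push_cast at h1
    rwa [ZMod.natCast_zmod_val] at h1

theorem C24_fbd {c : Cfg} (hc : c.Ok) {t u v : ℕ} (h : (u, v) = c.f t)
    (hb : u = 0 ∨ u = 2 * c.m + 2 ∨ v = 0 ∨ v = 3) : t ≤ 3 ∨ c.T ≤ t := by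
  by_contra hcon
  push Not at hcon
  have h1 := hc.fp t hcon.1 hcon.2
  have h2 := hc.fv t
  rw [← h] at h1 h2
  rcases h2 with ⟨h3, h4⟩ | ⟨i, hi, h3, h4⟩
  · simp only at h3 h4 h1; omega
  · simp only at h3 h4 h1; omega

theorem C24_gbd {c : Cfg} (hc : c.Ok) {t u v : ℕ} (h : (u, v) = c.g t)
    (hb : u = 0 ∨ u = 2 * c.m + 2 ∨ v = 0 ∨ v = 3) : False := by
  have h1 := hc.gp t
  have h2 := hc.gv t
  rw [← h] at h1 h2
  rcases h2 with ⟨h3, h4⟩ | ⟨i, hi, h3, h4⟩
  · simp only at h3 h4 h1; omega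
  · simp only at h3 h4 h1; omega

theorem Rep.bdLab {c : Cfg} (hc : c.Ok) {G : Type} [Group G] (R : Rep c G) {n : ℕ} [NeZero n]
    (h1 : c.T + 3 ≤ n) (h2 : 2 * c.m + 5 ≤ n) :
    BdLab n (2 * c.m + 2) (R.lab n) R.x0 R.x1 R.z (R.γ (c.m - 1)) := by
  have hm := hc.hm
  have hT := hc.hT
  have hn : 5 ≤ n := by omega
  have hA : 2 * c.m + 2 + 3 ≤ n := by omega
  have hpre3 : ∀ t ≤ 3, pre R.γ c.f t = 1 := fun t ht =>
    C24_pre_const _ _ (0, 1) t fun s hs => hc.f0 s (by omega)
  refine ⟨?_, ?_, ?_, ?_, ?_⟩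
  · intro v hv
    unfold Rep.lab labN
    simp only [if_true, C24_val_add (by omega : 2 ≤ n)]
  · intro v hv
    obtain ⟨hb, -, -⟩ := C24_bd hv
    unfold Rep.lab labN
    rw [if_neg (by decide), if_pos rfl]
    simp only [C24_val_add (by omega : 2 ≤ n)]
    split_ifs with a b d e
    · rfl
    · rcases C24_fbd hc d hb with h3 | h3
      · rw [hpre3 _ h3, inv_one]
      · have : (v 0).val = c.T := by omega
        rw [this, R.hf, inv_one]
    · rcases C24_fbd hc e hb with h3 | h3
      · rw [hpre3 _ h3, inv_one]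
      · omega
    · rfl
    · rfl
  · intro v hv
    obtain ⟨hb, -, -⟩ := C24_bd hv
    unfold Rep.lab labN
    rw [if_neg (by decide), if_neg (by decide), if_pos rfl]
    simp only [C24_val_add (by omega : 2 ≤ n)]
    split_ifs with a b d e
    · rfl
    · exact (C24_gbd hc d hb).elim
    · exact (C24_gbd hc e hb).elim
    · rfl
    · rfl
  · intro v hv
    unfold Rep.lab labN
    rw [if_neg (by decide), if_neg (by decide), if_neg (by decide), if_pos rfl]
  · intro v hv
    obtain ⟨h3, h4⟩ := hv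
    simp only [KO, PC, Set.mem_ofPred_eq, ec, dbl] at h3 h4
    have e3 : (decide ((3 : Fin 5) = 4)) = false := by decide
    simp only [e3, decide_true, Bool.toNat_false, Bool.toNat_true, add_zero] at h3 h4
    have hu : (v 3).val = 0 ∨ (v 3).val = 2 * c.m + 2 := by omega
    have hvA : v 3 = ((2 * c.m + 2 : ℕ) : ZMod n) ↔ (v 3).val = 2 * c.m + 2 := by
      constructor
      · intro h
        rw [h, ZMod.val_natCast, Nat.mod_eq_of_lt (by omega)]
      · intro h
        rw [← h, ZMod.natCast_zmod_val]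
    have hv1 : v 4 = 1 ↔ (v 4).val = 1 := by
      constructor
      · intro h
        rw [h]
        have : Fact (1 < n) := ⟨by omega⟩
        exact ZMod.val_one n
      · intro h
        have : ((v 4).val : ZMod n) = 1 := by rw [h]; simp
        rwa [ZMod.natCast_zmod_val] at this
    unfold Rep.lab labN
    rw [if_neg (by decide), if_neg (by decide), if_neg (by decide), if_neg (by decide)]
    simp only [hvA, hv1]
    rcases hu with hu | hu
    · rw [hu]
      have hl : loopLab c.m R.γ 0 = 1 := by unfold loopLab; rw [if_neg (by omega)]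
      rw [hl]
      have e1 : ¬ (0 = 2 * c.m + 2) := by omega
      have e2 : ¬ (0 = 2 * c.m + 1) := by omega
      simp only [e1, e2, if_false, false_and, ite_self]
    · rw [hu]
      by_cases h5 : (v 4).val = 1
      · rw [if_pos h5, if_pos rfl, if_pos ⟨rfl, h5⟩]
      · rw [if_neg h5, if_neg fun h => h5 h.2]

end Pool.Agent.FM
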