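import Pool.Agent.FM.C07
import Pool.Agent.FM.C15
import Pool.Agent.FM.C22
import Pool.Agent.FM.C01
import Pool.Agent.FM.C04
import Pool.Agent.FM.C05
import Pool.Agent.FM.C06
import Pool.Agent.FM.C08

/-!
# Assembly, part 1: the hypersurface of a word has the fundamental group `π`
-/

open Set

namespace Pool.Agent.FM

/-! ### letters -/

theorem D_evalW_congr {G : Type} [Group G] {m : ℕ} {γ δ : ℕ → G} {W : List (Fin m × Bool)}
    (h : ∀ p ∈ W, γ p.1 = δ p.1) : evalW γ W = evalW δ W := by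
  unfold evalW
  congr 1
  apply List.map_congr_left
  intro p hp
  rw [h p hp]

theorem D_piWords_letters {k : ℕ} {R : List (List (Fin k × Bool))} :
    ∀ ρ ∈ piWords k R, ∀ p ∈ ρ, (p.1 : ℕ) < 2 * k + 1 := by
  intro ρ hρ p hp
  simp only [piWords, List.mem_append, List.mem_flatMap, List.mem_map, List.mem_finRange,
    true_and] at hρ
  rcases hρ with (⟨i, j, rfl⟩ | ⟨i, rfl⟩) | ⟨r, hr, rfl⟩
  · have hi := i.2
    have hj := j.2
    simp only [List.mem_cons, List.not_mem_nil, or_false] at hp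
    rcases hp with rfl | rfl | rfl | rfl <;> simp <;> omega
  · have hi := i.2
    simp only [List.mem_cons, List.not_mem_nil, or_false] at hp
    rcases hp with rfl | rfl | rfl | rfl | rfl | rfl <;> simp <;> omega
  · simp only [List.mem_append, List.mem_cons, List.not_mem_nil, or_false, List.mem_map,
      List.mem_reverse] at hp
    rcases hp with ((rfl | ⟨q, hq, rfl⟩) | rfl) | ⟨q, hq, rfl⟩
    · simp
    · have := q.1.2; simp; omega
    · simp
    · have := q.1.2; simp; omega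

theorem D_evalW_cOf_congr {k : ℕ} {G : Type} [Group G] {γ δ : ℕ → G} (h : ∀ i < 2 * k + 1, γ i = δ i)
    (w : List (Fin k × Bool)) : cOf γ w = cOf δ w := by
  have h1 : evalW γ w = evalW δ w := D_evalW_congr fun p _ => h _ (by have := p.1.2; omega)
  unfold cOf
  rw [h1, h (2 * k) (by omega)]

theorem D_map_evalW {G H : Type} [Group G] [Group H] (Ψ : G →* H) {m : ℕ} (γ : ℕ → G)
    (W : List (Fin m × Bool)) : Ψ (evalW γ W) = evalW (fun i => Ψ (γ i)) W := by
  unfold evalW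
  rw [map_list_prod, List.map_map]
  congr 1
  apply List.map_congr_left
  intro p _
  simp only [Function.comp]
  split_ifs <;> simp

theorem D_map_cOf {G H : Type} [Group G] [Group H] (Ψ : G →* H) {k : ℕ} (γ : ℕ → G)
    (w : List (Fin k × Bool)) : Ψ (cOf γ w) = cOf (fun i => Ψ (γ i)) w := by
  unfold cOf
  simp only [map_mul, map_inv, D_map_evalW]

/-! ### the representation of `π` -/

/-- the configuration of the word `w` -/
def cfgP (k : ℕ) (R : List (List (Fin k × Bool))) (w : List (Fin k × Bool)) : Cfg :=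
  cfgW (piJ1 k) (piJ2 k) (piWords k R) (mainWord k w)

theorem cfgP_m (k : ℕ) (R : List (List (Fin k × Bool))) (w : List (Fin k × Bool)) :
    (cfgP k R w).m = 2 * k + 2 := rfl

/-- the loops together with the loop `2 k + 1` -/
def gamP {k : ℕ} {G : Type} [Group G] (γ : ℕ → G) (w : List (Fin k × Bool)) (i : ℕ) : G :=
  if i = 2 * k + 1 then cOf γ w else γ i

theorem D_piJ1_lt {k i : ℕ} (h : i ∈ piJ1 k) : i < 2 * k + 1 := by
  simp [piJ1] at h; omega

theorem D_piJ2_lt {k i : ℕ} (h : i ∈ piJ2 k) : i < 2 * k + 1 := by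
  simp [piJ2] at h; omega

theorem D_exists_rep {k : ℕ} {R : List (List (Fin k × Bool))} {G : Type} [Group G] {x0 x1 z : G}
    {γ : ℕ → G} (h : PiRel k R x0 x1 z γ) (w : List (Fin k × Bool)) :
    ∃ P : Rep (cfgP k R w) G, P.x0 = x0 ∧ P.x1 = x1 ∧ P.z = z ∧ P.γ = gamP γ w := by
  obtain ⟨hc0, hc1, hc2⟩ := cOf_commute h w
  have hlt : ∀ i, i < 2 * k + 1 → gamP γ w i = γ i := fun i hi => by
    rw [gamP, if_neg (by omega)]
  have hlast : gamP γ w (2 * k + 2 - 1) = cOf γ w := by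
    rw [gamP, if_pos (by omega)]
  refine Rep.ofWords (m := 2 * k + 2) (by omega) x0 x1 z (gamP γ w) h.h01 h.h0z h.h1z ?_ ?_ ?_ ?_ ?_
    ?_ ?_
  · rw [hlast]; exact hc0
  · rw [hlast]; exact hc1
  · intro i hi _
    rw [hlt i (D_piJ1_lt hi)]; exact h.hJ1 i hi
  · intro i hi _
    rw [hlt i (D_piJ2_lt hi)]; exact h.hJ2 i hi
  · intro i hi
    by_cases h1 : i = 2 * k + 1
    · rw [gamP, if_pos h1]; exact hc2
    · rw [hlt i (by omega)]; exact h.hz i (by omega)
  · rw [evalW_mainWord, D_evalW_cOf_congr hlt w]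
    have : gamP γ w (2 * k + 1) = cOf γ w := by rw [gamP, if_pos rfl]
    rw [this]; simp
  · intro ρ hρ
    rw [D_evalW_congr (δ := γ) fun p hp => hlt _ (D_piWords_letters ρ hρ p hp)]
    exact h.hrel ρ hρ

/-- every representation of the configuration gives the relations of `π` -/
theorem D_rep_rel {k : ℕ} {R : List (List (Fin k × Bool))} {G : Type} [Group G]
    {w : List (Fin k × Bool)} (P : Rep (cfgP k R w) G) :
    PiRel k R P.x0 P.x1 P.z P.γ ∧ P.γ (2 * k + 1) = cOf P.γ w := by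
  obtain ⟨hW, hrel⟩ := Rep.words (m := 2 * k + 2) (by omega) P
  refine ⟨⟨P.h01, P.h0z, P.h1z, fun i hi => P.hJ1 i hi ?_, fun i hi => P.hJ2 i hi ?_,
    fun i hi => P.hz i ?_, hrel⟩, ?_⟩
  · have := D_piJ1_lt hi; show i < 2 * k + 2; omega
  · have := D_piJ2_lt hi; show i < 2 * k + 2; omega
  · show i < 2 * k + 2; omega
  · rw [evalW_mainWord] at hW
    exact eq_of_inv_mul_eq_one hW

/-! ### images of labels -/

theorem D_map_stepLab {m : ℕ} {G H : Type} [Group G] [Group H] (Ψ : G →* H) {γ : ℕ → G} {δ : ℕ → H}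
    (h : ∀ i < m, Ψ (γ i) = δ i) {p q : ℕ × ℕ} (hp : IsGV m p) :
    Ψ (stepLab γ p q) = stepLab δ p q := by
  unfold stepLab
  have hle : p.1 ≤ 2 * m + 1 := by
    rcases hp with ⟨h1, _⟩ | ⟨i, hi, h1, _⟩
    · exact h1
    · omega
  split_ifs with h1 h2 h3
  · apply h; omega
  · rw [map_inv, h _ (by omega)]
  · exact map_one Ψ
  · exact map_one Ψ

theorem D_map_pre {m : ℕ} {G H : Type} [Group G] [Group H] (Ψ : G →* H) {γ : ℕ → G} {δ : ℕ → H}
    (h : ∀ i < m, Ψ (γ i) = δ i) {w : ℕ → ℕ × ℕ} (hw : ∀ t, IsGV m (w t)) (t : ℕ) :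
    Ψ (pre γ w t) = pre δ w t := by
  induction t with
  | zero => exact map_one Ψ
  | succ t ih => rw [pre, pre, map_mul, ih, D_map_stepLab Ψ h (hw t)]

theorem D_map_loopLab {m : ℕ} {G H : Type} [Group G] [Group H] (Ψ : G →* H) {γ : ℕ → G} {δ : ℕ → H}
    (h : ∀ i < m, Ψ (γ i) = δ i) (u : ℕ) : Ψ (loopLab m γ u) = loopLab m δ u := by
  unfold loopLab
  split_ifs with h1
  · apply h; omega
  · exact map_one Ψ

theorem D_map_lab {c : Cfg} (hc : c.Ok) {G H : Type} [Group G] [Group H] (Ψ : G →* H) (P : Rep c G)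
    (P' : Rep c H) (h0 : Ψ P.x0 = P'.x0) (h1 : Ψ P.x1 = P'.x1) (hz : Ψ P.z = P'.z)
    (h : ∀ i < c.m, Ψ (P.γ i) = P'.γ i) {n : ℕ} (v : Vx n) (i : Fin 5) :
    Ψ (P.lab n v i) = P'.lab n v i := by
  have hm := hc.hm
  have hlast := h (c.m - 1) (by omega)
  have hf : ∀ t, Ψ (pre P.γ c.f t) = pre P'.γ c.f t := D_map_pre Ψ h hc.fv
  have hg : ∀ t, Ψ (pre P.γ c.g t) = pre P'.γ c.g t := D_map_pre Ψ h hc.gv
  have hl : ∀ u, Ψ (loopLab c.m P.γ u) = loopLab c.m P'.γ u := D_map_loopLab Ψ h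
  unfold Rep.lab labN
  simp only [apply_ite Ψ, map_one, map_inv, h0, h1, hz, hf, hg, hl, hlast]

/-! ### hypotheses of `groupoid_O` -/

section main

variable {k : ℕ} {R : List (List (Fin k × Bool))} {G : Type} [Group G] {x0 x1 z : G} {γ : ℕ → G}

/-- the data of a universal group -/
structure Univ (k : ℕ) (R : List (List (Fin k × Bool))) (G : Type) [Group G] (x0 x1 z : G)
    (γ : ℕ → G) : Prop where
  rel : PiRel k R x0 x1 z γ
  univ : ∀ (H : Type) [Group H] (y0 y1 y : H) (δ : ℕ → H), PiRel k R y0 y1 y δ →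
        ∃ Ψ : G →* H, Ψ x0 = y0 ∧ Ψ x1 = y1 ∧ Ψ z = y ∧ ∀ i < 2 * k + 1, Ψ (γ i) = δ i
  gen : Subgroup.closure ({x0, x1, z} ∪ {g | ∃ i < 2 * k + 1, g = γ i}) = ⊤

/-- number of vertices used for the word `w` -/
def nP (k : ℕ) (R : List (List (Fin k × Bool))) (w : List (Fin k × Bool)) : ℕ :=
  nW (piWords k R) (mainWord k w)

instance (w : List (Fin k × Bool)) : NeZero (nP k R w) := ⟨by unfold nP nW; omega⟩

theorem D_slots_length {m : ℕ} (W : List (Fin m × Bool)) : (slots W).length = W.length := by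
  simp [slots]

theorem nP_bounds (w : List (Fin k × Bool)) : (cfgP k R w).T + 3 ≤ nP k R w ∧
    2 * (cfgP k R w).m + 5 ≤ nP k R w := by
  constructor
  · show 7 + 4 * (2 * k + 2) * (List.replicate _ Slot.wait ++ slots (mainWord k w)).length + 3 ≤ _
    rw [List.length_append, List.length_replicate, D_slots_length]
    unfold nP nW
    omega
  · show 2 * (2 * k + 2) + 5 ≤ _
    unfold nP nW
    omega

theorem cfgP_ok (w : List (Fin k × Bool)) : (cfgP k R w).Ok := cfgW_ok (by omega) _ _ _ _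

end main

end Pool.Agent.FM
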