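import Pool.Agent.FM.D1
import Pool.Agent.FM.B08
import Pool.Agent.FM.B09

/-!
# Assembly, part 2: fundamental group of the hypersurface
-/

open Set

namespace Pool.Agent.FM

section rig

variable {k : ℕ} {R : List (List (Fin k × Bool))} {G : Type} [Group G] {x0 x1 z : G} {γ : ℕ → G}

/-- rigidity, for the universal group -/
theorem D_rigid_univ (hU : Univ k R G x0 x1 z γ) (w : List (Fin k × Bool))
    (P : Rep (cfgP k R w) G) (hP0 : P.x0 = x0) (hP1 : P.x1 = x1) (hPz : P.z = z)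
    (hPγ : P.γ = gamP γ w) {n : ℕ} [NeZero n] (h1 : (cfgP k R w).T + 3 ≤ n)
    (h2 : 2 * (cfgP k R w).m + 5 ≤ n) (H : Type) [Group H] (c' : Vx n → Fin 5 → H)
    (hflat : Flat ((cfgP k R w).K true n ∩ PC n (2 * (cfgP k R w).m + 2)) c') :
    ∃ (Ψ : G →* H) (h : Vx n → H), ∀ v i,
      ec v i ∈ (cfgP k R w).K true n ∩ PC n (2 * (cfgP k R w).m + 2) →
        c' v i = h v * Ψ (P.lab n v i) * (h (up v i))⁻¹ := by
  obtain ⟨P', h, hh⟩ := rigid (cfgP_ok w) h1 h2 c' hflat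
  obtain ⟨hrel, hlast⟩ := D_rep_rel P'
  obtain ⟨Ψ, hΨ0, hΨ1, hΨz, hΨγ⟩ := hU.univ H P'.x0 P'.x1 P'.z P'.γ hrel
  have hlab : ∀ v i, Ψ (P.lab n v i) = P'.lab n v i := by
    intro v i
    refine D_map_lab (cfgP_ok w) Ψ P P' (by rw [hP0, hΨ0]) (by rw [hP1, hΨ1]) (by rw [hPz, hΨz])
      ?_ v i
    intro j hj
    rw [cfgP_m] at hj
    rw [hPγ, gamP]
    split_ifs with hj2
    · rw [D_map_cOf, hj2, hlast]
      exact D_evalW_cOf_congr hΨγ w
    · exact hΨγ j (by omega)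
  refine ⟨Ψ, h, fun v i hv => ?_⟩
  rw [hlab]
  exact hh v i hv

/-- every element is the holonomy of an edge loop -/
theorem D_gen_univ (hU : Univ k R G x0 x1 z γ) (w : List (Fin k × Bool))
    (P : Rep (cfgP k R w) G) (hP0 : P.x0 = x0) (hP1 : P.x1 = x1) (hPz : P.z = z)
    (hPγ : P.γ = gamP γ w) {n : ℕ} [NeZero n] (h1 : (cfgP k R w).T + 3 ≤ n)
    (h2 : 2 * (cfgP k R w).m + 5 ≤ n) (g : G) :
    EP ((cfgP k R w).K true n ∩ PC n (2 * (cfgP k R w).m + 2)) (P.lab n) (vbase n) (vbase n) g := by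
  obtain ⟨_, l0, l1, lz, lγ⟩ := Cfg.loops (cfgP_ok w) P h1 h2
  have hg : g ∈ Subgroup.closure ({x0, x1, z} ∪ {g | ∃ i < 2 * k + 1, g = γ i}) := by
    rw [hU.gen]; trivial
  induction hg using Subgroup.closure_induction with
  | mem x hx =>
    rcases hx with hx | ⟨i, hi, rfl⟩
    · simp only [mem_insert_iff, mem_singleton_iff] at hx
      rcases hx with rfl | rfl | rfl
      · rw [hP0] at l0; exact l0
      · rw [hP1] at l1; exact l1
      · rw [hPz] at lz; exact lz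
    · have := lγ i (by rw [cfgP_m]; omega)
      rw [hPγ, gamP, if_neg (by omega)] at this
      exact this
  | one => exact EP.refl
  | mul x y _ _ hx hy => exact hx.trans hy
  | inv x _ hx => exact hx.symm

end rig

/-! ### transfer to the hypersurface -/

/-- the statement of the fundamental group of `X K`, in terms of potentials -/
structure PiX {n : ℕ} (K : Set (Cell n)) {G : Type} [Group G] (c : Vx n → Fin 5 → G) : Prop where
  conn : PathConnectedSpace (X K)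
  uniq : ∀ (x y : X K) (γ γ' : Path x y) (φ φ' : unitInterval → G),
      Pot (fun a b : X K => mOf c a b) γ φ → Pot (fun a b : X K => mOf c a b) γ' φ' →
      (φ 0)⁻¹ * φ 1 = (φ' 0)⁻¹ * φ' 1 → γ.Homotopic γ'
  surj : ∀ (x : X K) (g : G), ∃ (γ : Path x x) (φ : unitInterval → G),
      Pot (fun a b : X K => mOf c a b) γ φ ∧ (φ 0)⁻¹ * φ 1 = g

theorem Oset_subset_Np {n : ℕ} [NeZero n] {A : ℕ} {K : Set (Cell n)} (hK : IsCx K) :
    ∀ q ∈ Oset K A, q ∈ Np K A := by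
  intro q hq
  refine ⟨hK _ hq.1 _ (face_Lo_Hi one_pos le_rfl (by norm_num) q), ?_⟩
  have := hq.2
  simp only [KO, mem_setOf_eq, not_not] at this
  exact ⟨by omega, by omega⟩

theorem exists_theta_O {n : ℕ} [NeZero n] {A : ℕ} (hn : 5 ≤ n) (hA : A + 3 ≤ n)
    {K : Set (Cell n)} (hK : IsCx K) {G : Type} [Group G] {c : Vx n → Fin 5 → G}
    (hc : Flat (K ∩ PC n A) c) {Y : Set (Tor n)} (hY : ∀ q ∈ Y, q ∈ Np K A) :
    ∃ Θ : ∀ {x y : Y}, Path x y → G,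
      (∀ {x y : Y} (γ : Path x y), ∃ φ, Pot (fun a b : Y => mOf c a b) γ φ) ∧
      (∀ {x y : Y} (γ : Path x y) φ, Pot (fun a b : Y => mOf c a b) γ φ → Θ γ = (φ 0)⁻¹ * φ 1) ∧
      (∀ {x y : Y} (γ γ' : Path x y), γ.Homotopic γ' → Θ γ = Θ γ') ∧
      (∀ {x y z : Y} (γ : Path x y) (γ' : Path y z), Θ (γ.trans γ') = Θ γ * Θ γ') ∧
      (∀ {x y : Y} (γ : Path x y), Θ γ.symm = (Θ γ)⁻¹) ∧
      (∀ {x y : Y} (γ : Path x y), (∀ s t, dist (γ s) (γ t) < 1 / 2) → Θ γ = mOf c x y) := by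
  apply exists_theta (fun a b : Y => mOf c a b) (1 / 2) (by norm_num)
  intro x y z hxy hyz hxz
  exact cocycle_Np hn hA hK hc ⟨x.1, hY _ x.2⟩ ⟨y.1, hY _ y.2⟩ ⟨z.1, hY _ z.2⟩ hxy hyz hxz

/-- from the open neighbourhood to the hypersurface -/
theorem piX_of {n : ℕ} [NeZero n] {A : ℕ} (hn : 5 ≤ n) (hA : A + 3 ≤ n)
    {K : Set (Cell n)} (hK : IsCx K) (hKO : KO n A ⊆ K)
    (hthin : ∀ a ∈ K, a ∉ KO n A → dimC a ≤ 2) {G : Type} [Group G] {c : Vx n → Fin 5 → G}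
    (hc : Flat (K ∩ PC n A) c)
    (hO : PathConnectedSpace (Oset K A) ∧
      (∀ (x y : Oset K A) (γ γ' : Path x y) (φ φ' : unitInterval → G),
        Pot (fun a b : Oset K A => mOf c a b) γ φ → Pot (fun a b : Oset K A => mOf c a b) γ' φ' →
        (φ 0)⁻¹ * φ 1 = (φ' 0)⁻¹ * φ' 1 → γ.Homotopic γ') ∧
      (∀ (x : Oset K A) (g : G), ∃ (γ : Path x x) (φ : unitInterval → G),
        Pot (fun a b : Oset K A => mOf c a b) γ φ ∧ (φ 0)⁻¹ * φ 1 = g)) : PiX K c := by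
  obtain ⟨hconn, huniq, hsurj⟩ := hO
  obtain ⟨ι, hι, h1, h2, h3⟩ := pi1_X hn hA hK hKO hthin
  obtain ⟨Θ, hΘ0, hΘ1, hΘ2, -, -, -⟩ := exists_theta_O hn hA hK hc (Oset_subset_Np (A := A) hK)
  have hmap : ∀ {x y : X K} (γ : Path x y) (φ : unitInterval → G),
      Pot (fun a b : X K => mOf c a b) γ φ →
      Pot (fun a b : Oset K A => mOf c a b) (γ.map ι.continuous) φ := by
    intro x y γ φ hφ
    obtain ⟨δ, hδ, h⟩ := hφ
    refine ⟨δ, hδ, fun s t hst => ?_⟩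
    rw [h s t hst]
    simp only [mOf, Path.map_coe, Function.comp, hι]
  refine ⟨?_, ?_, ?_⟩
  · obtain ⟨x0⟩ := hconn.nonempty
    obtain ⟨q0, hq0⟩ := h3 ⟨x0.1, x0.2⟩
    refine ⟨⟨⟨q0, hq0⟩⟩, fun x y => ?_⟩
    obtain ⟨γ⟩ := hconn.joined (ι x) (ι y)
    obtain ⟨γ', -⟩ := h1 x y γ
    exact ⟨γ'⟩
  · intro x y γ γ' φ φ' hφ hφ' heq
    exact h2 x y γ γ' (huniq _ _ _ _ φ φ' (hmap γ φ hφ) (hmap γ' φ' hφ') heq)
  · intro x g
    obtain ⟨γ, φ, hφ, hg⟩ := hsurj (ι x) g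
    obtain ⟨γ', γ1, hhom, hkap⟩ := h1 x x γ
    obtain ⟨ψ, hψ⟩ := hΘ0 γ1
    refine ⟨γ', ψ, ?_, ?_⟩
    · obtain ⟨δ, hδ, h⟩ := hψ
      refine ⟨δ, hδ, fun s t hst => ?_⟩
      rw [h s t hst]
      simp only [mOf, hkap]
    · rw [← hΘ1 γ1 ψ hψ, hΘ2 _ _ hhom, hΘ1 γ φ hφ, hg]

/-- the fundamental group of the hypersurface -/
theorem piX_equiv {n : ℕ} [NeZero n] {A : ℕ} (hn : 5 ≤ n) (hA : A + 3 ≤ n)
    {K : Set (Cell n)} (hK : IsCx K) {G : Type} [Group G] {c : Vx n → Fin 5 → G}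
    (hc : Flat (K ∩ PC n A) c) (hX : ∀ q ∈ X K, q ∈ Np K A) (h : PiX K c) (x : X K) :
    Nonempty (FundamentalGroup (X K) x ≃* G) := by
  obtain ⟨Θ, hΘ0, hΘ1, hΘ2, hΘ3, -, -⟩ := exists_theta_O hn hA hK hc hX
  let f : FundamentalGroup (X K) x → G := fun p =>
    Quotient.lift (fun γ : Path x x => (Θ γ)⁻¹) (fun γ γ' hγ => by
      show (Θ γ)⁻¹ = (Θ γ')⁻¹
      rw [hΘ2 γ γ' hγ]) (FundamentalGroup.toPath p)
  have hf : ∀ γ : Path x x, f (FundamentalGroup.fromPath ⟦γ⟧) = (Θ γ)⁻¹ := fun γ => rfl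
  have hmul : ∀ p q, f (p * q) = f p * f q := by
    intro p q
    induction p using Quotient.inductionOn with
    | h γ =>
      induction q using Quotient.inductionOn with
      | h γ' =>
        have e : f (FundamentalGroup.fromPath ⟦γ'.trans γ⟧) =
            f (FundamentalGroup.fromPath ⟦γ⟧) * f (FundamentalGroup.fromPath ⟦γ'⟧) := by
          rw [hf, hf, hf, hΘ3, mul_inv_rev]
        exact e
  have hinj : Function.Injective f := by
    intro p q hpq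
    induction p using Quotient.inductionOn with
    | h γ =>
      induction q using Quotient.inductionOn with
      | h γ' =>
        have e : (Θ γ)⁻¹ = (Θ γ')⁻¹ := hpq
        obtain ⟨φ, hφ⟩ := hΘ0 γ
        obtain ⟨φ', hφ'⟩ := hΘ0 γ'
        have hh := h.uniq x x γ γ' φ φ' hφ hφ' (by
          rw [← hΘ1 γ φ hφ, ← hΘ1 γ' φ' hφ']; exact inv_injective e)
        exact Quotient.sound hh
  have hsurj : Function.Surjective f := by
    intro g
    obtain ⟨γ, φ, hφ, hg⟩ := h.surj x g⁻¹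
    refine ⟨FundamentalGroup.fromPath ⟦γ⟧, ?_⟩
    rw [hf, hΘ1 γ φ hφ, hg, inv_inv]
  exact ⟨MulEquiv.ofBijective (MonoidHom.mk' f hmul) ⟨hinj, hsurj⟩⟩

theorem X_subset_Np {n : ℕ} [NeZero n] {A : ℕ} {K : Set (Cell n)} (hKO : KO n A ⊆ K)
    (hKOcx : IsCx (KO n A)) : ∀ q ∈ X K, q ∈ Np K A := by
  intro q hq
  refine ⟨hq.1, ?_⟩
  have h1 : Lo 0 q ∉ KO n A := fun h => hq.2 (hKO (hKOcx _ h _
    (face_Hi_Lo le_rfl one_pos (by norm_num) q)))
  simp only [KO, mem_setOf_eq, not_not] at h1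
  exact ⟨by omega, by omega⟩

end Pool.Agent.FM
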