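import Pool.Agent.FM.D2
import Pool.Agent.FM.B03
import Pool.Agent.FM.B05
import Pool.Agent.FM.C09
import Pool.Agent.FM.C12
import Pool.Agent.FM.C14
import Pool.Agent.FM.A3
import Pool.Agent.Helper50.FM.Final
import Pool.Agent.FM.C13
import Pool.Agent.FM.C21
import Pool.Agent.FM.C16
import Pool.Agent.FM.C23
import Pool.Agent.FM.C24

/-!
# Assembly, part 3: the final theorem
-/

open Set

namespace Pool.Agent.FM

theorem fundamentalGroup_homeo {S Y : Type} [TopologicalSpace S] [TopologicalSpace Y] (e : S ≃ₜ Y)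
    (s : S) : Nonempty (FundamentalGroup S s ≃* FundamentalGroup Y (e s)) := by
  let f : FundamentalGroup S s →* FundamentalGroup Y (e s) :=
    FundamentalGroup.map (⟨e, e.continuous⟩ : C(S, Y)) s
  have hf : ∀ γ : Path s s, f (FundamentalGroup.fromPath ⟦γ⟧) =
      FundamentalGroup.fromPath ⟦γ.map e.continuous⟧ := fun γ => rfl
  refine ⟨MulEquiv.ofBijective f ⟨?_, ?_⟩⟩
  · intro p q hpq
    induction p using Quotient.inductionOn with
    | h γ =>
      induction q using Quotient.inductionOn with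
      | h γ' =>
        have h1 : (γ.map e.continuous).Homotopic (γ'.map e.continuous) := Quotient.exact hpq
        obtain ⟨H⟩ := h1
        refine Quotient.sound ⟨?_⟩
        refine
          { toFun := fun x => e.symm (H x)
            continuous_toFun := e.symm.continuous.comp H.continuous
            map_zero_left := fun x => ?_
            map_one_left := fun x => ?_
            prop' := fun t x hx => ?_ }
        · have := H.apply_zero x
          rw [this]; simp
        · have := H.apply_one x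
          rw [this]; simp
        · have := H.eq_fst t hx
          show e.symm (H (t, x)) = γ x
          rw [this]; simp
  · intro q
    induction q using Quotient.inductionOn with
    | h δ =>
      let γ : Path s s :=
        { toFun := fun t => e.symm (δ t)
          continuous_toFun := e.symm.continuous.comp δ.continuous
          source' := by simp
          target' := by simp }
      refine ⟨FundamentalGroup.fromPath ⟦γ⟧, ?_⟩
      rw [hf]
      have : γ.map e.continuous = δ := by
        ext t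
        simp [γ]
      rw [this]

theorem LS4.homeo {S Y : Type} [TopologicalSpace S] [TopologicalSpace Y] (e : S ≃ₜ Y)
    (h : LS4 Y) : LS4 S := by
  obtain ⟨U, hU, hcov, hp⟩ := h
  refine ⟨fun k => e ⁻¹' U k, fun k => (hU k).preimage e.continuous, ?_, ?_⟩
  · rw [← preimage_iUnion, hcov, preimage_univ]
  · intro k x y γ γ' hγ hγ'
    have h1 : (γ.map e.continuous).Homotopic (γ'.map e.continuous) :=
      hp k _ _ _ _ (fun t => hγ t) (fun t => hγ' t)
    obtain ⟨H⟩ := h1
    refine ⟨?_⟩
    refine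
      { toFun := fun x => e.symm (H x)
        continuous_toFun := e.symm.continuous.comp H.continuous
        map_zero_left := fun x => ?_
        map_one_left := fun x => ?_
        prop' := fun t x hx => ?_ }
    · have := H.apply_zero x
      rw [this]; simp
    · have := H.apply_one x
      rw [this]; simp
    · have := H.eq_fst t hx
      show e.symm (H (t, x)) = γ x
      rw [this]; simp

section main

variable {k : ℕ} {R : List (List (Fin k × Bool))} {G : Type} [Group G] {x0 x1 z : G} {γ : ℕ → G}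

/-- the complex of the word `w` -/
def KP (k : ℕ) (R : List (List (Fin k × Bool))) (w : List (Fin k × Bool)) :
    Set (Cell (nP k R w)) := (cfgP k R w).K true (nP k R w)

/-- everything about the hypersurface of a word -/
theorem data_word (hU : Univ k R G x0 x1 z γ) (w : List (Fin k × Bool)) :
    PathConnectedSpace (X (KP k R w)) ∧
    (∀ x, Nonempty (FundamentalGroup (X (KP k R w)) x ≃* G)) ∧
    (HasCup G x0 x1 (cOf γ w) z → ¬ LS4 (X (KP k R w))) ∧
    (cOf γ w = 1 → LS4 (X (KP k R w))) := by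
  obtain ⟨P, hP0, hP1, hPz, hPγ⟩ := D_exists_rep hU.rel w
  obtain ⟨h1, h2⟩ := nP_bounds (k := k) (R := R) w
  have hok := cfgP_ok (k := k) (R := R) w
  set n := nP k R w with hn
  have hn5 : 5 ≤ n := by omega
  have hA : 2 * (cfgP k R w).m + 2 + 3 ≤ n := by omega
  have hK : IsCx ((cfgP k R w).K true n) := Cfg.isCx_K hok h1 h2 true
  have hKO : KO n (2 * (cfgP k R w).m + 2) ⊆ (cfgP k R w).K true n := Cfg.KO_subset _ _ _
  have hthin := Cfg.thin hok h1 h2
  have hflat : Flat ((cfgP k R w).K true n ∩ PC n (2 * (cfgP k R w).m + 2)) (P.lab n) :=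
    Rep.flat hok P h1 h2
  have hO := groupoid_O hn5 (by omega) hA hK hKO hflat (vbase n) (Cfg.loops hok P h1 h2).1
    (fun v hv => ⟨1, Cfg.conn hok P h1 h2 v hv⟩)
    (D_gen_univ hU w P hP0 hP1 hPz hPγ h1 h2)
    (fun H _ c' hc' => D_rigid_univ hU w P hP0 hP1 hPz hPγ h1 h2 H c' hc')
  have hpi := piX_of hn5 hA hK hKO hthin hflat hO
  have hX : ∀ q ∈ X ((cfgP k R w).K true n), q ∈ Np ((cfgP k R w).K true n)
      (2 * (cfgP k R w).m + 2) := X_subset_Np hKO (isCx_KO hn5 hA)
  have hlast : P.γ ((cfgP k R w).m - 1) = cOf γ w := by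
    rw [hPγ, gamP, if_pos]
    show 2 * k + 2 - 1 = 2 * k + 1
    omega
  have hbd := Rep.bdLab hok P h1 h2
  rw [hlast, hP0, hP1, hPz] at hbd
  refine ⟨hpi.conn, fun x => piX_equiv hn5 hA hK hflat hX hpi x, fun hcup => ?_, fun h => ?_⟩
  · exact not_ls4 hn5 (by omega) hA hK hKO hflat hbd hcup
  · rw [h] at hbd
    exact ls4_of_trivial hn5 (by omega) hA hK hKO hthin hflat hbd hpi.uniq

/-- the configurations of words with the same value are equivalent -/
theorem CE_word {m : ℕ} (hm : 1 ≤ m) (J1 J2 : Finset ℕ) (rels : List (List (Fin m × Bool)))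
    (W W' : List (Fin m × Bool))
    (h : PresentedGroup.mk (relSet rels) (FreeGroup.mk W) =
      PresentedGroup.mk (relSet rels) (FreeGroup.mk W')) :
    CE (cfgW J1 J2 rels W) (cfgW J1 J2 rels W') := by
  exact words_moves rels (fun F G F' G' => CE (slotCfg m J1 J2 F G) (slotCfg m J1 J2 F' G'))
    (fun F G hFG hF hG => CE.refl (slotCfg_ok hm J1 J2 hFG hF hG))
    (fun F G F' G' h => h.symm)
    (fun F G F' G' F'' G'' h h' => h.trans h')
    (fun A B G s hA hB hs hG hl => CE.swap hm J1 J2 hA hB hs hG hl)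
    (fun A B G i b hi hA hB hG hl => CE.cancel hm J1 J2 b hi hA hB hG hl)
    (fun A B A' B' ρ hA hB hA' hB' hρ hAA hBB => CE.relator hm J1 J2 hA hB hA' hB' hρ hAA hBB)
    (fun A B A' B' hA hB hA' hB' hAA hBB => CE.insert hm J1 J2 hA hB hA' hB' hAA hBB)
    W W' h

theorem homeo_word {w : List (Fin k × Bool)} (h : Triv R w) :
    HEq' (KP k R w) (KP k R []) := by
  have h1 : CE (cfgP k R w) (cfgP k R []) :=
    CE_word (by omega) _ _ _ _ _ (mainWord_triv R w h)
  obtain ⟨a1, a2⟩ := nP_bounds (k := k) (R := R) w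
  obtain ⟨b1, b2⟩ := nP_bounds (k := k) (R := R) []
  have h2 := h1 (nP k R w) (nP k R []) a1 a2 b1 b2
  exact ((thin_full (cfgP_ok w) a1 a2).symm.trans h2).trans (thin_full (cfgP_ok []) b1 b2)

theorem iff_word (hU : Univ k R G x0 x1 z γ)
    (hcup : ∀ w, ¬ Triv R w → HasCup G x0 x1 (cOf γ w) z) (w : List (Fin k × Bool)) :
    HEq' (KP k R w) (KP k R []) ↔ Triv R w := by
  constructor
  · intro h
    by_contra hw
    obtain ⟨-, -, h1, -⟩ := data_word hU w
    obtain ⟨-, -, -, h2⟩ := data_word hU []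
    have h3 : LS4 (X (KP k R [])) := h2 (by simp [cOf, evalW])
    obtain ⟨e⟩ := h
    exact h1 (hcup w hw) (h3.homeo e)
  · exact homeo_word

/-- the triangulation of the word `w` -/
noncomputable def LP (k : ℕ) (R : List (List (Fin k × Bool))) (w : List (Fin k × Bool)) :
    List (List ℕ) := trW (piJ1 k) (piJ2 k) (piWords k R) (mainWord k w)

theorem LP_homeo (w : List (Fin k × Bool)) :
    Nonempty (Real (LP k R w) ≃ₜ X (KP k R w)) := by
  obtain ⟨h1, h2⟩ := nP_bounds (k := k) (R := R) w
  refine realization (n := nP k R w) (by omega) (Cfg.isCx_K (cfgP_ok w) h1 h2 true) _ ?_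
  intro e _
  simp only [decide_eq_true_eq]
  rfl

theorem good_word (hU : Univ k R G x0 x1 z γ) (w : List (Fin k × Bool)) :
    ConnectedSpace (Real (LP k R w)) ∧
    (∀ x : Real (LP k R w), ∃ U : Set (Real (LP k R w)), IsOpen U ∧ x ∈ U ∧
      Nonempty (U ≃ₜ EuclideanSpace ℝ (Fin 4))) ∧
    ∃ x : Real (LP k R w), Nonempty (FundamentalGroup (Real (LP k R w)) x ≃* G) := by
  obtain ⟨hconn, hpi, -, -⟩ := data_word hU w
  obtain ⟨e⟩ := LP_homeo (k := k) (R := R) w
  obtain ⟨h1, h2⟩ := nP_bounds (k := k) (R := R) w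
  refine ⟨?_, ?_, ?_⟩
  · exact e.symm.surjective.connectedSpace e.symm.continuous
  · intro x
    obtain ⟨U, hU, hxU, ⟨f⟩⟩ := locally_euclidean (n := nP k R w) (by omega)
      (Cfg.isCx_K (cfgP_ok w) h1 h2 true) (e x)
    refine ⟨e ⁻¹' U, hU.preimage e.continuous, hxU, ⟨?_⟩⟩
    exact (e.sets rfl).trans f
  · obtain ⟨y⟩ := hconn.nonempty
    obtain ⟨x, rfl⟩ := e.surjective y
    obtain ⟨g⟩ := hpi (e x)
    obtain ⟨g'⟩ := fundamentalGroup_homeo e x
    exact ⟨x, ⟨g'.trans g⟩⟩

end main

theorem S13173_data : ∃ (n : ℕ) (rels : Finset (FreeGroup (Fin n))) (F : ℕ → List (List ℕ))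
      (L0 : List (List ℕ)) (p : ℕ → Prop), Computable F ∧ ¬ ComputablePred p ∧
      Helper50.FM.GoodL rels L0 ∧ (∀ k, Helper50.FM.GoodL rels (F k)) ∧
      ∀ k, Nonempty (Helper50.FM.SL (F k) ≃ₜ Helper50.FM.SL L0) ↔ p k := by
  obtain ⟨k, R, w, hw, hund⟩ := undecidable_wp
  obtain ⟨N, rels, x0, x1, z, γ, hrel, huniv, hgen, hcup⟩ := exists_pi k R
  have hU : Univ k R _ x0 x1 z γ := ⟨hrel, huniv, hgen⟩
  refine ⟨N, rels, fun j => LP k R (w j), LP k R [], fun j => Triv R (w j), ?_, hund, ?_, ?_, ?_⟩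
  · exact (computable_trW (by omega) (piJ1 k) (piJ2 k) (piWords k R)).comp
      ((computable_mainWord k).comp hw)
  · obtain ⟨a, b, c⟩ := good_word hU []
    exact ⟨a, b, c⟩
  · intro j
    obtain ⟨a, b, c⟩ := good_word hU (w j)
    exact ⟨a, b, c⟩
  · intro j
    show Nonempty (Real (LP k R (w j)) ≃ₜ Real (LP k R [])) ↔ Triv R (w j)
    rw [← iff_word hU hcup (w j)]
    obtain ⟨e⟩ := LP_homeo (k := k) (R := R) (w j)
    obtain ⟨e'⟩ := LP_homeo (k := k) (R := R) []
    constructor
    · rintro ⟨f⟩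
      exact ⟨(e.symm.trans f).trans e'⟩
    · rintro ⟨f⟩
      exact ⟨(e.trans f).trans e'.symm⟩

end Pool.Agent.FM
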