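import Pool.Agent.FM.Basic

/-!
# Definitions used in the blocks of the 4-manifold project
-/

open Set Topology

namespace Pool.Agent.FM

/-! ### collapses -/

/-- `d` is a facet (codimension one face) of `c` -/
def Facet {n : ℕ} (d c : Cell n) : Prop :=
  ∃ j, (c j).2 = true ∧ (d j).2 = false ∧ ((d j).1 = (c j).1 ∨ (d j).1 = (c j).1 + 1) ∧
    ∀ i, i ≠ j → d i = c i

/-- the hypersurfaces of two complexes are homeomorphic -/
def HEq' {n n' : ℕ} (K : Set (Cell n)) (K' : Set (Cell n')) : Prop := Nonempty (X K ≃ₜ X K')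

theorem HEq'.refl {n : ℕ} (K : Set (Cell n)) : HEq' K K := ⟨Homeomorph.refl _⟩
theorem HEq'.symm {n n' : ℕ} {K : Set (Cell n)} {K' : Set (Cell n')} (h : HEq' K K') :
    HEq' K' K := h.map Homeomorph.symm
theorem HEq'.trans {n n' n'' : ℕ} {K : Set (Cell n)} {K' : Set (Cell n')} {K'' : Set (Cell n'')}
    (h : HEq' K K') (h' : HEq' K' K'') : HEq' K K'' := by
  obtain ⟨e⟩ := h
  obtain ⟨e'⟩ := h'
  exact ⟨e.trans e'⟩

/-! ### stretching -/

/-- the projection of cells which collapses the duplicated edge `k`: the edge `k`, the vertex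
`k + 1` and the edge `k + 1` go to the edge `k` -/
def sig {n : ℕ} (k : ℕ) (a : C1 (n + 1)) : C1 n :=
  if a.1.val ≤ k then ((a.1.val : ZMod n), a.2)
  else if a.1.val = k + 1 then ((k : ZMod n), true)
  else (((a.1.val - 1 : ℕ) : ZMod n), a.2)

/-- the complex obtained by duplicating the edge `k i` in each direction `i` -/
def stretchCx {n : ℕ} (k : Fin 5 → ℕ) (K : Set (Cell n)) : Set (Cell (n + 1)) :=
  {a | (fun i => sig (k i) (a i)) ∈ K}

/-! ### triangulations -/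

/-- the code of the neighbour in direction `j` (digits in base `N`) -/
def nx (N j e : ℕ) : ℕ := if (e / N ^ j) % N = N - 1 then e - (N - 1) * N ^ j else e + N ^ j

/-- the code of the neighbour in direction `-j` (digits in base `N`) -/
def pd (N j e : ℕ) : ℕ := if (e / N ^ j) % N = 0 then e + (N - 1) * N ^ j else e - N ^ j

/-- the vertices of a simplex of the Kuhn triangulation -/
def chain (N : ℕ) : ℕ → List ℕ → List ℕ
  | e, [] => [e]
  | e, j :: l => e :: chain N (nx N j e) l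

/-- the orders of the four directions different from `i` -/
def perms4 (i : ℕ) : List (List ℕ) := ((List.range 5).erase i).permutations

/-- the simplices (as lists of codes of vertices) of the boundary of the union of the unit cubes
whose codes satisfy `P`, in the torus of side `N` -/
def Tri (N : ℕ) (P : ℕ → Bool) : List (List ℕ) :=
  (List.range (N ^ 5)).flatMap fun e => (List.range 5).flatMap fun i =>
    if P e = P (pd N i e) then [] else (perms4 i).map fun l => chain N e l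

/-- the cell of the centre of the unit cube with code `e` -/
def cubeCell (n e : ℕ) : Cell n := fun i =>
  let q := (e / (3 * n) ^ (i : ℕ)) % (3 * n)
  if q % 3 = 0 then (((q / 3 : ℕ) : ZMod n), false)
  else if q % 3 = 1 then (((q / 3 : ℕ) : ZMod n), true) else (((q / 3 + 1 : ℕ) : ZMod n), false)

/-- geometric realisation of a list of simplices -/
def Real (L : List (List ℕ)) : Set (ℕ → ℝ) :=
  {x | ∃ s ∈ L, (∀ i, 0 ≤ x i) ∧ (∀ i, i ∉ s → x i = 0) ∧ ∑ i ∈ s.toFinset, x i = 1}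

/-! ### the distinguishing property -/

/-- covers by four open sets in which homotopy classes of paths in `Y` are determined by their
endpoints -/
def LS4 (Y : Type) [TopologicalSpace Y] : Prop :=
  ∃ U : Fin 4 → Set Y, (∀ k, IsOpen (U k)) ∧ (⋃ k, U k) = univ ∧
    ∀ k (x y : Y) (γ γ' : Path x y), (∀ t, γ t ∈ U k) → (∀ t, γ' t ∈ U k) → γ.Homotopic γ'

/-! ### connections and transport -/

section conn

variable {n : ℕ} {G : Type} [Group G]

/-- the neighbour of the vertex `v` in direction `i` -/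
def up (v : Vx n) (i : Fin 5) : Vx n := Function.update v i (v i + 1)

/-- the vertex `v` as a cell -/
def vc (v : Vx n) : Cell n := fun k => (v k, false)
/-- the edge from `v` to `up v i` -/
def ec (v : Vx n) (i : Fin 5) : Cell n := fun k => (v k, decide (k = i))
/-- the square with edges `ec v i` and `ec v j` -/
def sc (v : Vx n) (i j : Fin 5) : Cell n := fun k => (v k, decide (k = i ∨ k = j))

/-- a connection is flat on the squares of `L` -/
def Flat (L : Set (Cell n)) (c : Vx n → Fin 5 → G) : Prop :=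
  ∀ v i j, i ≠ j → sc v i j ∈ L → c v i * c (up v i) j = c v j * c (up v j) i

/-- transport of `c` when the coordinate `i` of `v` is changed to `a` -/
def stp (c : Vx n → Fin 5 → G) (v : Vx n) (i : Fin 5) (a : ZMod n) : G :=
  if a = v i then 1 else if a = v i + 1 then c v i else (c (Function.update v i a) i)⁻¹

/-- transport of `c` between two vertices of a cell, coordinate after coordinate -/
def ell (c : Vx n → Fin 5 → G) (v w : Vx n) : G :=
  let v1 := Function.update v 0 (w 0)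
  let v2 := Function.update v1 1 (w 1)
  let v3 := Function.update v2 2 (w 2)
  let v4 := Function.update v3 3 (w 3)
  stp c v 0 (w 0) * stp c v1 1 (w 1) * stp c v2 2 (w 2) * stp c v3 3 (w 3) * stp c v4 4 (w 4)

end conn

/-- `φ` is a potential of the local cocycle `m` along `γ` -/
def Pot {Y G : Type} [Group G] (m : Y → Y → G) (γ : unitInterval → Y) (φ : unitInterval → G) :
    Prop :=
  ∃ δ > 0, ∀ s t : unitInterval, dist s t < δ → φ t = φ s * m (γ s) (γ t)

/-! ### the planar region and the outer complex -/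

/-- doubled coordinate of a cell of the circle -/
def dbl {n : ℕ} (a : C1 n) : ℕ := 2 * a.1.val + a.2.toNat

/-- the cells whose planar part (directions `3`, `4`) is not in the interior of the rectangle
`[0, A] × [0, 3]` -/
def KO (n A : ℕ) : Set (Cell n) :=
  {a | ¬ (0 < dbl (a 3) ∧ dbl (a 3) < 2 * A ∧ 0 < dbl (a 4) ∧ dbl (a 4) < 6)}

/-- the cells whose planar part is in the closed rectangle `[0, A] × [0, 3]` -/
def PC (n A : ℕ) : Set (Cell n) := {a | dbl (a 3) ≤ 2 * A ∧ dbl (a 4) ≤ 6}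

/-- the part of the closed neighbourhood of `K` over the closed rectangle -/
def Np {n : ℕ} (K : Set (Cell n)) (A : ℕ) : Set (Tor n) := {q | Lo 1 q ∈ K ∧ Lo 0 q ∈ PC n A}

/-- the part of the open neighbourhood of `K` over the open rectangle -/
def Oset {n : ℕ} (K : Set (Cell n)) (A : ℕ) : Set (Tor n) := {q | Hi 1 q ∈ K ∧ Lo 0 q ∉ KO n A}

/-! ### the configurations -/

/-- the bus, in doubled coordinates -/
def onL (m u v : ℕ) : Prop := u ≤ 4 * m + 2 ∧ v = 2
/-- the loop `i`, in doubled coordinates -/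
def onLoop (i u v : ℕ) : Prop :=
  4 * i + 4 ≤ u ∧ u ≤ 4 * i + 6 ∧ 2 ≤ v ∧ v ≤ 4 ∧ ¬ (u = 4 * i + 5 ∧ v = 3)
/-- the bus together with the loops in `J`, in doubled coordinates -/
def Gam (m : ℕ) (J : Finset ℕ) (u v : ℕ) : Prop :=
  onL m u v ∨ ∃ i ∈ J, i < m ∧ onLoop i u v

/-- vertices of the graph of all loops -/
def IsGV (m : ℕ) (p : ℕ × ℕ) : Prop :=
  (p.1 ≤ 2 * m + 1 ∧ p.2 = 1) ∨ ∃ i < m, (p.1 = 2 * i + 2 ∨ p.1 = 2 * i + 3) ∧ p.2 = 2

/-- oriented edges of the graph of all loops -/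
def GE (m : ℕ) (p q : ℕ × ℕ) : Prop :=
  (p.2 = 1 ∧ q.2 = 1 ∧ q.1 = p.1 + 1 ∧ q.1 ≤ 2 * m + 1) ∨
  (∃ i < m, (p.1 = 2 * i + 2 ∨ p.1 = 2 * i + 3) ∧ q.1 = p.1 ∧ p.2 = 1 ∧ q.2 = 2) ∨
  (∃ i < m, p = (2 * i + 2, 2) ∧ q = (2 * i + 3, 2))

/-- equal or adjacent vertices of the graph -/
def GAdj (m : ℕ) (p q : ℕ × ℕ) : Prop := p = q ∨ GE m p q ∨ GE m q p

/-- a configuration: number of loops, final time, sets of loops, main walk, relator walk -/
structure Cfg where
  m : ℕ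
  T : ℕ
  J1 : Finset ℕ
  J2 : Finset ℕ
  f : ℕ → ℕ × ℕ
  g : ℕ → ℕ × ℕ

/-- admissible configurations -/
structure Cfg.Ok (c : Cfg) : Prop where
  hm : 1 ≤ c.m
  hT : 7 ≤ c.T
  fv : ∀ t, IsGV c.m (c.f t)
  fa : ∀ t, GAdj c.m (c.f t) (c.f (t + 1))
  f0 : ∀ t, t ≤ 3 → c.f t = (0, 1)
  fT : ∀ t, c.T ≤ t → c.f t = (0, 1)
  fp : ∀ t, 3 < t → t < c.T → 1 ≤ (c.f t).1
  gv : ∀ t, IsGV c.m (c.g t)
  ga : ∀ t, GAdj c.m (c.g t) (c.g (t + 1))
  g0 : ∀ t, t ≤ 4 → c.g t = (1, 1)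
  gT : ∀ t, c.T ≤ t + 1 → c.g t = (1, 1)
  gp : ∀ t, 1 ≤ (c.g t).1

/-- the graph of a walk, in doubled coordinates: at an odd time the vertex, at an even time the
segment between the two consecutive vertices -/
def onW (w : ℕ → ℕ × ℕ) (t u v : ℕ) : Prop :=
  if t % 2 = 1 then u = 2 * (w (t / 2)).1 ∧ v = 2 * (w (t / 2)).2
  else 2 * min (w (t / 2 - 1)).1 (w (t / 2)).1 ≤ u ∧ u ≤ 2 * max (w (t / 2 - 1)).1 (w (t / 2)).1 ∧
    2 * min (w (t / 2 - 1)).2 (w (t / 2)).2 ≤ v ∧ v ≤ 2 * max (w (t / 2 - 1)).2 (w (t / 2)).2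

/-- the cells of the inner complex, in doubled coordinates; for `z = true` the caps are thinned to
dimension two -/
def InK (z : Bool) (c : Cfg) (t x y u v : ℕ) : Prop :=
  (x = 2 ∧ y = 0 ∧ ((t ≤ 2 * c.T ∧ Gam c.m (Finset.range c.m) u v) ∨ Gam c.m c.J1 u v)) ∨
  (t = 4 ∧ y = 0 ∧ Gam c.m c.J2 u v) ∨
  (t = 2 ∧ x = 2 ∧ Gam c.m (Finset.range c.m) u v) ∨
  (t = 0 ∧ x = 0 ∧ y = 0 ∧ u ≤ 4 * c.m + 4 ∧ v ≤ 6 ∧ ¬ (u = 4 * c.m + 1 ∧ v = 3)) ∨
  (t = 0 ∧ y = 0 ∧ x ≤ 2 ∧ (onL c.m u v ∨ onLoop (c.m - 1) u v)) ∨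
  (8 ≤ t ∧ t + 2 ≤ 2 * c.T ∧ x = 2 ∧ y ≤ 2 ∧ (onW c.g t u v ∨ (u = 2 ∧ v = 2))) ∨
  (8 ≤ t ∧ t + 2 ≤ 2 * c.T ∧ x = 2 ∧ y = 2 ∧ 2 ≤ u ∧ u ≤ 4 * c.m + 2 ∧ 2 ≤ v ∧ v ≤ 4 ∧
    (z = true → ¬ (t % 2 = 1 ∧ v = 3 ∧ 2 < u))) ∨
  (6 ≤ t ∧ t ≤ 2 * c.T ∧ y = 0 ∧ 2 ≤ x ∧ x ≤ 4 ∧ onW c.f t u v) ∨
  (6 ≤ t ∧ t ≤ 2 * c.T ∧ y = 0 ∧ x = 4 ∧ u ≤ 4 * c.m + 2 ∧ 2 ≤ v ∧ v ≤ 4 ∧
    (z = true → ¬ (t % 2 = 1 ∧ v = 3 ∧ 0 < u)))

/-- the complex of a configuration -/
def Cfg.K (c : Cfg) (z : Bool) (n : ℕ) : Set (Cell n) :=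
  KO n (2 * c.m + 2) ∪
    {a | InK z c (dbl (a 0)) (dbl (a 1)) (dbl (a 2)) (dbl (a 3)) (dbl (a 4))}

section lab

variable {G : Type} [Group G]

/-- the label of a step of a walk: the right edge of the loop `i` (from height `1` to height `2`)
carries the label `γ i` -/
def stepLab (γ : ℕ → G) (p q : ℕ × ℕ) : G :=
  if p.1 = q.1 ∧ p.1 % 2 = 1 ∧ 3 ≤ p.1 then
    (if p.2 = 1 ∧ q.2 = 2 then γ ((p.1 - 3) / 2)
     else if p.2 = 2 ∧ q.2 = 1 then (γ ((p.1 - 3) / 2))⁻¹ else 1)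
  else 1

/-- the product of the labels of the first `t` steps of a walk -/
def pre (γ : ℕ → G) (w : ℕ → ℕ × ℕ) : ℕ → G
  | 0 => 1
  | t + 1 => pre γ w t * stepLab γ (w t) (w (t + 1))

/-- a representation of the fundamental group of a configuration -/
structure Rep (c : Cfg) (G : Type) [Group G] where
  x0 : G
  x1 : G
  z : G
  γ : ℕ → G
  h01 : Commute x0 x1
  h0z : Commute x0 z
  h1z : Commute x1 z
  h0c : Commute x0 (γ (c.m - 1))
  h1c : Commute x1 (γ (c.m - 1))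
  hJ1 : ∀ i ∈ c.J1, i < c.m → Commute x0 (γ i)
  hJ2 : ∀ i ∈ c.J2, i < c.m → Commute x1 (γ i)
  hz : ∀ i < c.m, Commute z (γ i)
  hf : pre γ c.f c.T = 1
  hg : ∀ t, 4 ≤ t → t < c.T → c.g t = (1, 1) → pre γ c.g t = 1

/-- the label of the right edge of a loop with abscissa `u` -/
def loopLab (m : ℕ) (γ : ℕ → G) (u : ℕ) : G :=
  if u % 2 = 1 ∧ 3 ≤ u ∧ u ≤ 2 * m + 1 then γ ((u - 3) / 2) else 1

/-- the labels of the edges, for a vertex with coordinates `t, x, y, u, v` in the torus with `n`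
vertices in each direction -/
def labN {c : Cfg} (R : Rep c G) (n t x y u v : ℕ) (i : Fin 5) : G :=
  if i = 0 then (if t + 1 = n then R.x0 else 1)
  else if i = 1 then
    (if x + 1 = n then R.x1
     else if x = 1 ∧ y = 0 ∧ 3 ≤ t ∧ t ≤ c.T then
      (if (u, v) = c.f t then (pre R.γ c.f t)⁻¹
       else if (u, v) = c.f (t - 1) then (pre R.γ c.f (t - 1))⁻¹ else 1)
     else 1)
  else if i = 2 then
    (if y + 1 = n then R.z
     else if y = 0 ∧ x = 1 ∧ 4 ≤ t ∧ t < c.T then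
      (if (u, v) = c.g t then (pre R.γ c.g t)⁻¹
       else if (u, v) = c.g (t - 1) then (pre R.γ c.g (t - 1))⁻¹ else 1)
     else 1)
  else if i = 3 then 1
  else if v = 1 then
    (if u = 2 * c.m + 2 then R.γ (c.m - 1)
     else if x = 1 ∧ y = 0 then loopLab c.m R.γ u
     else if t = 2 ∧ y = 0 then loopLab c.m R.γ u
     else if t = 1 ∧ x = 1 then loopLab c.m R.γ u
     else if t = 0 ∧ x = 0 ∧ y = 0 then (if u = 2 * c.m + 1 then R.γ (c.m - 1) else 1)
     else 1)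
  else 1

/-- the connection of a representation -/
def Rep.lab {c : Cfg} (R : Rep c G) (n : ℕ) (v : Vx n) (i : Fin 5) : G :=
  labN R n (v 0).val (v 1).val (v 2).val (v 3).val (v 4).val i

end lab

end Pool.Agent.FM
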