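import Mathlib

/-!
# Definitions for the group theoretic part of the 4-manifold project
-/

namespace Pool.Agent.FM

/-- an affine instruction on `ℤ^d`: on the coset `a + P ℤ^d` (diagonal `P`) it maps `a + P k` to
`c + Q k` -/
structure Instr (d : ℕ) where
  P : Fin d → ℕ
  Q : Fin d → ℕ
  a : Fin d → ℤ
  c : Fin d → ℤ

/-- one application of an instruction -/
def Instr.Step {d : ℕ} (I : Instr d) (v v' : Fin d → ℤ) : Prop :=
  ∃ k : Fin d → ℤ, (∀ j, v j = I.a j + I.P j * k j) ∧ (∀ j, v' j = I.c j + I.Q j * k j)

/-- the equivalence relation generated by a list of instructions -/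
def MEqv {d : ℕ} (L : List (Instr d)) : (Fin d → ℤ) → (Fin d → ℤ) → Prop :=
  Relation.EqvGen fun v v' => ∃ I ∈ L, I.Step v v'

/-- the set of relators given by a list of words -/
def relSet {k : ℕ} (R : List (List (Fin k × Bool))) : Set (FreeGroup (Fin k)) :=
  {r | ∃ l ∈ R, r = FreeGroup.mk l}

/-- the word `w` represents the trivial element of the group `⟨Fin k | R⟩` -/
def Triv {k : ℕ} (R : List (List (Fin k × Bool))) (w : List (Fin k × Bool)) : Prop :=
  PresentedGroup.mk (relSet R) (FreeGroup.mk w) = 1

end Pool.Agent.FM
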