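import Pool.Agent.FM.Defs
import Pool.Agent.FM.GDefs

/-!
# Further definitions: slots, words, edge paths, stars, cup products
-/

open Set Topology

namespace Pool.Agent.FM

/-! ### slots -/

/-- a slot of a walk: waiting at `(2, 1)`, touching the base point `(1, 1)`, or running through the
loop `i` (forwards or backwards) -/
inductive Slot : Type
  | wait : Slot
  | touch : Slot
  | lett : ℕ → Bool → Slot
  deriving DecidableEq

/-- the walk from `(2, 1)` around the loop `i`; it ends in `(2, 1)` at time `4 * i + 4` -/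
def lw (i j : ℕ) : ℕ × ℕ :=
  if j ≤ 2 * i then (2 + j, 1)
  else if j = 2 * i + 1 then (2 * i + 2, 2)
  else if j = 2 * i + 2 then (2 * i + 3, 2)
  else (max 2 (4 * i + 6 - j), 1)

/-- the position at time `j` in a slot of length `4 * m`; a positive letter runs through the right
edge of its loop upwards -/
def slotPos (m : ℕ) : Slot → ℕ → ℕ × ℕ
  | .wait, _ => (2, 1)
  | .touch, j => if j = 0 ∨ 4 * m ≤ j then (2, 1) else (1, 1)
  | .lett i false, j => lw i j
  | .lett i true, j => lw i (4 * m - j)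

/-- the walk of a list of slots -/
def wk (m : ℕ) (base : ℕ × ℕ) (S : List Slot) (t : ℕ) : ℕ × ℕ :=
  if t ≤ 3 then base
  else if t = 4 then (1, 1)
  else if t ≤ 5 + 4 * m * S.length then
    slotPos m (S.getD ((t - 5) / (4 * m)) Slot.wait) ((t - 5) % (4 * m))
  else if t = 6 + 4 * m * S.length then (1, 1)
  else base

/-- the configuration of two lists of slots (of the same length) -/
def slotCfg (m : ℕ) (J1 J2 : Finset ℕ) (F G : List Slot) : Cfg where
  m := m
  T := 7 + 4 * m * F.length
  J1 := J1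
  J2 := J2
  f := wk m (0, 1) F
  g := wk m (1, 1) G

/-- the letters of a slot are smaller than `m` -/
def Slot.Good (m : ℕ) : Slot → Prop
  | .lett i _ => i < m
  | _ => True

/-- the slots of a word -/
def slots {m : ℕ} (W : List (Fin m × Bool)) : List Slot := W.map fun p => Slot.lett p.1 p.2

/-- the slots of the relator walk -/
def relSlots {m : ℕ} (rels : List (List (Fin m × Bool))) : List Slot :=
  Slot.touch :: rels.flatMap fun ρ => slots ρ ++ [Slot.touch]

/-- the configuration of a word, for given relators -/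
def cfgW {m : ℕ} (J1 J2 : Finset ℕ) (rels : List (List (Fin m × Bool)))
    (W : List (Fin m × Bool)) : Cfg :=
  slotCfg m J1 J2 (List.replicate (relSlots rels).length Slot.wait ++ slots W)
    (relSlots rels ++ List.replicate W.length Slot.wait)

/-- the number of vertices in each direction used for the word `W` -/
def nW {m : ℕ} (rels : List (List (Fin m × Bool))) (W : List (Fin m × Bool)) : ℕ :=
  4 * m * ((relSlots rels).length + W.length) + 2 * m + 20

/-- value of a word -/
def evalW {G : Type} [Group G] {m : ℕ} (γ : ℕ → G) (W : List (Fin m × Bool)) : G :=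
  (W.map fun p => if p.2 then γ p.1 else (γ p.1)⁻¹).prod

/-! ### edge paths -/

/-- `EP L c v w g`: there is an edge path from `v` to `w` in `L` with holonomy `g` -/
inductive EP {n : ℕ} {G : Type} [Group G] (L : Set (Cell n)) (c : Vx n → Fin 5 → G) (v : Vx n) :
    Vx n → G → Prop
  | refl : EP L c v v 1
  | up {w : Vx n} {g : G} (i : Fin 5) : EP L c v w g → ec w i ∈ L → EP L c v (up w i) (g * c w i)
  | down {w : Vx n} {g : G} (i : Fin 5) : EP L c v (up w i) g → ec w i ∈ L →
      EP L c v w (g * (c w i)⁻¹)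

/-! ### stars -/

/-- the open star of the vertex `v` in the open neighbourhood -/
def star {n : ℕ} (K : Set (Cell n)) (A : ℕ) (v : Vx n) : Set (Oset K A) :=
  {q | Face (vc v) (Lo 1 q.1)}

/-- the local cocycle of a connection -/
noncomputable def mOf {n : ℕ} {G : Type} [Group G] (c : Vx n → Fin 5 → G) (x y : Tor n) : G :=
  ell c (Kap x) (Kap y)

/-! ### cup products -/

section cup

variable {G : Type} [Group G] {M0 M1 M2 M3 : Type} [AddCommGroup M0] [AddCommGroup M1]
  [AddCommGroup M2] [AddCommGroup M3] [DistribMulAction G M0] [DistribMulAction G M1]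
  [DistribMulAction G M2] [DistribMulAction G M3]

/-- the product of four 1-cochains with values in `G`-modules -/
def cup {P : Type} (Φ : M0 →+ M1 →+ M2 →+ M3 →+ ZMod 2) (m : P → P → G) (a0 : P → P → M0)
    (a1 : P → P → M1) (a2 : P → P → M2) (a3 : P → P → M3) (p : Fin 5 → P) : ZMod 2 :=
  Φ (a0 (p 0) (p 1)) (m (p 0) (p 1) • a1 (p 1) (p 2)) (m (p 0) (p 2) • a2 (p 2) (p 3))
    (m (p 0) (p 3) • a3 (p 3) (p 4))

/-- a crossed homomorphism modified by the coboundary of `f` -/
def modif {P M : Type} [AddCommGroup M] [DistribMulAction G M] (m : P → P → G) (α : G → M)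
    (f : P → M) (x y : P) : M := α (m x y) + f x - m x y • f y

end cup

/-! ### fine lattices -/

/-- the position of a point of the fine lattice with `μ` points per unit length -/
noncomputable def fpos (n μ : ℕ) (p : Fin 5 → ZMod (3 * n * μ)) : Tor n :=
  pt n fun i => ((p i).val : ℝ) / μ

/-- translation by a basis vector -/
def sh {N : ℕ} (p : Fin 5 → ZMod N) (i : Fin 5) : Fin 5 → ZMod N := Function.update p i (p i + 1)
/-- inverse translation by a basis vector -/
def shi {N : ℕ} (p : Fin 5 → ZMod N) (i : Fin 5) : Fin 5 → ZMod N := Function.update p i (p i - 1)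

/-- the five vertices of the Kuhn simplex with first vertex `q` and successive directions
`σ 1, σ 2, σ 3, σ 4` (the direction `σ 0` is omitted) -/
def simp4 {N : ℕ} (q : Fin 5 → ZMod N) (σ : Equiv.Perm (Fin 5)) : Fin 5 → (Fin 5 → ZMod N) :=
  ![q, sh q (σ 1), sh (sh q (σ 1)) (σ 2), sh (sh (sh q (σ 1)) (σ 2)) (σ 3),
    sh (sh (sh (sh q (σ 1)) (σ 2)) (σ 3)) (σ 4)]

/-- the six vertices of the Kuhn simplex with first vertex `q` and successive directions
`σ 0, ..., σ 4` -/
def simp5 {N : ℕ} (q : Fin 5 → ZMod N) (σ : Equiv.Perm (Fin 5)) : Fin 6 → (Fin 5 → ZMod N) :=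
  ![q, sh q (σ 0), sh (sh q (σ 0)) (σ 1), sh (sh (sh q (σ 0)) (σ 1)) (σ 2),
    sh (sh (sh (sh q (σ 0)) (σ 1)) (σ 2)) (σ 3),
    sh (sh (sh (sh (sh q (σ 0)) (σ 1)) (σ 2)) (σ 3)) (σ 4)]

/-- the cell of the centre of the fine unit cube with lower corner `p` -/
def fcell (n μ : ℕ) (p : Fin 5 → ZMod (3 * n * μ)) : Cell n := fun i =>
  let q := (p i).val / μ
  if q % 3 = 0 then (((q / 3 : ℕ) : ZMod n), false)
  else if q % 3 = 1 then (((q / 3 : ℕ) : ZMod n), true) else (((q / 3 + 1 : ℕ) : ZMod n), false)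

/-- the fine cubes of the closed neighbourhood over the rectangle -/
def cubes {n : ℕ} (μ : ℕ) (K : Set (Cell n)) (A : ℕ) : Set (Fin 5 → ZMod (3 * n * μ)) :=
  {p | fcell n μ p ∈ K ∧ (p 3).val < 3 * A * μ ∧ (p 4).val < 9 * μ}

/-! ### the relations of the group `π` -/

/-- the relators between the loops: `a_i = i`, `a'_i = k + i` (`i < k`), `s = 2 k`; the loop
`2 k + 1` is not involved -/
def piWords (k : ℕ) (R : List (List (Fin k × Bool))) : List (List (Fin (2 * k + 2) × Bool)) :=
  let a : Fin k → Fin (2 * k + 2) := fun i => ⟨i, by omega⟩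
  let a' : Fin k → Fin (2 * k + 2) := fun i => ⟨k + i, by omega⟩
  let s : Fin (2 * k + 2) := ⟨2 * k, by omega⟩
  ((List.finRange k).flatMap fun i => (List.finRange k).map fun j =>
    [(a i, true), (a' j, true), (a i, false), (a' j, false)]) ++
  ((List.finRange k).map fun i =>
    [(s, true), (a i, true), (a' i, true), (s, false), (a' i, false), (a i, false)]) ++
  (R.map fun r => [(s, true)] ++ r.map (fun p => (a p.1, p.2)) ++ [(s, false)] ++
    (r.reverse.map fun p => (a p.1, !p.2)))

/-- the main word `c⁻¹ s⁻¹ w s w⁻¹` -/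
def mainWord (k : ℕ) (w : List (Fin k × Bool)) : List (Fin (2 * k + 2) × Bool) :=
  let a : Fin k → Fin (2 * k + 2) := fun i => ⟨i, by omega⟩
  let s : Fin (2 * k + 2) := ⟨2 * k, by omega⟩
  let c : Fin (2 * k + 2) := ⟨2 * k + 1, by omega⟩
  [(c, false), (s, false)] ++ w.map (fun p => (a p.1, p.2)) ++ [(s, true)] ++
    (w.reverse.map fun p => (a p.1, !p.2))

/-- loops commuting with `x0`: `a'_i` and `s` -/
def piJ1 (k : ℕ) : Finset ℕ := Finset.Icc k (2 * k)
/-- loops commuting with `x1`: `a_i` and `s` -/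
def piJ2 (k : ℕ) : Finset ℕ := insert (2 * k) (Finset.range k)

/-- the relations satisfied by `x0, x1, z` and the loops `a_i, a'_i, s` in the group `π` -/
structure PiRel (k : ℕ) (R : List (List (Fin k × Bool))) {G : Type} [Group G] (x0 x1 z : G)
    (γ : ℕ → G) : Prop where
  h01 : Commute x0 x1
  h0z : Commute x0 z
  h1z : Commute x1 z
  hJ1 : ∀ i ∈ piJ1 k, Commute x0 (γ i)
  hJ2 : ∀ i ∈ piJ2 k, Commute x1 (γ i)
  hz : ∀ i < 2 * k + 1, Commute z (γ i)
  hrel : ∀ ρ ∈ piWords k R, evalW γ ρ = 1

/-- the element `s⁻¹ w s w⁻¹` -/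
def cOf {k : ℕ} {G : Type} [Group G] (γ : ℕ → G) (w : List (Fin k × Bool)) : G :=
  (γ (2 * k))⁻¹ * evalW γ w * γ (2 * k) * (evalW γ w)⁻¹

end Pool.Agent.FM
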