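import Pool.Agent.FM.Defs3

/-!
The group `π` of the four-manifolds: universal property, consequences of the relations.
-/

namespace Pool.Agent.FM

/-! ### values of words -/

theorem evalW_nil {G : Type} [Group G] {m : ℕ} (γ : ℕ → G) : evalW γ ([] : List (Fin m × Bool)) = 1 := rfl

theorem evalW_cons {G : Type} [Group G] {m : ℕ} (γ : ℕ → G) (p : Fin m × Bool) (W : List (Fin m × Bool)) :
    evalW γ (p :: W) = (if p.2 then γ p.1 else (γ p.1)⁻¹) * evalW γ W := by
  simp [evalW]

theorem evalW_append {G : Type} [Group G] {m : ℕ} (γ : ℕ → G) (U W : List (Fin m × Bool)) :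
    evalW γ (U ++ W) = evalW γ U * evalW γ W := by
  simp [evalW]

theorem evalW_map {G : Type} [Group G] {m m' : ℕ} (γ : ℕ → G) (f : Fin m → Fin m')
    (W : List (Fin m × Bool)) :
    evalW γ (W.map fun p => (f p.1, p.2)) =
      (W.map fun p => if p.2 then γ (f p.1) else (γ (f p.1))⁻¹).prod := by
  simp [evalW, Function.comp_def]

/-- a word in renamed letters -/
theorem evalW_map' {G : Type} [Group G] {m m' : ℕ} (γ : ℕ → G) (f : Fin m → Fin m') (γ' : ℕ → G)
    (h : ∀ i, γ (f i) = γ' i) (W : List (Fin m × Bool)) :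
    evalW γ (W.map fun p => (f p.1, p.2)) = evalW γ' W := by
  rw [evalW_map]
  simp [evalW, h]

theorem evalW_inv {G : Type} [Group G] {m : ℕ} (γ : ℕ → G) (W : List (Fin m × Bool)) :
    evalW γ (W.reverse.map fun p => (p.1, !p.2)) = (evalW γ W)⁻¹ := by
  induction W with
  | nil => simp [evalW]
  | cons p W ih =>
    rw [List.reverse_cons, List.map_append, evalW_append, ih, evalW_cons, mul_inv_rev]
    congr 1
    obtain ⟨i, b⟩ := p
    cases b <;> simp [evalW]

theorem evalW_map_hom {G H : Type} [Group G] [Group H] {m : ℕ} (f : G →* H) (γ : ℕ → G)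
    (W : List (Fin m × Bool)) : evalW (fun i => f (γ i)) W = f (evalW γ W) := by
  induction W with
  | nil => simp [evalW]
  | cons p W ih =>
    rw [evalW_cons, evalW_cons, map_mul, ih]
    congr 1
    split <;> simp

theorem evalW_congr {G : Type} [Group G] {m : ℕ} {γ γ' : ℕ → G} (h : ∀ i < m, γ i = γ' i)
    (W : List (Fin m × Bool)) : evalW γ W = evalW γ' W := by
  induction W with
  | nil => rfl
  | cons p W ih =>
    rw [evalW_cons, evalW_cons, ih, h p.1 p.1.2]

theorem evalW_eq_lift {G : Type} [Group G] {m : ℕ} (γ : ℕ → G) (W : List (Fin m × Bool)) :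
    evalW γ W = FreeGroup.lift (fun i : Fin m => γ i) (FreeGroup.mk W) := by
  rw [FreeGroup.lift_mk]
  unfold evalW
  congr 1
  apply List.map_congr_left
  intro p _
  cases p.2 <;> rfl

/-- if the relators hold then trivial words have value one -/
theorem evalW_of_triv {G : Type} [Group G] {k : ℕ} {R : List (List (Fin k × Bool))} (γ : ℕ → G)
    (hR : ∀ r ∈ R, evalW γ r = 1) {w : List (Fin k × Bool)} (hw : Triv R w) : evalW γ w = 1 := by
  have h1 : ∀ r ∈ relSet R, FreeGroup.lift (fun i : Fin k => γ i) r = 1 := by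
    rintro r ⟨l, hl, rfl⟩
    rw [← evalW_eq_lift]; exact hR l hl
  have h2 : PresentedGroup.toGroup h1 (PresentedGroup.mk (relSet R) (FreeGroup.mk w)) = evalW γ w := by
    rw [evalW_eq_lift]
    rfl
  rw [← h2]
  unfold Triv at hw
  rw [hw, map_one]

theorem comm_iff1 {G : Type} [Group G] (a b : G) : a * (b * (a⁻¹ * b⁻¹)) = 1 ↔ Commute a b := by
  constructor
  · intro h
    have h1 := congrArg (fun t => t * (b * a)) h
    have h2 : a * b = b * a := by simpa [mul_assoc] using h1
    exact h2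
  · intro h
    rw [← mul_assoc, h.eq]
    group

/-- the meaning of the words `piWords` -/
theorem piWords_iff {k : ℕ} {R : List (List (Fin k × Bool))} {G : Type} [Group G] {γ : ℕ → G} :
    (∀ ρ ∈ piWords k R, evalW γ ρ = 1) ↔ (∀ i < k, ∀ j < k, Commute (γ i) (γ (k + j))) ∧
      (∀ i < k, Commute (γ (2 * k)) (γ i * γ (k + i))) ∧
      ∀ r ∈ R, Commute (γ (2 * k)) (evalW γ r) := by
  have e1 : ∀ i j : Fin k, evalW γ
      [((⟨i, by omega⟩ : Fin (2 * k + 2)), true), ((⟨k + j, by omega⟩ : Fin (2 * k + 2)), true),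
        ((⟨i, by omega⟩ : Fin (2 * k + 2)), false), ((⟨k + j, by omega⟩ : Fin (2 * k + 2)), false)] = 1 ↔
      Commute (γ i) (γ (k + j)) := by
    intro i j
    rw [← comm_iff1]
    simp [evalW_cons, evalW_nil]
  have e2 : ∀ i : Fin k, evalW γ
      [((⟨2 * k, by omega⟩ : Fin (2 * k + 2)), true), ((⟨i, by omega⟩ : Fin (2 * k + 2)), true),
        ((⟨k + i, by omega⟩ : Fin (2 * k + 2)), true), ((⟨2 * k, by omega⟩ : Fin (2 * k + 2)), false),
        ((⟨k + i, by omega⟩ : Fin (2 * k + 2)), false), ((⟨i, by omega⟩ : Fin (2 * k + 2)), false)] = 1 ↔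
      Commute (γ (2 * k)) (γ i * γ (k + i)) := by
    intro i
    rw [← comm_iff1]
    simp [evalW_cons, evalW_nil, mul_assoc]
  have e3 : ∀ r : List (Fin k × Bool), evalW γ
      ([((⟨2 * k, by omega⟩ : Fin (2 * k + 2)), true)] ++
        r.map (fun p => ((⟨p.1, by omega⟩ : Fin (2 * k + 2)), p.2)) ++
        [((⟨2 * k, by omega⟩ : Fin (2 * k + 2)), false)] ++
        (r.reverse.map fun p => ((⟨p.1, by omega⟩ : Fin (2 * k + 2)), !p.2))) = 1 ↔
      Commute (γ (2 * k)) (evalW γ r) := by
    intro r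
    rw [← comm_iff1]
    have h1 : evalW γ (r.map (fun p => ((⟨p.1, by omega⟩ : Fin (2 * k + 2)), p.2))) = evalW γ r :=
      evalW_map' γ (fun i : Fin k => (⟨i, by omega⟩ : Fin (2 * k + 2))) γ (fun i => rfl) r
    have h2 : evalW γ (r.reverse.map fun p => ((⟨p.1, by omega⟩ : Fin (2 * k + 2)), !p.2)) =
        (evalW γ r)⁻¹ := by
      rw [← evalW_inv]
      have := evalW_map' γ (fun i : Fin k => (⟨i, by omega⟩ : Fin (2 * k + 2))) γ (fun i => rfl)
        (r.reverse.map fun p => (p.1, !p.2))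
      rw [List.map_map] at this
      exact this
    rw [evalW_append, evalW_append, evalW_append, h1, h2]
    simp [evalW_cons, evalW_nil, mul_assoc]
  unfold piWords
  simp only [List.mem_append, List.mem_flatMap, List.mem_map, List.mem_finRange, true_and]
  constructor
  · intro h
    refine ⟨fun i hi j hj => ?_, fun i hi => ?_, fun r hr => ?_⟩
    · exact (e1 ⟨i, hi⟩ ⟨j, hj⟩).mp (h _ (Or.inl (Or.inl ⟨⟨i, hi⟩, ⟨j, hj⟩, rfl⟩)))
    · exact (e2 ⟨i, hi⟩).mp (h _ (Or.inl (Or.inr ⟨⟨i, hi⟩, rfl⟩)))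
    · exact (e3 r).mp (h _ (Or.inr ⟨r, hr, rfl⟩))
  · rintro ⟨h1, h2, h3⟩ ρ ((⟨i, j, rfl⟩ | ⟨i, rfl⟩) | ⟨r, hr, rfl⟩)
    · exact (e1 i j).mpr (h1 i i.2 j j.2)
    · exact (e2 i).mpr (h2 i i.2)
    · exact (e3 r).mpr (h3 r hr)

section consequences

variable {k : ℕ} {R : List (List (Fin k × Bool))} {G : Type} [Group G] {x0 x1 z : G} {γ : ℕ → G}

/-- an element commuting with all the letters commutes with the value of a word -/
theorem evalW_commute {m : ℕ} {x : G} (h : ∀ i < m, Commute x (γ i)) (W : List (Fin m × Bool)) :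
    Commute x (evalW γ W) := by
  induction W with
  | nil => exact Commute.one_right x
  | cons p W ih =>
    rw [evalW_cons]
    refine Commute.mul_right ?_ ih
    split
    · exact h _ p.1.2
    · exact (h _ p.1.2).inv_right

/-- the value of the word `w` in the letters `a'` -/
def evalW' (k : ℕ) (γ : ℕ → G) (w : List (Fin k × Bool)) : G := evalW (fun i => γ (k + i)) w

/-- `w(a)` commutes with the letters `a'` -/
theorem PiRel.comm1 (h : PiRel k R x0 x1 z γ) (w : List (Fin k × Bool)) {j : ℕ} (hj : j < k) :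
    Commute (evalW γ w) (γ (k + j)) :=
  (evalW_commute (fun i hi => ((piWords_iff.mp h.hrel).1 i hi j hj).symm) w).symm

theorem PiRel.comm2 (h : PiRel k R x0 x1 z γ) (w w' : List (Fin k × Bool)) :
    Commute (evalW γ w) (evalW' k γ w') :=
  evalW_commute (γ := fun i => γ (k + i)) (fun _ hi => h.comm1 w hi) w'

/-- `w(a) w(a')` is the value of `w` in the letters `a_i a'_i` -/
theorem PiRel.prod_eq (h : PiRel k R x0 x1 z γ) (w : List (Fin k × Bool)) :
    evalW (fun i => γ i * γ (k + i)) w = evalW γ w * evalW' k γ w := by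
  unfold evalW'
  induction w with
  | nil => simp [evalW]
  | cons p w ih =>
    rw [evalW_cons, ih, evalW_cons, evalW_cons]
    have h1 : ∀ i < k, Commute (γ (k + i)) (evalW γ w) := fun i hi => (h.comm1 w hi).symm
    have h2 := (piWords_iff.mp h.hrel).1 p.1 p.1.2 p.1 p.1.2
    split
    · calc γ p.1 * γ (k + p.1) * (evalW γ w * evalW (fun i => γ (k + i)) w)
          = γ p.1 * (γ (k + p.1) * evalW γ w) * evalW (fun i => γ (k + i)) w := by group
        _ = _ := by rw [(h1 p.1 p.1.2).eq]; group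
    · calc (γ p.1 * γ (k + p.1))⁻¹ * (evalW γ w * evalW (fun i => γ (k + i)) w)
          = (γ (k + p.1) * γ p.1)⁻¹ * (evalW γ w * evalW (fun i => γ (k + i)) w) := by rw [h2.eq]
        _ = (γ p.1)⁻¹ * ((γ (k + p.1))⁻¹ * evalW γ w) * evalW (fun i => γ (k + i)) w := by group
        _ = _ := by rw [(h1 p.1 p.1.2).inv_left.eq]; group

/-- `s` commutes with `w(a) w(a')` -/
theorem PiRel.comm3 (h : PiRel k R x0 x1 z γ) (w : List (Fin k × Bool)) :
    Commute (γ (2 * k)) (evalW γ w * evalW' k γ w) := by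
  rw [← h.prod_eq]
  exact evalW_commute (γ := fun i => γ i * γ (k + i)) (fun i hi => (piWords_iff.mp h.hrel).2.1 i hi) w

/-- the second form of the element `c` -/
theorem PiRel.cOf_eq (h : PiRel k R x0 x1 z γ) (w : List (Fin k × Bool)) :
    cOf γ w = (γ (2 * k))⁻¹ * (evalW' k γ w)⁻¹ * γ (2 * k) * evalW' k γ w := by
  have h1 := (h.comm3 w).eq
  have h2 := (h.comm2 w w).eq
  unfold cOf
  set s := γ (2 * k)
  set A := evalW γ w
  set A' := evalW' k γ w
  -- s A A' = A A' s
  have h3 : A * s = A'⁻¹ * s * A' * A := by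
    have e1 : A'⁻¹ * (s * (A * A')) = A * s := by
      rw [h1, h2]; group
    rw [← e1, h2]; group
  calc s⁻¹ * A * s * A⁻¹ = s⁻¹ * (A * s) * A⁻¹ := by group
    _ = _ := by rw [h3]; group

theorem PiRel.comm_x0_c (h : PiRel k R x0 x1 z γ) (w : List (Fin k × Bool)) :
    Commute x0 (cOf γ w) := by
  rw [h.cOf_eq]
  have hs : Commute x0 (γ (2 * k)) := h.hJ1 (2 * k) (by simp [piJ1]; omega)
  have ha : Commute x0 (evalW' k γ w) :=
    evalW_commute (γ := fun i => γ (k + i)) (fun i hi => h.hJ1 (k + i) (by simp [piJ1]; omega)) w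
  exact ((hs.inv_right.mul_right ha.inv_right).mul_right hs).mul_right ha

theorem PiRel.comm_x1_c (h : PiRel k R x0 x1 z γ) (w : List (Fin k × Bool)) :
    Commute x1 (cOf γ w) := by
  have hs : Commute x1 (γ (2 * k)) := h.hJ2 (2 * k) (by simp [piJ2])
  have ha : Commute x1 (evalW γ w) :=
    evalW_commute (fun i hi => h.hJ2 i (by simp [piJ2]; omega)) w
  exact ((hs.inv_right.mul_right ha).mul_right hs).mul_right ha.inv_right

theorem PiRel.comm_z_c (h : PiRel k R x0 x1 z γ) (w : List (Fin k × Bool)) :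
    Commute z (cOf γ w) := by
  have hs : Commute z (γ (2 * k)) := h.hz (2 * k) (by omega)
  have ha : Commute z (evalW γ w) := evalW_commute (fun i hi => h.hz i (by omega)) w
  exact ((hs.inv_right.mul_right ha).mul_right hs).mul_right ha.inv_right

/-- the subgroup of free group elements whose value commutes with `s` -/
theorem PiRel.comm_triv (h : PiRel k R x0 x1 z γ) {w : List (Fin k × Bool)} (hw : Triv R w) :
    Commute (γ (2 * k)) (evalW γ w) := by
  have hN : ∀ x ∈ Subgroup.normalClosure (relSet R),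
      Commute (γ (2 * k)) (FreeGroup.lift (fun i : Fin k => γ i) x) := by
    -- the set of x such that all conjugates commute with s
    let N : Subgroup (FreeGroup (Fin k)) :=
      { carrier := {x | Commute (γ (2 * k)) (FreeGroup.lift (fun i : Fin k => γ i) x)}
        one_mem' := by simp
        mul_mem' := by
          intro a b ha hb
          rw [Set.mem_ofPred_eq] at *
          rw [map_mul]
          exact ha.mul_right hb
        inv_mem' := by
          intro a ha
          rw [Set.mem_ofPred_eq] at *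
          rw [map_inv]
          exact ha.inv_right }
    have hnormal : ∀ g x : FreeGroup (Fin k), x ∈ N → g * x * g⁻¹ ∈ N := by
      intro g x hx
      show Commute (γ (2 * k)) (FreeGroup.lift (fun i : Fin k => γ i) (g * x * g⁻¹))
      obtain ⟨W, rfl⟩ : ∃ W, FreeGroup.mk W = g := ⟨g.toWord, FreeGroup.mk_toWord⟩
      obtain ⟨Y, rfl⟩ : ∃ Y, FreeGroup.mk Y = x := ⟨x.toWord, FreeGroup.mk_toWord⟩
      have hx' : Commute (γ (2 * k)) (evalW γ Y) := by rw [evalW_eq_lift]; exact hx
      rw [map_mul, map_mul, map_inv, ← evalW_eq_lift, ← evalW_eq_lift]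
      have h1 := h.comm3 W
      have h2 : Commute (evalW' k γ W) (evalW γ Y) := (h.comm2 Y W).symm
      have h3 : evalW γ W * evalW γ Y * (evalW γ W)⁻¹ =
          (evalW γ W * evalW' k γ W) * evalW γ Y * (evalW γ W * evalW' k γ W)⁻¹ := by
        calc evalW γ W * evalW γ Y * (evalW γ W)⁻¹
            = evalW γ W * (evalW γ Y * evalW' k γ W) * (evalW' k γ W)⁻¹ * (evalW γ W)⁻¹ := by group
          _ = _ := by rw [← h2.eq]; group
      rw [h3]
      exact (h1.mul_right hx').mul_right h1.inv_right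
    have hNn : N.Normal := ⟨fun x hx g => hnormal g x hx⟩
    have hle : Subgroup.normalClosure (relSet R) ≤ N := by
      apply Subgroup.normalClosure_le_normal
      rintro r ⟨l, hl, rfl⟩
      show Commute (γ (2 * k)) (FreeGroup.lift (fun i : Fin k => γ i) (FreeGroup.mk l))
      rw [← evalW_eq_lift]
      exact (piWords_iff.mp h.hrel).2.2 l hl
    exact fun x hx => hle hx
  rw [evalW_eq_lift]
  apply hN
  unfold Triv at hw
  exact (QuotientGroup.eq_one_iff _).mp hw

/-- if `w` is trivial then `c` is trivial -/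
theorem PiRel.cOf_triv (h : PiRel k R x0 x1 z γ) {w : List (Fin k × Bool)} (hw : Triv R w) :
    cOf γ w = 1 := by
  have h1 := (h.comm_triv hw).eq
  unfold cOf
  calc (γ (2 * k))⁻¹ * evalW γ w * γ (2 * k) * (evalW γ w)⁻¹
      = (γ (2 * k))⁻¹ * (evalW γ w * γ (2 * k)) * (evalW γ w)⁻¹ := by group
    _ = 1 := by rw [← h1]; group

end consequences

/-! ### the group `π` -/

section pi

variable (k : ℕ) (R : List (List (Fin k × Bool)))

/-- the loops as elements of the free group -/
def fg (k : ℕ) (i : ℕ) : FreeGroup (Fin (2 * k + 4)) :=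
  if h : i < 2 * k + 1 then FreeGroup.of ⟨i, by omega⟩ else 1
/-- the generator `x0` -/
def fx0 (k : ℕ) : FreeGroup (Fin (2 * k + 4)) := FreeGroup.of ⟨2 * k + 1, by omega⟩
/-- the generator `x1` -/
def fx1 (k : ℕ) : FreeGroup (Fin (2 * k + 4)) := FreeGroup.of ⟨2 * k + 2, by omega⟩
/-- the generator `z` -/
def fz (k : ℕ) : FreeGroup (Fin (2 * k + 4)) := FreeGroup.of ⟨2 * k + 3, by omega⟩

/-- commutator -/
def cm {G : Type} [Group G] (a b : G) : G := a * (b * (a⁻¹ * b⁻¹))

/-- the relators of `π` -/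
def piRels : Finset (FreeGroup (Fin (2 * k + 4))) :=
  {cm (fx0 k) (fx1 k), cm (fx0 k) (fz k), cm (fx1 k) (fz k)} ∪
    (piJ1 k).image (fun i => cm (fx0 k) (fg k i)) ∪ (piJ2 k).image (fun i => cm (fx1 k) (fg k i)) ∪
    (Finset.range (2 * k + 1)).image (fun i => cm (fz k) (fg k i)) ∪
    ((piWords k R).map (evalW (fg k))).toFinset

/-- the group `π` -/
abbrev PiG : Type := PresentedGroup (piRels k R : Set (FreeGroup (Fin (2 * k + 4))))

/-- the projection -/
def piMk : FreeGroup (Fin (2 * k + 4)) →* PiG k R := PresentedGroup.mk _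

theorem map_cm {G H : Type} [Group G] [Group H] (f : G →* H) (a b : G) : f (cm a b) = cm (f a) (f b) := by
  simp [cm]

/-- a homomorphism kills the relators iff the relations hold -/
theorem piRels_iff {H : Type} [Group H] (f : FreeGroup (Fin (2 * k + 4)) →* H) :
    (∀ r ∈ (piRels k R : Set (FreeGroup (Fin (2 * k + 4)))), f r = 1) ↔
      PiRel k R (f (fx0 k)) (f (fx1 k)) (f (fz k)) (fun i => f (fg k i)) := by
  have hcm : ∀ a b : FreeGroup (Fin (2 * k + 4)), f (cm a b) = 1 ↔ Commute (f a) (f b) := by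
    intro a b
    rw [map_cm]
    exact comm_iff1 _ _
  constructor
  · intro h
    refine ⟨?_, ?_, ?_, ?_, ?_, ?_, ?_⟩
    · exact (hcm _ _).mp (h _ (by simp [piRels]))
    · exact (hcm _ _).mp (h _ (by simp [piRels]))
    · exact (hcm _ _).mp (h _ (by simp [piRels]))
    · intro i hi
      refine (hcm _ _).mp (h _ ?_)
      simp only [piRels, Finset.coe_union, Set.mem_union, Finset.mem_coe, Finset.mem_image]
      exact Or.inl (Or.inl (Or.inl (Or.inr ⟨i, hi, rfl⟩)))
    · intro i hi
      refine (hcm _ _).mp (h _ ?_)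
      simp only [piRels, Finset.coe_union, Set.mem_union, Finset.mem_coe, Finset.mem_image]
      exact Or.inl (Or.inl (Or.inr ⟨i, hi, rfl⟩))
    · intro i hi
      refine (hcm _ _).mp (h _ ?_)
      simp only [piRels, Finset.coe_union, Set.mem_union, Finset.mem_coe, Finset.mem_image]
      exact Or.inl (Or.inr ⟨i, Finset.mem_range.mpr hi, rfl⟩)
    · intro ρ hρ
      rw [evalW_map_hom]
      refine h _ ?_
      simp only [piRels, Finset.coe_union, Set.mem_union, Finset.mem_coe, List.mem_toFinset,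
        List.mem_map]
      exact Or.inr ⟨ρ, hρ, rfl⟩
  · intro h r hr
    simp only [piRels, Finset.coe_union, Set.mem_union, Finset.mem_coe, Finset.mem_image,
      List.mem_toFinset, List.mem_map, Finset.mem_insert, Finset.mem_singleton] at hr
    rcases hr with (((hr | ⟨i, hi, rfl⟩) | ⟨i, hi, rfl⟩) | ⟨i, hi, rfl⟩) | ⟨ρ, hρ, rfl⟩
    · rcases hr with rfl | rfl | rfl
      · exact (hcm _ _).mpr h.h01
      · exact (hcm _ _).mpr h.h0z
      · exact (hcm _ _).mpr h.h1z
    · exact (hcm _ _).mpr (h.hJ1 i hi)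
    · exact (hcm _ _).mpr (h.hJ2 i hi)
    · exact (hcm _ _).mpr (h.hz i (Finset.mem_range.mp hi))
    · rw [← evalW_map_hom]
      exact h.hrel ρ hρ

theorem pi_rel : PiRel k R (piMk k R (fx0 k)) (piMk k R (fx1 k)) (piMk k R (fz k))
    (fun i => piMk k R (fg k i)) := by
  rw [← piRels_iff]
  intro r hr
  exact PresentedGroup.one_of_mem hr

variable {k R}

/-- the relations only involve the loops `i < 2 k + 1` -/
theorem PiRel.congr {G : Type} [Group G] {x0 x1 z : G} {γ γ' : ℕ → G} (h : PiRel k R x0 x1 z γ)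
    (hγ : ∀ i < 2 * k + 1, γ' i = γ i) : PiRel k R x0 x1 z γ' := by
  refine ⟨h.h01, h.h0z, h.h1z, ?_, ?_, ?_, ?_⟩
  · intro i hi
    rw [hγ i (by simp [piJ1] at hi; omega)]
    exact h.hJ1 i hi
  · intro i hi
    rw [hγ i (by simp [piJ2] at hi; omega)]
    exact h.hJ2 i hi
  · intro i hi
    rw [hγ i hi]
    exact h.hz i hi
  · have h1 := piWords_iff.mp h.hrel
    rw [piWords_iff]
    refine ⟨fun i hi j hj => ?_, fun i hi => ?_, fun r hr => ?_⟩
    · rw [hγ i (by omega), hγ (k + j) (by omega)]; exact h1.1 i hi j hj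
    · rw [hγ i (by omega), hγ (k + i) (by omega), hγ (2 * k) (by omega)]; exact h1.2.1 i hi
    · rw [hγ (2 * k) (by omega), evalW_congr (fun i hi => hγ i (by omega))]; exact h1.2.2 r hr

/-- universal property of `π` -/
theorem pi_lift {H : Type} [Group H] {x0 x1 z : H} {γ : ℕ → H} (h : PiRel k R x0 x1 z γ) :
    ∃ f : PiG k R →* H, f (piMk k R (fx0 k)) = x0 ∧ f (piMk k R (fx1 k)) = x1 ∧
      f (piMk k R (fz k)) = z ∧ ∀ i < 2 * k + 1, f (piMk k R (fg k i)) = γ i := by
  let v : Fin (2 * k + 4) → H := fun i =>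
    if (i : ℕ) < 2 * k + 1 then γ i else if (i : ℕ) = 2 * k + 1 then x0
      else if (i : ℕ) = 2 * k + 2 then x1 else z
  have e0 : FreeGroup.lift v (fx0 k) = x0 := by simp [fx0, v]
  have e1 : FreeGroup.lift v (fx1 k) = x1 := by simp [fx1, v]
  have e2 : FreeGroup.lift v (fz k) = z := by simp [fz, v]
  have e3 : ∀ i < 2 * k + 1, FreeGroup.lift v (fg k i) = γ i := by
    intro i hi
    simp only [fg, hi, dif_pos, FreeGroup.lift_apply_of, v, if_pos]
  have hrel : ∀ r ∈ (piRels k R : Set (FreeGroup (Fin (2 * k + 4)))), FreeGroup.lift v r = 1 := by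
    rw [piRels_iff, e0, e1, e2]
    exact h.congr e3
  refine ⟨PresentedGroup.toGroup hrel, ?_, ?_, ?_, ?_⟩
  · exact e0
  · exact e1
  · exact e2
  · exact e3

/-- homomorphisms from `π` are determined by the values at the generators -/
theorem pi_ext {H : Type} [Group H] {f f' : PiG k R →* H}
    (h0 : f (piMk k R (fx0 k)) = f' (piMk k R (fx0 k)))
    (h1 : f (piMk k R (fx1 k)) = f' (piMk k R (fx1 k)))
    (hz : f (piMk k R (fz k)) = f' (piMk k R (fz k)))
    (hγ : ∀ i < 2 * k + 1, f (piMk k R (fg k i)) = f' (piMk k R (fg k i))) : f = f' := by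
  have h : f.comp (piMk k R) = f'.comp (piMk k R) := by
    ext i
    have hi := i.2
    by_cases c1 : (i : ℕ) < 2 * k + 1
    · have := hγ i c1
      simpa [fg, c1] using this
    · by_cases c2 : (i : ℕ) = 2 * k + 1
      · have e : i = ⟨2 * k + 1, by omega⟩ := Fin.ext c2
        rw [e]; exact h0
      · by_cases c3 : (i : ℕ) = 2 * k + 2
        · have e : i = ⟨2 * k + 2, by omega⟩ := Fin.ext c3
          rw [e]; exact h1
        · have e : i = ⟨2 * k + 3, by omega⟩ := Fin.ext (by simp only []; omega)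
          rw [e]; exact hz
  ext x
  exact DFunLike.congr_fun h (FreeGroup.of x)

end pi

end Pool.Agent.FM
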