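import Pool.Agent.FM.G1

/-!
Four crossed homomorphisms of the group `π` whose product does not vanish on the torus
`x0, x1, c, z` when the word `w` is not trivial.
-/

namespace Pool.Agent.FM

namespace G2

/-- the affine group of a module -/
@[ext] structure Aff (Q M : Type) : Type where
  m : M
  q : Q

section aff

variable {Q M : Type} [Group Q] [AddCommGroup M] [DistribMulAction Q M]

instance : Group (Aff Q M) where
  mul a b := ⟨a.m + a.q • b.m, a.q * b.q⟩
  one := ⟨0, 1⟩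
  inv a := ⟨-(a.q⁻¹ • a.m), a.q⁻¹⟩
  mul_assoc a b c := by
    apply Aff.ext
    · show a.m + a.q • b.m + (a.q * b.q) • c.m = a.m + a.q • (b.m + b.q • c.m)
      rw [smul_add, mul_smul, add_assoc]
    · exact mul_assoc _ _ _
  one_mul a := by
    apply Aff.ext
    · show 0 + (1 : Q) • a.m = a.m
      rw [one_smul, zero_add]
    · exact one_mul _
  mul_one a := by
    apply Aff.ext
    · show a.m + a.q • 0 = a.m
      rw [smul_zero, add_zero]
    · exact mul_one _
  inv_mul_cancel a := by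
    apply Aff.ext
    · show -(a.q⁻¹ • a.m) + a.q⁻¹ • a.m = 0
      simp
    · exact inv_mul_cancel _

theorem mul_m (a b : Aff Q M) : (a * b).m = a.m + a.q • b.m := rfl
theorem mul_q (a b : Aff Q M) : (a * b).q = a.q * b.q := rfl
theorem one_m : (1 : Aff Q M).m = 0 := rfl
theorem one_q : (1 : Aff Q M).q = 1 := rfl
theorem inv_m (a : Aff Q M) : (a⁻¹).m = -(a.q⁻¹ • a.m) := rfl
theorem inv_q (a : Aff Q M) : (a⁻¹).q = a.q⁻¹ := rfl

/-- the projection to the group -/
def proj : Aff Q M →* Q where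
  toFun a := a.q
  map_one' := rfl
  map_mul' _ _ := rfl

/-- elements with trivial module part -/
def emb : Q →* Aff Q M where
  toFun q := ⟨0, q⟩
  map_one' := rfl
  map_mul' a b := by
    apply Aff.ext
    · show (0 : M) = 0 + a • 0
      simp
    · rfl

/-- a module element fixed by `q` commutes with `q` -/
theorem comm_aff {m : M} {q : Q} (h : q • m = m) : Commute (⟨m, 1⟩ : Aff Q M) (emb q) := by
  apply Aff.ext
  · show m + (1 : Q) • (0 : M) = 0 + q • m
    rw [h]; simp
  · show (1 : Q) * q = q * 1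
    simp

variable {k : ℕ} {R : List (List (Fin k × Bool))}

/-- crossed homomorphisms from the universal property -/
theorem exists_crossed (ρ : PiG k R →* Q) (m0 m1 mz : M) (mγ : ℕ → M)
    (h : PiRel k R (⟨m0, ρ (piMk k R (fx0 k))⟩ : Aff Q M) ⟨m1, ρ (piMk k R (fx1 k))⟩
      ⟨mz, ρ (piMk k R (fz k))⟩ (fun i => ⟨mγ i, ρ (piMk k R (fg k i))⟩)) :
    ∃ α : PiG k R → M, (∀ g h, α (g * h) = α g + ρ g • α h) ∧ α (piMk k R (fx0 k)) = m0 ∧
      α (piMk k R (fx1 k)) = m1 ∧ α (piMk k R (fz k)) = mz ∧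
      ∀ i < 2 * k + 1, α (piMk k R (fg k i)) = mγ i := by
  obtain ⟨f, f0, f1, f2, f3⟩ := pi_lift h
  have hp : proj.comp f = ρ := by
    apply pi_ext
    · show (f _).q = _
      rw [f0]
    · show (f _).q = _
      rw [f1]
    · show (f _).q = _
      rw [f2]
    · intro i hi
      show (f _).q = _
      rw [f3 i hi]
  have hq : ∀ g, (f g).q = ρ g := fun g => DFunLike.congr_fun hp g
  refine ⟨fun g => (f g).m, ?_, ?_, ?_, ?_, ?_⟩
  · intro g h
    simp only [map_mul, mul_m, hq]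
  · simp only [f0]
  · simp only [f1]
  · simp only [f2]
  · intro i hi
    simp only [f3 i hi]

end aff

/-! ### the modules -/

/-- the group algebra -/
abbrev A (Γ : Type) : Type := MonoidAlgebra (ZMod 2) Γ

/-- group elements in the group algebra -/
noncomputable abbrev sg {Γ : Type} (g : Γ) : A Γ := MonoidAlgebra.single g 1

section mods

variable {Γ : Type} [Group Γ]

theorem sg_mul (g h : Γ) : sg g * sg h = sg (g * h) := by
  rw [MonoidAlgebra.single_mul_single, one_mul]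

theorem sg_one : sg (1 : Γ) = 1 := rfl

/-- the first module -/
@[reducible] noncomputable def act0 : DistribMulAction (Γ × Γ) (A Γ) where
  smul g m := sg g.1 * m
  one_smul m := by
    show sg (1 : Γ) * m = m
    rw [sg_one, one_mul]
  mul_smul g h m := by
    show sg (g.1 * h.1) * m = sg g.1 * (sg h.1 * m)
    rw [← mul_assoc, sg_mul]
  smul_zero g := mul_zero _
  smul_add g m m' := mul_add _ _ _

/-- the second module -/
@[reducible] noncomputable def act1 : DistribMulAction (Γ × Γ) (A Γ) where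
  smul g m := m * sg g.2⁻¹
  one_smul m := by
    show m * sg (1 : Γ)⁻¹ = m
    rw [inv_one, sg_one, mul_one]
  mul_smul g h m := by
    show m * sg (g.2 * h.2)⁻¹ = (m * sg h.2⁻¹) * sg g.2⁻¹
    rw [mul_assoc, sg_mul, mul_inv_rev]
  smul_zero g := zero_mul _
  smul_add g m m' := add_mul _ _ _

/-- the third module -/
@[reducible] noncomputable def act2 : DistribMulAction (Γ × Γ) (A Γ) where
  smul g m := sg g.2 * m * sg g.1⁻¹
  one_smul m := by
    show sg (1 : Γ) * m * sg (1 : Γ)⁻¹ = m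
    rw [inv_one, sg_one, mul_one, one_mul]
  mul_smul g h m := by
    show sg (g.2 * h.2) * m * sg (g.1 * h.1)⁻¹ = sg g.2 * (sg h.2 * m * sg h.1⁻¹) * sg g.1⁻¹
    rw [mul_inv_rev, ← sg_mul, ← sg_mul]
    simp only [mul_assoc]
  smul_zero g := by
    show sg g.2 * 0 * sg g.1⁻¹ = 0
    rw [mul_zero, zero_mul]
  smul_add g m m' := by
    show sg g.2 * (m + m') * sg g.1⁻¹ = sg g.2 * m * sg g.1⁻¹ + sg g.2 * m' * sg g.1⁻¹
    rw [mul_add, add_mul]

/-- the trivial module -/
@[reducible] def act3 (G : Type) [Group G] : DistribMulAction G (ZMod 2) where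
  smul _ m := m
  one_smul _ := rfl
  mul_smul _ _ _ := rfl
  smul_zero _ := rfl
  smul_add _ _ _ := rfl

/-- the coefficient at the neutral element -/
noncomputable def tau (x : A Γ) : ZMod 2 := x.coeff 1

theorem tau_add (x y : A Γ) : tau (x + y) = tau x + tau y := by simp [tau]

theorem tau_conj (g : Γ) (x : A Γ) : tau (sg g * x * sg g⁻¹) = tau x := by
  simp [tau]

/-- the invariant multilinear form -/
noncomputable def Phi : A Γ →+ A Γ →+ A Γ →+ ZMod 2 →+ ZMod 2 :=
  AddMonoidHom.mk' (fun a => AddMonoidHom.mk' (fun b => AddMonoidHom.mk' (fun c =>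
    AddMonoidHom.mk' (fun d => d * tau (a * b * c))
      (fun d d' => add_mul _ _ _))
      (fun c c' => by
        refine DFunLike.ext _ _ fun d => ?_
        show d * tau (a * b * (c + c')) = d * tau (a * b * c) + d * tau (a * b * c')
        rw [mul_add, tau_add, mul_add]))
      (fun b b' => by
        refine DFunLike.ext _ _ fun c => DFunLike.ext _ _ fun d => ?_
        show d * tau (a * (b + b') * c) = d * tau (a * b * c) + d * tau (a * b' * c)
        rw [mul_add, add_mul, tau_add, mul_add]))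
      (fun a a' => by
        refine DFunLike.ext _ _ fun b => DFunLike.ext _ _ fun c => DFunLike.ext _ _ fun d => ?_
        show d * tau ((a + a') * b * c) = d * tau (a * b * c) + d * tau (a' * b * c)
        rw [add_mul, add_mul, tau_add, mul_add])

theorem Phi_apply (a b c : A Γ) (d : ZMod 2) : Phi a b c d = d * tau (a * b * c) := rfl

theorem Phi_inv (g : Γ × Γ) (a b c : A Γ) (d : ZMod 2) :
    Phi (sg g.1 * a) (b * sg g.2⁻¹) (sg g.2 * c * sg g.1⁻¹) d = Phi a b c d := by
  rw [Phi_apply, Phi_apply]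
  congr 1
  have h1 : (sg g.1 * a) * (b * sg g.2⁻¹) * (sg g.2 * c * sg g.1⁻¹) =
      sg g.1 * (a * b * c) * sg g.1⁻¹ := by
    calc (sg g.1 * a) * (b * sg g.2⁻¹) * (sg g.2 * c * sg g.1⁻¹)
        = sg g.1 * (a * b * (sg g.2⁻¹ * sg g.2) * c) * sg g.1⁻¹ := by
          simp only [mul_assoc]
      _ = _ := by rw [sg_mul, inv_mul_cancel, sg_one, mul_one]
  rw [h1, tau_conj]

end mods

/-! ### the homomorphism to `Γ × Γ` -/

section rho

variable {k : ℕ} {R : List (List (Fin k × Bool))}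

/-- the group with the undecidable word problem -/
abbrev Ga (k : ℕ) (R : List (List (Fin k × Bool))) : Type := PresentedGroup (relSet R)

/-- the generators of `Γ` -/
def ga (k : ℕ) (R : List (List (Fin k × Bool))) (i : ℕ) : Ga k R :=
  if h : i < k then PresentedGroup.of (⟨i, h⟩ : Fin k) else 1

theorem evalW_ga (W : List (Fin k × Bool)) :
    evalW (ga k R) W = PresentedGroup.mk (relSet R) (FreeGroup.mk W) := by
  rw [evalW_eq_lift]
  have : FreeGroup.lift (fun i : Fin k => ga k R i) = PresentedGroup.mk (relSet R) := by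
    ext i
    simp [ga, PresentedGroup.of]
  rw [this]

theorem evalW_ga_rel {r : List (Fin k × Bool)} (hr : r ∈ R) : evalW (ga k R) r = 1 := by
  rw [evalW_ga]
  exact PresentedGroup.one_of_mem ⟨r, hr, rfl⟩

/-- images of the loops in `Γ × Γ` -/
def rg (k : ℕ) (R : List (List (Fin k × Bool))) (i : ℕ) : Ga k R × Ga k R :=
  if i < k then (ga k R i, 1) else (1, ga k R (i - k))

theorem rg_lt {i : ℕ} (hi : i < k) : rg k R i = (ga k R i, 1) := by simp [rg, hi]
theorem rg_ge (i : ℕ) : rg k R (k + i) = (1, ga k R i) := by simp [rg]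
theorem rg_s : rg k R (2 * k) = 1 := by
  have h : ¬ 2 * k < k := by omega
  have h2 : ga k R (2 * k - k) = 1 := by
    unfold ga; rw [dif_neg (by omega)]
  rw [rg, if_neg h, h2]; rfl

theorem evalW_rg (W : List (Fin k × Bool)) : evalW (rg k R) W = (evalW (ga k R) W, 1) := by
  have h1 : evalW (rg k R) W = evalW (fun i => MonoidHom.inl (Ga k R) (Ga k R) (ga k R i)) W :=
    evalW_congr (fun i hi => rg_lt hi) W
  rw [h1, evalW_map_hom]
  rfl

/-- general relations for maps which extend `rg` -/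
theorem rel_rg : PiRel k R (1 : Ga k R × Ga k R) 1 1 (rg k R) := by
  refine ⟨Commute.one_left _, Commute.one_left _, Commute.one_left _, fun _ _ => Commute.one_left _,
    fun _ _ => Commute.one_left _, fun _ _ => Commute.one_left _, ?_⟩
  rw [piWords_iff]
  refine ⟨fun i hi j hj => ?_, fun i hi => ?_, fun r hr => ?_⟩
  · rw [rg_lt hi, rg_ge]
    exact MonoidHom.commute_inl_inr (ga k R i) (ga k R j)
  · rw [rg_s]; exact Commute.one_left _
  · rw [rg_s]; exact Commute.one_left _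

end rho

/-! ### crossed homomorphisms -/

section cross

variable {G Q M : Type} [Group G] [Group Q] [AddCommGroup M] [DistribMulAction Q M] {ρ : G →* Q}
  {α : G → M}

theorem cr_one (h : ∀ g h, α (g * h) = α g + ρ g • α h) : α 1 = 0 := by
  have h1 := h 1 1
  rw [map_one, one_smul, mul_one] at h1
  exact left_eq_add.mp h1

theorem cr_inv (h : ∀ g h, α (g * h) = α g + ρ g • α h) (g : G) : α g⁻¹ = -((ρ g)⁻¹ • α g) := by
  have h1 := h g⁻¹ g
  rw [inv_mul_cancel, cr_one h, map_inv] at h1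
  exact eq_neg_of_add_eq_zero_left h1.symm

theorem cr_evalW (h : ∀ g h, α (g * h) = α g + ρ g • α h) {m : ℕ} {γ : ℕ → G}
    (hγ : ∀ i < m, α (γ i) = 0) (W : List (Fin m × Bool)) : α (evalW γ W) = 0 := by
  induction W with
  | nil => exact cr_one h
  | cons p W ih =>
    rw [evalW_cons, h, ih, smul_zero, add_zero]
    split
    · exact hγ _ p.1.2
    · rw [cr_inv h, hγ _ p.1.2, smul_zero, neg_zero]

end cross

section final

variable {k : ℕ} {R : List (List (Fin k × Bool))}

/-- the relations in the affine group, for elements embedded by `emb` -/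
theorem rel_emb {Q M : Type} [Group Q] [AddCommGroup M] [DistribMulAction Q M] {q : ℕ → Q}
    (hq : PiRel k R (1 : Q) 1 1 q) {m0 m1 mz ms : M} (h0 : ∀ i ∈ piJ1 k, q i • m0 = m0)
    (h1 : ∀ i ∈ piJ2 k, q i • m1 = m1) (hz : ∀ i < 2 * k + 1, q i • mz = mz)
    (hs2 : ∀ i < k, (q i * q (k + i)) • ms = ms)
    (hs3 : ∀ r ∈ R, evalW q r • ms = ms) :
    PiRel k R (⟨m0, 1⟩ : Aff Q M) ⟨m1, 1⟩ ⟨mz, 1⟩
      (fun i => if i = 2 * k then ⟨ms, 1⟩ else ⟨0, q i⟩) := by
  have hc : ∀ a b : M, Commute (⟨a, 1⟩ : Aff Q M) ⟨b, 1⟩ := by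
    intro a b
    apply Aff.ext
    · show a + (1 : Q) • b = b + (1 : Q) • a
      rw [one_smul, one_smul, add_comm]
    · rfl
  have he : ∀ W : List (Fin k × Bool),
      evalW (fun i => if i = 2 * k then (⟨ms, 1⟩ : Aff Q M) else ⟨0, q i⟩) W = emb (evalW q W) := by
    intro W
    rw [← evalW_map_hom]
    refine evalW_congr (fun i hi => ?_) W
    rw [if_neg (by omega)]
    rfl
  refine ⟨hc _ _, hc _ _, hc _ _, ?_, ?_, ?_, ?_⟩
  · intro i hi
    split_ifs with hi2
    · exact hc _ _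
    · exact comm_aff (h0 i hi)
  · intro i hi
    split_ifs with hi2
    · exact hc _ _
    · exact comm_aff (h1 i hi)
  · intro i hi
    split_ifs with hi2
    · exact hc _ _
    · exact comm_aff (hz i hi)
  · rw [piWords_iff]
    have hq' := piWords_iff.mp hq.hrel
    refine ⟨fun i hi j hj => ?_, fun i hi => ?_, fun r hr => ?_⟩
    · rw [if_neg (by omega), if_neg (by omega)]
      exact (hq'.1 i hi j hj).map (emb (M := M))
    · rw [if_pos rfl, if_neg (by omega), if_neg (by omega)]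
      have : (⟨0, q i⟩ : Aff Q M) * ⟨0, q (k + i)⟩ = emb (q i * q (k + i)) := by
        rw [map_mul]; rfl
      rw [this]
      exact comm_aff (hs2 i hi)
    · rw [if_pos rfl, he]
      exact comm_aff (hs3 r hr)

theorem exists_rho (k : ℕ) (R : List (List (Fin k × Bool))) :
    ∃ ρ : PiG k R →* Ga k R × Ga k R, ρ (piMk k R (fx0 k)) = 1 ∧ ρ (piMk k R (fx1 k)) = 1 ∧
      ρ (piMk k R (fz k)) = 1 ∧ ∀ i < 2 * k + 1, ρ (piMk k R (fg k i)) = rg k R i :=
  pi_lift rel_rg

/-- crossed homomorphisms with values `m0, m1, mz, ms` at `x0, x1, z, s` and zero at the letters -/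
theorem exists_cr {M : Type} [AddCommGroup M] [DistribMulAction (Ga k R × Ga k R) M]
    {ρ : PiG k R →* Ga k R × Ga k R} (ρ0 : ρ (piMk k R (fx0 k)) = 1) (ρ1 : ρ (piMk k R (fx1 k)) = 1)
    (ρz : ρ (piMk k R (fz k)) = 1) (ργ : ∀ i < 2 * k + 1, ρ (piMk k R (fg k i)) = rg k R i)
    {m0 m1 mz ms : M} (h0 : ∀ i ∈ piJ1 k, rg k R i • m0 = m0)
    (h1 : ∀ i ∈ piJ2 k, rg k R i • m1 = m1) (hz : ∀ i < 2 * k + 1, rg k R i • mz = mz)
    (hs2 : ∀ i < k, (rg k R i * rg k R (k + i)) • ms = ms) :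
    ∃ α : PiG k R → M, (∀ g h, α (g * h) = α g + ρ g • α h) ∧ α (piMk k R (fx0 k)) = m0 ∧
      α (piMk k R (fx1 k)) = m1 ∧ α (piMk k R (fz k)) = mz ∧
      α (piMk k R (fg k (2 * k))) = ms ∧ ∀ i < 2 * k, α (piMk k R (fg k i)) = 0 := by
  have hq : PiRel k R (1 : Ga k R × Ga k R) 1 1 (rg k R) := rel_rg
  have h := rel_emb (M := M) (m0 := m0) (m1 := m1) (mz := mz) (ms := ms) hq h0 h1 hz hs2 (by
    intro r hr
    rw [evalW_rg, evalW_ga_rel hr]
    exact one_smul _ ms)
  obtain ⟨α, hα, a0, a1, az, aγ⟩ := exists_crossed ρ m0 m1 mz (fun i => if i = 2 * k then ms else 0) (by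
    rw [ρ0, ρ1, ρz]
    refine h.congr fun i hi => ?_
    rw [ργ i hi]
    split_ifs with hi2
    · rw [hi2, rg_s]
    · rfl)
  refine ⟨α, hα, a0, a1, az, ?_, fun i hi => ?_⟩
  · rw [aγ _ (by omega), if_pos rfl]
  · rw [aγ _ (by omega), if_neg (by omega)]

/-- the product of the four crossed homomorphisms does not vanish -/
theorem hasCup_pi {w : List (Fin k × Bool)} (hw : ¬ Triv R w) :
    HasCup (PiG k R) (piMk k R (fx0 k)) (piMk k R (fx1 k))
      (cOf (fun i => piMk k R (fg k i)) w) (piMk k R (fz k)) := by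
  obtain ⟨ρ, ρ0, ρ1, ρz, ργ⟩ := exists_rho k R
  have J1 : ∀ i ∈ piJ1 k, (rg k R i).1 = 1 := by
    intro i hi
    simp only [piJ1, Finset.mem_Icc] at hi
    simp [rg, show ¬ i < k by omega]
  have J2 : ∀ i ∈ piJ2 k, (rg k R i).2 = 1 := by
    intro i hi
    simp only [piJ2, Finset.mem_insert, Finset.mem_range] at hi
    rcases hi with rfl | hi
    · rw [rg_s]; rfl
    · simp [rg, hi]
  obtain ⟨α0, cr0, a00, a01, a0z, a0s, a0γ⟩ := @exists_cr k R (A (Ga k R)) _ act0 ρ ρ0 ρ1 ρz ργ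
    1 0 0 0 (by
      intro i hi
      show sg (rg k R i).1 * 1 = 1
      rw [J1 i hi]; exact mul_one _) (fun i _ => mul_zero _) (fun i _ => mul_zero _)
      (fun i _ => mul_zero _)
  obtain ⟨α1, cr1, a10, a11, a1z, a1s, a1γ⟩ := @exists_cr k R (A (Ga k R)) _ act1 ρ ρ0 ρ1 ρz ργ
    0 1 0 0 (fun i _ => zero_mul _) (by
      intro i hi
      show 1 * sg (rg k R i).2⁻¹ = 1
      rw [J2 i hi, inv_one]; exact one_mul _) (fun i _ => zero_mul _)
      (fun i _ => zero_mul _)
  obtain ⟨α2, cr2, a20, a21, a2z, a2s, a2γ⟩ := @exists_cr k R (A (Ga k R)) _ act2 ρ ρ0 ρ1 ρz ργ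
    0 0 0 1 (fun i _ => act2.smul_zero _) (fun i _ => act2.smul_zero _) (fun i _ => act2.smul_zero _) (by
      intro i hi
      show sg (rg k R i * rg k R (k + i)).2 * 1 * sg (rg k R i * rg k R (k + i)).1⁻¹ = 1
      rw [rg_lt hi, rg_ge, mul_one]
      show sg (1 * ga k R i) * sg (ga k R i * 1)⁻¹ = 1
      rw [sg_mul, one_mul, mul_one, mul_inv_cancel]; rfl)
  obtain ⟨α3, cr3, a30, a31, a3z, a3s, a3γ⟩ := @exists_cr k R (ZMod 2) _ (act3 _) ρ ρ0 ρ1 ρz ργ
    0 0 1 0 (fun i _ => rfl) (fun i _ => rfl) (fun i _ => rfl) (fun i _ => rfl)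
  -- values at the element c
  set γ : ℕ → PiG k R := fun i => piMk k R (fg k i) with hγ
  have ρw : ρ (evalW γ w) = (evalW (ga k R) w, 1) := by
    rw [← evalW_map_hom, ← evalW_rg]
    exact evalW_congr (fun i hi => ργ i (by omega)) w
  have ρs : ρ (γ (2 * k)) = 1 := by rw [ργ _ (by omega), rg_s]
  have val : ∀ {M : Type} [AddCommGroup M] [DistribMulAction (Ga k R × Ga k R) M] (α : PiG k R → M)
      (_ : ∀ g h, α (g * h) = α g + ρ g • α h) (_ : ∀ i < 2 * k, α (γ i) = 0),
      α (cOf γ w) = - α (γ (2 * k)) + ((evalW (ga k R) w, 1) : Ga k R × Ga k R) • α (γ (2 * k)) := by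
    intro M _ _ α hα h0
    have h1 : α (evalW γ w) = 0 := cr_evalW hα (fun i hi => h0 i (by omega)) w
    unfold cOf
    rw [hα, hα, hα, cr_inv hα, cr_inv hα, h1, smul_zero, add_zero, smul_zero, neg_zero, smul_zero,
      add_zero, map_mul, map_inv, ρs, ρw, inv_one, one_smul, one_mul]
  have c0 : α0 (cOf γ w) = 0 := by
    rw [@val _ _ act0 α0 cr0 a0γ, a0s, neg_zero, zero_add]
    exact mul_zero _
  have c1 : α1 (cOf γ w) = 0 := by
    rw [@val _ _ act1 α1 cr1 a1γ, a1s, neg_zero, zero_add]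
    exact zero_mul _
  have c2 : α2 (cOf γ w) = -1 + sg (evalW (ga k R) w)⁻¹ := by
    rw [@val _ _ act2 α2 cr2 a2γ, a2s]
    congr 1
    show sg (1 : Ga k R) * 1 * sg (evalW (ga k R) w)⁻¹ = _
    rw [sg_one, one_mul, one_mul]
  have c3 : α3 (cOf γ w) = 0 := by
    rw [@val _ _ (act3 _) α3 cr3 a3γ, a3s, neg_zero, zero_add]
    rfl
  have hne : evalW (ga k R) w ≠ 1 := by
    rw [evalW_ga]; exact hw
  refine ⟨A (Ga k R), A (Ga k R), A (Ga k R), ZMod 2, inferInstance, inferInstance, inferInstance,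
    inferInstance, @DistribMulAction.compHom (Ga k R × Ga k R) (PiG k R) (A (Ga k R)) _ _ act0 _ ρ,
    @DistribMulAction.compHom (Ga k R × Ga k R) (PiG k R) (A (Ga k R)) _ _ act1 _ ρ,
    @DistribMulAction.compHom (Ga k R × Ga k R) (PiG k R) (A (Ga k R)) _ _ act2 _ ρ,
    act3 _, Phi, α0, α1, α2, α3, ?_, cr0, cr1, cr2, cr3, ⟨a01, c0, a0z⟩, ⟨a10, c1, a1z⟩,
    ⟨a20, a21, a2z⟩, ⟨a30, a31, c3⟩, ?_⟩
  · intro g a b c d
    exact Phi_inv (ρ g) a b c d
  · show Phi (α0 (piMk k R (fx0 k))) (α1 (piMk k R (fx1 k)) * sg (ρ (piMk k R (fx0 k))).2⁻¹)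
      (sg (ρ (piMk k R (fx0 k) * piMk k R (fx1 k))).2 * α2 (cOf γ w) *
        sg (ρ (piMk k R (fx0 k) * piMk k R (fx1 k))).1⁻¹) (α3 (piMk k R (fz k))) = 1
    have e2 : (1 : Ga k R × Ga k R).1⁻¹ = 1 := inv_one
    have e3 : (1 : Ga k R × Ga k R).2⁻¹ = 1 := inv_one
    have e4 : (1 : Ga k R × Ga k R).2 = 1 := rfl
    rw [map_mul ρ, ρ0, ρ1, mul_one (1 : Ga k R × Ga k R), e2, e3, e4, a00, a11, a3z, c2, sg_one, Phi_apply]
    simp only [one_mul, mul_one]
    rw [tau_add]
    have h1 : tau (-1 : A (Ga k R)) = 1 := by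
      unfold tau
      rw [MonoidAlgebra.coeff_neg]
      simp
    have h2 : tau (sg (evalW (ga k R) w)⁻¹) = 0 := by
      classical
      unfold tau
      rw [MonoidAlgebra.coeff_single, Finsupp.single_apply, if_neg]
      intro h
      exact hne (inv_eq_one.mp h)
    rw [h1, h2, add_zero]

end final

end G2

end Pool.Agent.FM
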