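import Pool.Agent.FM.Defs2

/-!
# The chain of 4-simplices of a hypersurface is a cycle modulo two, and cup products of four
crossed homomorphisms one of which can be killed on every simplex
-/

open Set Topology

namespace Pool.Agent.FM

namespace N01

variable {N : ℕ}

theorem sh_comm {v : Fin 5 → ZMod N} {i j : Fin 5} (h : i ≠ j) :
    sh (sh v i) j = sh (sh v j) i := by
  unfold sh
  rw [Function.update_of_ne h.symm, Function.update_of_ne h, Function.update_comm h.symm]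

theorem shi_comm {v : Fin 5 → ZMod N} {i j : Fin 5} (h : i ≠ j) :
    shi (shi v i) j = shi (shi v j) i := by
  unfold shi
  rw [Function.update_of_ne h.symm, Function.update_of_ne h, Function.update_comm h.symm]

theorem shi_sh (v : Fin 5 → ZMod N) (i : Fin 5) : shi (sh v i) i = v := by
  unfold sh shi
  simp

theorem sh_shi (v : Fin 5 → ZMod N) (i : Fin 5) : sh (shi v i) i = v := by
  unfold sh shi
  simp

/-- `sh · i` as a permutation of the lattice -/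
def shE (N : ℕ) (i : Fin 5) : (Fin 5 → ZMod N) ≃ (Fin 5 → ZMod N) :=
  ⟨fun v => sh v i, fun v => shi v i, fun v => shi_sh v i, fun v => sh_shi v i⟩

theorem two_add (a : ZMod 2) : a + a = 0 := CharTwo.add_self_eq_zero a

theorem sum_perm_zero (f : Equiv.Perm (Fin 5) → ZMod 2) (i j : Fin 5) (hij : i ≠ j)
    (h : ∀ σ, f (σ * Equiv.swap i j) = f σ) : ∑ σ, f σ = 0 := by
  refine Finset.sum_involution (fun σ _ => σ * Equiv.swap i j) ?_ ?_ ?_ ?_
  · intro σ _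
    rw [h]
    exact two_add _
  · intro σ _ _ he
    have : Equiv.swap i j = 1 := by
      have := congrArg (fun τ => σ⁻¹ * τ) he
      simpa using this
    have h2 := congrArg (fun τ : Equiv.Perm (Fin 5) => τ i) this
    simp at h2
    exact hij h2.symm
  · intro σ _
    exact Finset.mem_univ _
  · intro σ _
    simp [mul_assoc]

theorem ne_of {σ : Equiv.Perm (Fin 5)} {i j : Fin 5} (h : i ≠ j) : σ i ≠ σ j :=
  fun he => h (σ.injective he)

end N01

open N01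

/-- the sum over the 4-simplices of the boundary of a set of cubes of the coboundary of a cochain
is zero -/
theorem sum_boundary {N : ℕ} [NeZero N] (w : (Fin 5 → ZMod N) → ZMod 2)
    (θ : (Fin 5 → ZMod N) → (Fin 5 → ZMod N) → (Fin 5 → ZMod N) → (Fin 5 → ZMod N) → ZMod 2) :
    ∑ q : Fin 5 → ZMod N, ∑ σ : Equiv.Perm (Fin 5), (w q + w (shi q (σ 0))) *
      (θ (simp4 q σ 1) (simp4 q σ 2) (simp4 q σ 3) (simp4 q σ 4) +
       θ (simp4 q σ 0) (simp4 q σ 2) (simp4 q σ 3) (simp4 q σ 4) +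
       θ (simp4 q σ 0) (simp4 q σ 1) (simp4 q σ 3) (simp4 q σ 4) +
       θ (simp4 q σ 0) (simp4 q σ 1) (simp4 q σ 2) (simp4 q σ 4) +
       θ (simp4 q σ 0) (simp4 q σ 1) (simp4 q σ 2) (simp4 q σ 3)) = 0 := by
  have d0 : ∀ (q : Fin 5 → ZMod N) σ, simp4 q σ 0 = q := fun q σ => rfl
  have d1 : ∀ (q : Fin 5 → ZMod N) σ, simp4 q σ 1 = sh q (σ 1) := fun q σ => rfl
  have d2 : ∀ (q : Fin 5 → ZMod N) σ, simp4 q σ 2 = sh (sh q (σ 1)) (σ 2) := fun q σ => rfl
  have d3 : ∀ (q : Fin 5 → ZMod N) σ, simp4 q σ 3 = sh (sh (sh q (σ 1)) (σ 2)) (σ 3) :=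
    fun q σ => rfl
  have d4 : ∀ (q : Fin 5 → ZMod N) σ,
    simp4 q σ 4 = sh (sh (sh (sh q (σ 1)) (σ 2)) (σ 3)) (σ 4) := fun q σ => rfl
  have s1 : ∑ e : Fin 5 → ZMod N, ∑ σ : Equiv.Perm (Fin 5), (w e + w (shi e (σ 0))) *
      θ (simp4 e σ 0) (simp4 e σ 2) (simp4 e σ 3) (simp4 e σ 4) = 0 := by
    refine Finset.sum_eq_zero fun e _ =>
      sum_perm_zero _ 1 2 (by decide) fun (σ : Equiv.Perm (Fin 5)) => ?_
    have a0 : (σ * Equiv.swap (1 : Fin 5) 2 : Equiv.Perm (Fin 5)) 0 = σ 0 := by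
      rw [Equiv.Perm.mul_apply, Equiv.swap_apply_of_ne_of_ne (by decide) (by decide)]
    have a1 : (σ * Equiv.swap (1 : Fin 5) 2 : Equiv.Perm (Fin 5)) 1 = σ 2 := by simp
    have a2 : (σ * Equiv.swap (1 : Fin 5) 2 : Equiv.Perm (Fin 5)) 2 = σ 1 := by simp
    have a3 : (σ * Equiv.swap (1 : Fin 5) 2 : Equiv.Perm (Fin 5)) 3 = σ 3 := by
      rw [Equiv.Perm.mul_apply, Equiv.swap_apply_of_ne_of_ne (by decide) (by decide)]
    have a4 : (σ * Equiv.swap (1 : Fin 5) 2 : Equiv.Perm (Fin 5)) 4 = σ 4 := by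
      rw [Equiv.Perm.mul_apply, Equiv.swap_apply_of_ne_of_ne (by decide) (by decide)]
    simp only [d0, d2, d3, d4, a0, a1, a2, a3, a4]
    rw [sh_comm (v := e) (i := σ 2) (j := σ 1) (ne_of (by decide))]
  have s2 : ∑ e : Fin 5 → ZMod N, ∑ σ : Equiv.Perm (Fin 5), (w e + w (shi e (σ 0))) *
      θ (simp4 e σ 0) (simp4 e σ 1) (simp4 e σ 3) (simp4 e σ 4) = 0 := by
    refine Finset.sum_eq_zero fun e _ =>
      sum_perm_zero _ 2 3 (by decide) fun (σ : Equiv.Perm (Fin 5)) => ?_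
    have a0 : (σ * Equiv.swap (2 : Fin 5) 3 : Equiv.Perm (Fin 5)) 0 = σ 0 := by
      rw [Equiv.Perm.mul_apply, Equiv.swap_apply_of_ne_of_ne (by decide) (by decide)]
    have a1 : (σ * Equiv.swap (2 : Fin 5) 3 : Equiv.Perm (Fin 5)) 1 = σ 1 := by
      rw [Equiv.Perm.mul_apply, Equiv.swap_apply_of_ne_of_ne (by decide) (by decide)]
    have a2 : (σ * Equiv.swap (2 : Fin 5) 3 : Equiv.Perm (Fin 5)) 2 = σ 3 := by simp
    have a3 : (σ * Equiv.swap (2 : Fin 5) 3 : Equiv.Perm (Fin 5)) 3 = σ 2 := by simp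
    have a4 : (σ * Equiv.swap (2 : Fin 5) 3 : Equiv.Perm (Fin 5)) 4 = σ 4 := by
      rw [Equiv.Perm.mul_apply, Equiv.swap_apply_of_ne_of_ne (by decide) (by decide)]
    simp only [d0, d1, d3, d4, a0, a1, a2, a3, a4]
    rw [sh_comm (v := sh e (σ 1)) (i := σ 3) (j := σ 2) (ne_of (by decide))]
  have s3 : ∑ e : Fin 5 → ZMod N, ∑ σ : Equiv.Perm (Fin 5), (w e + w (shi e (σ 0))) *
      θ (simp4 e σ 0) (simp4 e σ 1) (simp4 e σ 2) (simp4 e σ 4) = 0 := by
    refine Finset.sum_eq_zero fun e _ =>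
      sum_perm_zero _ 3 4 (by decide) fun (σ : Equiv.Perm (Fin 5)) => ?_
    have a0 : (σ * Equiv.swap (3 : Fin 5) 4 : Equiv.Perm (Fin 5)) 0 = σ 0 := by
      rw [Equiv.Perm.mul_apply, Equiv.swap_apply_of_ne_of_ne (by decide) (by decide)]
    have a1 : (σ * Equiv.swap (3 : Fin 5) 4 : Equiv.Perm (Fin 5)) 1 = σ 1 := by
      rw [Equiv.Perm.mul_apply, Equiv.swap_apply_of_ne_of_ne (by decide) (by decide)]
    have a2 : (σ * Equiv.swap (3 : Fin 5) 4 : Equiv.Perm (Fin 5)) 2 = σ 2 := by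
      rw [Equiv.Perm.mul_apply, Equiv.swap_apply_of_ne_of_ne (by decide) (by decide)]
    have a3 : (σ * Equiv.swap (3 : Fin 5) 4 : Equiv.Perm (Fin 5)) 3 = σ 4 := by simp
    have a4 : (σ * Equiv.swap (3 : Fin 5) 4 : Equiv.Perm (Fin 5)) 4 = σ 3 := by simp
    simp only [d0, d1, d2, d4, a0, a1, a2, a3, a4]
    rw [sh_comm (v := sh (sh e (σ 1)) (σ 2)) (i := σ 4) (j := σ 3) (ne_of (by decide))]
  -- the first and the last face
  have s0 : ∑ e : Fin 5 → ZMod N, ∑ σ : Equiv.Perm (Fin 5), (w e + w (shi e (σ 0))) *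
      θ (simp4 e σ 1) (simp4 e σ 2) (simp4 e σ 3) (simp4 e σ 4) =
      ∑ e : Fin 5 → ZMod N, ∑ σ : Equiv.Perm (Fin 5),
        (w (shi e (σ 1)) + w (shi (shi e (σ 1)) (σ 0))) *
        θ e (sh e (σ 2)) (sh (sh e (σ 2)) (σ 3)) (sh (sh (sh e (σ 2)) (σ 3)) (σ 4)) := by
    rw [Finset.sum_comm, Finset.sum_comm (s := (Finset.univ : Finset (Fin 5 → ZMod N)))]
    refine Finset.sum_congr rfl fun σ _ => ?_
    refine Fintype.sum_equiv (shE N (σ 1)) _ _ fun e => ?_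
    show _ = (w (shi (sh e (σ 1)) (σ 1)) + w (shi (shi (sh e (σ 1)) (σ 1)) (σ 0))) * _
    rw [shi_sh]
    rfl
  have s4 : ∑ e : Fin 5 → ZMod N, ∑ σ : Equiv.Perm (Fin 5), (w e + w (shi e (σ 0))) *
      θ (simp4 e σ 0) (simp4 e σ 1) (simp4 e σ 2) (simp4 e σ 3) =
      ∑ e : Fin 5 → ZMod N, ∑ σ : Equiv.Perm (Fin 5), (w e + w (shi e (σ 0))) *
        θ e (sh e (σ 2)) (sh (sh e (σ 2)) (σ 3)) (sh (sh (sh e (σ 2)) (σ 3)) (σ 4)) := by
    refine Finset.sum_congr rfl fun e _ => ?_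
    let ρ : Equiv.Perm (Fin 5) := Equiv.swap 1 2 * Equiv.swap 2 3 * Equiv.swap 3 4
    have r0 : ρ 0 = 0 := by decide
    have r1 : ρ 1 = 2 := by decide
    have r2 : ρ 2 = 3 := by decide
    have r3 : ρ 3 = 4 := by decide
    symm
    refine Fintype.sum_equiv (Equiv.mulRight ρ) _ _ fun σ => ?_
    simp only [Equiv.coe_mulRight, d0, d1, d2, d3, Equiv.Perm.mul_apply, r0, r1, r2, r3]
  have s04 : ∑ e : Fin 5 → ZMod N, ∑ σ : Equiv.Perm (Fin 5), (w e + w (shi e (σ 0))) *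
      θ (simp4 e σ 1) (simp4 e σ 2) (simp4 e σ 3) (simp4 e σ 4) +
      ∑ e : Fin 5 → ZMod N, ∑ σ : Equiv.Perm (Fin 5), (w e + w (shi e (σ 0))) *
      θ (simp4 e σ 0) (simp4 e σ 1) (simp4 e σ 2) (simp4 e σ 3) = 0 := by
    rw [s0, s4, ← Finset.sum_add_distrib]
    refine Finset.sum_eq_zero fun e _ => ?_
    rw [← Finset.sum_add_distrib]
    refine sum_perm_zero _ 0 1 (by decide) fun (σ : Equiv.Perm (Fin 5)) => ?_
    have a0 : (σ * Equiv.swap (0 : Fin 5) 1 : Equiv.Perm (Fin 5)) 0 = σ 1 := by simp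
    have a1 : (σ * Equiv.swap (0 : Fin 5) 1 : Equiv.Perm (Fin 5)) 1 = σ 0 := by simp
    have a2 : (σ * Equiv.swap (0 : Fin 5) 1 : Equiv.Perm (Fin 5)) 2 = σ 2 := by
      rw [Equiv.Perm.mul_apply, Equiv.swap_apply_of_ne_of_ne (by decide) (by decide)]
    have a3 : (σ * Equiv.swap (0 : Fin 5) 1 : Equiv.Perm (Fin 5)) 3 = σ 3 := by
      rw [Equiv.Perm.mul_apply, Equiv.swap_apply_of_ne_of_ne (by decide) (by decide)]
    have a4 : (σ * Equiv.swap (0 : Fin 5) 1 : Equiv.Perm (Fin 5)) 4 = σ 4 := by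
      rw [Equiv.Perm.mul_apply, Equiv.swap_apply_of_ne_of_ne (by decide) (by decide)]
    simp only [a0, a1, a2, a3, a4]
    rw [shi_comm (v := e) (i := σ 0) (j := σ 1) (ne_of (by decide))]
    ring
  have e1 : ∀ (e : Fin 5 → ZMod N) (σ : Equiv.Perm (Fin 5)), (w e + w (shi e (σ 0))) *
      (θ (simp4 e σ 1) (simp4 e σ 2) (simp4 e σ 3) (simp4 e σ 4) +
       θ (simp4 e σ 0) (simp4 e σ 2) (simp4 e σ 3) (simp4 e σ 4) +
       θ (simp4 e σ 0) (simp4 e σ 1) (simp4 e σ 3) (simp4 e σ 4) +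
       θ (simp4 e σ 0) (simp4 e σ 1) (simp4 e σ 2) (simp4 e σ 4) +
       θ (simp4 e σ 0) (simp4 e σ 1) (simp4 e σ 2) (simp4 e σ 3)) =
      (w e + w (shi e (σ 0))) * θ (simp4 e σ 1) (simp4 e σ 2) (simp4 e σ 3) (simp4 e σ 4) +
      (w e + w (shi e (σ 0))) * θ (simp4 e σ 0) (simp4 e σ 2) (simp4 e σ 3) (simp4 e σ 4) +
      (w e + w (shi e (σ 0))) * θ (simp4 e σ 0) (simp4 e σ 1) (simp4 e σ 3) (simp4 e σ 4) +
      (w e + w (shi e (σ 0))) * θ (simp4 e σ 0) (simp4 e σ 1) (simp4 e σ 2) (simp4 e σ 4) +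
      (w e + w (shi e (σ 0))) * θ (simp4 e σ 0) (simp4 e σ 1) (simp4 e σ 2) (simp4 e σ 3) := by
    intro e σ; ring
  simp only [e1, Finset.sum_add_distrib, s1, s2, s3, add_zero]
  exact s04

/-! ### telescoping -/

section tele

variable {G : Type} [Group G] {M0 M1 M2 M3 : Type} [AddCommGroup M0] [AddCommGroup M1]
  [AddCommGroup M2] [AddCommGroup M3] [DistribMulAction G M0] [DistribMulAction G M1]
  [DistribMulAction G M2] [DistribMulAction G M3]

/-- the coboundary of `f` -/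
def cob {P M : Type} [AddCommGroup M] [DistribMulAction G M] (m : P → P → G) (f : P → M)
    (x y : P) : M := m x y • f y - f x

/-- twisted cocycle on the five points `p` -/
def Coc {P M : Type} [AddCommGroup M] [DistribMulAction G M] (m : P → P → G) (a : P → P → M)
    (p : Fin 5 → P) : Prop :=
  ∀ i j k : Fin 5, i < j → j < k → a (p i) (p k) = a (p i) (p j) + m (p i) (p j) • a (p j) (p k)

/-- multiplicative cocycle on the five points `p` -/
def MCoc {P : Type} (m : P → P → G) (p : Fin 5 → P) : Prop :=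
  ∀ i j k : Fin 5, i < j → j < k → m (p i) (p j) * m (p j) (p k) = m (p i) (p k)

variable {P : Type} (Φ : M0 →+ M1 →+ M2 →+ M3 →+ ZMod 2)

theorem zmod2_two : (2 : ZMod 2) = 0 := rfl

theorem tele0 (hΦ : ∀ (g : G) a b c d, Φ (g • a) (g • b) (g • c) (g • d) = Φ a b c d)
    (m : P → P → G) (p : Fin 5 → P) (hm : MCoc m p)
    (f : P → M0) (a1 : P → P → M1) (a2 : P → P → M2) (a3 : P → P → M3)
    (h1 : Coc m a1 p) (h2 : Coc m a2 p) (h3 : Coc m a3 p) :
    let θ : P → P → P → P → ZMod 2 := fun q0 q1 q2 q3 =>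
      Φ (f q0) (a1 q0 q1) (m q0 q1 • a2 q1 q2) (m q0 q2 • a3 q2 q3)
    cup Φ m (cob m f) a1 a2 a3 p = θ (p 1) (p 2) (p 3) (p 4) + θ (p 0) (p 2) (p 3) (p 4) +
      θ (p 0) (p 1) (p 3) (p 4) + θ (p 0) (p 1) (p 2) (p 4) + θ (p 0) (p 1) (p 2) (p 3) := by
  intro θ
  have m012 := hm 0 1 2 (by decide) (by decide)
  have m013 := hm 0 1 3 (by decide) (by decide)
  have e1 : θ (p 1) (p 2) (p 3) (p 4) = Φ (m (p 0) (p 1) • f (p 1)) (m (p 0) (p 1) • a1 (p 1) (p 2))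
      (m (p 0) (p 2) • a2 (p 2) (p 3)) (m (p 0) (p 3) • a3 (p 3) (p 4)) := by
    show Φ _ _ _ _ = _
    rw [← hΦ (m (p 0) (p 1)), smul_smul, smul_smul, m012, m013]
  rw [e1]
  simp only [θ, cup, cob]
  rw [h1 0 1 2 (by decide) (by decide), h2 1 2 3 (by decide) (by decide),
    h3 2 3 4 (by decide) (by decide)]
  simp only [smul_add, map_add, map_sub, AddMonoidHom.add_apply, AddMonoidHom.sub_apply, smul_smul,
    m012, hm 0 2 3 (by decide) (by decide)]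
  rw [← sub_eq_zero]
  ring_nf
  reduce_mod_char

theorem tele1 (hΦ : ∀ (g : G) a b c d, Φ (g • a) (g • b) (g • c) (g • d) = Φ a b c d)
    (m : P → P → G) (p : Fin 5 → P) (hm : MCoc m p)
    (a0 : P → P → M0) (f : P → M1) (a2 : P → P → M2) (a3 : P → P → M3)
    (h0 : Coc m a0 p) (h2 : Coc m a2 p) (h3 : Coc m a3 p) :
    let θ : P → P → P → P → ZMod 2 := fun q0 q1 q2 q3 =>
      Φ (a0 q0 q1) (m q0 q1 • f q1) (m q0 q1 • a2 q1 q2) (m q0 q2 • a3 q2 q3)
    cup Φ m a0 (cob m f) a2 a3 p = θ (p 1) (p 2) (p 3) (p 4) + θ (p 0) (p 2) (p 3) (p 4) +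
      θ (p 0) (p 1) (p 3) (p 4) + θ (p 0) (p 1) (p 2) (p 4) + θ (p 0) (p 1) (p 2) (p 3) := by
  intro θ
  have m012 := hm 0 1 2 (by decide) (by decide)
  have m013 := hm 0 1 3 (by decide) (by decide)
  have m023 := hm 0 2 3 (by decide) (by decide)
  have e1 : θ (p 1) (p 2) (p 3) (p 4) = Φ (m (p 0) (p 1) • a0 (p 1) (p 2))
      (m (p 0) (p 2) • f (p 2))
      (m (p 0) (p 2) • a2 (p 2) (p 3)) (m (p 0) (p 3) • a3 (p 3) (p 4)) := by
    show Φ _ _ _ _ = _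
    rw [← hΦ (m (p 0) (p 1)), smul_smul, smul_smul, smul_smul, m012, m013]
  rw [e1]
  simp only [θ, cup, cob]
  rw [h0 0 1 2 (by decide) (by decide), h2 1 2 3 (by decide) (by decide),
    h3 2 3 4 (by decide) (by decide)]
  simp only [smul_add, smul_sub, map_add, map_sub, AddMonoidHom.add_apply, AddMonoidHom.sub_apply,
    smul_smul, m012, m023]
  rw [← sub_eq_zero]
  ring_nf
  reduce_mod_char

theorem tele2 (hΦ : ∀ (g : G) a b c d, Φ (g • a) (g • b) (g • c) (g • d) = Φ a b c d)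
    (m : P → P → G) (p : Fin 5 → P) (hm : MCoc m p)
    (a0 : P → P → M0) (a1 : P → P → M1) (f : P → M2) (a3 : P → P → M3)
    (h0 : Coc m a0 p) (h1 : Coc m a1 p) (h3 : Coc m a3 p) :
    let θ : P → P → P → P → ZMod 2 := fun q0 q1 q2 q3 =>
      Φ (a0 q0 q1) (m q0 q1 • a1 q1 q2) (m q0 q2 • f q2) (m q0 q2 • a3 q2 q3)
    cup Φ m a0 a1 (cob m f) a3 p = θ (p 1) (p 2) (p 3) (p 4) + θ (p 0) (p 2) (p 3) (p 4) +
      θ (p 0) (p 1) (p 3) (p 4) + θ (p 0) (p 1) (p 2) (p 4) + θ (p 0) (p 1) (p 2) (p 3) := by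
  intro θ
  have m012 := hm 0 1 2 (by decide) (by decide)
  have m013 := hm 0 1 3 (by decide) (by decide)
  have m023 := hm 0 2 3 (by decide) (by decide)
  have e1 : θ (p 1) (p 2) (p 3) (p 4) = Φ (m (p 0) (p 1) • a0 (p 1) (p 2))
      (m (p 0) (p 2) • a1 (p 2) (p 3))
      (m (p 0) (p 3) • f (p 3)) (m (p 0) (p 3) • a3 (p 3) (p 4)) := by
    show Φ _ _ _ _ = _
    rw [← hΦ (m (p 0) (p 1)), smul_smul, smul_smul, smul_smul, m012, m013]
  rw [e1]
  simp only [θ, cup, cob]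
  rw [h0 0 1 2 (by decide) (by decide), h1 1 2 3 (by decide) (by decide),
    h3 2 3 4 (by decide) (by decide)]
  simp only [smul_add, smul_sub, map_add, map_sub, AddMonoidHom.add_apply, AddMonoidHom.sub_apply,
    smul_smul, m012, m023]
  rw [← sub_eq_zero]
  ring_nf
  reduce_mod_char

theorem tele3 (hΦ : ∀ (g : G) a b c d, Φ (g • a) (g • b) (g • c) (g • d) = Φ a b c d)
    (m : P → P → G) (p : Fin 5 → P) (hm : MCoc m p)
    (a0 : P → P → M0) (a1 : P → P → M1) (a2 : P → P → M2) (f : P → M3)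
    (h0 : Coc m a0 p) (h1 : Coc m a1 p) (h2 : Coc m a2 p) :
    let θ : P → P → P → P → ZMod 2 := fun q0 q1 q2 q3 =>
      Φ (a0 q0 q1) (m q0 q1 • a1 q1 q2) (m q0 q2 • a2 q2 q3) (m q0 q3 • f q3)
    cup Φ m a0 a1 a2 (cob m f) p = θ (p 1) (p 2) (p 3) (p 4) + θ (p 0) (p 2) (p 3) (p 4) +
      θ (p 0) (p 1) (p 3) (p 4) + θ (p 0) (p 1) (p 2) (p 4) + θ (p 0) (p 1) (p 2) (p 3) := by
  intro θ
  have m012 := hm 0 1 2 (by decide) (by decide)
  have m013 := hm 0 1 3 (by decide) (by decide)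
  have m014 := hm 0 1 4 (by decide) (by decide)
  have m023 := hm 0 2 3 (by decide) (by decide)
  have m034 := hm 0 3 4 (by decide) (by decide)
  have e1 : θ (p 1) (p 2) (p 3) (p 4) = Φ (m (p 0) (p 1) • a0 (p 1) (p 2))
      (m (p 0) (p 2) • a1 (p 2) (p 3))
      (m (p 0) (p 3) • a2 (p 3) (p 4)) (m (p 0) (p 4) • f (p 4)) := by
    show Φ _ _ _ _ = _
    rw [← hΦ (m (p 0) (p 1)), smul_smul, smul_smul, smul_smul, m012, m013, m014]
  rw [e1]
  simp only [θ, cup, cob]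
  rw [h0 0 1 2 (by decide) (by decide), h1 1 2 3 (by decide) (by decide),
    h2 2 3 4 (by decide) (by decide)]
  simp only [smul_add, smul_sub, map_add, map_sub, AddMonoidHom.add_apply, AddMonoidHom.sub_apply,
    smul_smul, m012, m023, m034]
  rw [← sub_eq_zero]
  ring_nf
  reduce_mod_char

theorem coc_of_mcoc {P M : Type} [AddCommGroup M] [DistribMulAction G M] {m : P → P → G}
    {p : Fin 5 → P} (hm : MCoc m p) {α : G → M} (hα : ∀ g h, α (g * h) = α g + g • α h) :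
    Coc m (fun x y => α (m x y)) p := by
  intro i j k hij hjk
  show α _ = _
  rw [← hm i j k hij hjk, hα]

theorem coc_modif {P M : Type} [AddCommGroup M] [DistribMulAction G M] {m : P → P → G}
    {p : Fin 5 → P} (hm : MCoc m p) {α : G → M} (hα : ∀ g h, α (g * h) = α g + g • α h)
    (f : P → M) : Coc m (modif m α f) p := by
  intro i j k hij hjk
  unfold modif
  rw [← hm i j k hij hjk, hα, smul_sub, smul_add, smul_smul]
  abel

theorem alpha_eq {P M : Type} [AddCommGroup M] [DistribMulAction G M] (m : P → P → G)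
    (α : G → M) (f : P → M) (x y : P) : α (m x y) = cob m f x y + modif m α f x y := by
  unfold cob modif
  abel

/-- the sum of the cup product of four crossed homomorphisms over the boundary of a set of cubes
vanishes if on every simplex one of them is killed by a coboundary -/
theorem cup_sum_zero {N : ℕ} [NeZero N] (pos : (Fin 5 → ZMod N) → P)
    (w : (Fin 5 → ZMod N) → ZMod 2)
    (hΦ : ∀ (g : G) a b c d, Φ (g • a) (g • b) (g • c) (g • d) = Φ a b c d)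
    (m : P → P → G) (α0 : G → M0) (α1 : G → M1) (α2 : G → M2) (α3 : G → M3)
    (h0 : ∀ g h, α0 (g * h) = α0 g + g • α0 h) (h1 : ∀ g h, α1 (g * h) = α1 g + g • α1 h)
    (h2 : ∀ g h, α2 (g * h) = α2 g + g • α2 h) (h3 : ∀ g h, α3 (g * h) = α3 g + g • α3 h)
    (f0 : P → M0) (f1 : P → M1) (f2 : P → M2) (f3 : P → M3)
    (hm : ∀ (q : Fin 5 → ZMod N) (σ : Equiv.Perm (Fin 5)), w q ≠ w (shi q (σ 0)) →
      MCoc m (fun i => pos (simp4 q σ i)))
    (hz : ∀ (q : Fin 5 → ZMod N) (σ : Equiv.Perm (Fin 5)), w q ≠ w (shi q (σ 0)) →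
      modif m α0 f0 (pos (simp4 q σ 0)) (pos (simp4 q σ 1)) = 0 ∨
      modif m α1 f1 (pos (simp4 q σ 1)) (pos (simp4 q σ 2)) = 0 ∨
      modif m α2 f2 (pos (simp4 q σ 2)) (pos (simp4 q σ 3)) = 0 ∨
      modif m α3 f3 (pos (simp4 q σ 3)) (pos (simp4 q σ 4)) = 0) :
    ∑ q : Fin 5 → ZMod N, ∑ σ : Equiv.Perm (Fin 5), (w q + w (shi q (σ 0))) *
      cup Φ m (fun x y => α0 (m x y)) (fun x y => α1 (m x y)) (fun x y => α2 (m x y))
        (fun x y => α3 (m x y)) (fun i => pos (simp4 q σ i)) = 0 := by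
  let θ0 : P → P → P → P → ZMod 2 := fun q0 q1 q2 q3 =>
    Φ (f0 q0) (α1 (m q0 q1)) (m q0 q1 • α2 (m q1 q2)) (m q0 q2 • α3 (m q2 q3))
  let θ1 : P → P → P → P → ZMod 2 := fun q0 q1 q2 q3 =>
    Φ (modif m α0 f0 q0 q1) (m q0 q1 • f1 q1) (m q0 q1 • α2 (m q1 q2)) (m q0 q2 • α3 (m q2 q3))
  let θ2 : P → P → P → P → ZMod 2 := fun q0 q1 q2 q3 =>
    Φ (modif m α0 f0 q0 q1) (m q0 q1 • modif m α1 f1 q1 q2) (m q0 q2 • f2 q2)
      (m q0 q2 • α3 (m q2 q3))
  let θ3 : P → P → P → P → ZMod 2 := fun q0 q1 q2 q3 =>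
    Φ (modif m α0 f0 q0 q1) (m q0 q1 • modif m α1 f1 q1 q2) (m q0 q2 • modif m α2 f2 q2 q3)
      (m q0 q3 • f3 q3)
  let θ : P → P → P → P → ZMod 2 := fun a b c d => θ0 a b c d + θ1 a b c d + θ2 a b c d +
    θ3 a b c d
  have key := sum_boundary w (fun a b c d => θ (pos a) (pos b) (pos c) (pos d))
  rw [← key]
  refine Finset.sum_congr rfl fun q _ => Finset.sum_congr rfl fun σ _ => ?_
  by_cases hw : w q = w (shi q (σ 0))
  · have : w q + w (shi q (σ 0)) = 0 := by rw [hw]; exact two_add _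
    rw [this, zero_mul, zero_mul]
  congr 1
  set p : Fin 5 → P := fun i => pos (simp4 q σ i) with hp
  have hmp : MCoc m p := hm q σ hw
  have c0 := coc_of_mcoc hmp h0
  have c1 := coc_of_mcoc hmp h1
  have c2 := coc_of_mcoc hmp h2
  have c3 := coc_of_mcoc hmp h3
  have k0 := coc_modif hmp h0 f0
  have k1 := coc_modif hmp h1 f1
  have k2 := coc_modif hmp h2 f2
  have t0 := tele0 Φ hΦ m p hmp f0 _ _ _ c1 c2 c3
  have t1 := tele1 Φ hΦ m p hmp _ f1 _ _ k0 c2 c3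
  have t2 := tele2 Φ hΦ m p hmp _ _ f2 _ k0 k1 c3
  have t3 := tele3 Φ hΦ m p hmp _ _ _ f3 k0 k1 k2
  have hz' : Φ (modif m α0 f0 (p 0) (p 1)) (m (p 0) (p 1) • modif m α1 f1 (p 1) (p 2))
      (m (p 0) (p 2) • modif m α2 f2 (p 2) (p 3)) (m (p 0) (p 3) • modif m α3 f3 (p 3) (p 4)) = 0 := by
    rcases hz q σ hw with h | h | h | h
    · rw [show modif m α0 f0 (p 0) (p 1) = 0 from h]; simp
    · rw [show modif m α1 f1 (p 1) (p 2) = 0 from h]; simp
    · rw [show modif m α2 f2 (p 2) (p 3) = 0 from h]; simp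
    · rw [show modif m α3 f3 (p 3) (p 4) = 0 from h]; simp
  have e : cup Φ m (fun x y => α0 (m x y)) (fun x y => α1 (m x y)) (fun x y => α2 (m x y))
        (fun x y => α3 (m x y)) p =
      cup Φ m (cob m f0) (fun x y => α1 (m x y)) (fun x y => α2 (m x y)) (fun x y => α3 (m x y)) p +
      cup Φ m (modif m α0 f0) (cob m f1) (fun x y => α2 (m x y)) (fun x y => α3 (m x y)) p +
      cup Φ m (modif m α0 f0) (modif m α1 f1) (cob m f2) (fun x y => α3 (m x y)) p +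
      cup Φ m (modif m α0 f0) (modif m α1 f1) (modif m α2 f2) (cob m f3) p := by
    rw [← add_zero (cup Φ m (modif m α0 f0) (modif m α1 f1) (modif m α2 f2) (cob m f3) p), ← hz']
    simp only [cup]
    rw [alpha_eq m α0 f0, alpha_eq m α1 f1, alpha_eq m α2 f2, alpha_eq m α3 f3]
    simp only [smul_add, map_add, AddMonoidHom.add_apply]
    abel
  rw [e, t0, t1, t2, t3]
  simp only [θ, θ0, θ1, θ2, θ3, hp]
  ring

end tele

end Pool.Agent.FM
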